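import Pool.Agent.Lib.MP_50bb2e_nt.Anf.Iface
import Pool.Agent.Lib.MP_50bb2e_nt.Imq.Gact

/-!
MP_50bb2e_nt, board ANF, row ACX: the action of `SL_2(K)` on the points.
-/

namespace Pool.Agent.Lib.MP_50bb2e_nt.Anf.Acx

open Complex NumberField
open scoped ComplexConjugate
open Pool.Agent.Lib.MP_50bb2e_nt.Imq (SLC SLK toC actz acty den)
open Pool.Agent.Lib.MP_50bb2e_nt.Imq.Gact (acty_pos actz_mul acty_mul det_c)
open Pool.Agent.Lib.MP_50bb2e_nt.Bia.Act (norm_sq_c)

section

variable {K : Type} [Field K]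

theorem toC_apply (i : K →+* ℂ) (g : SLK K) (a b : Fin 2) : toC i g a b = i (g a b) := by
  simp [toC]

theorem toC_mul (i : K →+* ℂ) (g h : SLK K) : toC i (g * h) = toC i g * toC i h := by
  simp [toC]

theorem toC_one (i : K →+* ℂ) : toC i (1 : SLK K) = 1 := by
  simp [toC]

theorem actz_one (z : ℂ) (y : ℝ) : actz (1 : SLC) z y = z := by
  simp [actz, den]

theorem acty_one (z : ℂ) (y : ℝ) : acty (1 : SLC) z y = y := by
  simp [acty, den]

/-- the embedding at a real place is real -/
theorem emb_conj (v : InfinitePlace K) (hv : v.IsReal) (x : K) :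
    conj (v.embedding x) = v.embedding x := by
  have h := InfinitePlace.isReal_iff.1 hv
  exact RingHom.congr_fun (ComplexEmbedding.isReal_iff.1 h) x

end

variable {K : Type} [Field K] [NumberField K]

theorem actz_im (g : SLC) (z : ℂ) (y : ℝ) (hg : ∀ i j, conj (g i j) = g i j) (hz : z.im = 0) :
    (actz g z y).im = 0 := by
  have hz' : conj z = z := Complex.conj_eq_iff_im.2 hz
  rw [← Complex.conj_eq_iff_im]
  unfold actz
  simp only [map_div₀, map_add, map_mul, map_pow, hg, hz', Complex.conj_ofReal]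

theorem pos_act (g : SLK K) (x : Pt K) (hx : Pos x) : Pos (act g x) := by
  intro v
  refine ⟨acty_pos _ _ _ (hx v).1, fun hv => ?_⟩
  refine actz_im _ _ _ (fun i j => ?_) ((hx v).2 hv)
  rw [toC_apply]
  exact emb_conj v hv _

theorem act_mul (g h : SLK K) (x : Pt K) (hx : Pos x) : act (g * h) x = act g (act h x) := by
  funext v
  unfold act
  rw [toC_mul, actz_mul _ _ _ _ (hx v).1, acty_mul _ _ _ _ (hx v).1]

theorem act_one (x : Pt K) : act 1 x = x := by
  funext v
  unfold act
  rw [toC_one, actz_one, acty_one]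

/-- upper triangular matrices -/
theorem den_tri (g : SLC) (hc : g 1 0 = 0) (z : ℂ) (y : ℝ) : den g z y = ‖g 1 1‖ ^ 2 := by
  unfold den
  rw [hc]
  simp

theorem actz_tri (g : SLC) (hc : g 1 0 = 0) (z : ℂ) (y y' : ℝ) :
    actz g z y = actz g z y' := by
  unfold actz
  rw [den_tri g hc, den_tri g hc, hc]
  simp

theorem acty_tri (g : SLC) (hc : g 1 0 = 0) (z : ℂ) (y : ℝ) :
    acty g z y = ‖g 0 0‖ ^ 2 * y := by
  have hdet := det_c g
  rw [hc, mul_zero, sub_zero] at hdet
  have h1 : ‖g 0 0‖ * ‖g 1 1‖ = 1 := by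
    rw [← norm_mul, hdet, norm_one]
  have hd : ‖g 1 1‖ ≠ 0 := by
    intro h
    rw [h, mul_zero] at h1
    exact zero_ne_one h1
  unfold acty
  rw [den_tri g hc, div_eq_iff (pow_ne_zero 2 hd)]
  have h2 : ‖g 0 0‖ ^ 2 * y * ‖g 1 1‖ ^ 2 = (‖g 0 0‖ * ‖g 1 1‖) ^ 2 * y := by ring
  rw [h2, h1, one_pow, one_mul]

theorem tri (g : SLK K) (x : Pt K) (hg : g 1 0 = 0) (v : InfinitePlace K) :
    ((act g x) v).2 = (v (g 0 0)) ^ 2 * (x v).2 ∧ ∀ t : ℝ, 0 < t →
      (act g (fun w => ((x w).1, t * (x w).2)) v).1 = ((act g x) v).1 := by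
  have hc : toC v.embedding g 1 0 = 0 := by
    rw [toC_apply, hg, map_zero]
  refine ⟨?_, fun t _ => actz_tri _ hc _ _ _⟩
  have h := acty_tri _ hc (x v).1 (x v).2
  rw [toC_apply, InfinitePlace.norm_embedding_eq] at h
  exact h

theorem act_gu (r : K) (u : Kˣ) (y : InfinitePlace K → ℝ) :
    act (gu r u) (fun v => (v.embedding r, y v)) =
      fun v => (v.embedding r, (v u) ^ 2 * y v) := by
  funext v
  have hg : (gu r u) 1 0 = 0 := by simp [gu]
  have hc : toC v.embedding (gu r u) 1 0 = 0 := by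
    rw [toC_apply, hg, map_zero]
  refine Prod.ext ?_ ?_
  · have hu : v.embedding (u : K) ≠ 0 := by
      rw [Ne, map_eq_zero]
      exact u.ne_zero
    have e00 : toC v.embedding (gu r u) 0 0 = v.embedding (u : K) := by
      rw [toC_apply]
      simp [gu]
    have e01 : toC v.embedding (gu r u) 0 1 =
        ((v.embedding (u : K))⁻¹ - v.embedding (u : K)) * v.embedding r := by
      rw [toC_apply]
      simp [gu]
    have e11 : toC v.embedding (gu r u) 1 1 = (v.embedding (u : K))⁻¹ := by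
      rw [toC_apply]
      simp [gu]
    show actz (toC v.embedding (gu r u)) (v.embedding r) (y v) = v.embedding r
    unfold actz
    rw [den_tri _ hc, hc, e00, e01, e11]
    push_cast
    rw [norm_sq_c]
    have hu' : conj (v.embedding (u : K)) ≠ 0 := by
      rw [Ne, map_eq_zero]
      exact hu
    rw [map_zero, zero_mul, zero_add, mul_zero, zero_mul, add_zero, map_inv₀]
    field_simp
    ring
  · exact (tri (gu r u) (fun v => (v.embedding r, y v)) hg v).1.trans (by simp [gu])

theorem act_gr (r : K) (y : InfinitePlace K → ℝ) (hy : ∀ v, 0 < y v) :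
    act (gr r)⁻¹ (fun v => (v.embedding r, y v)) = fun v => (0, (y v)⁻¹) := by
  funext v
  have e00 : toC v.embedding (gr r)⁻¹ 0 0 = 0 := by
    rw [toC_apply]
    simp [gr, Matrix.SpecialLinearGroup.coe_inv, Matrix.adjugate_fin_two]
  have e01 : toC v.embedding (gr r)⁻¹ 0 1 = 1 := by
    rw [toC_apply]
    simp [gr, Matrix.SpecialLinearGroup.coe_inv, Matrix.adjugate_fin_two]
  have e10 : toC v.embedding (gr r)⁻¹ 1 0 = -1 := by
    rw [toC_apply]
    simp [gr, Matrix.SpecialLinearGroup.coe_inv, Matrix.adjugate_fin_two]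
  have e11 : toC v.embedding (gr r)⁻¹ 1 1 = v.embedding r := by
    rw [toC_apply]
    simp [gr, Matrix.SpecialLinearGroup.coe_inv, Matrix.adjugate_fin_two]
  refine Prod.ext ?_ ?_
  · show actz (toC v.embedding (gr r)⁻¹) (v.embedding r) (y v) = 0
    unfold actz
    rw [e00, e01, e10, e11]
    simp
  · show acty (toC v.embedding (gr r)⁻¹) (v.embedding r) (y v) = (y v)⁻¹
    have hy' := (hy v).ne'
    unfold acty den
    rw [e10, e11]
    simp
    field_simp

theorem gu_mul (r : K) (u u' : Kˣ) : gu r (u * u') = gu r u * gu r u' := by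
  have hu := u.ne_zero
  have hu' := u'.ne_zero
  ext i j
  fin_cases i <;> fin_cases j <;>
    simp [gu, Matrix.SpecialLinearGroup.coe_mul, Matrix.mul_apply, Fin.sum_univ_two] <;>
    ring_nf

theorem mix_act (g : SLK K) (F : Pt K → ℂ) (hF : Mix0 F) : Mix0 (fun x => F (act g x)) := by
  classical
  intro x x' hx hx'
  have h := hF (act g x) (act g x') (pos_act g x hx) (pos_act g x' hx')
  rw [← h]
  refine Finset.sum_congr (by ext; simp) fun J _ => ?_
  have e : act g (fun v => if v ∈ J then x' v else x v) =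
      fun v => if v ∈ J then act g x' v else act g x v := by
    funext v
    unfold act
    by_cases hv : v ∈ J <;> simp [hv]
  show (-1 : ℂ) ^ J.card * F (act g (fun v => if v ∈ J then x' v else x v)) = _
  rw [e]

/-- row ACX -/
theorem acx_proof : AcxStatement := by
  intro K _ _
  exact ⟨fun g h x hx => ⟨pos_act g x hx, act_mul g h x hx, act_one x⟩,
    fun g x _ hg v => tri g x hg v, fun r u y _ => act_gu r u y, act_gr, gu_mul, mix_act⟩

end Pool.Agent.Lib.MP_50bb2e_nt.Anf.Acx
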