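import Pool.Agent.Lib.MP_50bb2e_nt.Anf.Iface

/-!
MP_50bb2e_nt, board ANF, row AIN1: the central values of the additive twists of the component `A`.
-/

namespace Pool.Agent.Lib.MP_50bb2e_nt.Anf.Ain1

open Complex MeasureTheory Filter Topology NumberField IsDedekindDomain
open scoped ComplexConjugate nonZeroDivisors LinearAlgebra.Projectivization
open Pool.Agent.Lib.MP_50bb2e_nt.Imq (FI cF SLK toC actz acty den InG CValI SettingC NonVanC)

noncomputable section

variable {K : Type} [Field K] [NumberField K]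

theorem mix0_congr {F G : Pt K → ℂ} (h : ∀ x, Pos x → F x = G x) (hF : Mix0 F) : Mix0 G := by
  intro x x' hx hx'
  rw [← hF x x' hx hx']
  refine Finset.sum_congr rfl fun J _ => ?_
  rw [h _ ?_]
  intro v
  by_cases hv : v ∈ J
  · simpa [hv] using hx' v
  · simpa [hv] using hx v

theorem im_zero {v : InfinitePlace K} (hv : v.IsReal) (x : K) : (v.embedding x).im = 0 := by
  have h1 := (InfinitePlace.isReal_iff.1 hv)
  have h2 := RingHom.congr_fun h1 x
  exact Complex.conj_eq_iff_im.1 h2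

/-- the point above `r` at height one -/
def pr (r : K) : Pt K := fun v => (v.embedding r, 1)

theorem pos_pr (r : K) : Pos (pr r) := fun _ => ⟨one_pos, fun hv => im_zero hv r⟩

theorem span_unit (u : (𝓞 K)ˣ) (ξ : K) :
    FractionalIdeal.spanSingleton (𝓞 K)⁰ ((u : K) * ξ) =
      FractionalIdeal.spanSingleton (𝓞 K)⁰ ξ := by
  have h1 : FractionalIdeal.spanSingleton (𝓞 K)⁰ (u : K) = 1 := by
    have h2 : Ideal.span {((u : (𝓞 K)ˣ) : 𝓞 K)} = ⊤ :=
      Ideal.span_singleton_eq_top.2 u.isUnit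
    have h3 := FractionalIdeal.coeIdeal_span_singleton (S := (𝓞 K)⁰) (P := K)
      ((u : (𝓞 K)ˣ) : 𝓞 K)
    rw [h2, FractionalIdeal.coeIdeal_top] at h3
    exact h3.symm
  rw [← FractionalIdeal.spanSingleton_mul_spanSingleton, h1, one_mul]

theorem coef_unit (c : Ideal (𝓞 K) → ℂ) (A : FI K) (u : (𝓞 K)ˣ) (ξ : K) :
    coef c A ((u : K) * ξ) = coef c A ξ := by
  unfold coef
  rw [span_unit]

theorem coef_inD (c : Ideal (𝓞 K) → ℂ) (A : FI K) (ξ : K) (h : coef c A ξ ≠ 0) :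
    InD ⊤ A ξ := by
  unfold coef cF at h
  split_ifs at h with h1
  · obtain ⟨I, hI⟩ := h1
    unfold InD
    rw [← hI, FractionalIdeal.coeIdeal_top]
    exact FractionalIdeal.coeIdeal_le_one
  · exact absurd rfl h

theorem logInd_sq {n : ℕ} {u : Fin n → (𝓞 K)ˣ} (h : LogInd u) :
    LogInd (fun i => u i ^ 2) := by
  unfold LogInd at h ⊢
  have h1 : (fun i : Fin n => fun v : InfinitePlace K =>
      Real.log (v (((u i ^ 2 : (𝓞 K)ˣ)) : K))) =
      fun i => (2 : ℝ) • (fun v : InfinitePlace K => Real.log (v (u i : K))) := by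
    funext i v
    rw [Units.coe_pow, map_pow, Real.log_pow]
    simp
  rw [h1]
  have h2 := h.units_smul (fun _ : Fin n => (Units.mk0 (2 : ℝ) two_ne_zero))
  exact h2

theorem tpos_sq (u : (𝓞 K)ˣ) : TPos (((u ^ 2 : (𝓞 K)ˣ)) : K) := by
  intro v hv
  rw [Units.coe_pow, map_pow]
  have h1 := im_zero hv (u : K)
  have h2 : (v.embedding (u : K)).re ≠ 0 := by
    intro h3
    have h4 : v.embedding (u : K) = 0 := Complex.ext h3 h1
    exact (Units.coe_ne_zero u) ((map_eq_zero _).1 h4)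
  rw [pow_two, Complex.mul_re, h1, mul_zero, sub_zero]
  exact mul_self_pos.2 h2

theorem pt_sq {n : ℕ} (u : Fin n → (𝓞 K)ˣ) (τ : Equiv.Perm (Fin n)) (j : Fin (n + 1)) :
    pt (fun i => u i ^ 2) τ j = (pt u τ j) ^ 2 := by
  unfold pt
  rw [Finset.prod_pow]

theorem uK_coe (x : (𝓞 K)ˣ) : ((uK x : Kˣ) : K) = (x : K) := rfl

theorem ain1_proof (hP : PerStatement) (hM : MelStatement) (hX : AcxStatement)
    (hD : DecStatement) (hT : TrcStatement) : Ain1Statement := by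
  intro K _ _ n c hn hc A N he
  obtain ⟨e⟩ := he
  obtain ⟨V0, hV0⟩ := hP K n c hn hc A N e
  obtain ⟨hX1, -, hX3, -, -, hX6⟩ := hX K
  obtain ⟨-, hD2⟩ := hD K
  have hco : Coef (coef c A) := hD2 n c hc A
  obtain ⟨hT1, hT2, -⟩ := hT K
  refine ⟨V0, ?_⟩
  intro r u hu hur T hRT
  obtain ⟨a', ha', hmix⟩ := hc.cusp A (gr r)
  -- the mixed differences of the difference
  have hmix2 : Mix0 (fun x => Th (coef c A) x - Th a' (act (gr r)⁻¹ x)) := by
    refine mix0_congr ?_ (hX6 (gr r)⁻¹ _ hmix)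
    intro x hx
    have h1 := (hX1 (gr r) (gr r)⁻¹ x hx).2.1
    have h2 := (hX1 (gr r) (gr r)⁻¹ x hx).2.2
    rw [mul_inv_cancel, h2] at h1
    show Th (coef c A) (act (gr r) (act (gr r)⁻¹ x)) - Th a' (act (gr r)⁻¹ x) = _
    rw [← h1]
  have hinv : ∀ (i : Fin N) (ξ : K),
      coef c A ((((u i ^ 2 : (𝓞 K)ˣ)) : K) * ξ) * chK ((((u i ^ 2 : (𝓞 K)ˣ)) : K) * ξ * r) =
        coef c A ξ * chK (ξ * r) := by
    intro i ξ
    rw [coef_unit]
    by_cases h : coef c A ξ = 0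
    · rw [h, zero_mul, zero_mul]
    · have h1 := coef_inD c A ξ h
      have h2 : (((u i ^ 2 : (𝓞 K)ˣ)) : K) * ξ * r =
          ξ * r + ξ * ((((u i : (𝓞 K)ˣ) : 𝓞 K) + 1 : 𝓞 K) • (((u i : K) - 1) * r)) := by
        rw [Units.coe_pow, Algebra.smul_def, map_add, map_one]
        show (u i : K) ^ 2 * ξ * r = ξ * r + ξ * (((u i : K) + 1) * (((u i : K) - 1) * r))
        ring
      have h3 : ((((u i : (𝓞 K)ˣ) : 𝓞 K) + 1 : 𝓞 K) • (((u i : K) - 1) * r)) ∈
          ((A⁻¹ : FI K) : FractionalIdeal (𝓞 K)⁰ K) := by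
        have h4 := hur i
        rw [← FractionalIdeal.mem_coe] at h4 ⊢
        exact Submodule.smul_mem _ _ h4
      rw [h2, (hT1 _ _).1, hT2 A _ _ h1 h3, mul_one]
  obtain ⟨ε, hε, hε2⟩ := hM K N e (coef c A) a' r hco ha' hmix2 (fun i => u i ^ 2)
    (logInd_sq hu) (fun i => tpos_sq (u i)) hinv
  obtain ⟨L, hL1, hL2, hL3⟩ := hε2 T hRT (fun _ => 1) (fun _ => one_pos)
  refine ⟨_, ?_, L, hL1, hL2, hL3⟩
  have hper := hV0 r a' ha' hmix u hur (pr r) (pos_pr r)
  have hpts : ∀ τ : Equiv.Perm (Fin N), (fun (j : Fin (N + 1)) (v : InfinitePlace K) =>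
      (v.embedding r, v ((pt (fun i => u i ^ 2) τ j : (𝓞 K)ˣ) : K) * (1 : ℝ))) =
      fun j => act (gu r (uK (pt u τ j))) (pr r) := by
    intro τ
    funext j v
    have h1 := congrFun (hX3 r (uK (pt u τ j)) (fun _ => (1 : ℝ)) (fun _ => one_pos)) v
    unfold pr
    rw [h1, pt_sq, uK_coe, Units.coe_pow, map_pow]
  have hsum : ∑ τ : Equiv.Perm (Fin N), ((Equiv.Perm.sign τ : ℤ) : ℂ) *
            box e (fun x => Th (coef c A) x - Th a' (act (gr r)⁻¹ x))
              (fun j v => (v.embedding r, v ((pt (fun i => u i ^ 2) τ j : (𝓞 K)ˣ) : K) * 1)) =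
      ∑ τ : Equiv.Perm (Fin N), ((Equiv.Perm.sign τ : ℤ) : ℂ) *
          box e (fun x => Th (coef c A) x - Th a' (act (gr r)⁻¹ x))
            (fun j => act (gu r (uK (pt u τ j))) (pr r)) := by
    refine Finset.sum_congr rfl fun τ _ => ?_
    rw [hpts τ]
  rw [hsum]
  rcases hε with h | h
  · rw [h, one_mul]
    exact hper
  · rw [h, neg_one_mul]
    exact AddSubgroup.neg_mem _ hper

end

end Pool.Agent.Lib.MP_50bb2e_nt.Anf.Ain1
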