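import Pool.Agent.Lib.MP_50bb2e_nt.Anf.Iface
import Pool.Agent.Lib.MP_50bb2e_nt.Imq.Gint

/-!
MP_50bb2e_nt, board ANF, row AINT (helper44): the central partial L-values of the narrow ray
classes modulo `D0 * D`, `D0` fixed and `D` odd, are bounded at `2`.
-/

namespace Pool.Agent.Lib.MP_50bb2e_nt.Anf.Aint

set_option linter.unusedSectionVars false

open Complex Filter Topology NumberField
open scoped ComplexConjugate nonZeroDivisors
open Pool.Agent.Lib.MP_50bb2e_nt.Imq (FI cF CValI)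
open Pool.Agent.Lib.MP_50bb2e_nt.Imq.Gfg (Nm Nm_mul Nm_pos Nm_inv addmem submem negmem)
open Pool.Agent.Lib.MP_50bb2e_nt.Imq.Gint (sp sp_unit UM mem_UM av_closure av_sum)

noncomputable section

variable {K : Type} [Field K] [NumberField K]

/-! ### The additive character -/

theorem chK_add (x y : K) : chK (x + y) = chK x * chK y := by
  unfold chK
  rw [← Complex.exp_add, map_add]
  congr 1
  push_cast
  ring

/-! ### Total positivity -/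

theorem emb_real {v : InfinitePlace K} (hv : v.IsReal) (x : K) :
    v.embedding x = (((v.embedding x).re : ℝ) : ℂ) := by
  have h1 := InfinitePlace.isReal_iff.1 hv
  have h2 : conj (v.embedding x) = v.embedding x := by
    have := congrArg (fun φ : K →+* ℂ => φ x) h1
    simpa using this
  exact (Complex.conj_eq_iff_re.1 h2).symm

theorem re_mul {v : InfinitePlace K} (hv : v.IsReal) (x y : K) :
    (v.embedding (x * y)).re = (v.embedding x).re * (v.embedding y).re := by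
  rw [map_mul, emb_real hv x, emb_real hv y]
  simp

theorem TPos_mul {x y : K} (hx : TPos x) (hy : TPos y) : TPos (x * y) := fun v hv => by
  rw [re_mul hv]
  exact mul_pos (hx v hv) (hy v hv)

theorem TPos_one : TPos (1 : K) := fun v _ => by
  rw [map_one]
  exact one_pos

theorem TPos_of_mul {x y : K} (hx : TPos x) (hxy : TPos (x * y)) : TPos y := fun v hv => by
  have h1 := hxy v hv
  rw [re_mul hv] at h1
  exact (mul_pos_iff_of_pos_left (hx v hv)).1 h1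

/-- the totally positive units -/
def TPu (K : Type) [Field K] [NumberField K] : Subgroup (𝓞 K)ˣ where
  carrier := {x | TPos ((x : 𝓞 K) : K)}
  mul_mem' := by
    intro x y hx hy
    have e : (((x * y : (𝓞 K)ˣ) : 𝓞 K) : K) = ((x : 𝓞 K) : K) * ((y : 𝓞 K) : K) := by
      rw [Units.val_mul]
      exact map_mul _ _ _
    show TPos _
    rw [e]
    exact TPos_mul hx hy
  one_mem' := by
    show TPos _
    rw [Units.val_one]
    have e : (((1 : 𝓞 K)) : K) = 1 := map_one _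
    rw [e]
    exact TPos_one
  inv_mem' := by
    intro x hx
    have e : ((x : 𝓞 K) : K) * (((x⁻¹ : (𝓞 K)ˣ) : 𝓞 K) : K) = 1 := by
      have h : (x : 𝓞 K) * ((x⁻¹ : (𝓞 K)ˣ) : 𝓞 K) = 1 := x.mul_inv
      have h1 := congrArg (algebraMap (𝓞 K) K) h
      rwa [map_mul, map_one] at h1
    refine TPos_of_mul hx ?_
    rw [e]
    exact TPos_one

theorem mem_TPu {x : (𝓞 K)ˣ} : x ∈ TPu K ↔ TPos ((x : 𝓞 K) : K) := Iff.rfl

theorem unit_ne (x : (𝓞 K)ˣ) : ((x : 𝓞 K) : K) ≠ 0 := by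
  have h1 : (x : 𝓞 K) ≠ 0 := x.ne_zero
  exact_mod_cast h1

theorem unit_mul (x y : (𝓞 K)ˣ) :
    (((x * y : (𝓞 K)ˣ) : 𝓞 K) : K) = ((x : 𝓞 K) : K) * ((y : 𝓞 K) : K) := by
  rw [Units.val_mul]
  exact map_mul _ _ _

theorem unit_sq_TPos (x : (𝓞 K)ˣ) : x ^ 2 ∈ TPu K := by
  rw [mem_TPu, sq, unit_mul]
  intro v hv
  rw [re_mul hv]
  have h1 : (v.embedding ((x : 𝓞 K) : K)).re ≠ 0 := by
    intro h
    have h2 := emb_real hv ((x : 𝓞 K) : K)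
    rw [h, Complex.ofReal_zero] at h2
    exact unit_ne x ((map_eq_zero _).1 h2)
  exact mul_self_pos.2 h1

/-! ### The ideals `t J` -/

open Classical in
/-- the ideal `t J` -/
def Ij (J : Ideal (𝓞 K)) (t : K) : Ideal (𝓞 K) :=
  if h : ∃ I : Ideal (𝓞 K), (I : FractionalIdeal (𝓞 K)⁰ K) =
    sp t * (J : FractionalIdeal (𝓞 K)⁰ K) then h.choose else ⊥

theorem Ij_eq {J I : Ideal (𝓞 K)} {t : K}
    (h : (I : FractionalIdeal (𝓞 K)⁰ K) = sp t * (J : FractionalIdeal (𝓞 K)⁰ K)) :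
    Ij J t = I := by
  have h1 : ∃ I : Ideal (𝓞 K), (I : FractionalIdeal (𝓞 K)⁰ K) =
    sp t * (J : FractionalIdeal (𝓞 K)⁰ K) := ⟨I, h⟩
  rw [← FractionalIdeal.coeIdeal_inj (K := K), h]
  unfold Ij
  rw [dif_pos h1]
  exact h1.choose_spec

theorem cF_ne {c : Ideal (𝓞 K) → ℂ} {X : FractionalIdeal (𝓞 K)⁰ K} (h : cF c X ≠ 0) :
    X ≤ 1 := by
  unfold cF at h
  by_cases h1 : ∃ I : Ideal (𝓞 K), (I : FractionalIdeal (𝓞 K)⁰ K) = X
  · exact FractionalIdeal.le_one_iff_exists_coeIdeal.2 h1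
  · rw [dif_neg h1] at h
    exact absurd rfl h

theorem cF_Ij (c : Ideal (𝓞 K) → ℂ) {J : Ideal (𝓞 K)} {t : K}
    (h : ∃ I : Ideal (𝓞 K), (I : FractionalIdeal (𝓞 K)⁰ K) =
      sp t * (J : FractionalIdeal (𝓞 K)⁰ K)) :
    cF c (sp t * (J : FractionalIdeal (𝓞 K)⁰ K)) = c (Ij J t) := by
  unfold cF Ij
  rw [dif_pos h, dif_pos h]

/-- the elements `t` with `t J` in the narrow ray class of `J` -/
def InS (M J : Ideal (𝓞 K)) (t : K) : Prop :=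
  t ≠ 0 ∧ TPos t ∧ sp (t - 1) * (J : FractionalIdeal (𝓞 K)⁰ K) ≤
    (M : FractionalIdeal (𝓞 K)⁰ K)

theorem InS_ex {M J : Ideal (𝓞 K)} {t : K} (h : InS M J t) :
    ∃ I : Ideal (𝓞 K), (I : FractionalIdeal (𝓞 K)⁰ K) =
      sp t * (J : FractionalIdeal (𝓞 K)⁰ K) := by
  rw [← FractionalIdeal.le_one_iff_exists_coeIdeal]
  intro y hy
  rw [FractionalIdeal.mem_singleton_mul] at hy
  obtain ⟨j, hj, rfl⟩ := hy
  have h1 : (t - 1) * j ∈ (M : FractionalIdeal (𝓞 K)⁰ K) :=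
    h.2.2 (FractionalIdeal.mul_mem_mul (FractionalIdeal.mem_spanSingleton_self _ _) hj)
  have h2 : (t - 1) * j ∈ (1 : FractionalIdeal (𝓞 K)⁰ K) := FractionalIdeal.coeIdeal_le_one h1
  have h3 : j ∈ (1 : FractionalIdeal (𝓞 K)⁰ K) := FractionalIdeal.coeIdeal_le_one hj
  have h4 := addmem h2 h3
  have e : (t - 1) * j + j = t * j := by ring
  rwa [e] at h4

theorem Ij_spec {M J : Ideal (𝓞 K)} {t : K} (h : InS M J t) :
    (Ij J t : FractionalIdeal (𝓞 K)⁰ K) = sp t * (J : FractionalIdeal (𝓞 K)⁰ K) := by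
  obtain ⟨I, hI⟩ := InS_ex h
  rw [Ij_eq hI, hI]

/-- the narrow ray class of `J` -/
theorem ray_iff (hryt : RytStatement) {M J : Ideal (𝓞 K)} (hM : M ≠ ⊥) (hJ : J ≠ ⊥)
    (hMJ : M ⊔ J = ⊤) (I : Ideal (𝓞 K)) : RayN M I J ↔ ∃ t : K, InS M J t ∧ Ij J t = I := by
  rw [hryt K M J I hJ hM hMJ]
  constructor
  · rintro ⟨t, h0, h1, h2, h3⟩
    exact ⟨t, ⟨h0, h1, h3⟩, Ij_eq h2⟩
  · rintro ⟨t, h1, rfl⟩
    exact ⟨t, h1.1, h1.2.1, Ij_spec h1, h1.2.2⟩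

/-! ### Units -/

/-- the totally positive units which are one modulo `M` -/
def UP (M : Ideal (𝓞 K)) : Subgroup (𝓞 K)ˣ := UM M ⊓ TPu K

theorem mem_UP {M : Ideal (𝓞 K)} {x : (𝓞 K)ˣ} :
    x ∈ UP M ↔ (x : 𝓞 K) - 1 ∈ M ∧ TPos ((x : 𝓞 K) : K) := by
  unfold UP
  rw [Subgroup.mem_inf, mem_UM, mem_TPu]

theorem sq_mem_UP {M : Ideal (𝓞 K)} {x : (𝓞 K)ˣ} (hx : (x : 𝓞 K) - 1 ∈ M) : x ^ 2 ∈ UP M := by
  unfold UP
  rw [Subgroup.mem_inf]
  exact ⟨pow_mem (mem_UM.2 hx) 2, unit_sq_TPos x⟩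

/-- the ideal `t J` is prime to `M` -/
theorem cop_Ij {M J : Ideal (𝓞 K)} (hMJ : M ⊔ J = ⊤) {t : K} (h : InS M J t) :
    M ⊔ Ij J t = ⊤ := by
  rw [Ideal.eq_top_iff_one]
  have h1 : (1 : 𝓞 K) ∈ M ⊔ J := by rw [hMJ]; exact Submodule.mem_top
  obtain ⟨m, hm, j, hj, h2⟩ := Submodule.mem_sup.1 h1
  have hj' : (j : K) ∈ (J : FractionalIdeal (𝓞 K)⁰ K) := FractionalIdeal.mem_coeIdeal_of_mem _ hj
  have h3 : (t - 1) * (j : K) ∈ (M : FractionalIdeal (𝓞 K)⁰ K) :=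
    h.2.2 (FractionalIdeal.mul_mem_mul (FractionalIdeal.mem_spanSingleton_self _ _) hj')
  have h4 : t * (j : K) ∈ (Ij J t : FractionalIdeal (𝓞 K)⁰ K) := by
    rw [Ij_spec h]
    exact FractionalIdeal.mul_mem_mul (FractionalIdeal.mem_spanSingleton_self _ _) hj'
  obtain ⟨a, ha, ha'⟩ := (FractionalIdeal.mem_coeIdeal _).1 h3
  obtain ⟨b, hb, hb'⟩ := (FractionalIdeal.mem_coeIdeal _).1 h4
  have e : (1 : 𝓞 K) = (m - a) + b := by
    apply FaithfulSMul.algebraMap_injective (𝓞 K) K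
    rw [map_add, map_sub, ha', hb', ← h2, map_add]
    have e1 : algebraMap (𝓞 K) K j = (j : K) := rfl
    rw [e1]
    ring
  rw [e]
  exact Submodule.mem_sup.2 ⟨m - a, sub_mem hm ha, b, hb, rfl⟩

theorem unit_smul {M J : Ideal (𝓞 K)} {t : K} (h : InS M J t) {x : (𝓞 K)ˣ} (hx : x ∈ UP M) :
    InS M J (((x : 𝓞 K) : K) * t) ∧ Ij J (((x : 𝓞 K) : K) * t) = Ij J t := by
  rw [mem_UP] at hx
  refine ⟨⟨mul_ne_zero (unit_ne x) h.1, TPos_mul hx.2 h.2.1, ?_⟩, Ij_eq ?_⟩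
  · intro y hy
    rw [FractionalIdeal.mem_singleton_mul] at hy
    obtain ⟨j, hj, rfl⟩ := hy
    have h1 : (t - 1) * j ∈ (M : FractionalIdeal (𝓞 K)⁰ K) :=
      h.2.2 (FractionalIdeal.mul_mem_mul (FractionalIdeal.mem_spanSingleton_self _ _) hj)
    have h2 : t * j ∈ (Ij J t : FractionalIdeal (𝓞 K)⁰ K) := by
      rw [Ij_spec h]
      exact FractionalIdeal.mul_mem_mul (FractionalIdeal.mem_spanSingleton_self _ _) hj
    have h3 : t * j ∈ (1 : FractionalIdeal (𝓞 K)⁰ K) := FractionalIdeal.coeIdeal_le_one h2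
    obtain ⟨b, hb⟩ := (FractionalIdeal.mem_one_iff _).1 h3
    have h4 : (((x : 𝓞 K) : K) - 1) * (t * j) ∈ (M : FractionalIdeal (𝓞 K)⁰ K) := by
      rw [← hb]
      have e1 : (((x : 𝓞 K) : K) - 1) * algebraMap (𝓞 K) K b =
          algebraMap (𝓞 K) K (((x : 𝓞 K) - 1) * b) := by
        rw [map_mul, map_sub, map_one]
      rw [e1]
      exact FractionalIdeal.mem_coeIdeal_of_mem _ (M.mul_mem_right _ hx.1)
    have e : (((x : 𝓞 K) : K) * t - 1) * j = (((x : 𝓞 K) : K) - 1) * (t * j) + (t - 1) * j := by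
      ring
    rw [e]
    exact addmem h4 h1
  · rw [Ij_spec h, sp_unit]

theorem unit_of {M J : Ideal (𝓞 K)} (hJ : J ≠ ⊥) (hMJ : M ⊔ J = ⊤) {a b : K}
    (ha : InS M J a) (hb : InS M J b) (h : Ij J a = Ij J b) :
    ∃ x ∈ UP M, ((x : 𝓞 K) : K) * a = b := by
  have hJ0 : (J : FractionalIdeal (𝓞 K)⁰ K) ≠ 0 := by
    rwa [Ne, FractionalIdeal.coeIdeal_eq_zero]
  have h1 : sp a = sp b := by
    have h2 : (Ij J a : FractionalIdeal (𝓞 K)⁰ K) = (Ij J b : FractionalIdeal (𝓞 K)⁰ K) := by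
      rw [h]
    rw [Ij_spec ha, Ij_spec hb] at h2
    exact mul_right_cancel₀ hJ0 h2
  obtain ⟨u, hu⟩ := FractionalIdeal.spanSingleton_eq_spanSingleton.1 h1
  rw [Units.smul_def, Algebra.smul_def] at hu
  have hu' : ((u : 𝓞 K) : K) * a = b := hu
  refine ⟨u, ?_, hu'⟩
  rw [mem_UP]
  constructor
  · have h2 : (1 : 𝓞 K) ∈ M ⊔ Ij J a := by
      rw [cop_Ij hMJ ha]
      exact Submodule.mem_top
    obtain ⟨m, hm, k, hk, hmk⟩ := Submodule.mem_sup.1 h2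
    have hk' : (k : K) ∈ (Ij J a : FractionalIdeal (𝓞 K)⁰ K) :=
      FractionalIdeal.mem_coeIdeal_of_mem _ hk
    rw [Ij_spec ha, FractionalIdeal.mem_singleton_mul] at hk'
    obtain ⟨j, hj, hkj⟩ := hk'
    have h3 : ((b - 1) * j) ∈ (M : FractionalIdeal (𝓞 K)⁰ K) :=
      hb.2.2 (FractionalIdeal.mul_mem_mul (FractionalIdeal.mem_spanSingleton_self _ _) hj)
    have h4 : ((a - 1) * j) ∈ (M : FractionalIdeal (𝓞 K)⁰ K) :=
      ha.2.2 (FractionalIdeal.mul_mem_mul (FractionalIdeal.mem_spanSingleton_self _ _) hj)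
    have h5 := submem h3 h4
    have e : (b - 1) * j - (a - 1) * j = algebraMap (𝓞 K) K (((u : 𝓞 K) - 1) * k) := by
      rw [map_mul, map_sub, map_one]
      have e1 : algebraMap (𝓞 K) K k = a * j := hkj
      have e2 : algebraMap (𝓞 K) K (u : 𝓞 K) * a = b := hu
      rw [e1, ← e2]
      ring
    rw [e] at h5
    obtain ⟨y, hy, hyk⟩ := (FractionalIdeal.mem_coeIdeal _).1 h5
    have h6 : ((u : 𝓞 K) - 1) * k ∈ M := by
      rw [← FaithfulSMul.algebraMap_injective (𝓞 K) K hyk]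
      exact hy
    have h7 : (u : 𝓞 K) - 1 = ((u : 𝓞 K) - 1) * m + ((u : 𝓞 K) - 1) * k := by
      rw [← mul_add, hmk, mul_one]
    rw [h7]
    exact add_mem (M.mul_mem_left _ hm) h6
  · refine TPos_of_mul ha.2.1 ?_
    rw [mul_comm, hu']
    exact hb.2.1

/-! ### The fibres -/

/-- products of powers of the squares of the `u i` -/
def ww {N : ℕ} (u : Fin N → (𝓞 K)ˣ) (k : Fin N → ℤ) : (𝓞 K)ˣ := ∏ i, (u i ^ 2) ^ k i

theorem ww_neg {N : ℕ} (u : Fin N → (𝓞 K)ˣ) (k : Fin N → ℤ) : ww u (-k) = (ww u k)⁻¹ := by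
  unfold ww
  rw [← Finset.prod_inv_distrib]
  exact Finset.prod_congr rfl fun i _ => by rw [Pi.neg_apply, zpow_neg]

section fiber

variable {N : ℕ} {u : Fin N → (𝓞 K)ˣ} {Mu : Finset (𝓞 K)ˣ} {T : Set K} {M J : Ideal (𝓞 K)}
  (hu : ∀ i, ((u i : 𝓞 K) - 1) ∈ M)
  (hMu : ∀ ζ ∈ Mu, ((ζ : 𝓞 K) - 1) ∈ M ∧ TPos ((ζ : 𝓞 K) : K))
  (hun : ∀ x : (𝓞 K)ˣ, ((x : 𝓞 K) - 1) ∈ M → TPos ((x : 𝓞 K) : K) →
        ∃! p : Mu × (Fin N → ℤ), x = (p.1 : (𝓞 K)ˣ) * ∏ i, (u i ^ 2) ^ p.2 i)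
  (hT : Reps (fun i => u i ^ 2) T) (hJ : J ≠ ⊥) (hMJ : M ⊔ J = ⊤)

include hu in
theorem ww_mem (k : Fin N → ℤ) : ww u k ∈ UP M :=
  Subgroup.prod_mem _ fun i _ => zpow_mem (sq_mem_UP (hu i)) _

include hu hMu hun hT hJ hMJ in
theorem card_fiber {t0 : K} (h0 : InS M J t0) :
    Nat.card {t : {t : K // t ∈ T ∧ TPos t} | InS M J t.1 ∧ Ij J t.1 = Ij J t0} = Mu.card := by
  classical
  have hne : ∀ ζ : Mu, (((ζ : (𝓞 K)ˣ) : 𝓞 K) : K) * t0 ≠ 0 := fun ζ =>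
    mul_ne_zero (unit_ne _) h0.1
  have hex : ∀ ζ : Mu, ∃ p : T × (Fin N → ℤ),
      (((ζ : (𝓞 K)ˣ) : 𝓞 K) : K) * t0 = (p.1 : K) * ((ww u p.2 : 𝓞 K) : K) ∧
      ∀ q : T × (Fin N → ℤ), (((ζ : (𝓞 K)ˣ) : 𝓞 K) : K) * t0 =
        (q.1 : K) * ((ww u q.2 : 𝓞 K) : K) → q = p := fun ζ => by
    obtain ⟨p, hp, hp'⟩ := hT.2 _ (hne ζ)
    exact ⟨p, hp, hp'⟩
  choose f hf hf' using hex
  have hrep : ∀ ζ : Mu, ((f ζ).1 : K) =
      ((((ζ : (𝓞 K)ˣ) * ww u (-(f ζ).2) : (𝓞 K)ˣ) : 𝓞 K) : K) * t0 := by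
    intro ζ
    have e1 := hf ζ
    have e2 : ((ww u (f ζ).2 : 𝓞 K) : K) * ((ww u (-(f ζ).2) : 𝓞 K) : K) = 1 := by
      rw [← unit_mul, ww_neg, mul_inv_cancel, Units.val_one]
      exact map_one _
    rw [unit_mul]
    calc ((f ζ).1 : K) = ((f ζ).1 : K) * (((ww u (f ζ).2 : 𝓞 K) : K) *
          ((ww u (-(f ζ).2) : 𝓞 K) : K)) := by rw [e2, mul_one]
      _ = (((f ζ).1 : K) * ((ww u (f ζ).2 : 𝓞 K) : K)) * ((ww u (-(f ζ).2) : 𝓞 K) : K) := by ring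
      _ = ((((ζ : (𝓞 K)ˣ) : 𝓞 K) : K) * t0) * ((ww u (-(f ζ).2) : 𝓞 K) : K) := by rw [e1]
      _ = _ := by ring
  have hmem : ∀ ζ : Mu, (ζ : (𝓞 K)ˣ) * ww u (-(f ζ).2) ∈ UP M := fun ζ =>
    mul_mem (mem_UP.2 (hMu ζ.1 ζ.2)) (ww_mem hu _)
  have hS : ∀ ζ : Mu, InS M J ((f ζ).1 : K) ∧ Ij J ((f ζ).1 : K) = Ij J t0 := fun ζ => by
    rw [hrep ζ]
    exact unit_smul h0 (hmem ζ)
  have hc : Nat.card Mu = Mu.card := by simp
  rw [← hc]
  refine (Nat.card_congr (Equiv.ofBijective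
    (fun ζ : Mu => (⟨⟨((f ζ).1 : K), (f ζ).1.2, (hS ζ).1.2.1⟩, hS ζ⟩ :
      {t : {t : K // t ∈ T ∧ TPos t} | InS M J t.1 ∧ Ij J t.1 = Ij J t0})) ⟨?_, ?_⟩)).symm
  · intro ζ ζ' h
    have h1 : ((f ζ).1 : K) = ((f ζ').1 : K) := Subtype.mk.inj (Subtype.mk.inj h)
    rw [hrep ζ, hrep ζ'] at h1
    have h2 := mul_right_cancel₀ h0.1 h1
    have h3 : (ζ : (𝓞 K)ˣ) * ww u (-(f ζ).2) = (ζ' : (𝓞 K)ˣ) * ww u (-(f ζ').2) :=
      Units.ext (RingOfIntegers.ext h2)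
    obtain ⟨h4, h5⟩ := mem_UP.1 (hmem ζ)
    obtain ⟨p, -, hp⟩ := hun _ h4 h5
    have h6 := hp (ζ, -(f ζ).2) rfl
    have h7 := hp (ζ', -(f ζ').2) h3
    exact congrArg Prod.fst (h6.trans h7.symm)
  · rintro ⟨⟨t, htT, htP⟩, htS, htI⟩
    obtain ⟨x, hx, hxt⟩ := unit_of hJ hMJ h0 htS htI.symm
    obtain ⟨h4, h5⟩ := mem_UP.1 hx
    obtain ⟨p, hp, -⟩ := hun _ h4 h5
    have hp' : x = (p.1 : (𝓞 K)ˣ) * ww u p.2 := hp
    refine ⟨p.1, ?_⟩
    have h6 : (((p.1 : (𝓞 K)ˣ) : 𝓞 K) : K) * t0 = t * ((ww u (-p.2) : 𝓞 K) : K) := by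
      have h7 : (p.1 : (𝓞 K)ˣ) = x * ww u (-p.2) := by
        rw [hp', ww_neg, mul_inv_cancel_right]
      have hxt' : ((x : 𝓞 K) : K) * t0 = t := hxt
      rw [h7, unit_mul, ← hxt']
      ring
    have h8 := hf' p.1 (⟨t, htT⟩, -p.2) h6
    apply Subtype.ext
    apply Subtype.ext
    show ((f p.1).1 : K) = t
    rw [← h8]

end fiber

/-! ### Norms -/

theorem nK_mul (x y : K) : nK (x * y) = nK x * nK y := by
  unfold nK
  rw [map_mul, Rat.cast_mul, abs_mul]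

theorem nK_nonneg (x : K) : 0 ≤ nK x := abs_nonneg _

theorem nK_pos {x : K} (hx : x ≠ 0) : 0 < nK x := by
  unfold nK
  rw [abs_pos, Rat.cast_ne_zero]
  exact Algebra.norm_ne_zero_iff.2 hx

theorem nK_cpow_mul (x y : K) (s : ℂ) : (nK (x * y) : ℂ) ^ s = (nK x : ℂ) ^ s * (nK y : ℂ) ^ s := by
  rw [nK_mul, Complex.ofReal_mul, Complex.mul_cpow_ofReal_nonneg (nK_nonneg x) (nK_nonneg y)]

theorem norm_sp (x : K) : ((FractionalIdeal.absNorm (sp x) : ℚ) : ℝ) = nK x := by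
  rw [FractionalIdeal.absNorm_span_singleton, Rat.cast_abs]
  rfl

theorem Ij_norm {M J : Ideal (𝓞 K)} {t : K} (h : InS M J t) :
    (Ideal.absNorm (Ij J t) : ℝ) = nK t * (Ideal.absNorm J : ℝ) := by
  have h1 : FractionalIdeal.absNorm (Ij J t : FractionalIdeal (𝓞 K)⁰ K) =
      FractionalIdeal.absNorm (sp t * (J : FractionalIdeal (𝓞 K)⁰ K)) := by
    rw [Ij_spec h]
  rw [FractionalIdeal.coeIdeal_absNorm, map_mul, FractionalIdeal.coeIdeal_absNorm] at h1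
  have h2 := congrArg (fun q : ℚ => (q : ℝ)) h1
  simp only [Rat.cast_mul, Rat.cast_natCast] at h2
  rw [h2, norm_sp]

/-! ### The component of `J` -/

theorem exists_comp (J : Ideal (𝓞 K)) (hJ : J ≠ ⊥) : ∃ A : FI K,
    ((A⁻¹ : FI K) : FractionalIdeal (𝓞 K)⁰ K) *
      ((differentIdeal ℤ (𝓞 K) : Ideal (𝓞 K)) : FractionalIdeal (𝓞 K)⁰ K) = J ∧
    Nm A * (Ideal.absNorm J : ℝ) = (Ideal.absNorm (differentIdeal ℤ (𝓞 K)) : ℝ) := by
  have hJ0 : (J : FractionalIdeal (𝓞 K)⁰ K) ≠ 0 := by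
    rwa [Ne, FractionalIdeal.coeIdeal_eq_zero]
  have hd : differentIdeal ℤ (𝓞 K) ≠ ⊥ := differentIdeal_ne_bot
  have hd0 : ((differentIdeal ℤ (𝓞 K) : Ideal (𝓞 K)) : FractionalIdeal (𝓞 K)⁰ K) ≠ 0 := by
    rwa [Ne, FractionalIdeal.coeIdeal_eq_zero]
  set Ju : FI K := Units.mk0 _ hJ0 with hJu
  set du : FI K := Units.mk0 _ hd0 with hdu
  have hN : ∀ (I : Ideal (𝓞 K)) (h : (I : FractionalIdeal (𝓞 K)⁰ K) ≠ 0),
      Nm (Units.mk0 _ h : FI K) = (Ideal.absNorm I : ℝ) := by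
    intro I h
    unfold Imq.Gfg.Nm
    rw [Units.val_mk0, FractionalIdeal.coeIdeal_absNorm, Rat.cast_natCast]
  refine ⟨Ju⁻¹ * du, ?_, ?_⟩
  · have h1 : (((Ju⁻¹ * du)⁻¹ * du : FI K) : FractionalIdeal (𝓞 K)⁰ K) = Ju := by
      congr 1
      rw [mul_inv, inv_inv, inv_mul_cancel_right]
    rw [Units.val_mul] at h1
    exact h1
  · rw [← hN J hJ0, ← hN _ hd0, ← Nm_mul]
    congr 1
    rw [← hJu, ← hdu, mul_comm Ju⁻¹, inv_mul_cancel_right]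

section comp

variable {J : Ideal (𝓞 K)} {A : FI K}
  (hA : ((A⁻¹ : FI K) : FractionalIdeal (𝓞 K)⁰ K) *
      ((differentIdeal ℤ (𝓞 K) : Ideal (𝓞 K)) : FractionalIdeal (𝓞 K)⁰ K) = J)

include hA

theorem coef_eq (c : Ideal (𝓞 K) → ℂ) (ξ : K) :
    coef c A ξ = cF c (sp ξ * (J : FractionalIdeal (𝓞 K)⁰ K)) := by
  unfold coef
  rw [mul_assoc, hA]

theorem InD_iff (D : Ideal (𝓞 K)) (ξ : K) :
    InD D A ξ ↔ sp ξ * (J : FractionalIdeal (𝓞 K)⁰ K) ≤ (D : FractionalIdeal (𝓞 K)⁰ K) := by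
  unfold InD
  rw [mul_assoc, hA]

theorem InD_one : InD ⊤ A 1 := by
  rw [InD_iff hA]
  show FractionalIdeal.spanSingleton (𝓞 K)⁰ (1 : K) * _ ≤ _
  rw [FractionalIdeal.spanSingleton_one, one_mul, FractionalIdeal.coeIdeal_top]
  exact FractionalIdeal.coeIdeal_le_one

theorem InD_sub {c : Ideal (𝓞 K) → ℂ} {t : K} (h : coef c A t ≠ 0) : InD ⊤ A (t - 1) := by
  rw [coef_eq hA] at h
  have h1 := cF_ne h
  rw [InD_iff hA, FractionalIdeal.coeIdeal_top]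
  intro y hy
  rw [FractionalIdeal.mem_singleton_mul] at hy
  obtain ⟨j, hj, rfl⟩ := hy
  have h2 : t * j ∈ (1 : FractionalIdeal (𝓞 K)⁰ K) :=
    h1 (FractionalIdeal.mul_mem_mul (FractionalIdeal.mem_spanSingleton_self _ _) hj)
  have h3 : j ∈ (1 : FractionalIdeal (𝓞 K)⁰ K) := FractionalIdeal.coeIdeal_le_one hj
  have e : (t - 1) * j = t * j - j := by ring
  rw [e]
  exact submem h2 h3

theorem InD_neg_one : InD ⊤ A (-1) := by
  have h := InD_one hA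
  rw [InD_iff hA] at h ⊢
  intro y hy
  rw [FractionalIdeal.mem_singleton_mul] at hy
  obtain ⟨j, hj, rfl⟩ := hy
  have h2 : (1 : K) * j ∈ ((⊤ : Ideal (𝓞 K)) : FractionalIdeal (𝓞 K)⁰ K) :=
    h (FractionalIdeal.mul_mem_mul (FractionalIdeal.mem_spanSingleton_self _ _) hj)
  have e : -1 * j = -(1 * j) := by ring
  rw [e]
  exact negmem h2

end comp

section scale

variable {A A' : FI K} {s0 : K} (hs : s0 ≠ 0)
  (hAA : (A : FractionalIdeal (𝓞 K)⁰ K) = sp s0 * (A' : FractionalIdeal (𝓞 K)⁰ K))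

include hAA

theorem inv_scale : ((A'⁻¹ : FI K) : FractionalIdeal (𝓞 K)⁰ K) =
    sp s0 * ((A⁻¹ : FI K) : FractionalIdeal (𝓞 K)⁰ K) := by
  have h1 : ((A'⁻¹ : FI K) : FractionalIdeal (𝓞 K)⁰ K) * ((A : FractionalIdeal (𝓞 K)⁰ K) *
      ((A⁻¹ : FI K) : FractionalIdeal (𝓞 K)⁰ K)) = ((A'⁻¹ : FI K) : FractionalIdeal (𝓞 K)⁰ K) := by
    rw [Units.mul_inv, mul_one]
  rw [← h1, hAA]
  calc ((A'⁻¹ : FI K) : FractionalIdeal (𝓞 K)⁰ K) * (sp s0 * (A' : FractionalIdeal (𝓞 K)⁰ K) *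
      ((A⁻¹ : FI K) : FractionalIdeal (𝓞 K)⁰ K))
      = (((A'⁻¹ : FI K) : FractionalIdeal (𝓞 K)⁰ K) * (A' : FractionalIdeal (𝓞 K)⁰ K)) *
        (sp s0 * ((A⁻¹ : FI K) : FractionalIdeal (𝓞 K)⁰ K)) := by ring
    _ = _ := by rw [Units.inv_mul, one_mul]

theorem coef_scale (c : Ideal (𝓞 K) → ℂ) (η : K) : coef c A (s0 * η) = coef c A' η := by
  unfold coef
  rw [inv_scale hAA, ← FractionalIdeal.spanSingleton_mul_spanSingleton]
  congr 2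
  ring

theorem mem_scale {x : K} (hx : x ∈ ((A⁻¹ : FI K) : FractionalIdeal (𝓞 K)⁰ K)) :
    s0 * x ∈ ((A'⁻¹ : FI K) : FractionalIdeal (𝓞 K)⁰ K) := by
  rw [inv_scale hAA]
  exact FractionalIdeal.mul_mem_mul (FractionalIdeal.mem_spanSingleton_self _ _) hx

theorem Nm_scale : Nm A = nK s0 * Nm A' := by
  unfold Imq.Gfg.Nm
  rw [hAA, map_mul, Rat.cast_mul, norm_sp]

end scale

/-! ### Representatives -/

theorem Reps_scale {N : ℕ} {u : Fin N → (𝓞 K)ˣ} {T : Set K} (hT : Reps u T) {s0 : K}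
    (hs : s0 ≠ 0) : Reps u {η : K | s0 * η ∈ T} := by
  constructor
  · show ¬ s0 * 0 ∈ T
    rw [mul_zero]
    exact hT.1
  · intro ξ hξ
    obtain ⟨p, hp, hp'⟩ := hT.2 (s0 * ξ) (mul_ne_zero hs hξ)
    have h1 : s0 * (s0⁻¹ * (p.1 : K)) = p.1 := by rw [← mul_assoc, mul_inv_cancel₀ hs, one_mul]
    refine ⟨(⟨s0⁻¹ * (p.1 : K), by
      show s0 * (s0⁻¹ * (p.1 : K)) ∈ T
      rw [h1]
      exact p.1.2⟩, p.2), ?_, ?_⟩
    · show ξ = s0⁻¹ * (p.1 : K) * _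
      have h2 : s0⁻¹ * (s0 * ξ) = ξ := by rw [← mul_assoc, inv_mul_cancel₀ hs, one_mul]
      rw [← h2, mul_assoc]
      exact congrArg (fun x => s0⁻¹ * x) hp
    · rintro ⟨⟨η, hη⟩, k⟩ hq
      have hq' : ξ = η * ((∏ i, u i ^ k i : (𝓞 K)ˣ) : K) := hq
      have h3 := hp' (⟨s0 * η, hη⟩, k) (by
        show s0 * ξ = s0 * η * _
        rw [mul_assoc]
        exact congrArg (fun x => s0 * x) hq')
      have h4 : s0 * η = (p.1 : K) := congrArg (fun q : T × (Fin N → ℤ) => (q.1 : K)) h3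
      have h5 : k = p.2 := congrArg Prod.snd h3
      refine Prod.ext (Subtype.ext ?_) h5
      show η = s0⁻¹ * (p.1 : K)
      rw [← h4, ← mul_assoc, inv_mul_cancel₀ hs, one_mul]

/-- the bijection of the index sets -/
def eT {T : Set K} {s0 : K} (hs : s0 ≠ 0) (hp : TPos s0) :
    {η : K // η ∈ {η : K | s0 * η ∈ T} ∧ TPos η} ≃ {t : K // t ∈ T ∧ TPos t} where
  toFun η := ⟨s0 * η.1, η.2.1, TPos_mul hp η.2.2⟩
  invFun t := ⟨s0⁻¹ * t.1, by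
    show s0 * (s0⁻¹ * t.1) ∈ T
    rw [← mul_assoc, mul_inv_cancel₀ hs, one_mul]
    exact t.2.1, TPos_of_mul hp (by
    rw [← mul_assoc, mul_inv_cancel₀ hs, one_mul]
    exact t.2.2)⟩
  left_inv η := Subtype.ext (by
    show s0⁻¹ * (s0 * η.1) = η.1
    rw [← mul_assoc, inv_mul_cancel₀ hs, one_mul])
  right_inv t := Subtype.ext (by
    show s0 * (s0⁻¹ * t.1) = t.1
    rw [← mul_assoc, mul_inv_cancel₀ hs, one_mul])

theorem hasSum_scale {c : Ideal (𝓞 K) → ℂ} {A A' : FI K} {s0 : K} (hs : s0 ≠ 0) (hp : TPos s0)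
    (hAA : (A : FractionalIdeal (𝓞 K)⁰ K) = sp s0 * (A' : FractionalIdeal (𝓞 K)⁰ K))
    {T : Set K} (r : K) (s L : ℂ)
    (h : HasSum (fun t : {t : K // t ∈ {η : K | s0 * η ∈ T} ∧ TPos t} =>
      coef c A' t.1 * chK (t.1 * (s0 * r)) * (nK t.1 : ℂ) ^ (-s)) L) :
    HasSum (fun t : {t : K // t ∈ T ∧ TPos t} =>
      coef c A t.1 * chK (t.1 * r) * (nK t.1 : ℂ) ^ (-s)) ((nK s0 : ℂ) ^ (-s) * L) := by
  rw [← Equiv.hasSum_iff (eT hs hp)]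
  refine (congrArg (fun f : {η : K // η ∈ {η : K | s0 * η ∈ T} ∧ TPos η} → ℂ =>
    HasSum f ((nK s0 : ℂ) ^ (-s) * L)) (funext fun η => ?_)).mpr (h.mul_left _)
  show coef c A (s0 * η.1) * chK (s0 * η.1 * r) * (nK (s0 * η.1) : ℂ) ^ (-s) = _
  have e : s0 * η.1 * r = η.1 * (s0 * r) := by ring
  rw [coef_scale hAA, nK_cpow_mul, e]
  ring

/-! ### The main computation -/

section main

variable {c : Ideal (𝓞 K) → ℂ} {J M : Ideal (𝓞 K)} {A : FI K}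
  (hA : ((A⁻¹ : FI K) : FractionalIdeal (𝓞 K)⁰ K) *
      ((differentIdeal ℤ (𝓞 K) : Ideal (𝓞 K)) : FractionalIdeal (𝓞 K)⁰ K) = J)
  {T : Set K} {TD : Finset K} (hM : M ≠ ⊥) (hcard : TD.card = Ideal.absNorm M)
  (h1 : ∀ r ∈ TD, ∀ ξ : K, InD M A ξ → chK (ξ * r) = 1)
  (h2 : ∀ ξ : K, InD ⊤ A ξ → ¬ InD M A ξ → ∑ r ∈ TD, chK (ξ * r) = 0)

open Classical in
/-- the terms of the series over the residue class -/
def FF (c : Ideal (𝓞 K) → ℂ) (M J : Ideal (𝓞 K)) (s : ℂ) (t : K) : ℂ :=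
  if InS M J t then c (Ij J t) * (nK t : ℂ) ^ (-s) else 0

include hA hM hcard h1 h2 in
theorem main_sum (h0 : (0 : K) ∉ T) (s : ℂ) (G : K → ℂ)
    (h : ∀ r ∈ TD, HasSum (fun t : {t : K // t ∈ T ∧ TPos t} =>
      coef c A t.1 * chK (t.1 * r) * (nK t.1 : ℂ) ^ (-s)) (G r)) :
    HasSum (fun t : {t : K // t ∈ T ∧ TPos t} => FF c M J s t.1)
      ((Ideal.absNorm M : ℂ)⁻¹ * ∑ r ∈ TD, chK (-1 * r) * G r) := by
  have hM0 : (Ideal.absNorm M : ℂ) ≠ 0 := by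
    rw [Nat.cast_ne_zero, Ne, Ideal.absNorm_eq_zero_iff]
    exact hM
  have h3 := (hasSum_sum (fun r hr => (h r hr).mul_left (chK (-1 * r)))).mul_left
    ((Ideal.absNorm M : ℂ)⁻¹)
  refine (congrArg (fun f : {t : K // t ∈ T ∧ TPos t} → ℂ => HasSum f _)
    (funext fun t => ?_)).mpr h3
  have e1 : ∀ r ∈ TD, chK (-1 * r) * (coef c A t.1 * chK (t.1 * r) * (nK t.1 : ℂ) ^ (-s)) =
      coef c A t.1 * (nK t.1 : ℂ) ^ (-s) * chK ((t.1 - 1) * r) := by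
    intro r _
    have e2 : (t.1 - 1) * r = -1 * r + t.1 * r := by ring
    rw [e2, chK_add]
    ring
  show FF c M J s t.1 = (Ideal.absNorm M : ℂ)⁻¹ * ∑ r ∈ TD, chK (-1 * r) *
    (coef c A t.1 * chK (t.1 * r) * (nK t.1 : ℂ) ^ (-s))
  rw [Finset.sum_congr rfl e1, ← Finset.mul_sum]
  have ht0 : t.1 ≠ 0 := fun h => h0 (h ▸ t.2.1)
  unfold FF
  by_cases hS : InS M J t.1
  · rw [if_pos hS]
    have h4 : InD M A (t.1 - 1) := (InD_iff hA M _).2 hS.2.2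
    rw [Finset.sum_congr rfl (fun r hr => h1 r hr _ h4), Finset.sum_const, hcard, nsmul_eq_mul,
      mul_one, coef_eq hA, cF_Ij c (InS_ex hS)]
    field_simp
  · rw [if_neg hS]
    by_cases hc : coef c A t.1 = 0
    · rw [hc]
      ring
    · have h4 : ¬ InD M A (t.1 - 1) := fun h => hS ⟨ht0, t.2.2, (InD_iff hA M _).1 h⟩
      rw [h2 _ (InD_sub hA hc) h4]
      ring

end main

section fib

variable {N : ℕ} {u : Fin N → (𝓞 K)ˣ} {Mu : Finset (𝓞 K)ˣ} {T : Set K} {M J : Ideal (𝓞 K)}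
  (hryt : RytStatement) (hM : M ≠ ⊥)
  (hu : ∀ i, ((u i : 𝓞 K) - 1) ∈ M)
  (hMu : ∀ ζ ∈ Mu, ((ζ : 𝓞 K) - 1) ∈ M ∧ TPos ((ζ : 𝓞 K) : K))
  (hun : ∀ x : (𝓞 K)ˣ, ((x : 𝓞 K) - 1) ∈ M → TPos ((x : 𝓞 K) : K) →
        ∃! p : Mu × (Fin N → ℤ), x = (p.1 : (𝓞 K)ˣ) * ∏ i, (u i ^ 2) ^ p.2 i)
  (hT : Reps (fun i => u i ^ 2) T) (hJ : J ≠ ⊥) (hMJ : M ⊔ J = ⊤)

open Classical in
include hryt hM hu hMu hun hT hJ hMJ in
theorem fiber_sum (c : Ideal (𝓞 K) → ℂ) (s : ℂ) (I : Ideal (𝓞 K)) :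
    ∑' b : ((fun t : {t : K // t ∈ T ∧ TPos t} => Ij J t.1) ⁻¹' {I} :
      Set {t : K // t ∈ T ∧ TPos t}), FF c M J s b.1.1 =
      (if RayN M I J then (Mu.card : ℂ) else 0) *
        (c I * ((Ideal.absNorm I : ℂ) ^ (-s) * (Ideal.absNorm J : ℂ) ^ s)) := by
  have hJ0 : (Ideal.absNorm J : ℂ) ≠ 0 := by
    rw [Nat.cast_ne_zero, Ne, Ideal.absNorm_eq_zero_iff]
    exact hJ
  have hval : ∀ t : K, InS M J t → Ij J t = I → FF c M J s t =
      c I * ((Ideal.absNorm I : ℂ) ^ (-s) * (Ideal.absNorm J : ℂ) ^ s) := by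
    intro t ht hI
    unfold FF
    rw [if_pos ht, hI]
    congr 1
    have e1 := Ij_norm ht
    rw [hI] at e1
    have e2 : (Ideal.absNorm I : ℂ) = ((nK t : ℝ) : ℂ) * ((Ideal.absNorm J : ℝ) : ℂ) := by
      rw [← Complex.ofReal_mul, ← e1]
      push_cast
      rfl
    have e3 : ((Ideal.absNorm J : ℝ) : ℂ) = (Ideal.absNorm J : ℂ) := by push_cast; rfl
    rw [e2, Complex.mul_cpow_ofReal_nonneg (nK_nonneg t) (Nat.cast_nonneg _), e3, mul_assoc,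
      Complex.cpow_neg _ s, Complex.cpow_neg _ s, inv_mul_cancel₀, mul_one]
    rw [Ne, Complex.cpow_eq_zero_iff]
    exact fun h => hJ0 h.1
  set k : ℂ := c I * ((Ideal.absNorm I : ℂ) ^ (-s) * (Ideal.absNorm J : ℂ) ^ s) with hk
  have e : (((fun t : {t : K // t ∈ T ∧ TPos t} => Ij J t.1) ⁻¹' {I} :
      Set {t : K // t ∈ T ∧ TPos t})).indicator (fun t => FF c M J s t.1) =
      {t : {t : K // t ∈ T ∧ TPos t} | InS M J t.1 ∧ Ij J t.1 = I}.indicator (fun _ => k) := by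
    funext t
    by_cases ht : InS M J t.1
    · by_cases hI : Ij J t.1 = I
      · rw [Set.indicator_of_mem (show t ∈ (fun t : {t : K // t ∈ T ∧ TPos t} => Ij J t.1) ⁻¹' {I}
            from hI), Set.indicator_of_mem (show t ∈ {t : {t : K // t ∈ T ∧ TPos t} |
            InS M J t.1 ∧ Ij J t.1 = I} from ⟨ht, hI⟩), hval _ ht hI]
      · rw [Set.indicator_of_notMem (show t ∉ (fun t : {t : K // t ∈ T ∧ TPos t} =>
            Ij J t.1) ⁻¹' {I} from hI), Set.indicator_of_notMem (show t ∉ {t :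
            {t : K // t ∈ T ∧ TPos t} | InS M J t.1 ∧ Ij J t.1 = I} from fun h => hI h.2)]
    · rw [Set.indicator_of_notMem (show t ∉ {t :
            {t : K // t ∈ T ∧ TPos t} | InS M J t.1 ∧ Ij J t.1 = I} from fun h => ht h.1)]
      by_cases hI : Ij J t.1 = I
      · rw [Set.indicator_of_mem (show t ∈ (fun t : {t : K // t ∈ T ∧ TPos t} => Ij J t.1) ⁻¹' {I}
            from hI)]
        show FF c M J s t.1 = 0
        unfold FF
        rw [if_neg ht]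
      · rw [Set.indicator_of_notMem (show t ∉ (fun t : {t : K // t ∈ T ∧ TPos t} =>
            Ij J t.1) ⁻¹' {I} from hI)]
  rw [tsum_subtype ((fun t : {t : K // t ∈ T ∧ TPos t} => Ij J t.1) ⁻¹' {I})
    (fun t => FF c M J s t.1), e, ← tsum_subtype, tsum_const]
  split_ifs with h
  · obtain ⟨t0, ht0, rfl⟩ := (ray_iff hryt hM hJ hMJ I).1 h
    rw [card_fiber hu hMu hun hT hJ hMJ ht0, nsmul_eq_mul]
  · have h3 : Nat.card {t : {t : K // t ∈ T ∧ TPos t} | InS M J t.1 ∧ Ij J t.1 = I} = 0 := by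
      rw [Nat.card_eq_zero]
      left
      refine ⟨fun x => h ?_⟩
      obtain ⟨t, ht, hI⟩ := x
      exact (ray_iff hryt hM hJ hMJ I).2 ⟨t.1, ht, hI⟩
    rw [h3, zero_smul, zero_mul]

open Classical in
include hryt hM hu hMu hun hT hJ hMJ in
theorem sum_ray (hc0 : (Mu.card : ℂ) ≠ 0) (c : Ideal (𝓞 K) → ℂ) (s L : ℂ)
    (h : HasSum (fun t : {t : K // t ∈ T ∧ TPos t} => FF c M J s t.1) L) :
    HasSum (fun I : Ideal (𝓞 K) => (if RayN M I J then c I else 0) *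
      (Ideal.absNorm I : ℂ) ^ (-s)) ((Ideal.absNorm J : ℂ) ^ (-s) / (Mu.card : ℂ) * L) := by
  have hJ0 : (Ideal.absNorm J : ℂ) ≠ 0 := by
    rw [Nat.cast_ne_zero, Ne, Ideal.absNorm_eq_zero_iff]
    exact hJ
  have h1 := (h.tsum_fiberwise (fun t : {t : K // t ∈ T ∧ TPos t} => Ij J t.1)).mul_left
    ((Ideal.absNorm J : ℂ) ^ (-s) / (Mu.card : ℂ))
  refine (congrArg (fun f : Ideal (𝓞 K) → ℂ => HasSum f
    ((Ideal.absNorm J : ℂ) ^ (-s) / (Mu.card : ℂ) * L)) (funext fun I => ?_)).mpr h1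
  have h2 := fiber_sum hryt hM hu hMu hun hT hJ hMJ c s I
  have h3 : (Ideal.absNorm J : ℂ) ^ (-s) * (Ideal.absNorm J : ℂ) ^ s = 1 := by
    rw [Complex.cpow_neg, inv_mul_cancel₀]
    rw [Ne, Complex.cpow_eq_zero_iff]
    exact fun h => hJ0 h.1
  refine Eq.trans ?_ (congrArg (fun x => (Ideal.absNorm J : ℂ) ^ (-s) / (Mu.card : ℂ) * x) h2.symm)
  show _ = (Ideal.absNorm J : ℂ) ^ (-s) / (Mu.card : ℂ) * ((if RayN M I J then (Mu.card : ℂ) else 0) *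
        (c I * ((Ideal.absNorm I : ℂ) ^ (-s) * (Ideal.absNorm J : ℂ) ^ s)))
  split_ifs
  · have e : (Ideal.absNorm J : ℂ) ^ (-s) / (Mu.card : ℂ) * ((Mu.card : ℂ) *
          (c I * ((Ideal.absNorm I : ℂ) ^ (-s) * (Ideal.absNorm J : ℂ) ^ s))) =
          ((Ideal.absNorm J : ℂ) ^ (-s) * (Ideal.absNorm J : ℂ) ^ s) *
            (c I * (Ideal.absNorm I : ℂ) ^ (-s)) := by
      field_simp
    rw [e, h3, one_mul]
  · rw [zero_mul, zero_mul, mul_zero]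

end fib

theorem LogInd_sq {N : ℕ} {u : Fin N → (𝓞 K)ˣ} (h : LogInd u) : LogInd (fun i => u i ^ 2) := by
  unfold LogInd at h ⊢
  have h1 := h.units_smul (fun _ => Units.mk0 (2 : ℝ) two_ne_zero)
  have e : (fun _ : Fin N => Units.mk0 (2 : ℝ) two_ne_zero) •
      (fun i : Fin N => fun v : InfinitePlace K => Real.log (v (u i : K))) =
      (fun i : Fin N => fun v : InfinitePlace K => Real.log (v ((u i ^ 2 : (𝓞 K)ˣ) : K))) := by
    funext i v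
    have e0 : (((u i ^ 2 : (𝓞 K)ˣ) : 𝓞 K) : K) = ((u i : 𝓞 K) : K) ^ 2 := by
      rw [sq, sq, unit_mul]
    have e1 : algebraMap (𝓞 K) K ((u i ^ 2 : (𝓞 K)ˣ) : 𝓞 K) =
      (algebraMap (𝓞 K) K (u i : 𝓞 K)) ^ 2 := e0
    show (2 : ℝ) * Real.log (v (u i : K)) = Real.log (v ((u i ^ 2 : (𝓞 K)ˣ) : K))
    rw [e1, map_pow, Real.log_pow]
    push_cast
    rfl
  rwa [e] at h1

theorem cpow_dif {a : ℝ} (ha : 0 < a) : Differentiable ℂ (fun s : ℂ => (a : ℂ) ^ (-s)) := by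
  intro s
  exact (differentiableAt_id.neg).const_cpow (Or.inl (by exact_mod_cast ha.ne'))

theorem cpow_lim {a : ℝ} (ha : 0 < a) :
    Tendsto (fun t : ℝ => (a : ℂ) ^ (-(t : ℂ))) (𝓝[>] 1) (𝓝 ((a : ℂ)⁻¹)) := by
  have h5 : Continuous (fun t : ℝ => (a : ℂ) ^ (-(t : ℂ))) :=
    (cpow_dif ha).continuous.comp Complex.continuous_ofReal
  have h6 := (h5.tendsto 1).mono_left (nhdsWithin_le_nhds (s := Set.Ioi (1 : ℝ)))
  simpa [Complex.cpow_neg_one] using h6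

open Classical in
/-- row AINT -/
theorem aint_proof (hain : Ain1Statement) (hdua : DuaStatement) (huni : UniStatement)
    (hrep : RepStatement) (hscl : SclStatement) (hryt : RytStatement) : AintStatement := by
  intro K _ _ n c hn hf v na two D0 hD0
  obtain ⟨N, hN⟩ : ∃ N : ℕ, Nonempty (Fin (N + 1) ≃ InfinitePlace K) := by
    refine ⟨Fintype.card (InfinitePlace K) - 1, ?_⟩
    have h1 : Fintype.card (InfinitePlace K) - 1 + 1 = Fintype.card (InfinitePlace K) :=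
      Nat.sub_add_cancel Fintype.card_pos
    rw [h1]
    exact ⟨(Fintype.equivFin _).symm⟩
  obtain ⟨𝒜, h𝒜⟩ := hscl K
  choose V hV using fun A : FI K => hain K n c hn hf A N hN
  choose b hb0 hb using fun A => av_closure na (V A)
  have hw0 : ((2 ^ N * NumberField.Units.torsionOrder K : ℕ) : ℂ) ≠ 0 := by
    rw [Nat.cast_ne_zero]
    exact mul_ne_zero (pow_ne_zero _ two_ne_zero) (NumberField.Units.torsionOrder_ne_zero K)
  have hd0 : (Ideal.absNorm (differentIdeal ℤ (𝓞 K)) : ℂ) ≠ 0 := by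
    rw [Nat.cast_ne_zero, Ne, Ideal.absNorm_eq_zero_iff]
    exact differentIdeal_ne_bot
  set dN : ℂ := (Ideal.absNorm (differentIdeal ℤ (𝓞 K)) : ℂ) with hdN
  set W : ℝ := (v ((2 ^ N * NumberField.Units.torsionOrder K : ℕ) : ℂ))⁻¹ with hW
  set Q : ℝ := (v (Ideal.absNorm D0 : ℂ))⁻¹ with hQ
  have hW0 : 0 ≤ W := inv_nonneg.2 (v.nonneg _)
  have hQ0 : 0 ≤ Q := inv_nonneg.2 (v.nonneg _)
  refine ⟨∑ A ∈ 𝒜, v ((Nm A : ℂ) / dN) * W * (Q * b A), fun D J hD hJ hodd hMJ => ?_⟩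
  set M : Ideal (𝓞 K) := D0 * D with hMdef
  have hM : M ≠ ⊥ := by
    rw [hMdef]
    exact mul_ne_zero hD0 hD
  obtain ⟨A, hA, hNA⟩ := exists_comp J hJ
  obtain ⟨A', hA', s0, hs0, hp0, hAA⟩ := h𝒜 A
  obtain ⟨TD, hcard, hd1, hd2, hd3, hd4⟩ := hdua K A M hM
  obtain ⟨u, Mu, hlog, hu, hMu, hdvd, hun⟩ := huni K N hN M hM
  obtain ⟨T, hT⟩ := hrep K N (fun i => u i ^ 2) (LogInd_sq hlog)
  have key : ∀ r ∈ TD, ∃ l ∈ AddSubgroup.closure (V A' : Set ℂ), ∃ L : ℂ → ℂ,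
      DifferentiableOn ℂ L {s | 1 < s.re} ∧
      (∃ σ : ℝ, ∀ s : ℂ, σ < s.re → HasSum (fun t : {t : K // t ∈ T ∧ TPos t} =>
        coef c A t.1 * chK (t.1 * r) * (nK t.1 : ℂ) ^ (-s)) ((nK s0 : ℂ) ^ (-s) * L s)) ∧
      Tendsto (fun t : ℝ => L t) (𝓝[>] 1) (𝓝 l) := by
    intro r hr
    obtain ⟨l, hl, L, hL1, ⟨σ, hL2⟩, hL3⟩ := hV A' (s0 * r) u hlog (fun i => by
      have h1 := mem_scale hAA (hd1 r hr _ (hu i))
      have e : (((u i : 𝓞 K) - 1 : 𝓞 K) : K) = ((u i : 𝓞 K) : K) - 1 :=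
        (map_sub _ _ _).trans (by rw [map_one])
      rw [e] at h1
      have e2 : s0 * ((((u i : 𝓞 K) : K) - 1) * r) = (((u i : 𝓞 K) : K) - 1) * (s0 * r) := by ring
      rwa [e2] at h1) _ (Reps_scale hT hs0)
    exact ⟨l, hl, L, hL1, ⟨σ, fun s hs => hasSum_scale hs0 hp0 hAA r s _ (hL2 s hs)⟩, hL3⟩
  choose! l hl L hL1 hL2 hL3 using key
  choose! σ hσ using hL2
  have hJN : 0 < (Ideal.absNorm J : ℝ) := by
    have h1 : Ideal.absNorm J ≠ 0 := by rwa [Ne, Ideal.absNorm_eq_zero_iff]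
    exact_mod_cast Nat.pos_of_ne_zero h1
  have hJC : (((Ideal.absNorm J : ℝ)) : ℂ) = (Ideal.absNorm J : ℂ) := by push_cast; rfl
  have hU : (Mu.card : ℂ) ≠ 0 := by
    rw [Nat.cast_ne_zero]
    intro h
    rw [h, zero_dvd_iff] at hdvd
    exact hw0 (by rw [hdvd, Nat.cast_zero])
  refine ⟨(Ideal.absNorm J : ℂ)⁻¹ / (Mu.card : ℂ) * ((Ideal.absNorm M : ℂ)⁻¹ *
    ∑ r ∈ TD, chK (-1 * r) * ((nK s0 : ℂ)⁻¹ * l r)), ?_, fun s =>
    ((Ideal.absNorm J : ℝ) : ℂ) ^ (-s) / (Mu.card : ℂ) * ((Ideal.absNorm M : ℂ)⁻¹ *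
    ∑ r ∈ TD, chK (-1 * r) * ((nK s0 : ℂ) ^ (-s) * L r s)), ?_,
    ⟨∑ r ∈ TD, |σ r|, fun s hs => ?_⟩, ?_⟩
  · -- the bound
    have hUv : (v (Mu.card : ℂ))⁻¹ ≤ W := by
      obtain ⟨k, hk⟩ := hdvd
      have h4 : v ((2 ^ N * NumberField.Units.torsionOrder K : ℕ) : ℂ) ≤ v (Mu.card : ℂ) := by
        rw [hk, Nat.cast_mul, map_mul]
        exact mul_le_of_le_one_right (v.nonneg _) (PP.Lmain.w_nat_le na k)
      exact inv_anti₀ (v.pos hw0) h4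
    have hMv : v (Ideal.absNorm M : ℂ) = v (Ideal.absNorm D0 : ℂ) := by
      have h4 : v (Ideal.absNorm D : ℂ) = 1 := by
        have := PP.Lmain.w_odd_eq na two (n := (Ideal.absNorm D : ℤ)) (by exact_mod_cast hodd)
        exact_mod_cast this
      rw [hMdef, map_mul, Nat.cast_mul, map_mul, h4, mul_one]
    have hM0 : Ideal.absNorm M ≠ 0 := by
      rwa [Ne, Ideal.absNorm_eq_zero_iff]
    have hsumv : v (∑ r ∈ TD, chK (-1 * r) * l r) ≤ b A' := by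
      refine av_sum na TD _ (hb0 A') fun r hr => ?_
      have h4 : v (chK (-1 * r)) = 1 := by
        have h5 := congrArg v (hd4 r hr (-1) (InD_neg_one hA))
        rw [map_pow, map_one] at h5
        exact (pow_eq_one_iff_of_nonneg (v.nonneg _) hM0).1 h5
      rw [map_mul, h4, one_mul]
      exact hb A' _ (hl r hr)
    have hJ0 : (Ideal.absNorm J : ℂ) ≠ 0 := by
      rw [← hJC]
      exact_mod_cast hJN.ne'
    have hs0' : (nK s0 : ℂ) ≠ 0 := by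
      exact_mod_cast (nK_pos hs0).ne'
    have hcon : (Ideal.absNorm J : ℂ)⁻¹ * (nK s0 : ℂ)⁻¹ = (Nm A' : ℂ) / dN := by
      have h6 : ((nK s0 * Nm A' * (Ideal.absNorm J : ℝ) : ℝ) : ℂ) = dN := by
        rw [← Nm_scale hAA, hNA, hdN]
        push_cast
        rfl
      rw [eq_div_iff hd0, ← h6]
      push_cast
      field_simp
    have hre : (Ideal.absNorm J : ℂ)⁻¹ / (Mu.card : ℂ) * ((Ideal.absNorm M : ℂ)⁻¹ *
        ∑ r ∈ TD, chK (-1 * r) * ((nK s0 : ℂ)⁻¹ * l r)) =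
        (Nm A' : ℂ) / dN * (Mu.card : ℂ)⁻¹ * ((Ideal.absNorm M : ℂ)⁻¹ *
          ∑ r ∈ TD, chK (-1 * r) * l r) := by
      rw [← hcon]
      have h7 : ∑ r ∈ TD, chK (-1 * r) * ((nK s0 : ℂ)⁻¹ * l r) =
          (nK s0 : ℂ)⁻¹ * ∑ r ∈ TD, chK (-1 * r) * l r := by
        rw [Finset.mul_sum]
        exact Finset.sum_congr rfl fun r _ => by ring
      rw [h7]
      ring
    have hlpv : v ((Ideal.absNorm M : ℂ)⁻¹ * ∑ r ∈ TD, chK (-1 * r) * l r) ≤ Q * b A' := by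
      rw [map_mul, map_inv₀, hMv]
      exact mul_le_mul_of_nonneg_left hsumv hQ0
    rw [hre, map_mul, map_mul, map_inv₀]
    refine (mul_le_mul (mul_le_mul_of_nonneg_left hUv (v.nonneg _)) hlpv (v.nonneg _)
        (mul_nonneg (v.nonneg _) hW0)).trans ?_
    exact Finset.single_le_sum (f := fun A => v ((Nm A : ℂ) / dN) * W * (Q * b A))
      (fun A _ => mul_nonneg (mul_nonneg (v.nonneg _) hW0) (mul_nonneg hQ0 (hb0 A))) hA'
  · -- differentiability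
    have hsum : DifferentiableOn ℂ (fun s : ℂ => ∑ r ∈ TD, chK (-1 * r) *
        ((nK s0 : ℂ) ^ (-s) * L r s)) {s | 1 < s.re} := by
      refine DifferentiableOn.fun_sum fun r hr => ?_
      exact (((cpow_dif (nK_pos hs0)).differentiableOn.mul (hL1 r hr))).const_mul _
    exact (((cpow_dif hJN).div_const _).differentiableOn).mul (hsum.const_mul _)
  · -- the series
    have h6 : ∀ r ∈ TD, HasSum (fun t : {t : K // t ∈ T ∧ TPos t} =>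
        coef c A t.1 * chK (t.1 * r) * (nK t.1 : ℂ) ^ (-s)) ((nK s0 : ℂ) ^ (-s) * L r s) := by
      intro r hr
      refine hσ r hr s (lt_of_le_of_lt ?_ hs)
      exact (le_abs_self _).trans (Finset.single_le_sum (f := fun r => |σ r|)
        (fun r _ => abs_nonneg _) hr)
    have h7 := main_sum hA hM hcard hd2 hd3 hT.1 s (fun r => (nK s0 : ℂ) ^ (-s) * L r s) h6
    have h8 := sum_ray hryt hM hu hMu hun hT hJ hMJ hU c s _ h7
    rw [hJC]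
    exact h8
  · -- the limit
    have h6 : Tendsto (fun t : ℝ => ∑ r ∈ TD, chK (-1 * r) *
        ((nK s0 : ℂ) ^ (-(t : ℂ)) * L r t)) (𝓝[>] 1)
        (𝓝 (∑ r ∈ TD, chK (-1 * r) * ((nK s0 : ℂ)⁻¹ * l r))) :=
      tendsto_finsetSum TD fun r hr => ((cpow_lim (nK_pos hs0)).mul (hL3 r hr)).const_mul _
    have h7 := cpow_lim hJN
    rw [hJC] at h7 ⊢
    exact (h7.div_const _).mul (h6.const_mul _)

end

end Pool.Agent.Lib.MP_50bb2e_nt.Anf.Aint
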