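import Pool.Agent.Lib.MP_50bb2e_nt.Anf.Iface

/-!
MP_50bb2e_nt, board ANF, row BOX: the cocycle property of the boxes.
-/

namespace Pool.Agent.Lib.MP_50bb2e_nt.Anf.Box

open NumberField

set_option linter.unusedSectionVars false

variable {K : Type} [Field K] [NumberField K]

/-- the factors of the faces -/
noncomputable def fn (u w : ℕ → ℂ) (i j : ℕ) : ℂ :=
  if j + 1 < i then u j else if j + 1 = i then u j + w j else w j

/-- the telescoping sum -/
theorem tele (u w : ℕ → ℂ) : ∀ n : ℕ, ∑ i ∈ Finset.range (n + 2), (-1 : ℂ) ^ i *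
    ∏ j ∈ Finset.range n, fn u w i j = 0
  | 0 => by simp [Finset.sum_range_succ]
  | n + 1 => by
    have ih := tele u w n
    rw [Finset.sum_range_succ] at ih
    rw [Finset.sum_range_succ, Finset.sum_range_succ]
    have h1 : ∏ j ∈ Finset.range n, fn u w (n + 1) j = ∏ j ∈ Finset.range n, u j := by
      refine Finset.prod_congr rfl fun j hj => ?_
      rw [Finset.mem_range] at hj
      unfold fn
      rw [if_pos (by omega)]
    have h2 : ∏ j ∈ Finset.range n, fn u w (n + 1 + 1) j = ∏ j ∈ Finset.range n, u j := by
      refine Finset.prod_congr rfl fun j hj => ?_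
      rw [Finset.mem_range] at hj
      unfold fn
      rw [if_pos (by omega)]
    have h3 : ∑ i ∈ Finset.range (n + 1), (-1 : ℂ) ^ i * ∏ j ∈ Finset.range (n + 1), fn u w i j =
        w n * ∑ i ∈ Finset.range (n + 1), (-1 : ℂ) ^ i * ∏ j ∈ Finset.range n, fn u w i j := by
      rw [Finset.mul_sum]
      refine Finset.sum_congr rfl fun i hi => ?_
      rw [Finset.mem_range] at hi
      rw [Finset.prod_range_succ]
      have : fn u w i n = w n := by
        unfold fn
        rw [if_neg (by omega), if_neg (by omega)]
      rw [this]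
      ring
    have h4 : fn u w (n + 1) n = u n + w n := by
      unfold fn
      rw [if_neg (by omega), if_pos rfl]
    have h5 : fn u w (n + 1 + 1) n = u n := by
      unfold fn
      rw [if_pos (by omega)]
    rw [h3, Finset.prod_range_succ, Finset.prod_range_succ, h1, h2, h4, h5]
    rw [h1] at ih
    linear_combination (w n) * ih

/-- the multi-difference as a sum against a product -/
theorem prodform {n : ℕ} {X : Type} [Fintype X] [DecidableEq X] (g : (Fin n → X) → ℂ)
    (a b : Fin n → X) :
    ∑ J : Finset (Fin n), (-1 : ℂ) ^ (n - J.card) * g (fun j => if j ∈ J then b j else a j) =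
      ∑ k : Fin n → X, (∏ j, ((if k j = b j then (1 : ℂ) else 0) -
        (if k j = a j then 1 else 0))) * g k := by
  have h1 : ∀ k : Fin n → X, (∏ j, ((if k j = b j then (1 : ℂ) else 0) -
      (if k j = a j then 1 else 0))) = ∑ J : Finset (Fin n), (-1 : ℂ) ^ (n - J.card) *
        (if k = (fun j => if j ∈ J then b j else a j) then 1 else 0) := by
    intro k
    simp only [sub_eq_add_neg]
    rw [Fintype.prod_add]
    refine Finset.sum_congr rfl fun J _ => ?_
    have h2 : ∏ j ∈ Jᶜ, -(if k j = a j then (1 : ℂ) else 0) =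
        (-1) ^ (n - J.card) * ∏ j ∈ Jᶜ, (if k j = a j then (1 : ℂ) else 0) := by
      rw [Finset.prod_neg, Finset.card_compl, Fintype.card_fin]
    have h3 : (∏ j ∈ J, (if k j = b j then (1 : ℂ) else 0)) *
        ∏ j ∈ Jᶜ, (if k j = a j then (1 : ℂ) else 0) =
        if k = (fun j => if j ∈ J then b j else a j) then 1 else 0 := by
      by_cases hk : k = (fun j => if j ∈ J then b j else a j)
      · rw [if_pos hk, Finset.prod_eq_one, Finset.prod_eq_one, one_mul]
        · intro j hj
          rw [if_pos]
          rw [hk]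
          simp only
          rw [if_neg (Finset.mem_compl.1 hj)]
        · intro j hj
          rw [if_pos]
          rw [hk]
          simp only
          rw [if_pos hj]
      · rw [if_neg hk]
        have : ∃ j, k j ≠ if j ∈ J then b j else a j := by
          by_contra hcon
          push Not at hcon
          exact hk (funext hcon)
        obtain ⟨j, hj⟩ := this
        by_cases hJ : j ∈ J
        · rw [if_pos hJ] at hj
          rw [Finset.prod_eq_zero hJ (if_neg hj), zero_mul]
        · rw [if_neg hJ] at hj
          rw [Finset.prod_eq_zero (Finset.mem_compl.2 hJ) (if_neg hj), mul_zero]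
    rw [h2, ← h3]
    ring
  simp only [h1, Finset.sum_mul]
  rw [Finset.sum_comm]
  refine Finset.sum_congr rfl fun J _ => ?_
  simp only [mul_assoc, ite_mul, one_mul, zero_mul, mul_ite, mul_zero]
  rw [Finset.sum_ite_eq', if_pos (Finset.mem_univ _)]

open Classical in
/-- the box with separate end points -/
noncomputable def bxx {n : ℕ} (e : Fin (n + 1) ≃ InfinitePlace K) (F : Pt K → ℂ) (x : Pt K)
    (a b : Fin n → Pt K) : ℂ :=
  ∑ J : Finset (Fin n), (-1 : ℂ) ^ (n - J.card) * F (fun v =>
    Fin.cases (x v) (fun j : Fin n => if j ∈ J then b j v else a j v) (e.symm v))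

theorem box_eq {n : ℕ} (e : Fin (n + 1) ≃ InfinitePlace K) (F : Pt K → ℂ)
    (p : Fin (n + 1) → Pt K) :
    box e F p = bxx e F (p 0) (fun j => p j.castSucc) (fun j => p j.succ) := by
  unfold box bxx
  refine Finset.sum_congr rfl fun J _ => ?_
  congr 2

theorem sgn_sub {n c : ℕ} (h : c ≤ n) : (-1 : ℂ) ^ (n - c) = (-1) ^ n * (-1) ^ c := by
  obtain ⟨d, rfl⟩ := Nat.exists_eq_add_of_le h
  rw [Nat.add_sub_cancel_left, pow_add, mul_comm ((-1 : ℂ) ^ c), mul_assoc, ← mul_pow]
  simp

open Classical in
theorem hsplit {n : ℕ} (e : Fin (n + 1) ≃ InfinitePlace K) (f : Finset (InfinitePlace K) → ℂ) :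
    ∑ J, f J = ∑ J : Finset (Fin n), (f (J.image (fun j => e j.succ)) +
      f (insert (e 0) (J.image (fun j => e j.succ)))) := by
  have h0 : e 0 ∉ (Finset.univ : Finset (Fin n)).image (fun j => e j.succ) := by
    intro h
    obtain ⟨j, _, hj⟩ := Finset.mem_image.1 h
    exact Fin.succ_ne_zero j (e.injective hj)
  have h1 : (Finset.univ : Finset (InfinitePlace K)) =
      insert (e 0) ((Finset.univ : Finset (Fin n)).image (fun j => e j.succ)) := by
    symm
    rw [Finset.eq_univ_iff_forall]
    intro v
    obtain ⟨k, rfl⟩ := e.surjective v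
    rw [Finset.mem_insert, Finset.mem_image]
    rcases Fin.eq_zero_or_eq_succ k with h | ⟨j, h⟩
    · left
      rw [h]
    · right
      exact ⟨j, Finset.mem_univ _, by rw [h]⟩
  have hinj : Function.Injective (fun J : Finset (Fin n) => J.image (fun j => e j.succ)) := by
    apply Finset.image_injective
    intro i j hij
    exact Fin.succ_injective _ (e.injective hij)
  rw [← Finset.powerset_univ, h1, Finset.sum_powerset_insert h0, Finset.powerset_image,
    Finset.sum_image (fun _ _ _ _ h => hinj h), Finset.sum_image (fun _ _ _ _ h => hinj h),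
    Finset.powerset_univ, Finset.sum_add_distrib]

theorem lemA {n : ℕ} (e : Fin (n + 1) ≃ InfinitePlace K) (F : Pt K → ℂ) (hF : Mix0 F)
    (x x' : Pt K) (a b : Fin n → Pt K) (hx : Pos x) (hx' : Pos x') (ha : ∀ j, Pos (a j))
    (hb : ∀ j, Pos (b j)) : bxx e F x a b = bxx e F x' a b := by
  classical
  have hX : ∀ (y : Pt K) (c : Fin n → Pt K), Pos y → (∀ j, Pos (c j)) →
      Pos (fun v => Fin.cases (y v) (fun j : Fin n => c j v) (e.symm v)) := by
    intro y c hy hc v
    obtain ⟨k, rfl⟩ := e.surjective v
    rcases Fin.eq_zero_or_eq_succ k with h | ⟨j, h⟩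
    · subst h
      simp only [Equiv.symm_apply_apply, Fin.cases_zero]
      exact hy _
    · subst h
      simp only [Equiv.symm_apply_apply, Fin.cases_succ]
      exact hc _ _
  have hm := hF _ _ (hX x a hx ha) (hX x' b hx' hb)
  rw [hsplit e] at hm
  have hinj : Function.Injective (fun j : Fin n => e j.succ) := fun i j hij =>
    Fin.succ_injective _ (e.injective hij)
  have h0 : ∀ J : Finset (Fin n), e 0 ∉ J.image (fun j => e j.succ) := by
    intro J h
    obtain ⟨j, _, hj⟩ := Finset.mem_image.1 h
    exact Fin.succ_ne_zero j (e.injective hj)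
  have hmem : ∀ (J : Finset (Fin n)) (j : Fin n), e j.succ ∈ J.image (fun j => e j.succ) ↔
      j ∈ J := by
    intro J j
    constructor
    · intro h
      obtain ⟨i, hi, hij⟩ := Finset.mem_image.1 h
      rwa [← hinj hij]
    · intro h
      exact Finset.mem_image.2 ⟨j, h, rfl⟩
  have e1 : ∀ J : Finset (Fin n),
      (fun v => if v ∈ J.image (fun j => e j.succ) then
        (Fin.cases (x' v) (fun j : Fin n => b j v) (e.symm v) : ℂ × ℝ) else
        Fin.cases (x v) (fun j : Fin n => a j v) (e.symm v)) =
      fun v => (Fin.cases (x v) (fun j : Fin n => if j ∈ J then b j v else a j v) (e.symm v)) := by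
    intro J
    funext v
    obtain ⟨k, rfl⟩ := e.surjective v
    rcases Fin.eq_zero_or_eq_succ k with h | ⟨j, h⟩
    · subst h
      rw [if_neg (h0 J)]
      simp only [Equiv.symm_apply_apply, Fin.cases_zero]
    · subst h
      simp only [Equiv.symm_apply_apply, Fin.cases_succ, hmem]
  have e2 : ∀ J : Finset (Fin n),
      (fun v => if v ∈ insert (e 0) (J.image (fun j => e j.succ)) then
        (Fin.cases (x' v) (fun j : Fin n => b j v) (e.symm v) : ℂ × ℝ) else
        Fin.cases (x v) (fun j : Fin n => a j v) (e.symm v)) =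
      fun v => (Fin.cases (x' v) (fun j : Fin n => if j ∈ J then b j v else a j v) (e.symm v)) := by
    intro J
    funext v
    obtain ⟨k, rfl⟩ := e.surjective v
    rcases Fin.eq_zero_or_eq_succ k with h | ⟨j, h⟩
    · subst h
      rw [if_pos (Finset.mem_insert_self _ _)]
      simp only [Equiv.symm_apply_apply, Fin.cases_zero]
    · subst h
      have hne : e j.succ ≠ e 0 := fun h => Fin.succ_ne_zero j (e.injective h)
      simp only [Equiv.symm_apply_apply, Fin.cases_succ, Finset.mem_insert, hmem, hne, false_or]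
  have hm2 : ∑ J : Finset (Fin n), ((-1 : ℂ) ^ J.card * F (fun v =>
      Fin.cases (x v) (fun j : Fin n => if j ∈ J then b j v else a j v) (e.symm v)) -
      (-1 : ℂ) ^ J.card * F (fun v =>
      Fin.cases (x' v) (fun j : Fin n => if j ∈ J then b j v else a j v) (e.symm v))) = 0 := by
    rw [← hm]
    refine Finset.sum_congr rfl fun J _ => ?_
    rw [← e1 J, ← e2 J, Finset.card_insert_of_notMem (h0 J), Finset.card_image_of_injective _ hinj]
    ring
  unfold bxx
  rw [← sub_eq_zero, ← Finset.sum_sub_distrib]
  have hm3 : (-1 : ℂ) ^ n * ∑ J : Finset (Fin n), ((-1 : ℂ) ^ J.card * F (fun v =>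
      Fin.cases (x v) (fun j : Fin n => if j ∈ J then b j v else a j v) (e.symm v)) -
      (-1 : ℂ) ^ J.card * F (fun v =>
      Fin.cases (x' v) (fun j : Fin n => if j ∈ J then b j v else a j v) (e.symm v))) = 0 := by
    rw [hm2, mul_zero]
  rw [← hm3, Finset.mul_sum]
  refine Finset.sum_congr rfl fun J _ => ?_
  have hc : J.card ≤ n := by
    have := Finset.card_le_univ J
    rwa [Fintype.card_fin] at this
  rw [sgn_sub hc]
  ring

theorem box_proof : BoxStatement := by
  intro K _ _ n e F hF
  classical
  constructor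
  · intro p hp
    have h1 : ∀ i : Fin (n + 2), box e F (fun j => p (i.succAbove j)) =
        ∑ k : Fin n → Fin (n + 2), (∏ j, ((if k j = i.succAbove j.succ then (1 : ℂ) else 0) -
          (if k j = i.succAbove j.castSucc then 1 else 0))) *
          F (fun v => Fin.cases (p 0 v) (fun j => p (k j) v) (e.symm v)) := by
      intro i
      rw [box_eq, lemA e F hF _ (p 0) _ _ (hp _) (hp _) (fun j => hp _) (fun j => hp _)]
      rw [← prodform]
      unfold bxx
      refine Finset.sum_congr rfl fun J _ => ?_
      congr 2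
      funext v
      congr 1
      funext j
      by_cases hj : j ∈ J
      · simp only [hj, if_true]
      · simp only [hj, if_false]
    simp only [h1, Finset.mul_sum]
    rw [Finset.sum_comm]
    refine Finset.sum_eq_zero fun k _ => ?_
    have h2 : ∑ i : Fin (n + 2), (-1 : ℂ) ^ (i : ℕ) *
        (∏ j, ((if k j = i.succAbove j.succ then (1 : ℂ) else 0) -
          (if k j = i.succAbove j.castSucc then 1 else 0))) = 0 := by
      let u : ℕ → ℂ := fun j => if h : j < n then
        (if (k ⟨j, h⟩ : ℕ) = j + 1 then 1 else 0) - (if (k ⟨j, h⟩ : ℕ) = j then 1 else 0) else 0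
      let w : ℕ → ℂ := fun j => if h : j < n then
        (if (k ⟨j, h⟩ : ℕ) = j + 2 then 1 else 0) - (if (k ⟨j, h⟩ : ℕ) = j + 1 then 1 else 0) else 0
      refine Eq.trans ?_ (tele u w n)
      rw [← Fin.sum_univ_eq_sum_range
        (fun i => (-1 : ℂ) ^ i * ∏ j ∈ Finset.range n, fn u w i j)]
      refine Finset.sum_congr rfl fun i _ => ?_
      rw [← Fin.prod_univ_eq_prod_range (fun j => fn u w i j)]
      congr 1
      refine Finset.prod_congr rfl fun j _ => ?_
      have hu : u j = (if (k j : ℕ) = j + 1 then 1 else 0) - (if (k j : ℕ) = j then 1 else 0) :=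
        dif_pos j.2
      have hw : w j = (if (k j : ℕ) = j + 2 then 1 else 0) - (if (k j : ℕ) = j + 1 then 1 else 0) :=
        dif_pos j.2
      have hb : ((i.succAbove j.succ : Fin (n + 2)) : ℕ) =
          if (j : ℕ) + 1 < i then (j : ℕ) + 1 else (j : ℕ) + 2 := by
        unfold Fin.succAbove
        by_cases h : (j : ℕ) + 1 < i
        · rw [if_pos h, if_pos (by rw [Fin.lt_def]; simpa using h)]
          simp
        · rw [if_neg h, if_neg (by rw [Fin.lt_def]; simpa using h)]
          simp
      have ha : ((i.succAbove j.castSucc : Fin (n + 2)) : ℕ) =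
          if (j : ℕ) < i then (j : ℕ) else (j : ℕ) + 1 := by
        unfold Fin.succAbove
        by_cases h : (j : ℕ) < i
        · rw [if_pos h, if_pos (by rw [Fin.lt_def]; simpa using h)]
          simp
        · rw [if_neg h, if_neg (by rw [Fin.lt_def]; simpa using h)]
          simp
      have hk1 : (k j = i.succAbove j.succ) ↔ (k j : ℕ) =
          if (j : ℕ) + 1 < i then (j : ℕ) + 1 else (j : ℕ) + 2 := by
        rw [Fin.ext_iff, hb]
      have hk2 : (k j = i.succAbove j.castSucc) ↔ (k j : ℕ) =
          if (j : ℕ) < i then (j : ℕ) else (j : ℕ) + 1 := by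
        rw [Fin.ext_iff, ha]
      simp only [hk1, hk2]
      unfold fn
      rw [hu, hw]
      by_cases c1 : (j : ℕ) + 1 < i
      · simp only [if_pos c1, if_pos (show (j : ℕ) < i by omega)]
      · by_cases c2 : (j : ℕ) + 1 = i
        · simp only [if_neg c1, if_pos c2, if_pos (show (j : ℕ) < i by omega)]
          ring
        · simp only [if_neg c1, if_neg c2, if_neg (show ¬ (j : ℕ) < i by omega)]
    calc _ = (∑ i : Fin (n + 2), (-1 : ℂ) ^ (i : ℕ) *
        (∏ j, ((if k j = i.succAbove j.succ then (1 : ℂ) else 0) -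
          (if k j = i.succAbove j.castSucc then 1 else 0)))) *
          F (fun v => Fin.cases (p 0 v) (fun j => p (k j) v) (e.symm v)) := by
            rw [Finset.sum_mul]
            refine Finset.sum_congr rfl fun i _ => ?_
            ring
      _ = 0 := by rw [h2, zero_mul]
  · intro p x hp hx
    rw [box_eq, box_eq, lemA e F hF _ x _ _ (hp _) hx (fun j => hp _) (fun j => hp _)]
    unfold bxx
    refine Finset.sum_congr rfl fun J _ => ?_
    congr 2
    funext v
    obtain ⟨k, rfl⟩ := e.surjective v
    rcases Fin.eq_zero_or_eq_succ k with h | ⟨j, h⟩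
    · subst h
      simp only [Equiv.symm_apply_apply, Fin.cases_zero, if_true]
    · subst h
      have hne : e j.succ ≠ e 0 := fun h => Fin.succ_ne_zero j (e.injective h)
      simp only [Equiv.symm_apply_apply, Fin.cases_succ, hne, if_false]

end Pool.Agent.Lib.MP_50bb2e_nt.Anf.Box
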