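import Pool.Agent.Lib.MP_50bb2e_nt.Anf.Iface

/-!
MP_50bb2e_nt, board ANF, row BPI: independence of the base point (prism argument).
-/

namespace Pool.Agent.Lib.MP_50bb2e_nt.Anf.Bpi

open Finset

section

variable {U P : Type} [CommGroup U] [MulAction U P] {n : ℕ}

/-- the product of the first `j` of the elements `u (τ i)` -/
def pn (u : Fin n → U) (τ : Equiv.Perm (Fin n)) (j : ℕ) : U :=
  ∏ i ∈ range j, if h : i < n then u (τ ⟨i, h⟩) else 1

theorem pt_eq (u : Fin n → U) (τ : Equiv.Perm (Fin n)) (j : Fin (n + 1)) : pt u τ j = pn u τ j := by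
  have hj : (j : ℕ) ≤ n := Nat.lt_succ_iff.1 j.2
  unfold pt pn
  symm
  refine Finset.prod_bij' (fun i hi => (⟨i, by have := mem_range.1 hi; omega⟩ : Fin n))
    (fun i _ => (i : ℕ)) ?_ ?_ ?_ ?_ ?_
  · intro i hi
    simp only [mem_filter, mem_univ, true_and]
    exact mem_range.1 hi
  · intro i hi
    simp only [mem_filter, mem_univ, true_and] at hi
    exact mem_range.2 hi
  · intro i hi
    rfl
  · intro i hi
    rfl
  · intro i hi
    have h : i < n := by have := mem_range.1 hi; omega
    rw [dif_pos h]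

/-- the product does not change under a transposition of neighbours, except at one place -/
theorem pn_swap (u : Fin n → U) (τ : Equiv.Perm (Fin n)) {k : ℕ} (hk : k + 1 < n) {j : ℕ}
    (hj : j ≠ k + 1) :
    pn u (τ * Equiv.swap ⟨k, by omega⟩ ⟨k + 1, hk⟩) j = pn u τ j := by
  unfold pn
  refine Finset.prod_bij' (fun i _ => if i = k then k + 1 else if i = k + 1 then k else i)
    (fun i _ => if i = k then k + 1 else if i = k + 1 then k else i) ?_ ?_ ?_ ?_ ?_
  · intro i hi
    rw [mem_range] at hi ⊢
    split_ifs <;> omega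
  · intro i hi
    rw [mem_range] at hi ⊢
    split_ifs <;> omega
  · intro i hi
    split_ifs <;> omega
  · intro i hi
    split_ifs <;> omega
  · intro i hi
    by_cases h : i < n
    · rw [dif_pos h]
      by_cases h1 : i = k
      · subst h1
        rw [if_pos rfl, dif_pos hk, Equiv.Perm.mul_apply, Equiv.swap_apply_left]
      · rw [if_neg h1]
        by_cases h2 : i = k + 1
        · subst h2
          rw [if_pos rfl, dif_pos (by omega : k < n), Equiv.Perm.mul_apply,
            Equiv.swap_apply_right]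
        · rw [if_neg h2, dif_pos h, Equiv.Perm.mul_apply, Equiv.swap_apply_of_ne_of_ne]
          · intro h3; exact h1 (by simpa using congrArg Fin.val h3)
          · intro h3; exact h2 (by simpa using congrArg Fin.val h3)
    · rw [dif_neg h, if_neg (by omega), if_neg (by omega), dif_neg h]

/-- the cyclic shift -/
theorem pn_rot (u : Fin (n + 1) → U) (τ : Equiv.Perm (Fin (n + 1))) {j : ℕ} (hj : j ≤ n) :
    pn u τ (j + 1) = u (τ 0) * pn u (τ * finRotate (n + 1)) j := by
  unfold pn
  rw [prod_range_succ', mul_comm, dif_pos (Nat.succ_pos n)]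
  congr 1
  refine Finset.prod_congr rfl fun i hi => ?_
  rw [mem_range] at hi
  rw [dif_pos (by omega : i + 1 < n + 1), dif_pos (by omega : i < n + 1), Equiv.Perm.mul_apply,
    finRotate_of_lt (by omega : i < n)]

/-- the entries of the faces of the prism -/
def F (p p' : P) (m k : ℕ) (a : ℕ → U) (j : ℕ) : P :=
  if (if j < k then j else j + 1) ≤ m then a (if j < k then j else j + 1) • p
    else a ((if j < k then j else j + 1) - 1) • p'

/-- the antisymmetrized faces -/
noncomputable def E (Θ : (Fin (n + 1) → P) → ℂ) (u : Fin n → U) (p p' : P) (m k : ℕ) : ℂ :=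
  ∑ τ : Equiv.Perm (Fin n), ((Equiv.Perm.sign τ : ℤ) : ℂ) *
    Θ (fun j => F p p' m k (pn u τ) j)

variable (Θ : (Fin (n + 1) → P) → ℂ) (u : Fin n → U) (p p' : P)

theorem E_zero (m k k0 : ℕ) (hk : k0 + 1 < n)
    (h : ∀ a b : ℕ → U, (∀ j, j ≠ k0 + 1 → a j = b j) → ∀ j ≤ n, F p p' m k a j = F p p' m k b j) :
    E Θ u p p' m k = 0 := by
  have h1 : E Θ u p p' m k = - E Θ u p p' m k := by
    conv_lhs => rw [E, ← Equiv.sum_comp (Equiv.mulRight (Equiv.swap (⟨k0, by omega⟩ : Fin n) ⟨k0 + 1, hk⟩))]
    rw [E, ← Finset.sum_neg_distrib]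
    refine Finset.sum_congr rfl fun τ _ => ?_
    have hne : (⟨k0, by omega⟩ : Fin n) ≠ ⟨k0 + 1, hk⟩ := by
      intro h3; have := congrArg Fin.val h3; simp at this
    rw [Equiv.coe_mulRight, Equiv.Perm.sign_mul, Equiv.Perm.sign_swap hne]
    have e : (fun j : Fin (n + 1) => F p p' m k
        (pn u (τ * Equiv.swap (⟨k0, by omega⟩ : Fin n) ⟨k0 + 1, hk⟩)) j) =
        fun j : Fin (n + 1) => F p p' m k (pn u τ) j := by
      funext j
      exact h _ _ (fun j hj => pn_swap u τ hk hj) j (Nat.lt_succ_iff.1 j.2)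
    rw [e]
    push_cast
    ring
  have h2 : (2 : ℂ) * E Θ u p p' m k = 0 := by linear_combination h1
  exact (mul_eq_zero.1 h2).resolve_left two_ne_zero

theorem E_diag (m : ℕ) : E Θ u p p' m (m + 1) = E Θ u p p' (m + 1) (m + 1) := by
  unfold E
  refine Finset.sum_congr rfl fun τ _ => ?_
  congr 2
  funext j
  unfold F
  by_cases h : (j : ℕ) < m + 1
  · rw [if_pos h, if_pos (by omega), if_pos (by omega)]
  · rw [if_neg h, if_neg (by omega), if_neg (by omega)]

theorem E_rot {n : ℕ} (Θ : (Fin (n + 2) → P) → ℂ) (hΘ : ∀ (u : U) (p : Fin (n + 2) → P), Θ (fun j => u • p j) = Θ p)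
    (u : Fin (n + 1) → U) {m : ℕ} (hm : m < n + 1) :
    E Θ u p p' m (n + 2) = (-1) ^ n * E Θ u p p' (m + 1) 0 := by
  have h1 : ∀ τ : Equiv.Perm (Fin (n + 1)), Θ (fun j => F p p' (m + 1) 0 (pn u τ) j) =
      Θ (fun j => F p p' m (n + 2) (pn u (τ * finRotate (n + 1))) j) := by
    intro τ
    rw [← hΘ (u (τ 0)) (fun j => F p p' m (n + 2) (pn u (τ * finRotate (n + 1))) j)]
    congr 1
    funext j
    have hj := j.2
    unfold F
    rw [if_neg (Nat.not_lt_zero _), if_pos hj]
    by_cases h : (j : ℕ) ≤ m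
    · rw [if_pos (by omega), if_pos h, smul_smul, pn_rot u τ (by omega : (j : ℕ) ≤ n)]
    · rw [if_neg (by omega), if_neg h, smul_smul, ← pn_rot u τ (by omega : (j : ℕ) - 1 ≤ n)]
      congr 2
      omega
  have h2 : E Θ u p p' (m + 1) 0 = ∑ τ : Equiv.Perm (Fin (n + 1)),
      (-1 : ℂ) ^ n * (((Equiv.Perm.sign (τ * finRotate (n + 1)) : ℤ) : ℂ) *
        Θ (fun j => F p p' m (n + 2) (pn u (τ * finRotate (n + 1))) j)) := by
    unfold E
    refine Finset.sum_congr rfl fun τ _ => ?_
    rw [h1 τ, Equiv.Perm.sign_mul, sign_finRotate]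
    push_cast
    have h3 : (-1 : ℂ) ^ n * (-1) ^ n = 1 := by rw [← mul_pow]; simp
    linear_combination (-(((Equiv.Perm.sign τ : ℤ) : ℂ) *
        Θ (fun j => F p p' m (n + 2) (pn u (τ * finRotate (n + 1))) j))) * h3
  have h4 : ∑ τ : Equiv.Perm (Fin (n + 1)), (((Equiv.Perm.sign (τ * finRotate (n + 1)) : ℤ) : ℂ) *
        Θ (fun j => F p p' m (n + 2) (pn u (τ * finRotate (n + 1))) j)) = E Θ u p p' m (n + 2) := by
    rw [E]
    exact Equiv.sum_comp (Equiv.mulRight (finRotate (n + 1))) (fun τ => ((Equiv.Perm.sign τ : ℤ) : ℂ) *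
        Θ (fun j => F p p' m (n + 2) (pn u τ) j))
  rw [h2, ← Finset.mul_sum, h4, ← mul_assoc, ← mul_pow]
  simp

/-- the cocycle relation for the prism, antisymmetrized -/
theorem E_sum (hc : ∀ p : Fin (n + 2) → P, ∑ i : Fin (n + 2), (-1 : ℂ) ^ (i : ℕ) *
      Θ (fun j => p (i.succAbove j)) = 0) (m : ℕ) :
    ∑ k ∈ range (n + 2), (-1 : ℂ) ^ k * E Θ u p p' m k = 0 := by
  have h1 : ∀ a : ℕ → U, ∑ k ∈ range (n + 2), (-1 : ℂ) ^ k * Θ (fun j => F p p' m k a j) = 0 := by
    intro a
    rw [Finset.sum_range]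
    rw [← hc (fun i : Fin (n + 2) => if (i : ℕ) ≤ m then a i • p else a (i - 1) • p')]
    refine Finset.sum_congr rfl fun i _ => ?_
    congr 2
    funext j
    have h2 : ((i.succAbove j : Fin (n + 2)) : ℕ) = if (j : ℕ) < i then (j : ℕ) else j + 1 := by
      unfold Fin.succAbove
      by_cases h : (j : ℕ) < i
      · have h' : j.castSucc < i := h
        rw [if_pos h', if_pos h]
        rfl
      · have h' : ¬ j.castSucc < i := h
        rw [if_neg h', if_neg h]
        rfl
    rw [h2]
    rfl
  calc ∑ k ∈ range (n + 2), (-1 : ℂ) ^ k * E Θ u p p' m k =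
      ∑ τ : Equiv.Perm (Fin n), ((Equiv.Perm.sign τ : ℤ) : ℂ) *
        ∑ k ∈ range (n + 2), (-1 : ℂ) ^ k * Θ (fun j => F p p' m k (pn u τ) j) := by
        unfold E
        simp_rw [Finset.mul_sum]
        rw [Finset.sum_comm]
        refine Finset.sum_congr rfl fun τ _ => Finset.sum_congr rfl fun k _ => ?_
        ring
    _ = 0 := by simp [h1]

end

/-- row BPI -/
theorem bpi_proof : BpiStatement := by
  intro U P _ _ n Θ hΘ hc u p p'
  have hL : ∑ τ : Equiv.Perm (Fin n), ((Equiv.Perm.sign τ : ℤ) : ℂ) * Θ (fun j => pt u τ j • p) =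
      E Θ u p p' (n + 1) (n + 1) := by
    unfold E
    refine Finset.sum_congr rfl fun τ _ => ?_
    congr 2
    funext j
    have hj := j.2
    unfold F
    rw [if_pos hj, if_pos (by omega), pt_eq]
  have hR : ∑ τ : Equiv.Perm (Fin n), ((Equiv.Perm.sign τ : ℤ) : ℂ) * Θ (fun j => pt u τ j • p') =
      E Θ u p p' 0 0 := by
    unfold E
    refine Finset.sum_congr rfl fun τ _ => ?_
    congr 2
    funext j
    unfold F
    rw [if_neg (Nat.not_lt_zero _), if_neg (by omega), pt_eq]
    rfl
  rw [hL, hR]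
  -- the telescoping function
  let V : ℕ → ℂ := fun m => if m = 0 then 0 else if m ≤ n then (-1) ^ (m - 1) * E Θ u p p' m 0 else 0
  have key : ∀ m ≤ n, E Θ u p p' (m + 1) (m + 1) - E Θ u p p' m m = V (m + 1) - V m := by
    intro m hm
    have hs := E_sum Θ u p p' hc m
    have hval : ∀ k ∈ range (n + 2), (-1 : ℂ) ^ k * E Θ u p p' m k =
        (if k = m then (-1) ^ m * E Θ u p p' m m else 0) +
        (if k = m + 1 then (-1) ^ (m + 1) * E Θ u p p' (m + 1) (m + 1) else 0) +
        (if k = 0 then (if m = 0 then 0 else E Θ u p p' m 0) else 0) +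
        (if k = n + 1 then (if m < n then E Θ u p p' (m + 1) 0 else 0) else 0) := by
      intro k hk
      rw [mem_range] at hk
      by_cases h1 : k = m
      · subst h1
        rw [if_pos rfl, if_neg (by omega), if_neg (show ¬ (k = n + 1) by omega)]
        by_cases h2 : k = 0
        · rw [if_pos h2, if_pos h2]; ring
        · rw [if_neg h2]; ring
      · rw [if_neg h1]
        by_cases h2 : k = m + 1
        · subst h2
          rw [if_pos rfl, if_neg (by omega), E_diag]
          by_cases h3 : m + 1 = n + 1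
          · rw [if_pos h3, if_neg (by omega)]; ring
          · rw [if_neg h3]; ring
        · rw [if_neg h2]
          by_cases h3 : k = 0
          · subst h3
            rw [if_pos rfl, if_neg (by omega), if_neg (by omega)]
            ring
          · rw [if_neg h3]
            by_cases h4 : k = n + 1
            · subst h4
              have hmn : m < n := by omega
              rw [if_pos rfl, if_pos hmn]
              obtain ⟨n', rfl⟩ : ∃ n', n = n' + 1 := ⟨n - 1, by omega⟩
              rw [E_rot p p' Θ hΘ u hmn, ← mul_assoc, ← pow_add]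
              have : (-1 : ℂ) ^ (n' + 1 + 1 + n') = 1 := by
                rw [show n' + 1 + 1 + n' = 2 * (n' + 1) by ring, pow_mul]; simp
              rw [this]; ring
            · rw [if_neg h4]
              have hz : E Θ u p p' m k = 0 := by
                rcases Nat.lt_or_ge k m with h5 | h5
                · obtain ⟨k0, rfl⟩ : ∃ k0, k = k0 + 1 := ⟨k - 1, by omega⟩
                  apply E_zero Θ u p p' m (k0 + 1) k0 (by omega)
                  intro a b hab j hj
                  unfold F
                  by_cases h6 : j < k0 + 1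
                  · rw [if_pos h6, if_pos (by omega), if_pos (by omega), hab _ (by omega)]
                  · rw [if_neg h6]
                    by_cases h7 : j + 1 ≤ m
                    · rw [if_pos h7, if_pos h7, hab _ (by omega)]
                    · rw [if_neg h7, if_neg h7, hab _ (by omega)]
                · obtain ⟨k0, rfl⟩ : ∃ k0, k = k0 + 2 := ⟨k - 2, by omega⟩
                  apply E_zero Θ u p p' m (k0 + 2) k0 (by omega)
                  intro a b hab j hj
                  unfold F
                  by_cases h6 : j < k0 + 2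
                  · rw [if_pos h6]
                    by_cases h7 : j ≤ m
                    · rw [if_pos h7, if_pos h7, hab _ (by omega)]
                    · rw [if_neg h7, if_neg h7, hab _ (by omega)]
                  · rw [if_neg h6, if_neg (by omega), if_neg (by omega), hab _ (by omega)]
              rw [hz]; ring
    rw [Finset.sum_congr rfl hval, Finset.sum_add_distrib, Finset.sum_add_distrib,
      Finset.sum_add_distrib] at hs
    rw [Finset.sum_ite_eq' (range (n + 2)) m, Finset.sum_ite_eq' (range (n + 2)) (m + 1),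
      Finset.sum_ite_eq' (range (n + 2)) 0, Finset.sum_ite_eq' (range (n + 2)) (n + 1),
      if_pos (mem_range.2 (by omega)), if_pos (mem_range.2 (by omega)),
      if_pos (mem_range.2 (by omega)), if_pos (mem_range.2 (by omega))] at hs
    have hsq : (-1 : ℂ) ^ m * (-1) ^ m = 1 := by rw [← mul_pow]; simp
    have hV1 : V (m + 1) = (-1) ^ m * (if m < n then E Θ u p p' (m + 1) 0 else 0) := by
      show (if m + 1 = 0 then 0 else if m + 1 ≤ n then (-1) ^ (m + 1 - 1) * E Θ u p p' (m + 1) 0 else 0) = _
      rw [if_neg (by omega), Nat.add_sub_cancel]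
      by_cases h : m < n
      · rw [if_pos h, if_pos (by omega)]
      · rw [if_neg h, if_neg (by omega)]; ring
    have hV0 : V m = -((-1) ^ m * (if m = 0 then 0 else E Θ u p p' m 0)) := by
      show (if m = 0 then 0 else if m ≤ n then (-1) ^ (m - 1) * E Θ u p p' m 0 else 0) = _
      by_cases h : m = 0
      · rw [if_pos h, if_pos h]; ring
      · rw [if_neg h, if_neg h, if_pos hm]
        obtain ⟨m', rfl⟩ : ∃ m', m = m' + 1 := ⟨m - 1, by omega⟩
        rw [Nat.add_sub_cancel, pow_succ]; ring
    rw [hV1, hV0]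
    have h6 : (-1 : ℂ) ^ (m + 1) = - (-1) ^ m := by rw [pow_succ]; ring
    rw [h6] at hs
    linear_combination (-(-1 : ℂ) ^ m) * hs + (E Θ u p p' m m - E Θ u p p' (m + 1) (m + 1)) * hsq
  have htel := Finset.sum_range_sub (fun m => E Θ u p p' m m) (n + 1)
  have htel2 := Finset.sum_range_sub V (n + 1)
  have he : ∑ i ∈ range (n + 1), (E Θ u p p' (i + 1) (i + 1) - E Θ u p p' i i) =
      ∑ i ∈ range (n + 1), (V (i + 1) - V i) :=
    Finset.sum_congr rfl fun i hi => key i (Nat.lt_succ_iff.1 (mem_range.1 hi))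
  rw [htel, htel2] at he
  have hVn : V (n + 1) = 0 := by
    show (if n + 1 = 0 then 0 else if n + 1 ≤ n then (-1) ^ (n + 1 - 1) * E Θ u p p' (n + 1) 0 else 0) = (0 : ℂ)
    rw [if_neg (by omega), if_neg (by omega)]
  have hV0 : V 0 = 0 := by
    show (if 0 = 0 then 0 else if 0 ≤ n then (-1) ^ (0 - 1) * E Θ u p p' 0 0 else 0) = (0 : ℂ)
    rw [if_pos rfl]
  rw [hVn, hV0, sub_zero, sub_eq_zero] at he
  exact he

end Pool.Agent.Lib.MP_50bb2e_nt.Anf.Bpi
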