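import Pool.Agent.Lib.MP_50bb2e_nt.Anf.Iface

/-!
MP_50bb2e_nt, board ANF, row DEC: the theta-like series tend to zero when one of the heights tends
to infinity; the coefficients of a form on a component are supported on a fractional ideal and of
polynomial growth.
-/

namespace Pool.Agent.Lib.MP_50bb2e_nt.Anf.Dec

open Complex MeasureTheory Filter Topology NumberField IsDedekindDomain
open scoped ComplexConjugate nonZeroDivisors LinearAlgebra.Projectivization
open Pool.Agent.Lib.MP_50bb2e_nt.Imq (FI cF SLK toC actz acty den InG CValI SettingC NonVanC)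

noncomputable section

variable {K : Type} [Field K] [NumberField K]

theorem exists_diff : ∃ E : FI K, (E : FractionalIdeal (𝓞 K)⁰ K) =
    ((differentIdeal ℤ (𝓞 K) : Ideal (𝓞 K)) : FractionalIdeal (𝓞 K)⁰ K) := by
  have h : ((differentIdeal ℤ (𝓞 K) : Ideal (𝓞 K)) : FractionalIdeal (𝓞 K)⁰ K) ≠ 0 := by
    rw [Ne, FractionalIdeal.coeIdeal_eq_zero]
    exact differentIdeal_ne_bot
  exact ⟨Units.mk0 _ h, rfl⟩

theorem coef_coef {n : Ideal (𝓞 K)} {c : Ideal (𝓞 K) → ℂ} (hf : Form n c) (A : FI K) :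
    Coef (coef c A) := by
  classical
  obtain ⟨E, hE⟩ := exists_diff (K := K)
  obtain ⟨C, m, hC⟩ := hf.growth
  set N0 : ℝ := ((FractionalIdeal.absNorm ((A⁻¹ : FI K) : FractionalIdeal (𝓞 K)⁰ K) *
    FractionalIdeal.absNorm (E : FractionalIdeal (𝓞 K)⁰ K) : ℚ) : ℝ) with hN0
  have hN0' : 0 ≤ N0 := by
    rw [hN0]
    exact_mod_cast mul_nonneg (FractionalIdeal.absNorm_nonneg _) (FractionalIdeal.absNorm_nonneg _)
  refine ⟨A * E⁻¹, |C| * N0 ^ m, m, fun ξ hξ => ?_⟩
  by_cases h : ∃ I : Ideal (𝓞 K), (I : FractionalIdeal (𝓞 K)⁰ K) =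
      FractionalIdeal.spanSingleton (𝓞 K)⁰ ξ * ((A⁻¹ : FI K) : FractionalIdeal (𝓞 K)⁰ K) *
    ((differentIdeal ℤ (𝓞 K) : Ideal (𝓞 K)) : FractionalIdeal (𝓞 K)⁰ K)
  · have hs := h.choose_spec
    have hval : coef c A ξ = c h.choose := dif_pos h
    rw [hval]
    set I := h.choose with hI
    rw [← hE] at hs
    have hsp : FractionalIdeal.spanSingleton (𝓞 K)⁰ ξ ≠ 0 := by
      rwa [Ne, FractionalIdeal.spanSingleton_eq_zero_iff]
    have hI0 : I ≠ ⊥ := by
      intro h0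
      rw [h0, FractionalIdeal.coeIdeal_bot] at hs
      exact (mul_ne_zero (mul_ne_zero hsp (Units.ne_zero _)) (Units.ne_zero _)) hs.symm
    have hnorm : (Ideal.absNorm I : ℝ) = nK ξ * N0 := by
      have h1 := congrArg FractionalIdeal.absNorm hs
      rw [map_mul, map_mul, FractionalIdeal.coeIdeal_absNorm,
        FractionalIdeal.absNorm_span_singleton] at h1
      have h2 : (((Ideal.absNorm I : ℕ) : ℚ) : ℝ) = _ := congrArg (fun q : ℚ => (q : ℝ)) h1
      rw [Rat.cast_natCast] at h2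
      rw [h2, hN0]
      unfold nK
      push_cast
      ring
    refine ⟨?_, fun _ => ?_⟩
    · refine (hC I hI0).trans ?_
      rw [hnorm, mul_pow, mul_assoc, mul_comm (nK ξ ^ m)]
      refine mul_le_mul_of_nonneg_right (le_abs_self C) ?_
      exact mul_nonneg (pow_nonneg hN0' _) (pow_nonneg (abs_nonneg _) _)
    · have h1 : FractionalIdeal.spanSingleton (𝓞 K)⁰ ξ = (I : FractionalIdeal (𝓞 K)⁰ K) *
          ((A * E⁻¹ : FI K) : FractionalIdeal (𝓞 K)⁰ K) := by
        rw [hs, Units.val_mul]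
        have e1 : ((A⁻¹ : FI K) : FractionalIdeal (𝓞 K)⁰ K) * (A : FractionalIdeal (𝓞 K)⁰ K) = 1 := by
          rw [← Units.val_mul, inv_mul_cancel, Units.val_one]
        have e2 : (E : FractionalIdeal (𝓞 K)⁰ K) * ((E⁻¹ : FI K) : FractionalIdeal (𝓞 K)⁰ K) = 1 := by
          rw [← Units.val_mul, mul_inv_cancel, Units.val_one]
        calc FractionalIdeal.spanSingleton (𝓞 K)⁰ ξ = FractionalIdeal.spanSingleton (𝓞 K)⁰ ξ *
              (((A⁻¹ : FI K) : FractionalIdeal (𝓞 K)⁰ K) * (A : FractionalIdeal (𝓞 K)⁰ K)) *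
              ((E : FractionalIdeal (𝓞 K)⁰ K) * ((E⁻¹ : FI K) : FractionalIdeal (𝓞 K)⁰ K)) := by
              rw [e1, e2, mul_one, mul_one]
          _ = _ := by ring
      rw [← FractionalIdeal.spanSingleton_le_iff_mem, h1]
      calc (I : FractionalIdeal (𝓞 K)⁰ K) * ((A * E⁻¹ : FI K) : FractionalIdeal (𝓞 K)⁰ K) ≤
          1 * ((A * E⁻¹ : FI K) : FractionalIdeal (𝓞 K)⁰ K) :=
            mul_le_mul_left (FractionalIdeal.coeIdeal_le_one) _
        _ = _ := one_mul _
  · have hval : coef c A ξ = 0 := dif_neg h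
    rw [hval]
    refine ⟨?_, fun h' => absurd rfl h'⟩
    rw [norm_zero]
    exact mul_nonneg (mul_nonneg (abs_nonneg _) (pow_nonneg hN0' _)) (pow_nonneg (abs_nonneg _) _)

omit [NumberField K] in
/-- the local factors are bounded by the radial functions -/
theorem norm_ker_le (v : InfinitePlace K) (ξ : K) (p : ℂ × ℝ) (h : 0 ≤ rad v (v ξ * p.2)) :
    ‖ker v ξ p‖ ≤ rad v (v ξ * p.2) := by
  unfold ker
  split_ifs with h1
  · rw [norm_zero]; exact h
  · rw [norm_mul, Complex.norm_real, Real.norm_of_nonneg h]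
    have h2 : 2 * Real.pi * I * (((v.mult : ℝ) * (v.embedding ξ * p.1).re : ℝ) : ℂ) =
        ((2 * Real.pi * ((v.mult : ℝ) * (v.embedding ξ * p.1).re) : ℝ) : ℂ) * I := by
      push_cast
      ring
    rw [h2, Complex.norm_exp_ofReal_mul_I, mul_one]

theorem dec_Th (hL : LatStatement) (hK : KerStatement) (a : K → ℂ) (ha : Coef a) :
    Dec1 (Th a) := by
  classical
  intro x hx v₀
  obtain ⟨B, Ca, m, hB⟩ := ha
  obtain ⟨⟨ρ, hρ, hρB⟩, hprod, -, hsum⟩ := hL K B
  obtain ⟨hrad, w, hw⟩ := hK K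
  choose hcont h00 hr using hrad
  have hdec : ∀ v : InfinitePlace K, ∃ C κ : ℝ, 0 < C ∧ 0 < κ ∧ ∀ t, 0 < t →
      rad v t ≤ C * Real.exp (-κ * t) := by
    intro v
    obtain ⟨-, -, ⟨C, κ, h1, h2, h3⟩, -⟩ := hw v
    exact ⟨C, κ, h1, h2, fun t ht => (h3 t ht).1⟩
  choose C κ hC hκ hCκ using hdec
  -- the common decay rate
  obtain ⟨v₁, -, hv₁⟩ := Finset.exists_min_image Finset.univ
    (fun v : InfinitePlace K => κ v * (x v).2) ⟨v₀, Finset.mem_univ _⟩
  set κ₀ := κ v₁ * (x v₁).2 with hκ₀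
  have hκ₀pos : 0 < κ₀ := mul_pos (hκ _) (hx _).1
  have hnK : ∀ ξ : K, 0 ≤ nK ξ := fun ξ => abs_nonneg _
  set P : ℝ := ∏ v, C v with hP
  have hPpos : 0 < P := Finset.prod_pos fun v _ => hC v
  -- the moving point
  set X : ℝ → Pt K := fun t w => if w = v₀ then ((x v₀).1, t) else x w with hX
  have hXy : ∀ t, (x v₀).2 ≤ t → ∀ v, (x v).2 ≤ (X t v).2 := by
    intro t ht v
    simp only [hX]
    split_ifs with h
    · rw [h]; exact ht
    · exact le_rfl
  have hvpos : ∀ (ξ : K), ξ ≠ 0 → ∀ v : InfinitePlace K, 0 < v ξ := fun ξ hξ v =>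
    (InfinitePlace.pos_iff).2 hξ
  -- bound of the product
  have hbd : ∀ ξ : K, ξ ≠ 0 → ∀ t, (x v₀).2 ≤ t → ‖∏ v : InfinitePlace K, ker v ξ (X t v)‖ ≤
      P * Real.exp (-κ₀ * ∑ v : InfinitePlace K, v ξ) := by
    intro ξ hξ t ht
    rw [norm_prod]
    have h1 : ∀ v : InfinitePlace K, ‖ker v ξ (X t v)‖ ≤ C v * Real.exp (-κ₀ * v ξ) := by
      intro v
      have hy : 0 < (X t v).2 := (hx v).1.trans_le (hXy t ht v)
      have h2 : 0 < v ξ * (X t v).2 := mul_pos (hvpos ξ hξ v) hy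
      refine (norm_ker_le v ξ _ (hr v _ h2.le).1).trans ((hCκ v _ h2).trans ?_)
      refine mul_le_mul_of_nonneg_left (Real.exp_le_exp.2 ?_) (hC v).le
      have h3 : κ₀ * v ξ ≤ κ v * (X t v).2 * v ξ := by
        refine mul_le_mul_of_nonneg_right ?_ (hvpos ξ hξ v).le
        exact (hv₁ v (Finset.mem_univ _)).trans (mul_le_mul_of_nonneg_left (hXy t ht v) (hκ v).le)
      linarith [mul_comm (v ξ) (X t v).2, mul_assoc (κ v) (X t v).2 (v ξ)]
    refine (Finset.prod_le_prod (fun _ _ => norm_nonneg _) (fun v _ => h1 v)).trans (le_of_eq ?_)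
    rw [Finset.prod_mul_distrib, ← Real.exp_sum, Finset.mul_sum]
  -- the bound
  set bound : K → ℝ := fun ξ => Set.indicator {ξ : K | ξ ∈ (B : FractionalIdeal (𝓞 K)⁰ K)}
    (fun ξ => |Ca| / ρ * P * (nK ξ ^ m * Real.exp (-κ₀ * ∑ v : InfinitePlace K, v ξ))) ξ with hbound
  have hbsum : Summable bound := by
    have h1 := (hsum κ₀ m hκ₀pos).mul_left (|Ca| / ρ * P)
    exact (summable_subtype_iff_indicator (s := {ξ : K | ξ ∈ (B : FractionalIdeal (𝓞 K)⁰ K)})
      (f := fun ξ => |Ca| / ρ * P * (nK ξ ^ m * Real.exp (-κ₀ * ∑ v : InfinitePlace K, v ξ)))).1 h1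
  have hbnn : ∀ ξ, 0 ≤ bound ξ := fun ξ => Set.indicator_nonneg (fun η _ => by
    have := hnK η
    positivity) ξ
  have hcoef : ∀ ξ : K, ξ ≠ 0 → a ξ ≠ 0 → ‖a ξ / (nK ξ : ℂ)‖ ≤ |Ca| / ρ * nK ξ ^ m := by
    intro ξ hξ h0
    have h1 := hρB ξ ((hB ξ hξ).2 h0) hξ
    have h2 : 0 < nK ξ := hρ.trans_le h1
    rw [norm_div, Complex.norm_real, Real.norm_of_nonneg h2.le, div_mul_eq_mul_div]
    have h3 : ‖a ξ‖ ≤ |Ca| * nK ξ ^ m := (hB ξ hξ).1.trans
      (mul_le_mul_of_nonneg_right (le_abs_self _) (pow_nonneg h2.le _))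
    exact div_le_div₀ (mul_nonneg (abs_nonneg _) (pow_nonneg h2.le _)) h3 hρ h1
  have hlim : Tendsto (fun t : ℝ => ∑' ξ : K, (if ξ = 0 then (0 : ℂ) else a ξ / (nK ξ : ℂ) *
      ∏ v : InfinitePlace K, ker v ξ (X t v))) atTop (𝓝 (∑' _ : K, (0 : ℂ))) := by
    refine tendsto_tsum_of_dominated_convergence hbsum (fun ξ => ?_) ?_
    · by_cases hξ : ξ = 0
      · simp only [if_pos hξ]
        exact tendsto_const_nhds
      · simp only [if_neg hξ]
        rw [tendsto_zero_iff_norm_tendsto_zero]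
        have hv0 : 0 < v₀ ξ := hvpos ξ hξ v₀
        have h1 : Tendsto (fun t : ℝ => ‖a ξ / (nK ξ : ℂ)‖ * (C v₀ * Real.exp (-(κ v₀ * v₀ ξ) * t)))
            atTop (𝓝 (‖a ξ / (nK ξ : ℂ)‖ * (C v₀ * 0))) := by
          refine (Tendsto.const_mul _ ?_).const_mul _
          refine Real.tendsto_exp_atBot.comp ?_
          exact tendsto_id.const_mul_atTop_of_neg (by
            have := mul_pos (hκ v₀) hv0
            linarith)
        rw [mul_zero, mul_zero] at h1
        refine squeeze_zero' (Eventually.of_forall fun _ => norm_nonneg _) ?_ h1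
        filter_upwards [eventually_ge_atTop (x v₀).2, eventually_gt_atTop 0] with t ht ht0
        rw [norm_mul, norm_prod]
        refine mul_le_mul_of_nonneg_left ?_ (norm_nonneg _)
        rw [← Finset.mul_prod_erase Finset.univ _ (Finset.mem_univ v₀)]
        have h2 : ∏ v ∈ Finset.univ.erase v₀, ‖ker v ξ (X t v)‖ ≤ 1 := by
          refine Finset.prod_le_one (fun _ _ => norm_nonneg _) fun v _ => ?_
          have hy : 0 < (X t v).2 := (hx v).1.trans_le (hXy t ht v)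
          have h3 := hr v _ (mul_pos (hvpos ξ hξ v) hy).le
          exact (norm_ker_le v ξ _ h3.1).trans h3.2
        have h3 : ‖ker v₀ ξ (X t v₀)‖ ≤ C v₀ * Real.exp (-(κ v₀ * v₀ ξ) * t) := by
          have h4 : (X t v₀).2 = t := by simp only [hX, if_pos]
          have h5 : 0 < v₀ ξ * t := mul_pos hv0 ht0
          have h6 := norm_ker_le v₀ ξ (X t v₀) (by rw [h4]; exact (hr v₀ _ h5.le).1)
          rw [h4] at h6
          refine h6.trans ((hCκ v₀ _ h5).trans (le_of_eq ?_))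
          congr 2
          ring
        calc ‖ker v₀ ξ (X t v₀)‖ * ∏ v ∈ Finset.univ.erase v₀, ‖ker v ξ (X t v)‖ ≤
            ‖ker v₀ ξ (X t v₀)‖ * 1 := mul_le_mul_of_nonneg_left h2 (norm_nonneg _)
          _ ≤ _ := by rw [mul_one]; exact h3
    · filter_upwards [eventually_ge_atTop (x v₀).2] with t ht ξ
      by_cases hξ : ξ = 0
      · rw [if_pos hξ, norm_zero]
        exact hbnn ξ
      · rw [if_neg hξ]
        by_cases h0 : a ξ = 0
        · rw [h0, zero_div, zero_mul, norm_zero]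
          exact hbnn ξ
        · have hmem : ξ ∈ {ξ : K | ξ ∈ (B : FractionalIdeal (𝓞 K)⁰ K)} := (hB ξ hξ).2 h0
          simp only [hbound]
          rw [Set.indicator_of_mem hmem, norm_mul]
          refine (mul_le_mul (hcoef ξ hξ h0) (hbd ξ hξ t ht) (norm_nonneg _) ?_).trans
            (le_of_eq ?_)
          · have := hnK ξ
            positivity
          · ring
  rw [tsum_zero] at hlim
  exact hlim

theorem dec_proof (hL : LatStatement) (hK : KerStatement) : DecStatement := fun _ _ _ =>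
  ⟨fun a ha => dec_Th hL hK a ha, fun _ _ hf A => coef_coef hf A⟩

end

end Pool.Agent.Lib.MP_50bb2e_nt.Anf.Dec
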