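import Pool.Agent.Lib.MP_50bb2e_nt.Anf.Sub

/-!
MP_50bb2e_nt, board ANF, row DOW: Dowker duality, by the bicomplex of pairs of tuples.
Paper: Anf/Paper.md
-/

set_option autoImplicit false

namespace Pool.Agent.Lib.MP_50bb2e_nt.Anf.Dow

open Finsupp
open Pool.Agent.Lib.MP_50bb2e_nt.Anf.Sub (Ch face D D_single bd_eq cone cone_single ext1
  D_cone_zero D_cone D_D map_supp single_supp)

noncomputable section

variable {V P : Type}

/-- chains of pairs of tuples -/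
abbrev W (V P : Type) (p q : ℕ) := ((Fin p → V) × (Fin q → P)) →₀ ℤ

/-- two linear maps which agree on pairs are equal -/
theorem ext2 {p q : ℕ} {M : Type} [AddCommGroup M] {f g : W V P p q →ₗ[ℤ] M}
    (h : ∀ c x, f (single (c, x) 1) = g (single (c, x) 1)) (z : W V P p q) : f z = g z := by
  have : f = g := by
    apply Finsupp.lhom_ext'
    rintro ⟨c, x⟩
    apply LinearMap.ext_ring
    exact h c x
  rw [this]

/-- chains of the first tuple, the second tuple fixed -/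
def J {q : ℕ} (x : Fin q → P) (p : ℕ) : Ch V p →ₗ[ℤ] W V P p q :=
  Finsupp.lmapDomain ℤ ℤ (fun c => (c, x))

theorem J_single {p q : ℕ} (x : Fin q → P) (c : Fin p → V) (k : ℤ) :
    J x p (single c k) = single (c, x) k := by
  simp [J]

/-- the boundary in the first tuple -/
def dL (p q : ℕ) : W V P (p + 1) q →ₗ[ℤ] W V P p q :=
  Finsupp.linearCombination ℤ (fun s => J s.2 p (D p (single s.1 1)))

theorem dL_J {p q : ℕ} (x : Fin q → P) (z : Ch V (p + 1)) :
    dL p q (J x (p + 1) z) = J x p (D p z) :=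
  ext1 (f := (dL p q).comp (J x (p + 1))) (g := (J x p).comp (D p)) (fun σ => by
    rw [LinearMap.comp_apply, J_single]
    simp [dL]) z

theorem dL_single {p q : ℕ} (c : Fin (p + 1) → V) (x : Fin q → P) :
    dL p q (single (c, x) 1) = ∑ i : Fin (p + 1), single (face i c, x) ((-1 : ℤ) ^ (i : ℕ)) := by
  rw [← J_single, dL_J, D_single, map_sum]
  exact Finset.sum_congr rfl (fun i _ => J_single _ _ _)

theorem dL_dL (p q : ℕ) (z : W V P (p + 2) q) : dL p q (dL (p + 1) q z) = 0 := by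
  refine ext2 (f := (dL p q).comp (dL (p + 1) q)) (g := 0) (fun c x => ?_) z
  rw [LinearMap.comp_apply, ← J_single, dL_J, dL_J, D_D, map_zero, LinearMap.zero_apply]

/-- exchange of the two tuples -/
def sw (p q : ℕ) : W V P p q →ₗ[ℤ] W P V q p := Finsupp.lmapDomain ℤ ℤ Prod.swap

theorem sw_single {p q : ℕ} (c : Fin p → V) (x : Fin q → P) (k : ℤ) :
    sw p q (single (c, x) k) = single (x, c) k := by
  simp [sw]

theorem sw_sw (p q : ℕ) (z : W V P p q) : sw q p (sw p q z) = z :=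
  ext2 (f := (sw q p).comp (sw p q)) (g := LinearMap.id) (fun c x => by
    rw [LinearMap.comp_apply, sw_single, sw_single, LinearMap.id_apply]) z

/-- the boundary in the second tuple -/
def dR (p q : ℕ) : W V P p (q + 1) →ₗ[ℤ] W V P p q :=
  (sw q p).comp ((dL q p).comp (sw p (q + 1)))

theorem dR_apply {p q : ℕ} (z : W V P p (q + 1)) :
    dR p q z = sw q p (dL q p (sw p (q + 1) z)) := rfl

theorem dR_single {p q : ℕ} (c : Fin p → V) (x : Fin (q + 1) → P) :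
    dR p q (single (c, x) 1) = ∑ i : Fin (q + 1), single (c, face i x) ((-1 : ℤ) ^ (i : ℕ)) := by
  rw [dR_apply, sw_single, dL_single, map_sum]
  exact Finset.sum_congr rfl (fun i _ => sw_single _ _ _)

theorem dR_dR (p q : ℕ) (z : W V P p (q + 2)) : dR p q (dR p (q + 1) z) = 0 := by
  rw [dR_apply, dR_apply, sw_sw, dL_dL, map_zero]

theorem single_smul {p q : ℕ} (s : (Fin p → V) × (Fin q → P)) (k : ℤ) :
    (single s k : W V P p q) = k • single s 1 := by
  rw [Finsupp.smul_single, smul_eq_mul, mul_one]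

theorem dL_dR {p q : ℕ} (z : W V P (p + 1) (q + 1)) :
    dL p q (dR (p + 1) q z) = dR p q (dL p (q + 1) z) := by
  refine ext2 (f := (dL p q).comp (dR (p + 1) q)) (g := (dR p q).comp (dL p (q + 1)))
    (fun c x => ?_) z
  rw [LinearMap.comp_apply, LinearMap.comp_apply, dL_single, dR_single, map_sum, map_sum]
  have h1 : ∀ i : Fin (q + 1), dL p q (single (c, face i x) ((-1 : ℤ) ^ (i : ℕ))) =
      ∑ j : Fin (p + 1), single (face j c, face i x) ((-1 : ℤ) ^ (i : ℕ) * (-1) ^ (j : ℕ)) := by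
    intro i
    rw [single_smul, map_smul, dL_single, Finset.smul_sum]
    exact Finset.sum_congr rfl (fun j _ => by rw [Finsupp.smul_single, smul_eq_mul])
  have h2 : ∀ j : Fin (p + 1), dR p q (single (face j c, x) ((-1 : ℤ) ^ (j : ℕ))) =
      ∑ i : Fin (q + 1), single (face j c, face i x) ((-1 : ℤ) ^ (i : ℕ) * (-1) ^ (j : ℕ)) := by
    intro j
    rw [single_smul, map_smul, dR_single, Finset.smul_sum]
    exact Finset.sum_congr rfl (fun i _ => by rw [Finsupp.smul_single, smul_eq_mul, mul_comm])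
  rw [Finset.sum_congr rfl (fun i _ => h1 i), Finset.sum_congr rfl (fun j _ => h2 j),
    Finset.sum_comm]

/-! ### the cone in the first tuple -/

/-- the cone in the first tuple, with an apex depending on the second tuple -/
def cn {q : ℕ} (f : (Fin q → P) → V) (p : ℕ) : W V P p q →ₗ[ℤ] W V P (p + 1) q :=
  Finsupp.lmapDomain ℤ ℤ (fun s => ((Fin.cons (f s.2) s.1 : Fin (p + 1) → V), s.2))

theorem cn_single {p q : ℕ} (f : (Fin q → P) → V) (c : Fin p → V) (x : Fin q → P) (k : ℤ) :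
    cn f p (single (c, x) k) = single ((Fin.cons (f x) c : Fin (p + 1) → V), x) k := by
  simp [cn]

theorem cn_J {p q : ℕ} (f : (Fin q → P) → V) (x : Fin q → P) (z : Ch V p) :
    cn f p (J x p z) = J x (p + 1) (cone (f x) p z) :=
  ext1 (f := (cn f p).comp (J x p)) (g := (J x (p + 1)).comp (cone (f x) p)) (fun σ => by
    rw [LinearMap.comp_apply, LinearMap.comp_apply, J_single, cn_single, cone_single, J_single]) z

theorem dL_cn_zero {q : ℕ} (f : (Fin q → P) → V) (y : W V P 0 q) : dL 0 q (cn f 0 y) = y :=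
  ext2 (f := (dL 0 q).comp (cn f 0)) (g := LinearMap.id) (fun c x => by
    rw [LinearMap.comp_apply, ← J_single, cn_J, dL_J, D_cone_zero, LinearMap.id_apply]) y

theorem dL_cn {p q : ℕ} (f : (Fin q → P) → V) (y : W V P (p + 1) q) :
    dL (p + 1) q (cn f (p + 1) y) = y - cn f p (dL p q y) :=
  ext2 (f := (dL (p + 1) q).comp (cn f (p + 1)))
    (g := LinearMap.id - (cn f p).comp (dL p q)) (fun c x => by
    rw [LinearMap.comp_apply, ← J_single, cn_J, dL_J, D_cone, LinearMap.sub_apply,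
      LinearMap.comp_apply, LinearMap.id_apply, dL_J, cn_J, map_sub]) y

/-! ### the supports -/

/-- the pairs of tuples which are related to each other -/
def Q (R : V → P → Prop) (p q : ℕ) : Set ((Fin p → V) × (Fin q → P)) :=
  {s | (∀ i j, R (s.1 i) (s.2 j)) ∧ (∃ x, ∀ i, R (s.1 i) x) ∧ (∃ c, ∀ j, R c (s.2 j))}

/-- the chains of such pairs -/
abbrev F (R : V → P → Prop) (p q : ℕ) : Submodule ℤ (W V P p q) :=
  Finsupp.supported ℤ ℤ (Q R p q)

variable {R : V → P → Prop}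

theorem sw_mem {p q : ℕ} {z : W V P p q} (hz : z ∈ F R p q) :
    sw p q z ∈ F (fun x c => R c x) q p := by
  refine map_supp (sw p q) ?_ hz
  rintro ⟨c, x⟩ ⟨h1, h2, h3⟩
  rw [sw_single]
  exact single_supp _ ⟨fun i j => h1 j i, h3, h2⟩

theorem dL_mem {p q : ℕ} {z : W V P (p + 1) q} (hz : z ∈ F R (p + 1) q) :
    dL p q z ∈ F R p q := by
  refine map_supp (dL p q) ?_ hz
  rintro ⟨c, x⟩ ⟨h1, ⟨x0, h2⟩, h3⟩
  rw [dL_single]
  exact Submodule.sum_mem _ (fun i _ => single_supp _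
    ⟨fun a b => h1 _ b, ⟨x0, fun a => h2 _⟩, h3⟩)

theorem dR_mem {p q : ℕ} {z : W V P p (q + 1)} (hz : z ∈ F R p (q + 1)) :
    dR p q z ∈ F R p q :=
  sw_mem (R := fun x c => R c x) (dL_mem (sw_mem hz))

open Classical in
/-- an element which is related to all entries of the tuple -/
def apex (R : V → P → Prop) (c0 : V) {q : ℕ} (x : Fin q → P) : V :=
  if h : ∃ c, ∀ j, R c (x j) then h.choose else c0

theorem apex_spec {c0 : V} {q : ℕ} {x : Fin q → P} (h : ∃ c, ∀ j, R c (x j)) (j : Fin q) :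
    R (apex R c0 x) (x j) := by
  unfold apex
  rw [dif_pos h]
  exact h.choose_spec j

theorem cn_mem {c0 : V} {p q : ℕ} {z : W V P p (q + 1)} (hz : z ∈ F R p (q + 1)) :
    cn (apex R c0) p z ∈ F R (p + 1) (q + 1) := by
  refine map_supp (cn (apex R c0) p) ?_ hz
  rintro ⟨c, x⟩ ⟨h1, h2, h3⟩
  rw [cn_single]
  have key : ∀ (i : Fin (p + 1)) (j : Fin (q + 1)),
      R ((Fin.cons (apex R c0 x) c : Fin (p + 1) → V) i) (x j) := by
    intro i j
    refine Fin.cases ?_ (fun i => ?_) i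
    · rw [Fin.cons_zero]
      exact apex_spec h3 j
    · rw [Fin.cons_succ]
      exact h1 i j
  exact single_supp _ ⟨key, ⟨x 0, fun i => key i 0⟩, h3⟩

/-- exactness in the first tuple -/
theorem exL_zero (c0 : V) {q : ℕ} {y : W V P 0 (q + 1)} (hy : y ∈ F R 0 (q + 1)) :
    ∃ w ∈ F R 1 (q + 1), dL 0 (q + 1) w = y :=
  ⟨cn (apex R c0) 0 y, cn_mem hy, dL_cn_zero _ _⟩

theorem exL (c0 : V) {p q : ℕ} {y : W V P (p + 1) (q + 1)} (hy : y ∈ F R (p + 1) (q + 1))
    (h : dL p (q + 1) y = 0) : ∃ w ∈ F R (p + 2) (q + 1), dL (p + 1) (q + 1) w = y :=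
  ⟨cn (apex R c0) (p + 1) y, cn_mem hy, by rw [dL_cn, h, map_zero, sub_zero]⟩

/-- exactness in the second tuple -/
theorem exR_zero (x0 : P) {p : ℕ} {y : W V P (p + 1) 0} (hy : y ∈ F R (p + 1) 0) :
    ∃ w ∈ F R (p + 1) 1, dR (p + 1) 0 w = y := by
  obtain ⟨w, hw, hd⟩ := exL_zero (R := fun x c => R c x) x0 (sw_mem hy)
  refine ⟨sw 1 (p + 1) w, sw_mem (R := fun x c => R c x) hw, ?_⟩
  rw [dR_apply, sw_sw, hd, sw_sw]

theorem exR (x0 : P) {p q : ℕ} {y : W V P (p + 1) (q + 1)} (hy : y ∈ F R (p + 1) (q + 1))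
    (h : dR (p + 1) q y = 0) : ∃ w ∈ F R (p + 1) (q + 2), dR (p + 1) (q + 1) w = y := by
  have h' : dL q (p + 1) (sw (p + 1) (q + 1) y) = 0 := by
    rw [← sw_sw q (p + 1) (dL q (p + 1) (sw (p + 1) (q + 1) y)), ← dR_apply, h, map_zero]
  obtain ⟨w, hw, hd⟩ := exL (R := fun x c => R c x) x0 (sw_mem hy) h'
  refine ⟨sw (q + 2) (p + 1) w, sw_mem (R := fun x c => R c x) hw, ?_⟩
  rw [dR_apply, sw_sw, hd, sw_sw]

/-! ### one empty tuple -/

/-- forget the second tuple -/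
def fst (p q : ℕ) : W V P p q →ₗ[ℤ] Ch V p := Finsupp.lmapDomain ℤ ℤ Prod.fst

theorem fst_single {p q : ℕ} (c : Fin p → V) (x : Fin q → P) (k : ℤ) :
    fst p q (single (c, x) k) = single c k := by
  simp [fst]

theorem fst_J {p q : ℕ} (x : Fin q → P) (z : Ch V p) : fst p q (J x p z) = z :=
  ext1 (f := (fst p q).comp (J x p)) (g := LinearMap.id) (fun σ => by
    rw [LinearMap.comp_apply, J_single, fst_single, LinearMap.id_apply]) z

theorem J_fst {p : ℕ} (x : Fin 0 → P) (z : W V P p 0) : J x p (fst p 0 z) = z :=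
  ext2 (f := (J x p).comp (fst p 0)) (g := LinearMap.id) (fun c x' => by
    rw [LinearMap.comp_apply, fst_single, J_single, LinearMap.id_apply, Subsingleton.elim x x']) z

/-- exactness for the empty first tuple -/
theorem exR_emp (hS : ∀ (q : ℕ) (z : Ch P (q + 1)),
      (∀ σ ∈ z.support, ∃ c, ∀ j, R c (σ j)) → bd q z = 0 →
      ∃ w : Ch P (q + 2), (∀ σ ∈ w.support, ∃ c, ∀ j, R c (σ j)) ∧ bd (q + 1) w = z)
    (x0 : P) {q : ℕ} {y : W V P 0 (q + 1)} (hy : y ∈ F R 0 (q + 1)) (h : dR 0 q y = 0) :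
    ∃ w ∈ F R 0 (q + 2), dR 0 (q + 1) w = y := by
  let c : Fin 0 → V := Fin.elim0
  have h' : dL q 0 (sw 0 (q + 1) y) = 0 := by
    rw [← sw_sw q 0 (dL q 0 (sw 0 (q + 1) y)), ← dR_apply, h, map_zero]
  set z : Ch P (q + 1) := fst (q + 1) 0 (sw 0 (q + 1) y) with hz
  have hJ : J c (q + 1) z = sw 0 (q + 1) y := J_fst _ _
  have hb : bd q z = 0 := by
    rw [bd_eq, ← fst_J c (D q z), ← dL_J, hJ, h', map_zero]
  have hsup : z ∈ Finsupp.supported ℤ ℤ {σ : Fin (q + 1) → P | ∃ c, ∀ j, R c (σ j)} := by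
    refine map_supp (fst (q + 1) 0) ?_ (sw_mem hy)
    rintro ⟨x, c'⟩ ⟨_, h2, _⟩
    rw [fst_single]
    exact single_supp _ h2
  obtain ⟨w, hw, hd⟩ := hS q z (fun σ hσ => hsup hσ) hb
  have hwm : J c (q + 2) w ∈ F (fun x c => R c x) (q + 2) 0 := by
    have hw' : w ∈ Finsupp.supported ℤ ℤ {σ : Fin (q + 2) → P | ∃ c, ∀ j, R c (σ j)} :=
      fun σ hσ => hw σ hσ
    refine map_supp (J c (q + 2)) ?_ hw'
    intro x hx
    rw [J_single]
    exact single_supp _ ⟨fun i j => Fin.elim0 j, hx, ⟨x0, fun j => Fin.elim0 j⟩⟩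
  refine ⟨sw (q + 2) 0 (J c (q + 2) w), sw_mem (R := fun x c => R c x) hwm, ?_⟩
  rw [dR_apply, sw_sw, dL_J, ← bd_eq, hd, hJ, sw_sw]

/-- the kernel of the product of the two boundaries -/
theorem main_aux (hS : ∀ (q : ℕ) (z : Ch P (q + 1)),
      (∀ σ ∈ z.support, ∃ c, ∀ j, R c (σ j)) → bd q z = 0 →
      ∃ w : Ch P (q + 2), (∀ σ ∈ w.support, ∃ c, ∀ j, R c (σ j)) ∧ bd (q + 1) w = z)
    (c0 : V) (x0 : P) (p : ℕ) : ∀ (q : ℕ) (y : W V P (p + 1) (q + 1)), y ∈ F R (p + 1) (q + 1) →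
      dR p q (dL p (q + 1) y) = 0 →
      ∃ w ∈ F R (p + 2) (q + 1), ∃ w' ∈ F R (p + 1) (q + 2),
        y = dL (p + 1) (q + 1) w + dR (p + 1) (q + 1) w' := by
  induction p with
  | zero =>
    intro q y hy h
    obtain ⟨y', hy', hd⟩ := exR_emp hS x0 (dL_mem hy) h
    obtain ⟨w', hw', hd'⟩ := exL_zero c0 hy'
    have h0 : dL 0 (q + 1) (y - dR 1 (q + 1) w') = 0 := by
      rw [map_sub, dL_dR, hd', hd, sub_self]
    obtain ⟨w, hw, hd2⟩ := exL c0 (Submodule.sub_mem _ hy (dR_mem hw')) h0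
    exact ⟨w, hw, w', hw', by rw [hd2]; abel⟩
  | succ p ih =>
    intro q y hy h
    obtain ⟨y', hy', hd⟩ := exR x0 (dL_mem hy) h
    have h1 : dR p (q + 1) (dL p (q + 2) y') = 0 := by
      rw [← dL_dR, hd, dL_dL]
    obtain ⟨w1, hw1, w2, hw2, he⟩ := ih (q + 1) y' hy' h1
    have h0 : dL (p + 1) (q + 1) (y - dR (p + 2) (q + 1) w1) = 0 := by
      rw [map_sub, dL_dR, ← hd, he, map_add, dR_dR, add_zero, sub_self]
    obtain ⟨w, hw, hd2⟩ := exL c0 (Submodule.sub_mem _ hy (dR_mem hw1)) h0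
    exact ⟨w, hw, w1, hw1, by rw [hd2]; abel⟩

theorem dow_proof : DowStatement := by
  intro V P R hA
  obtain ⟨⟨x0, c0, hc0⟩, hS⟩ := hA
  have hR : R c0 x0 := hc0 0
  refine ⟨⟨c0, x0, fun _ => hR⟩, ?_⟩
  intro q z hz hb
  let x : Fin 0 → P := Fin.elim0
  have hsup : z ∈ Finsupp.supported ℤ ℤ {σ : Fin (q + 1) → V | ∃ x, ∀ j, R (σ j) x} :=
    fun σ hσ => hz σ hσ
  have hJ : J x (q + 1) z ∈ F R (q + 1) 0 := by
    refine map_supp (J x (q + 1)) ?_ hsup
    intro c hc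
    rw [J_single]
    exact single_supp _ ⟨fun i j => Fin.elim0 j, hc, ⟨c0, fun j => Fin.elim0 j⟩⟩
  obtain ⟨y, hy, hd⟩ := exR_zero x0 hJ
  have h1 : dR q 0 (dL q 1 y) = 0 := by
    rw [← dL_dR, hd, dL_J, ← bd_eq, hb, map_zero]
  obtain ⟨w, hw, w', hw', he⟩ := main_aux hS c0 x0 q 0 y hy h1
  refine ⟨fst (q + 2) 0 (dR (q + 2) 0 w), ?_, ?_⟩
  · have hm : fst (q + 2) 0 (dR (q + 2) 0 w) ∈
        Finsupp.supported ℤ ℤ {σ : Fin (q + 2) → V | ∃ x, ∀ j, R (σ j) x} := by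
      refine map_supp (fst (q + 2) 0) ?_ (dR_mem hw)
      rintro ⟨c, x'⟩ ⟨_, h2, _⟩
      rw [fst_single]
      exact single_supp _ h2
    exact fun σ hσ => hm hσ
  · have h2 : dL (q + 1) 0 (dR (q + 2) 0 w) = J x (q + 1) z := by
      rw [dL_dR, ← hd, he, map_add, dR_dR, add_zero]
    rw [bd_eq, ← fst_J x (D (q + 1) (fst (q + 2) 0 (dR (q + 2) 0 w))), ← dL_J, J_fst, h2, fst_J]

end

end Pool.Agent.Lib.MP_50bb2e_nt.Anf.Dow
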