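import Pool.Agent.Lib.MP_50bb2e_nt.Anf.Iface

/-!
MP_50bb2e_nt, board ANF, row FFA: the series `ff w b`
-/

namespace Pool.Agent.Lib.MP_50bb2e_nt.Anf.Ffa

open Complex MeasureTheory Filter Topology NumberField IsDedekindDomain
open scoped ComplexConjugate nonZeroDivisors
open Pool.Agent.Lib.MP_50bb2e_nt.Imq (FI)

noncomputable section

variable {K : Type} [Field K] [NumberField K]

/-- continuous and exponentially decaying radial functions -/
structure Rap (g : InfinitePlace K → ℝ → ℝ) (C κ : ℝ) : Prop where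
  C0 : 0 < C
  κ0 : 0 < κ
  cont : ∀ v, Continuous (g v)
  bd : ∀ v t, 0 < t → |g v t| ≤ C * Real.exp (-κ * t)

open Classical in
/-- a term of the series -/
def tm (g : InfinitePlace K → ℝ → ℝ) (b : K → ℂ) (ξ : K) (η : InfinitePlace K → ℝ) : ℂ :=
  if ξ = 0 then 0 else
    (b ξ / (nK ξ : ℂ)) * ∏ v : InfinitePlace K, ((g v (v ξ * Real.exp (η v)) : ℝ) : ℂ)

theorem ff_eq (g : InfinitePlace K → ℝ → ℝ) (b : K → ℂ) :
    ff g b = fun η => ∑' ξ : K, tm g b ξ η := rfl

open Classical in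
/-- the majorant -/
def Mb (B : FI K) (m : ℕ) (κ : ℝ) (ξ : K) : ℝ :=
  if ξ ∈ (B : FractionalIdeal (𝓞 K)⁰ K) then
    nK ξ ^ m * Real.exp (-κ * ∑ v : InfinitePlace K, v ξ) else 0

theorem nK_nonneg (ξ : K) : 0 ≤ nK ξ := abs_nonneg _

theorem Mb_nonneg (B : FI K) (m : ℕ) (κ : ℝ) (ξ : K) : 0 ≤ Mb B m κ ξ := by
  unfold Mb
  split_ifs
  · exact mul_nonneg (pow_nonneg (nK_nonneg ξ) _) (Real.exp_pos _).le
  · exact le_refl _

theorem Mb_summable (hL : LatStatement) (B : FI K) (m : ℕ) {κ : ℝ} (hκ : 0 < κ) :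
    Summable (Mb B m κ) := by
  have h := (hL K B).2.2.2 κ m hκ
  have h2 := (summable_subtype_iff_indicator (f := fun ξ : K => nK ξ ^ m *
    Real.exp (-κ * ∑ v : InfinitePlace K, v ξ))
    (s := {ξ : K | ξ ∈ (B : FractionalIdeal (𝓞 K)⁰ K)})).1 h
  refine h2.congr fun ξ => ?_
  simp only [Mb, Set.indicator]
  rfl

/-- the data of the coefficients -/
structure Dat (b : K → ℂ) (B : FI K) (C₀ : ℝ) (m : ℕ) (ρ : ℝ) : Prop where
  le : ∀ ξ : K, ξ ≠ 0 → ‖b ξ‖ ≤ C₀ * nK ξ ^ m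
  mem : ∀ ξ : K, ξ ≠ 0 → b ξ ≠ 0 → ξ ∈ (B : FractionalIdeal (𝓞 K)⁰ K)
  ρ0 : 0 < ρ
  ρle : ∀ ξ : K, ξ ∈ (B : FractionalIdeal (𝓞 K)⁰ K) → ξ ≠ 0 → ρ ≤ nK ξ

theorem exists_dat (hL : LatStatement) {b : K → ℂ} (hb : Coef b) :
    ∃ (B : FI K) (C₀ : ℝ) (m : ℕ) (ρ : ℝ), Dat b B C₀ m ρ := by
  obtain ⟨B, C, m, h⟩ := hb
  obtain ⟨ρ, hρ, hρ'⟩ := (hL K B).1
  exact ⟨B, C, m, ρ, fun ξ hξ => (h ξ hξ).1, fun ξ hξ => (h ξ hξ).2, hρ, hρ'⟩

/-- the constant -/
def cst (K : Type) [Field K] [NumberField K] (C C₀ ρ : ℝ) : ℝ :=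
  |C₀| / ρ * C ^ (Fintype.card (InfinitePlace K))

theorem tm_le {g : InfinitePlace K → ℝ → ℝ} {C κ : ℝ} (hg : Rap g C κ) {b : K → ℂ} {B : FI K}
    {C₀ : ℝ} {m : ℕ} {ρ : ℝ} (hb : Dat b B C₀ m ρ) (ξ : K) (η : InfinitePlace K → ℝ) (κ' T : ℝ)
    (hS : ξ ≠ 0 → ξ ∈ (B : FractionalIdeal (𝓞 K)⁰ K) →
      κ' * ∑ v : InfinitePlace K, v ξ + T ≤ κ * ∑ v : InfinitePlace K, v ξ * Real.exp (η v)) :
    ‖tm g b ξ η‖ ≤ cst K C C₀ ρ * Mb B m κ' ξ * Real.exp (-T) := by
  have hρ := hb.ρ0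
  have hC := hg.C0
  have hc : 0 ≤ cst K C C₀ ρ := by unfold cst; positivity
  have h0 : 0 ≤ cst K C C₀ ρ * Mb B m κ' ξ * Real.exp (-T) :=
    mul_nonneg (mul_nonneg hc (Mb_nonneg _ _ _ _)) (Real.exp_pos _).le
  unfold tm
  by_cases hξ : ξ = 0
  · rw [if_pos hξ, norm_zero]
    exact h0
  rw [if_neg hξ]
  by_cases hbξ : b ξ = 0
  · rw [hbξ, zero_div, zero_mul, norm_zero]
    exact h0
  have hB := hb.mem ξ hξ hbξ
  have hn := hb.ρle ξ hB hξ
  have hn0 : 0 < nK ξ := hρ.trans_le hn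
  rw [norm_mul, norm_div, Complex.norm_real, Real.norm_eq_abs, abs_of_pos hn0, norm_prod]
  have h1 : ‖b ξ‖ / nK ξ ≤ |C₀| / ρ * nK ξ ^ m := by
    rw [div_le_iff₀ hn0]
    have h2 : ‖b ξ‖ ≤ |C₀| * nK ξ ^ m := (hb.le ξ hξ).trans
      (mul_le_mul_of_nonneg_right (le_abs_self _) (pow_nonneg hn0.le _))
    have h3 : (1 : ℝ) ≤ nK ξ / ρ := by rwa [one_le_div hρ]
    calc ‖b ξ‖ ≤ |C₀| * nK ξ ^ m * 1 := by rw [mul_one]; exact h2
      _ ≤ |C₀| * nK ξ ^ m * (nK ξ / ρ) := mul_le_mul_of_nonneg_left h3 (by positivity)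
      _ = |C₀| / ρ * nK ξ ^ m * nK ξ := by ring
  have h2 : ∏ v : InfinitePlace K, ‖((g v (v ξ * Real.exp (η v)) : ℝ) : ℂ)‖ ≤
      C ^ (Fintype.card (InfinitePlace K)) *
        (Real.exp (-κ' * ∑ v : InfinitePlace K, v ξ) * Real.exp (-T)) := by
    have h3 : ∏ v : InfinitePlace K, ‖((g v (v ξ * Real.exp (η v)) : ℝ) : ℂ)‖ ≤
        ∏ v : InfinitePlace K, (C * Real.exp (-κ * (v ξ * Real.exp (η v)))) := by
      refine Finset.prod_le_prod (fun v _ => norm_nonneg _) fun v _ => ?_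
      rw [Complex.norm_real, Real.norm_eq_abs]
      exact hg.bd v _ (mul_pos (v.pos_iff.2 hξ) (Real.exp_pos _))
    refine h3.trans ?_
    rw [Finset.prod_mul_distrib, Finset.prod_const, ← Real.exp_sum, Finset.card_univ,
      ← Real.exp_add]
    refine mul_le_mul_of_nonneg_left (Real.exp_le_exp.2 ?_) (by positivity)
    rw [← Finset.mul_sum]
    have h4 := hS hξ hB
    linarith
  have h3 : Mb B m κ' ξ = nK ξ ^ m * Real.exp (-κ' * ∑ v : InfinitePlace K, v ξ) := by
    unfold Mb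
    rw [if_pos hB]
  calc ‖b ξ‖ / nK ξ * ∏ v : InfinitePlace K, ‖((g v (v ξ * Real.exp (η v)) : ℝ) : ℂ)‖
      ≤ (|C₀| / ρ * nK ξ ^ m) * (C ^ (Fintype.card (InfinitePlace K)) *
        (Real.exp (-κ' * ∑ v : InfinitePlace K, v ξ) * Real.exp (-T))) :=
        mul_le_mul h1 h2 (Finset.prod_nonneg fun v _ => norm_nonneg _) (by positivity)
    _ = cst K C C₀ ρ * Mb B m κ' ξ * Real.exp (-T) := by
        rw [h3, cst]
        ring

theorem tm_le_box {g : InfinitePlace K → ℝ → ℝ} {C κ : ℝ} (hg : Rap g C κ) {b : K → ℂ} {B : FI K}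
    {C₀ : ℝ} {m : ℕ} {ρ : ℝ} (hb : Dat b B C₀ m ρ) (ξ : K) (η : InfinitePlace K → ℝ) (R : ℝ)
    (hη : ∀ v, -R ≤ η v) :
    ‖tm g b ξ η‖ ≤ cst K C C₀ ρ * Mb B m (κ * Real.exp (-R)) ξ := by
  have h := tm_le hg hb ξ η (κ * Real.exp (-R)) 0 (fun _ _ => by
    rw [add_zero, mul_assoc, Finset.mul_sum]
    refine mul_le_mul_of_nonneg_left (Finset.sum_le_sum fun v _ => ?_) hg.κ0.le
    rw [mul_comm]
    exact mul_le_mul_of_nonneg_left (Real.exp_le_exp.2 (hη v)) (apply_nonneg _ _))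
  rwa [neg_zero, Real.exp_zero, mul_one] at h

theorem tm_cont {g : InfinitePlace K → ℝ → ℝ} {C κ : ℝ} (hg : Rap g C κ) (b : K → ℂ) (ξ : K) :
    Continuous (tm g b ξ) := by
  unfold tm
  by_cases hξ : ξ = 0
  · simp only [if_pos hξ]
    exact continuous_const
  · simp only [if_neg hξ]
    refine continuous_const.mul (continuous_finsetProd _ fun v _ => ?_)
    refine Complex.continuous_ofReal.comp ((hg.cont v).comp ?_)
    exact continuous_const.mul (Real.continuous_exp.comp (continuous_apply v))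

theorem ff_cont (hL : LatStatement) {g : InfinitePlace K → ℝ → ℝ} {C κ : ℝ} (hg : Rap g C κ)
    {b : K → ℂ} (hb : Coef b) : Continuous (ff g b) := by
  obtain ⟨B, C₀, m, ρ, hd⟩ := exists_dat hL hb
  rw [continuous_iff_continuousAt]
  intro η₀
  obtain ⟨R, hR⟩ : ∃ R, R = 1 + ∑ v, |η₀ v| := ⟨_, rfl⟩
  have h1 : ContinuousOn (ff g b) (Metric.ball η₀ 1) := by
    rw [ff_eq]
    refine continuousOn_tsum (u := fun ξ => cst K C C₀ ρ * Mb B m (κ * Real.exp (-R)) ξ)
      (fun ξ => (tm_cont hg b ξ).continuousOn) ?_ ?_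
    · exact (Mb_summable hL B m (mul_pos hg.κ0 (Real.exp_pos _))).mul_left _
    · intro ξ η hη
      refine tm_le_box hg hd ξ η R fun v => ?_
      have h2 : dist (η v) (η₀ v) < 1 := (dist_le_pi_dist η η₀ v).trans_lt hη
      rw [Real.dist_eq, abs_lt] at h2
      have h3 : |η₀ v| ≤ ∑ v, |η₀ v| :=
        Finset.single_le_sum (f := fun v => |η₀ v|) (fun v _ => abs_nonneg _) (Finset.mem_univ v)
      have h4 := neg_abs_le (η₀ v)
      linarith [h2.1]
  exact h1.continuousAt (Metric.ball_mem_nhds η₀ one_pos)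

/-- decay -/
theorem ff_decay (hL : LatStatement) {g : InfinitePlace K → ℝ → ℝ} {C κ : ℝ} (hg : Rap g C κ)
    {b : K → ℂ} (hb : Coef b) (v0 : InfinitePlace K) (R : ℝ) :
    ∃ C' κ' : ℝ, 0 < C' ∧ 0 < κ' ∧ ∀ η : InfinitePlace K → ℝ, (∀ v, v ≠ v0 → |η v| ≤ R) →
      0 ≤ η v0 → ‖ff g b η‖ ≤ C' * Real.exp (-κ' * Real.exp (κ' * η v0)) := by
  classical
  obtain ⟨B, C₀, m, ρ, hd⟩ := exists_dat hL hb
  have hN := (hL K B).2.1
  have hρ := hd.ρ0
  have hκ := hg.κ0
  obtain ⟨R', hR'⟩ : ∃ R', R' = |R| := ⟨_, rfl⟩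
  have hR0 : 0 ≤ R' := by rw [hR']; exact abs_nonneg _
  obtain ⟨d, hdd⟩ : ∃ d : ℕ, d = ∑ v : InfinitePlace K, v.mult := ⟨_, rfl⟩
  have hd1 : 1 ≤ d := by
    rw [hdd]
    have h1 : v0.mult ≤ ∑ v : InfinitePlace K, v.mult :=
      Finset.single_le_sum (f := fun v : InfinitePlace K => v.mult) (fun v _ => Nat.zero_le _)
        (Finset.mem_univ v0)
    exact (Nat.one_le_iff_ne_zero.2 InfinitePlace.mult_ne_zero).trans h1
  have hd0 : (0 : ℝ) < d := by exact_mod_cast (show 0 < d by omega)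
  obtain ⟨c, hc⟩ : ∃ c, c = Real.exp ((Real.log ρ - R' * d) / d) := ⟨_, rfl⟩
  have hc0 : 0 < c := by rw [hc]; exact Real.exp_pos _
  obtain ⟨s, hs⟩ : ∃ s, s = ∑' ξ, Mb B m (κ / 2 * Real.exp (-R')) ξ := ⟨_, rfl⟩
  have hs0 : 0 ≤ s := by rw [hs]; exact tsum_nonneg fun ξ => Mb_nonneg _ _ _ _
  have hcs : 0 ≤ cst K C C₀ ρ := by
    have := hg.C0
    unfold cst
    positivity
  obtain ⟨κ', hκ'⟩ : ∃ κ', κ' = min (κ / 2 * c) (1 / d) := ⟨_, rfl⟩
  have hκ'0 : 0 < κ' := by rw [hκ']; exact lt_min (by positivity) (by positivity)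
  refine ⟨cst K C C₀ ρ * s + 1, κ', by positivity, hκ'0, ?_⟩
  intro η hη hη0
  have hηR : ∀ v, -R' ≤ η v := by
    intro v
    by_cases h : v = v0
    · rw [h]
      linarith
    · have h1 := hη v h
      have h2 := neg_abs_le (η v)
      have h3 : R ≤ R' := by rw [hR']; exact le_abs_self _
      linarith
  have hS : ∀ ξ : K, ξ ≠ 0 → ξ ∈ (B : FractionalIdeal (𝓞 K)⁰ K) →
      (κ / 2 * Real.exp (-R')) * ∑ v : InfinitePlace K, v ξ +
        κ / 2 * (c * Real.exp (η v0 / d)) ≤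
        κ * ∑ v : InfinitePlace K, v ξ * Real.exp (η v) := by
    intro ξ hξ hξB
    obtain ⟨S, hSS⟩ : ∃ S, S = ∑ v : InfinitePlace K, v ξ * Real.exp (η v) := ⟨_, rfl⟩
    rw [← hSS]
    have h1 : Real.exp (-R') * ∑ v : InfinitePlace K, v ξ ≤ S := by
      rw [hSS, Finset.mul_sum]
      refine Finset.sum_le_sum fun v _ => ?_
      rw [mul_comm]
      exact mul_le_mul_of_nonneg_left (Real.exp_le_exp.2 (hηR v)) (apply_nonneg _ _)
    have hv : ∀ v : InfinitePlace K, v ξ * Real.exp (η v) ≤ S := fun v => by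
      rw [hSS]
      exact Finset.single_le_sum (f := fun v : InfinitePlace K => v ξ * Real.exp (η v))
        (fun v _ => mul_nonneg (apply_nonneg _ _) (Real.exp_pos _).le) (Finset.mem_univ v)
    have hS0 : 0 ≤ S := by
      rw [hSS]
      exact Finset.sum_nonneg fun v _ => mul_nonneg (apply_nonneg _ _) (Real.exp_pos _).le
    have h2 : c * Real.exp (η v0 / d) ≤ S := by
      refine le_of_pow_le_pow_left₀ (n := d) (by omega) hS0 ?_
      have h3 : (c * Real.exp (η v0 / d)) ^ d = ρ * Real.exp (η v0 - R' * d) := by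
        rw [hc, ← Real.exp_add, ← Real.exp_nat_mul]
        have h4 : (d : ℝ) * ((Real.log ρ - R' * d) / d + η v0 / d) =
            Real.log ρ + (η v0 - R' * d) := by
          field_simp
          ring
        rw [h4, Real.exp_add, Real.exp_log hρ]
      have h5 : ρ * Real.exp (η v0 - R' * d) ≤
          nK ξ * Real.exp (∑ v : InfinitePlace K, (v.mult : ℝ) * η v) := by
        refine mul_le_mul (hd.ρle ξ hξB hξ) (Real.exp_le_exp.2 ?_) (Real.exp_pos _).le
          (nK_nonneg ξ)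
        have h6 : ∀ v : InfinitePlace K, (if v = v0 then η v0 else 0) - R' * (v.mult : ℝ) ≤
            (v.mult : ℝ) * η v := by
          intro v
          have h7 : (1 : ℝ) ≤ v.mult := InfinitePlace.one_le_mult
          have h8 := hηR v
          split_ifs with h
          · subst h
            nlinarith
          · nlinarith
        calc η v0 - R' * d = ∑ v : InfinitePlace K,
              ((if v = v0 then η v0 else 0) - R' * (v.mult : ℝ)) := by
              rw [Finset.sum_sub_distrib, Finset.sum_ite_eq' Finset.univ v0 (fun _ => η v0),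
                if_pos (Finset.mem_univ v0), ← Finset.mul_sum, hdd]
              push_cast
              rfl
          _ ≤ _ := Finset.sum_le_sum fun v _ => h6 v
      have h6 : nK ξ * Real.exp (∑ v : InfinitePlace K, (v.mult : ℝ) * η v) =
          ∏ v : InfinitePlace K, (v ξ * Real.exp (η v)) ^ v.mult := by
        rw [hN, Real.exp_sum, ← Finset.prod_mul_distrib]
        refine Finset.prod_congr rfl fun v _ => ?_
        rw [mul_pow, ← Real.exp_nat_mul]
      have h7 : ∏ v : InfinitePlace K, (v ξ * Real.exp (η v)) ^ v.mult ≤ S ^ d := by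
        rw [hdd, ← Finset.prod_pow_eq_pow_sum]
        refine Finset.prod_le_prod (fun v _ => pow_nonneg
          (mul_nonneg (apply_nonneg _ _) (Real.exp_pos _).le) _) fun v _ => ?_
        exact pow_le_pow_left₀ (mul_nonneg (apply_nonneg _ _) (Real.exp_pos _).le) (hv v) _
      rw [h3]
      exact h5.trans (h6.le.trans h7)
    have h3 : κ / 2 * (Real.exp (-R') * ∑ v : InfinitePlace K, v ξ) ≤ κ / 2 * S :=
      mul_le_mul_of_nonneg_left h1 (by linarith)
    have h4 : κ / 2 * (c * Real.exp (η v0 / d)) ≤ κ / 2 * S :=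
      mul_le_mul_of_nonneg_left h2 (by linarith)
    rw [mul_assoc]
    linarith
  have h1 : ‖ff g b η‖ ≤ cst K C C₀ ρ * s * Real.exp (-(κ / 2 * (c * Real.exp (η v0 / d)))) := by
    rw [ff_eq]
    refine tsum_of_norm_bounded (g := fun ξ => cst K C C₀ ρ *
      Mb B m (κ / 2 * Real.exp (-R')) ξ * Real.exp (-(κ / 2 * (c * Real.exp (η v0 / d))))) ?_ ?_
    · rw [hs]
      exact (((Mb_summable hL B m (by positivity)).hasSum).mul_left _).mul_right _
    · intro ξ
      exact tm_le hg hd ξ η _ _ (hS ξ)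
  have h2 : κ' * Real.exp (κ' * η v0) ≤ κ / 2 * (c * Real.exp (η v0 / d)) := by
    rw [← mul_assoc]
    refine mul_le_mul (by rw [hκ']; exact min_le_left _ _) (Real.exp_le_exp.2 ?_)
      (Real.exp_pos _).le (by positivity)
    rw [div_eq_inv_mul, ← one_div]
    exact mul_le_mul_of_nonneg_right (by rw [hκ']; exact min_le_right _ _) hη0
  refine h1.trans ?_
  refine mul_le_mul (by linarith) (Real.exp_le_exp.2 ?_) (Real.exp_pos _).le (by positivity)
  linarith

/-! ### The integral over a box -/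

theorem sg_int (a b : ℝ) (h : ℝ → ℝ) : ∫ t, sg a b t * h t = ∫ t in a..b, h t := by
  rcases le_total a b with hab | hab
  · rw [intervalIntegral.integral_of_le hab, ← integral_indicator measurableSet_Ioc]
    refine integral_congr_ae (Eventually.of_forall fun t => ?_)
    simp only [sg, Set.indicator, Set.mem_Ioc]
    by_cases h1 : t ≤ a
    · have h2 : t ≤ b := h1.trans hab
      rw [if_pos h1, if_pos h2, if_neg (fun h3 => absurd h3.1 (not_lt.2 h1))]
      ring
    · by_cases h2 : t ≤ b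
      · rw [if_neg h1, if_pos h2, if_pos ⟨not_le.1 h1, h2⟩]
        ring
      · rw [if_neg h1, if_neg h2, if_neg (fun h3 => h2 h3.2)]
        ring
  · rw [intervalIntegral.integral_of_ge hab, ← integral_indicator measurableSet_Ioc,
      ← integral_neg]
    refine integral_congr_ae (Eventually.of_forall fun t => ?_)
    simp only [sg, Set.indicator, Set.mem_Ioc]
    by_cases h1 : t ≤ b
    · have h2 : t ≤ a := h1.trans hab
      rw [if_pos h1, if_pos h2, if_neg (fun h3 => absurd h3.1 (not_lt.2 h1))]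
      ring
    · by_cases h2 : t ≤ a
      · rw [if_neg h1, if_pos h2, if_pos ⟨not_le.1 h1, h2⟩]
        ring
      · rw [if_neg h1, if_neg h2, if_neg (fun h3 => h2 h3.2)]
        ring

theorem sg_rad {w : ℝ → ℝ} {f : ℝ → ℝ} (hw : Continuous w)
    (hd : ∀ t, 0 < t → HasDerivAt f (w t / t) t) (x : ℝ) (hx : 0 < x) (a b : ℝ) :
    ∫ t, sg a b t * w (x * Real.exp t) = f (x * Real.exp b) - f (x * Real.exp a) := by
  rw [sg_int a b (fun t => w (x * Real.exp t))]
  refine intervalIntegral.integral_eq_sub_of_hasDerivAt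
    (f := fun t => f (x * Real.exp t)) (fun t _ => ?_) ?_
  · have h1 : 0 < x * Real.exp t := mul_pos hx (Real.exp_pos _)
    have h2 := (hd _ h1).comp t ((Real.hasDerivAt_exp t).const_mul x)
    have h3 : w (x * Real.exp t) / (x * Real.exp t) * (x * Real.exp t) = w (x * Real.exp t) :=
      div_mul_cancel₀ _ h1.ne'
    rw [h3] at h2
    exact h2
  · exact (hw.comp (continuous_const.mul Real.continuous_exp)).intervalIntegrable _ _

theorem sg_meas (a b : ℝ) : Measurable (sg a b) := by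
  unfold sg
  exact (Measurable.ite measurableSet_Iic measurable_const measurable_const).sub
    (Measurable.ite measurableSet_Iic measurable_const measurable_const)

theorem sg_abs_le (a b t : ℝ) : |sg a b t| ≤
    Set.indicator (Set.Icc (-(|a| + |b|)) (|a| + |b|)) (fun _ => (1 : ℝ)) t := by
  simp only [sg, Set.indicator, Set.mem_Icc]
  have ha := abs_le.1 (le_refl |a|)
  have hb := abs_le.1 (le_refl |b|)
  have ha0 := abs_nonneg a
  have hb0 := abs_nonneg b
  by_cases h1 : t ≤ a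
  · by_cases h2 : t ≤ b
    · rw [if_pos h1, if_pos h2]
      split_ifs <;> norm_num
    · rw [if_pos h1, if_neg h2, if_pos ⟨by linarith [not_le.1 h2], by linarith⟩]
      norm_num
  · by_cases h2 : t ≤ b
    · rw [if_neg h1, if_pos h2, if_pos ⟨by linarith [not_le.1 h1], by linarith⟩]
      norm_num
    · rw [if_neg h1, if_neg h2]
      split_ifs <;> norm_num

theorem countable_K (K : Type) [Field K] [NumberField K] : Countable K :=
  (Module.finBasis ℚ K).equivFun.toEquiv.countable_iff.2 inferInstance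

open Classical in
/-- integral of one term -/
theorem tm_int {g f : InfinitePlace K → ℝ → ℝ} {C κ : ℝ} (hg : Rap g C κ)
    (hd : ∀ v t, 0 < t → HasDerivAt (f v) (g v t / t) t) (b : K → ℂ) (ξ : K)
    (α β : InfinitePlace K → ℝ) :
    ∫ η : InfinitePlace K → ℝ, ((∏ v, sg (α v) (β v) (η v) : ℝ) : ℂ) * tm g b ξ η =
      if ξ = 0 then 0 else (b ξ / (nK ξ : ℂ)) * ∏ v : InfinitePlace K,
        ((f v (v ξ * Real.exp (β v)) - f v (v ξ * Real.exp (α v)) : ℝ) : ℂ) := by
  by_cases hξ : ξ = 0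
  · simp only [tm, if_pos hξ, mul_zero, integral_zero]
  · simp only [tm, if_neg hξ]
    have h1 : ∀ η : InfinitePlace K → ℝ, ((∏ v, sg (α v) (β v) (η v) : ℝ) : ℂ) *
        ((b ξ / (nK ξ : ℂ)) * ∏ v : InfinitePlace K, ((g v (v ξ * Real.exp (η v)) : ℝ) : ℂ)) =
        (b ξ / (nK ξ : ℂ)) *
          ((∏ v : InfinitePlace K, (sg (α v) (β v) (η v) * g v (v ξ * Real.exp (η v))) : ℝ) : ℂ) := by
      intro η
      rw [Finset.prod_mul_distrib]
      push_cast
      ring
    simp only [h1]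
    rw [integral_const_mul, integral_complex_ofReal,
      integral_fintype_prod_volume_eq_prod (𝕜 := ℝ)
        (fun (v : InfinitePlace K) (t : ℝ) => sg (α v) (β v) t * g v (v ξ * Real.exp t))]
    have h2 : ∀ v : InfinitePlace K, ∫ t, sg (α v) (β v) t * g v (v ξ * Real.exp t) =
        f v (v ξ * Real.exp (β v)) - f v (v ξ * Real.exp (α v)) := fun v =>
      sg_rad (hg.cont v) (hd v) (v ξ) (v.pos_iff.2 hξ) _ _
    rw [Finset.prod_congr rfl fun v _ => h2 v]
    push_cast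
    rfl

/-- expansion of the product -/
theorem prod_expand {ι : Type} [Fintype ι] [DecidableEq ι] (p q : ι → ℂ) :
    ∏ v, (p v - q v) = ∑ J : Finset ι, (-1 : ℂ) ^ (Fintype.card ι - J.card) *
      ∏ v, (if v ∈ J then p v else q v) := by
  have h1 : ∏ v, (p v - q v) = ∏ v, (p v + (-q v)) :=
    Finset.prod_congr rfl fun v _ => sub_eq_add_neg _ _
  rw [h1, Finset.prod_add, Finset.powerset_univ]
  refine Finset.sum_congr rfl fun J _ => ?_
  rw [Finset.prod_neg, Finset.card_sdiff_of_subset (Finset.subset_univ J), Finset.card_univ]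
  have h2 : ∏ v, (if v ∈ J then p v else q v) = (∏ v ∈ J, p v) * ∏ v ∈ Finset.univ \ J, q v := by
    rw [Finset.prod_ite]
    congr 1
    · refine Finset.prod_congr ?_ fun _ _ => rfl
      ext v
      simp
    · refine Finset.prod_congr ?_ fun _ _ => rfl
      ext v
      simp
  rw [h2]
  ring

theorem tm_summable (hL : LatStatement) {g : InfinitePlace K → ℝ → ℝ} {C κ : ℝ} (hg : Rap g C κ)
    {b : K → ℂ} (hb : Coef b) (η : InfinitePlace K → ℝ) : Summable (fun ξ => tm g b ξ η) := by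
  obtain ⟨B, C₀, m, ρ, hd⟩ := exists_dat hL hb
  obtain ⟨R, hR⟩ : ∃ R, R = ∑ v, |η v| := ⟨_, rfl⟩
  refine Summable.of_norm_bounded
    (((Mb_summable hL B m (mul_pos hg.κ0 (Real.exp_pos (-R)))).mul_left (cst K C C₀ ρ)))
    fun ξ => tm_le_box hg hd ξ η R fun v => ?_
  have h3 : |η v| ≤ ∑ v, |η v| :=
    Finset.single_le_sum (f := fun v => |η v|) (fun v _ => abs_nonneg _) (Finset.mem_univ v)
  have h4 := neg_abs_le (η v)
  linarith

/-- the box integral -/
theorem ff_box (hL : LatStatement) {g f : InfinitePlace K → ℝ → ℝ} {C κ C' κ' : ℝ}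
    (hg : Rap g C κ) (hf : Rap f C' κ')
    (hd : ∀ v t, 0 < t → HasDerivAt (f v) (g v t / t) t) {b : K → ℂ} (hb : Coef b)
    [DecidableEq (InfinitePlace K)] (α β : InfinitePlace K → ℝ) :
    ∫ η : InfinitePlace K → ℝ, ((∏ v, sg (α v) (β v) (η v) : ℝ) : ℂ) * ff g b η =
      ∑ J : Finset (InfinitePlace K), (-1 : ℂ) ^ (Fintype.card (InfinitePlace K) - J.card) *
        ff f b (fun v => if v ∈ J then β v else α v) := by
  obtain ⟨B, C₀, m, ρ, hda⟩ := exists_dat hL hb
  have hcs : 0 ≤ cst K C C₀ ρ := by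
    have := hg.C0
    have := hda.ρ0
    unfold cst
    positivity
  have := countable_K K
  obtain ⟨R, hR⟩ : ∃ R, R = ∑ v, (|α v| + |β v|) := ⟨_, rfl⟩
  have hR1 : ∀ v, |α v| + |β v| ≤ R := fun v => by
    rw [hR]
    exact Finset.single_le_sum (f := fun v => |α v| + |β v|) (fun v _ => by positivity)
      (Finset.mem_univ v)
  -- the majorant of the signed box
  obtain ⟨χ, hχ⟩ : ∃ χ : (InfinitePlace K → ℝ) → ℝ, χ = fun η => ∏ v : InfinitePlace K,
    Set.indicator (Set.Icc (-(|α v| + |β v|)) (|α v| + |β v|)) (fun _ => (1 : ℝ)) (η v) := ⟨_, rfl⟩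
  have hχ0 : ∀ η, 0 ≤ χ η := fun η => by
    rw [hχ]
    exact Finset.prod_nonneg fun v _ => Set.indicator_nonneg (fun _ _ => zero_le_one) _
  have hχi : Integrable χ := by
    rw [hχ]
    refine Integrable.fintype_prod (fun v => ?_)
    exact (integrable_indicator_iff measurableSet_Icc).2 (integrableOn_const
      (by simp) )
  have hsg : ∀ η : InfinitePlace K → ℝ, ‖((∏ v, sg (α v) (β v) (η v) : ℝ) : ℂ)‖ ≤ χ η := fun η => by
    rw [Complex.norm_real, Real.norm_eq_abs, Finset.abs_prod, hχ]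
    exact Finset.prod_le_prod (fun v _ => abs_nonneg _) fun v _ => sg_abs_le _ _ _
  have hsg0 : ∀ η : InfinitePlace K → ℝ, (∃ v, η v < -R) →
      ((∏ v, sg (α v) (β v) (η v) : ℝ) : ℂ) = 0 := by
    rintro η ⟨v, hv⟩
    have h1 := hsg η
    have h2 : χ η = 0 := by
      rw [hχ]
      refine Finset.prod_eq_zero (Finset.mem_univ v) ?_
      rw [Set.indicator_of_notMem]
      intro h3
      have := h3.1
      linarith [hR1 v]
    rw [h2] at h1
    exact norm_le_zero_iff.1 h1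
  have key := hasSum_integral_of_dominated_convergence
    (μ := (volume : Measure (InfinitePlace K → ℝ)))
    (F := fun (ξ : K) (η : InfinitePlace K → ℝ) =>
      ((∏ v, sg (α v) (β v) (η v) : ℝ) : ℂ) * tm g b ξ η)
    (f := fun η => ((∏ v, sg (α v) (β v) (η v) : ℝ) : ℂ) * ff g b η)
    (fun ξ η => χ η * (cst K C C₀ ρ * Mb B m (κ * Real.exp (-R)) ξ))
    (fun ξ => by
      refine (Measurable.aestronglyMeasurable ?_).mul (tm_cont hg b ξ).aestronglyMeasurable
      refine Complex.measurable_ofReal.comp (Finset.measurable_prod _ fun v _ => ?_)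
      exact (sg_meas _ _).comp (measurable_pi_apply v))
    (fun ξ => Eventually.of_forall fun η => by
      by_cases h : ∃ v, η v < -R
      · rw [hsg0 η h, zero_mul, norm_zero]
        exact mul_nonneg (hχ0 η) (mul_nonneg hcs (Mb_nonneg _ _ _ _))
      · push Not at h
        rw [norm_mul]
        exact mul_le_mul (hsg η) (tm_le_box hg hda ξ η R h) (norm_nonneg _) (hχ0 η))
    (Eventually.of_forall fun η =>
      ((Mb_summable hL B m (mul_pos hg.κ0 (Real.exp_pos (-R)))).mul_left _).mul_left _)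
    (by
      simp only [tsum_mul_left]
      exact hχi.mul_const _)
    (Eventually.of_forall fun η => by
      rw [ff_eq]
      exact ((tm_summable hL hg hb η).hasSum).mul_left _)
  rw [← key.tsum_eq]
  simp only [tm_int hg hd b]
  have h1 : ∀ J : Finset (InfinitePlace K),
      (-1 : ℂ) ^ (Fintype.card (InfinitePlace K) - J.card) *
        ff f b (fun v => if v ∈ J then β v else α v) =
      ∑' ξ : K, (-1 : ℂ) ^ (Fintype.card (InfinitePlace K) - J.card) *
        tm f b ξ (fun v => if v ∈ J then β v else α v) := fun J => by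
    rw [ff_eq, tsum_mul_left]
  rw [Finset.sum_congr rfl fun J _ => h1 J, ← Summable.tsum_finsetSum
    (fun J _ => (tm_summable hL hf hb _).mul_left _)]
  refine tsum_congr fun ξ => ?_
  by_cases hξ : ξ = 0
  · simp [tm, hξ]
  · rw [if_neg hξ]
    have h2 : ∏ v : InfinitePlace K,
        ((f v (v ξ * Real.exp (β v)) - f v (v ξ * Real.exp (α v)) : ℝ) : ℂ) =
        ∏ v : InfinitePlace K, (((f v (v ξ * Real.exp (β v)) : ℝ) : ℂ) -
          ((f v (v ξ * Real.exp (α v)) : ℝ) : ℂ)) := by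
      refine Finset.prod_congr rfl fun v _ => ?_
      push_cast
      rfl
    rw [h2, prod_expand, Finset.mul_sum]
    refine Finset.sum_congr rfl fun J _ => ?_
    unfold tm
    rw [if_neg hξ]
    have h3 : ∏ v : InfinitePlace K, (if v ∈ J then ((f v (v ξ * Real.exp (β v)) : ℝ) : ℂ) else
        ((f v (v ξ * Real.exp (α v)) : ℝ) : ℂ)) =
        ∏ v : InfinitePlace K, ((f v (v ξ * Real.exp (if v ∈ J then β v else α v)) : ℝ) : ℂ) := by
      refine Finset.prod_congr rfl fun v _ => ?_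
      split_ifs <;> rfl
    rw [h3]
    ring

/-! ### The radial functions -/

theorem unif {ι : Type} [Fintype ι] [Nonempty ι] (C κ : ι → ℝ) (hC : ∀ i, 0 < C i)
    (hκ : ∀ i, 0 < κ i) : ∃ C' κ' : ℝ, 0 < C' ∧ 0 < κ' ∧ ∀ i, C i ≤ C' ∧ κ' ≤ κ i := by
  have h1 : 0 < ∑ i, C i := Finset.sum_pos (fun i _ => hC i) Finset.univ_nonempty
  have h2 : 0 < ∑ i, 1 / κ i :=
    Finset.sum_pos (fun i _ => one_div_pos.2 (hκ i)) Finset.univ_nonempty
  refine ⟨∑ i, C i, 1 / ∑ i, 1 / κ i, h1, one_div_pos.2 h2, fun i => ⟨?_, ?_⟩⟩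
  · exact Finset.single_le_sum (f := C) (fun i _ => (hC i).le) (Finset.mem_univ i)
  · have h3 : 1 / κ i ≤ ∑ i, 1 / κ i :=
      Finset.single_le_sum (f := fun i => 1 / κ i) (fun i _ => (one_div_pos.2 (hκ i)).le)
        (Finset.mem_univ i)
    have h4 := one_div_le_one_div_of_le (one_div_pos.2 (hκ i)) h3
    rwa [one_div_one_div] at h4

theorem rap_rad (hK : KerStatement) {w : InfinitePlace K → ℝ → ℝ} (hw : KerP w) :
    ∃ C κ : ℝ, Rap (rad (K := K)) C κ ∧ Rap w C κ := by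
  have h1 : ∀ v : InfinitePlace K, ∃ C κ : ℝ, 0 < C ∧ 0 < κ ∧ ∀ t, 0 < t →
      rad v t ≤ C * Real.exp (-κ * t) ∧ |w v t| ≤ C * t * Real.exp (-κ * t) :=
    fun v => (hw v).2.2.1
  choose C κ hC hκ hb using h1
  obtain ⟨C', κ', hC', hκ', hu⟩ := unif C κ hC hκ
  have hmono : ∀ v t, 0 < t → C v * Real.exp (-κ v * t) ≤ C' * Real.exp (-κ' * t) := by
    intro v t ht
    refine mul_le_mul (hu v).1 (Real.exp_le_exp.2 ?_) (Real.exp_pos _).le hC'.le
    nlinarith [mul_le_mul_of_nonneg_right (hu v).2 ht.le]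
  have hk := (hK K).1
  refine ⟨C' + C' * (2 / κ'), κ' / 2, ⟨by positivity, by positivity, fun v => (hk v).1, ?_⟩,
    ⟨by positivity, by positivity, fun v => (hw v).1, ?_⟩⟩
  · intro v t ht
    rw [abs_of_nonneg ((hk v).2.2 t ht.le).1]
    refine ((hb v t ht).1.trans (hmono v t ht)).trans ?_
    refine mul_le_mul ?_ (Real.exp_le_exp.2 ?_) (Real.exp_pos _).le (by positivity)
    · have : 0 ≤ C' * (2 / κ') := by positivity
      linarith
    · nlinarith [mul_pos hκ' ht]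
  · intro v t ht
    refine (hb v t ht).2.trans ?_
    have h2 : C v * t * Real.exp (-κ v * t) ≤ t * (C' * Real.exp (-κ' * t)) := by
      have := mul_le_mul_of_nonneg_left (hmono v t ht) ht.le
      linarith
    refine h2.trans ?_
    have h3 : Real.exp (-κ' * t) = Real.exp (-(κ' / 2) * t) * Real.exp (-(κ' / 2) * t) := by
      rw [← Real.exp_add]
      congr 1
      ring
    have h4 : t * Real.exp (-(κ' / 2) * t) ≤ 2 / κ' := by
      have h5 := Real.add_one_le_exp (κ' / 2 * t)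
      have h6 : Real.exp (-(κ' / 2) * t) * Real.exp (κ' / 2 * t) = 1 := by
        rw [← Real.exp_add]
        simp
      have h7 : t * (κ' / 2) ≤ Real.exp (κ' / 2 * t) := by linarith
      have h8 : t * (κ' / 2) * Real.exp (-(κ' / 2) * t) ≤ 1 := by
        calc t * (κ' / 2) * Real.exp (-(κ' / 2) * t)
            ≤ Real.exp (κ' / 2 * t) * Real.exp (-(κ' / 2) * t) :=
              mul_le_mul_of_nonneg_right h7 (Real.exp_pos _).le
          _ = 1 := by rw [mul_comm]; exact h6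
      rw [le_div_iff₀ hκ']
      linarith
    calc t * (C' * Real.exp (-κ' * t))
        = C' * (t * Real.exp (-(κ' / 2) * t)) * Real.exp (-(κ' / 2) * t) := by rw [h3]; ring
      _ ≤ C' * (2 / κ') * Real.exp (-(κ' / 2) * t) := by gcongr
      _ ≤ (C' + C' * (2 / κ')) * Real.exp (-(κ' / 2) * t) := by
          refine mul_le_mul_of_nonneg_right ?_ (Real.exp_pos _).le
          linarith

/-- comparison of the decay rates -/
theorem decay_mono {C₁ κ₁ C κ x y : ℝ} (hC : C₁ ≤ C) (hC1 : 0 < C₁) (hκ0 : 0 < κ) (hκ : κ ≤ κ₁)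
    (hx : 0 ≤ x) (h : y ≤ C₁ * Real.exp (-κ₁ * Real.exp (κ₁ * x))) :
    y ≤ C * Real.exp (-κ * Real.exp (κ * x)) := by
  refine h.trans (mul_le_mul hC (Real.exp_le_exp.2 ?_) (Real.exp_pos _).le (hC1.le.trans hC))
  have h1 : κ * Real.exp (κ * x) ≤ κ₁ * Real.exp (κ₁ * x) :=
    mul_le_mul hκ (Real.exp_le_exp.2 (mul_le_mul_of_nonneg_right hκ hx)) (Real.exp_pos _).le
      (hκ0.le.trans hκ)
  linarith

theorem ffa_proof (hL : LatStatement) (hK : KerStatement) : FfaStatement := by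
  intro K _ _ w hw b hb
  obtain ⟨C, κ, hr, hg⟩ := rap_rad hK hw
  refine ⟨ff_cont hL hg hb, fun α β => ?_, fun v0 R => ?_⟩
  · classical
    exact ff_box hL hg hr (fun v t ht => (hw v).2.1 t ht) hb α β
  · obtain ⟨C₁, κ₁, hC₁, hκ₁, h1⟩ := ff_decay hL hg hb v0 R
    obtain ⟨C₂, κ₂, hC₂, hκ₂, h2⟩ := ff_decay hL hr hb v0 R
    refine ⟨max C₁ C₂, min κ₁ κ₂, lt_max_of_lt_left hC₁, lt_min hκ₁ hκ₂, fun η hη hη0 => ⟨?_, ?_⟩⟩
    · exact decay_mono (le_max_left _ _) hC₁ (lt_min hκ₁ hκ₂) (min_le_left _ _) hη0 (h1 η hη hη0)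
    · exact decay_mono (le_max_right _ _) hC₂ (lt_min hκ₁ hκ₂) (min_le_right _ _) hη0 (h2 η hη hη0)

end

end Pool.Agent.Lib.MP_50bb2e_nt.Anf.Ffa
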