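import Pool.Agent.Lib.MP_50bb2e_nt.Anf.Iface

set_option linter.unusedSectionVars false

namespace Pool.Agent.Lib.MP_50bb2e_nt.Anf.Ffb

open Complex MeasureTheory Filter Topology NumberField IsDedekindDomain
open scoped nonZeroDivisors
open Pool.Agent.Lib.MP_50bb2e_nt.Imq (FI)

noncomputable section

variable {K : Type} [Field K] [NumberField K]

/-! ### Norms -/

lemma nK_eq (ξ : K) : nK ξ = ∏ v : InfinitePlace K, (v ξ) ^ v.mult := by
  rw [InfinitePlace.prod_eq_abs_norm]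
  simp [nK]

lemma nK_pos {ξ : K} (h : ξ ≠ 0) : 0 < nK ξ := by
  rw [nK_eq]
  exact Finset.prod_pos fun v _ => pow_pos (InfinitePlace.pos_iff.2 h) _

lemma log_nK {ξ : K} (h : ξ ≠ 0) :
    ∑ v : InfinitePlace K, (v.mult : ℝ) * Real.log (v ξ) = Real.log (nK ξ) := by
  rw [nK_eq, Real.log_prod]
  · simp [Real.log_pow]
  · intro v _
    exact (pow_pos (InfinitePlace.pos_iff.2 h) _).ne'

lemma nK_mul (x y : K) : nK (x * y) = nK x * nK y := by
  simp [nK, abs_mul]

lemma nK_unit (u : (𝓞 K)ˣ) : nK (u : K) = 1 := by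
  have h := NumberField.Units.norm K u
  unfold nK
  rw [← Rat.cast_abs, h, Rat.cast_one]

lemma countable_K : Countable K := by
  have e := (Module.finBasis ℚ K).equivFun.toEquiv
  exact e.injective.countable

/-- the logarithm of the absolute value of a unit -/
def Lu {N : ℕ} (u : Fin N → (𝓞 K)ˣ) (i : Fin N) (v : InfinitePlace K) : ℝ :=
  Real.log (v (u i : K))

lemma log_mul_v (v : InfinitePlace K) {x y : K} (hx : x ≠ 0) (hy : y ≠ 0) :
    Real.log (v (x * y)) = Real.log (v x) + Real.log (v y) := by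
  rw [map_mul, Real.log_mul (InfinitePlace.pos_iff.2 hx).ne' (InfinitePlace.pos_iff.2 hy).ne']

lemma log_prod_zpow {N : ℕ} (u : Fin N → (𝓞 K)ˣ) (k : Fin N → ℤ) (v : InfinitePlace K) :
    Real.log (v ((∏ i, u i ^ k i : (𝓞 K)ˣ) : K)) = ∑ i, (k i : ℝ) * Lu u i v := by
  have h : ∀ s : Finset (Fin N),
      Real.log (v ((∏ i ∈ s, u i ^ k i : (𝓞 K)ˣ) : K)) = ∑ i ∈ s, (k i : ℝ) * Lu u i v := by
    intro s
    induction s using Finset.induction_on with
    | empty => simp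
    | insert a s ha ih =>
      rw [Finset.prod_insert ha, Finset.sum_insert ha, NumberField.Units.coe_mul,
        log_mul_v v (NumberField.Units.coe_ne_zero _) (NumberField.Units.coe_ne_zero _), ih,
        NumberField.Units.coe_zpow, map_zpow₀, Real.log_zpow]
      rfl
  exact h _

lemma sum_Lu {N : ℕ} (u : Fin N → (𝓞 K)ˣ) (i : Fin N) :
    ∑ v : InfinitePlace K, (v.mult : ℝ) * Lu u i v = 0 := by
  have := log_nK (NumberField.Units.coe_ne_zero (u i))
  rw [nK_unit, Real.log_one] at this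
  exact this

/-- the truncated logarithms -/
def lt {N : ℕ} (e : Fin (N + 1) ≃ InfinitePlace K) (u : Fin N → (𝓞 K)ˣ) (i : Fin N)
    (j : Fin N) : ℝ := Lu u i (e j.succ)

lemma lt_ind {N : ℕ} (e : Fin (N + 1) ≃ InfinitePlace K) (u : Fin N → (𝓞 K)ˣ)
    (hu : LogInd u) : LinearIndependent ℝ (lt e u) := by
  rw [Fintype.linearIndependent_iff]
  intro c hc
  have hu' := Fintype.linearIndependent_iff.1 hu c
  apply hu'
  have h1 : ∀ j : Fin N, ∑ i, c i * Lu u i (e j.succ) = 0 := by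
    intro j
    have := congrFun hc j
    simpa [lt] using this
  have h2 : ∑ v : InfinitePlace K, (v.mult : ℝ) * ∑ i, c i * Lu u i v = 0 := by
    have : ∀ v : InfinitePlace K, (v.mult : ℝ) * ∑ i, c i * Lu u i v =
        ∑ i, c i * ((v.mult : ℝ) * Lu u i v) := by
      intro v
      rw [Finset.mul_sum]
      exact Finset.sum_congr rfl fun i _ => by ring
    rw [Finset.sum_congr rfl fun v _ => this v, Finset.sum_comm]
    exact Finset.sum_eq_zero fun i _ => by rw [← Finset.mul_sum, sum_Lu, mul_zero]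
  have h0 : ∑ j : Fin N, ((e j.succ).mult : ℝ) * ∑ i, c i * Lu u i (e j.succ) = 0 :=
    Finset.sum_eq_zero fun j _ => by rw [h1 j, mul_zero]
  rw [← e.sum_comp, Fin.sum_univ_succ, h0, add_zero] at h2
  have h3 : ∑ i, c i * Lu u i (e 0) = 0 := by
    rcases mul_eq_zero.1 h2 with h | h
    · exact absurd h (by
        have := InfinitePlace.mult_pos (w := e 0)
        positivity)
    · exact h
  funext v
  have : ∀ j : Fin (N + 1), ∑ i, c i * Lu u i (e j) = 0 := by
    intro j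
    refine Fin.cases h3 (fun j => h1 j) j
  have h4 := this (e.symm v)
  rw [Equiv.apply_symm_apply] at h4
  simpa [Lu] using h4

/-- balancing by the group generated by the units `u i` -/
lemma bal {N : ℕ} (e : Fin (N + 1) ≃ InfinitePlace K) (u : Fin N → (𝓞 K)ˣ)
    (hu : LogInd u) : ∃ C : ℝ, ∀ x : InfinitePlace K → ℝ,
      ∑ v : InfinitePlace K, (v.mult : ℝ) * x v = 0 →
      ∃ k : Fin N → ℤ, ∀ v, x v + ∑ i, (k i : ℝ) * Lu u i v ≤ C := by
  classical
  have hl := lt_ind e u hu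
  let B := basisOfPiSpaceOfLinearIndependent hl
  have hB : ∀ i, B i = lt e u i := fun i => by simp [B]
  let M : ℝ := ∑ i, ∑ v : InfinitePlace K, |Lu u i v|
  have hM : ∀ i v, |Lu u i v| ≤ M := by
    intro i v
    calc |Lu u i v| ≤ ∑ v : InfinitePlace K, |Lu u i v| :=
          Finset.single_le_sum (f := fun v => |Lu u i v|) (fun _ _ => abs_nonneg _)
            (Finset.mem_univ v)
      _ ≤ M := Finset.single_le_sum (f := fun i => ∑ v : InfinitePlace K, |Lu u i v|)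
            (fun _ _ => Finset.sum_nonneg fun _ _ => abs_nonneg _) (Finset.mem_univ i)
  let D : ℝ := ∑ v : InfinitePlace K, (v.mult : ℝ)
  have hM0 : 0 ≤ M := Finset.sum_nonneg fun _ _ => Finset.sum_nonneg fun _ _ => abs_nonneg _
  have hD0 : 0 ≤ D := Finset.sum_nonneg fun _ _ => Nat.cast_nonneg _
  -- bound for the coordinates e (j+1)
  refine ⟨(1 + D) * (N * M), fun x hx => ?_⟩
  let c : Fin N → ℝ := fun i => B.repr (fun j => x (e j.succ)) i
  refine ⟨fun i => -⌊c i⌋, ?_⟩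
  have h1 : ∀ j : Fin N, x (e j.succ) = ∑ i, c i * Lu u i (e j.succ) := by
    intro j
    have := congrFun (B.sum_repr (fun j => x (e j.succ))) j
    simp only [hB] at this
    rw [← this]
    simp [c, lt]
  let y : InfinitePlace K → ℝ := fun v => x v + ∑ i, ((-⌊c i⌋ : ℤ) : ℝ) * Lu u i v
  have hy1 : ∀ j : Fin N, |y (e j.succ)| ≤ N * M := by
    intro j
    have : y (e j.succ) = ∑ i, Int.fract (c i) * Lu u i (e j.succ) := by
      simp only [y]
      rw [h1 j, ← Finset.sum_add_distrib]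
      refine Finset.sum_congr rfl fun i _ => ?_
      rw [Int.fract]; push_cast; ring
    rw [this]
    calc |∑ i, Int.fract (c i) * Lu u i (e j.succ)| ≤ ∑ i : Fin N, M := by
          refine (Finset.abs_sum_le_sum_abs _ _).trans (Finset.sum_le_sum fun i _ => ?_)
          rw [abs_mul, abs_of_nonneg (Int.fract_nonneg _)]
          calc Int.fract (c i) * |Lu u i (e j.succ)| ≤ 1 * M :=
                mul_le_mul (Int.fract_lt_one _).le (hM _ _) (abs_nonneg _) zero_le_one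
            _ = M := one_mul _
      _ = N * M := by simp
  have hy2 : ∑ v : InfinitePlace K, (v.mult : ℝ) * y v = 0 := by
    simp only [y, mul_add, Finset.sum_add_distrib, hx, zero_add]
    have : ∀ v : InfinitePlace K, (v.mult : ℝ) * ∑ i, ((-⌊c i⌋ : ℤ) : ℝ) * Lu u i v =
        ∑ i, ((-⌊c i⌋ : ℤ) : ℝ) * ((v.mult : ℝ) * Lu u i v) := by
      intro v
      rw [Finset.mul_sum]
      exact Finset.sum_congr rfl fun i _ => by ring
    rw [Finset.sum_congr rfl fun v _ => this v, Finset.sum_comm]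
    exact Finset.sum_eq_zero fun i _ => by rw [← Finset.mul_sum, sum_Lu, mul_zero]
  have hy3 : y (e 0) ≤ D * (N * M) := by
    rw [← e.sum_comp, Fin.sum_univ_succ] at hy2
    have hm : (1 : ℝ) ≤ ((e 0).mult : ℝ) := by
      exact_mod_cast InfinitePlace.mult_pos
    have h5 : ((e 0).mult : ℝ) * y (e 0) ≤ D * (N * M) := by
      have h6 : ((e 0).mult : ℝ) * y (e 0) = - ∑ i : Fin N, ((e i.succ).mult : ℝ) * y (e i.succ) := by
        linarith
      rw [h6, ← Finset.sum_neg_distrib]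
      calc ∑ i : Fin N, -(((e i.succ).mult : ℝ) * y (e i.succ))
          ≤ ∑ i : Fin N, ((e i.succ).mult : ℝ) * (N * M) := by
            refine Finset.sum_le_sum fun i _ => ?_
            have := hy1 i
            have h7 : -(y (e i.succ)) ≤ N * M := (neg_le_abs _).trans this
            have h8 : (0 : ℝ) ≤ ((e i.succ).mult : ℝ) := Nat.cast_nonneg _
            nlinarith
        _ = (∑ i : Fin N, ((e i.succ).mult : ℝ)) * (N * M) := by rw [Finset.sum_mul]
        _ ≤ D * (N * M) := by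
            refine mul_le_mul_of_nonneg_right ?_ (by positivity)
            simp only [D]
            rw [← e.sum_comp, Fin.sum_univ_succ]
            have : (0 : ℝ) ≤ ((e 0).mult : ℝ) := Nat.cast_nonneg _
            linarith
    by_cases h9 : 0 ≤ y (e 0)
    · nlinarith
    · have : 0 ≤ D * (N * M) := by positivity
      linarith
  have hNM : 0 ≤ (N : ℝ) * M := by positivity
  intro v
  have : ∀ j : Fin (N + 1), y (e j) ≤ (1 + D) * (N * M) := by
    intro j
    refine Fin.cases ?_ (fun j => ?_) j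
    · nlinarith
    · have := (le_abs_self _).trans (hy1 j)
      nlinarith [mul_nonneg hD0 hNM]
  have h4 := this (e.symm v)
  rw [Equiv.apply_symm_apply] at h4
  exact h4

/-- every non-zero element is balanced by an element of the group generated by the units -/
lemma bal_elt {N : ℕ} (e : Fin (N + 1) ≃ InfinitePlace K) (u : Fin N → (𝓞 K)ˣ)
    (hu : LogInd u) : ∃ C : ℝ, ∀ ξ : K, ξ ≠ 0 → ∃ k : Fin N → ℤ, ∀ v : InfinitePlace K,
      v (ξ * ((∏ i, u i ^ k i : (𝓞 K)ˣ) : K)) ≤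
        Real.exp C * nK ξ ^ ((1 : ℝ) / Module.finrank ℚ K) := by
  obtain ⟨C, hC⟩ := bal e u hu
  refine ⟨C, fun ξ hξ => ?_⟩
  have hd : (0 : ℝ) < Module.finrank ℚ K := by exact_mod_cast Module.finrank_pos
  obtain ⟨k, hk⟩ := hC (fun v => Real.log (v ξ) - (1 : ℝ) / Module.finrank ℚ K *
    Real.log (nK ξ)) (by
      simp only [mul_sub, Finset.sum_sub_distrib]
      rw [log_nK hξ, ← Finset.sum_mul, ← Nat.cast_sum, InfinitePlace.sum_mult_eq]
      field_simp
      ring)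
  refine ⟨k, fun v => ?_⟩
  have hu0 := NumberField.Units.coe_ne_zero (∏ i, u i ^ k i : (𝓞 K)ˣ)
  have h1 : Real.log (v (ξ * ((∏ i, u i ^ k i : (𝓞 K)ˣ) : K))) ≤
      C + (1 : ℝ) / Module.finrank ℚ K * Real.log (nK ξ) := by
    rw [log_mul_v v hξ hu0, log_prod_zpow]
    have := hk v
    linarith
  have h2 := Real.exp_le_exp.2 h1
  rw [Real.exp_log (InfinitePlace.pos_iff.2 (mul_ne_zero hξ hu0)), Real.exp_add] at h2
  refine h2.trans (le_of_eq ?_)
  rw [Real.rpow_def_of_pos (nK_pos hξ), mul_comm (Real.log (nK ξ))]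

open scoped Classical in
lemma latS1 (B : FI K) : Module.finrank ℤ (mixedEmbedding.idealLattice K B) =
    Module.finrank ℚ K := by
  have h := ZLattice.rank ℝ (E := mixedEmbedding.mixedSpace K) (mixedEmbedding.idealLattice K B)
  rw [mixedEmbedding.finrank] at h
  exact h

open scoped Classical in
lemma latS2 (B : FI K) (r : ℝ) (hr : r < -(Module.finrank ℚ K : ℝ)) :
    Summable (fun x : mixedEmbedding.idealLattice K B =>
      ‖(x : mixedEmbedding.mixedSpace K)‖ ^ r) := by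
  have h := ZLattice.summable_norm_rpow (E := mixedEmbedding.mixedSpace K)
    (mixedEmbedding.idealLattice K B) r (by rw [latS1]; exact hr)
  exact h

open scoped Classical in
/-- the sum of the powers of the norm over representatives modulo the units -/
lemma sumT {N : ℕ} (e : Fin (N + 1) ≃ InfinitePlace K) (u : Fin N → (𝓞 K)ˣ)
    (hu : LogInd u) (B : FI K) (T : Set K) (hT : Reps u T) (A : ℝ) (hA : 1 < A) :
    Summable (fun t : {t : T // (t : K) ∈ (B : FractionalIdeal (𝓞 K)⁰ K)} =>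
      nK (t.1 : K) ^ (-A)) := by
  obtain ⟨C, hC⟩ := bal_elt e u hu
  have hT0 : ∀ t : {t : T // (t : K) ∈ (B : FractionalIdeal (𝓞 K)⁰ K)}, (t.1 : K) ≠ 0 :=
    fun t h => hT.1 (h ▸ t.1.2)
  choose k hk using fun t : {t : T // (t : K) ∈ (B : FractionalIdeal (𝓞 K)⁰ K)} =>
    hC t.1 (hT0 t)
  set d : ℝ := (Module.finrank ℚ K : ℝ) with hd
  have hd0 : 0 < d := by
    rw [hd]; exact_mod_cast Module.finrank_pos
  let f : {t : T // (t : K) ∈ (B : FractionalIdeal (𝓞 K)⁰ K)} → K :=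
    fun t => (t.1 : K) * ((∏ i, u i ^ k t i : (𝓞 K)ˣ) : K)
  have hf0 : ∀ t, f t ≠ 0 := fun t => mul_ne_zero (hT0 t) (NumberField.Units.coe_ne_zero _)
  have hfB : ∀ t, f t ∈ (B : FractionalIdeal (𝓞 K)⁰ K) := by
    intro t
    have h1 := t.2
    have h2 : f t = ((∏ i, u i ^ k t i : (𝓞 K)ˣ) : 𝓞 K) • (t.1 : K) := by
      simp only [f]
      rw [Algebra.smul_def, mul_comm]
    rw [h2]
    exact (B : Submodule (𝓞 K) K).smul_mem _ h1
  have hfi : Function.Injective f := by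
    intro t t' h
    obtain ⟨p, -, hp2⟩ := hT.2 (f t) (hf0 t)
    have h1 := hp2 (t.1, k t) rfl
    have h2 := hp2 (t'.1, k t') h
    have h3 := h1.trans h2.symm
    exact Subtype.ext (congrArg Prod.fst h3)
  let F : {t : T // (t : K) ∈ (B : FractionalIdeal (𝓞 K)⁰ K)} →
      mixedEmbedding.idealLattice K B := fun t =>
    ⟨mixedEmbedding K (f t), (mixedEmbedding.mem_idealLattice K B).2 ⟨f t, hfB t, rfl⟩⟩
  have hFi : Function.Injective F := by
    intro t t' h
    apply hfi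
    have := congrArg Subtype.val h
    exact (mixedEmbedding_injective K) this
  have hs := latS2 B (-(d * A)) (by
    have : d * 1 < d * A := by nlinarith
    simpa using this)
  have hs2 := hs.comp_injective hFi
  refine Summable.of_nonneg_of_le (fun t => Real.rpow_nonneg (nK_pos (hT0 t)).le _) (fun t => ?_)
    (hs2.mul_left (Real.exp C ^ (d * A)))
  have hn : 0 < nK (t.1 : K) := nK_pos (hT0 t)
  have h1 : ‖(F t : mixedEmbedding.mixedSpace K)‖ ≤ Real.exp C * nK (t.1 : K) ^ ((1 : ℝ) / d) := by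
    rw [mixedEmbedding.norm_eq_sup'_normAtPlace]
    refine Finset.sup'_le _ _ fun v _ => ?_
    simp only [F, mixedEmbedding.normAtPlace_apply]
    exact hk t v
  have h0 : 0 < ‖(F t : mixedEmbedding.mixedSpace K)‖ := by
    rw [norm_pos_iff]
    intro h
    apply hf0 t
    have : mixedEmbedding K (f t) = mixedEmbedding K 0 := by rw [map_zero]; exact h
    exact (mixedEmbedding_injective K) this
  have h2 : ‖(F t : mixedEmbedding.mixedSpace K)‖ ^ (d * A) ≤
      Real.exp C ^ (d * A) * nK (t.1 : K) ^ A := by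
    calc ‖(F t : mixedEmbedding.mixedSpace K)‖ ^ (d * A)
        ≤ (Real.exp C * nK (t.1 : K) ^ ((1 : ℝ) / d)) ^ (d * A) :=
          Real.rpow_le_rpow h0.le h1 (by positivity)
      _ = _ := by
          rw [Real.mul_rpow (Real.exp_pos _).le (by positivity), ← Real.rpow_mul hn.le]
          congr 2
          field_simp
  simp only [Function.comp_apply]
  have hX : 0 < ‖(F t : mixedEmbedding.mixedSpace K)‖ ^ (d * A) := Real.rpow_pos_of_pos h0 _
  have hY : 0 < nK (t.1 : K) ^ A := Real.rpow_pos_of_pos hn _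
  rw [Real.rpow_neg hn.le, Real.rpow_neg h0.le, ← div_eq_mul_inv, le_div_iff₀ hX,
    inv_mul_le_iff₀ hY]
  linarith [h2]

/-! ### One factor -/

/-- the local factor in logarithmic coordinates -/
def gv (w : ℝ → ℝ) (m : ℝ) (s : ℂ) (x : ℝ) : ℂ :=
  (w (Real.exp x) : ℂ) * exp (s * ((m * x : ℝ) : ℂ))

lemma gv_cont {w : ℝ → ℝ} (hw : Continuous w) (m : ℝ) (s : ℂ) : Continuous (gv w m s) := by
  unfold gv
  fun_prop

lemma mellin_conv {w : ℝ → ℝ} (hw : Continuous w) {C κ : ℝ} (hC : 0 < C) (hκ : 0 < κ)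
    (h : ∀ t, 0 < t → |w t| ≤ C * t * Real.exp (-κ * t)) {z : ℂ} (hz : 0 < z.re) :
    MellinConvergent (fun t => (w t : ℂ)) z := by
  refine mellinConvergent_of_isBigO_rpow_exp (a := κ / 2) (b := 0) (by positivity) ?_ ?_ ?_ hz
  · exact (Complex.continuous_ofReal.comp hw).locallyIntegrable.locallyIntegrableOn _
  · refine Asymptotics.IsBigO.of_bound (C * (2 / κ)) ?_
    filter_upwards [eventually_gt_atTop 0] with t ht
    rw [Complex.norm_real, Real.norm_eq_abs, Real.norm_eq_abs, abs_of_pos (Real.exp_pos _)]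
    refine (h t ht).trans ?_
    have h1 : κ / 2 * t ≤ Real.exp (κ / 2 * t) := by
      have := Real.add_one_le_exp (κ / 2 * t); linarith
    have h2 : Real.exp (-κ * t) = Real.exp (-(κ / 2) * t) * Real.exp (-(κ / 2) * t) := by
      rw [← Real.exp_add]; congr 1; ring
    have h3 : t * Real.exp (-(κ / 2) * t) ≤ 2 / κ := by
      have : Real.exp (-(κ / 2) * t) = (Real.exp (κ / 2 * t))⁻¹ := by
        rw [← Real.exp_neg]; congr 1; ring
      rw [this, ← div_eq_mul_inv, div_le_div_iff₀ (Real.exp_pos _) hκ]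
      nlinarith
    rw [h2]
    have h4 := Real.exp_pos (-(κ / 2) * t)
    calc C * t * (Real.exp (-(κ / 2) * t) * Real.exp (-(κ / 2) * t))
        = C * (t * Real.exp (-(κ / 2) * t)) * Real.exp (-(κ / 2) * t) := by ring
      _ ≤ C * (2 / κ) * Real.exp (-(κ / 2) * t) := by gcongr
  · refine Asymptotics.IsBigO.of_bound C ?_
    filter_upwards [Ioo_mem_nhdsGT (show (0 : ℝ) < 1 by norm_num)] with t ht
    rw [Complex.norm_real, Real.norm_eq_abs, neg_zero, Real.rpow_zero, norm_one, mul_one]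
    refine (h t ht.1).trans ?_
    have h5 : Real.exp (-κ * t) ≤ 1 := by
      rw [Real.exp_le_one_iff]; nlinarith [ht.1]
    have h6 := Real.exp_pos (-κ * t)
    calc C * t * Real.exp (-κ * t) ≤ C * 1 * 1 := by
          gcongr
          exact ht.2.le
      _ = C := by ring

lemma exp_image : Real.exp '' Set.univ = Set.Ioi 0 := by
  rw [Set.image_univ, Real.range_exp]

lemma gv_eq (w : ℝ → ℝ) (m : ℝ) (s : ℂ) (x : ℝ) :
    |Real.exp x| • (((Real.exp x : ℝ) : ℂ) ^ ((m : ℂ) * s - 1) • (w (Real.exp x) : ℂ)) =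
      gv w m s x := by
  rw [abs_of_pos (Real.exp_pos x), Complex.real_smul, smul_eq_mul,
    Complex.cpow_def_of_ne_zero (by exact_mod_cast (Real.exp_pos x).ne'),
    ← Complex.ofReal_log (Real.exp_pos x).le, Real.log_exp, gv, ← mul_assoc, Complex.ofReal_exp,
    ← Complex.exp_add, mul_comm]
  congr 2
  push_cast
  ring

lemma gv_int {w : ℝ → ℝ} (hw : Continuous w) {C κ : ℝ} (hC : 0 < C) (hκ : 0 < κ)
    (h : ∀ t, 0 < t → |w t| ≤ C * t * Real.exp (-κ * t)) {m : ℝ} {s : ℂ}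
    (hz : 0 < ((m : ℂ) * s).re) :
    Integrable (gv w m s) := by
  have h1 := mellin_conv hw hC hκ h hz
  rw [MellinConvergent, ← exp_image, integrableOn_image_iff_integrableOn_abs_deriv_smul
    MeasurableSet.univ (fun x _ => (Real.hasDerivAt_exp x).hasDerivWithinAt)
    Real.exp_injective.injOn, integrableOn_univ] at h1
  exact h1.congr (Eventually.of_forall fun x => gv_eq w m s x)

lemma gv_integral (w : ℝ → ℝ) (m : ℝ) (s : ℂ) :
    ∫ x, gv w m s x = mellin (fun t => (w t : ℂ)) ((m : ℂ) * s) := by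
  rw [mellin, ← exp_image, integral_image_eq_integral_abs_deriv_smul
    MeasurableSet.univ (fun x _ => (Real.hasDerivAt_exp x).hasDerivWithinAt)
    Real.exp_injective.injOn, setIntegral_univ]
  exact integral_congr_ae (Eventually.of_forall fun x => (gv_eq w m s x).symm)

/-! ### All factors -/

/-- the product of the local factors -/
def GG (w : InfinitePlace K → ℝ → ℝ) (s : ℂ) (η : InfinitePlace K → ℝ) : ℂ :=
  ∏ v : InfinitePlace K, gv (w v) (v.mult : ℝ) s (η v)

lemma GG_cont {w : InfinitePlace K → ℝ → ℝ} (hw : KerP w) (s : ℂ) : Continuous (GG w s) := by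
  unfold GG
  exact continuous_finsetProd _ fun v _ => (gv_cont (hw v).1 _ _).comp (continuous_apply v)

lemma mult_re {s : ℂ} (hs : 0 < s.re) (v : InfinitePlace K) :
    0 < (((v.mult : ℝ) : ℂ) * s).re := by
  rw [Complex.re_ofReal_mul]
  have : (0 : ℝ) < v.mult := by exact_mod_cast InfinitePlace.mult_pos
  positivity

lemma GG_int {w : InfinitePlace K → ℝ → ℝ} (hw : KerP w) {s : ℂ} (hs : 0 < s.re) :
    Integrable (GG w s) := by
  unfold GG
  refine Integrable.fintype_prod (f := fun v => gv (w v) (v.mult : ℝ) s) fun v => ?_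
  obtain ⟨C, κ, hC, hκ, h⟩ := (hw v).2.2.1
  exact gv_int (hw v).1 hC hκ (fun t ht => (h t ht).2) (mult_re hs v)

lemma GG_integral (w : InfinitePlace K → ℝ → ℝ) (s : ℂ) :
    ∫ η, GG w s η = ∏ v : InfinitePlace K, mellin (fun t => (w v t : ℂ)) ((v.mult : ℂ) * s) := by
  unfold GG
  rw [integral_fintype_prod_volume_eq_prod (fun v => gv (w v) (v.mult : ℝ) s)]
  refine Finset.prod_congr rfl fun v _ => ?_
  rw [gv_integral]
  simp

/-- the logarithms of the absolute values -/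
def La (ξ : K) (v : InfinitePlace K) : ℝ := Real.log (v ξ)

/-- a term of the series -/
lemma term_eq (w : InfinitePlace K → ℝ → ℝ) (b : ℂ) (s : ℂ) {ξ : K} (hξ : ξ ≠ 0)
    (η : InfinitePlace K → ℝ) (hn : 0 < nK ξ)
    (hl : ∑ v : InfinitePlace K, (v.mult : ℝ) * Real.log (v ξ) = Real.log (nK ξ)) :
    (b / (nK ξ : ℂ)) * (∏ v : InfinitePlace K, ((w v (v ξ * Real.exp (η v)) : ℝ) : ℂ)) *
      exp (s * ((∑ v : InfinitePlace K, (v.mult : ℝ) * η v : ℝ) : ℂ)) =
    b * (nK ξ : ℂ) ^ (-1 - s) * GG w s (η + La ξ) := by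
  have h1 : GG w s (η + La ξ) =
      (∏ v : InfinitePlace K, ((w v (v ξ * Real.exp (η v)) : ℝ) : ℂ)) *
        exp (s * ((∑ v : InfinitePlace K, (v.mult : ℝ) * η v : ℝ) : ℂ)) *
        exp (s * ((Real.log (nK ξ) : ℝ) : ℂ)) := by
    unfold GG gv
    rw [Finset.prod_mul_distrib, mul_assoc, ← Complex.exp_add, ← Complex.exp_sum]
    congr 1
    · refine Finset.prod_congr rfl fun v _ => ?_
      rw [Pi.add_apply, Real.exp_add, La, Real.exp_log (InfinitePlace.pos_iff.2 hξ), mul_comm]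
    · congr 1
      rw [← mul_add, ← Finset.mul_sum, ← hl, ← Complex.ofReal_add, ← Finset.sum_add_distrib,
        Complex.ofReal_sum]
      congr 1
      refine Finset.sum_congr rfl fun v _ => ?_
      rw [Pi.add_apply, La, mul_add]
  have hn' : (nK ξ : ℂ) ≠ 0 := by exact_mod_cast hn.ne'
  have h2 : (nK ξ : ℂ) ^ (-1 - s) = (nK ξ : ℂ)⁻¹ * exp (-(s * ((Real.log (nK ξ) : ℝ) : ℂ))) := by
    rw [sub_eq_add_neg, Complex.cpow_add _ _ hn', Complex.cpow_neg_one,
      Complex.cpow_def_of_ne_zero hn', ← Complex.ofReal_log hn.le]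
    congr 2
    ring
  rw [h1, h2]
  have h3 : exp (-(s * ((Real.log (nK ξ) : ℝ) : ℂ))) * exp (s * ((Real.log (nK ξ) : ℝ) : ℂ)) = 1 := by
    rw [← Complex.exp_add]; simp
  calc _ = (b / (nK ξ : ℂ)) * (∏ v : InfinitePlace K, ((w v (v ξ * Real.exp (η v)) : ℝ) : ℂ)) *
      exp (s * ((∑ v : InfinitePlace K, (v.mult : ℝ) * η v : ℝ) : ℂ)) * 1 := by ring
    _ = _ := by rw [← h3]; ring

/-! ### Splitting off the coordinate `e 0` -/

/-- the equivalence of `ℝ^(N+1)` with `ℝ × ℝ^N` -/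
def EE {N : ℕ} (e : Fin (N + 1) ≃ InfinitePlace K) :
    (InfinitePlace K → ℝ) ≃ᵐ ℝ × (Fin N → ℝ) :=
  (MeasurableEquiv.piCongrLeft (fun _ => ℝ) e).symm.trans
    (MeasurableEquiv.piFinSuccAbove (fun _ => ℝ) 0)

lemma EE_apply {N : ℕ} (e : Fin (N + 1) ≃ InfinitePlace K) (η : InfinitePlace K → ℝ) :
    EE e η = (η (e 0), fun j => η (e j.succ)) := by
  rfl

lemma EE_mp {N : ℕ} (e : Fin (N + 1) ≃ InfinitePlace K) :
    MeasurePreserving (EE e) volume (volume.prod volume) :=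
  ((volume_measurePreserving_piCongrLeft (fun _ => ℝ) e).symm _).trans
    (volume_preserving_piFinSuccAbove (fun _ => ℝ) 0)

/-- the integral over the coordinate `e 0` -/
def WW {N : ℕ} (e : Fin (N + 1) ≃ InfinitePlace K) (f : (InfinitePlace K → ℝ) → ℂ)
    (y : Fin N → ℝ) : ℂ := ∫ x : ℝ, f ((EE e).symm (x, y))

lemma int_symm {N : ℕ} (e : Fin (N + 1) ≃ InfinitePlace K) {f : (InfinitePlace K → ℝ) → ℂ}
    (hf : Integrable f) : Integrable (fun z => f ((EE e).symm z)) (volume.prod volume) :=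
  ((EE_mp e).symm _).integrable_comp_of_integrable hf

lemma WW_int {N : ℕ} (e : Fin (N + 1) ≃ InfinitePlace K) {f : (InfinitePlace K → ℝ) → ℂ}
    (hf : Integrable f) : Integrable (WW e f) := (int_symm e hf).integral_prod_right

lemma WW_integral {N : ℕ} (e : Fin (N + 1) ≃ InfinitePlace K) {f : (InfinitePlace K → ℝ) → ℂ}
    (hf : Integrable f) : ∫ y, WW e f y = ∫ η, f η := by
  unfold WW
  rw [← integral_prod_symm _ (int_symm e hf)]
  exact ((EE_mp e).symm _).integral_comp' f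

lemma WW_fub {N : ℕ} (e : Fin (N + 1) ≃ InfinitePlace K) {f : (InfinitePlace K → ℝ) → ℂ}
    (φ : (Fin N → ℝ) → ℂ)
    (hφ : Integrable (fun η : InfinitePlace K → ℝ => φ (fun j => η (e j.succ)) * f η)) :
    ∫ η : InfinitePlace K → ℝ, φ (fun j => η (e j.succ)) * f η = ∫ y, φ y * WW e f y := by
  have h1 : ∀ y, φ y * WW e f y = ∫ x : ℝ, (fun η : InfinitePlace K → ℝ =>
      φ (fun j => η (e j.succ)) * f η) ((EE e).symm (x, y)) := by
    intro y
    unfold WW
    rw [← integral_const_mul]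
    refine integral_congr_ae (Eventually.of_forall fun x => ?_)
    have h2 := (EE e).apply_symm_apply (x, y)
    rw [EE_apply] at h2
    have h3 := congrArg Prod.snd h2
    simp only at h3
    simp only [h3]
  rw [integral_congr_ae (Eventually.of_forall h1)]
  exact (WW_integral e hφ).symm

lemma WW_trans {N : ℕ} (e : Fin (N + 1) ≃ InfinitePlace K) (f : (InfinitePlace K → ℝ) → ℂ)
    (c : InfinitePlace K → ℝ) (y : Fin N → ℝ) :
    WW e (fun η => f (η + c)) y = WW e f (y + fun j => c (e j.succ)) := by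
  unfold WW
  have h1 : ∀ x : ℝ, (EE e).symm (x, y) + c =
      (EE e).symm (x + c (e 0), y + fun j => c (e j.succ)) := by
    intro x
    apply (EE e).injective
    rw [(EE e).apply_symm_apply, EE_apply]
    have h2 := (EE e).apply_symm_apply (x, y)
    rw [EE_apply] at h2
    have h3 := congrArg Prod.fst h2
    have h4 := congrArg Prod.snd h2
    simp only at h3 h4
    ext1
    · simp [h3]
    · funext j
      have := congrFun h4 j
      simp [this]
  simp only [h1]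
  exact integral_add_right_eq_self (μ := volume)
    (fun x : ℝ => f ((EE e).symm (x, y + fun j => c (e j.succ)))) (c (e 0))

/-! ### Boxes -/

lemma sg_abs (a b t : ℝ) : |sg a b t| ≤ 1 := by
  unfold sg
  split_ifs <;> simp

lemma sg_zero {a b t R : ℝ} (ha : |a| ≤ R) (hb : |b| ≤ R) (ht : R < |t|) : sg a b t = 0 := by
  unfold sg
  have ha' := abs_le.1 ha
  have hb' := abs_le.1 hb
  rcases lt_abs.1 ht with h | h
  · rw [if_neg (by linarith), if_neg (by linarith), sub_zero]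
  · rw [if_pos (by linarith), if_pos (by linarith), sub_self]

lemma sg_meas (a b : ℝ) : Measurable (sg a b) := by
  unfold sg
  exact ((measurable_const.ite measurableSet_Iic measurable_const)).sub
    (measurable_const.ite measurableSet_Iic measurable_const)

lemma bx_abs {n : ℕ} (p : Fin (n + 1) → Fin n → ℝ) (t : Fin n → ℝ) : |bx p t| ≤ 1 := by
  unfold bx
  rw [Finset.abs_prod]
  exact Finset.prod_le_one (fun _ _ => abs_nonneg _) fun _ _ => sg_abs _ _ _

lemma bx_meas {n : ℕ} (p : Fin (n + 1) → Fin n → ℝ) : Measurable (bx p) := by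
  unfold bx
  exact Finset.measurable_prod _ fun j _ => (sg_meas _ _).comp (measurable_pi_apply j)

lemma bx_supp {n : ℕ} (p : Fin (n + 1) → Fin n → ℝ) :
    ∃ R : ℝ, ∀ t, bx p t ≠ 0 → ∀ j, |t j| ≤ R := by
  refine ⟨∑ i, ∑ j, |p i j|, fun t ht j => ?_⟩
  have hp : ∀ i j, |p i j| ≤ ∑ i, ∑ j, |p i j| := by
    intro i j
    calc |p i j| ≤ ∑ j, |p i j| :=
          Finset.single_le_sum (f := fun j => |p i j|) (fun _ _ => abs_nonneg _)
            (Finset.mem_univ j)
      _ ≤ _ := Finset.single_le_sum (f := fun i => ∑ j, |p i j|)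
            (fun _ _ => Finset.sum_nonneg fun _ _ => abs_nonneg _) (Finset.mem_univ i)
  by_contra h
  push Not at h
  apply ht
  unfold bx
  exact Finset.prod_eq_zero (Finset.mem_univ j) (sg_zero (hp _ _) (hp _ _) h)

/-- a bounded set meets only finitely many translates -/
lemma fin_lat {n : ℕ} (l : Fin n → Fin n → ℝ) (hl : LinearIndependent ℝ l) (R : ℝ) :
    {k : Fin n → ℤ | ∀ j, |(∑ i, (k i : ℝ) • l i) j| ≤ R}.Finite := by
  let A : (Fin n → ℝ) →ₗ[ℝ] (Fin n → ℝ) := Fintype.linearCombination ℝ l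
  have hA : ∀ c, A c = ∑ i, c i • l i := fun c => Fintype.linearCombination_apply ℝ l c
  have hinj : Function.Injective A := by
    rw [← LinearMap.ker_eq_bot, LinearMap.ker_eq_bot']
    intro c hc
    rw [hA] at hc
    exact funext (Fintype.linearIndependent_iff.1 hl c hc)
  let A' : (Fin n → ℝ) ≃ₗ[ℝ] (Fin n → ℝ) := LinearEquiv.ofInjectiveEndo A hinj
  let B : (Fin n → ℝ) →L[ℝ] (Fin n → ℝ) := (A'.symm : (Fin n → ℝ) →ₗ[ℝ] (Fin n → ℝ)).toContinuousLinearMap
  have hB : ∀ c, B (A c) = c := fun c => A'.symm_apply_apply c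
  obtain ⟨M, hM⟩ := exists_int_gt (‖B‖ * |R|)
  refine (Set.finite_Icc (fun _ => -M) (fun _ => M) : (Set.Icc (fun _ : Fin n => -M)
    (fun _ => M)).Finite).subset fun k hk => ?_
  have h1 : ‖A (fun i => (k i : ℝ))‖ ≤ |R| := by
    rw [pi_norm_le_iff_of_nonneg (abs_nonneg _)]
    intro j
    rw [hA]
    exact (hk j).trans (le_abs_self _)
  have h2 : ‖(fun i => (k i : ℝ))‖ ≤ ‖B‖ * |R| := by
    have := B.le_opNorm (A (fun i => (k i : ℝ)))
    rw [hB] at this
    exact this.trans (mul_le_mul_of_nonneg_left h1 (norm_nonneg _))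
  have h3 : ∀ i, |(k i : ℝ)| < M := fun i => ((norm_le_pi_norm (fun i => (k i : ℝ)) i).trans h2).trans_lt hM
  constructor
  · intro i
    have := (abs_lt.1 (h3 i)).1
    have h4 : ((-M : ℤ) : ℝ) < (k i : ℝ) := by push_cast; exact this
    exact (Int.cast_lt.1 h4).le
  · intro i
    have := (abs_lt.1 (h3 i)).2
    exact (Int.cast_lt.1 this).le

/-- the translates of a box have bounded multiplicity -/
lemma bx_bound {n : ℕ} (l : Fin n → Fin n → ℝ) (hl : LinearIndependent ℝ l)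
    (p : Fin (n + 1) → Fin n → ℝ) : ∃ C : ENNReal, C ≠ ⊤ ∧ ∀ z : Fin n → ℝ,
      ∑' k : Fin n → ℤ, ‖bx p (z - ∑ i, (k i : ℝ) • l i)‖ₑ ≤ C := by
  obtain ⟨R, hR⟩ := bx_supp p
  have hfin := fin_lat l hl (2 * R)
  refine ⟨(hfin.toFinset.card : ENNReal), ENNReal.natCast_ne_top _, fun z => ?_⟩
  by_cases hz : ∀ k : Fin n → ℤ, bx p (z - ∑ i, (k i : ℝ) • l i) = 0
  · simp [hz]
  push Not at hz
  obtain ⟨k0, hk0⟩ := hz
  rw [← (Equiv.addLeft k0).tsum_eq]
  have hs : ∀ k ∉ hfin.toFinset, ‖bx p (z - ∑ i, (((Equiv.addLeft k0) k i : ℤ) : ℝ) • l i)‖ₑ = 0 := by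
    intro k hk
    rw [enorm_eq_zero]
    by_contra h
    apply hk
    rw [Set.Finite.mem_toFinset]
    intro j
    have h1 := hR _ hk0 j
    have h2 := hR _ h j
    have h3 : (∑ i, (k i : ℝ) • l i) j = (z - ∑ i, (k0 i : ℝ) • l i) j -
        (z - ∑ i, (((Equiv.addLeft k0) k i : ℤ) : ℝ) • l i) j := by
      simp [add_mul, Finset.sum_add_distrib]
    rw [h3]
    refine (abs_sub _ _).trans ?_
    linarith
  rw [tsum_eq_sum hs]
  calc ∑ k ∈ hfin.toFinset, ‖bx p (z - ∑ i, (((Equiv.addLeft k0) k i : ℤ) : ℝ) • l i)‖ₑ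
      ≤ ∑ k ∈ hfin.toFinset, 1 := by
        refine Finset.sum_le_sum fun k _ => ?_
        rw [Real.enorm_eq_ofReal_abs]
        exact (ENNReal.ofReal_le_ofReal (bx_abs _ _)).trans (by simp)
    _ = _ := by simp

/-! ### The parametrization of the non-zero elements -/

/-- the element with the parameters `(t, k)` -/
def xi {N : ℕ} (u : Fin N → (𝓞 K)ˣ) (T : Set K) (q : T × (Fin N → ℤ)) : K :=
  (q.1 : K) * ((∏ i, u i ^ q.2 i : (𝓞 K)ˣ) : K)

lemma t_ne {N : ℕ} {u : Fin N → (𝓞 K)ˣ} {T : Set K} (hT : Reps u T) (t : T) : (t : K) ≠ 0 :=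
  fun h => hT.1 (h ▸ t.2)

lemma xi_ne {N : ℕ} {u : Fin N → (𝓞 K)ˣ} {T : Set K} (hT : Reps u T) (q : T × (Fin N → ℤ)) :
    xi u T q ≠ 0 :=
  mul_ne_zero (t_ne hT _) (NumberField.Units.coe_ne_zero _)

lemma xi_inj {N : ℕ} {u : Fin N → (𝓞 K)ˣ} {T : Set K} (hT : Reps u T) :
    Function.Injective (xi u T) := by
  intro q q' h
  obtain ⟨p, -, hp⟩ := hT.2 (xi u T q) (xi_ne hT q)
  exact (hp q rfl).trans (hp q' h).symm

lemma xi_surj {N : ℕ} {u : Fin N → (𝓞 K)ˣ} {T : Set K} (hT : Reps u T) {ξ : K} (h : ξ ≠ 0) :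
    ∃ q, xi u T q = ξ := by
  obtain ⟨p, hp, -⟩ := hT.2 ξ h
  exact ⟨p, hp.symm⟩

lemma nK_xi {N : ℕ} (u : Fin N → (𝓞 K)ˣ) (T : Set K) (q : T × (Fin N → ℤ)) :
    nK (xi u T q) = nK (q.1 : K) := by
  rw [xi, nK_mul, nK_unit, mul_one]

lemma La_xi {N : ℕ} {u : Fin N → (𝓞 K)ˣ} {T : Set K} (hT : Reps u T)
    (q : T × (Fin N → ℤ)) :
    La (xi u T q) = La (q.1 : K) + fun v => ∑ i, (q.2 i : ℝ) * Lu u i v := by
  funext v
  rw [Pi.add_apply, La, xi, log_mul_v v (t_ne hT _) (NumberField.Units.coe_ne_zero _),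
    log_prod_zpow, La]

lemma b_xi {N : ℕ} {u : Fin N → (𝓞 K)ˣ} {T : Set K} {b : K → ℂ}
    (hb : ∀ i ξ, b ((u i : K) * ξ) = b ξ) (q : T × (Fin N → ℤ)) :
    b (xi u T q) = b (q.1 : K) := by
  let S : Subgroup (𝓞 K)ˣ :=
    { carrier := {x | ∀ ξ : K, b ((x : K) * ξ) = b ξ}
      mul_mem' := by
        intro x y hx hy ξ
        rw [NumberField.Units.coe_mul, mul_assoc, hx, hy]
      one_mem' := by
        intro ξ
        rw [NumberField.Units.coe_one, one_mul]
      inv_mem' := by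
        intro x hx ξ
        have := hx (((x⁻¹ : (𝓞 K)ˣ) : K) * ξ)
        rw [← mul_assoc, ← NumberField.Units.coe_mul, mul_inv_cancel, NumberField.Units.coe_one,
          one_mul] at this
        exact this.symm }
  have h : (∏ i, u i ^ q.2 i : (𝓞 K)ˣ) ∈ S :=
    Subgroup.prod_mem S fun i _ => S.zpow_mem (hb i) _
  rw [xi, mul_comm]
  exact h _

lemma log_prod_u {N : ℕ} (u : Fin N → (𝓞 K)ˣ) (τ : Equiv.Perm (Fin N)) (v : InfinitePlace K)
    (s : Finset (Fin N)) :
    Real.log (v ((∏ i ∈ s, u (τ i) : (𝓞 K)ˣ) : K)) = ∑ i ∈ s, Lu u (τ i) v := by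
  induction s using Finset.induction_on with
  | empty => simp
  | insert a s ha ih =>
    rw [Finset.prod_insert ha, Finset.sum_insert ha, NumberField.Units.coe_mul,
      log_mul_v v (NumberField.Units.coe_ne_zero _) (NumberField.Units.coe_ne_zero _), ih]
    rfl

/-- the path of SFD -/
def PP {N : ℕ} (e : Fin (N + 1) ≃ InfinitePlace K) (u : Fin N → (𝓞 K)ˣ)
    (τ : Equiv.Perm (Fin N)) (p : Fin N → ℝ) (j : Fin (N + 1)) : Fin N → ℝ :=
  p + ∑ i ∈ Finset.univ.filter (fun i : Fin N => (i : ℕ) < j), lt e u (τ i)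

lemma lb_eq {N : ℕ} (e : Fin (N + 1) ≃ InfinitePlace K) (u : Fin N → (𝓞 K)ˣ)
    (τ : Equiv.Perm (Fin N)) (p η : InfinitePlace K → ℝ) :
    lb e (lp u τ p) η = bx (PP e u τ (fun j => p (e j.succ))) (fun j => η (e j.succ)) := by
  have h : ∀ (j : Fin (N + 1)) (i : Fin N), lp u τ p j (e i.succ) =
      PP e u τ (fun j => p (e j.succ)) j i := by
    intro j i
    rw [lp, pt, log_prod_u, PP, Pi.add_apply, Finset.sum_apply]
    rfl
  unfold lb bx
  exact Finset.prod_congr rfl fun j _ => by rw [h, h]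

/-! ### One box -/

/-- the terms of the integrand -/
def FF {N : ℕ} (e : Fin (N + 1) ≃ InfinitePlace K) (u : Fin N → (𝓞 K)ˣ) (T : Set K)
    (w : InfinitePlace K → ℝ → ℝ) (s : ℂ) (β : T → ℂ) (P : Fin (N + 1) → Fin N → ℝ)
    (q : T × (Fin N → ℤ)) (η : InfinitePlace K → ℝ) : ℂ :=
  ((bx P (fun j => η (e j.succ)) : ℝ) : ℂ) * (β q.1 * GG w s (η + La (xi u T q)))

lemma FF_int {N : ℕ} (e : Fin (N + 1) ≃ InfinitePlace K) (u : Fin N → (𝓞 K)ˣ) (T : Set K)
    {w : InfinitePlace K → ℝ → ℝ} (hw : KerP w) {s : ℂ} (hs : 0 < s.re) (β : T → ℂ)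
    (P : Fin (N + 1) → Fin N → ℝ) (q : T × (Fin N → ℤ)) : Integrable (FF e u T w s β P q) := by
  unfold FF
  refine Integrable.bdd_mul (c := 1) (((GG_int hw hs).comp_add_right _).const_mul _) ?_ ?_
  · refine Measurable.aestronglyMeasurable ?_
    exact Complex.measurable_ofReal.comp ((bx_meas P).comp
      (measurable_pi_lambda _ fun j => measurable_pi_apply _))
  · refine Eventually.of_forall fun η => ?_
    rw [Complex.norm_real]
    exact bx_abs _ _

lemma FF_sum {N : ℕ} (e : Fin (N + 1) ≃ InfinitePlace K) {u : Fin N → (𝓞 K)ˣ} (hu : LogInd u)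
    {T : Set K} (hT : Reps u T) {w : InfinitePlace K → ℝ → ℝ} (hw : KerP w) {s : ℂ}
    (hs : 0 < s.re) {β : T → ℂ} (hβ : Summable fun t => ‖β t‖) (P : Fin (N + 1) → Fin N → ℝ) :
    Summable (fun q : T × (Fin N → ℤ) => ∫ η, ‖FF e u T w s β P q η‖) := by
  obtain ⟨C, hC, hCb⟩ := bx_bound (lt e u) (lt_ind e u hu) P
  have hG : ∫⁻ η, ‖GG w s η‖ₑ ≠ ⊤ := ((GG_int hw hs).2).ne
  have h1 : ∀ q, ∫ η, ‖FF e u T w s β P q η‖ = (∫⁻ η, ‖FF e u T w s β P q η‖ₑ).toReal :=
    fun q => integral_norm_eq_lintegral_enorm (FF_int e u T hw hs β P q).1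
  simp only [h1]
  refine ENNReal.summable_toReal ?_
  have hprod := ENNReal.tsum_prod (f := fun (t : T) (k : Fin N → ℤ) =>
    ∫⁻ η, ‖FF e u T w s β P (t, k) η‖ₑ)
  simp only [Prod.mk.eta] at hprod
  rw [hprod]
  have h2 : ∀ t : T, ∑' k : Fin N → ℤ, ∫⁻ η, ‖FF e u T w s β P (t, k) η‖ₑ ≤
      ‖β t‖ₑ * (C * ∫⁻ η, ‖GG w s η‖ₑ) := by
    intro t
    have h3 : ∀ k : Fin N → ℤ, ∫⁻ η, ‖FF e u T w s β P (t, k) η‖ₑ =
        ‖β t‖ₑ * ∫⁻ η, ‖bx P ((fun j => (η - La (t : K)) (e j.succ)) -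
          ∑ i, (k i : ℝ) • lt e u i)‖ₑ * ‖GG w s η‖ₑ := by
      intro k
      rw [← lintegral_const_mul' _ _ enorm_ne_top]
      rw [← lintegral_sub_right_eq_self (μ := volume)
        (fun η => ‖FF e u T w s β P (t, k) η‖ₑ) (La (xi u T (t, k)))]
      refine lintegral_congr fun η => ?_
      unfold FF
      have h6 : ∀ r : ℝ, ‖((r : ℝ) : ℂ)‖ₑ = ‖r‖ₑ := fun r => by
        rw [enorm_eq_iff_norm_eq]; exact Complex.norm_real r
      rw [sub_add_cancel, enorm_mul, enorm_mul, h6]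
      have h4 : (fun j : Fin N => (η - La (xi u T (t, k))) (e j.succ)) =
          (fun j => (η - La (t : K)) (e j.succ)) - ∑ i, (k i : ℝ) • lt e u i := by
        funext j
        rw [La_xi hT]
        simp [lt, Finset.sum_apply]
        ring
      rw [h4]
      ring
    simp only [h3]
    rw [ENNReal.tsum_mul_left]
    refine mul_le_mul_right ?_ _
    rw [← lintegral_tsum]
    · rw [← lintegral_const_mul' _ _ hC]
      refine lintegral_mono fun η => ?_
      rw [ENNReal.tsum_mul_right]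
      exact mul_le_mul_left (hCb _) _
    · intro k
      refine AEMeasurable.mul (Measurable.aemeasurable ?_) (GG_int hw hs).1.enorm
      refine Measurable.enorm ((bx_meas P).comp ?_)
      exact measurable_pi_lambda _ fun j =>
        (((measurable_pi_apply _).sub_const _).sub_const _)
  refine ne_top_of_le_ne_top ?_ (ENNReal.tsum_le_tsum h2)
  rw [ENNReal.tsum_mul_right]
  refine ENNReal.mul_ne_top ?_ (ENNReal.mul_ne_top hC hG)
  have h5 : Summable (fun t => ‖β t‖₊) := by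
    rw [← NNReal.summable_coe]
    exact hβ
  exact ENNReal.tsum_coe_ne_top_iff_summable.2 h5

/-- the function of SFD -/
def Wt {N : ℕ} (e : Fin (N + 1) ≃ InfinitePlace K) (w : InfinitePlace K → ℝ → ℝ) (s : ℂ)
    (t : K) (y : Fin N → ℝ) : ℂ := WW e (GG w s) (y + fun j => La t (e j.succ))

lemma Wt_int {N : ℕ} (e : Fin (N + 1) ≃ InfinitePlace K) {w : InfinitePlace K → ℝ → ℝ}
    (hw : KerP w) {s : ℂ} (hs : 0 < s.re) (t : K) : Integrable (Wt e w s t) :=
  (WW_int e (GG_int hw hs)).comp_add_right _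

lemma Wt_integral {N : ℕ} (e : Fin (N + 1) ≃ InfinitePlace K) {w : InfinitePlace K → ℝ → ℝ}
    (hw : KerP w) {s : ℂ} (hs : 0 < s.re) (t : K) : ∫ y, Wt e w s t y = ∫ η, GG w s η := by
  unfold Wt
  rw [integral_add_right_eq_self (μ := volume) (WW e (GG w s)), WW_integral e (GG_int hw hs)]

lemma FF_val {N : ℕ} (e : Fin (N + 1) ≃ InfinitePlace K) {u : Fin N → (𝓞 K)ˣ}
    {T : Set K} (hT : Reps u T) {w : InfinitePlace K → ℝ → ℝ} (hw : KerP w) {s : ℂ}
    (hs : 0 < s.re) (β : T → ℂ) (P : Fin (N + 1) → Fin N → ℝ) (t : T) (k : Fin N → ℤ) :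
    ∫ η, FF e u T w s β P (t, k) η =
      β t * ∫ x, ((bx P x : ℝ) : ℂ) * Wt e w s t (x + ∑ i, (k i : ℝ) • lt e u i) := by
  have h1 := WW_fub e (f := fun η => β t * GG w s (η + La (xi u T (t, k))))
    (fun y => ((bx P y : ℝ) : ℂ)) (FF_int e u T hw hs β P (t, k))
  refine Eq.trans h1 ?_
  rw [← integral_const_mul]
  refine integral_congr_ae (Eventually.of_forall fun y => ?_)
  have h2 : WW e (fun η => β t * GG w s (η + La (xi u T (t, k)))) y =
      β t * WW e (fun η => GG w s (η + La (xi u T (t, k)))) y := by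
    unfold WW
    rw [← integral_const_mul]
  simp only []
  rw [h2, WW_trans, Wt]
  have h3 : (y + fun j => La (xi u T (t, k)) (e j.succ)) =
      (y + ∑ i, (k i : ℝ) • lt e u i + fun j => La (t : K) (e j.succ)) := by
    funext j
    rw [La_xi hT]
    simp [lt, Finset.sum_apply]
    ring
  rw [h3]
  ring

/-- the integrand as a series -/
lemma ff_series {N : ℕ} (e : Fin (N + 1) ≃ InfinitePlace K) {u : Fin N → (𝓞 K)ˣ}
    {T : Set K} (hT : Reps u T) (w : InfinitePlace K → ℝ → ℝ) (s : ℂ) {b : K → ℂ}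
    (hb : ∀ i ξ, b ((u i : K) * ξ) = b ξ) (P : Fin (N + 1) → Fin N → ℝ)
    (η : InfinitePlace K → ℝ) :
    ((bx P (fun j => η (e j.succ)) : ℝ) : ℂ) * ff w b η *
        exp (s * ((∑ v : InfinitePlace K, (v.mult : ℝ) * η v : ℝ) : ℂ)) =
      ∑' q : T × (Fin N → ℤ),
        FF e u T w s (fun t => b t.1 * (nK t.1 : ℂ) ^ (-1 - s)) P q η := by
  classical
  unfold ff
  rw [mul_assoc, ← tsum_mul_right, ← tsum_mul_left]
  rw [← (xi_inj hT).tsum_eq]
  · refine tsum_congr fun q => ?_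
    rw [if_neg (xi_ne hT q), FF]
    congr 1
    rw [term_eq w (b (xi u T q)) s (xi_ne hT q) η (nK_pos (xi_ne hT q)) (log_nK (xi_ne hT q)),
      nK_xi, b_xi hb]
  · intro ξ hξ
    have h0 : ξ ≠ 0 := by
      rintro rfl
      simp at hξ
    exact xi_surj hT h0

lemma beta_sum {N : ℕ} (e : Fin (N + 1) ≃ InfinitePlace K) {u : Fin N → (𝓞 K)ˣ}
    (hu : LogInd u) {T : Set K} (hT : Reps u T) {b : K → ℂ} (B : FI K) (C : ℝ) (m : ℕ)
    (hb : ∀ ξ : K, ξ ≠ 0 → ‖b ξ‖ ≤ C * nK ξ ^ m ∧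
      (b ξ ≠ 0 → ξ ∈ (B : FractionalIdeal (𝓞 K)⁰ K))) {s : ℂ} (hs : (m : ℝ) < s.re) :
    Summable (fun t : T => ‖b t.1 * (nK t.1 : ℂ) ^ (-1 - s)‖) := by
  have h1 := sumT e u hu B T hT (1 + s.re - m) (by linarith)
  have h2 : Summable (fun t : {t : T // (t : K) ∈ (B : FractionalIdeal (𝓞 K)⁰ K)} =>
      ‖b (t.1 : K) * (nK (t.1 : K) : ℂ) ^ (-1 - s)‖) := by
    refine Summable.of_nonneg_of_le (fun t => norm_nonneg _) (fun t => ?_) (h1.mul_left C)
    have hn := nK_pos (t_ne hT t.1)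
    rw [norm_mul, Complex.norm_cpow_eq_rpow_re_of_pos hn]
    calc ‖b (t.1 : K)‖ * nK (t.1 : K) ^ (-1 - s).re
        ≤ (C * nK (t.1 : K) ^ m) * nK (t.1 : K) ^ (-1 - s).re :=
          mul_le_mul_of_nonneg_right (hb _ (t_ne hT t.1)).1 (by positivity)
      _ = C * nK (t.1 : K) ^ (-(1 + s.re - m)) := by
          rw [mul_assoc, ← Real.rpow_natCast, ← Real.rpow_add hn]
          congr 2
          simp
          ring
  have h3 := (summable_subtype_iff_indicator (f := fun t : T =>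
    ‖b t.1 * (nK t.1 : ℂ) ^ (-1 - s)‖)
    (s := {t : T | (t : K) ∈ (B : FractionalIdeal (𝓞 K)⁰ K)})).1 h2
  refine h3.congr fun t => ?_
  by_cases ht : (t : K) ∈ (B : FractionalIdeal (𝓞 K)⁰ K)
  · rw [Set.indicator_of_mem (by exact ht)]
  · rw [Set.indicator_of_notMem (by exact ht)]
    have : b (t : K) = 0 := by
      by_contra h
      exact ht ((hb _ (t_ne hT t)).2 h)
    rw [this]
    simp

/-- one box -/
lemma one_box {N : ℕ} (e : Fin (N + 1) ≃ InfinitePlace K) {u : Fin N → (𝓞 K)ˣ} (hu : LogInd u)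
    {T : Set K} (hT : Reps u T) {w : InfinitePlace K → ℝ → ℝ} (hw : KerP w) {s : ℂ}
    (hs : 0 < s.re) {b : K → ℂ} (hb : ∀ i ξ, b ((u i : K) * ξ) = b ξ)
    (hβ : Summable fun t : T => ‖b t.1 * (nK t.1 : ℂ) ^ (-1 - s)‖)
    (P : Fin (N + 1) → Fin N → ℝ) :
    (Summable fun t : T => b t.1 * (nK t.1 : ℂ) ^ (-1 - s) * ∑' k : Fin N → ℤ,
      ∫ x, ((bx P x : ℝ) : ℂ) * Wt e w s t (x + ∑ i, (k i : ℝ) • lt e u i)) ∧
    ∫ η : InfinitePlace K → ℝ, ((bx P (fun j => η (e j.succ)) : ℝ) : ℂ) * ff w b η *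
        exp (s * ((∑ v : InfinitePlace K, (v.mult : ℝ) * η v : ℝ) : ℂ)) =
      ∑' t : T, b t.1 * (nK t.1 : ℂ) ^ (-1 - s) * ∑' k : Fin N → ℤ,
        ∫ x, ((bx P x : ℝ) : ℂ) * Wt e w s t (x + ∑ i, (k i : ℝ) • lt e u i) := by
  have : Countable K := countable_K
  set β : T → ℂ := fun t => b t.1 * (nK t.1 : ℂ) ^ (-1 - s) with hβd
  have h1 := FF_sum e hu hT hw hs hβ P
  have h2 := FF_int e u T hw hs β P
  have h3 : Summable (fun q : T × (Fin N → ℤ) => ∫ η, FF e u T w s β P q η) :=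
    Summable.of_norm_bounded h1 fun q => norm_integral_le_integral_norm _
  have h4 := integral_tsum_of_summable_integral_norm h2 h1
  have h5 : ∀ t : T, ∑' k : Fin N → ℤ, ∫ η, FF e u T w s β P (t, k) η =
      β t * ∑' k : Fin N → ℤ,
        ∫ x, ((bx P x : ℝ) : ℂ) * Wt e w s t (x + ∑ i, (k i : ℝ) • lt e u i) := by
    intro t
    rw [← tsum_mul_left]
    exact tsum_congr fun k => FF_val e hT hw hs β P t k
  constructor
  · have h6 := h3.prod
    refine h6.congr fun t => ?_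
    exact h5 t
  · have h7 : ∫ η : InfinitePlace K → ℝ, ((bx P (fun j => η (e j.succ)) : ℝ) : ℂ) * ff w b η *
        exp (s * ((∑ v : InfinitePlace K, (v.mult : ℝ) * η v : ℝ) : ℂ)) =
        ∫ η, ∑' q, FF e u T w s β P q η :=
      integral_congr_ae (Eventually.of_forall fun η => ff_series e hT w s hb P η)
    rw [h7, ← h4, h3.tsum_prod]
    exact tsum_congr h5

theorem ffb_proof (hS : SfdStatement) : FfbStatement := by
  intro K _ _ w hw N e u hu
  obtain ⟨ε, hε, hsfd⟩ := hS N (lt e u) (lt_ind e u hu)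
  have hεε : ε * ε = 1 := by
    rcases hε with h | h <;> rw [h] <;> ring
  refine ⟨ε, hε, fun b hb hinv T hT => ?_⟩
  obtain ⟨B, C, m, hBC⟩ := hb
  refine ⟨m + 1, by positivity, fun s hs => ?_⟩
  have hs1 : (m : ℝ) < s.re := by linarith
  have hs0 : 0 < s.re := by
    have : (0 : ℝ) ≤ m := Nat.cast_nonneg _
    linarith
  have hβ := beta_sum e hu hT B C m hBC hs1
  refine ⟨hβ.of_norm, fun p => ?_⟩
  set p' : Fin N → ℝ := fun j => p (e j.succ) with hp'
  have hbox : ∀ τ : Equiv.Perm (Fin N), _ := fun τ =>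
    one_box e hu hT hw hs0 hinv hβ (PP e u τ p')
  have h1 : ∀ τ : Equiv.Perm (Fin N),
      ∫ η : InfinitePlace K → ℝ, ((lb e (lp u τ p) η : ℝ) : ℂ) * ff w b η *
        exp (s * ((∑ v : InfinitePlace K, (v.mult : ℝ) * η v : ℝ) : ℂ)) =
      ∑' t : T, b t.1 * (nK t.1 : ℂ) ^ (-1 - s) * ∑' k : Fin N → ℤ,
        ∫ x, ((bx (PP e u τ p') x : ℝ) : ℂ) * Wt e w s t (x + ∑ i, (k i : ℝ) • lt e u i) := by
    intro τ
    rw [← (hbox τ).2]
    exact integral_congr_ae (Eventually.of_forall fun η => by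
      simp only []
      rw [lb_eq])
  simp only [h1]
  have h2 : ∑ τ : Equiv.Perm (Fin N), ((Equiv.Perm.sign τ : ℤ) : ℂ) *
      ∑' t : T, b t.1 * (nK t.1 : ℂ) ^ (-1 - s) * ∑' k : Fin N → ℤ,
        ∫ x, ((bx (PP e u τ p') x : ℝ) : ℂ) * Wt e w s t (x + ∑ i, (k i : ℝ) • lt e u i) =
      ∑' t : T, ∑ τ : Equiv.Perm (Fin N), ((Equiv.Perm.sign τ : ℤ) : ℂ) *
      (b t.1 * (nK t.1 : ℂ) ^ (-1 - s) * ∑' k : Fin N → ℤ,
        ∫ x, ((bx (PP e u τ p') x : ℝ) : ℂ) * Wt e w s t (x + ∑ i, (k i : ℝ) • lt e u i)) := by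
    rw [Summable.tsum_finsetSum (fun τ _ => (hbox τ).1.mul_left _)]
    exact Finset.sum_congr rfl fun τ _ => by rw [tsum_mul_left]
  have h3 : ∀ t : T, ∑ τ : Equiv.Perm (Fin N), ((Equiv.Perm.sign τ : ℤ) : ℂ) *
      (b t.1 * (nK t.1 : ℂ) ^ (-1 - s) * ∑' k : Fin N → ℤ,
        ∫ x, ((bx (PP e u τ p') x : ℝ) : ℂ) * Wt e w s t (x + ∑ i, (k i : ℝ) • lt e u i)) =
      ε * (∏ v : InfinitePlace K, mellin (fun t => (w v t : ℂ)) ((v.mult : ℂ) * s)) *
        (b t.1 * (nK t.1 : ℂ) ^ (-1 - s)) := by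
    intro t
    have h4 := (hsfd p' (Wt e w s t) (Wt_int e hw hs0 t)).2
    rw [Wt_integral e hw hs0, GG_integral] at h4
    rw [← h4, Finset.sum_mul]
    refine Finset.sum_congr rfl fun τ _ => ?_
    unfold PP
    ring
  rw [h2, tsum_congr h3, tsum_mul_left]
  calc _ = (ε * ε) * ((∏ v : InfinitePlace K, mellin (fun t => (w v t : ℂ)) ((v.mult : ℂ) * s)) *
        ∑' t : T, b t.1 * (nK t.1 : ℂ) ^ (-1 - s)) := by rw [hεε, one_mul]
    _ = _ := by ring

end

end Pool.Agent.Lib.MP_50bb2e_nt.Anf.Ffb
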