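import Pool.Agent.Lib.MP_50bb2e_nt.Anf.Iface
import Pool.Agent.Lib.MP_50bb2e_nt.Imq.Core
import Pool.Agent.Lib.MP_50bb2e_nt.Imq.Finc

/-!
MP_50bb2e_nt, board ANF, row FINN: the final statement from the integrality.
-/

namespace Pool.Agent.Lib.MP_50bb2e_nt.Anf.Finn

open Complex MeasureTheory Filter Topology NumberField IsDedekindDomain
open Pool.Agent.Lib.MP_50bb2e_nt.Imq (CValI SettingC NonVanC)
open Pool.Agent.Lib.MP_50bb2e_nt.PP (Pr nm Cop QChar IsRayUnion Fam Closed)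

theorem finn_proof (hpsi : PsinStatement) : FinalStatement := by
  intro K _ _ v hna h2 ι _ _ n D c ψ hf hl
  choose l hl0 hlv using hl
  have h := fun t => hpsi K (n t) (c t) (hf t).1 (hf t).2.2.1 v hna h2 (D t) (ψ t)
    (hf t).2.1 (hf t).2.2.2
  choose B hB using h
  have hpos : 0 < ∏ t, v (l t) := Finset.prod_pos (fun t _ => v.pos (hl0 t))
  obtain ⟨j, hj⟩ := Imq.Finc.exists_exp (v 2) (∏ t, B t) (∏ t, v (l t)) (v.nonneg 2) h2 hpos
  refine ⟨j, fun P hP => ?_⟩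
  have hS := fun t => hB t P (fun u hu => ⟨(hP u hu).1, ((hP u hu).2 t).1, ((hP u hu).2 t).2.1,
      ((hP u hu).2 t).2.2⟩)
  have hm := Imq.Core.mnc K ι (fun t a => c t a * ψ t a) v B P (fun t u => ψ t u.asIdeal ^ 2) j l
    hS hlv hj
  exact ⟨hm.1, hm.2.1, fun S hS hdiv t ht => (hm.2.2 S hS hdiv).2.2 t ht,
    fun S hSf hC => Imq.Core.lower K ι (fun t a => c t a * ψ t a) v B P
      (fun t u => ψ t u.asIdeal ^ 2) j l hS hlv hj S hSf hC⟩

end Pool.Agent.Lib.MP_50bb2e_nt.Anf.Finn
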