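import Pool.Agent.Lib.MP_50bb2e_nt.Anf.Iface
import Pool.Agent.Lib.MP_50bb2e_nt.Imq.Gact

/-!
MP_50bb2e_nt, board ANF, row GAS: the group of the component `A`, its action on the cusps and on
the horoballs. Paper: Anf/Paper.md
-/

namespace Pool.Agent.Lib.MP_50bb2e_nt.Anf.Gas

open Complex NumberField Filter Topology
open scoped ComplexConjugate nonZeroDivisors LinearAlgebra.Projectivization
open Pool.Agent.Lib.MP_50bb2e_nt.Imq (FI SLK SLC toC actz acty den InG)
open Pool.Agent.Lib.MP_50bb2e_nt.Bia.Act (dn dn_pos key_den)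
open Pool.Agent.Lib.MP_50bb2e_nt.Imq.Gact (det_c mul_c den_eq den_pos)

variable {K : Type} [Field K]

/-! ### The group -/

theorem smul0 (g : SLK K) (w : Fin 2 → K) : (g • w) 0 = g 0 0 * w 0 + g 0 1 * w 1 := by
  simp [Matrix.SpecialLinearGroup.smul_def, Matrix.mulVec, dotProduct, Fin.sum_univ_two]

theorem smul1 (g : SLK K) (w : Fin 2 → K) : (g • w) 1 = g 1 0 * w 0 + g 1 1 * w 1 := by
  simp [Matrix.SpecialLinearGroup.smul_def, Matrix.mulVec, dotProduct, Fin.sum_univ_two]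

theorem mul_K (g k : SLK K) (i j : Fin 2) :
    (g * k) i j = g i 0 * k 0 j + g i 1 * k 1 j := by
  rw [Matrix.SpecialLinearGroup.coe_mul, Matrix.mul_apply, Fin.sum_univ_two]

theorem det_K (g : SLK K) : g 0 0 * g 1 1 - g 0 1 * g 1 0 = 1 := by
  have h := g.2
  rw [Matrix.det_fin_two] at h
  exact h

theorem idl_le (n : Ideal (𝓞 K)) : (n : FractionalIdeal (𝓞 K)⁰ K) ≤ 1 :=
  FractionalIdeal.coeIdeal_le_one

variable [NumberField K]

theorem mul_inv_A (A : FI K) : (A : FractionalIdeal (𝓞 K)⁰ K) *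
    ((A⁻¹ : FI K) : FractionalIdeal (𝓞 K)⁰ K) = 1 := by
  rw [← Units.val_mul, mul_inv_cancel, Units.val_one]

theorem mem1 {x y : K} (hx : x ∈ (1 : FractionalIdeal (𝓞 K)⁰ K)) {I : FractionalIdeal (𝓞 K)⁰ K}
    (hy : y ∈ I) : x * y ∈ I := by
  have := FractionalIdeal.mul_mem_mul hx hy
  rwa [one_mul] at this

theorem memr {x y : K} (hy : y ∈ (1 : FractionalIdeal (𝓞 K)⁰ K)) {I : FractionalIdeal (𝓞 K)⁰ K}
    (hx : x ∈ I) : x * y ∈ I := by
  rw [mul_comm]
  exact mem1 hy hx

theorem memn {n : Ideal (𝓞 K)} {A : FI K} {x y : K}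
    (hx : x ∈ (n : FractionalIdeal (𝓞 K)⁰ K) * (A : FractionalIdeal (𝓞 K)⁰ K))
    (hy : y ∈ ((A⁻¹ : FI K) : FractionalIdeal (𝓞 K)⁰ K)) :
    x * y ∈ (1 : FractionalIdeal (𝓞 K)⁰ K) := by
  have h := FractionalIdeal.mul_mem_mul hx hy
  rw [mul_assoc, mul_inv_A, mul_one] at h
  exact idl_le n h

theorem one_mem' : (1 : K) ∈ (1 : FractionalIdeal (𝓞 K)⁰ K) :=
  FractionalIdeal.one_mem_one _

theorem add_mem' {x y : K} {I : FractionalIdeal (𝓞 K)⁰ K} (hx : x ∈ I) (hy : y ∈ I) :
    x + y ∈ I := Submodule.add_mem (I : Submodule (𝓞 K) K) hx hy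

theorem neg_mem' {x : K} {I : FractionalIdeal (𝓞 K)⁰ K} (hx : x ∈ I) : -x ∈ I :=
  Submodule.neg_mem (I : Submodule (𝓞 K) K) hx

theorem zero_mem' {I : FractionalIdeal (𝓞 K)⁰ K} : (0 : K) ∈ I :=
  Submodule.zero_mem (I : Submodule (𝓞 K) K)

/-- the group of the component `A` -/
def Gam (n : Ideal (𝓞 K)) (A : FI K) : Subgroup (SLK K) where
  carrier := {g | InG n A g}
  one_mem' := by
    refine ⟨?_, ?_, ?_, ?_⟩
    · simp
    · simpa using zero_mem' (K := K)
    · simpa using zero_mem' (K := K)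
    · simp
  mul_mem' := by
    rintro g h ⟨ha, hb, hc, hd⟩ ⟨ha', hb', hc', hd'⟩
    refine ⟨?_, ?_, ?_, ?_⟩
    · rw [mul_K]
      refine add_mem' (mem1 ha ha') ?_
      rw [mul_comm]
      exact memn hc' hb
    · rw [mul_K]
      exact add_mem' (mem1 ha hb') (memr hd' hb)
    · rw [mul_K]
      exact add_mem' (memr ha' hc) (mem1 hd hc')
    · rw [mul_K]
      exact add_mem' (memn hc hb') (mem1 hd hd')
  inv_mem' := by
    rintro g ⟨ha, hb, hc, hd⟩
    have e : ((g⁻¹ : SLK K) : Matrix (Fin 2) (Fin 2) K) = !![g 1 1, -g 0 1; -g 1 0, g 0 0] := by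
      rw [Matrix.SpecialLinearGroup.coe_inv, Matrix.adjugate_fin_two]
    refine ⟨?_, ?_, ?_, ?_⟩
    · rw [e]
      exact hd
    · rw [e]
      exact neg_mem' hb
    · rw [e]
      exact neg_mem' hc
    · rw [e]
      exact ha

theorem mem_Gam {n : Ideal (𝓞 K)} {A : FI K} {g : SLK K} : g ∈ Gam n A ↔ InG n A g := Iff.rfl

theorem lam_smul {n : Ideal (𝓞 K)} {A : FI K} {g : SLK K} (hg : g ∈ Gam n A) {w : Fin 2 → K}
    (hw : Lam A w) : Lam A (g • w) := by
  obtain ⟨ha, hb, hc, hd⟩ := hg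
  obtain ⟨h0, h1⟩ := hw
  constructor
  · rw [smul0]
    refine add_mem' (mem1 ha h0) ?_
    rw [mul_comm]
    have h := FractionalIdeal.mul_mem_mul h1 hb
    rwa [mul_inv_A] at h
  · rw [smul1]
    refine add_mem' (memr h0 ?_) (mem1 hd h1)
    have h : (n : FractionalIdeal (𝓞 K)⁰ K) * (A : FractionalIdeal (𝓞 K)⁰ K) ≤
        (A : FractionalIdeal (𝓞 K)⁰ K) := by
      calc (n : FractionalIdeal (𝓞 K)⁰ K) * (A : FractionalIdeal (𝓞 K)⁰ K) ≤
          1 * (A : FractionalIdeal (𝓞 K)⁰ K) := mul_le_mul_left (idl_le n) _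
        _ = _ := one_mul _
    exact h hc

/-! ### The height form -/

theorem qv_dn (v : InfinitePlace K) (p : ℂ × ℝ) (w : Fin 2 → K) :
    qv v p w = dn (-v.embedding (w 1)) (v.embedding (w 0)) p.1 p.2 / p.2 := by
  have e : v.embedding (w 0) - v.embedding (w 1) * p.1 =
      -v.embedding (w 1) * p.1 + v.embedding (w 0) := by ring
  unfold qv dn
  rw [e, norm_neg]

theorem qv_act (g : SLK K) (x : Pt K) (hx : Pos x) (v : InfinitePlace K) (w : Fin 2 → K) :
    qv v (act g x v) (g • w) = qv v (x v) w := by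
  have hy := (hx v).1
  have hD := den_pos (toC v.embedding g) (x v).1 (x v).2 hy
  have hdet := det_c (toC v.embedding g)
  have k := key_den (-v.embedding ((g • w) 1)) (v.embedding ((g • w) 0))
    (toC v.embedding g 0 0) (toC v.embedding g 0 1) (toC v.embedding g 1 0)
    (toC v.embedding g 1 1) (x v).1 (x v).2 hdet hD.ne'
  have e : ∀ i j, toC v.embedding g i j = v.embedding (g i j) := fun i j => rfl
  have e1 : -v.embedding ((g • w) 1) * toC v.embedding g 0 0 +
      v.embedding ((g • w) 0) * toC v.embedding g 1 0 = -v.embedding (w 1) := by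
    rw [smul0, smul1, map_add, map_mul, map_mul, map_add, map_mul, map_mul]
    simp only [e] at hdet ⊢
    linear_combination (-v.embedding (w 1)) * hdet
  have e2 : -v.embedding ((g • w) 1) * toC v.embedding g 0 1 +
      v.embedding ((g • w) 0) * toC v.embedding g 1 1 = v.embedding (w 0) := by
    rw [smul0, smul1, map_add, map_mul, map_mul, map_add, map_mul, map_mul]
    simp only [e] at hdet ⊢
    linear_combination (v.embedding (w 0)) * hdet
  rw [e1, e2] at k
  have k' : dn (-v.embedding ((g • w) 1)) (v.embedding ((g • w) 0)) (act g x v).1 (act g x v).2 *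
      den (toC v.embedding g) (x v).1 (x v).2 =
      dn (-v.embedding (w 1)) (v.embedding (w 0)) (x v).1 (x v).2 := k
  have e3 : (act g x v).2 = (x v).2 / den (toC v.embedding g) (x v).1 (x v).2 := rfl
  rw [qv_dn, qv_dn, ← k']
  nth_rewrite 2 [e3]
  field_simp

theorem qx_act (g : SLK K) (x : Pt K) (hx : Pos x) (w : Fin 2 → K) :
    qx (act g x) (g • w) = qx x w := by
  unfold qx
  exact Finset.prod_congr rfl fun v _ => by rw [qv_act g x hx v w]

theorem near_act {n : Ideal (𝓞 K)} {A : FI K} {g : SLK K} (hg : g ∈ Gam n A) {R : ℝ}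
    {c : ℙ K (Fin 2 → K)} {x : Pt K} (hx : Pos x) (h : Near A R c x) :
    Near A R (g • c) (act g x) := by
  obtain ⟨w, hw, rfl, hl, hR⟩ := h
  refine ⟨g • w, (smul_ne_zero_iff_ne g).mpr hw, ?_, lam_smul hg hl, ?_⟩
  · rw [Projectivization.smul_mk]
  · rw [qx_act g x hx]
    exact hR

/-! ### The horoballs are non-empty -/

theorem scale (I : FractionalIdeal (𝓞 K)⁰ K) (hI : I ≠ 0) (x : K) :
    ∃ d : 𝓞 K, d ≠ 0 ∧ (d : K) * x ∈ I := by
  obtain ⟨a, b, hb, rfl⟩ := IsFractionRing.div_surjective (𝓞 K) x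
  obtain ⟨y, hy, hyI⟩ := FractionalIdeal.exists_ne_zero_mem_isInteger hI
  have hb0 : b ≠ 0 := nonZeroDivisors.ne_zero hb
  have hb1 : algebraMap (𝓞 K) K b ≠ 0 := by
    rw [Ne, FaithfulSMul.algebraMap_eq_zero_iff]
    exact hb0
  refine ⟨b * y, mul_ne_zero hb0 hy, ?_⟩
  have e : ((b * y : 𝓞 K) : K) * (algebraMap (𝓞 K) K a / algebraMap (𝓞 K) K b) =
      algebraMap (𝓞 K) K a * algebraMap (𝓞 K) K y := by
    have e1 : ((b * y : 𝓞 K) : K) = algebraMap (𝓞 K) K b * algebraMap (𝓞 K) K y :=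
      map_mul (algebraMap (𝓞 K) K) b y
    rw [e1]
    field_simp
  rw [e, ← Algebra.smul_def]
  exact Submodule.smul_mem (I : Submodule (𝓞 K) K) a hyI

theorem scale_lam (A : FI K) (w : Fin 2 → K) :
    ∃ d : K, d ≠ 0 ∧ Lam A (d • w) := by
  obtain ⟨d, hd, h⟩ := scale (1 : FractionalIdeal (𝓞 K)⁰ K) one_ne_zero (w 0)
  obtain ⟨d', hd', h'⟩ := scale (A : FractionalIdeal (𝓞 K)⁰ K) (Units.ne_zero A) (w 1)
  have i0 : ∀ b : 𝓞 K, b ≠ 0 → (b : K) ≠ 0 := by
    intro b hb
    rw [Ne, FaithfulSMul.algebraMap_eq_zero_iff]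
    exact hb
  refine ⟨(d : K) * d', mul_ne_zero (i0 d hd) (i0 d' hd'), ?_, ?_⟩
  · have e : (((d : K) * d') • w) 0 = (d' : K) * ((d : K) * w 0) := by
      simp only [Pi.smul_apply, smul_eq_mul]
      ring
    rw [e]
    exact mem1 ((FractionalIdeal.mem_one_iff _).2 ⟨d', rfl⟩) h
  · have e : (((d : K) * d') • w) 1 = (d : K) * ((d' : K) * w 1) := by
      simp only [Pi.smul_apply, smul_eq_mul]
      ring
    rw [e]
    exact mem1 ((FractionalIdeal.mem_one_iff _).2 ⟨d, rfl⟩) h'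

theorem real_im {v : InfinitePlace K} (hv : v.IsReal) (x : K) : (v.embedding x).im = 0 := by
  have h := RingHom.congr_fun (InfinitePlace.isReal_iff.1 hv) x
  rwa [ComplexEmbedding.conjugate_coe_eq, Complex.conj_eq_iff_im] at h

theorem near_ex (A : FI K) (c : ℙ K (Fin 2 → K)) (R : ℝ) (hR : 0 < R) :
    ∃ x : Pt K, Pos x ∧ Near A R c x := by
  obtain ⟨w, hw, hc, hl⟩ : ∃ (w : Fin 2 → K) (hw : w ≠ 0), Projectivization.mk K w hw = c ∧
      Lam A w := by
    obtain ⟨d, hd, h⟩ := scale_lam A c.rep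
    refine ⟨d • c.rep, smul_ne_zero hd c.rep_nonzero, ?_, h⟩
    exact ((Projectivization.mk_eq_mk_iff' K _ _ _ c.rep_nonzero).2 ⟨d, rfl⟩).trans
      (Projectivization.mk_rep c)
  suffices h : ∃ x : Pt K, Pos x ∧ qx x w < R by
    obtain ⟨x, hx, hq⟩ := h
    exact ⟨x, hx, w, hw, hc, hl, hq⟩
  have h0 : (∏ v : InfinitePlace K, (0 : ℝ) ^ v.mult) < R := by
    rw [Finset.prod_eq_zero (Finset.mem_univ (Classical.arbitrary (InfinitePlace K)))
      (zero_pow InfinitePlace.mult_ne_zero)]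
    exact hR
  by_cases h1 : w 1 = 0
  · -- the cusp at infinity
    have ht : Tendsto (fun t : ℝ => qx (K := K) (fun _ => ((0 : ℂ), t)) w) atTop
        (𝓝 (∏ v : InfinitePlace K, (0 : ℝ) ^ v.mult)) := by
      unfold qx
      refine tendsto_finsetProd _ fun v _ => Tendsto.pow ?_ _
      have e : (fun t : ℝ => qv v ((0 : ℂ), t) w) =
          fun t : ℝ => ‖v.embedding (w 0)‖ ^ 2 / t := by
        funext t
        simp [qv, h1]
      rw [e]
      exact tendsto_const_nhds.div_atTop tendsto_id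
    obtain ⟨t, ht1, ht2⟩ := ((ht.eventually (gt_mem_nhds h0)).and
      (eventually_gt_atTop (0 : ℝ))).exists
    exact ⟨fun _ => ((0 : ℂ), t), fun v => ⟨ht2, fun _ => by simp⟩, ht1⟩
  · have ht : Tendsto (fun t : ℝ => qx (K := K) (fun v => (v.embedding (w 0 / w 1), t)) w) (𝓝[>] 0)
        (𝓝 (∏ v : InfinitePlace K, (0 : ℝ) ^ v.mult)) := by
      unfold qx
      refine tendsto_finsetProd _ fun v _ => Tendsto.pow ?_ _
      have e : ∀ t ∈ Set.Ioi (0 : ℝ), ‖v.embedding (w 1)‖ ^ 2 * t =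
          qv v (v.embedding (w 0 / w 1), t) w := by
        intro t ht
        have ht' : t ≠ 0 := ne_of_gt ht
        have h2 : v.embedding (w 1) ≠ 0 := by
          rw [Ne, map_eq_zero]
          exact h1
        have e2 : v.embedding (w 0) - v.embedding (w 1) * v.embedding (w 0 / w 1) = 0 := by
          rw [map_div₀, mul_div_cancel₀ _ h2, sub_self]
        unfold qv
        rw [e2, norm_zero]
        field_simp
        ring
      have e3 : Tendsto (fun t : ℝ => ‖v.embedding (w 1)‖ ^ 2 * t) (𝓝[>] 0)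
          (𝓝 (‖v.embedding (w 1)‖ ^ 2 * 0)) :=
        (tendsto_id.mono_left nhdsWithin_le_nhds).const_mul _
      rw [mul_zero] at e3
      exact e3.congr' (eventually_nhdsWithin_of_forall e)
    obtain ⟨t, ht1, ht2⟩ := ((ht.eventually (gt_mem_nhds h0)).and
      (eventually_mem_nhdsWithin)).exists
    exact ⟨fun v => (v.embedding (w 0 / w 1), t), fun v => ⟨ht2, fun hv => real_im hv _⟩, ht1⟩

/-! ### The stabilizers of two cusps -/

theorem fg_of_inj {S U : Type} [Group S] [CommGroup U] [hU : Module.Finite ℤ (Additive U)]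
    (ψ : S →* U) (hψ : Function.Injective ψ) : Group.FG S := by
  have h1 : (AddSubgroup.toIntSubmodule (Subgroup.toAddSubgroup ψ.range)).FG :=
    IsNoetherian.noetherian _
  have h2 : ψ.range.FG := by
    rw [Subgroup.fg_iff_add_fg]
    rw [Submodule.fg_iff_addSubgroup_fg, AddSubgroup.toIntSubmodule_toAddSubgroup] at h1
    exact h1
  have h3 : Group.FG ψ.range := (Group.fg_iff_subgroup_fg _).2 h2
  exact Group.fg_of_surjective (f := (ψ.ofInjective hψ).symm.toMonoidHom)
    (ψ.ofInjective hψ).symm.surjective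

section stab

variable (w w' : Fin 2 → K)

/-- the determinant -/
def dt : K := w 0 * w' 1 - w 1 * w' 0

theorem dt_ne (hw : w ≠ 0) (hw' : w' ≠ 0)
    (h : Projectivization.mk K w hw ≠ Projectivization.mk K w' hw') : dt w w' ≠ 0 := by
  intro h0
  unfold dt at h0
  apply h
  rw [Projectivization.mk_eq_mk_iff']
  by_cases h2 : w' 0 = 0
  · have h3 : w' 1 ≠ 0 := by
      intro h3
      apply hw'
      funext i
      fin_cases i
      · exact h2
      · exact h3
    refine ⟨w 1 / w' 1, ?_⟩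
    rw [h2, mul_zero, sub_zero] at h0
    have h4 : w 0 = 0 := (mul_eq_zero.1 h0).resolve_right h3
    funext i
    fin_cases i
    · simp [h2, h4]
    · simp [h3]
  · refine ⟨w 0 / w' 0, ?_⟩
    funext i
    fin_cases i
    · simp [h2]
    · simp only [Fin.mk_one, Pi.smul_apply, smul_eq_mul]
      field_simp
      linear_combination h0

theorem ext2 {w w' : Fin 2 → K} (hD : dt w w' ≠ 0) {g h : SLK K} (h1 : g • w = h • w)
    (h2 : g • w' = h • w') : g = h := by
  have a0 := congrFun h1 0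
  have a1 := congrFun h1 1
  have b0 := congrFun h2 0
  have b1 := congrFun h2 1
  rw [smul0, smul0] at a0 b0
  rw [smul1, smul1] at a1 b1
  unfold dt at hD
  have e00 : g 0 0 = h 0 0 := by
    apply mul_right_cancel₀ hD
    linear_combination w' 1 * a0 - w 1 * b0
  have e01 : g 0 1 = h 0 1 := by
    apply mul_right_cancel₀ hD
    linear_combination w 0 * b0 - w' 0 * a0
  have e10 : g 1 0 = h 1 0 := by
    apply mul_right_cancel₀ hD
    linear_combination w' 1 * a1 - w 1 * b1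
  have e11 : g 1 1 = h 1 1 := by
    apply mul_right_cancel₀ hD
    linear_combination w 0 * b1 - w' 0 * a1
  ext i j
  fin_cases i <;> fin_cases j
  · exact e00
  · exact e01
  · exact e10
  · exact e11

/-- the eigenvalue -/
def ev (g : SLK K) : K := dt (g • w) w' / dt w w'

theorem ev_eq {w w' : Fin 2 → K} (hD : dt w w' ≠ 0) {g : SLK K} {u : K} (h : g • w = u • w) :
    ev w w' g = u := by
  unfold ev
  rw [h, div_eq_iff hD]
  unfold dt
  simp only [Pi.smul_apply, smul_eq_mul]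
  ring

theorem det_rel {w w' : Fin 2 → K} (hD : dt w w' ≠ 0) {g : SLK K} {u u' : K} (h : g • w = u • w)
    (h' : g • w' = u' • w') : u * u' = 1 ∧ u + u' = g 0 0 + g 1 1 := by
  have a0 := congrFun h 0
  have a1 := congrFun h 1
  have b0 := congrFun h' 0
  have b1 := congrFun h' 1
  rw [smul0] at a0 b0
  rw [smul1] at a1 b1
  simp only [Pi.smul_apply, smul_eq_mul] at a0 a1 b0 b1
  have hdet := det_K g
  unfold dt at hD
  constructor
  · apply mul_right_cancel₀ hD
    linear_combination (-(u' * w' 1)) * a0 + (u' * w' 0) * a1 +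
      (g 1 0 * w 0 + g 1 1 * w 1) * b0 - (g 0 0 * w 0 + g 0 1 * w 1) * b1 +
      (w 0 * w' 1 - w 1 * w' 0) * hdet
  · apply mul_right_cancel₀ hD
    linear_combination (-(w' 1)) * a0 + (w' 0) * a1 + (w 1) * b0 - (w 0) * b1

/-- an element of the group which fixes both cusps has an eigenvalue which is a unit -/
theorem eig {n : Ideal (𝓞 K)} {A : FI K} {w w' : Fin 2 → K} (hw : w ≠ 0) (hw' : w' ≠ 0)
    (hD : dt w w' ≠ 0) {g : SLK K} (hg : g ∈ Gam n A)
    (h : g • Projectivization.mk K w hw = Projectivization.mk K w hw)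
    (h' : g • Projectivization.mk K w' hw' = Projectivization.mk K w' hw') :
    ∃ u : (𝓞 K)ˣ, g • w = ((u : 𝓞 K) : K) • w ∧ g • w' = ((u : 𝓞 K) : K)⁻¹ • w' := by
  rw [Projectivization.smul_mk, Projectivization.mk_eq_mk_iff'] at h h'
  obtain ⟨u, hu⟩ := h
  obtain ⟨u', hu'⟩ := h'
  obtain ⟨h1, h2⟩ := det_rel hD hu.symm hu'.symm
  obtain ⟨a, ha⟩ := (FractionalIdeal.mem_one_iff _).1 hg.1
  obtain ⟨d, hd⟩ := (FractionalIdeal.mem_one_iff _).1 hg.2.2.2
  have key : ∀ x x' : K, x * x' = 1 → x + x' = g 0 0 + g 1 1 →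
      ∃ y : 𝓞 K, algebraMap (𝓞 K) K y = x := by
    intro x x' e1 e2
    rw [← IsIntegrallyClosed.isIntegral_iff (R := 𝓞 K) (K := K)]
    refine ⟨Polynomial.X ^ 2 + (Polynomial.C (-(a + d)) * Polynomial.X + Polynomial.C 1), ?_, ?_⟩
    · monicity!
    · have e3 : algebraMap (𝓞 K) K (a + d) = x + x' := by
        rw [map_add, ha, hd, e2]
      rw [Polynomial.eval₂_add, Polynomial.eval₂_add, Polynomial.eval₂_mul, Polynomial.eval₂_C,
        Polynomial.eval₂_C, Polynomial.eval₂_X, Polynomial.eval₂_X_pow, map_neg, e3, map_one]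
      linear_combination (-1 : K) * e1
  obtain ⟨y, hy⟩ := key u u' h1 h2
  obtain ⟨y', hy'⟩ := key u' u (by rw [mul_comm, h1]) (by rw [add_comm, h2])
  have hyy : y * y' = 1 := by
    apply FaithfulSMul.algebraMap_injective (𝓞 K) K
    rw [map_mul, hy, hy', h1, map_one]
  refine ⟨⟨y, y', hyy, by rw [mul_comm, hyy]⟩, ?_, ?_⟩
  · change g • w = algebraMap (𝓞 K) K y • w
    rw [hy, hu]
  · change g • w' = (algebraMap (𝓞 K) K y)⁻¹ • w'
    rw [hy, inv_eq_of_mul_eq_one_right h1, hu']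

theorem comm2 {n : Ideal (𝓞 K)} {A : FI K} {w w' : Fin 2 → K} (hw : w ≠ 0) (hw' : w' ≠ 0)
    (hD : dt w w' ≠ 0) {g k : SLK K} (hg : g ∈ Gam n A) (hk : k ∈ Gam n A)
    (h : g • Projectivization.mk K w hw = Projectivization.mk K w hw)
    (h' : g • Projectivization.mk K w' hw' = Projectivization.mk K w' hw')
    (l : k • Projectivization.mk K w hw = Projectivization.mk K w hw)
    (l' : k • Projectivization.mk K w' hw' = Projectivization.mk K w' hw') : g * k = k * g := by
  obtain ⟨u, hu, hu'⟩ := eig hw hw' hD hg h h'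
  obtain ⟨t, ht, ht'⟩ := eig hw hw' hD hk l l'
  apply ext2 hD
  · rw [mul_smul, mul_smul, ht, hu, smul_comm g, smul_comm k, hu, ht, smul_comm]
  · rw [mul_smul, mul_smul, ht', hu', smul_comm g, smul_comm k, hu', ht', smul_comm]

end stab

/-- row GAS -/
theorem gas_proof (hacx : AcxStatement) : GasStatement := by
  intro K _ _ A n
  have hact := (hacx K).1
  refine ⟨Gam n A, fun g => Iff.rfl, ?_, fun c R hR => near_ex A c R hR, ?_⟩
  · intro g hg R c x hx
    refine ⟨fun h => ?_, near_act hg hx⟩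
    have h1 := near_act ((Gam n A).inv_mem hg) (hact g 1 x hx).1 h
    have h2 := (hact g⁻¹ g x hx).2.1
    rw [← h2, inv_mul_cancel, (hact 1 1 x hx).2.2, inv_smul_smul] at h1
    exact h1
  · intro c c' hcc
    obtain ⟨w, hw, rfl⟩ : ∃ (w : Fin 2 → K) (hw : w ≠ 0), Projectivization.mk K w hw = c :=
      ⟨c.rep, c.rep_nonzero, c.mk_rep⟩
    obtain ⟨w', hw', rfl⟩ : ∃ (w : Fin 2 → K) (hw : w ≠ 0), Projectivization.mk K w hw = c' :=
      ⟨c'.rep, c'.rep_nonzero, c'.mk_rep⟩
    have hD := dt_ne w w' hw hw' hcc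
    refine ⟨fun g hg k hk h h' l l' => comm2 hw hw' hD hg hk h h' l l', ?_⟩
    rw [← Group.fg_iff_subgroup_fg]
    set S := (MulAction.stabilizer (Gam n A) (Projectivization.mk K w hw) ⊓
      MulAction.stabilizer (Gam n A) (Projectivization.mk K w' hw')) with hS
    have hE : ∀ s : S, ∃ u : (𝓞 K)ˣ, ((s : Gam n A) : SLK K) • w = ((u : 𝓞 K) : K) • w ∧
        ((s : Gam n A) : SLK K) • w' = ((u : 𝓞 K) : K)⁻¹ • w' := by
      intro s
      exact eig hw hw' hD s.1.2 s.2.1 s.2.2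
    choose f hf hf' using hE
    have hinj : ∀ u t : (𝓞 K)ˣ, ((u : 𝓞 K) : K) • w = ((t : 𝓞 K) : K) • w → u = t := by
      intro u t e
      apply Units.ext
      apply FaithfulSMul.algebraMap_injective (𝓞 K) K
      exact smul_left_injective K hw e
    let ψ : S →* (𝓞 K)ˣ :=
      { toFun := f
        map_one' := by
          apply hinj
          rw [← hf]
          simp
        map_mul' := by
          intro s t
          apply hinj
          rw [← hf]
          have e1 : ((((s * t : S) : Gam n A)) : SLK K) =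
            ((s : Gam n A) : SLK K) * ((t : Gam n A) : SLK K) := rfl
          have e2 : (((f s * f t : (𝓞 K)ˣ) : 𝓞 K) : K) = ((f s : 𝓞 K) : K) * ((f t : 𝓞 K) : K) :=
            map_mul (algebraMap (𝓞 K) K) _ _
          rw [e1, e2, mul_smul, hf t, smul_comm, hf s, smul_smul, mul_comm] }
    refine fg_of_inj ψ ?_
    intro s t hst
    have e : f s = f t := hst
    apply Subtype.ext
    apply Subtype.ext
    apply ext2 hD
    · rw [hf, hf, e]
    · rw [hf', hf', e]

end Pool.Agent.Lib.MP_50bb2e_nt.Anf.Gas
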