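import Pool.Agent.Lib.MP_50bb2e_nt.Anf.Iface

/-! MP_50bb2e_nt, board ANF, row GEO: the covering of the product of hyperbolic spaces by the
horoballs. -/

namespace Pool.Agent.Lib.MP_50bb2e_nt.Anf.Geo

open Complex MeasureTheory Filter Topology NumberField IsDedekindDomain
open scoped ComplexConjugate nonZeroDivisors LinearAlgebra.Projectivization
open Pool.Agent.Lib.MP_50bb2e_nt.Imq (FI SLK)
open Pool.Agent.Lib.MP_50bb2e_nt.Anf

noncomputable section

/-! ### One factor -/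

/-- the function `cosh (distance) - 1` -/
def D1 (p q : ℂ × ℝ) : ℝ := (‖p.1 - q.1‖ ^ 2 + (p.2 - q.2) ^ 2) / (2 * p.2 * q.2)

/-- the normalizing factor -/
def kk (p q : ℂ × ℝ) : ℝ := Real.sqrt (4 + 2 * D1 p q)

/-- the midpoint -/
def mid1 (p q : ℂ × ℝ) : ℂ × ℝ :=
  ((p.1 * (q.2 : ℂ) + q.1 * (p.2 : ℂ)) / ((p.2 + q.2 : ℝ) : ℂ), kk p q * p.2 * q.2 / (p.2 + q.2))

theorem D1_self (p : ℂ × ℝ) : D1 p p = 0 := by simp [D1]

theorem D1_nonneg {p q : ℂ × ℝ} (hp : 0 < p.2) (hq : 0 < q.2) : 0 ≤ D1 p q := by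
  unfold D1
  positivity

theorem D1_comm (p q : ℂ × ℝ) : D1 p q = D1 q p := by
  unfold D1
  rw [norm_sub_rev]
  congr 1 <;> ring

theorem kk_sq {p q : ℂ × ℝ} (hp : 0 < p.2) (hq : 0 < q.2) : kk p q ^ 2 = 4 + 2 * D1 p q := by
  unfold kk
  rw [Real.sq_sqrt]
  have := D1_nonneg hp hq
  linarith

theorem two_le_kk {p q : ℂ × ℝ} (hp : 0 < p.2) (hq : 0 < q.2) : 2 ≤ kk p q := by
  have h := kk_sq hp hq
  have h0 := D1_nonneg hp hq
  have h1 : 0 ≤ kk p q := Real.sqrt_nonneg _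
  nlinarith

theorem mid1_pos {p q : ℂ × ℝ} (hp : 0 < p.2) (hq : 0 < q.2) : 0 < (mid1 p q).2 := by
  have := two_le_kk hp hq
  unfold mid1
  have : 0 < kk p q := by linarith
  positivity

theorem mid1_im {p q : ℂ × ℝ} (hp : p.1.im = 0) (hq : q.1.im = 0) : (mid1 p q).1.im = 0 := by
  unfold mid1
  simp only [Complex.div_ofReal_im, Complex.add_im, Complex.mul_im, Complex.ofReal_im,
    Complex.ofReal_re, hp, hq]
  ring

/-- the square norm in coordinates -/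
theorem nsq (z : ℂ) : ‖z‖ ^ 2 = z.re ^ 2 + z.im ^ 2 := by
  rw [Complex.sq_norm, Complex.normSq_apply]
  ring

/-- `k ^ 2` in coordinates -/
theorem kk_eq {p q : ℂ × ℝ} (hp : 0 < p.2) (hq : 0 < q.2) :
    kk p q ^ 2 * (p.2 * q.2) = (p.1.re - q.1.re) ^ 2 + (p.1.im - q.1.im) ^ 2 +
      (p.2 + q.2) ^ 2 := by
  rw [kk_sq hp hq]
  unfold D1
  rw [nsq, Complex.sub_re, Complex.sub_im]
  field_simp
  ring

theorem mid1_re (p q : ℂ × ℝ) :
    (mid1 p q).1.re = (p.1.re * q.2 + q.1.re * p.2) / (p.2 + q.2) := by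
  unfold mid1
  simp only [Complex.div_ofReal_re, Complex.add_re, Complex.mul_re, Complex.ofReal_im,
    Complex.ofReal_re, mul_zero, sub_zero]

theorem mid1_im' (p q : ℂ × ℝ) :
    (mid1 p q).1.im = (p.1.im * q.2 + q.1.im * p.2) / (p.2 + q.2) := by
  unfold mid1
  simp only [Complex.div_ofReal_im, Complex.add_im, Complex.mul_im, Complex.ofReal_im,
    Complex.ofReal_re, mul_zero, zero_add]

theorem mid1_snd (p q : ℂ × ℝ) : (mid1 p q).2 = kk p q * p.2 * q.2 / (p.2 + q.2) := rfl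

/-- the last hyperboloid coordinate -/
theorem mid1_last {p q : ℂ × ℝ} (hp : 0 < p.2) (hq : 0 < q.2) :
    (mid1 p q).1.re ^ 2 + (mid1 p q).1.im ^ 2 + (mid1 p q).2 ^ 2 =
      ((p.1.re ^ 2 + p.1.im ^ 2 + p.2 ^ 2) * q.2 + (q.1.re ^ 2 + q.1.im ^ 2 + q.2 ^ 2) * p.2) /
        (p.2 + q.2) := by
  rw [mid1_re, mid1_im', mid1_snd]
  have hs : 0 < p.2 + q.2 := by linarith
  have h := kk_eq hp hq
  have e1 : (kk p q * p.2 * q.2 / (p.2 + q.2)) ^ 2 =
      (kk p q ^ 2 * (p.2 * q.2)) * (p.2 * q.2) / (p.2 + q.2) ^ 2 := by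
    field_simp
  rw [e1, h]
  field_simp
  ring

/-- the form `D1 + 1` is bilinear in the hyperboloid coordinates -/
theorem D1_mid {z p q : ℂ × ℝ} (hz : 0 < z.2) (hp : 0 < p.2) (hq : 0 < q.2) :
    1 + D1 z (mid1 p q) = ((1 + D1 z p) + (1 + D1 z q)) / kk p q := by
  have hk : 0 < kk p q := by have := two_le_kk hp hq; linarith
  have hs : 0 < p.2 + q.2 := by linarith
  have hm := mid1_pos hp hq
  have hlast := mid1_last hp hq
  have e0 : ∀ w : ℂ × ℝ, 0 < w.2 → 1 + D1 z w =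
      ((z.1.re ^ 2 + z.1.im ^ 2 + z.2 ^ 2) - 2 * (z.1.re * w.1.re + z.1.im * w.1.im) +
        (w.1.re ^ 2 + w.1.im ^ 2 + w.2 ^ 2)) / (2 * z.2 * w.2) := by
    intro w hw
    unfold D1
    rw [nsq, Complex.sub_re, Complex.sub_im]
    field_simp
    ring
  rw [e0 _ hm, e0 _ hp, e0 _ hq, hlast, mid1_re, mid1_im', mid1_snd]
  field_simp
  ring

theorem D1_mid_le {z p q : ℂ × ℝ} (hz : 0 < z.2) (hp : 0 < p.2) (hq : 0 < q.2) :
    D1 z (mid1 p q) ≤ (D1 z p + D1 z q) / 2 := by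
  have h := D1_mid hz hp hq
  have hk := two_le_kk hp hq
  have h1 := D1_nonneg hz hp
  have h2 := D1_nonneg hz hq
  have h3 : ((1 + D1 z p) + (1 + D1 z q)) / kk p q ≤ ((1 + D1 z p) + (1 + D1 z q)) / 2 :=
    div_le_div_of_nonneg_left (by linarith) (by norm_num) hk
  rw [← h] at h3
  linarith

/-- the height form of one factor, with complex coefficients -/
def Q1 (a b : ℂ) (p : ℂ × ℝ) : ℝ := (‖a - b * p.1‖ ^ 2 + ‖b‖ ^ 2 * p.2 ^ 2) / p.2

theorem Q1_nonneg (a b : ℂ) {p : ℂ × ℝ} (hp : 0 < p.2) : 0 ≤ Q1 a b p := by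
  unfold Q1
  positivity

theorem Q1_mid (a b : ℂ) {p q : ℂ × ℝ} (hp : 0 < p.2) (hq : 0 < q.2) :
    Q1 a b (mid1 p q) = (Q1 a b p + Q1 a b q) / kk p q := by
  have hk : 0 < kk p q := by have := two_le_kk hp hq; linarith
  have hs : 0 < p.2 + q.2 := by linarith
  have hm := mid1_pos hp hq
  have hlast := mid1_last hp hq
  have e0 : ∀ w : ℂ × ℝ, 0 < w.2 → Q1 a b w =
      ((a.re ^ 2 + a.im ^ 2) - 2 * ((a.re * b.re + a.im * b.im) * w.1.re +
        (a.im * b.re - a.re * b.im) * w.1.im) +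
        (b.re ^ 2 + b.im ^ 2) * (w.1.re ^ 2 + w.1.im ^ 2 + w.2 ^ 2)) / w.2 := by
    intro w hw
    unfold Q1
    rw [nsq, nsq, Complex.sub_re, Complex.sub_im, Complex.mul_re, Complex.mul_im]
    congr 1
    ring
  rw [e0 _ hm, e0 _ hp, e0 _ hq, hlast, mid1_re, mid1_im', mid1_snd]
  field_simp
  ring

theorem Q1_diff (a b : ℂ) {p q : ℂ × ℝ} (hp : 0 < p.2) (hq : 0 < q.2) :
    (Q1 a b p - Q1 a b q) ^ 2 ≤ 2 * D1 p q * (Q1 a b p * Q1 a b q) := by
  -- N = |A|^2 + c^2 y^2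
  obtain ⟨N, hN⟩ : ∃ N, N = ‖a - b * p.1‖ ^ 2 + ‖b‖ ^ 2 * p.2 ^ 2 := ⟨_, rfl⟩
  obtain ⟨M, hM⟩ : ∃ M, M = ‖a - b * q.1‖ ^ 2 + ‖b‖ ^ 2 * q.2 ^ 2 := ⟨_, rfl⟩
  have hQp : Q1 a b p = N / p.2 := by rw [hN]; rfl
  have hQq : Q1 a b q = M / q.2 := by rw [hM]; rfl
  have hN0 : 0 ≤ N := by rw [hN]; positivity
  have hM0 : 0 ≤ M := by rw [hM]; positivity
  have key : (q.2 * N - p.2 * M) ^ 2 ≤
      N * M * (‖p.1 - q.1‖ ^ 2 + (p.2 - q.2) ^ 2) := by
    by_cases hb : b = 0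
    · have hNM : M = N := by rw [hN, hM, hb]; simp
      rw [hNM]
      have e1 : (q.2 * N - p.2 * N) ^ 2 = N * N * (p.2 - q.2) ^ 2 := by ring
      rw [e1]
      have : 0 ≤ N * N * ‖p.1 - q.1‖ ^ 2 := by positivity
      nlinarith
    · have hc : 0 < ‖b‖ ^ 2 := by positivity
      have hident : N * M * (‖b‖ ^ 2 * (‖p.1 - q.1‖ ^ 2 + (p.2 - q.2) ^ 2)) =
          ‖(M : ℂ) * (a - b * p.1) - (N : ℂ) * (a - b * q.1)‖ ^ 2 +
            ‖b‖ ^ 2 * (q.2 * N - p.2 * M) ^ 2 := by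
        have e1 : ‖b‖ ^ 2 * ‖p.1 - q.1‖ ^ 2 = ‖(a - b * p.1) - (a - b * q.1)‖ ^ 2 := by
          rw [← mul_pow, ← norm_mul]
          congr 1
          rw [norm_sub_rev]
          congr 1
          ring
        have e2 : ‖(M : ℂ) * (a - b * p.1) - (N : ℂ) * (a - b * q.1)‖ ^ 2 =
            (M * (a - b * p.1).re - N * (a - b * q.1).re) ^ 2 +
              (M * (a - b * p.1).im - N * (a - b * q.1).im) ^ 2 := by
          rw [nsq, Complex.sub_re, Complex.sub_im, Complex.re_ofReal_mul, Complex.re_ofReal_mul,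
            Complex.im_ofReal_mul, Complex.im_ofReal_mul]
        rw [mul_add, e1, e2, nsq ((a - b * p.1) - (a - b * q.1)), Complex.sub_re, Complex.sub_im]
        rw [nsq (a - b * p.1)] at hN
        rw [nsq (a - b * q.1)] at hM
        generalize (a - b * p.1).re = s at *
        generalize (a - b * p.1).im = t at *
        generalize (a - b * q.1).re = s' at *
        generalize (a - b * q.1).im = t' at *
        rw [hN, hM]
        ring
      have h0 : 0 ≤ ‖(M : ℂ) * (a - b * p.1) - (N : ℂ) * (a - b * q.1)‖ ^ 2 := by positivity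
      have h1 : ‖b‖ ^ 2 * (q.2 * N - p.2 * M) ^ 2 ≤
          ‖b‖ ^ 2 * (N * M * (‖p.1 - q.1‖ ^ 2 + (p.2 - q.2) ^ 2)) := by
        have : ‖b‖ ^ 2 * (N * M * (‖p.1 - q.1‖ ^ 2 + (p.2 - q.2) ^ 2)) =
          N * M * (‖b‖ ^ 2 * (‖p.1 - q.1‖ ^ 2 + (p.2 - q.2) ^ 2)) := by ring
        rw [this, hident]
        linarith
      exact le_of_mul_le_mul_left h1 hc
  rw [hQp, hQq]
  unfold D1
  have e1 : (N / p.2 - M / q.2) ^ 2 = (q.2 * N - p.2 * M) ^ 2 / (p.2 * q.2) ^ 2 := by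
    field_simp
  have e2 : 2 * ((‖p.1 - q.1‖ ^ 2 + (p.2 - q.2) ^ 2) / (2 * p.2 * q.2)) * (N / p.2 * (M / q.2)) =
      (N * M * (‖p.1 - q.1‖ ^ 2 + (p.2 - q.2) ^ 2)) / (p.2 * q.2) ^ 2 := by
    field_simp
  rw [e1, e2]
  exact div_le_div_of_nonneg_right key (by positivity)

theorem Q1_mid_sq (a b : ℂ) {p q : ℂ × ℝ} (hp : 0 < p.2) (hq : 0 < q.2) :
    Q1 a b (mid1 p q) ^ 2 ≤ Q1 a b p * Q1 a b q := by
  have hk : 0 < kk p q := by have := two_le_kk hp hq; linarith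
  rw [Q1_mid a b hp hq, div_pow, div_le_iff₀ (by positivity), kk_sq hp hq]
  have h := Q1_diff a b hp hq
  nlinarith

/-! ### The product -/

variable {K : Type} [Field K] [NumberField K]

/-- the midpoint -/
def mid (x y : XX K) : XX K := ⟨fun v => mid1 (x.1 v) (y.1 v), fun v =>
  ⟨mid1_pos (x.2 v).1 (y.2 v).1, fun hv => mid1_im ((x.2 v).2 hv) ((y.2 v).2 hv)⟩⟩

/-- the distance function -/
def dd (x y : XX K) : ℝ := ∑ v, D1 (x.1 v) (y.1 v)

theorem qv_eq (v : InfinitePlace K) (p : ℂ × ℝ) (w : Fin 2 → K) :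
    qv v p w = Q1 (v.embedding (w 0)) (v.embedding (w 1)) p := rfl

theorem qv_smul (v : InfinitePlace K) (p : ℂ × ℝ) (a : K) (w : Fin 2 → K) :
    qv v p (a • w) = ‖v.embedding a‖ ^ 2 * qv v p w := by
  unfold qv
  simp only [Pi.smul_apply, smul_eq_mul, map_mul]
  have e1 : v.embedding a * v.embedding (w 0) - v.embedding a * v.embedding (w 1) * p.1 =
      v.embedding a * (v.embedding (w 0) - v.embedding (w 1) * p.1) := by ring
  rw [e1, norm_mul, norm_mul]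
  ring

/-- the scaling factor -/
def nu (a : K) : ℝ := ∏ v : InfinitePlace K, (‖v.embedding a‖ ^ 2) ^ v.mult

theorem nu_nonneg (a : K) : 0 ≤ nu a := Finset.prod_nonneg fun _ _ => by positivity

theorem qx_smul (x : Pt K) (a : K) (w : Fin 2 → K) : qx x (a • w) = nu a * qx x w := by
  unfold qx nu
  rw [← Finset.prod_mul_distrib]
  refine Finset.prod_congr rfl fun v _ => ?_
  rw [qv_smul, mul_pow]

theorem qx_nonneg {x : Pt K} (hx : ∀ v, 0 < (x v).2) (w : Fin 2 → K) : 0 ≤ qx x w :=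
  Finset.prod_nonneg fun v _ => pow_nonneg (Q1_nonneg _ _ (hx v)) _

theorem qx_mid (x y : XX K) (w : Fin 2 → K) :
    qx (mid x y).1 w ^ 2 ≤ qx x.1 w * qx y.1 w := by
  unfold qx
  rw [← Finset.prod_pow, ← Finset.prod_mul_distrib]
  refine Finset.prod_le_prod (fun v _ => by positivity) fun v _ => ?_
  rw [← mul_pow, ← pow_mul, mul_comm v.mult 2, pow_mul]
  refine pow_le_pow_left₀ (by positivity) ?_ _
  exact Q1_mid_sq _ _ (x.2 v).1 (y.2 v).1

theorem near_mid (A : FI K) {R : ℝ} (hR : 0 < R) (c : ℙ K (Fin 2 → K)) (x y : XX K)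
    (hx : Near A R c x.1) (hy : Near A R c y.1) : Near A R c (mid x y).1 := by
  have hmid : ∀ w : Fin 2 → K, qx x.1 w < R → qx y.1 w < R → qx (mid x y).1 w < R := by
    intro w h1 h2
    have h3 := qx_mid x y w
    have h4 := qx_nonneg (x := x.1) (fun v => (x.2 v).1) w
    have h5 := qx_nonneg (x := y.1) (fun v => (y.2 v).1) w
    have h6 := qx_nonneg (x := (mid x y).1) (fun v => ((mid x y).2 v).1) w
    have h7 : qx x.1 w * qx y.1 w < R * R := mul_lt_mul'' h1 h2 h4 h5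
    nlinarith
  obtain ⟨w, hw, hc, hL, hq⟩ := hx
  obtain ⟨w', hw', hc', hL', hq'⟩ := hy
  obtain ⟨a, ha⟩ := (Projectivization.mk_eq_mk_iff' K w w' hw hw').1 (hc.trans hc'.symm)
  rw [← ha, qx_smul] at hq
  rcases le_total (nu a) 1 with h | h
  · refine ⟨w, hw, hc, hL, hmid w ?_ ?_⟩
    · rw [← ha, qx_smul]
      exact hq
    · rw [← ha, qx_smul]
      refine lt_of_le_of_lt ?_ hq'
      have := qx_nonneg (x := y.1) (fun v => (y.2 v).1) w'
      nlinarith
  · refine ⟨w', hw', hc', hL', hmid w' ?_ hq'⟩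
    refine lt_of_le_of_lt ?_ hq
    have := qx_nonneg (x := x.1) (fun v => (x.2 v).1) w'
    nlinarith

/-- the points with positive heights -/
def OO (K : Type) [Field K] [NumberField K] : Set (Pt K) := {x | ∀ v, 0 < (x v).2}

theorem isOpen_OO : IsOpen (OO K) := by
  have h : OO K = ⋂ v : InfinitePlace K, {x | 0 < (x v).2} := by
    ext x
    simp [OO]
  rw [h]
  refine isOpen_iInter_of_finite fun v => ?_
  exact isOpen_lt continuous_const (continuous_snd.comp (continuous_apply v))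

theorem continuousOn_qx (w : Fin 2 → K) : ContinuousOn (fun x : Pt K => qx x w) (OO K) := by
  unfold qx
  refine continuousOn_finset_prod _ fun v _ => ?_
  refine ContinuousOn.pow ?_ _
  unfold qv
  have h1 : Continuous (fun x : Pt K => (x v).1) := continuous_fst.comp (continuous_apply v)
  have h2 : Continuous (fun x : Pt K => (x v).2) := continuous_snd.comp (continuous_apply v)
  refine ContinuousOn.div ?_ h2.continuousOn ?_
  · refine Continuous.continuousOn ?_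
    fun_prop
  · intro x hx
    exact (hx v).ne'

theorem isOpen_near (A : FI K) (R : ℝ) (c : ℙ K (Fin 2 → K)) :
    IsOpen {x : Pt K | x ∈ OO K ∧ Near A R c x} := by
  have h : {x : Pt K | x ∈ OO K ∧ Near A R c x} =
      ⋃ w : {w : Fin 2 → K // ∃ hw : w ≠ 0, Projectivization.mk K w hw = c ∧ Lam A w},
        (OO K ∩ (fun x : Pt K => qx x w.1) ⁻¹' Set.Iio R) := by
    ext x
    rw [Set.mem_iUnion]
    constructor
    · rintro ⟨h1, w, hw, h2, h3, h4⟩
      exact ⟨⟨w, hw, h2, h3⟩, h1, h4⟩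
    · rintro ⟨⟨w, hw, h2, h3⟩, h1, h4⟩
      exact ⟨h1, w, hw, h2, h3, h4⟩
  rw [h]
  exact isOpen_iUnion fun w => (continuousOn_qx w.1).isOpen_inter_preimage isOpen_OO isOpen_Iio

/-- bounds from the distance -/
theorem bounds {p q : ℂ × ℝ} (hp : 0 < p.2) (hq : 0 < q.2) {ρ : ℝ} (hρ : 0 ≤ ρ)
    (h : D1 p q ≤ ρ) : ‖q.1 - p.1‖ ≤ (2 + 2 * ρ) * p.2 ∧ p.2 / (2 + 2 * ρ) ≤ q.2 ∧
      q.2 ≤ (2 + 2 * ρ) * p.2 := by
  unfold D1 at h
  rw [div_le_iff₀ (by positivity)] at h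
  have h0 : 0 ≤ ‖p.1 - q.1‖ ^ 2 := by positivity
  have hB : 0 < 2 + 2 * ρ := by linarith
  have h1 : q.2 ≤ (2 + 2 * ρ) * p.2 := by
    by_contra hcon
    push Not at hcon
    have : q.2 * q.2 ≤ (2 + 2 * ρ) * p.2 * q.2 := by nlinarith [sq_nonneg p.2]
    nlinarith
  have h2 : p.2 ≤ (2 + 2 * ρ) * q.2 := by
    by_contra hcon
    push Not at hcon
    have : p.2 * p.2 ≤ (2 + 2 * ρ) * q.2 * p.2 := by nlinarith [sq_nonneg q.2]
    nlinarith
  refine ⟨?_, ?_, h1⟩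
  · rw [norm_sub_rev]
    have h3 : ‖p.1 - q.1‖ ^ 2 ≤ ((2 + 2 * ρ) * p.2) ^ 2 := by
      have e1 : ‖p.1 - q.1‖ ^ 2 ≤ ρ * (2 * p.2 * q.2) := by nlinarith [sq_nonneg (p.2 - q.2)]
      have e2 : ρ * (2 * p.2 * q.2) ≤ (2 + 2 * ρ) * p.2 * q.2 := by
        have : 0 ≤ p.2 * q.2 := by positivity
        nlinarith
      have e3 : (2 + 2 * ρ) * p.2 * q.2 ≤ (2 + 2 * ρ) * p.2 * ((2 + 2 * ρ) * p.2) :=
        mul_le_mul_of_nonneg_left h1 (by positivity)
      nlinarith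
    exact le_of_sq_le_sq h3 (by positivity)
  · rw [div_le_iff₀ hB]
    linarith

theorem geo_proof : GeoStatement := by
  intro K _ _ A R hR hcov
  refine ⟨mid, dd, ⟨⟨fun _ => (0, 1), fun v => ⟨one_pos, fun _ => rfl⟩⟩⟩, ?_, ?_, ?_, ?_, ?_, ?_⟩
  · intro x
    unfold dd
    exact Finset.sum_eq_zero fun v _ => D1_self _
  · intro x y
    exact Finset.sum_nonneg fun v _ => D1_nonneg (x.2 v).1 (y.2 v).1
  · intro x y
    unfold dd
    exact Finset.sum_congr rfl fun v _ => D1_comm _ _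
  · intro z x y
    unfold dd
    rw [← Finset.sum_add_distrib, Finset.sum_div]
    exact Finset.sum_le_sum fun v _ => D1_mid_le (z.2 v).1 (x.2 v).1 (y.2 v).1
  · intro c x y hx hy
    exact near_mid A hR c x y hx hy
  · intro x0 ρ
    -- the compact set
    set B : ℝ := 2 + 2 * |ρ| with hB
    have hBpos : 0 < B := by positivity
    let E : InfinitePlace K → Set (ℂ × ℝ) := fun v =>
      (Metric.closedBall (x0.1 v).1 (B * (x0.1 v).2) ∩ {z | v.IsReal → z.im = 0}) ×ˢ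
        Set.Icc ((x0.1 v).2 / B) (B * (x0.1 v).2)
    let C : Set (Pt K) := Set.pi Set.univ E
    have hC : IsCompact C := by
      refine isCompact_univ_pi fun v => ?_
      refine IsCompact.prod ?_ isCompact_Icc
      refine (isCompact_closedBall _ _).inter_right ?_
      by_cases hv : v.IsReal
      · have : {z : ℂ | v.IsReal → z.im = 0} = {z : ℂ | z.im = 0} := by
          ext z; simp [hv]
        rw [this]
        exact isClosed_eq Complex.continuous_im continuous_const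
      · have : {z : ℂ | v.IsReal → z.im = 0} = Set.univ := by
          ext z; simp [hv]
        rw [this]
        exact isClosed_univ
    have hCpos : ∀ x ∈ C, Pos x := by
      intro x hx v
      obtain ⟨h1, h2⟩ := hx v (Set.mem_univ v)
      refine ⟨lt_of_lt_of_le ?_ h2.1, h1.2⟩
      have := (x0.2 v).1
      positivity
    have hmem : ∀ z : XX K, dd x0 z ≤ ρ → z.1 ∈ C := by
      intro z hz v _
      have h1 : D1 (x0.1 v) (z.1 v) ≤ |ρ| := by
        refine le_trans ?_ (le_trans hz (le_abs_self ρ))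
        exact Finset.single_le_sum (f := fun v => D1 (x0.1 v) (z.1 v))
          (fun v _ => D1_nonneg (x0.2 v).1 (z.2 v).1) (Finset.mem_univ v)
      obtain ⟨b1, b2, b3⟩ := bounds (x0.2 v).1 (z.2 v).1 (abs_nonneg ρ) h1
      refine ⟨⟨?_, (z.2 v).2⟩, b2, b3⟩
      rw [Metric.mem_closedBall, dist_eq_norm]
      exact b1
    obtain ⟨δ', hδ', hleb⟩ := lebesgue_number_lemma_of_metric
      (c := fun c : ℙ K (Fin 2 → K) => {x : Pt K | x ∈ OO K ∧ Near A R c x}) hC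
      (isOpen_near A R) (by
        intro x hx
        obtain ⟨c, hc⟩ := hcov x (hCpos x hx)
        rw [Set.mem_iUnion]
        exact ⟨c, fun v => (hCpos x hx v).1, hc⟩)
    set Y : ℝ := 1 + ∑ v : InfinitePlace K, B * (x0.1 v).2 with hY
    have hYv : ∀ v : InfinitePlace K, B * (x0.1 v).2 ≤ Y := by
      intro v
      have h1 : B * (x0.1 v).2 ≤ ∑ v : InfinitePlace K, B * (x0.1 v).2 :=
        Finset.single_le_sum (f := fun v => B * (x0.1 v).2)
          (fun v _ => by have := (x0.2 v).1; positivity) (Finset.mem_univ v)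
      linarith
    have hYpos : 0 < Y := by
      have h1 : 0 ≤ ∑ v : InfinitePlace K, B * (x0.1 v).2 :=
        Finset.sum_nonneg fun v _ => by have := (x0.2 v).1; positivity
      linarith
    refine ⟨δ' ^ 2 / (2 * Y ^ 2), by positivity, ?_⟩
    intro S hS1 hS2
    rcases S.eq_empty_or_nonempty with rfl | ⟨s, hs⟩
    · obtain ⟨c, _⟩ := hcov x0.1 x0.2
      exact ⟨c, fun z hz => absurd hz (Finset.notMem_empty z)⟩
    · obtain ⟨c, hc⟩ := hleb s.1 (hmem s (hS1 s hs))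
      refine ⟨c, fun z hz => (hc ?_).2⟩
      rw [Metric.mem_ball, dist_pi_lt_iff hδ']
      intro v
      have h1 : D1 (z.1 v) (s.1 v) < δ' ^ 2 / (2 * Y ^ 2) := by
        refine lt_of_le_of_lt ?_ (hS2 z hz s hs)
        exact Finset.single_le_sum (f := fun v => D1 (z.1 v) (s.1 v))
          (fun v _ => D1_nonneg (z.2 v).1 (s.2 v).1) (Finset.mem_univ v)
      have hz2 : (z.1 v).2 ≤ Y := le_trans ((hmem z (hS1 z hz) v (Set.mem_univ v)).2.2) (hYv v)
      have hs2 : (s.1 v).2 ≤ Y := le_trans ((hmem s (hS1 s hs) v (Set.mem_univ v)).2.2) (hYv v)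
      have hzp := (z.2 v).1
      have hsp := (s.2 v).1
      unfold D1 at h1
      rw [div_lt_div_iff₀ (by positivity) (by positivity)] at h1
      have h2 : 2 * (z.1 v).2 * (s.1 v).2 ≤ 2 * Y ^ 2 := by nlinarith
      have h3 : ‖(z.1 v).1 - (s.1 v).1‖ ^ 2 + ((z.1 v).2 - (s.1 v).2) ^ 2 < δ' ^ 2 := by
        have h4 : (‖(z.1 v).1 - (s.1 v).1‖ ^ 2 + ((z.1 v).2 - (s.1 v).2) ^ 2) * (2 * Y ^ 2) <
            δ' ^ 2 * (2 * Y ^ 2) := lt_of_lt_of_le h1 (mul_le_mul_of_nonneg_left h2 (by positivity))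
        exact lt_of_mul_lt_mul_right h4 (by positivity)
      rw [Prod.dist_eq, max_lt_iff]
      constructor
      · rw [dist_eq_norm]
        refine lt_of_pow_lt_pow_left₀ 2 hδ'.le ?_
        nlinarith [sq_nonneg ((z.1 v).2 - (s.1 v).2)]
      · rw [Real.dist_eq]
        refine lt_of_pow_lt_pow_left₀ 2 hδ'.le ?_
        rw [sq_abs]
        nlinarith [sq_nonneg ‖(z.1 v).1 - (s.1 v).1‖]

end

end Pool.Agent.Lib.MP_50bb2e_nt.Anf.Geo
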