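import Pool.Agent.Lib.MP_50bb2e_nt.Anf.Acx
import Pool.Agent.Lib.MP_50bb2e_nt.Anf.Gas

/-!
MP_50bb2e_nt, board ANF, row HC: the functions attached to the cusps.
-/

namespace Pool.Agent.Lib.MP_50bb2e_nt.Anf.Hc

open Complex Filter Topology NumberField Pool.Agent.Lib.MP_50bb2e_nt.Anf
open scoped nonZeroDivisors LinearAlgebra.Projectivization
open Pool.Agent.Lib.MP_50bb2e_nt.Imq (SLK InG FI)

noncomputable section

variable {K : Type} [Field K] [NumberField K]

/-- the cusp infinity -/
def oo (K : Type) [Field K] : ℙ K (Fin 2 → K) := Projectivization.mk K ![1, 0] (by simp)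

omit [NumberField K] in
theorem ex_w (w : Fin 2 → K) (hw : w ≠ 0) : ∃ g : SLK K, g • (![1, 0] : Fin 2 → K) = w := by
  by_cases h0 : w 0 = 0
  · have h1 : w 1 ≠ 0 := by
      intro h1
      apply hw
      funext i
      fin_cases i
      · exact h0
      · exact h1
    obtain ⟨g, hg⟩ : ∃ g : SLK K, (g : Matrix (Fin 2) (Fin 2) K) = !![0, -(w 1)⁻¹; w 1, 0] :=
      ⟨⟨!![0, -(w 1)⁻¹; w 1, 0], by simp [Matrix.det_fin_two, h1]⟩, rfl⟩
    have e0 : g 0 0 = 0 := by
      rw [hg]; simp
    have e1 : g 1 0 = w 1 := by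
      rw [hg]; simp
    refine ⟨g, ?_⟩
    funext i
    fin_cases i
    · change (g • (![1, 0] : Fin 2 → K)) 0 = w 0
      rw [Gas.smul0, e0, h0]
      simp
    · change (g • (![1, 0] : Fin 2 → K)) 1 = w 1
      rw [Gas.smul1, e1]
      simp
  · obtain ⟨g, hg⟩ : ∃ g : SLK K, (g : Matrix (Fin 2) (Fin 2) K) = !![w 0, 0; w 1, (w 0)⁻¹] :=
      ⟨⟨!![w 0, 0; w 1, (w 0)⁻¹], by simp [Matrix.det_fin_two, h0]⟩, rfl⟩
    have e0 : g 0 0 = w 0 := by
      rw [hg]; simp
    have e1 : g 1 0 = w 1 := by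
      rw [hg]; simp
    refine ⟨g, ?_⟩
    funext i
    fin_cases i
    · change (g • (![1, 0] : Fin 2 → K)) 0 = w 0
      rw [Gas.smul0, e0]
      simp
    · change (g • (![1, 0] : Fin 2 → K)) 1 = w 1
      rw [Gas.smul1, e1]
      simp

theorem ex_g (b : ℙ K (Fin 2 → K)) : ∃ g : SLK K, g • oo K = b := by
  induction b using Projectivization.ind with
  | h w hw =>
    obtain ⟨g, hg⟩ := ex_w w hw
    refine ⟨g, ?_⟩
    unfold oo
    rw [Projectivization.smul_mk, Projectivization.mk_eq_mk_iff']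
    exact ⟨1, by rw [one_smul, hg]⟩

omit [NumberField K] in
theorem upper (h : SLK K) (hh : h • oo K = oo K) : h 1 0 = 0 := by
  unfold oo at hh
  rw [Projectivization.smul_mk, Projectivization.mk_eq_mk_iff'] at hh
  obtain ⟨a, ha⟩ := hh
  have h1 := congrFun ha 1
  rw [Gas.smul1] at h1
  simpa using h1.symm

theorem mix_congr {F G : Pt K → ℂ} (h : ∀ x, Pos x → F x = G x) (hF : Mix0 F) : Mix0 G := by
  classical
  intro x x' hx hx'
  have h1 := hF x x' hx hx'
  rw [← h1]
  refine Finset.sum_congr rfl fun J _ => ?_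
  rw [h]
  intro v
  dsimp only
  split_ifs
  · exact hx' v
  · exact hx v

theorem mix_add {F G : Pt K → ℂ} (hF : Mix0 F) (hG : Mix0 G) : Mix0 (fun x => F x + G x) := by
  classical
  intro x x' hx hx'
  simp only [mul_add, Finset.sum_add_distrib]
  rw [hF x x' hx hx', hG x x' hx hx', add_zero]

theorem mix_neg {F : Pt K → ℂ} (hF : Mix0 F) : Mix0 (fun x => -F x) := by
  classical
  intro x x' hx hx'
  simp only [mul_neg, Finset.sum_neg_distrib]
  rw [hF x x' hx hx', neg_zero]

theorem mix_sub {F G : Pt K → ℂ} (hF : Mix0 F) (hG : Mix0 G) : Mix0 (fun x => F x - G x) := by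
  simp only [sub_eq_add_neg]
  exact mix_add hF (mix_neg hG)

open Classical in
theorem pos_upd {x : Pt K} (hx : Pos x) (v : InfinitePlace K) {t : ℝ} (ht : 0 < t) :
    Pos (fun w => if w = v then ((x v).1, t) else x w) := by
  intro w
  dsimp only
  split_ifs with h
  · subst h
    exact ⟨ht, (hx w).2⟩
  · exact hx w

theorem dec_congr {F G : Pt K → ℂ} (h : ∀ x, Pos x → F x = G x) (hF : Dec1 F) : Dec1 G := by
  classical
  intro x hx v
  refine (hF x hx v).congr' ?_
  filter_upwards [eventually_gt_atTop (0 : ℝ)] with t ht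
  exact h _ (by convert pos_upd hx v ht)

theorem dec_sub {F G : Pt K → ℂ} (hF : Dec1 F) (hG : Dec1 G) : Dec1 (fun x => F x - G x) := by
  intro x hx v
  simpa using (hF x hx v).sub (hG x hx v)

theorem dec_upper {h : SLK K} (hh : h 1 0 = 0) {F : Pt K → ℂ} (hF : Dec1 F) :
    Dec1 (fun x => F (act h x)) := by
  classical
  intro x hx v
  have h00 : h 0 0 ≠ 0 := by
    intro h0
    have h1 := h.2
    rw [Matrix.det_fin_two] at h1
    have h2 : (h 0 0) * (h 1 1) - (h 0 1) * (h 1 0) = 1 := h1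
    rw [h0, hh] at h2
    simp at h2
  have hc : 0 < (v (h 0 0)) ^ 2 := by
    have : v (h 0 0) ≠ 0 := by simpa using h00
    positivity
  have h1 := hF (act h x) (Acx.pos_act h x hx) v
  have h2 : Tendsto (fun t : ℝ => (v (h 0 0)) ^ 2 * t) atTop atTop :=
    tendsto_id.const_mul_atTop hc
  refine (h1.comp h2).congr' ?_
  filter_upwards [eventually_gt_atTop (0 : ℝ)] with t ht
  change F _ = F _
  congr 1
  funext w
  by_cases hw : w = v
  · subst hw
    have hxw : 0 < (x w).2 := (hx w).1
    have h3 := Acx.tri h (fun u => if u = w then ((x w).1, t) else x u) hh w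
    have h4 := Acx.tri h x hh w
    have h5 := h4.2 (t / (x w).2) (by positivity)
    have h6 : (act h (fun u => ((x u).1, t / (x w).2 * (x u).2)) w) =
        act h (fun u => if u = w then ((x w).1, t) else x u) w := by
      unfold act
      simp only [if_true]
      rw [div_mul_cancel₀ t hxw.ne']
    rw [h6] at h5
    refine Prod.ext ?_ ?_
    · simp only [if_true]
      exact h5.symm
    · simp only [if_true]
      rw [h3.1]
      simp
  · simp only [hw, if_false]
    unfold act
    simp only [hw, if_false]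

theorem act_inv_act (g : SLK K) (x : Pt K) (hx : Pos x) : act g⁻¹ (act g x) = x := by
  rw [← Acx.act_mul g⁻¹ g x hx, inv_mul_cancel, Acx.act_one]

theorem act_act_inv (g : SLK K) (x : Pt K) (hx : Pos x) : act g (act g⁻¹ x) = x := by
  rw [← Acx.act_mul g g⁻¹ x hx, mul_inv_cancel, Acx.act_one]

/-- uniqueness of the function attached to a cusp -/
theorem uniq (hU : UnqStatement) {T F G : Pt K → ℂ} {g k : SLK K} (hgk : g • oo K = k • oo K)
    (hF : Mix0 (fun x => F x - T x)) (hG : Mix0 (fun x => G x - T x))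
    (hFd : Dec1 (fun x => F (act g x))) (hGd : Dec1 (fun x => G (act k x))) :
    ∀ x, Pos x → F x = G x := by
  have hup : (g⁻¹ * k) 1 0 = 0 := by
    apply upper
    rw [mul_smul, ← hgk, inv_smul_smul]
  have h1 : Dec1 (fun x => F (act k x)) := by
    refine dec_congr ?_ (dec_upper hup hFd)
    intro x hx
    rw [← Acx.act_mul g (g⁻¹ * k) x hx, mul_inv_cancel_left]
  have h2 : Mix0 (fun x => F (act k x) - G (act k x)) := by
    refine mix_congr ?_ (Acx.mix_act k _ (mix_sub hF hG))
    intro x _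
    ring
  have h3 := hU K _ h2 (dec_sub h1 hGd)
  intro x hx
  have h4 := h3 (act k⁻¹ x) (Acx.pos_act _ x hx)
  rw [act_act_inv k x hx] at h4
  exact sub_eq_zero.mp h4

theorem hc_proof (hU : UnqStatement) (hD : DecStatement) (_hA : AcxStatement) : HcStatement := by
  intro K _ _ n c hf A
  obtain ⟨hD1, hD2⟩ := hD K
  choose g hg using (ex_g (K := K))
  choose a ha hm using fun b => hf.cusp A (g b)
  set T : Pt K → ℂ := Th (coef c A) with hT
  have hH1 : ∀ b, Mix0 (fun x => Th (a b) (act (g b)⁻¹ x) - T x) := by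
    intro b
    refine mix_congr ?_ (mix_neg (Acx.mix_act (g b)⁻¹ _ (hm b)))
    intro x hx
    rw [act_act_inv (g b) x hx]
    ring
  have hH2 : ∀ b, Dec1 (fun x => Th (a b) (act (g b)⁻¹ (act (g b) x))) := by
    intro b
    refine dec_congr ?_ (hD1 (a b) (ha b))
    intro x hx
    rw [act_inv_act (g b) x hx]
  refine ⟨fun b x => Th (a b) (act (g b)⁻¹ x), hH1, ?_, ?_, ?_⟩
  · intro γ b x hγ hx
    have hT1 : Mix0 (fun x => T (act γ x) - T x) := hf.modular A γ hγ
    have hF : Mix0 (fun x => Th (a (γ • b)) (act (g (γ • b))⁻¹ (act γ x)) - T x) := by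
      refine mix_congr ?_ (mix_add (Acx.mix_act γ _ (hH1 (γ • b))) hT1)
      intro x _
      ring
    have hFd : Dec1 (fun x => Th (a (γ • b)) (act (g (γ • b))⁻¹ (act γ (act (γ⁻¹ * g (γ • b)) x))))
        := by
      refine dec_congr ?_ (hD1 (a (γ • b)) (ha (γ • b)))
      intro x hx
      rw [← Acx.act_mul γ _ x hx, mul_inv_cancel_left, act_inv_act _ x hx]
    refine uniq hU (T := T) (F := fun x => Th (a (γ • b)) (act (g (γ • b))⁻¹ (act γ x)))
      (G := fun x => Th (a b) (act (g b)⁻¹ x)) (g := γ⁻¹ * g (γ • b)) (k := g b) ?_ hF (hH1 b)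
      hFd (hH2 b) x hx
    rw [mul_smul, hg, hg, inv_smul_smul]
  · intro x hx
    have h1 : Dec1 (fun x => T (act 1 x)) := by
      refine dec_congr ?_ (hD1 _ (hD2 n c hf A))
      intro x _
      rw [Acx.act_one]
    have h0 : Mix0 (fun x => T x - T x) := by
      intro x x' _ _
      simp
    exact uniq hU (T := T) (F := fun x => Th (a (oo K)) (act (g (oo K))⁻¹ x)) (G := T)
      (g := g (oo K)) (k := 1) (by rw [hg, one_smul]) (hH1 _) h0 (hH2 _) h1 x hx
  · intro r a' ha' hm' x hx
    have h1 : Dec1 (fun x => Th a' (act (gr r)⁻¹ (act (gr r) x))) := by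
      refine dec_congr ?_ (hD1 a' ha')
      intro x hx
      rw [act_inv_act (gr r) x hx]
    have h2 : Mix0 (fun x => Th a' (act (gr r)⁻¹ x) - T x) := by
      refine mix_congr ?_ (mix_neg (Acx.mix_act (gr r)⁻¹ _ hm'))
      intro x hx
      rw [act_act_inv (gr r) x hx]
      ring
    have hgr : gr r • oo K = Projectivization.mk K ![r, 1] (by simp) := by
      unfold oo
      rw [Projectivization.smul_mk, Projectivization.mk_eq_mk_iff']
      refine ⟨1, ?_⟩
      rw [one_smul]
      funext i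
      fin_cases i
      · change r = (gr r • (![1, 0] : Fin 2 → K)) 0
        rw [Gas.smul0]
        simp [gr]
      · change (1 : K) = (gr r • (![1, 0] : Fin 2 → K)) 1
        rw [Gas.smul1]
        simp [gr]
    generalize Projectivization.mk K ![r, 1] (by simp) = b at hgr ⊢
    have hgb : g b • oo K = gr r • oo K := by rw [hg b, hgr]
    have key := uniq hU (T := T) (F := fun x => Th (a b) (act (g b)⁻¹ x))
      (G := fun x => Th a' (act (gr r)⁻¹ x)) (g := g b) (k := gr r) hgb (hH1 b) h2 (hH2 b) h1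
    exact key x hx

end

end Pool.Agent.Lib.MP_50bb2e_nt.Anf.Hc
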