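import Pool.Agent.Lib.MP_50bb2e_nt.Anf.Iface
import Mathlib.Data.Fin.Parity

/-!
MP_50bb2e_nt, board ANF, row REL: exactness of the complex of non-constant tuples.
-/

namespace Pool.Agent.Lib.MP_50bb2e_nt.Anf.Rel

open Finset
open Pool.Agent.Lib.MP_50bb2e_nt.Anf

noncomputable section

variable {V : Type}

/-! ### The boundary as an additive map -/

lemma bd_single (q : ℕ) (σ : Fin (q + 1) → V) (k : ℤ) :
    bd q (Finsupp.single σ k) =
      ∑ i : Fin (q + 1), Finsupp.single (fun j => σ (i.succAbove j)) ((-1) ^ (i : ℕ) * k) := by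
  classical
  unfold bd
  rw [Finsupp.sum_single_index]
  simp

lemma bd_zero (q : ℕ) : bd q (0 : (Fin (q + 1) → V) →₀ ℤ) = 0 := by
  unfold bd; exact Finsupp.sum_zero_index

lemma bd_add (q : ℕ) (y z : (Fin (q + 1) → V) →₀ ℤ) : bd q (y + z) = bd q y + bd q z := by
  classical
  unfold bd
  refine Finsupp.sum_add_index' (fun σ => ?_) (fun σ a b => ?_)
  · simp
  · simp only [mul_add, Finsupp.single_add, Finset.sum_add_distrib]

/-- the boundary as an additive homomorphism -/
def bdh (V : Type) (q : ℕ) : ((Fin (q + 1) → V) →₀ ℤ) →+ ((Fin q → V) →₀ ℤ) where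
  toFun := bd q
  map_zero' := bd_zero q
  map_add' := bd_add q

lemma bdh_apply (q : ℕ) (z : (Fin (q + 1) → V) →₀ ℤ) : bdh V q z = bd q z := rfl

lemma bd_sub (q : ℕ) (y z : (Fin (q + 1) → V) →₀ ℤ) : bd q (y - z) = bd q y - bd q z := by
  rw [← bdh_apply, ← bdh_apply, ← bdh_apply, map_sub]

/-- the square of the boundary is zero -/
lemma bd_bd (q : ℕ) (z : (Fin (q + 2) → V) →₀ ℤ) : bd q (bd (q + 1) z) = 0 := by
  classical
  have h : (bdh V q).comp (bdh V (q + 1)) = 0 := by
    refine Finsupp.addHom_ext fun σ k => ?_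
    rw [AddMonoidHom.comp_apply, AddMonoidHom.zero_apply, bdh_apply (q + 1), bd_single, map_sum]
    simp only [bdh_apply, bd_single]
    rw [← Finset.sum_product']
    refine Finset.sum_involution
      (fun p _ => (p.1.succAbove p.2, p.2.predAbove p.1)) ?_ ?_ ?_ ?_
    · rintro ⟨i, j⟩ -
      simp only
      rw [← mul_assoc, ← mul_assoc, ← pow_add, ← pow_add]
      have e : (fun l : Fin q => σ ((i.succAbove j).succAbove ((j.predAbove i).succAbove l))) =
          fun l => σ (i.succAbove (j.succAbove l)) := by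
        funext l
        rw [Fin.succAbove_succAbove_succAbove_predAbove]
      rw [e, ← Finsupp.single_add, add_comm (j : ℕ) (i : ℕ),
        add_comm ((j.predAbove i : Fin (q + 1)) : ℕ), Fin.neg_one_pow_succAbove_add_predAbove]
      simp
    · rintro ⟨i, j⟩ - - h
      exact Fin.succAbove_ne i j (congrArg Prod.fst h)
    · intro _ _
      exact Finset.mem_product.2 ⟨Finset.mem_univ _, Finset.mem_univ _⟩
    · rintro ⟨i, j⟩ -
      exact Prod.ext (Fin.succAbove_succAbove_predAbove i j)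
        (Fin.predAbove_predAbove_succAbove i j)
  have := DFunLike.congr_fun h z
  exact this

/-! ### Constant tuples -/

/-- supported on constant tuples -/
def Cst {q : ℕ} (z : (Fin q → V) →₀ ℤ) : Prop := ∀ σ, NC σ → z σ = 0

lemma not_nc {q : ℕ} {σ : Fin (q + 1) → V} (h : ¬ NC σ) : σ = fun _ => σ 0 := by
  funext i
  by_contra hne
  exact h ⟨i, 0, hne⟩

lemma nc_const {q : ℕ} (c : V) : ¬ NC (fun _ : Fin q => c) := fun ⟨_, _, h⟩ => h rfl

/-- the chain of constant `p`-tuples -/
def dg (p : ℕ) (f : V →₀ ℤ) : (Fin p → V) →₀ ℤ := f.mapDomain (fun c _ => c)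

lemma dg_cst (p : ℕ) (f : V →₀ ℤ) : Cst (dg p f) := by
  classical
  intro σ hσ
  by_contra hne
  have := Finsupp.mapDomain_support (Finsupp.mem_support_iff.2 hne)
  obtain ⟨c, -, rfl⟩ := Finset.mem_image.1 this
  exact nc_const c hσ

lemma dg_supp (p : ℕ) (f : V →₀ ℤ) {σ : Fin p → V} (h : σ ∈ (dg p f).support) :
    ∃ c, σ = fun _ => c := by
  classical
  obtain ⟨c, -, rfl⟩ := Finset.mem_image.1 (Finsupp.mapDomain_support h)
  exact ⟨c, rfl⟩

/-- a chain of constant `(p + 1)`-tuples is `dg` of its diagonal -/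
lemma cst_eq (p : ℕ) {z : (Fin (p + 1) → V) →₀ ℤ} (h : Cst z) :
    z = dg (p + 1) (z.mapDomain (fun σ => σ 0)) := by
  classical
  unfold dg
  rw [← Finsupp.mapDomain_comp]
  nth_rw 1 [← Finsupp.mapDomain_id (v := z)]
  refine Finsupp.mapDomain_congr fun σ hσ => ?_
  by_cases hn : NC σ
  · exact absurd (h σ hn) (Finsupp.mem_support_iff.1 hσ)
  · exact not_nc hn

/-- the boundary of the chain of constant tuples -/
lemma bd_dg (q : ℕ) (f : V →₀ ℤ) :
    bd q (dg (q + 1) f) = if Even q then dg q f else 0 := by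
  classical
  have h : (bdh V q).comp (Finsupp.mapDomain.addMonoidHom (fun (c : V) (_ : Fin (q + 1)) => c)) =
      if Even q then Finsupp.mapDomain.addMonoidHom (fun (c : V) (_ : Fin q) => c) else 0 := by
    refine Finsupp.addHom_ext fun c k => ?_
    rw [AddMonoidHom.comp_apply]
    have e : (Finsupp.mapDomain.addMonoidHom (fun (c : V) (_ : Fin (q + 1)) => c))
        (Finsupp.single c k) = Finsupp.single (fun _ : Fin (q + 1) => c) k :=
      Finsupp.mapDomain_single
    rw [e, bdh_apply, bd_single]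
    have e2 : ∑ i : Fin (q + 1), Finsupp.single (fun _ : Fin q => c) ((-1) ^ (i : ℕ) * k) =
        Finsupp.single (fun _ : Fin q => c) ((∑ i : Fin (q + 1), (-1) ^ (i : ℕ)) * k) := by
      rw [Finset.sum_mul, Finsupp.single_finsetSum]
    rw [e2, Fin.sum_univ_eq_sum_range (fun i => (-1 : ℤ) ^ i), neg_one_geom_sum]
    by_cases hq : Even q
    · have h1 : ¬ Even (q + 1) := by rw [Nat.even_add_one]; exact not_not.2 hq
      rw [if_neg h1, if_pos hq, one_mul]
      exact (Finsupp.mapDomain_single (M := ℤ) (f := fun (c : V) (_ : Fin q) => c)).symm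
    · have h1 : Even (q + 1) := by rw [Nat.even_add_one]; exact hq
      rw [if_pos h1, if_neg hq, zero_mul, Finsupp.single_zero]
      rfl
  have h2 := DFunLike.congr_fun h f
  by_cases hq : Even q
  · rw [if_pos hq] at h2 ⊢
    exact h2
  · rw [if_neg hq] at h2 ⊢
    exact h2

lemma bd_cst (q : ℕ) {z : (Fin (q + 1) → V) →₀ ℤ} (h : Cst z) : Cst (bd q z) := by
  rw [cst_eq q h, bd_dg]
  split_ifs
  · exact dg_cst _ _
  · intro σ _; rfl

/-- dropping the constant tuples -/
lemma drop (q : ℕ) (S : ∀ q : ℕ, (Fin q → V) → Prop) (w : (Fin (q + 1) → V) →₀ ℤ)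
    (h : ∀ σ ∈ w.support, S (q + 1) σ) :
    ∃ w' : (Fin (q + 1) → V) →₀ ℤ, (∀ σ ∈ w'.support, S (q + 1) σ ∧ NC σ) ∧ Cst (w - w') := by
  classical
  refine ⟨w.filter NC, fun σ hσ => ?_, fun σ hσ => ?_⟩
  · rw [Finsupp.support_filter, Finset.mem_filter] at hσ
    exact ⟨h σ hσ.1, hσ.2⟩
  · rw [Finsupp.sub_apply, Finsupp.filter_apply_pos _ _ hσ, sub_self]

/-! ### The theorem -/

theorem rel_proof : RelStatement := by
  classical
  intro V S hface hconst hacy
  refine ⟨fun z hz => ?_, fun z hz hbd => ?_, fun q z hz hbd => ?_⟩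
  · obtain ⟨w, hw, hwz⟩ := hacy.2 0 z (fun σ _ => by
      have : σ = fun _ => σ 0 := funext fun i => congrArg σ (Subsingleton.elim (α := Fin 1) i 0)
      rw [this]
      exact hconst 1 _) hz
    obtain ⟨w', hw', hc⟩ := drop 1 S w hw
    refine ⟨w', hw', ?_⟩
    have h1 : bd 1 (w - w') = 0 := by
      rw [cst_eq 1 hc, bd_dg, if_neg (by decide)]
    rw [bd_sub, hwz, sub_eq_zero] at h1
    exact h1.symm
  · obtain ⟨w, hw, hwz⟩ := hacy.2 1 z (fun σ hσ => (hz σ hσ).1) hbd
    obtain ⟨w', hw', hc⟩ := drop 2 S w hw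
    refine ⟨w', hw', fun σ hσ => ?_⟩
    have h1 := bd_cst 2 hc σ hσ
    rw [bd_sub, Finsupp.sub_apply, hwz, sub_eq_zero] at h1
    exact h1.symm
  · obtain ⟨u, hu, huz⟩ : ∃ u : (Fin (q + 3) → V) →₀ ℤ, (∀ σ ∈ u.support, ∃ c, σ = fun _ => c) ∧
        bd (q + 2) (z - u) = 0 := by
      have hy : Cst (bd (q + 2) z) := hbd
      by_cases hq : Even q
      · refine ⟨dg (q + 3) ((bd (q + 2) z).mapDomain (fun σ => σ 0)),
          fun σ hσ => dg_supp _ _ hσ, ?_⟩
        rw [bd_sub, bd_dg, if_pos (by rw [Nat.even_add]; simp [hq]), ← cst_eq (q + 1) hy, sub_self]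
      · refine ⟨0, fun σ hσ => by simp at hσ, ?_⟩
        rw [sub_zero]
        have h1 := bd_bd (q + 1) z
        rw [cst_eq (q + 1) hy, bd_dg, if_pos (by rw [Nat.even_add_one]; exact hq)] at h1
        have hinj : Function.Injective (fun (c : V) (_ : Fin (q + 1)) => c) :=
          fun a b hab => congrFun hab 0
        have h2 := Finsupp.mapDomain_injective hinj
          (h1.trans (Finsupp.mapDomain_zero (M := ℤ)
            (f := fun (c : V) (_ : Fin (q + 1)) => c)).symm)
        rw [cst_eq (q + 1) hy, h2]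
        exact Finsupp.mapDomain_zero
    obtain ⟨w, hw, hwz⟩ := hacy.2 (q + 2) (z - u) (fun σ hσ => by
      by_cases h1 : σ ∈ u.support
      · obtain ⟨c, rfl⟩ := hu σ h1
        exact hconst _ c
      · have h2 : σ ∈ z.support := by
          rw [Finsupp.mem_support_iff] at hσ ⊢
          rw [Finsupp.notMem_support_iff] at h1
          rwa [Finsupp.sub_apply, h1, sub_zero] at hσ
        exact (hz σ h2).1) huz
    obtain ⟨w', hw', hc⟩ := drop (q + 3) S w hw
    refine ⟨w', hw', fun σ hσ => ?_⟩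
    have h1 := bd_cst (q + 3) hc σ hσ
    have h2 : u σ = 0 := by
      by_contra h3
      obtain ⟨c, rfl⟩ := hu σ (Finsupp.mem_support_iff.2 h3)
      exact nc_const c hσ
    rw [bd_sub, Finsupp.sub_apply, hwz, Finsupp.sub_apply, h2, sub_zero, sub_eq_zero] at h1
    exact h1.symm

end

end Pool.Agent.Lib.MP_50bb2e_nt.Anf.Rel
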