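import Pool.Agent.Lib.MP_50bb2e_nt.Anf.Hpm
import Pool.Agent.Lib.MP_50bb2e_nt.Anf.Rel

/-!
MP_50bb2e_nt, board ANF, row HOM: finite generation of the values of a cocycle. The module of
divisors of degree zero is resolved by the modules of non-constant tuples (REL), whose homology is
finitely generated (HPM); dimension shifting.
-/

namespace Pool.Agent.Lib.MP_50bb2e_nt.Anf.Hom

open CategoryTheory Limits
open Pool.Agent.Lib.MP_50bb2e_nt.Anf.Hpm
open Pool.Agent.Lib.MP_50bb2e_nt.Anf.Rel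

noncomputable section

section res

variable {R : Type} [CommRing R] [IsNoetherianRing R] {Γ : Type} [Group Γ]

/-- a module with a resolution by modules with finitely generated homology -/
theorem fgh_res_aux : ∀ (k : ℕ) (D : ℕ → Rep.{0} R Γ) (M : Rep.{0} R Γ)
    (d : ∀ i, D (i + 1) ⟶ D i) (ε : D 0 ⟶ M), Function.Surjective ε.hom →
    (∀ x, ε.hom ((d 0).hom x) = 0) → (∀ x, ε.hom x = 0 → ∃ y, (d 0).hom y = x) →
    (∀ i x, (d i).hom ((d (i + 1)).hom x) = 0) →
    (∀ i x, (d i).hom x = 0 → ∃ y, (d (i + 1)).hom y = x) →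
    (∀ i, FGH (D i)) → Module.Finite R (groupHomology M k)
  | 0, D, M, d, ε, hε, h0, h0', h1, h1', hD => ses_zero ε hε (hD 0 0)
  | k + 1, D, M, d, ε, hε, h0, h0', h1, h1', hD => by
    have hW : ∀ g : Γ, LinearMap.ker ε.hom.toLinearMap ≤
        (LinearMap.ker ε.hom.toLinearMap).comap ((D 0).ρ g) := by
      intro g x hx
      simp only [Submodule.mem_comap, LinearMap.mem_ker] at hx ⊢
      have := Rep.hom_comm_apply ε g x
      change ε.hom ((D 0).ρ g x) = 0
      rw [this]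
      change M.ρ g (ε.hom.toLinearMap x) = 0
      rw [hx, map_zero]
    let I : Rep.{0} R Γ := Rep.subrepresentation (D 0) (LinearMap.ker ε.hom.toLinearMap) hW
    let i : I ⟶ D 0 := Rep.subtype (D 0) (LinearMap.ker ε.hom.toLinearMap) hW
    let q : D 1 ⟶ I := Rep.ofHom
      ⟨LinearMap.codRestrict (LinearMap.ker ε.hom.toLinearMap) (d 0).hom.toLinearMap
        (fun x => by simpa using h0 x), by
        intro g
        ext x
        exact Rep.hom_comm_apply (d 0) g x⟩
    have hqs : Function.Surjective q.hom := by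
      intro y
      obtain ⟨x, hx⟩ := h0' (y : LinearMap.ker ε.hom.toLinearMap).1
        (y : LinearMap.ker ε.hom.toLinearMap).2
      exact ⟨x, Subtype.ext hx⟩
    obtain ⟨w, hS⟩ := mkSES i ε (fun x y hxy => Subtype.ext hxy) hε
      (fun x => (x : LinearMap.ker ε.hom.toLinearMap).2) (fun x hx => ⟨⟨x, hx⟩, rfl⟩)
    refine ses_right hS k (hD 0 _) ?_
    exact fgh_res_aux k (fun i => D (i + 1)) I (fun i => d (i + 1)) q hqs
      (fun x => Subtype.ext (h1 0 x)) (fun x hx => h1' 0 x (congrArg Subtype.val hx))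
      (fun i x => h1 (i + 1) x) (fun i x hx => h1' (i + 1) x hx) (fun i => hD (i + 1))

end res

/-! ### Linear forms on the homology -/

section form

/-- an additive map as a morphism -/
def ofAdd {R : Type} [CommRing R] (M N : ModuleCat.{0} R) (f : M →+ N)
    (hf : ∀ (r : R) (x : M), f (r • x) = r • f x) : M ⟶ N :=
  ModuleCat.ofHom { toFun := f, map_add' := f.map_add, map_smul' := hf }

theorem ofAdd_hom {R : Type} [CommRing R] (M N : ModuleCat.{0} R) (f : M →+ N)
    (hf : ∀ (r : R) (x : M), f (r • x) = r • f x) (x : M) : (ofAdd M N f hf).hom x = f x := rfl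

/-- a form on the chains which vanishes on the boundaries has finitely generated values on the
cycles -/
theorem form_gen {R : Type} [CommRing R] {Γ : Type} [Group Γ] (A : Rep.{0} R Γ) (n : ℕ)
    (hfin : Module.Finite R (groupHomology A n)) (M : ModuleCat.{0} R)
    (φ : (groupHomology.inhomogeneousChains A).X n ⟶ M)
    (hφ : ∀ z : (Fin (n + 1) → Γ) →₀ A,
      φ.hom ((groupHomology.inhomogeneousChains.d A n).hom z) = 0) :
    ∃ V0 : Finset M, ∀ (m : ℕ) (_ : (ComplexShape.down ℕ).next n = m) (z : (Fin n → Γ) →₀ A),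
      ((groupHomology.inhomogeneousChains A).d n m).hom z = 0 →
      φ.hom z ∈ Submodule.span R (V0 : Set M) := by
  let K := groupHomology.inhomogeneousChains A
  have w : K.toCycles (n + 1) n ≫ (K.iCycles n ≫ φ) = 0 := by
    rw [← Category.assoc, HomologicalComplex.toCycles_i]
    change (groupHomology.inhomogeneousChains A).d (n + 1) n ≫ φ = 0
    rw [groupHomology.inhomogeneousChains.d_def]
    exact ModuleCat.hom_ext (LinearMap.ext fun z => hφ z)
  let Φ : groupHomology A n ⟶ M :=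
    (K.homologyIsCokernel (n + 1) n (by simp)).desc (CokernelCofork.ofπ _ w)
  have hΦ : K.homologyπ n ≫ Φ = K.iCycles n ≫ φ :=
    (K.homologyIsCokernel (n + 1) n (by simp)).fac (CokernelCofork.ofπ _ w) WalkingParallelPair.one
  have hfg : (LinearMap.range Φ.hom).FG := by
    have := hfin
    exact Module.Finite.iff_fg.1 (Module.Finite.range Φ.hom)
  obtain ⟨V0, hV0⟩ := hfg
  refine ⟨V0, fun m hm z hz => ?_⟩
  have e1 : K.iCycles n (groupHomology.cyclesMk n m hm z hz) = z := groupHomology.iCycles_mk hm z hz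
  have e2 : Φ.hom (K.homologyπ n (groupHomology.cyclesMk n m hm z hz)) = φ.hom z := by
    have := congrArg (fun q => q.hom (groupHomology.cyclesMk n m hm z hz)) hΦ
    have h3 : φ.hom (K.iCycles n (groupHomology.cyclesMk n m hm z hz)) = φ.hom z := by
      rw [e1]
    rw [← h3]
    exact this
  rw [hV0]
  exact ⟨_, e2⟩

theorem form_fg {Γ : Type} [Group Γ] (A : Rep.{0} ℤ Γ) (n : ℕ)
    (hfin : Module.Finite ℤ (groupHomology A n))
    (φ : ((Fin n → Γ) →₀ A) →+ ℂ)
    (hφ : ∀ z : (Fin (n + 1) → Γ) →₀ A, φ ((groupHomology.inhomogeneousChains.d A n).hom z) = 0) :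
    ∃ V0 : Finset ℂ, ∀ (m : ℕ) (_ : (ComplexShape.down ℕ).next n = m) (z : (Fin n → Γ) →₀ A),
      ((groupHomology.inhomogeneousChains A).d n m).hom z = 0 →
      φ z ∈ AddSubgroup.closure (V0 : Set ℂ) := by
  obtain ⟨V0, hV0⟩ := form_gen A n hfin (ModuleCat.of ℤ ℂ)
    (ofAdd ((groupHomology.inhomogeneousChains A).X n) (ModuleCat.of ℤ ℂ) φ (fun c x => by
      have h1 := @map_intCast_smul ((groupHomology.inhomogeneousChains A).X n) ℂ _ _
        (((Fin n → Γ) →₀ A) →+ ℂ) _ _ φ ℤ ℤ _ _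
        ((groupHomology.inhomogeneousChains A).X n).isModule _ c x
      exact h1)) hφ
  refine ⟨V0, fun m hm z hz => ?_⟩
  have h := hV0 m hm z hz
  rw [← Submodule.span_int_eq_addSubgroupClosure]
  exact h

end form

section tuples

variable {Γ V : Type} [Group Γ] [MulAction Γ V] {S : ∀ q : ℕ, (Fin q → V) → Prop}

theorem nc_smul {q : ℕ} (g : Γ) (σ : Fin q → V) (h : NC σ) : NC (fun j => g • σ j) := by
  obtain ⟨i, j, hij⟩ := h
  exact ⟨i, j, fun h => hij (MulAction.injective g h)⟩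

/-- the non-constant tuples in `S` -/
def sq (hinv : ∀ (q : ℕ) (σ : Fin q → V) (g : Γ), S q σ → S q (fun j => g • σ j)) (q : ℕ) :
    SubMulAction Γ (Fin q → V) where
  carrier := {σ | S q σ ∧ NC σ}
  smul_mem' := fun g σ hσ => ⟨hinv q σ g hσ.1, nc_smul g σ hσ.2⟩

variable (hinv : ∀ (q : ℕ) (σ : Fin q → V) (g : Γ), S q σ → S q (fun j => g • σ j))

/-- a chain of non-constant tuples as a chain of tuples -/
def ex (q : ℕ) : (sq hinv q →₀ ℤ) →ₗ[ℤ] ((Fin q → V) →₀ ℤ) :=
  Finsupp.lmapDomain ℤ ℤ Subtype.val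

theorem ex_mem {q : ℕ} (x : sq hinv q →₀ ℤ) (σ : sq hinv q) : ex hinv q x σ.1 = x σ := by
  change Finsupp.mapDomain Subtype.val x σ.1 = x σ
  exact Finsupp.mapDomain_apply Subtype.val_injective x σ

theorem ex_not {q : ℕ} (x : sq hinv q →₀ ℤ) {σ : Fin q → V} (h : ¬ (S q σ ∧ NC σ)) :
    ex hinv q x σ = 0 := by
  change Finsupp.mapDomain Subtype.val x σ = 0
  refine Finsupp.mapDomain_of_notMem_range x σ ?_
  rintro ⟨τ, rfl⟩
  exact h τ.2

theorem ex_supp {q : ℕ} (x : sq hinv q →₀ ℤ) {σ : Fin q → V} (h : σ ∈ (ex hinv q x).support) :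
    S q σ ∧ NC σ := by
  by_contra hn
  exact (Finsupp.mem_support_iff.1 h) (ex_not hinv x hn)

/-- restriction to the non-constant tuples in `S` -/
def rs (q : ℕ) : ((Fin q → V) →₀ ℤ) →ₗ[ℤ] (sq hinv q →₀ ℤ) :=
  Finsupp.lsubtypeDomain (sq hinv q : Set (Fin q → V))

theorem rs_apply {q : ℕ} (w : (Fin q → V) →₀ ℤ) (σ : sq hinv q) : rs hinv q w σ = w σ.1 := rfl

theorem ex_rs {q : ℕ} (w : (Fin q → V) →₀ ℤ) (h : ∀ σ ∈ w.support, S q σ ∧ NC σ) :
    ex hinv q (rs hinv q w) = w := by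
  ext σ
  by_cases hσ : S q σ ∧ NC σ
  · rw [ex_mem hinv _ ⟨σ, hσ⟩, rs_apply]
  · rw [ex_not hinv _ hσ]
    by_contra hne
    exact hσ (h σ (Finsupp.mem_support_iff.2 (Ne.symm hne)))

theorem rs_ex {q : ℕ} (x : sq hinv q →₀ ℤ) : rs hinv q (ex hinv q x) = x := by
  ext σ
  rw [rs_apply, ex_mem]

/-- the relative boundary -/
def rb (q : ℕ) : (sq hinv (q + 1) →₀ ℤ) →ₗ[ℤ] (sq hinv q →₀ ℤ) :=
  rs hinv q ∘ₗ (bdh V q).toIntLinearMap ∘ₗ ex hinv (q + 1)

theorem rb_apply {q : ℕ} (x : sq hinv (q + 1) →₀ ℤ) (σ : sq hinv q) :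
    rb hinv q x σ = bd q (ex hinv (q + 1) x) σ.1 := rfl

theorem bd_map {W : Type} (f : V → W) (q : ℕ) (z : (Fin (q + 1) → V) →₀ ℤ) :
    bd q (z.mapDomain (fun σ j => f (σ j))) = (bd q z).mapDomain (fun σ j => f (σ j)) := by
  have h : (bdh W q).comp (Finsupp.mapDomain.addMonoidHom (fun (σ : Fin (q + 1) → V) j => f (σ j))) =
      (Finsupp.mapDomain.addMonoidHom (fun (σ : Fin q → V) j => f (σ j))).comp (bdh V q) := by
    refine Finsupp.addHom_ext fun σ k => ?_
    rw [AddMonoidHom.comp_apply, AddMonoidHom.comp_apply]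
    have e1 : (Finsupp.mapDomain.addMonoidHom (fun (σ : Fin (q + 1) → V) j => f (σ j)))
        (Finsupp.single σ k) = Finsupp.single (fun j => f (σ j)) k := Finsupp.mapDomain_single
    rw [e1, bdh_apply, bdh_apply, bd_single, bd_single, map_sum]
    refine Finset.sum_congr rfl fun i _ => ?_
    exact (Finsupp.mapDomain_single
      (f := fun (σ : Fin q → V) j => f (σ j))).symm
  exact DFunLike.congr_fun h z

theorem map_smul_apply {q : ℕ} (g : Γ) (w : (Fin q → V) →₀ ℤ) (σ : Fin q → V) :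
    (w.mapDomain (fun σ j => g • σ j)) σ = w (fun j => g⁻¹ • σ j) := by
  have h : σ = (fun (σ : Fin q → V) j => g • σ j) (fun j => g⁻¹ • σ j) := by
    funext j
    simp
  conv_lhs => rw [h]
  refine Finsupp.mapDomain_apply ?_ _ _
  intro a b hab
  funext j
  exact MulAction.injective g (congrFun hab j)

theorem ex_pr {q : ℕ} (g : Γ) (x : sq hinv q →₀ ℤ) :
    ex hinv q (pr ℤ Γ (sq hinv q) g x) = (ex hinv q x).mapDomain (fun σ j => g • σ j) := by
  change Finsupp.mapDomain Subtype.val (Finsupp.mapDomain (fun s => g • s) x) =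
    Finsupp.mapDomain _ (Finsupp.mapDomain Subtype.val x)
  rw [← Finsupp.mapDomain_comp, ← Finsupp.mapDomain_comp]
  rfl

/-- the relative boundary as a morphism -/
def rbh (q : ℕ) : PM ℤ Γ (sq hinv (q + 1)) ⟶ PM ℤ Γ (sq hinv q) :=
  Rep.ofHom ⟨rb hinv q, by
    intro g
    refine LinearMap.ext (fun x => Finsupp.ext (fun σ => ?_))
    change rb hinv q (pr ℤ Γ (sq hinv (q + 1)) g x) σ = pr ℤ Γ (sq hinv q) g (rb hinv q x) σ
    rw [rb_apply, ex_pr, bd_map, map_smul_apply, pr_apply, rb_apply]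
    rfl⟩

theorem rbh_hom {q : ℕ} (x : sq hinv (q + 1) →₀ ℤ) : (rbh hinv q).hom x = rb hinv q x := rfl

theorem bd_supp (hface : ∀ (q : ℕ) (σ : Fin (q + 1) → V) (i : Fin (q + 1)), S (q + 1) σ →
      S q (fun j => σ (i.succAbove j))) (q : ℕ) (z : (Fin (q + 1) → V) →₀ ℤ)
    (hz : ∀ σ ∈ z.support, S (q + 1) σ) {σ : Fin q → V} (hσ : ¬ S q σ) : bd q z σ = 0 := by
  classical
  unfold bd
  rw [Finsupp.sum, Finsupp.finsetSum_apply]
  refine Finset.sum_eq_zero fun τ hτ => ?_
  rw [Finsupp.finsetSum_apply]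
  refine Finset.sum_eq_zero fun i _ => ?_
  refine Finsupp.single_eq_of_ne ?_
  rintro rfl
  exact hσ (hface q τ i (hz τ hτ))

/-- the part of the boundary on constant tuples -/
theorem bd_ex_cst (hface : ∀ (q : ℕ) (σ : Fin (q + 1) → V) (i : Fin (q + 1)), S (q + 1) σ →
      S q (fun j => σ (i.succAbove j))) (q : ℕ) (x : sq hinv (q + 1) →₀ ℤ) :
    Cst (bd q (ex hinv (q + 1) x) - ex hinv q (rb hinv q x)) := by
  intro σ hσ
  rw [Finsupp.sub_apply]
  by_cases h : S q σ
  · rw [ex_mem hinv _ ⟨σ, h, hσ⟩, rb_apply, sub_self]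
  · rw [ex_not hinv _ (fun h' => h h'.1), bd_supp hface q _ (fun σ hσ => (ex_supp hinv x hσ).1) h,
      sub_self]

theorem rb_rb (hface : ∀ (q : ℕ) (σ : Fin (q + 1) → V) (i : Fin (q + 1)), S (q + 1) σ →
      S q (fun j => σ (i.succAbove j))) (q : ℕ) (x : sq hinv (q + 2) →₀ ℤ) :
    rb hinv q (rb hinv (q + 1) x) = 0 := by
  ext σ
  rw [rb_apply, Finsupp.zero_apply]
  have h1 := bd_cst q (bd_ex_cst hinv hface (q + 1) x) σ.1 σ.2.2
  rw [bd_sub, bd_bd, zero_sub, Finsupp.neg_apply, neg_eq_zero] at h1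
  exact h1

/-! ### the augmentation -/

/-- the sum of the coefficients -/
def aug (V : Type) : (V →₀ ℤ) →ₗ[ℤ] ℤ := Finsupp.lsum ℤ (fun _ => LinearMap.id)

theorem aug_apply (m : V →₀ ℤ) : aug V m = m.sum (fun _ k => k) := by
  unfold aug
  rw [Finsupp.lsum_apply]
  rfl

theorem aug_pr (g : Γ) (m : V →₀ ℤ) : aug V (pr ℤ Γ V g m) = aug V m := by
  change aug V (Finsupp.mapDomain (fun s => g • s) m) = aug V m
  rw [aug_apply, aug_apply, Finsupp.sum_mapDomain_index (fun _ => rfl) (fun _ _ _ => rfl)]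

theorem aug_ker (g : Γ) : LinearMap.ker (aug V) ≤ (LinearMap.ker (aug V)).comap ((PM ℤ Γ V).ρ g) := by
  intro m hm
  rw [LinearMap.mem_ker] at hm
  rw [Submodule.mem_comap, LinearMap.mem_ker]
  exact (aug_pr g m).trans hm

/-- divisors of degree zero -/
def St (Γ V : Type) [Group Γ] [MulAction Γ V] : Rep.{0} ℤ Γ :=
  Rep.subrepresentation (PM ℤ Γ V) (LinearMap.ker (aug V)) aug_ker

/-- the divisor of an element of `St` -/
def dv : St Γ V →+ (V →₀ ℤ) := (LinearMap.ker (aug V)).subtype.toAddMonoidHom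

theorem dv_sum (m : St Γ V) : (dv m).sum (fun _ k => k) = 0 := by
  rw [← aug_apply]
  exact (show LinearMap.ker (aug V) from m).2

theorem dv_rho (g : Γ) (m : St Γ V) : dv ((St Γ V).ρ g m) = (dv m).mapDomain (fun c => g • c) := rfl

theorem dv_inj {m m' : St Γ V} (h : dv m = dv m') : m = m' := Subtype.ext h

theorem exists_dv (m : V →₀ ℤ) (h : aug V m = 0) : ∃ x : St Γ V, dv x = m := ⟨⟨m, h⟩, rfl⟩

theorem aug_dg (m : V →₀ ℤ) : dg 0 m = Finsupp.single (fun j => j.elim0) (aug V m) := by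
  have h : (Finsupp.mapDomain.addMonoidHom (fun (c : V) (_ : Fin 0) => c)) =
      (Finsupp.singleAddHom (fun j : Fin 0 => (j.elim0 : V))).comp (aug V).toAddMonoidHom := by
    refine Finsupp.addHom_ext fun c k => ?_
    rw [AddMonoidHom.comp_apply]
    have e1 : (Finsupp.mapDomain.addMonoidHom (fun (c : V) (_ : Fin 0) => c))
        (Finsupp.single c k) = Finsupp.single (fun _ : Fin 0 => c) k := Finsupp.mapDomain_single
    rw [e1]
    have e2 : (aug V).toAddMonoidHom (Finsupp.single c k) = k := by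
      change aug V (Finsupp.single c k) = k
      rw [aug_apply, Finsupp.sum_single_index rfl]
    rw [e2]
    have e3 : (fun _ : Fin 0 => c) = (fun j : Fin 0 => (j.elim0 : V)) := funext fun j => j.elim0
    rw [e3]
    rfl
  exact DFunLike.congr_fun h m

theorem dg_zero_iff (m : V →₀ ℤ) : dg 0 m = 0 ↔ aug V m = 0 := by
  rw [aug_dg, Finsupp.single_eq_zero]

/-- the differences of the pairs -/
def ev (V : Type) : ((Fin 1 → V) →₀ ℤ) →ₗ[ℤ] (V →₀ ℤ) := Finsupp.lmapDomain ℤ ℤ (fun σ => σ 0)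

theorem ev_dg (m : V →₀ ℤ) : ev V (dg 1 m) = m := by
  change Finsupp.mapDomain _ (Finsupp.mapDomain _ m) = m
  rw [← Finsupp.mapDomain_comp]
  exact Finsupp.mapDomain_id

theorem dg_ev (z : (Fin 1 → V) →₀ ℤ) : dg 1 (ev V z) = z := by
  have h : Cst z := by
    rintro σ ⟨i, j, hij⟩
    exact absurd (by rw [Subsingleton.elim i j]) hij
  exact (cst_eq 0 h).symm

/-- the map to the divisors of degree zero -/
def e0 : (sq hinv 2 →₀ ℤ) →ₗ[ℤ] (V →₀ ℤ) :=
  ev V ∘ₗ (bdh V 1).toIntLinearMap ∘ₗ ex hinv 2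

theorem e0_apply (x : sq hinv 2 →₀ ℤ) : e0 hinv x = ev V (bd 1 (ex hinv 2 x)) := rfl

theorem e0_ker (x : sq hinv 2 →₀ ℤ) : e0 hinv x ∈ LinearMap.ker (aug V) := by
  rw [LinearMap.mem_ker, ← dg_zero_iff]
  have h := bd_dg 0 (e0 hinv x)
  rw [if_pos (by decide)] at h
  rw [← h, e0_apply, dg_ev, bd_bd]

/-- the map to the divisors of degree zero -/
def e0h : PM ℤ Γ (sq hinv 2) ⟶ St Γ V :=
  Rep.ofHom ⟨LinearMap.codRestrict (LinearMap.ker (aug V)) (e0 hinv) (e0_ker hinv), by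
    intro g
    refine LinearMap.ext (fun x => Subtype.ext ?_)
    change e0 hinv (pr ℤ Γ (sq hinv 2) g x) = pr ℤ Γ V g (e0 hinv x)
    rw [e0_apply, ex_pr, bd_map, e0_apply]
    change Finsupp.mapDomain _ (Finsupp.mapDomain _ _) = Finsupp.mapDomain _ (Finsupp.mapDomain _ _)
    rw [← Finsupp.mapDomain_comp, ← Finsupp.mapDomain_comp]
    rfl⟩

end tuples


section tuples2

variable {Γ V : Type} [Group Γ] [MulAction Γ V] {S : ∀ q : ℕ, (Fin q → V) → Prop}

theorem fgh_st (hHpm : HpmStatement) (hRel : RelStatement)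
    (hface : ∀ (q : ℕ) (σ : Fin (q + 1) → V) (i : Fin (q + 1)), S (q + 1) σ →
      S q (fun j => σ (i.succAbove j)))
    (hconst : ∀ (q : ℕ) (c : V), S q (fun _ => c))
    (hinv : ∀ (q : ℕ) (σ : Fin q → V) (g : Γ), S q σ → S q (fun j => g • σ j))
    (hacy : Acy S)
    (horb : ∀ q : ℕ, ∃ T : Finset (Fin q → V), ∀ σ : Fin q → V, S q σ → (∃ i j, σ i ≠ σ j) →
      ∃ g : Γ, ∃ τ ∈ T, σ = fun j => g • τ j)
    (hst : ∀ (q : ℕ) (s : sq hinv q), (MulAction.stabilizer Γ s).FG ∧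
      ∀ g ∈ MulAction.stabilizer Γ s, ∀ h ∈ MulAction.stabilizer Γ s, g * h = h * g) :
    FGH (St Γ V) := by
  classical
  obtain ⟨r1, r2, r3⟩ := hRel V S hface hconst hacy
  have hD : ∀ q, FGH (PM ℤ Γ (sq hinv q)) := by
    intro q
    refine fgh_iso (isoMulAction (R := ℤ) (Γ := Γ) (sq hinv q)).symm ?_
    intro k
    obtain ⟨T, hT⟩ := horb q
    have hmem : ∀ τ ∈ T.filter (fun τ => S q τ ∧ NC τ), τ ∈ sq hinv q :=
      fun τ hτ => (Finset.mem_filter.1 hτ).2
    have h := hHpm Γ (sq hinv q) ⟨(T.filter (fun τ => S q τ ∧ NC τ)).attach.image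
      (fun τ => (⟨τ.1, hmem τ.1 τ.2⟩ : sq hinv q)), ?_⟩ (hst q) k
    · convert h
    · intro s
      obtain ⟨g, τ, hτ, hs⟩ := hT s.1 s.2.1 s.2.2
      have hτ2 : S q τ ∧ NC τ := by
        have e : τ = fun j => g⁻¹ • s.1 j := by
          rw [hs]
          funext j
          simp
        rw [e]
        exact ⟨hinv q _ g⁻¹ s.2.1, nc_smul g⁻¹ _ s.2.2⟩
      refine ⟨g, ⟨τ, hτ2⟩, ?_, Subtype.ext hs⟩
      exact Finset.mem_image.2 ⟨⟨τ, Finset.mem_filter.2 ⟨hτ, hτ2⟩⟩, Finset.mem_attach _ _, rfl⟩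
  intro k
  refine fgh_res_aux k (fun i => PM ℤ Γ (sq hinv (i + 2))) (St Γ V) (fun i => rbh hinv (i + 2))
    (e0h hinv) ?_ ?_ ?_ ?_ ?_ (fun i => hD (i + 2))
  · rintro ⟨m, hm⟩
    obtain ⟨w, hw1, hw2⟩ := r1 (dg 1 m) (by
      rw [bd_dg, if_pos (by decide), dg_zero_iff]
      exact hm)
    refine ⟨rs hinv 2 w, Subtype.ext ?_⟩
    change e0 hinv (rs hinv 2 w) = m
    rw [e0_apply, ex_rs hinv w hw1, hw2, ev_dg]
  · intro x
    refine Subtype.ext ?_
    change e0 hinv (rb hinv 2 x) = 0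
    rw [e0_apply]
    have h1 := bd_ex_cst hinv hface 2 x
    have h2 : bd 1 (bd 2 (ex hinv 3 x) - ex hinv 2 (rb hinv 2 x)) = 0 := by
      rw [cst_eq 1 h1, bd_dg, if_neg (by decide)]
    rw [bd_sub, bd_bd, zero_sub, neg_eq_zero] at h2
    rw [h2, map_zero]
  · intro x hx
    have h0 : e0 hinv x = 0 := congrArg Subtype.val hx
    have h1 : bd 1 (ex hinv 2 x) = 0 := by
      rw [← dg_ev (bd 1 (ex hinv 2 x)), ← e0_apply, h0]
      exact Finsupp.mapDomain_zero
    obtain ⟨w, hw1, hw2⟩ := r2 (ex hinv 2 x) (fun σ hσ => ex_supp hinv x hσ) h1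
    refine ⟨rs hinv 3 w, ?_⟩
    change rb hinv 2 (rs hinv 3 w) = x
    ext σ
    rw [rb_apply, ex_rs hinv w hw1, hw2 σ.1 σ.2.2, ex_mem]
  · intro i x
    change rb hinv (i + 2) (rb hinv (i + 3) x) = 0
    exact rb_rb hinv hface (i + 2) x
  · intro i x hx
    have h0 : rb hinv (i + 2) x = 0 := hx
    obtain ⟨w, hw1, hw2⟩ := r3 i (ex hinv (i + 3) x) (fun σ hσ => ex_supp hinv x hσ) (by
      intro σ hσ
      have h1 := bd_ex_cst hinv hface (i + 2) x σ hσ
      rw [h0, map_zero, sub_zero] at h1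
      exact h1)
    refine ⟨rs hinv (i + 4) w, ?_⟩
    change rb hinv (i + 3) (rs hinv (i + 4) w) = x
    ext σ
    rw [rb_apply, ex_rs hinv w hw1, hw2 σ.1 σ.2.2, ex_mem]

end tuples2

/-! ### Stabilizers -/

/-- a subgroup of a finitely generated commutative subgroup -/
theorem sub_fg {Γ : Type} [Group Γ] (L L' : Subgroup Γ) (hL : L.FG)
    (hc : ∀ g ∈ L, ∀ h ∈ L, g * h = h * g) (hle : L' ≤ L) : L'.FG := by
  let _ : CommGroup L :=
    { (inferInstance : Group L) with mul_comm := fun a b => Subtype.ext (hc a.1 a.2 b.1 b.2) }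
  have h1 : Group.FG L := (Group.fg_iff_subgroup_fg L).2 hL
  have h2 : AddGroup.FG (Additive L) := inferInstance
  have h3 : Module.Finite ℤ (Additive L) := Module.Finite.iff_addGroup_fg.2 h2
  have h4 : IsNoetherian ℤ (Additive L) := inferInstance
  have h5 : (AddSubgroup.toIntSubmodule (L'.subgroupOf L).toAddSubgroup).FG := h4.noetherian _
  rw [Submodule.fg_iff_addSubgroup_fg, AddSubgroup.toIntSubmodule_toAddSubgroup] at h5
  have h6 : (L'.subgroupOf L).FG := (Subgroup.fg_iff_add_fg _).2 h5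
  have h7 : Group.FG (L'.subgroupOf L) := (Group.fg_iff_subgroup_fg _).2 h6
  rw [← Group.fg_iff_subgroup_fg]
  exact Group.fg_of_surjective (f := (Subgroup.subgroupOfEquivOfLe hle).toMonoidHom)
    (Subgroup.subgroupOfEquivOfLe hle).surjective

/-- the values on commuting elements -/
theorem partial_pt {Γ U : Type} [Group Γ] [CommGroup U] (ρ : U →* Γ) {n : ℕ} (u : Fin n → U)
    (τ : Equiv.Perm (Fin n)) (j : Fin (n + 1)) :
    Fin.partialProd (fun i => ρ (u (τ i))) j = ρ (pt u τ j) := by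
  induction j using Fin.induction with
  | zero => simp [pt]
  | succ j ih =>
    rw [Fin.partialProd_succ, ih, ← map_mul]
    congr 1
    unfold pt
    have e : (Finset.univ.filter (fun i : Fin n => (i : ℕ) < (j.succ : Fin (n + 1)))) =
        insert j (Finset.univ.filter (fun i : Fin n => (i : ℕ) < (j.castSucc : Fin (n + 1)))) := by
      ext i
      simp only [Finset.mem_filter, Finset.mem_univ, true_and, Finset.mem_insert, Fin.val_succ,
        Fin.val_castSucc, Fin.ext_iff]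
      omega
    rw [e, Finset.prod_insert (by simp), mul_comm]

theorem hom_proof (hHpm : HpmStatement) (hRel : RelStatement) (hZcy : ZcyStatement) :
    HomStatement := by
  intro Γ V _ _ S hface hconst hinv hacy horb hstab n Ψ hequiv hcoc
  have hst : ∀ (q : ℕ) (s : sq hinv q), (MulAction.stabilizer Γ s).FG ∧
      ∀ g ∈ MulAction.stabilizer Γ s, ∀ h ∈ MulAction.stabilizer Γ s, g * h = h * g := by
    intro q s
    obtain ⟨i, j, hij⟩ := s.2.2
    obtain ⟨h1, h2⟩ := hstab _ _ hij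
    have hle : MulAction.stabilizer Γ s ≤
        MulAction.stabilizer Γ (s.1 i) ⊓ MulAction.stabilizer Γ (s.1 j) := by
      intro g hg
      have h3 : (fun j => g • s.1 j) = s.1 := congrArg Subtype.val (MulAction.mem_stabilizer_iff.1 hg)
      exact ⟨MulAction.mem_stabilizer_iff.2 (congrFun h3 i),
        MulAction.mem_stabilizer_iff.2 (congrFun h3 j)⟩
    have hc : ∀ g ∈ MulAction.stabilizer Γ (s.1 i) ⊓ MulAction.stabilizer Γ (s.1 j),
        ∀ h ∈ MulAction.stabilizer Γ (s.1 i) ⊓ MulAction.stabilizer Γ (s.1 j), g * h = h * g :=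
      fun g hg h hh => h1 g h hg.1 hg.2 hh.1 hh.2
    exact ⟨sub_fg _ _ h2 hc hle, fun g hg h hh => hc g (hle hg) h (hle hh)⟩
  have hfin : Module.Finite ℤ (groupHomology (St Γ V) n) :=
    fgh_st hHpm hRel hface hconst hinv hacy horb hst n
  -- the form
  let φ : ((Fin n → Γ) →₀ St Γ V) →+ ℂ := Finsupp.liftAddHom (fun g : Fin n → Γ =>
    (Pi.evalAddMonoidHom (fun _ : Fin (n + 1) → Γ => ℂ) (Fin.partialProd g)).comp
      (Ψ.comp (dv (Γ := Γ) (V := V))))
  have hφs : ∀ (g : Fin n → Γ) (m : St Γ V),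
      φ (Finsupp.single g m) = Ψ (dv m) (Fin.partialProd g) := by
    intro g m
    exact Finsupp.liftAddHom_apply_single _ _ _
  have hφz : ∀ (k : ℤ) (x : (Fin n → Γ) →₀ St Γ V),
      φ (@HSMul.hSMul ℤ _ _ (@instHSMul ℤ ((Fin n → Γ) →₀ St Γ V)
        (Finsupp.module (Fin n → Γ) (St Γ V)).toSMul) k x) = k • φ x := by
    intro k x
    exact @map_intCast_smul ((Fin n → Γ) →₀ St Γ V) ℂ _ _ (((Fin n → Γ) →₀ St Γ V) →+ ℂ) _ _ φ ℤ ℤ
      _ _ (Finsupp.module (Fin n → Γ) (St Γ V)) _ k x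
  have hφd : ∀ z : (Fin (n + 1) → Γ) →₀ St Γ V,
      φ ((groupHomology.inhomogeneousChains.d (St Γ V) n).hom z) = 0 := by
    intro z
    induction z using Finsupp.induction_linear with
    | zero => rw [map_zero, map_zero]
    | add x y hx hy =>
      rw [map_add, map_add, hx, hy, add_zero]
    | single g m =>
      erw [groupHomology.inhomogeneousChains.d_single]
      rw [map_add, map_sum]
      have e0 : φ (Finsupp.single (fun i => g i.succ) ((St Γ V).ρ (g 0)⁻¹ m)) =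
          Ψ (dv m) (fun j => Fin.partialProd g ((0 : Fin (n + 2)).succAbove j)) := by
        rw [hφs, ← hequiv _ (g 0) _ (dv_sum _), dv_rho, ← Finsupp.mapDomain_comp]
        have e : (fun c : V => g 0 • c) ∘ (fun c => (g 0)⁻¹ • c) = id := by
          funext c
          simp
        rw [e, Finsupp.mapDomain_id]
        refine congrArg (Ψ (dv m)) (funext fun j => ?_)
        rw [Fin.zero_succAbove, Fin.partialProd_succ']
        rfl
      have e1 : ∀ j : Fin (n + 1), φ (@HSMul.hSMul ℤ _ _ (@instHSMul ℤ ((Fin n → Γ) →₀ St Γ V)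
          (Finsupp.module (Fin n → Γ) (St Γ V)).toSMul) ((-1) ^ ((j : ℕ) + 1))
            (Finsupp.single (Fin.contractNth j (· * ·) g) m)) =
          (-1 : ℂ) ^ ((j.succ : Fin (n + 2)) : ℕ) *
            Ψ (dv m) (fun i => Fin.partialProd g (j.succ.succAbove i)) := by
        intro j
        rw [hφz, hφs, Fin.partialProd_contractNth, zsmul_eq_mul]
        push_cast
        rfl
      have h2 := hcoc (dv m) (Fin.partialProd g) (dv_sum m)
      rw [Fin.sum_univ_succ] at h2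
      rw [e0, ← h2]
      congr 1
      · simp
      · exact Finset.sum_congr rfl fun j _ => e1 j
  obtain ⟨V0, hV0⟩ := form_fg (St Γ V) n hfin φ hφd
  refine ⟨V0, fun c c' U _ ρ hρ u => ?_⟩
  obtain ⟨m, hm⟩ : ∃ m : St Γ V, dv m = Finsupp.single c' 1 - Finsupp.single c 1 := by
    refine exists_dv _ ?_
    rw [map_sub, aug_apply, aug_apply, Finsupp.sum_single_index rfl,
      Finsupp.sum_single_index rfl, sub_self]
  let z : (Fin n → Γ) →₀ St Γ V := ∑ τ : Equiv.Perm (Fin n), (Equiv.Perm.sign τ : ℤ) •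
    Finsupp.single (fun i : Fin n => ρ (u (τ i))) m
  have hφz : φ z = ∑ τ : Equiv.Perm (Fin n), ((Equiv.Perm.sign τ : ℤ) : ℂ) *
      Ψ (Finsupp.single c' 1 - Finsupp.single c 1) (fun j => ρ (pt u τ j)) := by
    rw [map_sum]
    refine Finset.sum_congr rfl fun τ _ => ?_
    have e : Fin.partialProd (fun i => ρ (u (τ i))) = fun j => ρ (pt u τ j) :=
      funext fun j => partial_pt ρ u τ j
    rw [map_zsmul, hφs, zsmul_eq_mul, e, hm]
  rw [← hφz]
  cases n with
  | zero => exact hV0 0 (by simp) z (by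
      rw [(groupHomology.inhomogeneousChains (St Γ V)).shape 0 0 (by simp)]
      rfl)
  | succ n =>
    refine hV0 n (by simp) z ?_
    rw [groupHomology.inhomogeneousChains.d_def]
    have h := hZcy Γ U ρ (St Γ V) m (by
      intro w
      refine dv_inj ?_
      rw [dv_rho, hm, Finsupp.mapDomain_sub, Finsupp.mapDomain_single, Finsupp.mapDomain_single,
        (hρ w).1, (hρ w).2]) n u
    exact h

end

end Pool.Agent.Lib.MP_50bb2e_nt.Anf.Hom
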