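import Pool.Agent.Lib.MP_50bb2e_nt.Anf.Iface

/-!
MP_50bb2e_nt, board ANF, row HPM: the homology of a group `Γ` with coefficients in a permutation
module `ℤ[S]` is finitely generated in every degree, when `S` has finitely many orbits and the
stabilizers are finitely generated commutative groups.
-/

namespace Pool.Agent.Lib.MP_50bb2e_nt.Anf.Hpm

open CategoryTheory Limits

noncomputable section

/-! ### finiteness along short exact sequences -/

section gen

variable {R : Type} [CommRing R] [IsNoetherianRing R]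

/-- all homology groups are finitely generated -/
def FGH {Γ : Type} [Group Γ] (M : Rep.{0} R Γ) : Prop :=
  ∀ k : ℕ, Module.Finite R (groupHomology M k)

theorem fin_mid {S : ShortComplex (ModuleCat.{0} R)} (hS : S.Exact)
    (h1 : Module.Finite R S.X₁) (h3 : Module.Finite R S.X₃) : Module.Finite R S.X₂ := by
  have h := hS.moduleCat_range_eq_ker
  have h1' : IsNoetherian R S.X₁ := inferInstance
  have h3' : IsNoetherian R S.X₃ := inferInstance
  have h2 : IsNoetherian R S.X₂ := isNoetherian_of_range_eq_ker S.f.hom S.g.hom h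
  infer_instance

variable {Γ : Type} [Group Γ]

theorem fgh_iso {A B : Rep.{0} R Γ} (e : A ≅ B) (h : FGH A) : FGH B := by
  intro k
  have e' : groupHomology A k ≃ₗ[R] groupHomology B k :=
    ((groupHomology.functor R Γ k).mapIso e).toLinearEquiv
  have := h k
  exact Module.Finite.equiv e'

theorem ses_mid {X : ShortComplex (Rep.{0} R Γ)} (hX : X.ShortExact) (k : ℕ)
    (h1 : Module.Finite R (groupHomology X.X₁ k)) (h3 : Module.Finite R (groupHomology X.X₃ k)) :
    Module.Finite R (groupHomology X.X₂ k) :=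
  fin_mid (groupHomology.mapShortComplex₂_exact hX k) h1 h3

theorem ses_right {X : ShortComplex (Rep.{0} R Γ)} (hX : X.ShortExact) (k : ℕ)
    (h2 : Module.Finite R (groupHomology X.X₂ (k + 1)))
    (h1 : Module.Finite R (groupHomology X.X₁ k)) :
    Module.Finite R (groupHomology X.X₃ (k + 1)) :=
  fin_mid (groupHomology.mapShortComplex₃_exact hX (rfl : k + 1 = k + 1)) h2 h1

theorem ses_zero {A B : Rep.{0} R Γ} (f : A ⟶ B) (hf : Function.Surjective f.hom)
    (h : Module.Finite R (groupHomology A 0)) : Module.Finite R (groupHomology B 0) := by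
  have hs : Function.Surjective (groupHomology.map (MonoidHom.id Γ) f 0).hom := by
    intro y
    obtain ⟨y, rfl⟩ := (ModuleCat.epi_iff_surjective (groupHomology.H0π B)).1 inferInstance y
    obtain ⟨x, rfl⟩ := hf y
    refine ⟨groupHomology.H0π A x, ?_⟩
    have := groupHomology.H0π_comp_map (f := MonoidHom.id Γ) (φ := f)
    exact congrArg (fun q => q.hom x) this
  exact Module.Finite.of_surjective _ hs

/-- a short exact sequence from concrete data -/
theorem mkSES {A B C : Rep.{0} R Γ} (f : A ⟶ B) (g : B ⟶ C) (hf : Function.Injective f.hom)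
    (hg : Function.Surjective g.hom) (h0 : ∀ x, g.hom (f.hom x) = 0)
    (hx : ∀ x, g.hom x = 0 → ∃ y, f.hom y = x) :
    ∃ w : f ≫ g = 0, (ShortComplex.mk f g w).ShortExact := by
  have w : f ≫ g = 0 := by
    apply Rep.hom_injective
    ext x
    exact h0 x
  refine ⟨w, ?_⟩
  have e1 : Mono f := (Rep.mono_iff_injective f).2 hf
  have e2 : Epi g := (Rep.epi_iff_surjective g).2 hg
  refine ⟨?_⟩
  rw [← ShortComplex.exact_map_iff_of_faithful _ (forget₂ (Rep.{0} R Γ) (ModuleCat.{0} R)),
    ShortComplex.moduleCat_exact_iff]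
  intro x hx'
  exact hx x hx'

theorem fgh_right {A B C : Rep.{0} R Γ} (f : A ⟶ B) (g : B ⟶ C) (hf : Function.Injective f.hom)
    (hg : Function.Surjective g.hom) (h0 : ∀ x, g.hom (f.hom x) = 0)
    (hx : ∀ x, g.hom x = 0 → ∃ y, f.hom y = x) (hA : FGH A) (hB : FGH B) : FGH C := by
  obtain ⟨w, hS⟩ := mkSES f g hf hg h0 hx
  intro k
  cases k with
  | zero => exact ses_zero g hg (hB 0)
  | succ k => exact ses_right hS k (hB _) (hA _)

theorem fgh_mid {A B C : Rep.{0} R Γ} (f : A ⟶ B) (g : B ⟶ C) (hf : Function.Injective f.hom)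
    (hg : Function.Surjective g.hom) (h0 : ∀ x, g.hom (f.hom x) = 0)
    (hx : ∀ x, g.hom x = 0 → ∃ y, f.hom y = x) (hA : FGH A) (hC : FGH C) : FGH B := by
  obtain ⟨w, hS⟩ := mkSES f g hf hg h0 hx
  intro k
  exact ses_mid hS k (hA _) (hC _)

/-- periodic case: `0 → C → A → A → C → 0` -/
theorem fgh_per {A C : Rep.{0} R Γ} (n : C ⟶ A) (t : A ⟶ A) (p : A ⟶ C)
    (hn : Function.Injective n.hom) (hp : Function.Surjective p.hom)
    (h1 : ∀ x, t.hom (n.hom x) = 0) (h1' : ∀ x, t.hom x = 0 → ∃ y, n.hom y = x)
    (h2 : ∀ x, p.hom (t.hom x) = 0) (h2' : ∀ x, p.hom x = 0 → ∃ y, t.hom y = x)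
    (hA : FGH A) : FGH C := by
  have hW : ∀ g : Γ, LinearMap.ker p.hom.toLinearMap ≤
      (LinearMap.ker p.hom.toLinearMap).comap (A.ρ g) := by
    intro g x hx
    simp only [Submodule.mem_comap, LinearMap.mem_ker] at hx ⊢
    have := Rep.hom_comm_apply p g x
    change p.hom (A.ρ g x) = 0
    rw [this]
    change C.ρ g (p.hom.toLinearMap x) = 0
    rw [hx, map_zero]
  let I : Rep.{0} R Γ := Rep.subrepresentation A (LinearMap.ker p.hom.toLinearMap) hW
  let i : I ⟶ A := Rep.subtype A (LinearMap.ker p.hom.toLinearMap) hW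
  let q : A ⟶ I := Rep.ofHom
    ⟨LinearMap.codRestrict (LinearMap.ker p.hom.toLinearMap) t.hom.toLinearMap
      (fun x => by simpa using h2 x), by
      intro g
      ext x
      exact Rep.hom_comm_apply t g x⟩
  have hqs : Function.Surjective q.hom := by
    intro y
    obtain ⟨x, hx⟩ := h2' (y : LinearMap.ker p.hom.toLinearMap).1
      (y : LinearMap.ker p.hom.toLinearMap).2
    exact ⟨x, Subtype.ext hx⟩
  obtain ⟨w1, hS1⟩ := mkSES n q hn hqs
    (fun x => Subtype.ext (h1 x)) (fun x hx => h1' x (congrArg Subtype.val hx))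
  obtain ⟨w2, hS2⟩ := mkSES i p (fun x y hxy => Subtype.ext hxy) hp
    (fun x => (x : LinearMap.ker p.hom.toLinearMap).2) (fun x hx => ⟨⟨x, hx⟩, rfl⟩)
  have key : ∀ k : ℕ, Module.Finite R (groupHomology C k) ∧
      Module.Finite R (groupHomology I k) := by
    intro k
    induction k with
    | zero => exact ⟨ses_zero p hp (hA 0), ses_zero q hqs (hA 0)⟩
    | succ k ih => exact ⟨ses_right hS2 k (hA _) ih.2, ses_right hS1 k (hA _) ih.1⟩
  exact fun k => (key k).1

end gen

/-! ### permutation modules -/

section perm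

variable (R : Type) [CommRing R] (Γ : Type) [Group Γ]

/-- the permutation representation on finitely supported functions -/
def pr (S : Type) [MulAction Γ S] : Representation R Γ (S →₀ R) where
  toFun g := Finsupp.lmapDomain R R (fun s => g • s)
  map_one' := by
    ext s
    simp
  map_mul' g h := by
    ext s
    simp [mul_smul]

/-- the permutation module -/
abbrev PM (S : Type) [MulAction Γ S] : Rep.{0} R Γ := Rep.of (pr R Γ S)

variable {R Γ}

theorem pr_single {S : Type} [MulAction Γ S] (g : Γ) (s : S) (r : R) :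
    pr R Γ S g (Finsupp.single s r) = Finsupp.single (g • s) r := by
  change Finsupp.mapDomain _ _ = _
  rw [Finsupp.mapDomain_single]

theorem pr_apply {S : Type} [MulAction Γ S] (g : Γ) (f : S →₀ R) (s : S) :
    pr R Γ S g f s = f (g⁻¹ • s) := by
  change Finsupp.mapDomain (fun s => g • s) f s = _
  have : s = (fun s => g • s) (g⁻¹ • s) := by simp
  conv_lhs => rw [this]
  rw [Finsupp.mapDomain_apply (MulAction.injective g)]

/-- the map of permutation modules given by an equivariant map -/
def pmap {S Q : Type} [MulAction Γ S] [MulAction Γ Q] (φ : S → Q)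
    (hφ : ∀ (g : Γ) (x : S), φ (g • x) = g • φ x) : PM R Γ S ⟶ PM R Γ Q :=
  Rep.ofHom ⟨Finsupp.lmapDomain R R φ, by
    intro g
    refine Finsupp.lhom_ext' (fun s => LinearMap.ext_ring ?_)
    change Finsupp.mapDomain φ (pr R Γ S g (Finsupp.single s 1)) =
      pr R Γ Q g (Finsupp.mapDomain φ (Finsupp.single s 1))
    rw [pr_single, Finsupp.mapDomain_single, Finsupp.mapDomain_single, pr_single, hφ]⟩

theorem pmap_hom {S Q : Type} [MulAction Γ S] [MulAction Γ Q] (φ : S → Q)
    (hφ : ∀ (g : Γ) (x : S), φ (g • x) = g • φ x) (f : S →₀ R) :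
    (pmap (R := R) φ hφ).hom f = Finsupp.mapDomain φ f := rfl

/-- the pullback of functions along a map with finite fibres -/
def pb {S Q : Type} (φ : S → Q) (hf : ∀ y, (φ ⁻¹' {y}).Finite) (f : Q →₀ R) : S →₀ R :=
  Finsupp.ofSupportFinite (fun s => f (φ s)) (by
    have h : (φ ⁻¹' (f.support : Set Q)).Finite :=
      Set.Finite.preimage' f.support.finite_toSet (fun b _ => hf b)
    refine h.subset (fun s hs => ?_)
    simpa using hs)

theorem pb_apply {S Q : Type} (φ : S → Q) (hf : ∀ y, (φ ⁻¹' {y}).Finite) (f : Q →₀ R) (s : S) :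
    pb φ hf f s = f (φ s) := rfl

/-- the map of permutation modules given by the pullback -/
def pback {S Q : Type} [MulAction Γ S] [MulAction Γ Q] (φ : S → Q)
    (hφ : ∀ (g : Γ) (x : S), φ (g • x) = g • φ x) (hf : ∀ y, (φ ⁻¹' {y}).Finite) :
    PM R Γ Q ⟶ PM R Γ S :=
  Rep.ofHom ⟨{ toFun := pb φ hf
               map_add' := fun a b => by ext s; simp [pb_apply]
               map_smul' := fun r a => by ext s; simp [pb_apply] }, by
    intro g
    refine LinearMap.ext (fun f => Finsupp.ext (fun s => ?_))
    change pb φ hf (pr R Γ Q g f) s = pr R Γ S g (pb φ hf f) s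
    rw [pb_apply, pr_apply, pr_apply, pb_apply, hφ]⟩

theorem pback_hom {S Q : Type} [MulAction Γ S] [MulAction Γ Q] (φ : S → Q)
    (hφ : ∀ (g : Γ) (x : S), φ (g • x) = g • φ x) (hf : ∀ y, (φ ⁻¹' {y}).Finite) (f : Q →₀ R)
    (s : S) : ((pback (R := R) φ hφ hf).hom f : S →₀ R) s = f (φ s) := rfl

/-- equivariant bijections -/
theorem fgh_equiv [IsNoetherianRing R] {S Q : Type} [MulAction Γ S] [MulAction Γ Q] (φ : S ≃ Q)
    (hφ : ∀ (g : Γ) (x : S), φ (g • x) = g • φ x) (h : FGH (PM R Γ S)) : FGH (PM R Γ Q) := by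
  let e : (S →₀ R) ≃ₗ[R] (Q →₀ R) := Finsupp.domLCongr φ
  have he : ∀ g : Γ, e.toLinearMap ∘ₗ (pr R Γ S g) = (pr R Γ Q g) ∘ₗ e.toLinearMap := by
    intro g
    refine Finsupp.lhom_ext' (fun s => LinearMap.ext_ring ?_)
    change e (pr R Γ S g (Finsupp.single s 1)) = pr R Γ Q g (e (Finsupp.single s 1))
    rw [pr_single]
    simp only [e, Finsupp.domLCongr_single, pr_single, hφ]
  exact fgh_iso (Rep.mkIso (Representation.Equiv.mk e he)) h

/-- the basic step: `Q` is the quotient of `S` by the powers of an equivariant permutation -/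
theorem step [IsNoetherianRing R] {S Q : Type} [MulAction Γ S] [MulAction Γ Q] (σ : S → S)
    (hσi : Function.Injective σ) (hσs : Function.Surjective σ) (hσ : ∀ (g : Γ) (x : S), σ (g • x) = g • σ x) (π : S → Q)
    (hπ : ∀ (g : Γ) (x : S), π (g • x) = g • π x) (hπs : Function.Surjective π)
    (hπσ : ∀ x, π (σ x) = π x)
    (hfib : ∀ x y, π x = π y → ∃ n : ℕ, y = σ^[n] x ∨ x = σ^[n] y)
    (h : (∀ x, ∀ n : ℕ, 0 < n → σ^[n] x ≠ x) ∨ ∀ y, (π ⁻¹' {y}).Finite)
    (hS : FGH (PM R Γ S)) : FGH (PM R Γ Q) := by
  classical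
  let t : PM R Γ S ⟶ PM R Γ S := pmap σ hσ - 𝟙 _
  have ht : ∀ f : S →₀ R, t.hom f = Finsupp.mapDomain σ f - f := fun f => rfl
  -- differences of points in the same fibre are in the image of `t`
  have hit : ∀ (n : ℕ) (x : S), ∃ z : S →₀ R, t.hom z =
      Finsupp.single (σ^[n] x) (1 : R) - Finsupp.single x 1 := by
    intro n x
    induction n with
    | zero => exact ⟨0, by rw [ht]; simp⟩
    | succ n ih =>
      obtain ⟨z, hz⟩ := ih
      refine ⟨z + Finsupp.single (σ^[n] x) 1, ?_⟩
      rw [ht] at hz ⊢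
      rw [Finsupp.mapDomain_add, Finsupp.mapDomain_single, Function.iterate_succ_apply']
      have : Finsupp.mapDomain σ z + Finsupp.single (σ (σ^[n] x)) 1 -
        (z + Finsupp.single (σ^[n] x) 1) = (Finsupp.mapDomain σ z - z) +
        (Finsupp.single (σ (σ^[n] x)) (1 : R) - Finsupp.single (σ^[n] x) 1) := by abel
      rw [this, hz]
      abel
  have hdiff : ∀ x y : S, π x = π y → ∃ z : S →₀ R, t.hom z =
      Finsupp.single x (1 : R) - Finsupp.single y 1 := by
    intro x y hxy
    obtain ⟨n, hn | hn⟩ := hfib x y hxy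
    · obtain ⟨z, hz⟩ := hit n x
      refine ⟨-z, ?_⟩
      rw [map_neg, hz, hn]
      abel
    · obtain ⟨z, hz⟩ := hit n y
      exact ⟨z, by rw [hz, hn]⟩
  have hp : Function.Surjective (pmap (R := R) (Γ := Γ) π hπ).hom := by
    intro f
    induction f using Finsupp.induction_linear with
    | zero => exact ⟨0, map_zero _⟩
    | add a b ha hb =>
      obtain ⟨a', ha'⟩ := ha
      obtain ⟨b', hb'⟩ := hb
      exact ⟨a' + b', by rw [map_add, ha', hb']⟩
    | single y r =>
      obtain ⟨x, rfl⟩ := hπs y
      exact ⟨Finsupp.single x r, by rw [pmap_hom]; exact Finsupp.mapDomain_single⟩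
  have hpt : ∀ f : S →₀ R, (pmap (R := R) (Γ := Γ) π hπ).hom (t.hom f) = 0 := by
    intro f
    rw [ht, pmap_hom]
    have h1 : Finsupp.mapDomain π (Finsupp.mapDomain σ f - f) =
      Finsupp.mapDomain π (Finsupp.mapDomain σ f) - Finsupp.mapDomain π f :=
      map_sub (Finsupp.lmapDomain R R π) _ _
    rw [h1, ← Finsupp.mapDomain_comp]
    have : π ∘ σ = π := funext hπσ
    rw [this, sub_self]
  have hker : ∀ f : S →₀ R, (pmap (R := R) (Γ := Γ) π hπ).hom f = 0 → ∃ z : S →₀ R,
      t.hom z = f := by
    intro f hf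
    rw [pmap_hom] at hf
    let s : Q → S := Function.surjInv hπs
    have hs : ∀ y, π (s y) = y := Function.surjInv_eq hπs
    have key : ∀ f : S →₀ R, ∃ z : S →₀ R, t.hom z = f - Finsupp.mapDomain (s ∘ π) f := by
      intro f
      induction f using Finsupp.induction_linear with
      | zero => exact ⟨0, by rw [map_zero]; simp⟩
      | add a b ha hb =>
        obtain ⟨a', ha'⟩ := ha
        obtain ⟨b', hb'⟩ := hb
        exact ⟨a' + b', by rw [map_add, ha', hb', Finsupp.mapDomain_add]; abel⟩
      | single x r =>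
        obtain ⟨z, hz⟩ := hdiff x (s (π x)) (hs _).symm
        refine ⟨r • z, ?_⟩
        rw [map_smul, hz, Finsupp.mapDomain_single, smul_sub, Finsupp.smul_single,
          Finsupp.smul_single, smul_eq_mul, mul_one]
        rfl
    obtain ⟨z, hz⟩ := key f
    refine ⟨z, ?_⟩
    rw [hz, Finsupp.mapDomain_comp, hf, Finsupp.mapDomain_zero, sub_zero]
  have hinv : ∀ f : S →₀ R, t.hom f = 0 → ∀ (n : ℕ) (x : S), f (σ^[n] x) = f x := by
    intro f hf n x
    have h1 : ∀ x, f (σ x) = f x := by
      intro x
      rw [ht, sub_eq_zero] at hf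
      conv_lhs => rw [← hf]
      exact Finsupp.mapDomain_apply hσi f x
    induction n with
    | zero => rfl
    | succ n ih => rw [Function.iterate_succ_apply', h1, ih]
  rcases h with h | h
  · refine fgh_right t (pmap π hπ) ?_ hp hpt hker hS hS
    intro a b hab
    rw [← sub_eq_zero] at hab ⊢
    rw [← map_sub] at hab
    have h3 := hinv (a - b) hab
    refine Finsupp.ext (fun x => ?_)
    by_contra hx
    have hinj : Function.Injective (fun n : ℕ => σ^[n] x) := by
      have aux : ∀ n k : ℕ, σ^[n] x = σ^[n + k] x → k = 0 := by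
        intro n k hnk
        rw [Function.iterate_add_apply] at hnk
        have := (hσi.iterate n) hnk
        by_contra hk
        exact h x k (Nat.pos_of_ne_zero hk) this.symm
      intro n m hnm
      rcases le_total n m with hle | hle
      · obtain ⟨k, rfl⟩ := Nat.exists_eq_add_of_le hle
        have := aux n k hnm
        omega
      · obtain ⟨k, rfl⟩ := Nat.exists_eq_add_of_le hle
        have := aux m k hnm.symm
        omega
    have hfin : (Set.range (fun n : ℕ => σ^[n] x)).Finite := by
      refine Set.Finite.subset (Finsupp.support (a - b : S →₀ R)).finite_toSet ?_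
      rintro _ ⟨n, rfl⟩
      rw [Finset.mem_coe, Finsupp.mem_support_iff, h3 n x]
      exact hx
    exact Set.infinite_range_of_injective hinj hfin
  · refine fgh_per (pback π hπ h) t (pmap π hπ) ?_ hp ?_ ?_ hpt hker hS
    · intro a b hab
      refine Finsupp.ext (fun y => ?_)
      obtain ⟨x, rfl⟩ := hπs y
      rw [← pback_hom π hπ h a x, ← pback_hom π hπ h b x, hab]
    · intro f
      rw [ht, sub_eq_zero]
      refine Finsupp.ext (fun x => ?_)
      obtain ⟨x, rfl⟩ := hσs x
      rw [Finsupp.mapDomain_apply hσi, pback_hom, pback_hom, hπσ]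
    · intro f hf
      have h3 := hinv f hf
      let s : Q → S := Function.surjInv hπs
      have hs : ∀ y, π (s y) = y := Function.surjInv_eq hπs
      refine ⟨Finsupp.onFinset ((f : S →₀ R).support.image π) (fun y => (f : S →₀ R) (s y)) ?_, ?_⟩
      · intro y hy
        rw [Finset.mem_image]
        exact ⟨s y, by rwa [Finsupp.mem_support_iff], hs y⟩
      · refine Finsupp.ext (fun x => ?_)
        rw [pback_hom]
        change (f : S →₀ R) (s (π x)) = (f : S →₀ R) x
        obtain ⟨n, hn | hn⟩ := hfib x (s (π x)) (hs _).symm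
        · rw [hn, h3]
        · conv_rhs => rw [hn, h3]

/-! ### the free module -/

theorem fin_of_isZero {M : ModuleCat.{0} R} (h : IsZero M) : Module.Finite R M := by
  have : Subsingleton M := ModuleCat.subsingleton_of_isZero h
  infer_instance

theorem fgh_triv_bot [IsNoetherianRing R] :
    FGH (Rep.trivial R (⊥ : Subgroup Γ) R) := by
  intro k
  cases k with
  | zero =>
    have hs : Function.Surjective
        (groupHomology.H0π (Rep.trivial R (⊥ : Subgroup Γ) R)).hom :=
      (ModuleCat.epi_iff_surjective _).1 inferInstance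
    have : Module.Finite R (ModuleCat.of R (Rep.trivial R (⊥ : Subgroup Γ) R).V) :=
      inferInstanceAs (Module.Finite R R)
    exact Module.Finite.of_surjective _ hs
  | succ k => exact fin_of_isZero (isZero_groupHomology_succ_of_subsingleton _ k)

open Representation in
/-- the linear map from the induced module to the free module -/
def indFwd : IndV (⊥ : Subgroup Γ).subtype (Rep.trivial R (⊥ : Subgroup Γ) R).ρ →ₗ[R]
    (Γ →₀ R) :=
  Representation.Coinvariants.lift _
    (TensorProduct.lift <| (Finsupp.lift _ _ _ fun h => Finsupp.lsingle (h⁻¹ : Γ)) ∘ₗ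
      (MonoidAlgebra.coeffLinearEquiv R).toLinearMap)
    (fun g => by
      have hg : g = 1 := Subsingleton.elim _ _
      subst hg
      simp only [map_one]
      exact LinearMap.comp_id _)

open Representation in
/-- the linear map from the free module to the induced module -/
def indBwd : (Γ →₀ R) →ₗ[R]
    IndV (⊥ : Subgroup Γ).subtype (Rep.trivial R (⊥ : Subgroup Γ) R).ρ :=
  Finsupp.lift _ _ _ fun x => IndV.mk (⊥ : Subgroup Γ).subtype
    (Rep.trivial R (⊥ : Subgroup Γ) R).ρ x⁻¹ (1 : R)

open Representation in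
theorem indFwd_mk (h : Γ) (r : R) :
    indFwd (IndV.mk (⊥ : Subgroup Γ).subtype (Rep.trivial R (⊥ : Subgroup Γ) R).ρ h r) =
      Finsupp.single h⁻¹ r := by
  simp [indFwd]

open Representation in
theorem indBwd_single (h : Γ) (r : R) :
    indBwd (Finsupp.single h r) =
      IndV.mk (⊥ : Subgroup Γ).subtype (Rep.trivial R (⊥ : Subgroup Γ) R).ρ h⁻¹ r := by
  unfold indBwd
  rw [Finsupp.lift_apply, Finsupp.sum_single_index (by simp), ← map_smul, smul_eq_mul, mul_one]

theorem fgh_reg [IsNoetherianRing R] : FGH (PM R Γ Γ) := by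
  classical
  let A : Rep.{0} R (⊥ : Subgroup Γ) := Rep.trivial R (⊥ : Subgroup Γ) R
  have hA : FGH (Rep.ind (⊥ : Subgroup Γ).subtype A) := by
    intro k
    have := fgh_triv_bot (R := R) (Γ := Γ) k
    exact Module.Finite.equiv (groupHomology.indIso (⊥ : Subgroup Γ) A k).toLinearEquiv.symm
  let e : Representation.IndV (⊥ : Subgroup Γ).subtype A.ρ ≃ₗ[R] (Γ →₀ R) :=
    LinearEquiv.ofLinearMap indFwd indBwd (by
      refine Finsupp.lhom_ext' (fun s => LinearMap.ext_ring ?_)
      change indFwd (indBwd (Finsupp.single s 1)) = Finsupp.single s 1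
      rw [indBwd_single, indFwd_mk, inv_inv]) (by
      refine Representation.IndV.hom_ext _ _ (fun h => LinearMap.ext (fun r => ?_))
      change indBwd (indFwd (Representation.IndV.mk _ _ h r)) = Representation.IndV.mk _ _ h r
      rw [indFwd_mk, indBwd_single, inv_inv])
  have he : ∀ g : Γ, e.toLinearMap ∘ₗ ((Rep.ind (⊥ : Subgroup Γ).subtype A).ρ g) =
      (pr R Γ Γ g) ∘ₗ e.toLinearMap := by
    intro g
    refine Representation.IndV.hom_ext _ _ (fun h => LinearMap.ext (fun r => ?_))
    change indFwd (Representation.ind _ _ g (Representation.IndV.mk _ _ h r)) =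
      pr R Γ Γ g (indFwd (Representation.IndV.mk _ _ h r))
    rw [Representation.ind_mk, indFwd_mk, indFwd_mk, pr_single]
    simp
  exact fgh_iso (Rep.mkIso (Representation.Equiv.mk e he)) hA

/-! ### cosets -/

section coset

variable (L : Subgroup Γ) (a : Γ) (hc : ∀ l ∈ L, a * l = l * a)

/-- right multiplication by `a` on the cosets of a subgroup commuting with `a` -/
def rm : Γ ⧸ L → Γ ⧸ L :=
  Quotient.map' (fun g => g * a) (by
    intro g h hgh
    rw [QuotientGroup.leftRel_apply] at hgh ⊢
    have : (g * a)⁻¹ * (h * a) = a⁻¹ * ((g⁻¹ * h) * a) := by group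
    rw [this, ← hc _ hgh]
    simpa using hgh)

theorem rm_mk (g : Γ) : rm L a hc (QuotientGroup.mk g) = QuotientGroup.mk (g * a) := rfl

theorem rm_iter (n : ℕ) (g : Γ) :
    (rm L a hc)^[n] (QuotientGroup.mk g) = QuotientGroup.mk (g * a ^ n) := by
  induction n with
  | zero => simp
  | succ n ih => rw [Function.iterate_succ_apply', ih, rm_mk, mul_assoc, pow_succ]

include hc in
theorem coset_step [IsNoetherianRing R] (L2 : Subgroup Γ) (hle : L ≤ L2) (ha : a ∈ L2)
    (hgen : ∀ x ∈ L2, ∃ l ∈ L, ∃ i : ℤ, x = a ^ i * l) (h : FGH (PM R Γ (Γ ⧸ L))) :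
    FGH (PM R Γ (Γ ⧸ L2)) := by
  have hci : ∀ l ∈ L, ∀ n : ℕ, a ^ n * l = l * a ^ n := fun l hl n =>
    (Commute.pow_left (show Commute a l from hc l hl) n).eq
  have hcz : ∀ l ∈ L, ∀ n : ℤ, a ^ n * l = l * a ^ n := fun l hl n =>
    (Commute.zpow_left (show Commute a l from hc l hl) n).eq
  refine step (S := Γ ⧸ L) (Q := Γ ⧸ L2) (rm L a hc) ?_ ?_ ?_ (Subgroup.quotientMapOfLE hle) ?_ ?_
    ?_ ?_ ?_ h
  · intro x y hxy
    induction x using QuotientGroup.induction_on with
    | H g =>
      induction y using QuotientGroup.induction_on with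
      | H k =>
        rw [rm_mk, rm_mk, QuotientGroup.eq] at hxy
        rw [QuotientGroup.eq]
        have h1 := hc _ hxy
        have h2 : a * ((g * a)⁻¹ * (k * a)) = g⁻¹ * k * a := by group
        have h3 : g⁻¹ * k = (g * a)⁻¹ * (k * a) := by
          apply mul_right_cancel (b := a)
          rw [← h1, h2]
        rw [h3]
        exact hxy
  · intro x
    induction x using QuotientGroup.induction_on with
    | H g => exact ⟨QuotientGroup.mk (g * a⁻¹), by rw [rm_mk]; simp⟩
  · intro g x
    induction x using QuotientGroup.induction_on with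
    | H k =>
      rw [rm_mk, MulAction.Quotient.smul_mk, MulAction.Quotient.smul_mk, rm_mk]
      simp [mul_assoc]
  · intro g x
    induction x using QuotientGroup.induction_on with
    | H k => rfl
  · intro x
    induction x using QuotientGroup.induction_on with
    | H k => exact ⟨QuotientGroup.mk k, rfl⟩
  · intro x
    induction x using QuotientGroup.induction_on with
    | H k =>
      rw [rm_mk]
      change (QuotientGroup.mk (k * a) : Γ ⧸ L2) = QuotientGroup.mk k
      rw [QuotientGroup.eq]
      simpa using ha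
  · intro x y hxy
    induction x using QuotientGroup.induction_on with
    | H g =>
      induction y using QuotientGroup.induction_on with
      | H k =>
        change (QuotientGroup.mk g : Γ ⧸ L2) = QuotientGroup.mk k at hxy
        rw [QuotientGroup.eq] at hxy
        obtain ⟨l, hl, i, hi⟩ := hgen _ hxy
        obtain ⟨n, rfl | rfl⟩ := i.eq_nat_or_neg
        · refine ⟨n, Or.inl ?_⟩
          rw [rm_iter, eq_comm, QuotientGroup.eq]
          have : (g * a ^ n)⁻¹ * k = (a ^ n)⁻¹ * (g⁻¹ * k) := by group
          rw [this, hi, zpow_natCast, inv_mul_cancel_left]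
          exact hl
        · refine ⟨n, Or.inr ?_⟩
          rw [rm_iter, eq_comm, QuotientGroup.eq]
          have h1 : (k * a ^ n)⁻¹ * g = (a ^ n)⁻¹ * (g⁻¹ * k)⁻¹ := by group
          rw [h1, hi, zpow_neg, zpow_natCast, mul_inv_rev, inv_inv]
          have h2 := hci _ (L.inv_mem hl) n
          rw [← h2, inv_mul_cancel_left]
          exact L.inv_mem hl
  · by_cases hm : ∃ m : ℕ, 0 < m ∧ a ^ m ∈ L
    · right
      obtain ⟨m, hm0, hm⟩ := hm
      intro y
      induction y using QuotientGroup.induction_on with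
      | H g =>
        refine ((Finset.range m).finite_toSet.image
          (fun n : ℕ => (QuotientGroup.mk (g * a ^ n) : Γ ⧸ L))).subset ?_
        intro x hx
        induction x using QuotientGroup.induction_on with
        | H k =>
          have hx' : (QuotientGroup.mk k : Γ ⧸ L2) = QuotientGroup.mk g := hx
          rw [eq_comm, QuotientGroup.eq] at hx'
          obtain ⟨l, hl, i, hi⟩ := hgen _ hx'
          have hm' : (m : ℤ) ≠ 0 := by exact_mod_cast hm0.ne'
          have hr0 : 0 ≤ i % (m : ℤ) := Int.emod_nonneg _ hm'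
          have hr1 : i % (m : ℤ) < m := Int.emod_lt_of_pos _ (by exact_mod_cast hm0)
          refine ⟨(i % (m : ℤ)).toNat, ?_, ?_⟩
          · rw [Finset.mem_coe, Finset.mem_range]
            omega
          · change (QuotientGroup.mk (g * a ^ (i % (m : ℤ)).toNat) : Γ ⧸ L) = QuotientGroup.mk k
            rw [QuotientGroup.eq]
            have h1 : (g * a ^ (i % (m : ℤ)).toNat)⁻¹ * k =
              (a ^ (i % (m : ℤ)).toNat)⁻¹ * (g⁻¹ * k) := by group
            have h2 : a ^ (i % (m : ℤ)).toNat = a ^ (i % (m : ℤ)) := by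
              rw [← zpow_natCast, Int.toNat_of_nonneg hr0]
            have h3 : a ^ i = a ^ (i % (m : ℤ)) * (a ^ m) ^ (i / (m : ℤ)) := by
              rw [← zpow_natCast, ← zpow_mul, ← zpow_add, Int.emod_add_mul_ediv]
            rw [h1, hi, h2, h3, mul_assoc, inv_mul_cancel_left]
            exact L.mul_mem (L.zpow_mem hm _) hl
    · left
      push Not at hm
      intro x n hn
      induction x using QuotientGroup.induction_on with
      | H g =>
        rw [rm_iter]
        intro hx
        rw [eq_comm, QuotientGroup.eq] at hx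
        apply hm n hn
        simpa using hx

end coset

theorem coset_closure [IsNoetherianRing R] (T : Finset Γ) :
    (∀ a ∈ T, ∀ b ∈ T, a * b = b * a) →
    FGH (PM R Γ (Γ ⧸ Subgroup.closure (T : Set Γ))) := by
  classical
  induction T using Finset.induction_on with
  | empty =>
    intro _
    have h0 : Subgroup.closure ((∅ : Finset Γ) : Set Γ) = ⊥ := by simp
    refine fgh_equiv (S := Γ) (Equiv.ofBijective
      (fun g => (QuotientGroup.mk g : Γ ⧸ Subgroup.closure ((∅ : Finset Γ) : Set Γ))) ⟨?_, ?_⟩)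
      ?_ fgh_reg
    · intro g k hgk
      have h1 : g⁻¹ * k ∈ Subgroup.closure ((∅ : Finset Γ) : Set Γ) := QuotientGroup.eq.1 hgk
      rw [h0, Subgroup.mem_bot, inv_mul_eq_one] at h1
      exact h1
    · intro y
      induction y using QuotientGroup.induction_on with
      | H g => exact ⟨g, rfl⟩
    · intro g x
      rfl
  | insert a T haT ih =>
    intro hT
    have ih' := ih (fun x hx y hy => hT x (Finset.mem_insert_of_mem hx) y
      (Finset.mem_insert_of_mem hy))
    have hc : ∀ l ∈ Subgroup.closure (T : Set Γ), a * l = l * a := by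
      intro l hl
      have h1 : Subgroup.closure (T : Set Γ) ≤ Subgroup.centralizer {a} := by
        rw [Subgroup.closure_le]
        intro x hx
        rw [SetLike.mem_coe, Subgroup.mem_centralizer_singleton_iff]
        exact hT x (Finset.mem_insert_of_mem hx) a (Finset.mem_insert_self _ _)
      have h2 := h1 hl
      rw [Subgroup.mem_centralizer_singleton_iff] at h2
      exact h2.symm
    refine coset_step (Subgroup.closure (T : Set Γ)) a hc
      (Subgroup.closure ((insert a T : Finset Γ) : Set Γ))
      (Subgroup.closure_mono (by simp)) (Subgroup.subset_closure (by simp)) ?_ ih'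
    intro x hx
    induction hx using Subgroup.closure_induction with
    | mem x hx =>
      rw [Finset.coe_insert, Set.mem_insert_iff] at hx
      rcases hx with rfl | hx
      · exact ⟨1, one_mem _, 1, by simp⟩
      · exact ⟨x, Subgroup.subset_closure hx, 0, by simp⟩
    | one => exact ⟨1, one_mem _, 0, by simp⟩
    | mul x y _ _ hx hy =>
      obtain ⟨l, hl, i, rfl⟩ := hx
      obtain ⟨l', hl', i', rfl⟩ := hy
      refine ⟨l * l', mul_mem hl hl', i + i', ?_⟩
      have h1 : a ^ i' * l = l * a ^ i' :=
        (Commute.zpow_left (show Commute a l from hc l hl) i').eq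
      rw [zpow_add, mul_assoc, ← mul_assoc l, ← h1]
      simp only [mul_assoc]
    | inv x _ hx =>
      obtain ⟨l, hl, i, rfl⟩ := hx
      refine ⟨l⁻¹, inv_mem hl, -i, ?_⟩
      have h1 : a ^ (-i) * l⁻¹ = l⁻¹ * a ^ (-i) :=
        (Commute.zpow_left (show Commute a l⁻¹ from hc _ (inv_mem hl)) (-i)).eq
      rw [h1, mul_inv_rev, zpow_neg]

/-! ### orbits -/

theorem fgh_quot [IsNoetherianRing R] (L : Subgroup Γ) (hfg : L.FG)
    (hcom : ∀ g ∈ L, ∀ h ∈ L, g * h = h * g) : FGH (PM R Γ (Γ ⧸ L)) := by
  obtain ⟨T, rfl⟩ := hfg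
  exact coset_closure T (fun a ha b hb => hcom a (Subgroup.subset_closure ha) b
    (Subgroup.subset_closure hb))

theorem fgh_orbit [IsNoetherianRing R] {S : Type} [MulAction Γ S] (s : S)
    (hfg : (MulAction.stabilizer Γ s).FG)
    (hcom : ∀ g ∈ MulAction.stabilizer Γ s, ∀ h ∈ MulAction.stabilizer Γ s, g * h = h * g) :
    FGH (PM R Γ (MulAction.orbit Γ s)) := by
  refine fgh_equiv (MulAction.orbitEquivQuotientStabilizer Γ s).symm ?_ (fgh_quot _ hfg hcom)
  intro g x
  induction x using QuotientGroup.induction_on with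
  | H k =>
    apply Subtype.ext
    rw [MulAction.Quotient.smul_mk, MulAction.orbitEquivQuotientStabilizer_symm_apply,
      MulAction.orbit.coe_smul, MulAction.orbitEquivQuotientStabilizer_symm_apply, smul_smul,
      smul_eq_mul]

/-- the complement of an orbit -/
def coOrb {S : Type} [MulAction Γ S] (s : S) : SubMulAction Γ S where
  carrier := (MulAction.orbit Γ s)ᶜ
  smul_mem' g x hx := by
    intro h
    apply hx
    obtain ⟨k, hk⟩ := h
    refine ⟨g⁻¹ * k, ?_⟩
    change (g⁻¹ * k) • s = x
    change k • s = g • x at hk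
    rw [mul_smul, hk, inv_smul_smul]

theorem fgh_split [IsNoetherianRing R] {S U V : Type} [MulAction Γ S] [MulAction Γ U]
    [MulAction Γ V] (i : U → S) (j : V → S) (hi : ∀ (g : Γ) (x : U), i (g • x) = g • i x)
    (hj : ∀ (g : Γ) (x : V), j (g • x) = g • j x) (hii : Function.Injective i)
    (hji : Function.Injective j) (hdis : ∀ u v, i u ≠ j v)
    (hcov : ∀ s, s ∈ Set.range i ∨ s ∈ Set.range j)
    (hU : FGH (PM R Γ U)) (hV : FGH (PM R Γ V)) : FGH (PM R Γ S) := by
  have hfib : ∀ y, (j ⁻¹' {y}).Finite := fun y =>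
    (Set.finite_singleton y).preimage (hji.injOn)
  refine fgh_mid (pmap i hi) (pback j hj hfib) ?_ ?_ ?_ ?_ hU hV
  · intro a b hab
    exact Finsupp.mapDomain_injective hii hab
  · intro f
    refine ⟨Finsupp.mapDomain j (f : V →₀ R), ?_⟩
    refine Finsupp.ext (fun v => ?_)
    rw [pback_hom, Finsupp.mapDomain_apply hji]
  · intro f
    refine Finsupp.ext (fun v => ?_)
    rw [pback_hom, pmap_hom, Finsupp.mapDomain_of_notMem_range]
    · rfl
    · rintro ⟨u, hu⟩
      exact hdis u v hu
  · intro f hf
    refine ⟨Finsupp.comapDomain i (f : S →₀ R) hii.injOn, ?_⟩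
    rw [pmap_hom]
    refine Finsupp.mapDomain_comapDomain i hii (f : S →₀ R) ?_
    intro s hs
    rcases hcov s with h | ⟨v, rfl⟩
    · exact h
    · exfalso
      rw [Finset.mem_coe, Finsupp.mem_support_iff] at hs
      apply hs
      rw [← pback_hom j hj hfib, hf]
      rfl

theorem fgh_all [IsNoetherianRing R] : ∀ (n : ℕ) (S : Type) [MulAction Γ S] (T : Finset S),
    T.card ≤ n → (∀ s : S, ∃ g : Γ, ∃ t ∈ T, s = g • t) →
    (∀ s : S, (MulAction.stabilizer Γ s).FG ∧ ∀ g ∈ MulAction.stabilizer Γ s,
      ∀ h ∈ MulAction.stabilizer Γ s, g * h = h * g) → FGH (PM R Γ S) := by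
  classical
  intro n
  induction n with
  | zero =>
    intro S _ T hT hcov _ k
    have hT' : T = ∅ := Finset.card_eq_zero.1 (Nat.le_zero.1 hT)
    subst hT'
    have hS : IsEmpty S := ⟨fun s => by
      obtain ⟨g, t, ht, _⟩ := hcov s
      exact absurd ht (Finset.notMem_empty _)⟩
    have hz : IsZero (PM R Γ S) := (Rep.isZero_iff _ _ _).2
      (inferInstanceAs (Subsingleton (S →₀ R)))
    exact fin_of_isZero ((groupHomology.functor R Γ k).map_isZero hz)
  | succ n ih =>
    intro S _ T hT hcov hst
    by_cases hS : IsEmpty S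
    · have hz : IsZero (PM R Γ S) := (Rep.isZero_iff _ _ _).2
        (inferInstanceAs (Subsingleton (S →₀ R)))
      exact fun k => fin_of_isZero ((groupHomology.functor R Γ k).map_isZero hz)
    rw [not_isEmpty_iff] at hS
    obtain ⟨s0⟩ := hS
    obtain ⟨g0, t, ht, -⟩ := hcov s0
    let U : SubMulAction Γ S := coOrb (Γ := Γ) t
    have hU : FGH (PM R Γ U) := by
      refine ih U (T.subtype (fun x => x ∈ U)) ?_ ?_ ?_
      · have h1 : (T.subtype (fun x => x ∈ U)).card ≤ (T.erase t).card := by
          rw [Finset.card_subtype]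
          refine Finset.card_le_card (fun x hx => ?_)
          rw [Finset.mem_filter] at hx
          rw [Finset.mem_erase]
          refine ⟨?_, hx.1⟩
          rintro rfl
          exact hx.2 (MulAction.mem_orbit_self _)
        rw [Finset.card_erase_of_mem ht] at h1
        omega
      · rintro ⟨s, hs⟩
        obtain ⟨g, t', ht', rfl⟩ := hcov s
        have hu : t' ∈ U := by
          have := U.smul_mem g⁻¹ hs
          simpa using this
        refine ⟨g, ⟨t', hu⟩, ?_, rfl⟩
        rw [Finset.mem_subtype]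
        exact ht'
      · rintro ⟨s, hs⟩
        have h1 : MulAction.stabilizer Γ (⟨s, hs⟩ : U) = MulAction.stabilizer Γ s := by
          ext g
          rw [MulAction.mem_stabilizer_iff, MulAction.mem_stabilizer_iff, Subtype.ext_iff]
          rfl
        rw [h1]
        exact hst s
    refine fgh_split (S := S) (U := U) (V := MulAction.orbit Γ t) Subtype.val Subtype.val
      (fun g x => rfl) (fun g x => rfl) Subtype.val_injective Subtype.val_injective ?_ ?_ hU
      (fgh_orbit t (hst t).1 (hst t).2)
    · rintro ⟨u, hu⟩ ⟨v, hv⟩ huv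
      change u = v at huv
      subst huv
      exact hu hv
    · intro s
      by_cases hs : s ∈ MulAction.orbit Γ t
      · right
        exact ⟨⟨s, hs⟩, rfl⟩
      · left
        exact ⟨⟨s, hs⟩, rfl⟩

/-- the permutation module is the representation of Mathlib -/
def isoMulAction (S : Type) [MulAction Γ S] : PM R Γ S ≅ Rep.ofMulAction R Γ S :=
  Rep.mkIso (Representation.Equiv.mk (MonoidAlgebra.coeffLinearEquiv R).symm (by
    intro g
    refine Finsupp.lhom_ext' (fun s => LinearMap.ext_ring ?_)
    change (MonoidAlgebra.coeffLinearEquiv R).symm (pr R Γ S g (Finsupp.single s 1)) =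
      Representation.ofMulAction R Γ S g
        ((MonoidAlgebra.coeffLinearEquiv R).symm (Finsupp.single s 1))
    rw [pr_single]
    simp))

end perm

theorem hpm_proof : HpmStatement := by
  intro Γ S _ _ hT hst k
  obtain ⟨T, hT⟩ := hT
  have h : FGH (PM ℤ Γ S) := fgh_all T.card S T le_rfl hT hst
  have h2 : FGH (Rep.ofMulAction ℤ Γ S) := fgh_iso (isoMulAction S) h
  have h3 := h2 k
  convert h3

end

end Pool.Agent.Lib.MP_50bb2e_nt.Anf.Hpm
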