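import Pool.Agent.Lib.MP_50bb2e_nt.Anf.Iface

/-! MP_50bb2e_nt, board ANF, row KER (helper61): the radial functions. -/

namespace Pool.Agent.Lib.MP_50bb2e_nt.Anf.Ker

open Complex MeasureTheory Filter Topology NumberField Set
open Pool.Agent.Lib.MP_50bb2e_nt.Bia (bes BesStatement)

noncomputable section

/-- `x^2 K_0(x)` -/
def gb (x : ℝ) : ℝ := ∫ t in Ioi (0 : ℝ), x ^ 2 / (2 * t) * Real.exp (-t - x ^ 2 / (4 * t))

lemma exp_int : IntegrableOn (fun t : ℝ => Real.exp (-t)) (Ioi (0 : ℝ)) := by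
  have := integrableOn_exp_neg_Ioi 0
  simpa using this

lemma kernel_int (x : ℝ) :
    IntegrableOn (fun t : ℝ => Real.exp (-t - x ^ 2 / (4 * t))) (Ioi (0 : ℝ)) := by
  refine Integrable.mono' exp_int (by fun_prop) ?_
  filter_upwards [ae_restrict_mem measurableSet_Ioi] with t ht
  rw [Real.norm_of_nonneg (Real.exp_pos _).le]
  apply Real.exp_le_exp.mpr
  have h0 : 0 < t := ht
  have : 0 ≤ x ^ 2 / (4 * t) := by positivity
  linarith

lemma k_nonneg (x t : ℝ) (ht : 0 < t) :
    0 ≤ x ^ 2 / (2 * t) * Real.exp (-t - x ^ 2 / (4 * t)) := by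
  positivity

lemma k_le (x t : ℝ) (ht : 0 < t) :
    x ^ 2 / (2 * t) * Real.exp (-t - x ^ 2 / (4 * t)) ≤ 2 * Real.exp (-t) := by
  have h1 : x ^ 2 / (2 * t) = 2 * (x ^ 2 / (4 * t)) := by field_simp; ring
  rw [h1]
  generalize hy : x ^ 2 / (4 * t) = y
  have h2 : y * Real.exp (-y) ≤ 1 := by
    rw [Real.exp_neg, ← div_eq_mul_inv, div_le_one (Real.exp_pos _)]
    linarith [Real.add_one_le_exp y]
  rw [sub_eq_add_neg, Real.exp_add]
  nlinarith [Real.exp_pos (-t)]

lemma k_le' (x t : ℝ) (hx : 0 ≤ x) (ht : 0 < t) :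
    x ^ 2 / (2 * t) * Real.exp (-t - x ^ 2 / (4 * t)) ≤
      x * Real.exp (-(1 / 2) * x) * (t ^ (-(1 / 2) : ℝ) * Real.exp (-(1 / 2) * t ^ (1 : ℝ))) := by
  obtain ⟨r, hr, rfl⟩ : ∃ r : ℝ, 0 < r ∧ t = r ^ 2 :=
    ⟨Real.sqrt t, Real.sqrt_pos.mpr ht, (Real.sq_sqrt ht.le).symm⟩
  obtain ⟨s, hs, rfl⟩ : ∃ s : ℝ, 0 ≤ s ∧ x = 2 * r * s :=
    ⟨x / (2 * r), by positivity, by field_simp⟩
  have h1 : (r ^ 2) ^ (-(1 / 2) : ℝ) = r⁻¹ := by
    rw [Real.rpow_neg (by positivity), ← Real.sqrt_eq_rpow, Real.sqrt_sq hr.le]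
  rw [h1, Real.rpow_one]
  have h2 : (2 * r * s) ^ 2 / (2 * r ^ 2) = 2 * s * s := by field_simp
  have h3 : (2 * r * s) ^ 2 / (4 * r ^ 2) = s ^ 2 := by field_simp; ring
  rw [h2, h3]
  have h4 : 2 * r * s * Real.exp (-(1 / 2) * (2 * r * s)) *
      (r⁻¹ * Real.exp (-(1 / 2) * r ^ 2)) =
      2 * s * Real.exp (-(1 / 2) * (2 * r * s) + -(1 / 2) * r ^ 2) := by
    rw [Real.exp_add]
    field_simp
  rw [h4, mul_assoc (2 * s)]
  refine mul_le_mul_of_nonneg_left ?_ (by positivity)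
  have h5 : s ≤ Real.exp (s ^ 2 / 2) := by
    have := Real.add_one_le_exp (s ^ 2 / 2)
    nlinarith [sq_nonneg (s - 1)]
  calc s * Real.exp (-r ^ 2 - s ^ 2) ≤ Real.exp (s ^ 2 / 2) * Real.exp (-r ^ 2 - s ^ 2) :=
        mul_le_mul_of_nonneg_right h5 (Real.exp_pos _).le
    _ = Real.exp (s ^ 2 / 2 + (-r ^ 2 - s ^ 2)) := by rw [Real.exp_add]
    _ ≤ _ := by
        apply Real.exp_le_exp.mpr
        nlinarith [sq_nonneg (r - s)]

lemma k_int (x : ℝ) : IntegrableOn
    (fun t : ℝ => x ^ 2 / (2 * t) * Real.exp (-t - x ^ 2 / (4 * t))) (Ioi (0 : ℝ)) := by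
  refine Integrable.mono' (exp_int.const_mul 2) (by fun_prop) ?_
  filter_upwards [ae_restrict_mem measurableSet_Ioi] with t ht
  rw [Real.norm_of_nonneg (k_nonneg x t ht)]
  exact k_le x t ht

lemma gb_nonneg (x : ℝ) : 0 ≤ gb x :=
  setIntegral_nonneg measurableSet_Ioi fun t ht => k_nonneg x t ht

lemma gb_cont : Continuous gb := by
  unfold gb
  refine continuous_of_dominated (bound := fun t => 2 * Real.exp (-t)) ?_ ?_
    (exp_int.const_mul 2) ?_
  · intro x
    fun_prop
  · intro x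
    filter_upwards [ae_restrict_mem measurableSet_Ioi] with t ht
    rw [Real.norm_of_nonneg (k_nonneg x t ht)]
    exact k_le x t ht
  · filter_upwards with t
    fun_prop

lemma gb_bound : ∃ C : ℝ, 0 < C ∧ ∀ x : ℝ, 0 ≤ x → gb x ≤ C * x * Real.exp (-(1 / 2) * x) := by
  have hI : IntegrableOn (fun t : ℝ => t ^ (-(1 / 2) : ℝ) * Real.exp (-(1 / 2) * t ^ (1 : ℝ)))
      (Ioi (0 : ℝ)) :=
    integrableOn_rpow_mul_exp_neg_mul_rpow (by norm_num) (by norm_num) (by norm_num)
  set J := ∫ t in Ioi (0 : ℝ), t ^ (-(1 / 2) : ℝ) * Real.exp (-(1 / 2) * t ^ (1 : ℝ)) with hJ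
  have hJ0 : 0 ≤ J := setIntegral_nonneg measurableSet_Ioi fun t ht => by
    have : (0 : ℝ) < t := ht
    positivity
  refine ⟨J + 1, by linarith, fun x hx => ?_⟩
  have h1 : gb x ≤ x * Real.exp (-(1 / 2) * x) * J := by
    rw [hJ, ← integral_const_mul]
    exact setIntegral_mono_on (k_int x) (hI.const_mul _) measurableSet_Ioi
      fun t ht => k_le' x t hx ht
  have h2 : 0 ≤ x * Real.exp (-(1 / 2) * x) := by positivity
  nlinarith

lemma bes_deriv (x : ℝ) (hx : 0 < x) : HasDerivAt bes (-gb x / x) x := by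
  have key := hasDerivAt_integral_of_dominated_loc_of_deriv_le
    (μ := volume.restrict (Ioi (0 : ℝ)))
    (F := fun (x : ℝ) (t : ℝ) => Real.exp (-t - x ^ 2 / (4 * t)))
    (F' := fun (x : ℝ) (t : ℝ) => -(x / (2 * t)) * Real.exp (-t - x ^ 2 / (4 * t)))
    (x₀ := x) (s := Ioi (x / 2)) (bound := fun t => 4 / x * Real.exp (-t))
    (Ioi_mem_nhds (by linarith)) (Eventually.of_forall fun y => by fun_prop) (kernel_int x)
    (by fun_prop) ?_ (exp_int.const_mul _) ?_
  · have h := key.2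
    have e : (∫ t in Ioi (0 : ℝ), -(x / (2 * t)) * Real.exp (-t - x ^ 2 / (4 * t))) =
        -gb x / x := by
      rw [gb, neg_div, div_eq_inv_mul, ← integral_const_mul, ← integral_neg]
      refine setIntegral_congr_fun measurableSet_Ioi fun t ht => ?_
      have h0 : (0 : ℝ) < t := ht
      field_simp
    rw [e] at h
    exact h
  · filter_upwards [ae_restrict_mem measurableSet_Ioi] with t ht y hy
    have h0 : (0 : ℝ) < t := ht
    have hy0 : x / 2 < y := hy
    have hy1 : 0 < y := by linarith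
    have e : ‖-(y / (2 * t)) * Real.exp (-t - y ^ 2 / (4 * t))‖ =
        1 / y * (y ^ 2 / (2 * t) * Real.exp (-t - y ^ 2 / (4 * t))) := by
      rw [norm_mul, norm_neg, Real.norm_of_nonneg (by positivity),
        Real.norm_of_nonneg (Real.exp_pos _).le]
      field_simp
    rw [e]
    have h1 := k_le y t h0
    have h2 : 1 / y ≤ 2 / x := by
      rw [div_le_div_iff₀ hy1 hx]
      linarith
    calc 1 / y * (y ^ 2 / (2 * t) * Real.exp (-t - y ^ 2 / (4 * t)))
        ≤ 2 / x * (2 * Real.exp (-t)) :=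
          mul_le_mul h2 h1 (k_nonneg y t h0) (by positivity)
      _ = 4 / x * Real.exp (-t) := by ring
  · filter_upwards [ae_restrict_mem measurableSet_Ioi] with t ht y hy
    have h0 : (0 : ℝ) < t := ht
    have h := ((((hasDerivAt_pow 2 y).div_const (4 * t)).const_sub (-t))).exp
    refine h.congr_deriv ?_
    field_simp
    norm_num
    ring

/-! ### Mellin transforms -/

section mel

variable {ρ w : ℝ → ℝ} {C κ : ℝ}

lemma tend_exp (hκ : 0 < κ) (hρ0 : ∀ t, 0 ≤ t → 0 ≤ ρ t)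
    (hb : ∀ t, 0 < t → ρ t ≤ C * Real.exp (-κ * t)) : Tendsto ρ atTop (𝓝 0) := by
  have h1 : Tendsto (fun t : ℝ => C * Real.exp (-κ * t)) atTop (𝓝 (C * 0)) := by
    refine Tendsto.const_mul C ?_
    refine Real.tendsto_exp_atBot.comp ?_
    exact tendsto_id.const_mul_atTop_of_neg (by linarith)
  rw [mul_zero] at h1
  refine tendsto_of_tendsto_of_tendsto_of_le_of_le' tendsto_const_nhds h1 ?_ ?_
  · filter_upwards [eventually_ge_atTop 0] with t ht using hρ0 t ht
  · filter_upwards [eventually_gt_atTop 0] with t ht using hb t ht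

lemma wt_int (hκ : 0 < κ) (hw : Continuous w)
    (hb : ∀ t, 0 < t → |w t| ≤ C * t * Real.exp (-κ * t)) :
    IntegrableOn (fun t => w t / t) (Ioi (0 : ℝ)) := by
  have h1 : IntegrableOn (fun t : ℝ => C * Real.exp (-κ * t)) (Ioi (0 : ℝ)) :=
    (exp_neg_integrableOn_Ioi 0 hκ).const_mul C
  refine Integrable.mono' h1 ?_ ?_
  · exact (hw.measurable.div measurable_id).aestronglyMeasurable
  · filter_upwards [ae_restrict_mem measurableSet_Ioi] with t ht
    have h0 : (0 : ℝ) < t := ht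
    rw [Real.norm_eq_abs, abs_div, abs_of_pos h0, div_le_iff₀ h0]
    have := hb t h0
    linarith

lemma mellin_zero (hκ : 0 < κ) (hρ : Continuous ρ) (h0 : ρ 0 = 1)
    (hρ0 : ∀ t, 0 ≤ t → 0 ≤ ρ t) (hw : Continuous w)
    (hd : ∀ t, 0 < t → HasDerivAt ρ (w t / t) t)
    (hb : ∀ t, 0 < t → ρ t ≤ C * Real.exp (-κ * t) ∧ |w t| ≤ C * t * Real.exp (-κ * t)) :
    mellin (fun t => (w t : ℂ)) 0 = -1 := by
  have h1 := integral_Ioi_of_hasDerivAt_of_tendsto (a := 0) (f := ρ) (f' := fun t => w t / t)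
    (m := 0) hρ.continuousWithinAt (fun t ht => hd t ht)
    (wt_int hκ hw fun t ht => (hb t ht).2) (tend_exp hκ hρ0 fun t ht => (hb t ht).1)
  rw [h0] at h1
  have h2 : mellin (fun t => (w t : ℂ)) 0 = ∫ t in Ioi (0 : ℝ), ((w t / t : ℝ) : ℂ) := by
    rw [mellin]
    refine setIntegral_congr_fun measurableSet_Ioi fun t ht => ?_
    have h0 : (0 : ℝ) < t := ht
    simp only [smul_eq_mul, zero_sub]
    rw [Complex.cpow_neg_one]
    push_cast
    ring
  rw [h2, integral_complex_ofReal, h1]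
  norm_num

lemma rpow_exp_int (σ : ℝ) (hσ : 0 < σ) (hκ : 0 < κ) :
    IntegrableOn (fun t : ℝ => t ^ (σ - 1) * Real.exp (-κ * t)) (Ioi (0 : ℝ)) := by
  have := integrableOn_rpow_mul_exp_neg_mul_rpow (s := σ - 1) (p := 1) (b := κ) (by linarith)
    one_pos hκ
  simpa only [Real.rpow_one] using this

lemma mellin_mul (hκ : 0 < κ) (hρ : Continuous ρ)
    (hρ0 : ∀ t, 0 ≤ t → 0 ≤ ρ t) (hw : Continuous w)
    (hd : ∀ t, 0 < t → HasDerivAt ρ (w t / t) t)
    (hb : ∀ t, 0 < t → ρ t ≤ C * Real.exp (-κ * t) ∧ |w t| ≤ C * t * Real.exp (-κ * t))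
    (s : ℂ) (hs : 0 < s.re) :
    mellin (fun t => (w t : ℂ)) s = -s * mellin (fun t => (ρ t : ℂ)) s := by
  have hs0 : s ≠ 0 := by
    rintro rfl
    simp at hs
  have key := integral_Ioi_mul_deriv_eq_deriv_mul (a := (0 : ℝ))
    (u := fun t : ℝ => (t : ℂ) ^ s) (u' := fun t : ℝ => s * (t : ℂ) ^ (s - 1))
    (v := fun t : ℝ => (ρ t : ℂ)) (v' := fun t : ℝ => ((w t / t : ℝ) : ℂ))
    (a' := 0) (b' := 0) ?_ ?_ ?_ ?_ ?_ ?_
  · have e1 : mellin (fun t => (w t : ℂ)) s =
        ∫ t in Ioi (0 : ℝ), (t : ℂ) ^ s * ((w t / t : ℝ) : ℂ) := by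
      rw [mellin]
      refine setIntegral_congr_fun measurableSet_Ioi fun t ht => ?_
      have h0 : (0 : ℝ) < t := ht
      have h0' : (t : ℂ) ≠ 0 := by exact_mod_cast h0.ne'
      simp only [smul_eq_mul]
      rw [Complex.cpow_sub _ _ h0', Complex.cpow_one]
      push_cast
      ring
    rw [e1, key, mellin]
    have e2 : (∫ t in Ioi (0 : ℝ), s * (t : ℂ) ^ (s - 1) * (ρ t : ℂ)) =
        s * ∫ t in Ioi (0 : ℝ), (t : ℂ) ^ (s - 1) • (ρ t : ℂ) := by
      rw [← integral_const_mul]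
      refine setIntegral_congr_fun measurableSet_Ioi fun t _ => ?_
      simp only [smul_eq_mul]
      ring
    rw [e2]
    ring
  · intro t ht
    have h0 : (0 : ℝ) < t := ht
    have := (hasDerivAt_ofReal_cpow_const' h0.ne' (r := s - 1) (by
      intro h
      exact hs0 (by linear_combination h)))
    simp only [sub_add_cancel] at this
    have h2 := this.const_mul s
    refine (h2.congr_of_eventuallyEq ?_)
    filter_upwards with y
    field_simp
  · intro t ht
    exact (hd t ht).ofReal_comp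
  · refine Integrable.mono' ((rpow_exp_int (s.re + 1) (by linarith) hκ).const_mul C) ?_ ?_
    · have h1 : Measurable fun t : ℝ => (t : ℂ) ^ s := by fun_prop
      have h2 : Measurable fun t : ℝ => ((w t / t : ℝ) : ℂ) :=
        Complex.measurable_ofReal.comp (hw.measurable.div measurable_id)
      exact (h1.mul h2).aestronglyMeasurable
    · filter_upwards [ae_restrict_mem measurableSet_Ioi] with t ht
      have h0 : (0 : ℝ) < t := ht
      simp only [Pi.mul_apply]
      rw [norm_mul, Complex.norm_cpow_eq_rpow_re_of_pos h0, Complex.norm_real, Real.norm_eq_abs,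
        abs_div, abs_of_pos h0, add_sub_cancel_right]
      have h3 : |w t| / t ≤ C * Real.exp (-κ * t) := by
        rw [div_le_iff₀ h0]
        have := (hb t h0).2
        linarith
      calc t ^ s.re * (|w t| / t) ≤ t ^ s.re * (C * Real.exp (-κ * t)) :=
            mul_le_mul_of_nonneg_left h3 (by positivity)
        _ = _ := by ring
  · refine Integrable.mono' ((rpow_exp_int s.re hs hκ).const_mul (‖s‖ * C)) ?_ ?_
    · have h1 : Measurable fun t : ℝ => s * (t : ℂ) ^ (s - 1) := by fun_prop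
      have h2 : Measurable fun t : ℝ => (ρ t : ℂ) := Complex.measurable_ofReal.comp hρ.measurable
      exact (h1.mul h2).aestronglyMeasurable
    · filter_upwards [ae_restrict_mem measurableSet_Ioi] with t ht
      have h0 : (0 : ℝ) < t := ht
      simp only [Pi.mul_apply]
      rw [norm_mul, norm_mul, Complex.norm_cpow_eq_rpow_re_of_pos h0, Complex.norm_real,
        Real.norm_of_nonneg (hρ0 t h0.le)]
      have h3 := (hb t h0).1
      simp only [sub_re, one_re]
      calc ‖s‖ * t ^ (s.re - 1) * ρ t ≤ ‖s‖ * t ^ (s.re - 1) * (C * Real.exp (-κ * t)) :=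
            mul_le_mul_of_nonneg_left h3 (by positivity)
        _ = _ := by ring
  · have h1 : Tendsto (fun t : ℝ => (t : ℂ) ^ s) (𝓝[>] 0) (𝓝 0) := by
      have := (continuous_ofReal_cpow_const hs).continuousAt (x := 0)
      rw [ContinuousAt] at this
      rw [Complex.ofReal_zero, Complex.zero_cpow hs0] at this
      exact this.mono_left nhdsWithin_le_nhds
    have h2 : Tendsto (fun t : ℝ => (ρ t : ℂ)) (𝓝[>] 0) (𝓝 (ρ 0 : ℂ)) :=
      ((Complex.continuous_ofReal.comp hρ).tendsto 0).mono_left nhdsWithin_le_nhds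
    have h3 := h1.mul h2
    rw [zero_mul] at h3
    exact h3
  · rw [tendsto_zero_iff_norm_tendsto_zero]
    have h1 : Tendsto (fun t : ℝ => C * (t ^ s.re * Real.exp (-κ * t))) atTop (𝓝 (C * 0)) :=
      (tendsto_rpow_mul_exp_neg_mul_atTop_nhds_zero s.re κ hκ).const_mul C
    rw [mul_zero] at h1
    refine squeeze_zero' (Eventually.of_forall fun _ => norm_nonneg _) ?_ h1
    filter_upwards [eventually_gt_atTop 0] with t ht
    simp only [Pi.mul_apply]
    rw [norm_mul, Complex.norm_cpow_eq_rpow_re_of_pos ht, Complex.norm_real,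
      Real.norm_of_nonneg (hρ0 t ht.le)]
    have h3 := (hb t ht).1
    calc t ^ s.re * ρ t ≤ t ^ s.re * (C * Real.exp (-κ * t)) :=
          mul_le_mul_of_nonneg_left h3 (by positivity)
      _ = _ := by ring

end mel

/-! ### The radial functions -/

variable {K : Type} [Field K]

open Classical in
/-- `t rad'(t)` -/
def wk (v : InfinitePlace K) (t : ℝ) : ℝ :=
  if v.IsReal then -(2 * Real.pi * t) * Real.exp (-(2 * Real.pi * t)) else -gb (4 * Real.pi * t)

lemma rad_real {v : InfinitePlace K} (hv : v.IsReal) :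
    rad v = fun t => Real.exp (-(2 * Real.pi * t)) := by
  funext t
  simp [rad, hv]

lemma rad_cplx {v : InfinitePlace K} (hv : ¬ v.IsReal) :
    rad v = fun t => bes (4 * Real.pi * t) := by
  funext t
  simp [rad, hv]

lemma wk_real {v : InfinitePlace K} (hv : v.IsReal) :
    wk v = fun t => -(2 * Real.pi * t) * Real.exp (-(2 * Real.pi * t)) := by
  funext t
  simp [wk, hv]

lemma wk_cplx {v : InfinitePlace K} (hv : ¬ v.IsReal) :
    wk v = fun t => -gb (4 * Real.pi * t) := by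
  funext t
  simp [wk, hv]

lemma rad_basic (hB : BesStatement) (v : InfinitePlace K) : Continuous (rad v) ∧ rad v 0 = 1 ∧
    ∀ t, 0 ≤ t → 0 ≤ rad v t ∧ rad v t ≤ 1 := by
  obtain ⟨b0, bn, b1, _, bc, _⟩ := hB
  by_cases hv : v.IsReal
  · rw [rad_real hv]
    refine ⟨by fun_prop, by simp, fun t ht => ⟨(Real.exp_pos _).le, ?_⟩⟩
    apply Real.exp_le_one_iff.mpr
    have := Real.pi_pos
    have : 0 ≤ 2 * Real.pi * t := by positivity
    linarith
  · rw [rad_cplx hv]
    exact ⟨bc.comp (by fun_prop), by simp [b0], fun t _ => ⟨bn _, b1 _⟩⟩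

lemma wk_cont (v : InfinitePlace K) : Continuous (wk v) := by
  by_cases hv : v.IsReal
  · rw [wk_real hv]
    fun_prop
  · rw [wk_cplx hv]
    exact (gb_cont.comp (by fun_prop)).neg

lemma rad_deriv (v : InfinitePlace K) (t : ℝ) (ht : 0 < t) :
    HasDerivAt (rad v) (wk v t / t) t := by
  by_cases hv : v.IsReal
  · rw [rad_real hv, wk_real hv]
    have h : HasDerivAt (fun t : ℝ => Real.exp (-(2 * Real.pi * t)))
        (Real.exp (-(2 * Real.pi * t)) * -(2 * Real.pi * 1)) t :=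
      ((((hasDerivAt_id' t).const_mul (2 * Real.pi))).fun_neg).exp
    refine h.congr_deriv ?_
    field_simp
  · rw [rad_cplx hv, wk_cplx hv]
    have hp := Real.pi_pos
    have h1 := bes_deriv (4 * Real.pi * t) (by positivity)
    have h2 := (hasDerivAt_id t).const_mul (4 * Real.pi)
    have h := HasDerivAt.comp t h1 h2
    refine h.congr_deriv ?_
    field_simp

lemma rad_bound (hB : BesStatement) (v : InfinitePlace K) :
    ∃ C κ : ℝ, 0 < C ∧ 0 < κ ∧ ∀ t, 0 < t →
      rad v t ≤ C * Real.exp (-κ * t) ∧ |wk v t| ≤ C * t * Real.exp (-κ * t) := by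
  have hp := Real.pi_pos
  by_cases hv : v.IsReal
  · refine ⟨2 * Real.pi + 1, 2 * Real.pi, by positivity, by positivity, fun t ht => ?_⟩
    rw [rad_real hv, wk_real hv]
    have e : -(2 * Real.pi * t) = -(2 * Real.pi) * t := by ring
    simp only [e]
    have he := Real.exp_pos (-(2 * Real.pi) * t)
    constructor
    · nlinarith [mul_pos hp he]
    · rw [abs_mul, abs_of_pos he, show |-(2 * Real.pi) * t| = 2 * Real.pi * t by
        rw [neg_mul, abs_neg, abs_of_pos (by positivity)]]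
      refine mul_le_mul_of_nonneg_right ?_ he.le
      nlinarith
  · obtain ⟨C1, hC1, h1⟩ := hB.2.2.2.1
    obtain ⟨C2, hC2, h2⟩ := gb_bound
    refine ⟨C1 + C2 * (4 * Real.pi), 2 * Real.pi, by positivity, by positivity, fun t ht => ?_⟩
    rw [rad_cplx hv, wk_cplx hv]
    have he := Real.exp_pos (-(2 * Real.pi) * t)
    have k1 := h1 (4 * Real.pi * t) (by positivity)
    have k2 := h2 (4 * Real.pi * t) (by positivity)
    have e1 : -(4 * Real.pi * t) / 2 = -(2 * Real.pi) * t := by ring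
    have e2 : -(1 / 2) * (4 * Real.pi * t) = -(2 * Real.pi) * t := by ring
    rw [e1] at k1
    rw [e2] at k2
    simp only
    constructor
    · have : 0 ≤ C2 * (4 * Real.pi) * Real.exp (-(2 * Real.pi) * t) := by positivity
      nlinarith
    · rw [abs_neg, abs_of_nonneg (gb_nonneg _)]
      have : 0 ≤ C1 * t * Real.exp (-(2 * Real.pi) * t) := by positivity
      nlinarith

lemma rad_mellin (hB : BesStatement) (v : InfinitePlace K) (s : ℂ) (hs : 0 < s.re) :
    mellin (fun t => (rad v t : ℂ)) s ≠ 0 := by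
  have hp := Real.pi_pos
  have hs0 : s ≠ 0 := by
    rintro rfl
    simp at hs
  by_cases hv : v.IsReal
  · rw [rad_real hv]
    have h1 := Complex.integral_cpow_mul_exp_neg_mul_Ioi (a := s) (r := 2 * Real.pi)
      hs (by positivity)
    have h2 : mellin (fun t => ((Real.exp (-(2 * Real.pi * t)) : ℝ) : ℂ)) s =
        (1 / ((2 * Real.pi : ℝ) : ℂ)) ^ s * Complex.Gamma s := by
      rw [← h1, mellin]
      refine setIntegral_congr_fun measurableSet_Ioi fun t _ => ?_
      simp only [smul_eq_mul]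
      push_cast
      rfl
    rw [h2]
    refine mul_ne_zero ?_ (Complex.Gamma_ne_zero_of_re_pos hs)
    rw [Complex.cpow_ne_zero_iff_of_exponent_ne_zero hs0]
    have : ((2 * Real.pi : ℝ) : ℂ) ≠ 0 := by
      exact_mod_cast (by positivity : (2 * Real.pi : ℝ) ≠ 0)
    exact one_div_ne_zero this
  · rw [rad_cplx hv]
    have h1 := mellin_comp_mul_left (fun x => (bes x : ℂ)) s (a := 4 * Real.pi) (by positivity)
    rw [h1, (hB.2.2.2.2.2 s hs).2, smul_eq_mul]
    have h4 : ((4 * Real.pi : ℝ) : ℂ) ≠ 0 := by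
      exact_mod_cast (by positivity : (4 * Real.pi : ℝ) ≠ 0)
    have h5 : ((4 * Real.pi : ℝ) : ℂ) ^ (-s) ≠ 0 := by
      rw [Complex.cpow_ne_zero_iff_of_exponent_ne_zero (neg_ne_zero.mpr hs0)]
      exact h4
    have h6 : (2 : ℂ) ^ (s - 1) ≠ 0 := by
      intro h
      rw [Complex.cpow_eq_zero_iff] at h
      exact two_ne_zero h.1
    have h7 : Complex.Gamma (s / 2) ≠ 0 := Complex.Gamma_ne_zero_of_re_pos (by simpa using hs)
    have h8 : Complex.Gamma (s / 2 + 1) ≠ 0 :=
      Complex.Gamma_ne_zero_of_re_pos (by simp; linarith)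
    exact mul_ne_zero h5 (mul_ne_zero (mul_ne_zero h6 h7) h8)

theorem ker_proof (hB : BesStatement) : KerStatement := by
  intro K _ _
  refine ⟨fun v => rad_basic hB v, wk, fun v => ?_⟩
  obtain ⟨C, κ, hC, hκ, hb⟩ := rad_bound hB v
  obtain ⟨rc, r0, rb⟩ := rad_basic hB v
  refine ⟨wk_cont v, rad_deriv v, ⟨C, κ, hC, hκ, hb⟩, fun s hs => ?_, ?_⟩
  · rw [mellin_mul hκ rc (fun t ht => (rb t ht).1) (wk_cont v) (rad_deriv v) hb s hs]
    refine mul_ne_zero (neg_ne_zero.mpr ?_) (rad_mellin hB v s hs)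
    rintro rfl
    simp at hs
  · exact mellin_zero hκ rc r0 (fun t ht => (rb t ht).1) (wk_cont v) (rad_deriv v) hb

end

end Pool.Agent.Lib.MP_50bb2e_nt.Anf.Ker
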