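import Pool.Agent.Lib.MP_50bb2e_nt.Anf.Iface

/-!
MP_50bb2e_nt, board ANF, row MEL (helper8): the central value of the additive twist is a period.
-/

namespace Pool.Agent.Lib.MP_50bb2e_nt.Anf.Mel

open Complex MeasureTheory Filter Topology NumberField
open Pool.Agent.Lib.MP_50bb2e_nt.Anf
open Pool.Agent.Lib.MP_50bb2e_nt.Imq (FI SLK)

noncomputable section

/-! ### boxes -/

theorem sg_of_le {a b t : ℝ} (h : a ≤ b) : sg a b t = if t ∈ Set.Ioc a b then 1 else 0 := by
  unfold sg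
  by_cases h1 : t ≤ b
  · by_cases h2 : t ≤ a
    · simp [h1, h2]
    · simp [h1, h2, not_le.1 h2]
  · have h2 : ¬ t ≤ a := fun h2 => h1 (h2.trans h)
    simp [h1, h2]

theorem measurable_sg (a b : ℝ) : Measurable (sg a b) := by
  unfold sg
  exact (Measurable.ite measurableSet_Iic measurable_const measurable_const).sub
    (Measurable.ite measurableSet_Iic measurable_const measurable_const)

theorem abs_sg_le (a b t : ℝ) : |sg a b t| ≤ 1 := by
  unfold sg
  split_ifs <;> norm_num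

theorem sg_eq_zero {a b t R : ℝ} (ha : |a| ≤ R) (hb : |b| ≤ R) (ht : R < |t|) :
    sg a b t = 0 := by
  unfold sg
  rcases le_total 0 t with h | h
  · rw [abs_of_nonneg h] at ht
    have h1 : ¬ t ≤ b := not_le.2 (lt_of_le_of_lt ((le_abs_self b).trans hb) ht)
    have h2 : ¬ t ≤ a := not_le.2 (lt_of_le_of_lt ((le_abs_self a).trans ha) ht)
    simp [h1, h2]
  · rw [abs_of_nonpos h] at ht
    have h1 : t ≤ b := by linarith [(neg_abs_le b), hb]
    have h2 : t ≤ a := by linarith [(neg_abs_le a), ha]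
    simp [h1, h2]

theorem eq_zero_of_box {ι : Type} [Fintype ι] (h : (ι → ℝ) → ℂ) (hc : Continuous h)
    (H : ∀ α β : ι → ℝ, ∫ η : ι → ℝ, ((∏ v, sg (α v) (β v) (η v) : ℝ) : ℂ) * h η = 0) :
    ∀ η, h η = 0 := by
  intro η0
  by_contra hne
  have hpos : 0 < ‖h η0‖ := norm_pos_iff.2 hne
  obtain ⟨δ, hδ, hcl⟩ := Metric.continuousAt_iff.1 hc.continuousAt (‖h η0‖ / 2) (half_pos hpos)
  set δ' : ℝ := δ / 2 with hδ'
  have hδ0 : 0 < δ' := by positivity
  set B : Set (ι → ℝ) := Set.univ.pi (fun v => Set.Ioc (η0 v - δ') (η0 v + δ')) with hB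
  have hBm : MeasurableSet B := MeasurableSet.univ_pi (fun v => measurableSet_Ioc)
  have hvol : volume B = ENNReal.ofReal ((2 * δ') ^ Fintype.card ι) := by
    rw [hB, volume_pi_pi]
    simp only [Real.volume_Ioc]
    rw [← ENNReal.ofReal_prod_of_nonneg]
    · congr 1
      rw [Finset.prod_congr rfl (fun v _ => show η0 v + δ' - (η0 v - δ') = 2 * δ' by ring)]
      simp
    · intro v _
      linarith
  have hvr : volume.real B = (2 * δ') ^ Fintype.card ι := by
    rw [Measure.real, hvol, ENNReal.toReal_ofReal (by positivity)]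
  have hvlt : volume B < ⊤ := by rw [hvol]; exact ENNReal.ofReal_lt_top
  have hind : ∀ η : ι → ℝ, ((∏ v, sg (η0 v - δ') (η0 v + δ') (η v) : ℝ) : ℂ) * h η =
      B.indicator h η := by
    intro η
    by_cases hη : η ∈ B
    · rw [Set.indicator_of_mem hη]
      have : (∏ v, sg (η0 v - δ') (η0 v + δ') (η v) : ℝ) = 1 := by
        apply Finset.prod_eq_one
        intro v _
        rw [sg_of_le (by linarith), if_pos (hη v (Set.mem_univ v))]
      rw [this]; simp
    · rw [Set.indicator_of_notMem hη]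
      have : ∃ v, η v ∉ Set.Ioc (η0 v - δ') (η0 v + δ') := by
        by_contra hcon
        push Not at hcon
        exact hη (fun v _ => hcon v)
      obtain ⟨v, hv⟩ := this
      have : (∏ v, sg (η0 v - δ') (η0 v + δ') (η v) : ℝ) = 0 := by
        apply Finset.prod_eq_zero (Finset.mem_univ v)
        rw [sg_of_le (by linarith), if_neg hv]
      rw [this]; simp
  have h0 : ∫ η in B, h η = 0 := by
    rw [← integral_indicator hBm]
    rw [← H (fun v => η0 v - δ') (fun v => η0 v + δ')]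
    exact integral_congr_ae (Eventually.of_forall (fun η => (hind η).symm))
  have hbd : ∀ η ∈ B, ‖h η - h η0‖ ≤ ‖h η0‖ / 2 := by
    intro η hη
    have : dist η η0 < δ := by
      rw [dist_pi_lt_iff hδ]
      intro v
      have hv := hη v (Set.mem_univ v)
      rw [Real.dist_eq, abs_lt]
      constructor <;> linarith [hv.1, hv.2]
    have := hcl this
    rw [dist_eq_norm] at this
    exact this.le
  have hsub : ‖∫ η in B, (h η - h η0)‖ ≤ ‖h η0‖ / 2 * volume.real B :=
    norm_setIntegral_le_of_norm_le_const hvlt hbd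
  have hint : IntegrableOn h B := by
    have hcomp : IsCompact (Metric.closedBall η0 δ) := isCompact_closedBall η0 δ
    refine (hc.continuousOn.integrableOn_compact hcomp).mono_set ?_
    intro η hη
    rw [Metric.mem_closedBall]
    have : dist η η0 < δ := by
      rw [dist_pi_lt_iff hδ]
      intro v
      have hv := hη v (Set.mem_univ v)
      rw [Real.dist_eq, abs_lt]
      constructor <;> linarith [hv.1, hv.2]
    exact this.le
  rw [integral_sub hint (integrableOn_const hvlt.ne), h0, setIntegral_const, zero_sub, norm_neg,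
    norm_smul, hvr] at hsub
  have hp : 0 < (2 * δ') ^ Fintype.card ι := by positivity
  rw [Real.norm_of_nonneg hp.le] at hsub
  nlinarith

theorem sg_neg {a b t : ℝ} (h1 : t ≠ -a) (h2 : t ≠ -b) : sg a b (-t) = - sg (-a) (-b) t := by
  unfold sg
  have e1 : (-t ≤ b) ↔ ¬ (t ≤ -b) := by
    constructor
    · intro h hh
      exact h2 (le_antisymm hh (by linarith))
    · intro h
      linarith [not_le.1 h]
  have e2 : (-t ≤ a) ↔ ¬ (t ≤ -a) := by
    constructor
    · intro h hh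
      exact h1 (le_antisymm hh (by linarith))
    · intro h
      linarith [not_le.1 h]
  simp only [e1, e2]
  split_ifs <;> norm_num

theorem box_neg {ι : Type} [Fintype ι] (h : (ι → ℝ) → ℂ) (α β : ι → ℝ) :
    ∫ η : ι → ℝ, ((∏ v, sg (α v) (β v) (η v) : ℝ) : ℂ) * h (-η) =
      (-1 : ℂ) ^ Fintype.card ι *
        ∫ η : ι → ℝ, ((∏ v, sg (-α v) (-β v) (η v) : ℝ) : ℂ) * h η := by
  rw [← integral_neg_eq_self, ← integral_const_mul]
  apply integral_congr_ae
  have h1 : ∀ v : ι, ∀ᵐ η : ι → ℝ, η v ≠ -α v := fun v =>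
    Measure.ae_eval_ne (μ := fun _ : ι => (volume : Measure ℝ)) v (-α v)
  have h2 : ∀ v : ι, ∀ᵐ η : ι → ℝ, η v ≠ -β v := fun v =>
    Measure.ae_eval_ne (μ := fun _ : ι => (volume : Measure ℝ)) v (-β v)
  filter_upwards [ae_all_iff.2 h1, ae_all_iff.2 h2] with η e1 e2
  rw [neg_neg]
  have : (∏ v, sg (α v) (β v) ((-η) v) : ℝ) =
      (-1) ^ Fintype.card ι * ∏ v, sg (-α v) (-β v) (η v) := by
    rw [Finset.prod_congr rfl (fun v _ => show sg (α v) (β v) ((-η) v) =
      (-1) * sg (-α v) (-β v) (η v) by rw [Pi.neg_apply, sg_neg (e1 v) (e2 v)]; ring)]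
    rw [Finset.prod_mul_distrib]
    simp
  rw [this]
  push_cast
  ring

/-! ### integrability -/

theorem integrable_dexp (κ c : ℝ) (hκ : 0 < κ) :
    Integrable (fun t : ℝ => Real.exp (c * |t| - κ * Real.exp (κ * |t|))) := by
  have hg : Integrable (fun t : ℝ => Real.exp (c ^ 2 / κ ^ 3) * Real.exp (-(κ ^ 3 / 4) * t ^ 2)) :=
    (integrable_exp_neg_mul_sq (by positivity : 0 < κ ^ 3 / 4)).const_mul _
  refine hg.mono' (by fun_prop) (Eventually.of_forall (fun t => ?_))
  rw [Real.norm_of_nonneg (Real.exp_pos _).le, ← Real.exp_add]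
  apply Real.exp_le_exp.2
  have h1 : (κ * |t|) ^ 2 / 2 ≤ Real.exp (κ * |t|) := by
    have := Real.quadratic_le_exp_of_nonneg (x := κ * |t|) (by positivity)
    nlinarith [this, abs_nonneg t, hκ]
  have h2 : κ * ((κ * |t|) ^ 2 / 2) ≤ κ * Real.exp (κ * |t|) := by
    exact mul_le_mul_of_nonneg_left h1 hκ.le
  have h3 : (κ * |t|) ^ 2 = κ ^ 2 * t ^ 2 := by rw [mul_pow, sq_abs]
  rw [h3] at h2
  have h4 : c * |t| ≤ κ ^ 3 / 4 * t ^ 2 + c ^ 2 / κ ^ 3 := by
    have h5 : 0 ≤ (κ ^ 3 / 2 * |t| - c) ^ 2 := sq_nonneg _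
    have h6 : κ ^ 3 * (c ^ 2 / κ ^ 3) = c ^ 2 := by field_simp
    have h7 : |t| ^ 2 = t ^ 2 := sq_abs t
    have h8 : 0 < κ ^ 3 := by positivity
    have : κ ^ 3 * (c * |t|) ≤ κ ^ 3 * (κ ^ 3 / 4 * t ^ 2 + c ^ 2 / κ ^ 3) := by
      rw [mul_add, h6]
      have h9 : (κ ^ 3 / 2 * |t| - c) ^ 2 =
          κ ^ 3 * (κ ^ 3 / 4 * |t| ^ 2) - κ ^ 3 * (c * |t|) + c ^ 2 := by ring
      rw [h9, h7] at h5
      linarith
    exact le_of_mul_le_mul_left this h8
  nlinarith [h2, h4]

theorem integrable_G {ι : Type} [Fintype ι] (v0 : ι) (G : (ι → ℝ) → ℂ)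
    (hm : AEStronglyMeasurable G) {R C κ : ℝ} (hκ : 0 < κ)
    (h0 : ∀ η : ι → ℝ, (∃ v, v ≠ v0 ∧ R < |η v|) → G η = 0)
    (h1 : ∀ η : ι → ℝ, (∀ v, v ≠ v0 → |η v| ≤ R) →
      ‖G η‖ ≤ C * Real.exp (-κ * Real.exp (κ * |η v0|))) (c : ℝ) (hC : 0 ≤ C) :
    Integrable (fun η : ι → ℝ => ‖G η‖ * Real.exp (c * ∑ v, |η v|)) := by
  classical
  set φ : ι → ℝ → ℝ := fun v => if v = v0 then
    (fun t => Real.exp (c * |t| - κ * Real.exp (κ * |t|))) else
    (Set.Icc (-R) R).indicator (fun t => Real.exp (c * |t|)) with hφ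
  have hφi : ∀ v, Integrable (φ v) := by
    intro v
    by_cases hv : v = v0
    · simp only [hφ, hv, if_true]
      exact integrable_dexp κ c hκ
    · simp only [hφ, hv, if_false]
      have : Continuous (fun t : ℝ => Real.exp (c * |t|)) := by fun_prop
      exact (this.integrableOn_Icc).integrable_indicator measurableSet_Icc
  have hprod : Integrable (fun η : ι → ℝ => C * ∏ v, φ v (η v)) :=
    (Integrable.fintype_prod hφi).const_mul C
  refine hprod.mono' ?_ (Eventually.of_forall (fun η => ?_))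
  · exact hm.norm.mul (by fun_prop : Continuous (fun η : ι → ℝ =>
      Real.exp (c * ∑ v, |η v|))).aestronglyMeasurable
  · rw [Real.norm_of_nonneg (by positivity)]
    by_cases h : ∃ v, v ≠ v0 ∧ R < |η v|
    · rw [h0 η h, norm_zero, zero_mul]
      apply mul_nonneg hC
      apply Finset.prod_nonneg
      intro v _
      simp only [hφ]
      split_ifs
      · positivity
      · exact Set.indicator_nonneg (fun t _ => (Real.exp_pos _).le) _
    · push Not at h
      have hval : ∏ v, φ v (η v) = Real.exp (-κ * Real.exp (κ * |η v0|)) *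
          Real.exp (c * ∑ v, |η v|) := by
        rw [← Finset.mul_prod_erase _ _ (Finset.mem_univ v0)]
        have e1 : φ v0 (η v0) = Real.exp (-κ * Real.exp (κ * |η v0|)) *
            Real.exp (c * |η v0|) := by
          simp only [hφ, if_true]
          rw [← Real.exp_add]
          congr 1
          ring
        have e2 : ∏ v ∈ Finset.univ.erase v0, φ v (η v) =
            ∏ v ∈ Finset.univ.erase v0, Real.exp (c * |η v|) := by
          apply Finset.prod_congr rfl
          intro v hv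
          have hv' := Finset.ne_of_mem_erase hv
          simp only [hφ, hv', if_false]
          rw [Set.indicator_of_mem]
          exact abs_le.1 (h v hv')
        rw [e1, e2, mul_assoc, Finset.mul_prod_erase _ (fun v => Real.exp (c * |η v|))
          (Finset.mem_univ v0), ← Real.exp_sum, Finset.mul_sum]
      rw [hval, ← mul_assoc]
      exact mul_le_mul_of_nonneg_right (h1 η h) (Real.exp_pos _).le

theorem entire_G {ι : Type} [Fintype ι] (G : (ι → ℝ) → ℂ) (hm : AEStronglyMeasurable G)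
    (hG : ∀ c : ℝ, Integrable (fun η : ι → ℝ => ‖G η‖ * Real.exp (c * ∑ v, |η v|)))
    (m : ι → ℝ) (hmm : ∀ v, |m v| ≤ 2) :
    Differentiable ℂ (fun s : ℂ => ∫ η : ι → ℝ, G η *
      exp (s * ((∑ v, m v * η v : ℝ) : ℂ))) := by
  intro s0
  have hS : ∀ η : ι → ℝ, |∑ v, m v * η v| ≤ 2 * ∑ v, |η v| := by
    intro η
    refine (Finset.abs_sum_le_sum_abs _ _).trans ?_
    rw [Finset.mul_sum]
    apply Finset.sum_le_sum
    intro v _
    rw [abs_mul]
    exact mul_le_mul_of_nonneg_right (hmm v) (abs_nonneg _)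
  have hnorm : ∀ (s : ℂ) (η : ι → ℝ), ‖exp (s * ((∑ v, m v * η v : ℝ) : ℂ))‖ ≤
      Real.exp (‖s‖ * (2 * ∑ v, |η v|)) := by
    intro s η
    rw [Complex.norm_exp]
    apply Real.exp_le_exp.2
    calc (s * ((∑ v, m v * η v : ℝ) : ℂ)).re ≤ ‖s * ((∑ v, m v * η v : ℝ) : ℂ)‖ :=
          Complex.re_le_norm _
      _ = ‖s‖ * |∑ v, m v * η v| := by rw [norm_mul, Complex.norm_real, Real.norm_eq_abs]
      _ ≤ _ := mul_le_mul_of_nonneg_left (hS η) (norm_nonneg _)
  have hcont : ∀ s : ℂ, Continuous (fun η : ι → ℝ => exp (s * ((∑ v, m v * η v : ℝ) : ℂ))) := by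
    intro s
    fun_prop
  have key := hasDerivAt_integral_of_dominated_loc_of_deriv_le (μ := (volume : Measure (ι → ℝ)))
    (F := fun (s : ℂ) (η : ι → ℝ) => G η * exp (s * ((∑ v, m v * η v : ℝ) : ℂ)))
    (F' := fun (s : ℂ) (η : ι → ℝ) => G η * (exp (s * ((∑ v, m v * η v : ℝ) : ℂ)) *
      ((∑ v, m v * η v : ℝ) : ℂ))) (x₀ := s0) (s := Metric.ball s0 1)
    (bound := fun η => ‖G η‖ * Real.exp ((2 * (‖s0‖ + 1) + 2) * ∑ v, |η v|))
    (Metric.ball_mem_nhds s0 one_pos)
    (Eventually.of_forall (fun s => hm.mul (hcont s).aestronglyMeasurable)) ?_ ?_ ?_ (hG _) ?_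
  · exact key.2.differentiableAt
  · refine (hG (2 * ‖s0‖)).mono' (hm.mul (hcont s0).aestronglyMeasurable)
      (Eventually.of_forall (fun η => ?_))
    rw [norm_mul]
    refine mul_le_mul_of_nonneg_left ((hnorm s0 η).trans (le_of_eq ?_)) (norm_nonneg _)
    congr 1
    ring
  · refine hm.mul (Continuous.aestronglyMeasurable ?_)
    fun_prop
  · refine Eventually.of_forall (fun η s hs => ?_)
    rw [norm_mul]
    refine mul_le_mul_of_nonneg_left ?_ (norm_nonneg _)
    rw [norm_mul, Complex.norm_real, Real.norm_eq_abs]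
    have hs' : ‖s‖ ≤ ‖s0‖ + 1 := by
      have h1 : ‖s - s0‖ < 1 := by
        rw [← dist_eq_norm]
        exact Metric.mem_ball.1 hs
      have h2 : ‖s‖ ≤ ‖s - s0‖ + ‖s0‖ := by
        calc ‖s‖ = ‖(s - s0) + s0‖ := by rw [sub_add_cancel]
          _ ≤ _ := norm_add_le _ _
      linarith
    have hsum0 : 0 ≤ ∑ v, |η v| := Finset.sum_nonneg (fun v _ => abs_nonneg _)
    calc ‖exp (s * ((∑ v, m v * η v : ℝ) : ℂ))‖ * |∑ v, m v * η v|
        ≤ Real.exp ((‖s0‖ + 1) * (2 * ∑ v, |η v|)) * Real.exp (2 * ∑ v, |η v|) := by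
          apply mul_le_mul
          · refine (hnorm s η).trans (Real.exp_le_exp.2 ?_)
            exact mul_le_mul_of_nonneg_right hs' (by positivity)
          · refine (hS η).trans ?_
            have := Real.add_one_le_exp (2 * ∑ v, |η v|)
            linarith
          · exact abs_nonneg _
          · positivity
      _ = _ := by
          rw [← Real.exp_add]
          congr 1
          ring
  · refine Eventually.of_forall (fun η s _ => ?_)
    apply HasDerivAt.const_mul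
    have h1 : HasDerivAt (fun s : ℂ => s * ((∑ v, m v * η v : ℝ) : ℂ))
        (1 * ((∑ v, m v * η v : ℝ) : ℂ)) s := (hasDerivAt_id s).mul_const _
    rw [one_mul] at h1
    exact h1.cexp

open Classical in
theorem sum_split {ι : Type} [Fintype ι] {n : ℕ} (e : Fin (n + 1) ≃ ι) (Φ : Finset ι → ℂ) :
    ∑ J : Finset ι, Φ J = ∑ J' : Finset (Fin n),
      (Φ (insert (e 0) (J'.map ((Fin.succEmb n).trans e.toEmbedding))) +
        Φ (J'.map ((Fin.succEmb n).trans e.toEmbedding))) := by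
  have hu : (Finset.univ : Finset ι) =
      insert (e 0) (Finset.univ.map ((Fin.succEmb n).trans e.toEmbedding)) := by
    ext v
    simp only [Finset.mem_univ, Finset.mem_insert, Finset.mem_map, true_and, true_iff,
      Function.Embedding.trans_apply, Fin.coe_succEmb, Equiv.coe_toEmbedding]
    rcases Fin.eq_zero_or_eq_succ (e.symm v) with h | ⟨j, h⟩
    · left
      rw [← h, Equiv.apply_symm_apply]
    · right
      exact ⟨j, by rw [← h, Equiv.apply_symm_apply]⟩
  have hni : e 0 ∉ (Finset.univ.map ((Fin.succEmb n).trans e.toEmbedding) : Finset ι) := by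
    simp only [Finset.mem_map, Finset.mem_univ, true_and, Function.Embedding.trans_apply,
      Fin.coe_succEmb, Equiv.coe_toEmbedding, not_exists]
    intro j hj
    exact (Fin.succ_ne_zero j) (e.injective hj)
  have h1 : ∑ J : Finset ι, Φ J = ∑ J ∈ (Finset.univ : Finset ι).powerset, Φ J := by
    rw [Finset.powerset_univ]
  have h2 : ∀ Ψ : Finset ι → ℂ,
      ∑ J ∈ (Finset.univ.map ((Fin.succEmb n).trans e.toEmbedding) : Finset ι).powerset, Ψ J =
        ∑ J' : Finset (Fin n), Ψ (J'.map ((Fin.succEmb n).trans e.toEmbedding)) := by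
    intro Ψ
    symm
    apply Finset.sum_bij (fun (J' : Finset (Fin n)) _ =>
      J'.map ((Fin.succEmb n).trans e.toEmbedding))
    · intro J' _
      rw [Finset.mem_powerset]
      exact Finset.map_subset_map.2 (Finset.subset_univ _)
    · intro J1 _ J2 _ h
      exact Finset.map_injective _ h
    · intro J hJ
      rw [Finset.mem_powerset, Finset.subset_map_iff] at hJ
      obtain ⟨J', _, h⟩ := hJ
      exact ⟨J', Finset.mem_univ _, h.symm⟩
    · intro J' _
      rfl
  rw [h1, hu, Finset.sum_powerset_insert hni, h2, h2, ← Finset.sum_add_distrib]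
  exact Finset.sum_congr rfl (fun J' _ => add_comm _ _)

/-- the corner of the box -/
def mixN {ι : Type} {n : ℕ} (e : Fin (n + 1) ≃ ι) (P : Fin (n + 1) → ι → ℝ)
    (J : Finset (Fin n)) (x0 : ℝ) : ι → ℝ :=
  fun v => Fin.cases x0 (fun j : Fin n => if j ∈ J then P j.succ v else P j.castSucc v) (e.symm v)

/-- lower corner -/
def lo {ι : Type} {n : ℕ} (e : Fin (n + 1) ≃ ι) (P : Fin (n + 1) → ι → ℝ) (x0 : ℝ) : ι → ℝ :=
  fun v => Fin.cases x0 (fun j : Fin n => P j.castSucc v) (e.symm v)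

/-- upper corner -/
def up {ι : Type} {n : ℕ} (e : Fin (n + 1) ≃ ι) (P : Fin (n + 1) → ι → ℝ) (x0 : ℝ) : ι → ℝ :=
  fun v => Fin.cases x0 (fun j : Fin n => P j.succ v) (e.symm v)

open Classical in
theorem mix_insert {ι : Type} {n : ℕ} (e : Fin (n + 1) ≃ ι) (P : Fin (n + 1) → ι → ℝ)
    (J : Finset (Fin n)) (x y : ℝ) :
    (fun v => if v ∈ insert (e 0) (J.map ((Fin.succEmb n).trans e.toEmbedding)) then up e P y v
      else lo e P x v) = mixN e P J y := by
  funext v
  unfold mixN up lo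
  obtain ⟨i, rfl⟩ := e.surjective v
  rw [Equiv.symm_apply_apply]
  refine Fin.cases ?_ (fun j => ?_) i
  · simp
  · have : e j.succ ∈ insert (e 0) (J.map ((Fin.succEmb n).trans e.toEmbedding)) ↔ j ∈ J := by
      rw [Finset.mem_insert, Finset.mem_map]
      constructor
      · rintro (h | ⟨k, hk, h⟩)
        · exact absurd (e.injective h) (Fin.succ_ne_zero j)
        · have := e.injective h
          rw [Fin.coe_succEmb] at this
          rwa [← Fin.succ_injective n this]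
      · intro h
        exact Or.inr ⟨j, h, rfl⟩
    simp only [this, Fin.cases_succ]

open Classical in
theorem mix_map {ι : Type} {n : ℕ} (e : Fin (n + 1) ≃ ι) (P : Fin (n + 1) → ι → ℝ)
    (J : Finset (Fin n)) (x y : ℝ) :
    (fun v => if v ∈ (J.map ((Fin.succEmb n).trans e.toEmbedding)) then up e P y v
      else lo e P x v) = mixN e P J x := by
  funext v
  unfold mixN up lo
  obtain ⟨i, rfl⟩ := e.surjective v
  rw [Equiv.symm_apply_apply]
  refine Fin.cases ?_ (fun j => ?_) i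
  · have : ¬ e 0 ∈ (J.map ((Fin.succEmb n).trans e.toEmbedding)) := by
      rw [Finset.mem_map]
      rintro ⟨k, hk, h⟩
      exact (Fin.succ_ne_zero k) (e.injective h)
    simp [this]
  · have : e j.succ ∈ (J.map ((Fin.succEmb n).trans e.toEmbedding)) ↔ j ∈ J := by
      rw [Finset.mem_map]
      constructor
      · rintro ⟨k, hk, h⟩
        have := e.injective h
        rw [Fin.coe_succEmb] at this
        rwa [← Fin.succ_injective n this]
      · intro h
        exact ⟨j, h, rfl⟩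
    simp only [this, Fin.cases_succ]

open Classical in
theorem sum_corner {ι : Type} [Fintype ι] {n : ℕ} (e : Fin (n + 1) ≃ ι)
    (P : Fin (n + 1) → ι → ℝ) (Φ : (ι → ℝ) → ℂ) (x y : ℝ) :
    ∑ J : Finset ι, (-1 : ℂ) ^ (Fintype.card ι - J.card) *
        Φ (fun v => if v ∈ J then up e P y v else lo e P x v) =
      ∑ J' : Finset (Fin n), (-1 : ℂ) ^ (n - J'.card) * (Φ (mixN e P J' y) - Φ (mixN e P J' x)) := by
  rw [sum_split e]
  apply Finset.sum_congr rfl
  intro J' _
  have hcard : Fintype.card ι = n + 1 := by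
    rw [← Fintype.card_congr e, Fintype.card_fin]
  have hle : J'.card ≤ n := by
    have := Finset.card_le_univ J'
    rwa [Fintype.card_fin] at this
  have hni : e 0 ∉ (J'.map ((Fin.succEmb n).trans e.toEmbedding) : Finset ι) := by
    rw [Finset.mem_map]
    rintro ⟨k, hk, h⟩
    exact (Fin.succ_ne_zero k) (e.injective h)
  rw [mix_insert, mix_map, Finset.card_insert_of_notMem hni, Finset.card_map, hcard]
  have h1 : n + 1 - (J'.card + 1) = n - J'.card := by omega
  have h2 : n + 1 - J'.card = (n - J'.card) + 1 := by omega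
  rw [h1, h2, pow_succ]
  ring

theorem measurable_prod_sg {ι : Type} [Fintype ι] (α β : ι → ℝ) :
    Measurable (fun η : ι → ℝ => ((∏ v, sg (α v) (β v) (η v) : ℝ) : ℂ)) := by
  apply Complex.measurable_ofReal.comp
  apply Finset.measurable_fun_prod
  intro v _
  exact (measurable_sg _ _).comp (measurable_pi_apply v)

theorem integrable_box {ι : Type} [Fintype ι] (h : (ι → ℝ) → ℂ) (hc : Continuous h)
    (α β : ι → ℝ) :
    Integrable (fun η : ι → ℝ => ((∏ v, sg (α v) (β v) (η v) : ℝ) : ℂ) * h η) := by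
  obtain ⟨R, hR⟩ : ∃ R : ℝ, ∀ v, |α v| ≤ R ∧ |β v| ≤ R := by
    refine ⟨∑ v, (|α v| + |β v|), fun v => ?_⟩
    have : |α v| + |β v| ≤ ∑ v, (|α v| + |β v|) :=
      Finset.single_le_sum (f := fun v => |α v| + |β v|) (fun v _ => by positivity)
        (Finset.mem_univ v)
    constructor <;> linarith [abs_nonneg (α v), abs_nonneg (β v)]
  have hcomp : IsCompact (Set.univ.pi (fun _ : ι => Set.Icc (-R) R)) :=
    isCompact_univ_pi (fun _ => isCompact_Icc)
  have hi : Integrable ((Set.univ.pi (fun _ : ι => Set.Icc (-R) R)).indicator h) :=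
    (hc.continuousOn.integrableOn_compact hcomp).integrable_indicator hcomp.measurableSet
  have hb := hi.bdd_mul (c := 1) (f := fun η : ι → ℝ => ((∏ v, sg (α v) (β v) (η v) : ℝ) : ℂ))
    (measurable_prod_sg α β).aestronglyMeasurable (Eventually.of_forall (fun η => by
      rw [Complex.norm_real, Real.norm_eq_abs, Finset.abs_prod]
      exact Finset.prod_le_one (fun v _ => abs_nonneg _) (fun v _ => abs_sg_le _ _ _)))
  refine hb.congr (Eventually.of_forall (fun η => ?_))
  simp only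
  by_cases hη : η ∈ Set.univ.pi (fun _ : ι => Set.Icc (-R) R)
  · rw [Set.indicator_of_mem hη]
  · rw [Set.indicator_of_notMem hη, mul_zero]
    have : ∃ v, ¬ |η v| ≤ R := by
      by_contra hcon
      push Not at hcon
      exact hη (fun v _ => abs_le.1 (hcon v))
    obtain ⟨v, hv⟩ := this
    have : (∏ v, sg (α v) (β v) (η v) : ℝ) = 0 :=
      Finset.prod_eq_zero (Finset.mem_univ v) (sg_eq_zero (hR v).1 (hR v).2 (not_le.1 hv))
    rw [this]
    simp

theorem neg_one_pow_sub' (c j : ℕ) (h : j ≤ c) : (-1 : ℂ) ^ (c - j) = (-1) ^ c * (-1) ^ j := by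
  obtain ⟨k, rfl⟩ := Nat.exists_eq_add_of_le h
  rw [Nat.add_sub_cancel_left, pow_add, mul_comm ((-1 : ℂ) ^ j), mul_assoc, ← mul_pow]
  simp

variable {K : Type} [Field K] [NumberField K]

omit [NumberField K] in
theorem embedding_im (v : InfinitePlace K) (hv : v.IsReal) (r : K) : (v.embedding r).im = 0 := by
  have h := InfinitePlace.isReal_iff.1 hv
  exact Complex.conj_eq_iff_im.1 (by
    have := RingHom.congr_fun h r
    simpa [ComplexEmbedding.conjugate_coe_eq] using this)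

open Classical in
theorem mix_zero (F : Pt K → ℂ) (hF : Mix0 F) (r : K) (α β : InfinitePlace K → ℝ) :
    ∑ J : Finset (InfinitePlace K), (-1 : ℂ) ^ (Fintype.card (InfinitePlace K) - J.card) *
      F (fun v => (v.embedding r, Real.exp ((if v ∈ J then β v else α v)))) = 0 := by
  have h := hF (fun v => (v.embedding r, Real.exp (α v))) (fun v => (v.embedding r, Real.exp (β v)))
    (fun v => ⟨Real.exp_pos _, fun hv => embedding_im v hv r⟩)
    (fun v => ⟨Real.exp_pos _, fun hv => embedding_im v hv r⟩)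
  have h2 : ∑ J : Finset (InfinitePlace K), (-1 : ℂ) ^ (Fintype.card (InfinitePlace K) - J.card) *
      F (fun v => (v.embedding r, Real.exp ((if v ∈ J then β v else α v)))) =
      (-1 : ℂ) ^ (Fintype.card (InfinitePlace K)) * ∑ J : Finset (InfinitePlace K),
        (-1 : ℂ) ^ J.card * F (fun v => if v ∈ J then (v.embedding r, Real.exp (β v)) else
          (v.embedding r, Real.exp (α v))) := by
    rw [Finset.mul_sum]
    apply Finset.sum_congr rfl
    intro J _
    rw [neg_one_pow_sub' _ _ (Finset.card_le_univ J), mul_assoc]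
    congr 3
    funext v
    split_ifs <;> rfl
  rw [h2, h, mul_zero]

open Classical in
theorem f_eq {ι : Type} [Fintype ι] (f f' Rb Rb' : (ι → ℝ) → ℂ) (hf : Continuous f)
    (hf' : Continuous f')
    (h1 : ∀ α β : ι → ℝ, ∫ η : ι → ℝ, ((∏ v, sg (α v) (β v) (η v) : ℝ) : ℂ) * f η =
      ∑ J : Finset ι, (-1 : ℂ) ^ (Fintype.card ι - J.card) *
        Rb (fun v => if v ∈ J then β v else α v))
    (h2 : ∀ α β : ι → ℝ, ∫ η : ι → ℝ, ((∏ v, sg (α v) (β v) (η v) : ℝ) : ℂ) * f' η =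
      ∑ J : Finset ι, (-1 : ℂ) ^ (Fintype.card ι - J.card) *
        Rb' (fun v => if v ∈ J then β v else α v))
    (h3 : ∀ α β : ι → ℝ, ∑ J : Finset ι, (-1 : ℂ) ^ (Fintype.card ι - J.card) *
      (Rb (fun v => if v ∈ J then β v else α v) -
        Rb' (-(fun v => if v ∈ J then β v else α v))) = 0) (η : ι → ℝ) :
    f η = (-1 : ℂ) ^ Fintype.card ι * f' (-η) := by
  have hg : Continuous (fun η : ι → ℝ => (-1 : ℂ) ^ Fintype.card ι * f' (-η)) :=
    continuous_const.mul (hf'.comp continuous_neg)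
  have key := eq_zero_of_box (fun η => f η - (-1 : ℂ) ^ Fintype.card ι * f' (-η)) (hf.sub hg) ?_ η
  · exact sub_eq_zero.1 key
  · intro α β
    have e0 : ∫ η : ι → ℝ, ((∏ v, sg (α v) (β v) (η v) : ℝ) : ℂ) *
        ((-1 : ℂ) ^ Fintype.card ι * f' (-η)) =
        ∑ J : Finset ι, (-1 : ℂ) ^ (Fintype.card ι - J.card) *
          Rb' (-(fun v => if v ∈ J then β v else α v)) := by
      have e1 : ∫ η : ι → ℝ, ((∏ v, sg (α v) (β v) (η v) : ℝ) : ℂ) *
          ((-1 : ℂ) ^ Fintype.card ι * f' (-η)) = (-1 : ℂ) ^ Fintype.card ι *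
          ∫ η : ι → ℝ, ((∏ v, sg (α v) (β v) (η v) : ℝ) : ℂ) * f' (-η) := by
        rw [← integral_const_mul]
        apply integral_congr_ae
        exact Eventually.of_forall (fun η => by simp only; ring)
      rw [e1, box_neg f' α β, ← mul_assoc, ← mul_pow, h2 (fun v => -α v) (fun v => -β v)]
      rw [show (-1 : ℂ) * -1 = 1 by norm_num, one_pow, one_mul]
      apply Finset.sum_congr rfl
      intro J _
      congr 2
      funext v
      simp only [Pi.neg_apply]
      split_ifs <;> rfl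
    have e2 : ∀ η : ι → ℝ, ((∏ v, sg (α v) (β v) (η v) : ℝ) : ℂ) *
        (f η - (-1 : ℂ) ^ Fintype.card ι * f' (-η)) =
        ((∏ v, sg (α v) (β v) (η v) : ℝ) : ℂ) * f η -
        ((∏ v, sg (α v) (β v) (η v) : ℝ) : ℂ) * ((-1 : ℂ) ^ Fintype.card ι * f' (-η)) :=
      fun η => mul_sub _ _ _
    simp only [e2]
    rw [integral_sub (integrable_box f hf α β) (integrable_box _ hg α β), h1, e0,
      ← Finset.sum_sub_distrib, ← h3 α β]
    apply Finset.sum_congr rfl
    intro J _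
    ring

/-! ### Mellin transforms -/

theorem mellin_diff (w : ℝ → ℝ) (hw : Continuous w) {C κ : ℝ} (hC : 0 < C) (hκ : 0 < κ)
    (h : ∀ t, 0 < t → |w t| ≤ C * t * Real.exp (-κ * t)) (s : ℂ) (hs : -1 < s.re) :
    DifferentiableAt ℂ (mellin (fun t => (w t : ℂ))) s := by
  apply mellin_differentiableAt_of_isBigO_rpow (a := s.re + 1) (b := -1)
  · exact (Complex.continuous_ofReal.comp hw).continuousOn.locallyIntegrableOn measurableSet_Ioi
  · -- decay at infinity
    have h1 : (fun t : ℝ => (w t : ℂ)) =O[atTop] (fun t => Real.exp (-(κ / 2) * t)) := by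
      apply Asymptotics.IsBigO.of_bound (C * (2 / κ))
      filter_upwards [eventually_gt_atTop 0] with t ht
      rw [Complex.norm_real, Real.norm_eq_abs, Real.norm_of_nonneg (Real.exp_pos _).le]
      have h2 : t ≤ 2 / κ * Real.exp (κ / 2 * t) := by
        have h3 := Real.add_one_le_exp (κ / 2 * t)
        have h4 : κ / 2 * t ≤ Real.exp (κ / 2 * t) := by linarith
        have h5 : 2 / κ * (κ / 2 * t) = t := by field_simp
        calc t = 2 / κ * (κ / 2 * t) := h5.symm
          _ ≤ _ := mul_le_mul_of_nonneg_left h4 (by positivity)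
      have h6 : Real.exp (-κ * t) = Real.exp (-(κ / 2) * t) * Real.exp (-(κ / 2 * t)) := by
        rw [← Real.exp_add]; congr 1; ring
      have h7 : Real.exp (κ / 2 * t) * Real.exp (-(κ / 2 * t)) = 1 := by
        rw [← Real.exp_add]; simp
      calc |w t| ≤ C * t * Real.exp (-κ * t) := h t ht
        _ ≤ C * (2 / κ * Real.exp (κ / 2 * t)) * Real.exp (-κ * t) := by
            apply mul_le_mul_of_nonneg_right _ (Real.exp_pos _).le
            exact mul_le_mul_of_nonneg_left h2 hC.le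
        _ = C * (2 / κ) * Real.exp (-(κ / 2) * t) *
              (Real.exp (κ / 2 * t) * Real.exp (-(κ / 2 * t))) := by rw [h6]; ring
        _ = _ := by rw [h7, mul_one]
    exact h1.trans (isLittleO_exp_neg_mul_rpow_atTop (by positivity) _).isBigO
  · linarith
  · have h1 : (fun t : ℝ => (w t : ℂ)) =O[𝓝[>] 0] (fun t : ℝ => t ^ (-(-1) : ℝ)) := by
      apply Asymptotics.IsBigO.of_bound C
      filter_upwards [self_mem_nhdsWithin] with t ht
      have ht' : 0 < t := ht
      rw [Complex.norm_real, Real.norm_eq_abs, neg_neg, Real.rpow_one,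
        Real.norm_of_nonneg ht'.le]
      refine (h t ht').trans ?_
      have : Real.exp (-κ * t) ≤ 1 := Real.exp_le_one_iff.2 (by nlinarith)
      exact mul_le_of_le_one_right (by positivity) this
    exact h1
  · exact hs

/-- the signed box of a path (general index set) -/
def lbg {ι : Type} {n : ℕ} (e : Fin (n + 1) ≃ ι) (P : Fin (n + 1) → ι → ℝ) (η : ι → ℝ) : ℝ :=
  ∏ j : Fin n, sg (P j.castSucc (e j.succ)) (P j.succ (e j.succ)) (η (e j.succ))

theorem measurable_lbg {ι : Type} {n : ℕ} (e : Fin (n + 1) ≃ ι)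
    (P : Fin (n + 1) → ι → ℝ) : Measurable (lbg e P) := by
  apply Finset.measurable_fun_prod
  intro v _
  exact (measurable_sg _ _).comp (measurable_pi_apply _)

theorem abs_lbg_le {ι : Type} {n : ℕ} (e : Fin (n + 1) ≃ ι)
    (P : Fin (n + 1) → ι → ℝ) (η : ι → ℝ) : |lbg e P η| ≤ 1 := by
  unfold lbg
  rw [Finset.abs_prod]
  exact Finset.prod_le_one (fun v _ => abs_nonneg _) (fun v _ => abs_sg_le _ _ _)

theorem exists_R {ι : Type} [Fintype ι] {n : ℕ} (P : Fin (n + 1) → ι → ℝ) :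
    ∃ R : ℝ, ∀ j v, |P j v| ≤ R := by
  refine ⟨∑ j, ∑ v, |P j v|, fun j v => ?_⟩
  calc |P j v| ≤ ∑ v, |P j v| :=
        Finset.single_le_sum (f := fun v => |P j v|) (fun v _ => abs_nonneg _) (Finset.mem_univ v)
    _ ≤ _ := Finset.single_le_sum (f := fun j => ∑ v, |P j v|)
        (fun j _ => Finset.sum_nonneg (fun v _ => abs_nonneg _)) (Finset.mem_univ j)

theorem integrable_lbg {ι : Type} [Fintype ι] {n : ℕ} (e : Fin (n + 1) ≃ ι)
    (P : Fin (n + 1) → ι → ℝ) (f : (ι → ℝ) → ℂ) (hf : Continuous f)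
    (hdec : ∀ R : ℝ, ∃ C κ : ℝ, 0 < C ∧ 0 < κ ∧ ∀ η : ι → ℝ, (∀ v, v ≠ e 0 → |η v| ≤ R) →
      ‖f η‖ ≤ C * Real.exp (-κ * Real.exp (κ * |η (e 0)|))) (c : ℝ) :
    Integrable (fun η : ι → ℝ => ‖(lbg e P η : ℂ) * f η‖ * Real.exp (c * ∑ v, |η v|)) := by
  obtain ⟨R, hR⟩ := exists_R P
  obtain ⟨C, κ, hC, hκ, hd⟩ := hdec R
  have hm : AEStronglyMeasurable (fun η : ι → ℝ => (lbg e P η : ℂ) * f η) :=
    ((Complex.measurable_ofReal.comp (measurable_lbg e P)).aestronglyMeasurable).mul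
      hf.aestronglyMeasurable
  refine integrable_G (e 0) (fun η : ι → ℝ => (lbg e P η : ℂ) * f η) hm (R := R) hκ ?_ ?_ c hC.le
  · rintro η ⟨v, hv, hv'⟩
    have : lbg e P η = 0 := by
      obtain ⟨i, rfl⟩ := e.surjective v
      rcases Fin.eq_zero_or_eq_succ i with h | ⟨j, h⟩
      · exact absurd (by rw [h]) hv
      · subst h
        exact Finset.prod_eq_zero (Finset.mem_univ j) (sg_eq_zero (hR _ _) (hR _ _) hv')
    simp only [this, Complex.ofReal_zero, zero_mul]
  · intro η hη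
    rw [norm_mul, Complex.norm_real, Real.norm_eq_abs]
    calc |lbg e P η| * ‖f η‖ ≤ 1 * ‖f η‖ :=
          mul_le_mul_of_nonneg_right (abs_lbg_le e P η) (norm_nonneg _)
      _ = ‖f η‖ := one_mul _
      _ ≤ _ := hd η hη

theorem prod_corner {ι : Type} [Fintype ι] {n : ℕ} (e : Fin (n + 1) ≃ ι)
    (P : Fin (n + 1) → ι → ℝ) (x y : ℝ) (η : ι → ℝ) :
    ∏ v, sg (lo e P x v) (up e P y v) (η v) = sg x y (η (e 0)) * lbg e P η := by
  rw [← e.prod_comp, Fin.prod_univ_succ]
  unfold lo up lbg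
  simp only [Equiv.symm_apply_apply, Fin.cases_zero, Fin.cases_succ]

theorem tendsto_dexp {C κ : ℝ} (hκ : 0 < κ) :
    Tendsto (fun M : ℕ => C * Real.exp (-κ * Real.exp (κ * (M : ℝ)))) atTop (𝓝 0) := by
  have h1 : Tendsto (fun M : ℕ => κ * (M : ℝ)) atTop atTop :=
    tendsto_natCast_atTop_atTop.const_mul_atTop hκ
  have h2 : Tendsto (fun M : ℕ => Real.exp (κ * (M : ℝ))) atTop atTop :=
    Real.tendsto_exp_atTop.comp h1
  have h3 : Tendsto (fun M : ℕ => -κ * Real.exp (κ * (M : ℝ))) atTop atBot :=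
    h2.const_mul_atTop_of_neg (by linarith)
  have h4 : Tendsto (fun M : ℕ => Real.exp (-κ * Real.exp (κ * (M : ℝ)))) atTop (𝓝 0) :=
    Real.tendsto_exp_atBot.comp h3
  simpa using h4.const_mul C

open Classical in
theorem I_zero {ι : Type} [Fintype ι] {n : ℕ} (e : Fin (n + 1) ≃ ι)
    (P : Fin (n + 1) → ι → ℝ) (f Rb Rb' : (ι → ℝ) → ℂ) (hf : Continuous f)
    (h1 : ∀ α β : ι → ℝ, ∫ η : ι → ℝ, ((∏ v, sg (α v) (β v) (η v) : ℝ) : ℂ) * f η =
      ∑ J : Finset ι, (-1 : ℂ) ^ (Fintype.card ι - J.card) *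
        Rb (fun v => if v ∈ J then β v else α v))
    (h3 : ∀ α β : ι → ℝ, ∑ J : Finset ι, (-1 : ℂ) ^ (Fintype.card ι - J.card) *
      (Rb (fun v => if v ∈ J then β v else α v) -
        Rb' (-(fun v => if v ∈ J then β v else α v))) = 0)
    (hdec : ∀ R : ℝ, ∃ C κ : ℝ, 0 < C ∧ 0 < κ ∧ ∀ η : ι → ℝ, (∀ v, v ≠ e 0 → |η v| ≤ R) →
      ‖f η‖ ≤ C * Real.exp (-κ * Real.exp (κ * |η (e 0)|)))
    (hR : ∀ R : ℝ, ∃ C κ : ℝ, 0 < C ∧ 0 < κ ∧ ∀ η : ι → ℝ, (∀ v, v ≠ e 0 → |η v| ≤ R) →
      0 ≤ η (e 0) → ‖Rb η‖ ≤ C * Real.exp (-κ * Real.exp (κ * η (e 0))))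
    (hR' : ∀ R : ℝ, ∃ C κ : ℝ, 0 < C ∧ 0 < κ ∧ ∀ η : ι → ℝ, (∀ v, v ≠ e 0 → |η v| ≤ R) →
      0 ≤ η (e 0) → ‖Rb' η‖ ≤ C * Real.exp (-κ * Real.exp (κ * η (e 0)))) (x0 : ℝ) :
    ∫ η : ι → ℝ, (lbg e P η : ℂ) * f η =
      - ∑ J : Finset (Fin n), (-1 : ℂ) ^ (n - J.card) *
        (Rb (mixN e P J x0) - Rb' (-(mixN e P J x0))) := by
  obtain ⟨R, hPR⟩ := exists_R P
  have hmixR : ∀ (J : Finset (Fin n)) (x : ℝ) (v : ι), v ≠ e 0 → |mixN e P J x v| ≤ R := by
    intro J x v hv
    obtain ⟨i, rfl⟩ := e.surjective v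
    rcases Fin.eq_zero_or_eq_succ i with h | ⟨j, h⟩
    · exact absurd (by rw [h]) hv
    · subst h
      unfold mixN
      rw [Equiv.symm_apply_apply, Fin.cases_succ]
      split_ifs <;> exact hPR _ _
  have hmix0 : ∀ (J : Finset (Fin n)) (x : ℝ), mixN e P J x (e 0) = x := by
    intro J x
    unfold mixN
    rw [Equiv.symm_apply_apply, Fin.cases_zero]
  -- the limit of the integrals
  have lim1 : Tendsto (fun M : ℕ => ∫ η : ι → ℝ,
      ((sg (-(M : ℝ)) M (η (e 0)) * lbg e P η : ℝ) : ℂ) * f η) atTop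
      (𝓝 (∫ η : ι → ℝ, (lbg e P η : ℂ) * f η)) := by
    apply tendsto_integral_of_dominated_convergence (fun η => ‖(lbg e P η : ℂ) * f η‖)
    · intro M
      refine ((Complex.measurable_ofReal.comp (Measurable.mul ?_
        (measurable_lbg e P))).aestronglyMeasurable).mul hf.aestronglyMeasurable
      exact (measurable_sg _ _).comp (measurable_pi_apply _)
    · have := integrable_lbg e P f hf hdec 0
      simpa using this
    · intro M
      refine Eventually.of_forall (fun η => ?_)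
      rw [Complex.ofReal_mul, mul_assoc, norm_mul, Complex.norm_real, Real.norm_eq_abs]
      exact mul_le_of_le_one_left (norm_nonneg _) (abs_sg_le _ _ _)
    · refine Eventually.of_forall (fun η => ?_)
      apply tendsto_nhds_of_eventually_eq
      obtain ⟨M0, hM0⟩ := exists_nat_gt |η (e 0)|
      filter_upwards [eventually_ge_atTop M0] with M hM
      have hM' : |η (e 0)| < M := hM0.trans_le (by exact_mod_cast hM)
      have h2 := abs_lt.1 hM'
      have : sg (-(M : ℝ)) M (η (e 0)) = 1 := by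
        rw [sg_of_le (by linarith [abs_nonneg (η (e 0))]), if_pos ⟨h2.1, h2.2.le⟩]
      rw [this, one_mul]
  -- the value of the integrals
  have hval : ∀ M : ℕ, ∫ η : ι → ℝ,
      ((sg (-(M : ℝ)) M (η (e 0)) * lbg e P η : ℝ) : ℂ) * f η =
      ∑ J : Finset (Fin n), (-1 : ℂ) ^ (n - J.card) * Rb (mixN e P J M) -
        ∑ J : Finset (Fin n), (-1 : ℂ) ^ (n - J.card) * Rb' (-(mixN e P J (-(M : ℝ)))) -
        ∑ J : Finset (Fin n), (-1 : ℂ) ^ (n - J.card) *
          (Rb (mixN e P J x0) - Rb' (-(mixN e P J x0))) := by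
    intro M
    have e1 := h1 (lo e P (-(M : ℝ))) (up e P M)
    simp only [prod_corner] at e1
    rw [e1, sum_corner e P Rb (-(M : ℝ)) M]
    have e2 := h3 (lo e P (-(M : ℝ))) (up e P x0)
    rw [sum_corner e P (fun z => Rb z - Rb' (-z)) (-(M : ℝ)) x0] at e2
    have e3 : ∑ J : Finset (Fin n), (-1 : ℂ) ^ (n - J.card) *
        (Rb (mixN e P J x0) - Rb' (-(mixN e P J x0))) =
        ∑ J : Finset (Fin n), (-1 : ℂ) ^ (n - J.card) *
          (Rb (mixN e P J (-(M : ℝ))) - Rb' (-(mixN e P J (-(M : ℝ))))) := by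
      rw [← sub_eq_zero, ← Finset.sum_sub_distrib, ← e2]
      apply Finset.sum_congr rfl
      intro J _
      ring
    rw [e3, ← Finset.sum_sub_distrib, ← Finset.sum_sub_distrib]
    apply Finset.sum_congr rfl
    intro J _
    ring
  have lim2 : Tendsto (fun M : ℕ => ∑ J : Finset (Fin n), (-1 : ℂ) ^ (n - J.card) *
      Rb (mixN e P J M)) atTop (𝓝 0) := by
    obtain ⟨C, κ, hC, hκ, hd⟩ := hR R
    rw [show (0 : ℂ) = ∑ J : Finset (Fin n), (-1 : ℂ) ^ (n - J.card) * 0 by simp]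
    apply tendsto_finsetSum
    intro J _
    apply Tendsto.const_mul
    apply squeeze_zero_norm (fun M : ℕ => ?_) (tendsto_dexp (C := C) hκ)
    have := hd (mixN e P J M) (hmixR J M) (by rw [hmix0]; positivity)
    rwa [hmix0] at this
  have lim3 : Tendsto (fun M : ℕ => ∑ J : Finset (Fin n), (-1 : ℂ) ^ (n - J.card) *
      Rb' (-(mixN e P J (-(M : ℝ))))) atTop (𝓝 0) := by
    obtain ⟨C, κ, hC, hκ, hd⟩ := hR' R
    rw [show (0 : ℂ) = ∑ J : Finset (Fin n), (-1 : ℂ) ^ (n - J.card) * 0 by simp]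
    apply tendsto_finsetSum
    intro J _
    apply Tendsto.const_mul
    apply squeeze_zero_norm (fun M : ℕ => ?_) (tendsto_dexp (C := C) hκ)
    have := hd (-(mixN e P J (-(M : ℝ)))) (fun v hv => by
      rw [Pi.neg_apply, abs_neg]; exact hmixR J _ v hv)
      (by rw [Pi.neg_apply, hmix0, neg_neg]; positivity)
    rwa [Pi.neg_apply, hmix0, neg_neg] at this
  have lim4 := (lim2.sub lim3).sub (tendsto_const_nhds (x := ∑ J : Finset (Fin n),
    (-1 : ℂ) ^ (n - J.card) * (Rb (mixN e P J x0) - Rb' (-(mixN e P J x0)))))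
  rw [sub_zero, zero_sub] at lim4
  refine tendsto_nhds_unique lim1 ?_
  refine lim4.congr (fun M => (hval M).symm)

theorem tpos_mul (u ξ : K) (hu : TPos u) : TPos (u * ξ) ↔ TPos ξ := by
  have key : ∀ v : InfinitePlace K, v.IsReal →
      (v.embedding (u * ξ)).re = (v.embedding u).re * (v.embedding ξ).re := by
    intro v hv
    rw [map_mul, Complex.mul_re, embedding_im v hv u, zero_mul, sub_zero]
  constructor
  · intro h v hv
    have h1 := h v hv
    rw [key v hv] at h1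
    exact (pos_iff_pos_of_mul_pos h1).1 (hu v hv)
  · intro h v hv
    rw [key v hv]
    exact mul_pos (hu v hv) (h v hv)

open Classical in
theorem coef_cut (a : K → ℂ) (ha : Coef a) (g : K → ℂ) (hg : ∀ ξ, ‖g ξ‖ = 1) :
    Coef (fun ξ => if TPos ξ then a ξ * g ξ else 0) := by
  obtain ⟨B, C, m, h⟩ := ha
  refine ⟨B, C, m, fun ξ hξ => ?_⟩
  obtain ⟨h1, h2⟩ := h ξ hξ
  constructor
  · refine le_trans ?_ h1
    simp only
    split_ifs
    · rw [norm_mul, hg, mul_one]
    · rw [norm_zero]; exact norm_nonneg _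
  · intro h3
    apply h2
    intro h4
    apply h3
    simp [h4]

/-- decay on both sides -/
theorem decay_two {ι : Type} [Fintype ι] (v0 : ι) (f f' : (ι → ℝ) → ℂ) (c : ℂ) (hc : ‖c‖ = 1)
    (hff : ∀ η, f η = c * f' (-η))
    (h : ∀ R : ℝ, ∃ C κ : ℝ, 0 < C ∧ 0 < κ ∧ ∀ η : ι → ℝ, (∀ v, v ≠ v0 → |η v| ≤ R) →
      0 ≤ η v0 → ‖f η‖ ≤ C * Real.exp (-κ * Real.exp (κ * η v0)))
    (h' : ∀ R : ℝ, ∃ C κ : ℝ, 0 < C ∧ 0 < κ ∧ ∀ η : ι → ℝ, (∀ v, v ≠ v0 → |η v| ≤ R) →
      0 ≤ η v0 → ‖f' η‖ ≤ C * Real.exp (-κ * Real.exp (κ * η v0))) (R : ℝ) :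
    ∃ C κ : ℝ, 0 < C ∧ 0 < κ ∧ ∀ η : ι → ℝ, (∀ v, v ≠ v0 → |η v| ≤ R) →
      ‖f η‖ ≤ C * Real.exp (-κ * Real.exp (κ * |η v0|)) := by
  obtain ⟨C1, κ1, hC1, hκ1, h1⟩ := h R
  obtain ⟨C2, κ2, hC2, hκ2, h2⟩ := h' R
  have mono : ∀ κ κ' t : ℝ, 0 < κ → κ ≤ κ' → 0 ≤ t →
      Real.exp (-κ' * Real.exp (κ' * t)) ≤ Real.exp (-κ * Real.exp (κ * t)) := by
    intro κ κ' t h0 hle ht
    apply Real.exp_le_exp.2
    have : Real.exp (κ * t) ≤ Real.exp (κ' * t) :=
      Real.exp_le_exp.2 (mul_le_mul_of_nonneg_right hle ht)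
    nlinarith [Real.exp_pos (κ * t), Real.exp_pos (κ' * t)]
  refine ⟨max C1 C2, min κ1 κ2, lt_max_of_lt_left hC1, lt_min hκ1 hκ2, fun η hη => ?_⟩
  have hκ : 0 < min κ1 κ2 := lt_min hκ1 hκ2
  rcases le_total 0 (η v0) with h0 | h0
  · rw [abs_of_nonneg h0]
    refine (h1 η hη h0).trans ?_
    apply mul_le_mul (le_max_left _ _) (mono _ _ _ hκ (min_le_left _ _) h0)
      (Real.exp_pos _).le (le_max_of_le_left hC1.le)
  · rw [abs_of_nonpos h0, hff, norm_mul, hc, one_mul]
    have h3 := h2 (-η) (fun v hv => by rw [Pi.neg_apply, abs_neg]; exact hη v hv)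
      (by rw [Pi.neg_apply]; linarith)
    rw [Pi.neg_apply] at h3
    refine h3.trans ?_
    apply mul_le_mul (le_max_right _ _) (mono _ _ _ hκ (min_le_right _ _) (by linarith))
      (Real.exp_pos _).le (le_max_of_le_left hC1.le)

theorem lb_eq {n : ℕ} (e : Fin (n + 1) ≃ InfinitePlace K)
    (P : Fin (n + 1) → InfinitePlace K → ℝ) (η : InfinitePlace K → ℝ) : lb e P η = lbg e P η := rfl

theorem box_eq {n : ℕ} (e : Fin (n + 1) ≃ InfinitePlace K) (F : Pt K → ℂ) (r : K)
    (P : Fin (n + 1) → InfinitePlace K → ℝ) :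
    box e F (fun j v => (v.embedding r, Real.exp (P j v))) =
      ∑ J : Finset (Fin n), (-1 : ℂ) ^ (n - J.card) *
        F (fun v => (v.embedding r, Real.exp (mixN e P J (P 0 (e 0)) v))) := by
  unfold box mixN
  apply Finset.sum_congr rfl
  intro J _
  congr 2
  funext v
  obtain ⟨i, rfl⟩ := e.surjective v
  rw [Equiv.symm_apply_apply]
  refine Fin.cases ?_ (fun j => ?_) i
  · simp only [Fin.cases_zero]
  · simp only [Fin.cases_succ]
    split_ifs <;> rfl

open Classical in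
theorem mel_proof (hK : KerStatement) (hT : TrcStatement) (hA : FfaStatement)
    (hB : FfbStatement) (hX : AcxStatement) : MelStatement := by
  intro K _ _ N e a a' r ha ha' hmix u hu hpos hinv
  obtain ⟨w, hw⟩ := (hK K).2
  set F : Pt K → ℂ := fun x => Th a x - Th a' (act (gr r)⁻¹ x) with hF
  set b : K → ℂ := fun ξ => if TPos ξ then a ξ * chK (ξ * r) else 0 with hb
  set b' : K → ℂ := fun ξ => if TPos ξ then a' ξ * chK (ξ * 0) else 0 with hb'
  have hbC : Coef b := coef_cut a ha (fun ξ => chK (ξ * r)) (fun ξ => ((hT K).1 (ξ * r) 0).2)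
  have hbC' : Coef b' := coef_cut a' ha' (fun ξ => chK (ξ * 0)) (fun ξ => ((hT K).1 (ξ * 0) 0).2)
  have hinvb : ∀ i ξ, b ((u i : K) * ξ) = b ξ := by
    intro i ξ
    simp only [hb, tpos_mul _ ξ (hpos i), hinv i ξ]
  obtain ⟨A1, A2, A3⟩ := hA K w hw b hbC
  obtain ⟨A1', A2', A3'⟩ := hA K w hw b' hbC'
  have hD : ∀ η : InfinitePlace K → ℝ, F (fun v => (v.embedding r, Real.exp (η v))) =
      ff rad b η - ff rad b' (-η) := by
    intro η
    simp only [hF]
    rw [(hT K).2.2 a r η]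
    rw [(hX K).2.2.2.1 r (fun v => Real.exp (η v)) (fun v => Real.exp_pos _)]
    have e1 := (hT K).2.2 a' 0 (-η)
    simp only [map_zero, Pi.neg_apply, Real.exp_neg] at e1
    rw [e1]
  have h3 : ∀ α β : InfinitePlace K → ℝ, ∑ J : Finset (InfinitePlace K),
      (-1 : ℂ) ^ (Fintype.card (InfinitePlace K) - J.card) *
      (ff rad b (fun v => if v ∈ J then β v else α v) -
        ff rad b' (-(fun v => if v ∈ J then β v else α v))) = 0 := by
    intro α β
    rw [← mix_zero F hmix r α β]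
    apply Finset.sum_congr rfl
    intro J _
    rw [hD (fun v => if v ∈ J then β v else α v)]
  have hff : ∀ η : InfinitePlace K → ℝ, ff w b η =
      (-1 : ℂ) ^ Fintype.card (InfinitePlace K) * ff w b' (-η) :=
    f_eq (ff w b) (ff w b') (ff rad b) (ff rad b') A1 A1' A2 A2' h3
  have hdw : ∀ R : ℝ, ∃ C κ : ℝ, 0 < C ∧ 0 < κ ∧ ∀ η : InfinitePlace K → ℝ,
      (∀ v, v ≠ e 0 → |η v| ≤ R) → 0 ≤ η (e 0) →
      ‖ff w b η‖ ≤ C * Real.exp (-κ * Real.exp (κ * η (e 0))) := by
    intro R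
    obtain ⟨C, κ, hC, hκ, h⟩ := A3 (e 0) R
    exact ⟨C, κ, hC, hκ, fun η h1 h2 => (h η h1 h2).1⟩
  have hdw' : ∀ R : ℝ, ∃ C κ : ℝ, 0 < C ∧ 0 < κ ∧ ∀ η : InfinitePlace K → ℝ,
      (∀ v, v ≠ e 0 → |η v| ≤ R) → 0 ≤ η (e 0) →
      ‖ff w b' η‖ ≤ C * Real.exp (-κ * Real.exp (κ * η (e 0))) := by
    intro R
    obtain ⟨C, κ, hC, hκ, h⟩ := A3' (e 0) R
    exact ⟨C, κ, hC, hκ, fun η h1 h2 => (h η h1 h2).1⟩
  have hdr : ∀ R : ℝ, ∃ C κ : ℝ, 0 < C ∧ 0 < κ ∧ ∀ η : InfinitePlace K → ℝ,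
      (∀ v, v ≠ e 0 → |η v| ≤ R) → 0 ≤ η (e 0) →
      ‖ff rad b η‖ ≤ C * Real.exp (-κ * Real.exp (κ * η (e 0))) := by
    intro R
    obtain ⟨C, κ, hC, hκ, h⟩ := A3 (e 0) R
    exact ⟨C, κ, hC, hκ, fun η h1 h2 => (h η h1 h2).2⟩
  have hdr' : ∀ R : ℝ, ∃ C κ : ℝ, 0 < C ∧ 0 < κ ∧ ∀ η : InfinitePlace K → ℝ,
      (∀ v, v ≠ e 0 → |η v| ≤ R) → 0 ≤ η (e 0) →
      ‖ff rad b' η‖ ≤ C * Real.exp (-κ * Real.exp (κ * η (e 0))) := by
    intro R
    obtain ⟨C, κ, hC, hκ, h⟩ := A3' (e 0) R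
    exact ⟨C, κ, hC, hκ, fun η h1 h2 => (h η h1 h2).2⟩
  have hdec : ∀ R : ℝ, ∃ C κ : ℝ, 0 < C ∧ 0 < κ ∧ ∀ η : InfinitePlace K → ℝ,
      (∀ v, v ≠ e 0 → |η v| ≤ R) →
      ‖ff w b η‖ ≤ C * Real.exp (-κ * Real.exp (κ * |η (e 0)|)) :=
    decay_two (e 0) (ff w b) (ff w b') ((-1 : ℂ) ^ Fintype.card (InfinitePlace K))
      (by rw [norm_pow, norm_neg, norm_one, one_pow]) hff hdw hdw'
  obtain ⟨ε0, hε0, hB'⟩ := hB K w hw N e u hu
  have hε2 : ε0 * ε0 = 1 := by rcases hε0 with h | h <;> rw [h] <;> norm_num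
  refine ⟨ε0 * (-1) ^ N, ?_, ?_⟩
  · rcases neg_one_pow_eq_or ℂ N with h | h <;> rcases hε0 with h' | h' <;> rw [h, h'] <;> norm_num
  intro T hT' y hy
  obtain ⟨σ, hσ, hσ'⟩ := hB' b hbC hinvb T hT'
  set p : InfinitePlace K → ℝ := fun v => Real.log (y v) with hp
  set I : Equiv.Perm (Fin N) → ℂ → ℂ := fun τ s => ∫ η : InfinitePlace K → ℝ,
    ((lb e (lp u τ p) η : ℝ) : ℂ) * ff w b η *
      exp (s * ((∑ v : InfinitePlace K, (v.mult : ℝ) * η v : ℝ) : ℂ)) with hI
  set S : ℂ → ℂ := fun s => ∑ τ : Equiv.Perm (Fin N), ((Equiv.Perm.sign τ : ℤ) : ℂ) * I τ s with hS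
  set M : ℂ → ℂ := fun s => ∏ v : InfinitePlace K,
    mellin (fun t => (w v t : ℂ)) ((v.mult : ℂ) * s) with hM
  have hId : ∀ τ, Differentiable ℂ (I τ) := by
    intro τ
    apply entire_G (fun η : InfinitePlace K → ℝ => ((lb e (lp u τ p) η : ℝ) : ℂ) * ff w b η)
    · exact ((Complex.measurable_ofReal.comp (measurable_lbg e _)).aestronglyMeasurable).mul
        A1.aestronglyMeasurable
    · intro c
      exact integrable_lbg e (lp u τ p) (ff w b) A1 hdec c
    · intro v
      unfold InfinitePlace.mult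
      split_ifs <;> norm_num
  have hSd : Differentiable ℂ S := by
    apply Differentiable.fun_sum
    intro τ _
    exact (hId τ).const_mul _
  have hMd : ∀ s : ℂ, 0 ≤ s.re → DifferentiableAt ℂ M s := by
    intro s hs
    apply DifferentiableAt.fun_finsetProd
    intro v _
    obtain ⟨w1, w2, ⟨C, κ, hC, hκ, w3⟩, w4, w5⟩ := hw v
    have h1 : DifferentiableAt ℂ (mellin (fun t => (w v t : ℂ))) ((v.mult : ℂ) * s) := by
      apply mellin_diff (w v) w1 hC hκ (fun t ht => (w3 t ht).2)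
      have : ((v.mult : ℂ) * s).re = v.mult * s.re := by
        rw [Complex.mul_re]; simp
      rw [this]
      have h2 : (0 : ℝ) ≤ v.mult * s.re := by positivity
      linarith
    have h2 : DifferentiableAt ℂ (fun s : ℂ => (v.mult : ℂ) * s) s :=
      differentiableAt_id.const_mul _
    show DifferentiableAt ℂ ((mellin (fun t => (w v t : ℂ))) ∘
      (fun s : ℂ => (v.mult : ℂ) * s)) s
    exact DifferentiableAt.comp s h1 h2
  have hMne : ∀ s : ℂ, 0 < s.re → M s ≠ 0 := by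
    intro s hs
    apply Finset.prod_ne_zero_iff.2
    intro v _
    apply (hw v).2.2.2.1
    have : ((v.mult : ℂ) * s).re = v.mult * s.re := by
      rw [Complex.mul_re]; simp
    rw [this]
    have : 0 < v.mult := InfinitePlace.mult_pos
    positivity
  have hM0 : M 0 = (-1) ^ (N + 1) := by
    have hcard : Fintype.card (InfinitePlace K) = N + 1 := by
      rw [← Fintype.card_congr e, Fintype.card_fin]
    simp only [hM, mul_zero]
    rw [Finset.prod_congr rfl (fun v _ => (hw v).2.2.2.2)]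
    rw [Finset.prod_const, Finset.card_univ, hcard]
  have hI0 : ∀ τ, I τ 0 = - box e F (fun j v => (v.embedding r,
      v ((pt u τ j : (𝓞 K)ˣ) : K) * y v)) := by
    intro τ
    have e1 := I_zero e (lp u τ p) (ff w b) (ff rad b) (ff rad b') A1 A2 h3 hdec hdr hdr'
      (lp u τ p 0 (e 0))
    simp only [hI, zero_mul, Complex.exp_zero, mul_one]
    have e2 : ∀ η : InfinitePlace K → ℝ, ((lb e (lp u τ p) η : ℝ) : ℂ) * ff w b η =
      ((lbg e (lp u τ p) η : ℝ) : ℂ) * ff w b η := fun η => rfl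
    simp only [e2]
    rw [e1]
    have e3 : (fun (j : Fin (N + 1)) (v : InfinitePlace K) => (v.embedding r,
      v ((pt u τ j : (𝓞 K)ˣ) : K) * y v)) = fun j v => (v.embedding r,
        Real.exp (lp u τ p j v)) := by
      funext j v
      congr 1
      unfold lp
      rw [Real.exp_add, hp]
      simp only
      rw [Real.exp_log (hy v), Real.exp_log, mul_comm]
      apply InfinitePlace.pos_iff.2
      intro h0
      exact (pt u τ j).ne_zero (RingOfIntegers.coe_injective (by rw [h0, map_zero]))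
    rw [e3, box_eq]
    congr 1
    apply Finset.sum_congr rfl
    intro J _
    rw [hD]
  refine ⟨fun z => ε0 * S (z - 1) / M (z - 1), ?_, ⟨σ + 1, ?_⟩, ?_⟩
  · intro z hz
    have hz' : 0 < (z - 1).re := by
      rw [Complex.sub_re, Complex.one_re]
      have : 1 < z.re := hz
      linarith
    have h1 : DifferentiableAt ℂ (fun z : ℂ => z - 1) z := differentiableAt_id.sub_const 1
    have h2 : DifferentiableAt ℂ (S ∘ (fun z : ℂ => z - 1)) z :=
      DifferentiableAt.comp z (hSd (z - 1)) h1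
    have h3 : DifferentiableAt ℂ (M ∘ (fun z : ℂ => z - 1)) z :=
      DifferentiableAt.comp z (hMd (z - 1) hz'.le) h1
    exact ((h2.const_mul ε0).div h3 (hMne _ hz')).differentiableWithinAt
  · intro z hz
    have hz1 : σ < (z - 1).re := by
      rw [Complex.sub_re, Complex.one_re]
      linarith
    obtain ⟨hsum, hval⟩ := hσ' (z - 1) hz1
    have hval' := hval p
    have hMz := hMne (z - 1) (hσ.trans hz1)
    have hval2 : ∑' t : T, b t.1 * (nK t.1 : ℂ) ^ (-1 - (z - 1)) =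
        ε0 * S (z - 1) / M (z - 1) := by
      rw [eq_div_iff hMz, mul_comm]
      exact hval'
    have hs2 := hsum.hasSum
    rw [hval2] at hs2
    set h : K → ℂ := fun ξ => b ξ * (nK ξ : ℂ) ^ (-1 - (z - 1)) with hh
    have hs3 : HasSum (T.indicator h) (ε0 * S (z - 1) / M (z - 1)) :=
      hasSum_subtype_iff_indicator.1 hs2
    have hs4 : T.indicator h = {t : K | t ∈ T ∧ TPos t}.indicator h := by
      funext t
      by_cases h1 : t ∈ T
      · by_cases h2 : TPos t
        · rw [Set.indicator_of_mem h1, Set.indicator_of_mem (show t ∈ {t : K | t ∈ T ∧ TPos t}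
            from ⟨h1, h2⟩)]
        · rw [Set.indicator_of_mem h1, Set.indicator_of_notMem (fun hc => h2 hc.2)]
          simp only [hh, hb, if_neg h2, zero_mul]
      · rw [Set.indicator_of_notMem h1, Set.indicator_of_notMem (fun hc => h1 hc.1)]
    rw [hs4] at hs3
    have hs5 := hasSum_subtype_iff_indicator.2 hs3
    have hs6 : (fun t : {t : K // t ∈ T ∧ TPos t} => a t.1 * chK (t.1 * r) *
        (nK t.1 : ℂ) ^ (-z)) = h ∘ (fun t : {t : K // t ∈ T ∧ TPos t} => t.1) := by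
      funext t
      simp only [hh, hb, Function.comp, if_pos t.2.2]
      congr 2
      ring
    show HasSum (fun t : {t : K // t ∈ T ∧ TPos t} => a t.1 * chK (t.1 * r) *
        (nK t.1 : ℂ) ^ (-z)) (ε0 * S (z - 1) / M (z - 1))
    rw [hs6]
    exact hs5
  · have hlim : Tendsto (fun t : ℝ => ((t : ℂ) - 1)) (𝓝[>] 1) (𝓝 0) := by
      have : Tendsto (fun t : ℝ => ((t : ℂ) - 1)) (𝓝 1) (𝓝 (((1 : ℝ) : ℂ) - 1)) :=
        (Complex.continuous_ofReal.tendsto 1).sub_const 1
      rw [Complex.ofReal_one, sub_self] at this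
      exact this.mono_left nhdsWithin_le_nhds
    have h1 : Tendsto (fun t : ℝ => S ((t : ℂ) - 1)) (𝓝[>] 1) (𝓝 (S 0)) :=
      ((hSd 0).continuousAt.tendsto).comp hlim
    have h2 : Tendsto (fun t : ℝ => M ((t : ℂ) - 1)) (𝓝[>] 1) (𝓝 (M 0)) :=
      ((hMd 0 (by simp)).continuousAt.tendsto).comp hlim
    have h3 : Tendsto (fun t : ℝ => ε0 * S ((t : ℂ) - 1) / M ((t : ℂ) - 1)) (𝓝[>] 1)
        (𝓝 (ε0 * S 0 / M 0)) :=
      (h1.const_mul ε0).div h2 (by rw [hM0]; exact pow_ne_zero _ (by norm_num))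
    have h4 : S 0 = - ∑ τ : Equiv.Perm (Fin N), ((Equiv.Perm.sign τ : ℤ) : ℂ) *
        box e F (fun j v => (v.embedding r, v ((pt u τ j : (𝓞 K)ˣ) : K) * y v)) := by
      simp only [hS, hI0]
      rw [← Finset.sum_neg_distrib]
      apply Finset.sum_congr rfl
      intro τ _
      ring
    have h5 : ε0 * S 0 / M 0 = ε0 * (-1) ^ N * ∑ τ : Equiv.Perm (Fin N),
        ((Equiv.Perm.sign τ : ℤ) : ℂ) *
        box e F (fun j v => (v.embedding r, v ((pt u τ j : (𝓞 K)ˣ) : K) * y v)) := by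
      rw [h4, hM0, pow_succ]
      rcases neg_one_pow_eq_or ℂ N with h | h <;> rw [h] <;> ring
    rw [← h5]
    exact h3

end

end Pool.Agent.Lib.MP_50bb2e_nt.Anf.Mel
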