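import Pool.Agent.Lib.MP_50bb2e_nt.Anf.Iface

/-!
MP_50bb2e_nt, board ANF, row MINK (helper11): the horoballs of a suitable size cover the product
of the upper half planes and upper half spaces. Balancing by units and the pigeonhole principle.
-/

namespace Pool.Agent.Lib.MP_50bb2e_nt.Anf.Mink

open NumberField NumberField.InfinitePlace NumberField.mixedEmbedding Module
open scoped nonZeroDivisors LinearAlgebra.Projectivization
open Pool.Agent.Lib.MP_50bb2e_nt.Imq (FI)

noncomputable section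

variable {K : Type} [Field K] [NumberField K]

/-- the index set of an integral basis -/
abbrev Ix (K : Type) [Field K] [NumberField K] := Free.ChooseBasisIndex ℤ (𝓞 K)

theorem exists_repr (Z : InfinitePlace K → ℂ)
    (hZ : ∀ v : InfinitePlace K, v.IsReal → (Z v).im = 0) :
    ∃ c : Ix K → ℝ, ∀ v : InfinitePlace K,
      Z v = ∑ i, (c i : ℂ) * v.embedding (integralBasis K i) := by
  let X : mixedSpace K := (fun v => (Z v.1).re, fun v => Z v.1)
  refine ⟨fun i => (mixedEmbedding.latticeBasis K).repr X i, fun v => ?_⟩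
  have h := (mixedEmbedding.latticeBasis K).sum_repr X
  rcases v.isReal_or_isComplex with hv | hv
  · have h1 := congrArg (fun Y : mixedSpace K => Y.1 ⟨v, hv⟩) h
    simp only [Prod.fst_sum, Finset.sum_apply, Prod.smul_fst, Pi.smul_apply,
      mixedEmbedding.latticeBasis_apply, mixedEmbedding_apply_isReal, smul_eq_mul] at h1
    have h2 : Z v = ((Z v).re : ℂ) := by
      apply Complex.ext
      · simp
      · simp [hZ v hv]
    rw [h2]
    change _ = (Z v).re at h1
    rw [← h1]
    push_cast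
    refine Finset.sum_congr rfl fun i _ => ?_
    rw [embedding_of_isReal_apply]
  · have h1 := congrArg (fun Y : mixedSpace K => Y.2 ⟨v, hv⟩) h
    simp only [Prod.snd_sum, Finset.sum_apply, Prod.smul_snd, Pi.smul_apply,
      mixedEmbedding.latticeBasis_apply, mixedEmbedding_apply_isComplex] at h1
    change _ = Z v at h1
    rw [← h1]
    refine Finset.sum_congr rfl fun i _ => ?_
    rw [Complex.real_smul]

/-- the sum of the absolute values of the integral basis -/
def SS (v : InfinitePlace K) : ℝ := ∑ i : Ix K, ‖v.embedding (integralBasis K i)‖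

theorem SS_nonneg (v : InfinitePlace K) : 0 ≤ SS v :=
  Finset.sum_nonneg fun _ _ => norm_nonneg _

theorem fract_diff (x y : ℝ) (N : ℕ) (hN : 0 < N)
    (h : ⌊Int.fract x * N⌋₊ = ⌊Int.fract y * N⌋₊) : |Int.fract x - Int.fract y| ≤ 1 / N := by
  have hN' : (0 : ℝ) < N := by exact_mod_cast hN
  have hx : 0 ≤ Int.fract x * N := mul_nonneg (Int.fract_nonneg _) hN'.le
  have hy : 0 ≤ Int.fract y * N := mul_nonneg (Int.fract_nonneg _) hN'.le
  have h1 := Nat.floor_le hx
  have h2 := Nat.lt_floor_add_one (Int.fract x * N)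
  have h3 := Nat.floor_le hy
  have h4 := Nat.lt_floor_add_one (Int.fract y * N)
  rw [h] at h1 h2
  have h5 : |Int.fract x * N - Int.fract y * N| ≤ 1 := by
    rw [abs_le]; constructor <;> linarith
  rw [← sub_mul, abs_mul, abs_of_pos hN'] at h5
  rw [le_div_iff₀ hN']
  exact h5

theorem pigeon (a : K) (z : InfinitePlace K → ℂ)
    (hz : ∀ v : InfinitePlace K, v.IsReal → (z v).im = 0) (N : ℕ) (hN : 0 < N) :
    ∃ m q : 𝓞 K, m ≠ 0 ∧ ∀ v : InfinitePlace K, ‖v.embedding (m : K)‖ ≤ N * SS v ∧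
      ‖v.embedding (q : K) - v.embedding (a * (m : K)) * z v‖ ≤ 1 / N * SS v := by
  classical
  let M : (Ix K → Fin (N + 1)) → 𝓞 K := fun n => ∑ i, ((n i : ℕ) : ℤ) • RingOfIntegers.basis K i
  have hM : ∀ n, ((M n : 𝓞 K) : K) = ∑ i, ((n i : ℕ) : K) * integralBasis K i := by
    intro n
    simp only [M, map_sum, zsmul_eq_mul, map_mul, map_intCast, integralBasis_apply]
    push_cast
    rfl
  have hc : ∀ n : Ix K → Fin (N + 1), ∃ c : Ix K → ℝ, ∀ v : InfinitePlace K,
      v.embedding (a * (M n : K)) * z v = ∑ i, (c i : ℂ) * v.embedding (integralBasis K i) := by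
    intro n
    apply exists_repr (fun v => v.embedding (a * (M n : K)) * z v)
    intro v hv
    have h1 := hz v hv
    have h2 : (v.embedding (a * (M n : K))).im = 0 := by
      have := embedding_of_isReal_apply hv (a * (M n : K))
      rw [← this]; exact Complex.ofReal_im _
    rw [Complex.mul_im, h1, h2]
    ring
  choose c hc using hc
  let f : (Ix K → Fin (N + 1)) → (Ix K → Fin N) := fun n i =>
    ⟨⌊Int.fract (c n i) * N⌋₊, by
      have hN' : (0 : ℝ) < N := by exact_mod_cast hN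
      rw [Nat.floor_lt (mul_nonneg (Int.fract_nonneg _) hN'.le)]
      calc Int.fract (c n i) * N < 1 * N := by
            apply mul_lt_mul_of_pos_right (Int.fract_lt_one _) hN'
        _ = N := one_mul _⟩
  have hcard : Fintype.card (Ix K → Fin N) < Fintype.card (Ix K → Fin (N + 1)) := by
    rw [Fintype.card_fun, Fintype.card_fun, Fintype.card_fin, Fintype.card_fin]
    apply Nat.pow_lt_pow_left (Nat.lt_succ_self N)
    exact Fintype.card_ne_zero
  obtain ⟨n, n', hne, hf⟩ := Fintype.exists_ne_map_eq_of_card_lt f hcard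
  refine ⟨M n - M n', ∑ i, (⌊c n i⌋ - ⌊c n' i⌋) • RingOfIntegers.basis K i, ?_, ?_⟩
  · rw [sub_ne_zero]
    intro h
    apply hne
    have h1 := congrArg (fun x => (RingOfIntegers.basis K).repr x) h
    funext i
    have h2 := DFunLike.congr_fun h1 i
    simp only [M, Basis.repr_sum_self] at h2
    have h3 : (n i : ℕ) = (n' i : ℕ) := by exact_mod_cast h2
    exact Fin.ext h3
  · intro v
    constructor
    · have h1 : v.embedding ((M n - M n' : 𝓞 K) : K) =
          ∑ i, (((n i : ℕ) : ℂ) - ((n' i : ℕ) : ℂ)) * v.embedding (integralBasis K i) := by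
        have hcoe : ((M n - M n' : 𝓞 K) : K) = (M n : K) - (M n' : K) :=
          map_sub (algebraMap (𝓞 K) K) _ _
        rw [hcoe, hM, hM, map_sub, map_sum, map_sum, ← Finset.sum_sub_distrib]
        refine Finset.sum_congr rfl fun i _ => ?_
        simp only [map_mul, map_natCast]
        ring
      rw [h1, SS, Finset.mul_sum]
      refine (norm_sum_le _ _).trans (Finset.sum_le_sum fun i _ => ?_)
      rw [norm_mul]
      refine mul_le_mul_of_nonneg_right ?_ (norm_nonneg _)
      have h2 : (((n i : ℕ) : ℂ) - ((n' i : ℕ) : ℂ)) = (((((n i : ℕ) : ℝ) - ((n' i : ℕ) : ℝ)) : ℝ) : ℂ) := by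
        push_cast; ring
      rw [h2, Complex.norm_real, Real.norm_eq_abs, abs_le]
      have h3 : ((n i : ℕ) : ℝ) ≤ N := by exact_mod_cast Nat.lt_succ_iff.mp (n i).2
      have h4 : ((n' i : ℕ) : ℝ) ≤ N := by exact_mod_cast Nat.lt_succ_iff.mp (n' i).2
      have h5 : (0 : ℝ) ≤ ((n i : ℕ) : ℝ) := Nat.cast_nonneg _
      have h6 : (0 : ℝ) ≤ ((n' i : ℕ) : ℝ) := Nat.cast_nonneg _
      constructor <;> linarith
    · have h1 : v.embedding (((∑ i, (⌊c n i⌋ - ⌊c n' i⌋) • RingOfIntegers.basis K i : 𝓞 K)) : K) =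
          ∑ i, ((⌊c n i⌋ : ℂ) - (⌊c n' i⌋ : ℂ)) * v.embedding (integralBasis K i) := by
        have hcoe : ((∑ i, (⌊c n i⌋ - ⌊c n' i⌋) • RingOfIntegers.basis K i : 𝓞 K) : K) =
            ∑ i, ((⌊c n i⌋ : K) - (⌊c n' i⌋ : K)) * integralBasis K i := by
          have h0 : ((∑ i, (⌊c n i⌋ - ⌊c n' i⌋) • RingOfIntegers.basis K i : 𝓞 K) : K) =
              ∑ i, algebraMap (𝓞 K) K ((⌊c n i⌋ - ⌊c n' i⌋) • RingOfIntegers.basis K i) :=
            map_sum (algebraMap (𝓞 K) K) _ _
          rw [h0]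
          refine Finset.sum_congr rfl fun i _ => ?_
          rw [zsmul_eq_mul, map_mul, map_intCast, integralBasis_apply]
          push_cast
          rfl
        rw [hcoe, map_sum]
        refine Finset.sum_congr rfl fun i _ => ?_
        rw [map_mul, map_sub, map_intCast, map_intCast]
      have h2 : v.embedding (a * ((M n - M n' : 𝓞 K) : K)) * z v =
          ∑ i, ((c n i : ℂ) - (c n' i : ℂ)) * v.embedding (integralBasis K i) := by
        have hcoe : ((M n - M n' : 𝓞 K) : K) = (M n : K) - (M n' : K) :=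
          map_sub (algebraMap (𝓞 K) K) _ _
        rw [hcoe, mul_sub, map_sub, sub_mul, hc, hc, ← Finset.sum_sub_distrib]
        refine Finset.sum_congr rfl fun i _ => ?_
        ring
      rw [h1, h2, ← Finset.sum_sub_distrib, SS, Finset.mul_sum]
      refine (norm_sum_le _ _).trans (Finset.sum_le_sum fun i _ => ?_)
      rw [← sub_mul, norm_mul]
      refine mul_le_mul_of_nonneg_right ?_ (norm_nonneg _)
      have h3 : ((⌊c n i⌋ : ℂ) - (⌊c n' i⌋ : ℂ)) - ((c n i : ℂ) - (c n' i : ℂ)) =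
          ((-(Int.fract (c n i) - Int.fract (c n' i)) : ℝ) : ℂ) := by
        simp only [Int.fract]
        push_cast
        ring
      rw [h3, Complex.norm_real, Real.norm_eq_abs, abs_neg]
      apply fract_diff _ _ _ hN
      have := congrFun hf i
      simpa [f] using this

/-- the local height form of the balanced vector -/
theorem qv_diag (v : InfinitePlace K) (z : ℂ) (y : ℝ) (hy : 0 < y) (u : (𝓞 K)ˣ) (q m : K) :
    qv v (z, y) ![((u⁻¹ : (𝓞 K)ˣ) : K) * q, (u : K) * m] =
      (‖v.embedding q - v.embedding m * (v.embedding (u : K) ^ 2 * z)‖ ^ 2 +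
        ‖v.embedding m‖ ^ 2 * (‖v.embedding (u : K)‖ ^ 2 * y) ^ 2) /
        (‖v.embedding (u : K)‖ ^ 2 * y) := by
  have hu : ((u : 𝓞 K) : K) ≠ 0 := by
    intro h
    exact u.ne_zero (RingOfIntegers.ext (by simpa using h))
  have huv : v.embedding ((u : 𝓞 K) : K) ≠ 0 := by
    rw [Ne, map_eq_zero]; exact hu
  have hinv : v.embedding (((u⁻¹ : (𝓞 K)ˣ) : 𝓞 K) : K) = (v.embedding ((u : 𝓞 K) : K))⁻¹ := by
    apply eq_inv_of_mul_eq_one_left
    rw [← map_mul, ← map_mul]
    simp
  have hnu : (0 : ℝ) < ‖v.embedding ((u : 𝓞 K) : K)‖ := norm_pos_iff.mpr huv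
  unfold qv
  simp only [Matrix.cons_val_zero, Matrix.cons_val_one, map_mul, hinv]
  have h1 : (v.embedding ((u : 𝓞 K) : K))⁻¹ * v.embedding q -
      v.embedding ((u : 𝓞 K) : K) * v.embedding m * z =
      (v.embedding ((u : 𝓞 K) : K))⁻¹ * (v.embedding q - v.embedding m *
        (v.embedding ((u : 𝓞 K) : K) ^ 2 * z)) := by
    field_simp
  rw [h1, norm_mul, norm_mul, norm_inv]
  field_simp

theorem local_bound {p r y Y C S a1 N : ℝ} (hy : 0 < y) (hY : 0 < Y) (hN : 0 < N) (hp : 0 ≤ p)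
    (hr : 0 ≤ r) (h1 : p ≤ 1 / N * S) (h2 : r ≤ a1 * (N * S)) (hNY1 : 1 ≤ N ^ 2 * Y)
    (hNY2 : N ^ 2 * Y ≤ 4) (hyl : Y * Real.exp (-(2 * C)) ≤ y) (hyu : y ≤ Y * Real.exp (2 * C)) :
    (p ^ 2 + r ^ 2 * y ^ 2) / y ≤ (S ^ 2 + 4 * (a1 * S) ^ 2) * Real.exp (2 * C) := by
  have h3 : (p ^ 2 + r ^ 2 * y ^ 2) / y ≤ (1 / N * S) ^ 2 / y + (a1 * (N * S)) ^ 2 * y := by
    have e : (p ^ 2 + r ^ 2 * y ^ 2) / y = p ^ 2 / y + r ^ 2 * y := by field_simp
    rw [e]
    gcongr
  refine h3.trans ?_
  have h4 : (1 / N * S) ^ 2 / y ≤ S ^ 2 * Real.exp (2 * C) := by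
    rw [div_le_iff₀ hy]
    have h5 : 1 ≤ Real.exp (2 * C) * (N ^ 2 * y) := by
      calc (1 : ℝ) ≤ N ^ 2 * Y := hNY1
        _ = Real.exp (2 * C) * (N ^ 2 * (Y * Real.exp (-(2 * C)))) := by
            rw [Real.exp_neg]
            have := (Real.exp_pos (2 * C)).ne'
            field_simp
        _ ≤ _ := by gcongr
    calc (1 / N * S) ^ 2 = S ^ 2 / N ^ 2 * 1 := by ring
      _ ≤ S ^ 2 / N ^ 2 * (Real.exp (2 * C) * (N ^ 2 * y)) := by gcongr
      _ = S ^ 2 * Real.exp (2 * C) * y := by field_simp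
  have h6 : (a1 * (N * S)) ^ 2 * y ≤ 4 * (a1 * S) ^ 2 * Real.exp (2 * C) := by
    calc (a1 * (N * S)) ^ 2 * y ≤ (a1 * (N * S)) ^ 2 * (Y * Real.exp (2 * C)) := by gcongr
      _ = (a1 * S) ^ 2 * Real.exp (2 * C) * (N ^ 2 * Y) := by ring
      _ ≤ (a1 * S) ^ 2 * Real.exp (2 * C) * 4 := by gcongr
      _ = _ := by ring
  linarith

theorem mink_proof (hU : UbalStatement) : MinkStatement := by
  intro K _ _ A
  classical
  obtain ⟨C, hC⟩ := hU K
  -- a non-zero element of A
  obtain ⟨a0, ha0, ha0A⟩ : ∃ a : K, a ≠ 0 ∧ a ∈ (A : FractionalIdeal (𝓞 K)⁰ K) := by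
    obtain ⟨x, hx, hxA⟩ := FractionalIdeal.exists_ne_zero_mem_isInteger
      (I := (A : FractionalIdeal (𝓞 K)⁰ K)) (by exact A.ne_zero)
    exact ⟨algebraMap (𝓞 K) K x, by simpa using hx, hxA⟩
  let S : ℝ := ∑ v : InfinitePlace K, SS v
  let a1 : ℝ := ∑ v : InfinitePlace K, ‖v.embedding a0‖
  have hS0 : 0 ≤ S := Finset.sum_nonneg fun v _ => SS_nonneg v
  have hSv : ∀ v : InfinitePlace K, SS v ≤ S := fun v =>
    Finset.single_le_sum (f := fun v : InfinitePlace K => SS v) (fun v _ => SS_nonneg v)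
      (Finset.mem_univ v)
  have ha1 : ∀ v : InfinitePlace K, ‖v.embedding a0‖ ≤ a1 := fun v =>
    Finset.single_le_sum (f := fun v : InfinitePlace K => ‖v.embedding a0‖)
      (fun v _ => norm_nonneg _) (Finset.mem_univ v)
  have ha1' : 0 ≤ a1 := Finset.sum_nonneg fun v _ => norm_nonneg _
  let B : ℝ := (S ^ 2 + 4 * (a1 * S) ^ 2) * Real.exp (2 * C) + 1
  have hB : 1 ≤ B := by
    have : 0 ≤ (S ^ 2 + 4 * (a1 * S) ^ 2) * Real.exp (2 * C) := by positivity
    simp only [B]; linarith
  let d : ℕ := ∑ v : InfinitePlace K, v.mult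
  have hd : 0 < d := by
    obtain ⟨v⟩ : Nonempty (InfinitePlace K) := inferInstance
    exact lt_of_lt_of_le v.mult_pos
      (Finset.single_le_sum (f := fun v : InfinitePlace K => v.mult) (fun _ _ => Nat.zero_le _)
        (Finset.mem_univ v))
  have hd' : (0 : ℝ) < d := by exact_mod_cast hd
  have hdsum : (d : ℝ) = ∑ v : InfinitePlace K, (v.mult : ℝ) := by simp [d]
  refine ⟨B ^ d + 2, by positivity, ?_⟩
  intro x hx
  -- it is enough to find a vector
  suffices h : ∃ w : Fin 2 → K, w ≠ 0 ∧ Lam A w ∧ qx x w < B ^ d + 2 by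
    obtain ⟨w, hw, h1, h2⟩ := h
    exact ⟨Projectivization.mk K w hw, w, hw, rfl, h1, h2⟩
  let lY : ℝ := (∑ v : InfinitePlace K, (v.mult : ℝ) * Real.log (x v).2) / d
  by_cases hY : 0 ≤ lY
  · refine ⟨![1, 0], ?_, ?_, ?_⟩
    · intro h
      have := congrFun h 0
      simp at this
    · constructor
      · simpa using FractionalIdeal.one_mem_one _
      · simpa using FractionalIdeal.zero_mem _
    · have h1 : qx x ![1, 0] = Real.exp (-(d * lY)) := by
        unfold qx qv
        simp only [Matrix.cons_val_zero, Matrix.cons_val_one, map_one, map_zero, zero_mul,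
          sub_zero, norm_one, one_pow, norm_zero, ne_eq, OfNat.ofNat_ne_zero, not_false_eq_true,
          zero_pow, add_zero]
        have h2 : (d : ℝ) * lY = ∑ v : InfinitePlace K, (v.mult : ℝ) * Real.log (x v).2 := by
          simp only [lY]; field_simp
        rw [h2, ← Finset.sum_neg_distrib, Real.exp_sum]
        refine Finset.prod_congr rfl fun v _ => ?_
        rw [← mul_neg, Real.exp_nat_mul, Real.exp_neg, Real.exp_log (hx v).1, one_div]
      rw [h1]
      have h2 : Real.exp (-(d * lY)) ≤ 1 := by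
        rw [Real.exp_le_one_iff]
        have : 0 ≤ (d : ℝ) * lY := mul_nonneg hd'.le hY
        linarith
      have h3 : 0 ≤ B ^ d := by positivity
      linarith
  · have hY := not_le.mp hY
    obtain ⟨u, hu⟩ := hC (fun v => (lY - Real.log (x v).2) / 2) (by
      have h2 : (d : ℝ) * lY = ∑ v : InfinitePlace K, (v.mult : ℝ) * Real.log (x v).2 := by
        simp only [lY]; field_simp
      have h3 : ∑ v : InfinitePlace K, (v.mult : ℝ) * ((lY - Real.log (x v).2) / 2) =
          ((∑ v : InfinitePlace K, (v.mult : ℝ)) * lY -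
            ∑ v : InfinitePlace K, (v.mult : ℝ) * Real.log (x v).2) / 2 := by
        rw [Finset.sum_mul, ← Finset.sum_sub_distrib, Finset.sum_div]
        refine Finset.sum_congr rfl fun v _ => ?_
        ring
      rw [h3, ← hdsum, h2]
      ring)
    have huv : ∀ v : InfinitePlace K, 0 < ‖v.embedding ((u : 𝓞 K) : K)‖ := by
      intro v
      rw [norm_pos_iff, Ne, map_eq_zero]
      intro h
      exact u.ne_zero (RingOfIntegers.ext (by simpa using h))
    let y' : InfinitePlace K → ℝ := fun v => ‖v.embedding ((u : 𝓞 K) : K)‖ ^ 2 * (x v).2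
    have hy' : ∀ v, 0 < y' v := fun v => mul_pos (pow_pos (huv v) 2) (hx v).1
    have hlog : ∀ v, |Real.log (y' v) - lY| ≤ 2 * C := by
      intro v
      have h1 := hu v
      have h2 : Real.log (y' v) = 2 * Real.log (v ((u : 𝓞 K) : K)) + Real.log (x v).2 := by
        simp only [y']
        rw [Real.log_mul (pow_pos (huv v) 2).ne' (hx v).1.ne', Real.log_pow,
          InfinitePlace.norm_embedding_eq]
        push_cast
        ring
      rw [h2]
      rw [abs_le] at h1 ⊢
      constructor <;> linarith [h1.1, h1.2]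
    let Y : ℝ := Real.exp lY
    have hYpos : 0 < Y := Real.exp_pos _
    have hYlt : Y < 1 := by
      simp only [Y]; rw [Real.exp_lt_one_iff]; exact hY
    have hyl : ∀ v, Y * Real.exp (-(2 * C)) ≤ y' v := by
      intro v
      rw [← Real.exp_add, ← Real.le_log_iff_exp_le (hy' v)]
      have := (abs_le.mp (hlog v)).1
      linarith
    have hyu : ∀ v, y' v ≤ Y * Real.exp (2 * C) := by
      intro v
      rw [← Real.exp_add, ← Real.log_le_iff_le_exp (hy' v)]
      have := (abs_le.mp (hlog v)).2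
      linarith
    let s : ℝ := (Real.sqrt Y)⁻¹
    have hsq : 0 < Real.sqrt Y := Real.sqrt_pos.mpr hYpos
    have hs : 1 ≤ s := by
      simp only [s]
      rw [one_le_inv₀ hsq, Real.sqrt_le_iff]
      exact ⟨zero_le_one, by linarith⟩
    have hs2 : s ^ 2 * Y = 1 := by
      simp only [s]
      rw [inv_pow, Real.sq_sqrt hYpos.le]
      field_simp
    let N : ℕ := ⌈s⌉₊
    have hN1 : s ≤ N := Nat.le_ceil s
    have hN2 : (N : ℝ) ≤ 2 * s := by
      have := Nat.ceil_lt_add_one (by linarith : 0 ≤ s)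
      linarith
    have hN : 0 < N := Nat.ceil_pos.mpr (by linarith)
    have hN' : (0 : ℝ) < N := by exact_mod_cast hN
    have hNY1 : 1 ≤ (N : ℝ) ^ 2 * Y := by
      rw [← hs2]
      gcongr
    have hNY2 : (N : ℝ) ^ 2 * Y ≤ 4 := by
      calc (N : ℝ) ^ 2 * Y ≤ (2 * s) ^ 2 * Y := by gcongr
        _ = 4 * (s ^ 2 * Y) := by ring
        _ = 4 := by rw [hs2]; ring
    obtain ⟨m, q, hm, hmq⟩ := pigeon a0
      (fun v => v.embedding ((u : 𝓞 K) : K) ^ 2 * (x v).1) (by
        intro v hv
        have h1 := (hx v).2 hv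
        have h2 : (v.embedding ((u : 𝓞 K) : K)).im = 0 := by
          have := embedding_of_isReal_apply hv ((u : 𝓞 K) : K)
          rw [← this]; exact Complex.ofReal_im _
        simp only [pow_two, Complex.mul_im, Complex.mul_re, h1, h2]
        ring) N hN
    refine ⟨![(((u⁻¹ : (𝓞 K)ˣ) : 𝓞 K) : K) * (q : K), ((u : 𝓞 K) : K) * (a0 * (m : K))], ?_, ?_, ?_⟩
    · intro h
      have h1 := congrFun h 1
      simp only [Matrix.cons_val_one, Matrix.cons_val_zero, Pi.zero_apply, mul_eq_zero] at h1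
      rcases h1 with h1 | h1 | h1
      · exact u.ne_zero (RingOfIntegers.ext (by simpa using h1))
      · exact ha0 h1
      · exact hm (RingOfIntegers.ext (by simpa using h1))
    · constructor
      · simp only [Matrix.cons_val_zero]
        rw [FractionalIdeal.mem_one_iff]
        exact ⟨((u⁻¹ : (𝓞 K)ˣ) : 𝓞 K) * q, by simp⟩
      · simp only [Matrix.cons_val_one, Matrix.cons_val_zero]
        have h1 : ((u : 𝓞 K) : K) * (a0 * (m : K)) = ((u : 𝓞 K) * m) • a0 := by
          rw [Algebra.smul_def, map_mul]; ring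
        rw [h1]
        exact (A : FractionalIdeal (𝓞 K)⁰ K).coeToSubmodule.smul_mem _ ha0A
    · have hq : ∀ v, qv v (x v)
          ![(((u⁻¹ : (𝓞 K)ˣ) : 𝓞 K) : K) * (q : K), ((u : 𝓞 K) : K) * (a0 * (m : K))] ≤ B := by
        intro v
        have h0 := qv_diag v (x v).1 (x v).2 (hx v).1 u (q : K) (a0 * (m : K))
        have h00 : ((x v).1, (x v).2) = x v := rfl
        rw [h00] at h0
        rw [h0]
        change (_ + _ * (y' v) ^ 2) / y' v ≤ B
        have h1 : ‖v.embedding (q : K) - v.embedding (a0 * (m : K)) *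
            (v.embedding ((u : 𝓞 K) : K) ^ 2 * (x v).1)‖ ≤ 1 / N * S :=
          (hmq v).2.trans (mul_le_mul_of_nonneg_left (hSv v) (by positivity))
        have h2 : ‖v.embedding (a0 * (m : K))‖ ≤ a1 * (N * S) := by
          rw [map_mul, norm_mul]
          exact mul_le_mul (ha1 v) ((hmq v).1.trans (mul_le_mul_of_nonneg_left (hSv v) hN'.le))
            (norm_nonneg _) ha1'
        have := local_bound (hy' v) hYpos hN' (norm_nonneg _) (norm_nonneg _) h1 h2 hNY1 hNY2
          (hyl v) (hyu v)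
        refine this.trans ?_
        simp only [B]
        linarith
      have hq0 : ∀ v, 0 ≤ qv v (x v)
          ![(((u⁻¹ : (𝓞 K)ˣ) : 𝓞 K) : K) * (q : K), ((u : 𝓞 K) : K) * (a0 * (m : K))] := by
        intro v
        unfold qv
        have := (hx v).1
        positivity
      have : qx x ![(((u⁻¹ : (𝓞 K)ˣ) : 𝓞 K) : K) * (q : K), ((u : 𝓞 K) : K) * (a0 * (m : K))] ≤
          B ^ d := by
        unfold qx
        rw [← Finset.prod_pow_eq_pow_sum]
        exact Finset.prod_le_prod (fun v _ => pow_nonneg (hq0 v) _) fun v _ =>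
          pow_le_pow_left₀ (hq0 v) (hq v) _
      linarith

end

end Pool.Agent.Lib.MP_50bb2e_nt.Anf.Mink

namespace Pool.Agent.Lib.MP_50bb2e_nt.Anf

/-- row MINK -/
theorem mink_proof (hU : UbalStatement) : MinkStatement := Mink.mink_proof hU

end Pool.Agent.Lib.MP_50bb2e_nt.Anf
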