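import Pool.Agent.Lib.MP_50bb2e_nt.Anf.Iface

/-!
MP_50bb2e_nt, board ANF, row ORB: finitely many orbits of non-constant simplices.
-/

namespace Pool.Agent.Lib.MP_50bb2e_nt.Anf.Orb

open NumberField NumberField.InfinitePlace
open scoped nonZeroDivisors LinearAlgebra.Projectivization
open Pool.Agent.Lib.MP_50bb2e_nt.Imq (FI SLK InG)
open Pool.Agent.Lib.MP_50bb2e_nt.Anf

noncomputable section

variable {K : Type} [Field K] [NumberField K]

/-- the determinant of two vectors -/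
def dt (w w' : Fin 2 → K) : K := w 0 * w' 1 - w 1 * w' 0

theorem qv_pos (v : InfinitePlace K) (p : ℂ × ℝ) (hp : 0 < p.2) (w : Fin 2 → K) (hw : w ≠ 0) :
    0 < qv v p w := by
  unfold qv
  apply div_pos _ hp
  by_cases h1 : w 1 = 0
  · have h0 : w 0 ≠ 0 := by
      intro h0
      apply hw
      funext i
      fin_cases i
      · exact h0
      · exact h1
    have h2 : v.embedding (w 0) ≠ 0 := (map_ne_zero _).2 h0
    rw [h1, map_zero, zero_mul, sub_zero]
    have : 0 < ‖v.embedding (w 0)‖ := norm_pos_iff.2 h2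
    positivity
  · have h2 : v.embedding (w 1) ≠ 0 := (map_ne_zero _).2 h1
    have : 0 < ‖v.embedding (w 1)‖ := norm_pos_iff.2 h2
    positivity

theorem qv_smul (v : InfinitePlace K) (p : ℂ × ℝ) (u : K) (w : Fin 2 → K) :
    qv v p (fun i => u * w i) = v u ^ 2 * qv v p w := by
  unfold qv
  simp only [map_mul]
  rw [mul_assoc, ← mul_sub, norm_mul, norm_mul, norm_embedding_eq]
  ring

theorem dt_le (v : InfinitePlace K) (p : ℂ × ℝ) (hp : 0 < p.2) (w w' : Fin 2 → K) :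
    v (dt w w') ≤ (qv v p w + qv v p w') / 2 := by
  unfold qv dt
  rw [← norm_embedding_eq v (w 0 * w' 1 - w 1 * w' 0)]
  set e := v.embedding with he
  have h1 : e (w 0 * w' 1 - w 1 * w' 0) =
      (e (w 0) - e (w 1) * p.1) * e (w' 1) - (e (w' 0) - e (w' 1) * p.1) * e (w 1) := by
    simp only [map_sub, map_mul]
    ring
  rw [h1]
  set α := ‖e (w 0) - e (w 1) * p.1‖ with hα
  set β := ‖e (w 1)‖ with hβ
  set α' := ‖e (w' 0) - e (w' 1) * p.1‖ with hα'
  set β' := ‖e (w' 1)‖ with hβ'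
  have h2 : ‖(e (w 0) - e (w 1) * p.1) * e (w' 1) - (e (w' 0) - e (w' 1) * p.1) * e (w 1)‖ ≤
      α * β' + α' * β := by
    refine (norm_sub_le _ _).trans ?_
    rw [norm_mul, norm_mul]
  refine h2.trans ?_
  rw [← add_div, div_div, le_div_iff₀ (by positivity)]
  nlinarith [sq_nonneg (α - p.2 * β'), sq_nonneg (α' - p.2 * β)]

/-- the degree -/
def dg (K : Type) [Field K] [NumberField K] : ℝ := ∑ v : InfinitePlace K, (v.mult : ℝ)

theorem dg_pos : 0 < dg K := by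
  unfold dg
  apply Finset.sum_pos
  · intro v _
    exact_mod_cast v.mult_pos
  · exact Finset.univ_nonempty

theorem balance (C : ℝ)
    (hU : ∀ t : InfinitePlace K → ℝ, ∑ v, (v.mult : ℝ) * t v = 0 →
      ∃ u : (𝓞 K)ˣ, ∀ v : InfinitePlace K, |Real.log (v (u : K)) - t v| ≤ C)
    (R : ℝ) (x : Pt K) (hx : Pos x) (w : Fin 2 → K) (hw : w ≠ 0) (hq : qx x w < R) :
    ∃ u : (𝓞 K)ˣ, ∀ v : InfinitePlace K,
      qv v (x v) (fun i => (u : K) * w i) ≤ Real.exp (2 * C + Real.log R / dg K) := by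
  have hpos : ∀ v : InfinitePlace K, 0 < qv v (x v) w := fun v => qv_pos v (x v) (hx v).1 w hw
  have hQ : 0 < qx x w := Finset.prod_pos fun v _ => pow_pos (hpos v) _
  have hlogQ : Real.log (qx x w) = ∑ v : InfinitePlace K, (v.mult : ℝ) * Real.log (qv v (x v) w) := by
    unfold qx
    rw [Real.log_prod (fun v _ => (pow_pos (hpos v) _).ne')]
    refine Finset.sum_congr rfl fun v _ => ?_
    rw [Real.log_pow]
  have hd := dg_pos (K := K)
  obtain ⟨u, hu⟩ := hU (fun v => (Real.log (qx x w) / dg K - Real.log (qv v (x v) w)) / 2) (by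
    have h1 : ∀ v : InfinitePlace K,
        (v.mult : ℝ) * ((Real.log (qx x w) / dg K - Real.log (qv v (x v) w)) / 2) =
        (v.mult : ℝ) * (Real.log (qx x w) / dg K / 2) - ((v.mult : ℝ) * Real.log (qv v (x v) w)) / 2 := by
      intro v
      ring
    rw [Finset.sum_congr rfl (fun v _ => h1 v), Finset.sum_sub_distrib, ← Finset.sum_mul,
      ← Finset.sum_div, ← hlogQ]
    change dg K * (Real.log (qx x w) / dg K / 2) - Real.log (qx x w) / 2 = 0
    field_simp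
    ring)
  refine ⟨u, fun v => ?_⟩
  have hu0 : (u : K) ≠ 0 := by
    intro h
    exact (NumberField.Units.coe_ne_zero u) h
  have huv : 0 < v (u : K) := (v.pos_iff).2 hu0
  rw [qv_smul]
  rw [← Real.log_le_iff_le_exp (mul_pos (pow_pos huv 2) (hpos v)),
    Real.log_mul (pow_pos huv 2).ne' (hpos v).ne', Real.log_pow]
  have h1 := (abs_le.1 (hu v)).2
  have h2 : Real.log (qx x w) ≤ Real.log R := Real.log_le_log hQ hq.le
  have h3 : Real.log (qx x w) / dg K ≤ Real.log R / dg K := by gcongr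
  push_cast
  linarith

theorem dt_smul (a b : K) (w w' : Fin 2 → K) :
    dt (fun i => a * w i) (fun i => b * w' i) = a * b * dt w w' := by
  unfold dt
  ring

/-- data: the vectors and the two indices -/
abbrev Dt (K : Type) [Field K] (q : ℕ) := (Fin q → Fin 2 → K) × Fin q × Fin q

/-- the data which occur -/
def Ok {q : ℕ} (A : FI K) (D : Set K) (s : Dt K q) : Prop :=
  (∀ j, s.1 j ≠ 0) ∧ (∀ j, Lam A (s.1 j)) ∧ (∀ i j, dt (s.1 i) (s.1 j) ∈ D) ∧
    dt (s.1 s.2.1) (s.1 s.2.2) ≠ 0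

theorem fin_classes {S Y Z : Type*} (P : S → Prop) (f : S → Y) (p : S → Z)
    (hf : (f '' {s | P s}).Finite) :
    ∃ T : Finset Z, ∀ s, P s → ∃ s', P s' ∧ f s' = f s ∧ p s' ∈ T := by
  classical
  have h : ∀ y ∈ f '' {s | P s}, ∃ s, P s ∧ f s = y := by
    rintro y ⟨s, hs, rfl⟩
    exact ⟨s, hs, rfl⟩
  choose g hg using h
  refine ⟨(hf.toFinset).attach.image (fun y => p (g y.1 (hf.mem_toFinset.1 y.2))), fun s hs => ?_⟩
  have h1 : f s ∈ f '' {s | P s} := ⟨s, hs, rfl⟩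
  refine ⟨g (f s) h1, (hg _ h1).1, (hg _ h1).2, ?_⟩
  rw [Finset.mem_image]
  exact ⟨⟨f s, hf.mem_toFinset.2 h1⟩, Finset.mem_attach _ _, rfl⟩

open Classical in
/-- the class of an integer modulo `m` -/
def cl (m : 𝓞 K) (x : K) : 𝓞 K ⧸ Ideal.span {m} :=
  if h : ∃ y : 𝓞 K, (y : K) = x then Ideal.Quotient.mk _ h.choose else 0

theorem cl_eq (m : 𝓞 K) (x y : K) (hx : ∃ a : 𝓞 K, (a : K) = x) (hy : ∃ a : 𝓞 K, (a : K) = y)
    (h : cl m x = cl m y) : ∃ a : 𝓞 K, x - y = (m : K) * (a : K) := by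
  unfold cl at h
  rw [dif_pos hx, dif_pos hy, Ideal.Quotient.eq, Ideal.mem_span_singleton'] at h
  obtain ⟨a, ha⟩ := h
  refine ⟨a, ?_⟩
  have h1 := congrArg (algebraMap (𝓞 K) K) ha
  have e1 : algebraMap (𝓞 K) K hx.choose = x := hx.choose_spec
  have e2 : algebraMap (𝓞 K) K hy.choose = y := hy.choose_spec
  rw [map_mul, map_sub, e1, e2] at h1
  rw [← h1, mul_comm]

theorem mem_one {x : K} : x ∈ (1 : FractionalIdeal (𝓞 K)⁰ K) ↔ ∃ a : 𝓞 K, (a : K) = x :=
  FractionalIdeal.mem_one_iff _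

/-- the vector `w k` in terms of `w i`, `w j` -/
theorem expand (w w' w'' : Fin 2 → K) (i : Fin 2) :
    dt w w' * w'' i = dt w'' w' * w i + dt w w'' * w' i := by
  unfold dt
  fin_cases i <;> simp <;> ring

/-- the matrix which maps `a, b` to `a', b'` -/
def mtx (a b a' b' : Fin 2 → K) (δ : K) (hδ : δ ≠ 0) (h : dt a b = δ) (h' : dt a' b' = δ) : SLK K :=
  ⟨!![(a' 0 * b 1 - b' 0 * a 1) / δ, (b' 0 * a 0 - a' 0 * b 0) / δ;
      (a' 1 * b 1 - b' 1 * a 1) / δ, (b' 1 * a 0 - a' 1 * b 0) / δ], by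
    rw [Matrix.det_fin_two_of]
    have h1 : (a' 0 * b 1 - b' 0 * a 1) * (b' 1 * a 0 - a' 1 * b 0) -
        (b' 0 * a 0 - a' 0 * b 0) * (a' 1 * b 1 - b' 1 * a 1) = δ * δ := by
      unfold dt at h h'
      calc _ = (a 0 * b 1 - a 1 * b 0) * (a' 0 * b' 1 - a' 1 * b' 0) := by ring
        _ = δ * δ := by rw [h, h']
    field_simp
    linear_combination h1⟩


theorem mtx_smul (a b a' b' : Fin 2 → K) (δ : K) (hδ : δ ≠ 0) (h : dt a b = δ) (h' : dt a' b' = δ)
    (w w' : Fin 2 → K) (e1 : dt w b = dt w' b') (e2 : dt a w = dt a' w') :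
    mtx a b a' b' δ hδ h h' • w = w' := by
  have key : ∀ i, ((a' i * b 1 - b' i * a 1) * w 0 + (b' i * a 0 - a' i * b 0) * w 1) = δ * w' i := by
    intro i
    have h3 := expand a' b' w' i
    rw [h', ← e1, ← e2] at h3
    rw [h3]
    unfold dt
    ring
  funext i
  rw [Matrix.SpecialLinearGroup.smul_def]
  change Matrix.mulVec (mtx a b a' b' δ hδ h h').1 w i = w' i
  fin_cases i
  · simp only [mtx, Matrix.mulVec, dotProduct, Fin.sum_univ_two]
    simp only [Fin.zero_eta, Fin.isValue, Matrix.of_apply, Matrix.cons_val', Matrix.cons_val_zero,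
      Matrix.cons_val_fin_one, Matrix.cons_val_one]
    have := key 0
    field_simp
    linear_combination this
  · simp only [mtx, Matrix.mulVec, dotProduct, Fin.sum_univ_two]
    simp only [Fin.mk_one, Fin.isValue, Matrix.of_apply, Matrix.cons_val', Matrix.cons_val_zero,
      Matrix.cons_val_fin_one, Matrix.cons_val_one]
    have := key 1
    field_simp
    linear_combination this

theorem co_mul (x y : 𝓞 K) : ((x * y : 𝓞 K) : K) = (x : K) * (y : K) := map_mul (algebraMap (𝓞 K) K) x y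

theorem co_add (x y : 𝓞 K) : ((x + y : 𝓞 K) : K) = (x : K) + (y : K) := map_add (algebraMap (𝓞 K) K) x y

theorem co_sub (x y : 𝓞 K) : ((x - y : 𝓞 K) : K) = (x : K) - (y : K) := map_sub (algebraMap (𝓞 K) K) x y

theorem co_one : ((1 : 𝓞 K) : K) = 1 := map_one (algebraMap (𝓞 K) K)

theorem exists_d (A : FI K) : ∃ d : 𝓞 K, d ≠ 0 ∧
    ∀ b : K, b ∈ (A : FractionalIdeal (𝓞 K)⁰ K) → ∃ y : 𝓞 K, (y : K) = (d : K) * b := by
  obtain ⟨d, hd, h⟩ := (A : FractionalIdeal (𝓞 K)⁰ K).isFractional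
  refine ⟨d, nonZeroDivisors.ne_zero hd, fun b hb => ?_⟩
  obtain ⟨y, hy⟩ := h b hb
  refine ⟨y, ?_⟩
  have h1 : algebraMap (𝓞 K) K y = d • b := hy
  rw [Algebra.smul_def] at h1
  exact h1

theorem d_mem (A : FI K) (d : 𝓞 K)
    (h : ∀ b : K, b ∈ (A : FractionalIdeal (𝓞 K)⁰ K) → ∃ y : 𝓞 K, (y : K) = (d : K) * b) :
    (d : K) ∈ ((A⁻¹ : FI K) : FractionalIdeal (𝓞 K)⁰ K) := by
  have h1 : FractionalIdeal.spanSingleton (𝓞 K)⁰ (d : K) * (A : FractionalIdeal (𝓞 K)⁰ K) ≤ 1 := by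
    rw [FractionalIdeal.mul_le]
    intro i hi j hj
    rw [FractionalIdeal.mem_spanSingleton] at hi
    obtain ⟨z, rfl⟩ := hi
    obtain ⟨y, hy⟩ := h j hj
    rw [mem_one]
    refine ⟨z * y, ?_⟩
    rw [Algebra.smul_def, mul_assoc, ← hy]
    exact map_mul (algebraMap (𝓞 K) K) z y
  have h2 : FractionalIdeal.spanSingleton (𝓞 K)⁰ (d : K) ≤ ((A⁻¹ : FI K) : FractionalIdeal (𝓞 K)⁰ K) := by
    have h3 := mul_le_mul_left h1 ((A⁻¹ : FI K) : FractionalIdeal (𝓞 K)⁰ K)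
    rw [one_mul, mul_assoc, Units.mul_inv, mul_one] at h3
    exact h3
  exact (FractionalIdeal.spanSingleton_le_iff_mem).1 h2

theorem exists_P (D : Set K) (hD : D.Finite) : ∃ P : 𝓞 K, P ≠ 0 ∧
    ∀ δ ∈ D, δ ≠ 0 → ∃ y : 𝓞 K, (y : K) * δ = (P : K) := by
  classical
  obtain ⟨b, hb⟩ := IsLocalization.exist_integer_multiples_of_finset (𝓞 K)⁰
    (hD.toFinset.image (fun δ : K => δ⁻¹))
  refine ⟨(b : 𝓞 K), nonZeroDivisors.coe_ne_zero b, fun δ hδ h0 => ?_⟩
  obtain ⟨y, hy⟩ := hb δ⁻¹ (Finset.mem_image.2 ⟨δ, hD.mem_toFinset.2 hδ, rfl⟩)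
  refine ⟨y, ?_⟩
  have h1 : algebraMap (𝓞 K) K y = ((b : 𝓞 K) : K) * δ⁻¹ := by
    rw [hy, Algebra.smul_def]
  have h2 : (y : K) = ((b : 𝓞 K) : K) * δ⁻¹ := h1
  rw [h2, mul_assoc, inv_mul_cancel₀ h0, mul_one]

theorem smul_mem_FI (I : FractionalIdeal (𝓞 K)⁰ K) (a : 𝓞 K) {x : K} (hx : x ∈ I) :
    (a : K) * x ∈ I := by
  have h := I.coeToSubmodule.smul_mem a hx
  rw [Algebra.smul_def] at h
  exact h

theorem proportional (w w' : Fin 2 → K) (hw' : w' ≠ 0) (h : dt w w' = 0) : ∃ a : K, a • w' = w := by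
  unfold dt at h
  by_cases h0 : w' 0 = 0
  · have h1 : w' 1 ≠ 0 := by
      intro h1
      apply hw'
      funext i
      fin_cases i
      · exact h0
      · exact h1
    rw [h0, mul_zero, sub_zero] at h
    have h2 : w 0 = 0 := by
      rcases mul_eq_zero.1 h with h3 | h3
      · exact h3
      · exact absurd h3 h1
    refine ⟨w 1 / w' 1, ?_⟩
    funext i
    fin_cases i
    · simp [h0, h2]
    · simp [h1]
  · refine ⟨w 0 / w' 0, ?_⟩
    funext i
    fin_cases i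
    · simp [h0]
    · simp only [Fin.mk_one, Fin.isValue, Pi.smul_apply, smul_eq_mul]
      field_simp
      linear_combination h

open Classical in
/-- the tuple of lines of the data -/
def lines {q : ℕ} (s : Dt K q) : Fin q → ℙ K (Fin 2 → K) := fun j =>
  if h : s.1 j ≠ 0 then Projectivization.mk K (s.1 j) h else Classical.arbitrary _

/-- the type of the data -/
def ty {q : ℕ} (m d : 𝓞 K) (s : Dt K q) : (Fin q × Fin q) × (Fin q → Fin q → K) ×
    ((𝓞 K ⧸ Ideal.span {m}) × (𝓞 K ⧸ Ideal.span {m}) × (𝓞 K ⧸ Ideal.span {m}) ×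
      (𝓞 K ⧸ Ideal.span {m})) :=
  (s.2, fun i j => dt (s.1 i) (s.1 j), cl m (s.1 s.2.1 0), cl m (s.1 s.2.2 0),
    cl m ((d : K) * s.1 s.2.1 1), cl m ((d : K) * s.1 s.2.2 1))

theorem ty_finite {q : ℕ} (A : FI K) (D : Set K) (hD : D.Finite) (m d : 𝓞 K) (hm : m ≠ 0) :
    (ty (q := q) m d '' {s | Ok A D s}).Finite := by
  have hfq : Finite (𝓞 K ⧸ Ideal.span {m}) := by
    refine Ideal.finiteQuotientOfFreeOfNeBot _ ?_
    rw [Ne, Ideal.span_singleton_eq_bot]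
    exact hm
  have h1 : {F : Fin q → Fin q → K | ∀ i j, F i j ∈ D}.Finite := by
    have h2 := Set.Finite.pi' (fun _ : Fin q => Set.Finite.pi' (fun _ : Fin q => hD))
    exact h2
  have h2 := (Set.finite_univ (α := Fin q × Fin q)).prod (h1.prod (Set.finite_univ
    (α := (𝓞 K ⧸ Ideal.span {m}) × (𝓞 K ⧸ Ideal.span {m}) × (𝓞 K ⧸ Ideal.span {m}) ×
      (𝓞 K ⧸ Ideal.span {m}))))
  refine h2.subset ?_
  rintro _ ⟨s, hs, rfl⟩
  exact ⟨Set.mem_univ _, hs.2.2.1, Set.mem_univ _⟩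

/-- data of the same type are in the same orbit -/
theorem orbit {q : ℕ} (A : FI K) (n : Ideal (𝓞 K)) (D : Set K) (d ν P : 𝓞 K) (hd0 : d ≠ 0)
    (hd : ∀ b : K, b ∈ (A : FractionalIdeal (𝓞 K)⁰ K) → ∃ y : 𝓞 K, (y : K) = (d : K) * b)
    (hν : ν ∈ n) (hP : ∀ δ ∈ D, δ ≠ 0 → ∃ y : 𝓞 K, (y : K) * δ = (P : K))
    (s s' : Dt K q) (hs : Ok A D s) (hs' : Ok A D s')
    (h : ty (ν * d * d * P) d s' = ty (ν * d * d * P) d s) :
    ∃ g : SLK K, InG n A g ∧ ∀ j, g • s'.1 j = s.1 j := by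
  obtain ⟨w, i, j⟩ := s
  obtain ⟨w', i', j'⟩ := s'
  unfold ty at h
  simp only [Prod.mk.injEq] at h
  obtain ⟨⟨rfl, rfl⟩, h1, h2, h3, h4, h5⟩ := h
  obtain ⟨-, hL, hDD, hne⟩ := hs
  obtain ⟨-, hL', hDD', hne'⟩ := hs'
  simp only at hL hL' hDD hDD' hne hne'
  have hdt : ∀ k k', dt (w' k) (w' k') = dt (w k) (w k') := fun k k' =>
    congrFun (congrFun h1 k) k'
  set a := w' i' with ha
  set b := w' j' with hb
  set a' := w i' with ha'
  set b' := w j' with hb'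
  set δ := dt a b with hδ
  have hδ' : dt a' b' = δ := (hdt i' j').symm
  refine ⟨mtx a b a' b' δ hne' rfl hδ', ?_, ?_⟩
  · obtain ⟨y, hy⟩ := hP δ (hDD' i' j') hne'
    obtain ⟨a0, ha0⟩ := mem_one.1 (hL' i').1
    obtain ⟨b0, hb0⟩ := mem_one.1 (hL' j').1
    obtain ⟨a1, ha1⟩ := hd _ (hL' i').2
    obtain ⟨b1, hb1⟩ := hd _ (hL' j').2
    rw [← ha] at ha0 ha1
    rw [← hb] at hb0 hb1
    obtain ⟨α, hα⟩ := cl_eq _ _ _ (mem_one.1 (hL i').1) (mem_one.1 (hL' i').1) h2.symm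
    obtain ⟨β, hβ⟩ := cl_eq _ _ _ (mem_one.1 (hL j').1) (mem_one.1 (hL' j').1) h3.symm
    obtain ⟨γ, hγ⟩ := cl_eq _ _ _ (hd _ (hL i').2) (hd _ (hL' i').2) h4.symm
    obtain ⟨ε, hε⟩ := cl_eq _ _ _ (hd _ (hL j').2) (hd _ (hL' j').2) h5.symm
    rw [← ha, ← ha'] at hα hγ
    rw [← hb, ← hb'] at hβ hε
    have hmK : ((ν * d * d * P : 𝓞 K) : K) = (ν : K) * d * d * (y * δ) := by
      rw [hy]
      simp only [co_mul]
    rw [hmK] at hα hβ hγ hε
    have hdK : (d : K) ≠ 0 := by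
      intro h0
      exact hd0 ((NumberField.RingOfIntegers.coe_eq_zero_iff).1 h0)
    have hγ' : a' 1 - a 1 = (ν : K) * d * y * δ * γ := by
      apply mul_left_cancel₀ hdK
      rw [mul_sub, hγ]
      ring
    have hε' : b' 1 - b 1 = (ν : K) * d * y * δ * ε := by
      apply mul_left_cancel₀ hdK
      rw [mul_sub, hε]
      ring
    have hδe : a 0 * b 1 - a 1 * b 0 = δ := rfl
    have g00 : (a' 0 * b 1 - b' 0 * a 1) / δ = ((1 + ν * d * y * (α * b1 - β * a1) : 𝓞 K) : K) := by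
      have e1 : a' 0 = a 0 + (ν : K) * d * d * (y * δ) * α := by rw [← hα]; ring
      have e2 : b' 0 = b 0 + (ν : K) * d * d * (y * δ) * β := by rw [← hβ]; ring
      simp only [co_add, co_mul, co_sub, co_one]
      rw [ha1, hb1, e1, e2, div_eq_iff hne']
      linear_combination hδe
    have g01 : (b' 0 * a 0 - a' 0 * b 0) / δ =
        ((ν * d * y * (β * a0 - α * b0) : 𝓞 K) : K) * (d : K) := by
      have e1 : a' 0 = a 0 + (ν : K) * d * d * (y * δ) * α := by rw [← hα]; ring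
      have e2 : b' 0 = b 0 + (ν : K) * d * d * (y * δ) * β := by rw [← hβ]; ring
      simp only [co_mul, co_sub]
      rw [ha0, hb0, e1, e2, div_eq_iff hne']
      ring
    have g10 : (a' 1 * b 1 - b' 1 * a 1) / δ =
        (ν : K) * (((d * y * γ : 𝓞 K) : K) * b 1 - ((d * y * ε : 𝓞 K) : K) * a 1) := by
      have e1 : a' 1 = a 1 + (ν : K) * d * y * δ * γ := by rw [← hγ']; ring
      have e2 : b' 1 = b 1 + (ν : K) * d * y * δ * ε := by rw [← hε']; ring
      simp only [co_mul]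
      rw [e1, e2, div_eq_iff hne']
      ring
    have g11 : (b' 1 * a 0 - a' 1 * b 0) / δ =
        ((1 + ν * d * y * (ε * a0 - γ * b0) : 𝓞 K) : K) := by
      have e1 : a' 1 = a 1 + (ν : K) * d * y * δ * γ := by rw [← hγ']; ring
      have e2 : b' 1 = b 1 + (ν : K) * d * y * δ * ε := by rw [← hε']; ring
      simp only [co_add, co_mul, co_sub, co_one]
      rw [ha0, hb0, e1, e2, div_eq_iff hne']
      linear_combination hδe
    refine ⟨?_, ?_, ?_, ?_⟩
    · change (a' 0 * b 1 - b' 0 * a 1) / δ ∈ _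
      rw [g00]
      exact mem_one.2 ⟨_, rfl⟩
    · change (b' 0 * a 0 - a' 0 * b 0) / δ ∈ _
      rw [g01]
      exact smul_mem_FI _ _ (d_mem A d hd)
    · change (a' 1 * b 1 - b' 1 * a 1) / δ ∈ _
      rw [g10]
      refine FractionalIdeal.mul_mem_mul ?_ ?_
      · rw [FractionalIdeal.mem_coeIdeal]
        exact ⟨ν, hν, rfl⟩
      · exact (A : FractionalIdeal (𝓞 K)⁰ K).coeToSubmodule.sub_mem
          (smul_mem_FI _ _ (hL' j').2) (smul_mem_FI _ _ (hL' i').2)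
    · change (b' 1 * a 0 - a' 1 * b 0) / δ ∈ _
      rw [g11]
      exact mem_one.2 ⟨_, rfl⟩
  · intro k
    exact mtx_smul _ _ _ _ _ _ _ _ _ _ (hdt k j') (hdt i' k)

theorem orb_proof (h1 : UbalStatement) (h2 : LatStatement) : OrbStatement := by
  intro K _ _ A n R hn q
  obtain ⟨C, hC⟩ := h1 K
  obtain ⟨-, -, hfin, -⟩ := h2 K A
  set C' : ℝ := Real.exp (2 * C + Real.log R / dg K) with hC'
  set D : Set K := {ξ : K | ξ ∈ (A : FractionalIdeal (𝓞 K)⁰ K) ∧ ∀ v : InfinitePlace K, v ξ ≤ C'} with hDdef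
  have hD : D.Finite := hfin C'
  obtain ⟨d, hd0, hd⟩ := exists_d A
  obtain ⟨ν, hν, hν0⟩ := Submodule.exists_mem_ne_zero_of_ne_bot hn
  obtain ⟨P, hP0, hP⟩ := exists_P D hD
  have hm : ν * d * d * P ≠ 0 := mul_ne_zero (mul_ne_zero (mul_ne_zero hν0 hd0) hd0) hP0
  obtain ⟨T, hT⟩ := fin_classes (Ok (q := q) A D) (ty (ν * d * d * P) d) lines
    (ty_finite A D hD _ d hm)
  refine ⟨T, fun σ hσ hne => ?_⟩
  obtain ⟨x, hx, hnear⟩ := hσ
  choose w hw hmk hLam hqx using hnear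
  choose u hu using fun j => balance C hC R x hx (w j) (hw j) (hqx j)
  have hu0 : ∀ j, ((u j : 𝓞 K) : K) ≠ 0 := fun j => NumberField.Units.coe_ne_zero (u j)
  obtain ⟨i, j, hij⟩ := hne
  set z : Fin q → Fin 2 → K := fun k l => ((u k : 𝓞 K) : K) * w k l with hz
  have hz0 : ∀ k, z k ≠ 0 := by
    intro k h0
    apply hw k
    funext l
    have := congrFun h0 l
    simp only [hz, Pi.zero_apply, mul_eq_zero] at this
    rcases this with h | h
    · exact absurd h (hu0 k)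
    · exact h
  have hzmk : ∀ k, Projectivization.mk K (z k) (hz0 k) = σ k := by
    intro k
    rw [← hmk k, Projectivization.mk_eq_mk_iff']
    exact ⟨((u k : 𝓞 K) : K), rfl⟩
  have hzL : ∀ k, Lam A (z k) := fun k =>
    ⟨smul_mem_FI _ _ (hLam k).1, smul_mem_FI _ _ (hLam k).2⟩
  have hOk : Ok A D ((z, i, j) : Dt K q) := by
    refine ⟨hz0, hzL, fun k l => ⟨?_, fun v => ?_⟩, ?_⟩
    · unfold dt
      obtain ⟨a, ha⟩ := mem_one.1 (hzL k).1
      obtain ⟨b, hb⟩ := mem_one.1 (hzL l).1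
      simp only
      rw [← ha, ← hb, mul_comm (z k 1)]
      exact (A : FractionalIdeal (𝓞 K)⁰ K).coeToSubmodule.sub_mem
          (smul_mem_FI _ _ (hzL l).2) (smul_mem_FI _ _ (hzL k).2)
    · refine (dt_le v (x v) (hx v).1 _ _).trans ?_
      have e1 := hu k v
      have e2 := hu l v
      simp only at *
      linarith
    · intro h0
      apply hij
      rw [← hzmk i, ← hzmk j, Projectivization.mk_eq_mk_iff']
      exact proportional _ _ (hz0 j) h0
  obtain ⟨s', hs', hty, hmem⟩ := hT _ hOk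
  obtain ⟨g, hg, hgw⟩ := orbit A n D d ν P hd0 hd hν hP _ s' hOk hs' hty
  refine ⟨g, hg, lines s', hmem, ?_⟩
  funext k
  rw [← hzmk k]
  unfold lines
  rw [dif_pos (hs'.1 k), Projectivization.smul_mk]
  congr 1
  exact (hgw k).symm
end

end Pool.Agent.Lib.MP_50bb2e_nt.Anf.Orb
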