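import Pool.Agent.Lib.MP_50bb2e_nt.Anf.Iface

/-!
MP_50bb2e_nt, board ANF, row PER: the periods generate a finitely generated group.
-/

namespace Pool.Agent.Lib.MP_50bb2e_nt.Anf.Per

open Complex MeasureTheory Filter Topology NumberField IsDedekindDomain
open scoped ComplexConjugate nonZeroDivisors LinearAlgebra.Projectivization
open Pool.Agent.Lib.MP_50bb2e_nt.Imq (FI SLK toC actz acty InG)

noncomputable section

variable {K : Type} [Field K] [NumberField K]

/-! ### Boxes -/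

/-- the vertices of the box -/
def bp {n : ℕ} (e : Fin (n + 1) ≃ InfinitePlace K) (p : Fin (n + 1) → Pt K)
    (J : Finset (Fin n)) : Pt K :=
  fun v => Fin.cases (p 0 v) (fun j : Fin n => if j ∈ J then p j.succ v else p j.castSucc v)
    (e.symm v)

lemma box_eq {n : ℕ} (e : Fin (n + 1) ≃ InfinitePlace K) (F : Pt K → ℂ)
    (p : Fin (n + 1) → Pt K) :
    box e F p = ∑ J : Finset (Fin n), (-1 : ℂ) ^ (n - J.card) * F (bp e p J) := rfl

lemma bp_cases {n : ℕ} (e : Fin (n + 1) ≃ InfinitePlace K) (p : Fin (n + 1) → Pt K)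
    (J : Finset (Fin n)) (v : InfinitePlace K) : ∃ j, ∀ g : Pt K → Pt K,
      (∀ (x y : Pt K), x v = y v → g x v = g y v) → bp e p J v = p j v ∧
      bp e (fun i => g (p i)) J v = g (p j) v := by
  unfold bp
  generalize e.symm v = i
  refine Fin.cases ?_ (fun i => ?_) i
  · exact ⟨0, fun g _ => ⟨rfl, rfl⟩⟩
  · by_cases hi : i ∈ J
    · exact ⟨i.succ, fun g _ => by simp [hi]⟩
    · exact ⟨i.castSucc, fun g _ => by simp [hi]⟩

lemma bp_pos {n : ℕ} (e : Fin (n + 1) ≃ InfinitePlace K) (p : Fin (n + 1) → Pt K)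
    (J : Finset (Fin n)) (hp : ∀ i, Pos (p i)) : Pos (bp e p J) := by
  intro v
  obtain ⟨j, hj⟩ := bp_cases e p J v
  have := (hj id (fun x y h => h)).1
  rw [this]
  exact hp j v

lemma act_congr (g : SLK K) (x y : Pt K) (v : InfinitePlace K) (h : x v = y v) :
    act g x v = act g y v := by
  simp only [act, h]

lemma bp_act {n : ℕ} (e : Fin (n + 1) ≃ InfinitePlace K) (p : Fin (n + 1) → Pt K)
    (J : Finset (Fin n)) (g : SLK K) :
    bp e (fun j => act g (p j)) J = act g (bp e p J) := by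
  funext v
  obtain ⟨j, hj⟩ := bp_cases e p J v
  obtain ⟨h1, h2⟩ := hj (act g) (fun x y h => act_congr g x y v h)
  rw [h2]
  exact act_congr g _ _ v h1.symm

lemma box_congr {n : ℕ} (e : Fin (n + 1) ≃ InfinitePlace K) {F G : Pt K → ℂ}
    (hFG : ∀ x, Pos x → F x = G x) {p : Fin (n + 1) → Pt K} (hp : ∀ i, Pos (p i)) :
    box e F p = box e G p := by
  rw [box_eq, box_eq]
  refine Finset.sum_congr rfl fun J _ => ?_
  rw [hFG _ (bp_pos e p J hp)]

lemma box_act {n : ℕ} (e : Fin (n + 1) ≃ InfinitePlace K) (F : Pt K → ℂ) (g : SLK K)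
    (p : Fin (n + 1) → Pt K) :
    box e F (fun j => act g (p j)) = box e (fun x => F (act g x)) p := by
  rw [box_eq, box_eq]
  refine Finset.sum_congr rfl fun J _ => ?_
  rw [bp_act]

lemma box_sum {n : ℕ} (e : Fin (n + 1) ≃ InfinitePlace K) {V : Type} (H : V → Pt K → ℂ)
    (m : V →₀ ℤ) (p : Fin (n + 1) → Pt K) :
    box e (fun x => m.sum fun b k => (k : ℂ) * H b x) p =
      m.sum fun b k => (k : ℂ) * box e (H b) p := by
  simp only [box_eq, Finsupp.sum, Finset.mul_sum]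
  rw [Finset.sum_comm]
  refine Finset.sum_congr rfl fun b _ => Finset.sum_congr rfl fun J _ => ?_
  ring

lemma box_sub {n : ℕ} (e : Fin (n + 1) ≃ InfinitePlace K) (F G : Pt K → ℂ)
    (p : Fin (n + 1) → Pt K) :
    box e (fun x => F x - G x) p = box e F p - box e G p := by
  simp only [box_eq, ← Finset.sum_sub_distrib]
  refine Finset.sum_congr rfl fun J _ => ?_
  ring

/-! ### Mixed differences -/

lemma mix0_sum {V : Type} (H : V → Pt K → ℂ) (s : Finset V) (k : V → ℂ)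
    (h : ∀ b, Mix0 (H b)) : Mix0 (fun x => ∑ b ∈ s, k b * H b x) := by
  classical
  intro x x' hx hx'
  have : ∀ J : Finset (InfinitePlace K),
      (-1 : ℂ) ^ J.card * ∑ b ∈ s, k b * H b (fun v => if v ∈ J then x' v else x v) =
      ∑ b ∈ s, k b * ((-1 : ℂ) ^ J.card * H b (fun v => if v ∈ J then x' v else x v)) := by
    intro J
    rw [Finset.mul_sum]
    refine Finset.sum_congr rfl fun b _ => ?_
    ring
  have h2 : ∑ b ∈ s, k b * ∑ J : Finset (InfinitePlace K),
      ((-1 : ℂ) ^ J.card * H b (fun v => if v ∈ J then x' v else x v)) = 0 := by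
    refine Finset.sum_eq_zero fun b _ => ?_
    have := h b x x' hx hx'
    rw [mul_eq_zero]
    right
    convert this using 5
  simp only [Finset.mul_sum] at h2
  rw [Finset.sum_comm] at h2
  rw [← h2]
  refine Finset.sum_congr rfl fun J _ => ?_
  convert this J using 6

lemma mix0_div {V : Type} (H : V → Pt K → ℂ) (G : Pt K → ℂ)
    (h : ∀ b, Mix0 (fun x => H b x - G x)) (m : V →₀ ℤ) (hm : m.sum (fun _ k => k) = 0) :
    Mix0 (fun x => m.sum fun b k => (k : ℂ) * H b x) := by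
  have h1 := mix0_sum (fun b x => H b x - G x) m.support (fun b => ((m b : ℤ) : ℂ)) h
  have h2 : (fun x => m.sum fun b k => (k : ℂ) * H b x) =
      fun x => ∑ b ∈ m.support, ((m b : ℤ) : ℂ) * (H b x - G x) := by
    funext x
    simp only [Finsupp.sum, mul_sub, Finset.sum_sub_distrib, ← Finset.sum_mul]
    have : ∑ b ∈ m.support, ((m b : ℤ) : ℂ) = 0 := by
      rw [← Int.cast_sum]
      have : ∑ b ∈ m.support, m b = 0 := hm
      rw [this, Int.cast_zero]
    rw [this, zero_mul, sub_zero]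
  rw [h2]
  exact h1

/-! ### The group of units -/

/-- the units `u` with `(u - 1) r ∈ A^(-1)` -/
def UU (A : FI K) (r : K) : Subgroup (𝓞 K)ˣ where
  carrier := {u | ((u : K) - 1) * r ∈ ((A⁻¹ : FI K) : FractionalIdeal (𝓞 K)⁰ K)}
  one_mem' := by
    simp only [Set.mem_ofPred_eq]
    have : (((1 : (𝓞 K)ˣ) : K) - 1) * r = 0 := by simp
    rw [this]
    exact Submodule.zero_mem _
  mul_mem' := by
    intro a b ha hb
    simp only [Set.mem_ofPred_eq] at *
    have : (((a * b : (𝓞 K)ˣ) : K) - 1) * r = (a : 𝓞 K) • (((b : K) - 1) * r) +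
        ((a : K) - 1) * r := by
      rw [Algebra.smul_def]
      push_cast
      ring
    rw [this]
    exact Submodule.add_mem _ (Submodule.smul_mem _ _ hb) ha
  inv_mem' := by
    intro a ha
    simp only [Set.mem_ofPred_eq] at *
    have h1 : ((a⁻¹ : (𝓞 K)ˣ) : K) * (a : K) = 1 := by
      rw [← map_mul, ← Units.val_mul, inv_mul_cancel, Units.val_one, map_one]
    have : (((a⁻¹ : (𝓞 K)ˣ) : K) - 1) * r = (-((a⁻¹ : (𝓞 K)ˣ) : 𝓞 K)) • (((a : K) - 1) * r) := by
      rw [Algebra.smul_def, map_neg]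
      have : algebraMap (𝓞 K) K ((a⁻¹ : (𝓞 K)ˣ) : 𝓞 K) = ((a⁻¹ : (𝓞 K)ˣ) : K) := rfl
      rw [this]
      linear_combination r * h1
    rw [this]
    exact Submodule.smul_mem _ _ ha

omit [NumberField K] in
lemma mem_one' (x : 𝓞 K) : (x : K) ∈ (1 : FractionalIdeal (𝓞 K)⁰ K) :=
  FractionalIdeal.coe_mem_one (𝓞 K)⁰ x

lemma gu_mem (n : Ideal (𝓞 K)) (A : FI K) (r : K) (u : (𝓞 K)ˣ) (hu : u ∈ UU A r) :
    InG n A (gu r (uK u)) := by
  have h1 : ((u : K) - 1) * r ∈ ((A⁻¹ : FI K) : FractionalIdeal (𝓞 K)⁰ K) := hu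
  have h2 : (((u⁻¹ : (𝓞 K)ˣ) : K) - 1) * r ∈ ((A⁻¹ : FI K) : FractionalIdeal (𝓞 K)⁰ K) :=
    (UU A r).inv_mem hu
  refine ⟨?_, ?_, ?_, ?_⟩
  · exact mem_one' (u : 𝓞 K)
  · have : (gu r (uK u)) 0 1 = (((u⁻¹ : (𝓞 K)ˣ) : K) - 1) * r - ((u : K) - 1) * r := by
      show (((uK u)⁻¹ : Kˣ) - (uK u : K)) * r = _
      have h3 : (((uK u)⁻¹ : Kˣ) : K) = ((u⁻¹ : (𝓞 K)ˣ) : K) := by
        rw [uK, ← map_inv]
        rfl
      rw [h3]
      show (((u⁻¹ : (𝓞 K)ˣ) : K) - (u : K)) * r = _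
      ring
    rw [this]
    exact Submodule.sub_mem _ h2 h1
  · have : (gu r (uK u)) 1 0 = 0 := rfl
    rw [this]
    exact Submodule.zero_mem _
  · have : (gu r (uK u)) 1 1 = ((u⁻¹ : (𝓞 K)ˣ) : K) := by
      show (((uK u)⁻¹ : Kˣ) : K) = _
      rw [uK, ← map_inv]
      rfl
    rw [this]
    exact mem_one' _

/-! ### Cusps -/

/-- the cusp `∞` -/
def cinf : ℙ K (Fin 2 → K) := Projectivization.mk K ![1, 0] (by simp)

/-- the cusp `r` -/
def cr (r : K) : ℙ K (Fin 2 → K) := Projectivization.mk K ![r, 1] (by simp)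

lemma gu_cinf (r : K) (u : Kˣ) : gu r u • (cinf : ℙ K (Fin 2 → K)) = cinf := by
  unfold cinf
  rw [Projectivization.smul_mk, Projectivization.mk_eq_mk_iff]
  refine ⟨u, ?_⟩
  funext i
  fin_cases i <;> simp [gu, Matrix.SpecialLinearGroup.smul_def, Units.smul_def]

lemma gu_cr (r : K) (u : Kˣ) : gu r u • (cr r : ℙ K (Fin 2 → K)) = cr r := by
  unfold cr
  rw [Projectivization.smul_mk, Projectivization.mk_eq_mk_iff]
  refine ⟨u⁻¹, ?_⟩
  funext i
  fin_cases i
  · simp [gu, Matrix.SpecialLinearGroup.smul_def, Units.smul_def]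
    ring
  · simp [gu, Matrix.SpecialLinearGroup.smul_def, Units.smul_def]

/-! ### The homomorphism `Ψ` -/

/-- the cochain with values in the divisors -/
def Psi {n : ℕ} {V Γ : Type} (e : Fin (n + 1) ≃ InfinitePlace K) (H : V → Pt K → ℂ)
    (a : Γ → Pt K) : (V →₀ ℤ) →+ ((Fin (n + 1) → Γ) → ℂ) where
  toFun m γ := m.sum fun b k => (k : ℂ) * box e (H b) (fun j => a (γ j))
  map_zero' := by
    funext γ
    simp
  map_add' m m' := by
    funext γ
    simp only [Pi.add_apply]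
    exact Finsupp.sum_add_index' (fun b => by simp) (fun b k k' => by push_cast; ring)

lemma Psi_apply {n : ℕ} {V Γ : Type} (e : Fin (n + 1) ≃ InfinitePlace K) (H : V → Pt K → ℂ)
    (a : Γ → Pt K) (m : V →₀ ℤ) (γ : Fin (n + 1) → Γ) :
    Psi e H a m γ = m.sum fun b k => (k : ℂ) * box e (H b) (fun j => a (γ j)) := rfl

theorem per_proof (hgas : GasStatement) (hmink : MinkStatement) (hgeo : GeoStatement)
    (hsub : SubStatement) (hdow : DowStatement) (horb : OrbStatement) (hhom : HomStatement)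
    (hbpi : BpiStatement) (hbox : BoxStatement) (hhc : HcStatement) (hacx : AcxStatement) :
    PerStatement := by
  intro K _ _ n c hn hc A N e
  obtain ⟨Γ, hΓ, hnear, hne, hst⟩ := hgas K A n
  obtain ⟨R, hR, hcov⟩ := hmink K A
  obtain ⟨mid, d, hX, hd1, hd2, hd3, hmid, hNmid, hleb⟩ := hgeo K A R hR hcov
  obtain ⟨hact, -, -, -, hgu, -⟩ := hacx K
  obtain ⟨H, hH1, hH2, hH3, hH4⟩ := hhc K n c hc A
  -- acyclicity
  have hA1 := hsub (ℙ K (Fin 2 → K)) (XX K) (fun c x => Near A R c x.1) mid d hX hd1 hd2 hd3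
    hmid hNmid hleb
  have hA2 := hdow (ℙ K (Fin 2 → K)) (XX K) (fun c x => Near A R c x.1) hA1
  obtain ⟨p0⟩ := hX
  have hH2' : ∀ (g : Γ) (b : ℙ K (Fin 2 → K)) (x : Pt K), Pos x →
      H (g • b) (act g x) = H b x := fun g b x hx => hH2 g b x ((hΓ g).1 g.2) hx
  -- the cocycle
  have hmain := hhom Γ (ℙ K (Fin 2 → K)) (fun q σ => ∃ x : XX K, ∀ j, Near A R (σ j) x.1)
    (by
      rintro q σ i ⟨x, hx⟩
      exact ⟨x, fun j => hx _⟩)
    (by
      intro q c
      obtain ⟨x, hx, hx2⟩ := hne c R hR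
      exact ⟨⟨x, hx⟩, fun _ => hx2⟩)
    (by
      rintro q σ g ⟨x, hx⟩
      refine ⟨⟨act g x.1, (hact g 1 x.1 x.2).1⟩, fun j => ?_⟩
      exact (hnear g g.2 R (σ j) x.1 x.2).2 (hx j))
    hA2
    (by
      intro q
      obtain ⟨T, hT⟩ := horb K A n R hn q
      refine ⟨T, ?_⟩
      rintro σ ⟨x, hx⟩ hσ
      obtain ⟨g, hg, τ, hτ, h⟩ := hT σ ⟨x.1, x.2, hx⟩ hσ
      exact ⟨⟨g, (hΓ g).2 hg⟩, τ, hτ, h⟩)
    (by
      intro c c' hcc
      obtain ⟨h1, h2⟩ := hst c c' hcc
      refine ⟨?_, h2⟩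
      intro g h hg1 hg2 hh1 hh2
      exact Subtype.ext (h1 g g.2 h h.2 hg1 hg2 hh1 hh2))
    N (Psi e H (fun γ : Γ => act (γ : SLK K) p0.1))
    (by
      intro m g γ _
      rw [Psi_apply, Psi_apply, Finsupp.sum_mapDomain_index (by simp)
        (fun b k k' => by push_cast; ring)]
      refine Finsupp.sum_congr fun b _ => ?_
      congr 1
      have h1 : (fun j => act ((g * γ j : Γ) : SLK K) p0.1) =
          fun j => act (g : SLK K) (act (γ j : SLK K) p0.1) := by
        funext j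
        exact (hact g (γ j) p0.1 p0.2).2.1
      rw [h1, box_act]
      refine box_congr e (fun x hx => hH2' g b x hx) (fun i => (hact (γ i) 1 p0.1 p0.2).1))
    (by
      intro m γ hm
      have h1 := (hbox K N e (fun x => m.sum fun b k => (k : ℂ) * H b x)
        (mix0_div H _ hH1 m hm)).1 (fun i => act (γ i : SLK K) p0.1)
        (fun i => (hact (γ i) 1 p0.1 p0.2).1)
      rw [← h1]
      refine Finset.sum_congr rfl fun i _ => ?_
      rw [box_sum]
      rfl)
  obtain ⟨V0, hV0⟩ := hmain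
  refine ⟨V0, ?_⟩
  intro r a ha hmix u hu p hp
  -- the functions at the two cusps
  have hF : ∀ x, Pos x → Th (coef c A) x - Th a (act (gr r)⁻¹ x) = H cinf x - H (cr r) x := by
    intro x hx
    rw [← hH3 x hx, ← hH4 r a ha hmix x hx]
    rfl
  -- the group of units
  have hρ1 : ∀ w : UU A r, gu r (uK (w : (𝓞 K)ˣ)) ∈ Γ := fun w => (hΓ _).2 (gu_mem n A r w w.2)
  have hguone : gu r (uK (1 : (𝓞 K)ˣ)) = 1 := by
    have h1 := hgu r (uK (1 : (𝓞 K)ˣ)) (uK (1 : (𝓞 K)ˣ))
    rw [uK, map_one, mul_one] at h1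
    rw [uK, map_one]
    exact (mul_eq_left (a := gu r 1)).1 h1.symm
  have hgumul : ∀ w w' : (𝓞 K)ˣ, gu r (uK (w * w')) = gu r (uK w) * gu r (uK w') := by
    intro w w'
    rw [← hgu]
    simp only [uK, map_mul]
  let ρ : UU A r →* Γ :=
    { toFun := fun w => ⟨gu r (uK (w : (𝓞 K)ˣ)), hρ1 w⟩
      map_one' := Subtype.ext hguone
      map_mul' := fun w w' => Subtype.ext (hgumul w w') }
  let u' : Fin N → UU A r := fun i => ⟨u i, hu i⟩
  have hpt : ∀ (τ : Equiv.Perm (Fin N)) (j : Fin (N + 1)),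
      ((pt u' τ j : UU A r) : (𝓞 K)ˣ) = pt u τ j := by
    intro τ j
    simp only [pt]
    rw [Subgroup.val_finsetProd]
  have h1 := hV0 (cr r) cinf (UU A r) ρ (fun w => ⟨gu_cr r _, gu_cinf r _⟩) u'
  -- the base point
  let _ : MulAction (UU A r) (XX K) :=
    { smul := fun w x => ⟨act (gu r (uK (w : (𝓞 K)ˣ))) x.1, (hact _ 1 x.1 x.2).1⟩
      one_smul := fun x => Subtype.ext (by
        show act (gu r (uK ((1 : (𝓞 K)ˣ)))) x.1 = x.1
        rw [hguone]
        exact (hact 1 1 x.1 x.2).2.2)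
      mul_smul := fun w w' x => Subtype.ext (by
        show act (gu r (uK ((w : (𝓞 K)ˣ) * (w' : (𝓞 K)ˣ)))) x.1 = _
        rw [hgumul]
        exact (hact _ _ x.1 x.2).2.1) }
  have hsm : ∀ (w : UU A r) (x : XX K), (w • x).1 = act (gu r (uK (w : (𝓞 K)ˣ))) x.1 :=
    fun w x => rfl
  have hH5 : ∀ (w : UU A r) (x : Pt K), Pos x →
      H cinf (act (gu r (uK (w : (𝓞 K)ˣ))) x) - H (cr r) (act (gu r (uK (w : (𝓞 K)ˣ))) x) =
        H cinf x - H (cr r) x := by
    intro w x hx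
    have h2 := hH2 (gu r (uK (w : (𝓞 K)ˣ))) cinf x (gu_mem n A r w w.2) hx
    have h3 := hH2 (gu r (uK (w : (𝓞 K)ˣ))) (cr r) x (gu_mem n A r w w.2) hx
    rw [gu_cinf] at h2
    rw [gu_cr] at h3
    rw [h2, h3]
  have hmix2 : Mix0 (fun x => H cinf x - H (cr r) x) := by
    have h2 := mix0_div H _ hH1 (Finsupp.single cinf 1 - Finsupp.single (cr r) 1) (by
      rw [Finsupp.sum_sub_index (fun _ _ _ => rfl)]
      simp)
    have h3 : (fun x => (Finsupp.single cinf 1 - Finsupp.single (cr r) 1 :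
        ℙ K (Fin 2 → K) →₀ ℤ).sum fun b k => (k : ℂ) * H b x) =
        fun x => H cinf x - H (cr r) x := by
      funext x
      rw [Finsupp.sum_sub_index (fun b k k' => by push_cast; ring)]
      simp
    rw [h3] at h2
    exact h2
  have h2 := hbpi (UU A r) (XX K) N
    (fun q => box e (fun x => H cinf x - H (cr r) x) (fun j => (q j).1))
    (by
      intro w q
      simp only [hsm]
      rw [box_act]
      exact box_congr e (fun x hx => hH5 w x hx) (fun i => (q i).2))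
    (by
      intro q
      exact (hbox K N e _ hmix2).1 (fun i => (q i).1) (fun i => (q i).2))
    u' ⟨p, hp⟩ p0
  simp only [hsm, hpt] at h2
  have h3 : ∑ τ : Equiv.Perm (Fin N), ((Equiv.Perm.sign τ : ℤ) : ℂ) *
      box e (fun x => Th (coef c A) x - Th a (act (gr r)⁻¹ x))
        (fun j => act (gu r (uK (pt u τ j))) p) =
      ∑ τ : Equiv.Perm (Fin N), ((Equiv.Perm.sign τ : ℤ) : ℂ) *
      box e (fun x => H cinf x - H (cr r) x)
        (fun j => act (gu r (uK (pt u τ j))) p) := by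
    refine Finset.sum_congr rfl fun τ _ => ?_
    congr 1
    exact box_congr e hF (fun i => (hact _ 1 p hp).1)
  rw [h3, h2]
  convert h1 using 1
  refine Finset.sum_congr rfl fun τ _ => ?_
  congr 1
  rw [Psi_apply, Finsupp.sum_sub_index (fun b k k' => by push_cast; ring)]
  simp only [Int.cast_zero, zero_mul, Finsupp.sum_single_index, Int.cast_one, one_mul]
  rw [← box_sub]
  simp only [← hpt]
  rfl

end

end Pool.Agent.Lib.MP_50bb2e_nt.Anf.Per
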