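import Pool.Agent.Lib.MP_50bb2e_nt.Anf.Iface
import Pool.Agent.Lib.MP_50bb2e_nt.Imq.Rayf

/-!
MP_50bb2e_nt, board ANF, row RAYN: the narrow ray classes modulo `D` form a finite set.
-/

namespace Pool.Agent.Lib.MP_50bb2e_nt.Anf.Rayn

open NumberField
open scoped nonZeroDivisors
open Pool.Agent.Lib.MP_50bb2e_nt.Imq (RayEq)
open Pool.Agent.Lib.MP_50bb2e_nt.Imq.Rayf (mul_sub_one cop_span cop_left cop_right cop_mul span_ne
  part4 compl)

set_option linter.unusedSectionVars false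

variable {K : Type} [Field K] [NumberField K]

theorem im_zero {v : InfinitePlace K} (hv : v.IsReal) (x : K) : (v.embedding x).im = 0 := by
  have h := InfinitePlace.isReal_iff.1 hv
  rw [← Complex.conj_eq_iff_im]
  exact RingHom.congr_fun (ComplexEmbedding.isReal_iff.1 h) x

theorem re_mul {v : InfinitePlace K} (hv : v.IsReal) (x y : K) :
    (v.embedding (x * y)).re = (v.embedding x).re * (v.embedding y).re := by
  rw [map_mul, Complex.mul_re, im_zero hv, zero_mul, sub_zero]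

theorem re_ne {v : InfinitePlace K} (hv : v.IsReal) {x : K} (hx : x ≠ 0) :
    (v.embedding x).re ≠ 0 := by
  intro h
  apply hx
  have : v.embedding x = 0 := Complex.ext h (im_zero hv x)
  exact (map_eq_zero _).1 this

theorem tpos_one : TPos ((1 : 𝓞 K) : K) := by
  intro v _
  have e : ((1 : 𝓞 K) : K) = 1 := by simp
  rw [e, map_one]
  simp

theorem tpos_mul {a b : 𝓞 K} (ha : TPos (a : K)) (hb : TPos (b : K)) : TPos ((a * b : 𝓞 K) : K) := by
  intro v hv
  have e : ((a * b : 𝓞 K) : K) = (a : K) * (b : K) := by simp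
  rw [e, re_mul hv]
  exact mul_pos (ha v hv) (hb v hv)

theorem toRayEq {D I J : Ideal (𝓞 K)} (h : RayN D I J) : RayEq D I J := by
  obtain ⟨α, β, h1, h2, h3, h4, _, _, h5⟩ := h
  exact ⟨α, β, h1, h2, h3, h4, h5⟩

theorem symm' {D I J : Ideal (𝓞 K)} (h : RayN D I J) : RayN D J I := by
  obtain ⟨α, β, h1, h2, h3, h4, p1, p2, h5⟩ := h
  exact ⟨β, α, h2, h1, h4, h3, p2, p1, h5.symm⟩

theorem refl' (D I : Ideal (𝓞 K)) : RayN D I I :=
  ⟨1, 1, one_ne_zero, one_ne_zero, by simp, by simp, tpos_one, tpos_one, rfl⟩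

theorem trans' {D I J L : Ideal (𝓞 K)} (h : RayN D I J) (h' : RayN D J L) :
    RayN D I L := by
  obtain ⟨α, β, h1, h2, h3, h4, p1, p2, h5⟩ := h
  obtain ⟨α', β', h1', h2', h3', h4', p1', p2', h5'⟩ := h'
  refine ⟨α * α', β * β', mul_ne_zero h1 h1', mul_ne_zero h2 h2', mul_sub_one h3 h3',
    mul_sub_one h4 h4', tpos_mul p1 p1', tpos_mul p2 p2', ?_⟩
  rw [← Ideal.span_singleton_mul_span_singleton, ← Ideal.span_singleton_mul_span_singleton]
  calc Ideal.span {α} * Ideal.span {α'} * I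
      = Ideal.span {α'} * (Ideal.span {α} * I) := by ring
    _ = Ideal.span {β} * (Ideal.span {α'} * J) := by rw [h5]; ring
    _ = Ideal.span {β} * Ideal.span {β'} * L := by rw [h5']; ring

/-- the main step -/
theorem step {D I I' b : Ideal (𝓞 K)} {δ δ' : 𝓞 K} (hδ : δ ≠ 0) (hδ' : δ' ≠ 0)
    (h : I * b = Ideal.span {δ}) (h' : I' * b = Ideal.span {δ'}) (hI : D ⊔ I = ⊤)
    (hb : D ⊔ b = ⊤) (hm : δ - δ' ∈ D)
    (hs : ∀ v : InfinitePlace K, v.IsReal →
      (0 < (v.embedding (δ : K)).re ↔ 0 < (v.embedding (δ' : K)).re)) : RayN D I I' := by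
  have hc : D ⊔ Ideal.span {δ} = ⊤ := h ▸ cop_mul hI hb
  have key : ∃ ε : 𝓞 K, ε ≠ 0 ∧ ε * δ - 1 ∈ D := by
    by_cases hD : D = ⊤
    · exact ⟨1, one_ne_zero, by rw [hD]; trivial⟩
    · have h1 : (1 : 𝓞 K) ∈ D ⊔ Ideal.span {δ} := by rw [hc]; trivial
      obtain ⟨y, hy, x, hx, e⟩ := Submodule.mem_sup.mp h1
      obtain ⟨ε, hε⟩ := Ideal.mem_span_singleton'.mp hx
      refine ⟨ε, ?_, ?_⟩
      · intro h0
        rw [h0, zero_mul] at hε
        rw [← hε, add_zero] at e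
        exact hD ((Ideal.eq_top_iff_one D).mpr (e ▸ hy))
      · have e' : ε * δ - 1 = -y := by rw [hε, ← e]; ring
        rw [e']
        exact D.neg_mem hy
  obtain ⟨ε, h1, h2⟩ := key
  have h3 : (ε * δ) * (ε * δ) - 1 ∈ D := mul_sub_one h2 h2
  have hεδ : ε * δ ≠ 0 := mul_ne_zero h1 hδ
  refine ⟨ε * (ε * δ) * δ', (ε * δ) * (ε * δ), mul_ne_zero (mul_ne_zero h1 hεδ) hδ',
    mul_ne_zero hεδ hεδ, ?_, h3, ?_, ?_, ?_⟩
  · have e : ε * (ε * δ) * δ' - 1 = ((ε * δ) * (ε * δ) - 1) - ε * (ε * δ) * (δ - δ') := by ring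
    rw [e]
    exact D.sub_mem h3 (D.mul_mem_left _ hm)
  · intro v hv
    have e : ((ε * (ε * δ) * δ' : 𝓞 K) : K) = (ε : K) * (ε : K) * ((δ : K) * (δ' : K)) := by
      push_cast
      ring
    rw [e, re_mul hv, re_mul hv, re_mul hv]
    have e1 : (v.embedding (ε : K)).re ≠ 0 := re_ne hv (by
      simpa using h1)
    have e2 : (v.embedding (δ : K)).re ≠ 0 := re_ne hv (by
      simpa using hδ)
    have e3 : (v.embedding (δ' : K)).re ≠ 0 := re_ne hv (by
      simpa using hδ')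
    have p1 : 0 < (v.embedding (ε : K)).re * (v.embedding (ε : K)).re := by
      rw [← pow_two]; positivity
    have p2 : 0 < (v.embedding (δ : K)).re * (v.embedding (δ' : K)).re := by
      rcases lt_or_gt_of_ne e2 with hlt | hgt
      · have hlt' : (v.embedding (δ' : K)).re < 0 := by
          rcases lt_or_gt_of_ne e3 with h | h
          · exact h
          · exact absurd ((hs v hv).2 h) (not_lt.2 hlt.le)
        exact mul_pos_of_neg_of_neg hlt hlt'
      · exact mul_pos hgt ((hs v hv).1 hgt)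
    exact mul_pos p1 p2
  · intro v hv
    have e : (((ε * δ) * (ε * δ) : 𝓞 K) : K) = ((ε * δ : 𝓞 K) : K) * ((ε * δ : 𝓞 K) : K) := by
      push_cast
      ring
    rw [e, re_mul hv]
    have e1 : (v.embedding ((ε * δ : 𝓞 K) : K)).re ≠ 0 := re_ne hv (by
      simpa using hεδ)
    rw [← pow_two]
    positivity
  · have e1 : Ideal.span {ε * (ε * δ) * δ'} = Ideal.span {ε * (ε * δ)} * (I' * b) := by
      rw [h', Ideal.span_singleton_mul_span_singleton]
    have e2 : Ideal.span {(ε * δ) * (ε * δ)} = Ideal.span {ε * (ε * δ)} * (I * b) := by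
      rw [h, Ideal.span_singleton_mul_span_singleton]
      congr 2
      ring
    rw [e1, e2]
    ring

theorem rayn_proof : RaynStatement := by
  intro K _ _ D hD
  refine ⟨fun I J => symm', fun I => refl' D I, fun I J L => trans',
    fun I J h h1 h2 => part4 (toRayEq h) h1 h2, ?_⟩
  classical
  let S : Type := {I : Ideal (𝓞 K) // I ≠ ⊥ ∧ D ⊔ I = ⊤}
  let st : Setoid S :=
    { r := fun I J => RayN D I.1 J.1
      iseqv := ⟨fun I => refl' D I.1, fun h => symm' h, fun h h' => trans' h h'⟩ }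
  have hnz : ∀ I : S, I.1 ∈ (Ideal (𝓞 K))⁰ := fun I => mem_nonZeroDivisors_of_ne_zero I.2.1
  let cl : S → ClassGroup (𝓞 K) := fun I => ClassGroup.mk0 ⟨I.1, hnz I⟩
  have hS : Nonempty S := ⟨⟨⊤, top_ne_bot, by simp⟩⟩
  let rep : ClassGroup (𝓞 K) → S := fun C =>
    if h : ∃ J : S, cl J = C then h.choose else hS.some
  have hrep : ∀ I : S, cl (rep (cl I)) = cl I := by
    intro I
    have h : ∃ J : S, cl J = cl I := ⟨I, rfl⟩
    have e : rep (cl I) = h.choose := dif_pos h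
    rw [e]
    exact h.choose_spec
  have hcompl : ∀ J : S, ∃ b : Ideal (𝓞 K), ∃ γ : 𝓞 K, γ ≠ 0 ∧ γ - 1 ∈ D ∧ b ≠ ⊥ ∧
      J.1 * b = Ideal.span {γ} := fun J => compl D J.1 J.2.1 J.2.2
  choose b γ hγ hγD hb hJb using hcompl
  have hbc : ∀ J : S, D ⊔ b J = ⊤ := by
    intro J
    have h : D ⊔ J.1 * b J = ⊤ := (hJb J).symm ▸ cop_span (hγD J)
    exact cop_right h
  have hδ : ∀ I : S, ∃ δ : 𝓞 K, δ ≠ 0 ∧ I.1 * b (rep (cl I)) = Ideal.span {δ} := by
    intro I
    have hbn : b (rep (cl I)) ∈ (Ideal (𝓞 K))⁰ :=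
      mem_nonZeroDivisors_of_ne_zero (hb _)
    have e1 : cl (rep (cl I)) * ClassGroup.mk0 ⟨b (rep (cl I)), hbn⟩ = 1 := by
      have hp : (rep (cl I)).1 * b (rep (cl I)) ∈ (Ideal (𝓞 K))⁰ :=
        mul_mem (hnz _) hbn
      have e2 : ClassGroup.mk0 ⟨(rep (cl I)).1 * b (rep (cl I)), hp⟩ = 1 := by
        rw [ClassGroup.mk0_eq_one_iff]
        exact ⟨γ (rep (cl I)), hJb (rep (cl I))⟩
      rw [← e2, ← map_mul]
      rfl
    rw [hrep I] at e1
    have hp : I.1 * b (rep (cl I)) ∈ (Ideal (𝓞 K))⁰ := mul_mem (hnz I) hbn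
    have e3 : ClassGroup.mk0 ⟨I.1 * b (rep (cl I)), hp⟩ = 1 := by
      rw [← e1, ← map_mul]
      rfl
    rw [ClassGroup.mk0_eq_one_iff] at e3
    obtain ⟨δ, hd⟩ := e3
    have hd' : I.1 * b (rep (cl I)) = Ideal.span {δ} := hd
    refine ⟨δ, ?_, hd'⟩
    intro h0
    rw [h0] at hd'
    have h4 : I.1 * b (rep (cl I)) = ⊥ := by rw [hd']; simp
    rcases Ideal.mul_eq_bot.mp h4 with h | h
    · exact I.2.1 h
    · exact hb _ h
  choose δ hδ0 hδ using hδ
  let f : S → ClassGroup (𝓞 K) × (𝓞 K ⧸ D) × (InfinitePlace K → Prop) := fun I =>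
    (cl I, Ideal.Quotient.mk D (δ I), fun v => 0 < (v.embedding (δ I : K)).re)
  have hf : ∀ I I' : S, f I = f I' → RayN D I.1 I'.1 := by
    intro I I' h
    have h1 : cl I = cl I' := congrArg Prod.fst h
    have h2 : Ideal.Quotient.mk D (δ I) = Ideal.Quotient.mk D (δ I') :=
      congrArg (fun x => x.2.1) h
    have h3 : δ I - δ I' ∈ D := Ideal.Quotient.eq.mp h2
    have h5 : ∀ v : InfinitePlace K, (0 < (v.embedding (δ I : K)).re) =
        (0 < (v.embedding (δ I' : K)).re) := fun v => congrFun (congrArg (fun x => x.2.2) h) v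
    have h4 := hδ I'
    rw [← h1] at h4
    exact step (hδ0 I) (hδ0 I') (hδ I) h4 I.2.2 (hbc _) h3 fun v _ => by rw [h5 v]
  have : Finite (𝓞 K ⧸ D) := Ring.HasFiniteQuotients.finiteQuotient hD
  have : Finite (Quotient st) := by
    refine Finite.of_injective (fun q : Quotient st => f q.out) ?_
    intro q q' h
    have h1 : RayN D q.out.1 q'.out.1 := hf _ _ h
    have h2 : Quotient.mk st q.out = Quotient.mk st q'.out := Quotient.sound h1
    rwa [Quotient.out_eq, Quotient.out_eq] at h2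
  have : Fintype (Quotient st) := Fintype.ofFinite _
  refine ⟨Finset.univ.image (fun q : Quotient st => q.out.1), ?_, ?_⟩
  · intro J hJ
    obtain ⟨q, _, rfl⟩ := Finset.mem_image.mp hJ
    exact q.out.2
  · intro I h1 h2
    let I' : S := ⟨I, h1, h2⟩
    refine ⟨(Quotient.mk st I').out.1, ⟨Finset.mem_image.mpr ⟨_, Finset.mem_univ _, rfl⟩, ?_⟩, ?_⟩
    · have h : RayN D (Quotient.mk st I').out.1 I'.1 :=
        Quotient.exact (Quotient.out_eq (Quotient.mk st I'))
      exact symm' h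
    · rintro J ⟨hJ, hr⟩
      obtain ⟨q, _, rfl⟩ := Finset.mem_image.mp hJ
      have h3 : Quotient.mk st I' = Quotient.mk st q.out := Quotient.sound hr
      rw [Quotient.out_eq] at h3
      rw [h3]

end Pool.Agent.Lib.MP_50bb2e_nt.Anf.Rayn
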