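import Pool.Agent.Lib.MP_50bb2e_nt.Anf.Iface

/-! MP_50bb2e_nt, board ANF, row REP: systems of representatives exist. -/

namespace Pool.Agent.Lib.MP_50bb2e_nt.Anf.Rep

open Complex MeasureTheory Filter Topology NumberField IsDedekindDomain
open scoped ComplexConjugate nonZeroDivisors LinearAlgebra.Projectivization
open Pool.Agent.Lib.MP_50bb2e_nt.Imq (FI SLK)
open Pool.Agent.Lib.MP_50bb2e_nt.Anf

noncomputable section

variable {K : Type} [Field K] [NumberField K]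

/-- the product of the powers -/
def pp {N : ℕ} (u : Fin N → (𝓞 K)ˣ) (k : Fin N → ℤ) : (𝓞 K)ˣ := ∏ i, u i ^ k i

theorem pp_zero {N : ℕ} (u : Fin N → (𝓞 K)ˣ) : pp u 0 = 1 := by simp [pp]

theorem pp_add {N : ℕ} (u : Fin N → (𝓞 K)ˣ) (k k' : Fin N → ℤ) :
    pp u (k + k') = pp u k * pp u k' := by
  unfold pp
  rw [← Finset.prod_mul_distrib]
  exact Finset.prod_congr rfl fun i _ => by rw [Pi.add_apply, zpow_add]

theorem pp_neg {N : ℕ} (u : Fin N → (𝓞 K)ˣ) (k : Fin N → ℤ) : pp u (-k) = (pp u k)⁻¹ := by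
  rw [eq_inv_iff_mul_eq_one, ← pp_add, neg_add_cancel, pp_zero]

theorem pp_inj {N : ℕ} {u : Fin N → (𝓞 K)ˣ} (hu : LogInd u) {k : Fin N → ℤ}
    (h : pp u k = 1) : k = 0 := by
  have h1 : ∀ v : InfinitePlace K, ∑ i, (k i : ℝ) * Real.log (v (u i : K)) = 0 := by
    intro v
    have h2 : v ((pp u k : (𝓞 K)ˣ) : K) = 1 := by
      rw [h]
      simp
    have h3 : ((pp u k : (𝓞 K)ˣ) : K) = ∏ i, ((u i : (𝓞 K)ˣ) : K) ^ k i := by
      unfold pp
      let f : (𝓞 K)ˣ →* K := (algebraMap (𝓞 K) K).toMonoidHom.comp (Units.coeHom (𝓞 K))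
      have e1 : ((∏ i, u i ^ k i : (𝓞 K)ˣ) : K) = f (∏ i, u i ^ k i) := rfl
      rw [e1, map_prod]
      exact Finset.prod_congr rfl fun i _ => NumberField.Units.coe_zpow _ _
    rw [h3, map_prod] at h2
    have h4 := congrArg Real.log h2
    rw [Real.log_one, Real.log_prod] at h4
    · rw [← h4]
      refine Finset.sum_congr rfl fun i _ => ?_
      rw [map_zpow₀, Real.log_zpow]
    · intro i _
      rw [map_zpow₀]
      refine zpow_ne_zero _ ?_
      rw [Ne, map_eq_zero]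
      exact NumberField.Units.coe_ne_zero _
  have h5 : ∑ i, (k i : ℝ) • (fun v : InfinitePlace K => Real.log (v (u i : K))) = 0 := by
    funext v
    rw [Finset.sum_apply]
    simp only [Pi.smul_apply, smul_eq_mul, Pi.zero_apply]
    exact h1 v
  have h6 := Fintype.linearIndependent_iff.1 hu (fun i => (k i : ℝ)) h5
  funext i
  exact_mod_cast h6 i

/-- equivalence modulo the group generated by the units -/
def rel {N : ℕ} (u : Fin N → (𝓞 K)ˣ) : Setoid {x : K // x ≠ 0} where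
  r x y := ∃ k : Fin N → ℤ, x.1 = y.1 * ((pp u k : (𝓞 K)ˣ) : K)
  iseqv := by
    refine ⟨fun x => ⟨0, by rw [pp_zero]; simp⟩, ?_, ?_⟩
    · rintro x y ⟨k, hk⟩
      refine ⟨-k, ?_⟩
      rw [hk, mul_assoc, ← NumberField.Units.coe_mul, ← pp_add, add_neg_cancel, pp_zero]
      simp
    · rintro x y z ⟨k, hk⟩ ⟨k', hk'⟩
      refine ⟨k' + k, ?_⟩
      rw [hk, hk', mul_assoc, ← NumberField.Units.coe_mul, ← pp_add]

theorem rep_proof : RepStatement := by
  intro K _ _ N u hu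
  let s := rel u
  let T : Set K := Set.range (fun q : Quotient s => (Quotient.out q).1)
  refine ⟨T, ?_, ?_⟩
  · rintro ⟨q, hq⟩
    exact (Quotient.out q).2 hq
  · intro ξ hξ
    have h1 : s.r (Quotient.out (Quotient.mk s ⟨ξ, hξ⟩)) ⟨ξ, hξ⟩ :=
      Quotient.exact (Quotient.out_eq (Quotient.mk s ⟨ξ, hξ⟩))
    obtain ⟨k, hk⟩ := s.symm h1
    refine ⟨(⟨(Quotient.out (Quotient.mk s ⟨ξ, hξ⟩)).1, ⟨_, rfl⟩⟩, k), hk, ?_⟩
    rintro ⟨⟨t, ⟨q, hq⟩⟩, k'⟩ h2
    simp only at h2 hq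
    subst hq
    have h3 : q = Quotient.mk s ⟨ξ, hξ⟩ := by
      rw [← Quotient.out_eq q]
      exact (Quotient.sound (s := s) ⟨k', h2⟩).symm
    subst h3
    have h4 : pp u k' = pp u k := by
      have h5 : (Quotient.out (Quotient.mk s ⟨ξ, hξ⟩)).1 * ((pp u k' : (𝓞 K)ˣ) : K) =
          (Quotient.out (Quotient.mk s ⟨ξ, hξ⟩)).1 * ((pp u k : (𝓞 K)ˣ) : K) := by
        rw [← hk]
        exact h2.symm
      have h6 := mul_left_cancel₀ (Quotient.out (Quotient.mk s ⟨ξ, hξ⟩)).2 h5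
      exact NumberField.Units.coe_injective K h6
    have h7 : pp u (k' - k) = 1 := by
      rw [sub_eq_add_neg, pp_add, pp_neg, h4, mul_inv_cancel]
    have h8 := pp_inj hu h7
    have h9 : k' = k := sub_eq_zero.1 h8
    rw [h9]

end

end Pool.Agent.Lib.MP_50bb2e_nt.Anf.Rep
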