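import Pool.Agent.Lib.MP_50bb2e_nt.Anf.Iface

/-!
MP_50bb2e_nt, board ANF, row RYT (helper34): narrow ray classes in terms of totally positive
elements.
-/

namespace Pool.Agent.Lib.MP_50bb2e_nt.Anf.Ryt

open NumberField
open scoped nonZeroDivisors

variable {K : Type} [Field K] [NumberField K]

omit [NumberField K] in
/-- positivity at the real places, in terms of the real embeddings -/
theorem tPos_iff (x : K) : TPos x ↔ ∀ (v : InfinitePlace K) (hv : v.IsReal),
    0 < InfinitePlace.embedding_of_isReal hv x := by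
  have h : ∀ (v : InfinitePlace K) (hv : v.IsReal),
      (v.embedding x).re = InfinitePlace.embedding_of_isReal hv x := by
    intro v hv
    rw [← InfinitePlace.embedding_of_isReal_apply hv x, Complex.ofReal_re]
  constructor
  · intro hx v hv
    rw [← h v hv]
    exact hx v hv
  · intro hx v hv
    rw [h v hv]
    exact hx v hv

omit [NumberField K] in
theorem tPos_mul {x y : K} (hx : TPos x) (hy : TPos y) : TPos (x * y) := by
  rw [tPos_iff] at *
  intro v hv
  rw [map_mul]
  exact mul_pos (hx v hv) (hy v hv)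

omit [NumberField K] in
theorem tPos_div {x y : K} (hx : TPos x) (hy : TPos y) : TPos (x / y) := by
  rw [tPos_iff] at *
  intro v hv
  rw [map_div₀]
  exact div_pos (hx v hv) (hy v hv)

/-- row RYT -/
theorem ryt_proof : RytStatement := by
  intro K _ _ D J I hJ hD hDJ
  constructor
  · rintro ⟨α, β, hα, hβ, hαD, hβD, hαp, hβp, h⟩
    have hα' : (α : K) ≠ 0 := by simpa using hα
    have hβ' : (β : K) ≠ 0 := by simpa using hβ
    have hI : (I : FractionalIdeal (𝓞 K)⁰ K) =
        FractionalIdeal.spanSingleton (𝓞 K)⁰ ((β : K) / α) *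
          (J : FractionalIdeal (𝓞 K)⁰ K) := by
      have h1 : FractionalIdeal.spanSingleton (𝓞 K)⁰ (α : K) *
          (I : FractionalIdeal (𝓞 K)⁰ K) = FractionalIdeal.spanSingleton (𝓞 K)⁰ (β : K) *
          (J : FractionalIdeal (𝓞 K)⁰ K) := by
        have h2 := congrArg (fun X : Ideal (𝓞 K) => (X : FractionalIdeal (𝓞 K)⁰ K)) h
        simpa only [FractionalIdeal.coeIdeal_mul, FractionalIdeal.coeIdeal_span_singleton] using h2
      have h3 : FractionalIdeal.spanSingleton (𝓞 K)⁰ (α : K)⁻¹ *
          (FractionalIdeal.spanSingleton (𝓞 K)⁰ (α : K) * (I : FractionalIdeal (𝓞 K)⁰ K)) =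
          (I : FractionalIdeal (𝓞 K)⁰ K) := by
        rw [← mul_assoc, FractionalIdeal.spanSingleton_mul_spanSingleton, inv_mul_cancel₀ hα',
          FractionalIdeal.spanSingleton_one, one_mul]
      rw [← h3, h1, ← mul_assoc, FractionalIdeal.spanSingleton_mul_spanSingleton, div_eq_inv_mul]
    refine ⟨(β : K) / α, div_ne_zero hβ' hα', tPos_div hβp hαp, hI, ?_⟩
    intro x hx
    obtain ⟨y, hy, rfl⟩ := FractionalIdeal.mem_singleton_mul.1 hx
    obtain ⟨j, hj, rfl⟩ := (FractionalIdeal.mem_coeIdeal _).1 hy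
    have hz : (β : K) / α * (algebraMap (𝓞 K) K j) ∈ (I : FractionalIdeal (𝓞 K)⁰ K) := by
      rw [hI]
      exact FractionalIdeal.mem_singleton_mul.2 ⟨_, hy, rfl⟩
    obtain ⟨i, hi, hij⟩ := (FractionalIdeal.mem_coeIdeal _).1 hz
    have hrel : α * i = β * j := by
      apply FaithfulSMul.algebraMap_injective (𝓞 K) K
      rw [map_mul, map_mul, hij]
      have : (algebraMap (𝓞 K) K α) = (α : K) := rfl
      rw [this]
      have h5 : (algebraMap (𝓞 K) K β) = (β : K) := rfl
      rw [h5]
      field_simp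
    refine (FractionalIdeal.mem_coeIdeal _).2 ⟨i - j, ?_, ?_⟩
    · have h6 : i - j = (β - 1) * j - (α - 1) * i := by
        linear_combination hrel
      rw [h6]
      exact D.sub_mem (D.mul_mem_right _ hβD) (D.mul_mem_right _ hαD)
    · rw [map_sub, hij]
      ring
  · rintro ⟨t, ht, htp, hI, hD1⟩
    have h1 : (1 : 𝓞 K) ∈ D ⊔ J := by rw [hDJ]; trivial
    obtain ⟨d, hd, j, hj, hdj⟩ := Submodule.mem_sup.1 h1
    have hint : ∀ x : 𝓞 K, x ∈ J → ∃ i : 𝓞 K, (i : K) = t * x ∧ i - x ∈ D := by
      intro x hx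
      have h2 : t * (x : K) ∈ (I : FractionalIdeal (𝓞 K)⁰ K) := by
        rw [hI]
        exact FractionalIdeal.mem_singleton_mul.2
          ⟨_, (FractionalIdeal.mem_coeIdeal _).2 ⟨x, hx, rfl⟩, rfl⟩
      obtain ⟨i, hi, hix⟩ := (FractionalIdeal.mem_coeIdeal _).1 h2
      have h3 : (t - 1) * (x : K) ∈ (D : FractionalIdeal (𝓞 K)⁰ K) :=
        hD1 (FractionalIdeal.mem_singleton_mul.2
          ⟨_, (FractionalIdeal.mem_coeIdeal _).2 ⟨x, hx, rfl⟩, rfl⟩)
      obtain ⟨y, hy, hyx⟩ := (FractionalIdeal.mem_coeIdeal _).1 h3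
      refine ⟨i, hix, ?_⟩
      have h4 : i - x = y := by
        apply FaithfulSMul.algebraMap_injective (𝓞 K) K
        rw [map_sub, hix, hyx]
        have : (algebraMap (𝓞 K) K x) = (x : K) := rfl
        rw [this]
        ring
      rw [h4]
      exact hy
    -- a large positive integer in `D` and `J`
    have hDn : Ideal.absNorm D ≠ 0 := fun h => hD (Ideal.absNorm_eq_zero_iff.1 h)
    have hJn : Ideal.absNorm J ≠ 0 := fun h => hJ (Ideal.absNorm_eq_zero_iff.1 h)
    obtain ⟨m, hm⟩ := exists_nat_gt (∑ v : InfinitePlace K, v (j : K))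
    set N : ℕ := Ideal.absNorm D * Ideal.absNorm J * m with hN
    have hND : (N : 𝓞 K) ∈ D := by
      rw [hN, Nat.cast_mul, Nat.cast_mul, mul_assoc]
      exact D.mul_mem_right _ (Ideal.absNorm_mem D)
    have hNJ : (N : 𝓞 K) ∈ J := by
      rw [hN, Nat.cast_mul, Nat.cast_mul, mul_comm (Ideal.absNorm D : 𝓞 K), mul_assoc]
      exact J.mul_mem_right _ (Ideal.absNorm_mem J)
    have hmN : (m : ℝ) ≤ N := by
      have : m ≤ N := by
        rw [hN]
        exact Nat.le_mul_of_pos_left _ (Nat.pos_of_ne_zero (mul_ne_zero hDn hJn))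
      exact_mod_cast this
    have hjN : ∀ v : InfinitePlace K, v (j : K) < N := by
      intro v
      have h5 : v (j : K) ≤ ∑ v : InfinitePlace K, v (j : K) :=
        Finset.single_le_sum (f := fun v : InfinitePlace K => v (j : K))
          (fun w _ => apply_nonneg w _) (Finset.mem_univ v)
      linarith
    obtain ⟨i, hi1, hi2⟩ := hint (j + N) (J.add_mem hj hNJ)
    have hα0 : j + (N : 𝓞 K) ≠ 0 := by
      intro h0
      obtain ⟨v⟩ : Nonempty (InfinitePlace K) := inferInstance
      have h6 : (j : K) = -(N : K) := by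
        have := congrArg (algebraMap (𝓞 K) K) h0
        rw [map_add, map_natCast, map_zero] at this
        exact eq_neg_of_add_eq_zero_left this
      have h7 := hjN v
      rw [← InfinitePlace.norm_embedding_eq, h6, map_neg, norm_neg, map_natCast,
        Complex.norm_natCast] at h7
      exact lt_irrefl _ h7
    have hαp : TPos ((j + (N : 𝓞 K) : 𝓞 K) : K) := by
      rw [tPos_iff]
      intro v hv
      have h9 : ((j + (N : 𝓞 K) : 𝓞 K) : K) = (j : K) + (N : K) := by
        push_cast
        rfl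
      rw [h9, map_add, map_natCast]
      have h10 : |InfinitePlace.embedding_of_isReal hv (j : K)| = v (j : K) := by
        rw [← InfinitePlace.norm_embedding_eq, ← InfinitePlace.embedding_of_isReal_apply hv,
          Complex.norm_real, Real.norm_eq_abs]
      have h11 := hjN v
      rw [← h10] at h11
      have h12 := (abs_lt.1 h11).1
      linarith
    have hjD : j - 1 ∈ D := by
      have : j - 1 = -d := by
        rw [← hdj]
        ring
      rw [this]
      exact D.neg_mem hd
    refine ⟨j + N, i, hα0, ?_, ?_, ?_, hαp, ?_, ?_⟩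
    · intro h0
      rw [h0] at hi1
      have h13 : t * ((j + (N : 𝓞 K) : 𝓞 K) : K) = 0 := by
        rw [← hi1]
        simp
      rcases mul_eq_zero.1 h13 with h14 | h14
      · exact ht h14
      · exact hα0 (FaithfulSMul.algebraMap_injective (𝓞 K) K (h14.trans (map_zero _).symm))
    · have : j + (N : 𝓞 K) - 1 = (j - 1) + N := by ring
      rw [this]
      exact D.add_mem hjD hND
    · have : i - 1 = (i - (j + (N : 𝓞 K))) + (j - 1) + N := by ring
      rw [this]
      exact D.add_mem (D.add_mem hi2 hjD) hND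
    · rw [hi1]
      exact tPos_mul htp hαp
    · have h15 : ((Ideal.span {j + (N : 𝓞 K)} * I : Ideal (𝓞 K)) :
          FractionalIdeal (𝓞 K)⁰ K) = ((Ideal.span {i} * J : Ideal (𝓞 K)) :
          FractionalIdeal (𝓞 K)⁰ K) := by
        rw [FractionalIdeal.coeIdeal_mul, FractionalIdeal.coeIdeal_mul,
          FractionalIdeal.coeIdeal_span_singleton, FractionalIdeal.coeIdeal_span_singleton, hI,
          ← mul_assoc, FractionalIdeal.spanSingleton_mul_spanSingleton]
        have h16 : (algebraMap (𝓞 K) K) i = t * ((j + (N : 𝓞 K) : 𝓞 K) : K) := hi1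
        rw [h16, mul_comm t]
      exact FractionalIdeal.coeIdeal_injective h15

end Pool.Agent.Lib.MP_50bb2e_nt.Anf.Ryt
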