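import Pool.Agent.Lib.MP_50bb2e_nt.Anf.Iface

/-!
MP_50bb2e_nt, board ANF, row SFD: signed fundamental domains of a lattice made of boxes.

For all `y` the number `Φ(y) = ∑_τ sgn τ ∑_k bx(path τ)(y - k l)` is the same (BPI for the translations by the lattice); its
integral over a fundamental domain is `det l`. So it is `det l / |det l|`.
-/

set_option autoImplicit false

namespace Pool.Agent.Lib.MP_50bb2e_nt.Anf.Sfd

open MeasureTheory

section alg

variable {R : Type} [CommRing R]

/-- the product of the face `i` -/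
def fac {n : ℕ} (A B : Fin n → R) (i : ℕ) : R :=
  ∏ j : Fin n, if (j : ℕ) + 1 < i then A j else if (j : ℕ) + 1 = i then A j + B j else B j

/-- the mixed product -/
def mix {n : ℕ} (A B : Fin n → R) (i : ℕ) : R := ∏ j : Fin n, if (j : ℕ) < i then A j else B j

theorem fac_zero {n : ℕ} (A B : Fin n → R) : fac A B 0 = mix A B 0 := by
  unfold fac mix
  refine Finset.prod_congr rfl fun j _ => ?_
  rw [if_neg (by omega), if_neg (by omega), if_neg (by omega)]

theorem fac_last {n : ℕ} (A B : Fin n → R) : fac A B (n + 1) = mix A B n := by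
  unfold fac mix
  refine Finset.prod_congr rfl fun j _ => ?_
  have := j.2
  rw [if_pos (by omega), if_pos (by omega)]

theorem fac_succ {n : ℕ} (A B : Fin n → R) (i : ℕ) (hi : i < n) :
    fac A B (i + 1) = mix A B (i + 1) + mix A B i := by
  classical
  unfold fac mix
  let i' : Fin n := ⟨i, hi⟩
  rw [← Finset.mul_prod_erase Finset.univ _ (Finset.mem_univ i'),
    ← Finset.mul_prod_erase Finset.univ (fun j : Fin n => if (j : ℕ) < i + 1 then A j else B j) (Finset.mem_univ i'),
    ← Finset.mul_prod_erase Finset.univ (fun j : Fin n => if (j : ℕ) < i then A j else B j) (Finset.mem_univ i')]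
  have e1 : ∀ j ∈ Finset.univ.erase i', (if (j : ℕ) + 1 < i + 1 then A j else if (j : ℕ) + 1 = i + 1 then A j + B j else B j) =
      if (j : ℕ) < i then A j else B j := by
    intro j hj
    have hne : (j : ℕ) ≠ i := fun h => (Finset.mem_erase.1 hj).1 (Fin.ext h)
    by_cases h : (j : ℕ) < i
    · rw [if_pos (by omega), if_pos h]
    · rw [if_neg (by omega), if_neg (by omega), if_neg h]
  have e2 : ∀ j ∈ Finset.univ.erase i', (if (j : ℕ) < i + 1 then A j else B j) =
      if (j : ℕ) < i then A j else B j := by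
    intro j hj
    have hne : (j : ℕ) ≠ i := fun h => (Finset.mem_erase.1 hj).1 (Fin.ext h)
    by_cases h : (j : ℕ) < i
    · rw [if_pos (by omega), if_pos h]
    · rw [if_neg (by omega), if_neg h]
  rw [Finset.prod_congr rfl e1, Finset.prod_congr rfl e2]
  have h1 : (if (i' : ℕ) + 1 < i + 1 then A i' else if (i' : ℕ) + 1 = i + 1 then A i' + B i' else B i') = A i' + B i' := by
    rw [if_neg (by show ¬ i + 1 < i + 1; omega), if_pos (by show i + 1 = i + 1; rfl)]
  have h2 : (if (i' : ℕ) < i + 1 then A i' else B i') = A i' := if_pos (by show i < i + 1; omega)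
  have h3 : (if (i' : ℕ) < i then A i' else B i') = B i' := if_neg (by show ¬ i < i; omega)
  rw [h1, h2, h3]
  ring

theorem sum_fac {n : ℕ} (A B : Fin n → R) : ∑ i ∈ Finset.range (n + 2), (-1 : R) ^ i * fac A B i = 0 := by
  have key : ∀ m ≤ n, ∑ i ∈ Finset.range (m + 1), (-1 : R) ^ i * fac A B i = (-1) ^ m * mix A B m := by
    intro m
    induction m with
    | zero =>
      intro _
      rw [Finset.sum_range_one, fac_zero]
    | succ m ih =>
      intro hm
      rw [Finset.sum_range_succ, ih (by omega), fac_succ A B m (by omega)]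
      ring
  rw [Finset.sum_range_succ, key n le_rfl, fac_last]
  ring

end alg

/-! ### The functions `sg`, `bx` -/

theorem sg_add (a b c t : ℝ) : sg a b t + sg b c t = sg a c t := by unfold sg; ring

theorem sg_trans (q a b t : ℝ) : sg (q + a) (q + b) t = sg a b (t - q) := by
  unfold sg
  have h1 : t ≤ q + b ↔ t - q ≤ b := by constructor <;> intro h <;> linarith
  have h2 : t ≤ q + a ↔ t - q ≤ a := by constructor <;> intro h <;> linarith
  simp only [h1, h2]

theorem bx_trans {n : ℕ} (q : Fin n → ℝ) (p : Fin (n + 1) → Fin n → ℝ) (t : Fin n → ℝ) :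
    bx (fun j => q + p j) t = bx p (t - q) := by
  unfold bx
  exact Finset.prod_congr rfl fun j _ => sg_trans _ _ _ _

/-- the cocycle relation for the boxes -/
theorem bx_cocycle {n : ℕ} (p : Fin (n + 2) → Fin n → ℝ) (t : Fin n → ℝ) :
    ∑ i : Fin (n + 2), (-1 : ℝ) ^ (i : ℕ) * bx (fun j => p (i.succAbove j)) t = 0 := by
  have key : ∀ i : Fin (n + 2), bx (fun j => p (i.succAbove j)) t =
      fac (fun j : Fin n => sg (p j.castSucc.castSucc j) (p j.castSucc.succ j) (t j))
        (fun j : Fin n => sg (p j.castSucc.succ j) (p j.succ.succ j) (t j)) i := by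
    intro i
    unfold bx fac
    refine Finset.prod_congr rfl fun j _ => ?_
    have v1 : ((j.castSucc : Fin (n + 1)) : ℕ) = j := rfl
    have v2 : ((j.succ : Fin (n + 1)) : ℕ) = j + 1 := rfl
    by_cases h1 : (j : ℕ) + 1 < i
    · have e1 : i.succAbove j.castSucc = j.castSucc.castSucc := Fin.succAbove_of_castSucc_lt _ _ (by
        rw [Fin.lt_def]; simp; omega)
      have e2 : i.succAbove j.succ = j.succ.castSucc := Fin.succAbove_of_castSucc_lt _ _ (by
        rw [Fin.lt_def]; simp; omega)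
      have e3 : (j.succ.castSucc : Fin (n + 2)) = j.castSucc.succ := Fin.ext rfl
      rw [if_pos h1]
      show sg (p (i.succAbove j.castSucc) j) (p (i.succAbove j.succ) j) (t j) = _
      rw [e1, e2, e3]
    · by_cases h2 : (j : ℕ) + 1 = i
      · have e1 : i.succAbove j.castSucc = j.castSucc.castSucc := Fin.succAbove_of_castSucc_lt _ _ (by
          rw [Fin.lt_def]; simp; omega)
        have e2 : i.succAbove j.succ = j.succ.succ := Fin.succAbove_of_le_castSucc _ _ (by
          rw [Fin.le_def]; simp; omega)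
        rw [if_neg h1, if_pos h2, sg_add]
        show sg (p (i.succAbove j.castSucc) j) (p (i.succAbove j.succ) j) (t j) = _
        rw [e1, e2]
      · have e1 : i.succAbove j.castSucc = j.castSucc.succ := Fin.succAbove_of_le_castSucc _ _ (by
          rw [Fin.le_def]; simp; omega)
        have e2 : i.succAbove j.succ = j.succ.succ := Fin.succAbove_of_le_castSucc _ _ (by
          rw [Fin.le_def]; simp; omega)
        rw [if_neg h1, if_neg h2]
        show sg (p (i.succAbove j.castSucc) j) (p (i.succAbove j.succ) j) (t j) = _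
        rw [e1, e2]
  rw [Finset.sum_congr rfl fun i _ => by rw [key i]]
  exact (Fin.sum_univ_eq_sum_range (fun i => (-1 : ℝ) ^ i * fac
    (fun j : Fin n => sg (p j.castSucc.castSucc j) (p j.castSucc.succ j) (t j))
    (fun j : Fin n => sg (p j.castSucc.succ j) (p j.succ.succ j) (t j)) i) (n + 2)).trans (sum_fac _ _)

theorem abs_sg_le (a b t : ℝ) : |sg a b t| ≤ 1 := by
  unfold sg
  split_ifs <;> norm_num

theorem sg_ne_zero {a b t : ℝ} (h : sg a b t ≠ 0) : |t| ≤ |a| + |b| := by
  unfold sg at h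
  have ha := abs_nonneg a
  have hb := abs_nonneg b
  by_cases h1 : t ≤ b
  · by_cases h2 : t ≤ a
    · exact absurd (by rw [if_pos h1, if_pos h2, sub_self]) h
    · rw [abs_le]
      constructor
      · have := neg_abs_le a
        linarith
      · have := le_abs_self b
        linarith
  · by_cases h2 : t ≤ a
    · rw [abs_le]
      constructor
      · have := neg_abs_le b
        linarith
      · have := le_abs_self a
        linarith
    · exact absurd (by rw [if_neg h1, if_neg h2, sub_self]) h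

theorem abs_bx_le {n : ℕ} (p : Fin (n + 1) → Fin n → ℝ) (t : Fin n → ℝ) : |bx p t| ≤ 1 := by
  unfold bx
  rw [Finset.abs_prod]
  exact Finset.prod_le_one (fun _ _ => abs_nonneg _) fun _ _ => abs_sg_le _ _ _

/-- the support of a box is bounded -/
theorem bx_bdd {n : ℕ} (p : Fin (n + 1) → Fin n → ℝ) : ∃ ρ : ℝ, ∀ t : Fin n → ℝ, bx p t ≠ 0 → ‖t‖ ≤ ρ := by
  refine ⟨∑ j : Fin n, (|p j.castSucc j| + |p j.succ j|), fun t ht => ?_⟩
  have hn : ∀ j ∈ Finset.univ, 0 ≤ |p (Fin.castSucc j) j| + |p (Fin.succ j) j| := fun j _ => by positivity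
  rw [pi_norm_le_iff_of_nonneg (Finset.sum_nonneg hn)]
  intro j
  rw [Real.norm_eq_abs]
  have h1 : sg (p j.castSucc j) (p j.succ j) (t j) ≠ 0 := by
    intro h0
    exact ht (Finset.prod_eq_zero (Finset.mem_univ j) h0)
  exact (sg_ne_zero h1).trans (Finset.single_le_sum hn (Finset.mem_univ j))

theorem meas_sg (a b : ℝ) : Measurable (sg a b) := by
  unfold sg
  exact (Measurable.ite measurableSet_Iic measurable_const measurable_const).sub
    (Measurable.ite measurableSet_Iic measurable_const measurable_const)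

theorem meas_bx {n : ℕ} (p : Fin (n + 1) → Fin n → ℝ) : Measurable (bx p) := by
  unfold bx
  exact Finset.measurable_prod _ fun j _ => (meas_sg _ _).comp (measurable_pi_apply j)

theorem int_sg (a b : ℝ) : ∫ t, sg a b t = b - a := by
  have key : ∀ a b : ℝ, a ≤ b → ∫ t, sg a b t = b - a := by
    intro a b hab
    have h1 : sg a b = (Set.Ioc a b).indicator (fun _ => (1 : ℝ)) := by
      funext t
      unfold sg
      by_cases h2 : t ≤ b
      · by_cases h3 : t ≤ a
        · rw [if_pos h2, if_pos h3, Set.indicator_of_notMem (by rintro ⟨h4, _⟩; linarith)]; ring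
        · rw [if_pos h2, if_neg h3, Set.indicator_of_mem (show t ∈ Set.Ioc a b from ⟨not_le.1 h3, h2⟩)]; ring
      · rw [if_neg h2, if_neg (by intro h3; linarith), Set.indicator_of_notMem (by rintro ⟨_, h4⟩; exact h2 h4)]; ring
    rw [h1, integral_indicator measurableSet_Ioc, setIntegral_const, smul_eq_mul, mul_one, Real.volume_real_Ioc_of_le hab]
  rcases le_total a b with h | h
  · exact key a b h
  · have h1 : sg a b = fun t => - sg b a t := by
      funext t; unfold sg; ring
    rw [h1, integral_neg, key b a h]; ring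

theorem int_bx {n : ℕ} (p : Fin (n + 1) → Fin n → ℝ) :
    ∫ t, bx p t = ∏ j : Fin n, (p j.succ j - p j.castSucc j) := by
  unfold bx
  rw [integral_fintype_prod_volume_eq_prod (f := fun (j : Fin n) (t : ℝ) => sg (p j.castSucc j) (p j.succ j) t)]
  exact Finset.prod_congr rfl fun j _ => int_sg _ _

theorem sg_ind (a b : ℝ) : sg a b = fun t => (Set.Ioc a b).indicator (fun _ => (1 : ℝ)) t -
    (Set.Ioc b a).indicator (fun _ => (1 : ℝ)) t := by
  funext t
  unfold sg
  by_cases h2 : t ≤ b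
  · by_cases h3 : t ≤ a
    · rw [if_pos h2, if_pos h3, Set.indicator_of_notMem (by rintro ⟨h4, _⟩; linarith),
        Set.indicator_of_notMem (by rintro ⟨h4, _⟩; linarith)]; ring
    · rw [if_pos h2, if_neg h3, Set.indicator_of_mem (show t ∈ Set.Ioc a b from ⟨not_le.1 h3, h2⟩),
        Set.indicator_of_notMem (by rintro ⟨_, h4⟩; exact h3 h4)]
  · by_cases h3 : t ≤ a
    · rw [if_neg h2, if_pos h3, Set.indicator_of_notMem (by rintro ⟨_, h4⟩; exact h2 h4),
        Set.indicator_of_mem (show t ∈ Set.Ioc b a from ⟨not_le.1 h2, h3⟩)]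
    · rw [if_neg h2, if_neg h3, Set.indicator_of_notMem (by rintro ⟨_, h4⟩; exact h2 h4),
        Set.indicator_of_notMem (by rintro ⟨_, h4⟩; exact h3 h4)]

theorem integrable_sg (a b : ℝ) : Integrable (sg a b) := by
  have key : ∀ a b : ℝ, Integrable ((Set.Ioc a b).indicator (fun _ => (1 : ℝ))) := fun a b =>
    (integrable_indicator_iff measurableSet_Ioc).2 (integrableOn_const (by simp))
  rw [sg_ind]
  exact (key a b).sub (key b a)

theorem integrable_bx {n : ℕ} (p : Fin (n + 1) → Fin n → ℝ) : Integrable (bx p) :=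
  Integrable.fintype_prod (f := fun (j : Fin n) (t : ℝ) => sg (p j.castSucc j) (p j.succ j) t)
    fun _ => integrable_sg _ _

/-! ### The lattice -/

section lat

variable {n : ℕ} (l : Fin n → Fin n → ℝ)

/-- the lattice vector with the coordinates `k` -/
def lv (k : Fin n → ℤ) : Fin n → ℝ := ∑ i, (k i : ℝ) • l i

theorem lv_add (k k' : Fin n → ℤ) : lv l (k + k') = lv l k + lv l k' := by
  unfold lv
  rw [← Finset.sum_add_distrib]
  refine Finset.sum_congr rfl fun i _ => ?_
  rw [Pi.add_apply, Int.cast_add, add_smul]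

theorem lv_neg (k : Fin n → ℤ) : lv l (-k) = -lv l k := by
  unfold lv
  rw [← Finset.sum_neg_distrib]
  refine Finset.sum_congr rfl fun i _ => ?_
  rw [Pi.neg_apply, Int.cast_neg, neg_smul]

theorem lv_zero : lv l 0 = 0 := by
  unfold lv
  simp

theorem lv_single (i : Fin n) : lv l (Pi.single i 1) = l i := by
  unfold lv
  rw [Finset.sum_eq_single i]
  · simp
  · intro j _ hj
    simp [Pi.single_eq_of_ne hj]
  · simp

variable {l} (hl : LinearIndependent ℝ l)

/-- the basis -/
noncomputable def bs (hl : LinearIndependent ℝ l) : Module.Basis (Fin n) ℝ (Fin n → ℝ) :=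
  basisOfLinearIndependentOfCardEqFinrank' l hl (by simp)

theorem bs_apply (i : Fin n) : bs hl i = l i := by
  unfold bs
  rw [coe_basisOfLinearIndependentOfCardEqFinrank']

theorem lv_mem (k : Fin n → ℤ) : lv l k ∈ Submodule.span ℤ (Set.range (bs hl)) := by
  unfold lv
  refine Submodule.sum_mem _ fun i _ => ?_
  rw [← bs_apply hl i, Int.cast_smul_eq_zsmul]
  exact Submodule.smul_mem _ _ (Submodule.subset_span ⟨i, rfl⟩)

include hl in
theorem lv_inj : Function.Injective (lv l) := by
  intro k k' h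
  have h1 : ∑ i, ((k i : ℝ) - (k' i : ℝ)) • l i = 0 := by
    simp only [sub_smul, Finset.sum_sub_distrib]
    exact sub_eq_zero.2 h
  have h2 := (Fintype.linearIndependent_iff.1 hl) _ h1
  funext i
  have h3 := sub_eq_zero.1 (h2 i)
  exact_mod_cast h3

include hl in
theorem fin_ball (ρ : ℝ) : {k : Fin n → ℤ | ‖lv l k‖ ≤ ρ}.Finite := by
  have h1 := ZSpan.setFinite_inter (bs hl) (Metric.isBounded_closedBall (x := (0 : Fin n → ℝ)) (r := ρ))
  refine (h1.preimage (f := lv l) (lv_inj hl).injOn).subset fun k hk => ?_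
  exact ⟨by rw [mem_closedBall_zero_iff]; exact hk, lv_mem hl k⟩

include hl in
theorem card_bd (ρ : ℝ) : ∃ M : ℕ, ∀ (y : Fin n → ℝ) (s : Finset (Fin n → ℤ)),
    (∀ k ∈ s, ‖y - lv l k‖ ≤ ρ) → s.card ≤ M := by
  classical
  refine ⟨(fin_ball hl (ρ + ρ)).toFinset.card, fun y s hs => ?_⟩
  rcases s.eq_empty_or_nonempty with rfl | ⟨k₀, hk₀⟩
  · simp
  rw [← Finset.card_image_of_injective s (f := fun x => x - k₀) (Equiv.subRight k₀).injective]
  refine Finset.card_le_card fun k hk => ?_
  obtain ⟨k', hk', rfl⟩ := Finset.mem_image.1 hk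
  rw [Set.Finite.mem_toFinset]
  show ‖lv l (k' - k₀)‖ ≤ ρ + ρ
  have h1 : lv l (k' - k₀) = (y - lv l k₀) - (y - lv l k') := by
    rw [sub_eq_add_neg, lv_add, lv_neg]; abel
  rw [h1]
  exact (norm_sub_le _ _).trans (add_le_add (hs _ hk₀) (hs _ hk'))

/-- the coordinates of the lattice vectors -/
noncomputable def eqv (hl : LinearIndependent ℝ l) :
    (Fin n → ℤ) ≃ Submodule.span ℤ (Set.range (bs hl)) :=
  Equiv.ofBijective (fun k => ⟨lv l k, lv_mem hl k⟩) ⟨fun k k' h => lv_inj hl (Subtype.ext_iff.1 h), fun x => by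
    obtain ⟨c, hc⟩ := (Submodule.mem_span_range_iff_exists_fun ℤ).1 x.2
    refine ⟨c, Subtype.ext ?_⟩
    show lv l c = x
    rw [← hc]
    unfold lv
    exact Finset.sum_congr rfl fun i _ => by rw [← bs_apply hl i, Int.cast_smul_eq_zsmul]⟩

theorem eqv_coe (k : Fin n → ℤ) : (eqv hl k : Fin n → ℝ) = lv l k := rfl

include hl in
theorem gen (B : (Fin n → ℝ) → ℂ) (N ρ : ℝ) (hN : ∀ t, ‖B t‖ ≤ N) (hBm : Measurable B)
    (hρ : ∀ t, B t ≠ 0 → ‖t‖ ≤ ρ) (w : (Fin n → ℝ) → ℂ) (hw : Integrable w) :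
    (∀ k, Integrable (fun x => B x * w (x + lv l k))) ∧
    Summable (fun k => ∫ x, ‖B x * w (x + lv l k)‖) ∧
    (∑' k, ∫ x, B x * w (x + lv l k) = ∫ x, (∑' k, B (x - lv l k)) * w x) ∧
    (∑' k, ∫ x, B (x - lv l k) * w x = ∫ x, (∑' k, B (x - lv l k)) * w x) := by
  classical
  have hN0 : 0 ≤ N := (norm_nonneg _).trans (hN 0)
  obtain ⟨M, hM⟩ := card_bd hl ρ
  have i1 : ∀ k, Integrable (fun x => B (x - lv l k) * w x) := fun k =>
    hw.bdd_mul (c := N) ((hBm.comp (measurable_id.sub_const _)).aestronglyMeasurable)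
      (ae_of_all _ fun x => hN _)
  have tr : ∀ k, (fun x => B x * w (x + lv l k)) =
      fun x => (fun x => B (x - lv l k) * w x) (x + lv l k) := by
    intro k
    funext x
    show _ = B (x + lv l k - lv l k) * w (x + lv l k)
    rw [add_sub_cancel_right]
  have i2 : ∀ k, Integrable (fun x => B x * w (x + lv l k)) := by
    intro k
    rw [tr k]
    exact (i1 k).comp_add_right _
  have tn : ∀ k, ∫ x, ‖B x * w (x + lv l k)‖ = ∫ x, ‖B (x - lv l k) * w x‖ := by
    intro k
    rw [← integral_add_right_eq_self (μ := volume) (fun x => ‖B (x - lv l k) * w x‖) (lv l k)]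
    refine integral_congr_ae (ae_of_all _ fun x => ?_)
    show ‖_‖ = ‖B (x + lv l k - lv l k) * w (x + lv l k)‖
    rw [add_sub_cancel_right]
  have tv : ∀ k, ∫ x, B x * w (x + lv l k) = ∫ x, B (x - lv l k) * w x := by
    intro k
    rw [← integral_add_right_eq_self (μ := volume) (fun x => B (x - lv l k) * w x) (lv l k)]
    refine integral_congr_ae (ae_of_all _ fun x => ?_)
    show _ = B (x + lv l k - lv l k) * w (x + lv l k)
    rw [add_sub_cancel_right]
  have su : Summable (fun k => ∫ x, ‖B (x - lv l k) * w x‖) := by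
    refine summable_of_sum_le (c := ∫ x, (M * N) * ‖w x‖)
      (fun k => integral_nonneg fun x => norm_nonneg _) fun u => ?_
    rw [← integral_finsetSum u fun k _ => (i1 k).norm]
    refine integral_mono (integrable_finsetSum _ fun k _ => (i1 k).norm) (hw.norm.const_mul _) fun x => ?_
    show ∑ k ∈ u, ‖B (x - lv l k) * w x‖ ≤ (M * N) * ‖w x‖
    have e1 : ∑ k ∈ u, ‖B (x - lv l k) * w x‖ =
        ∑ k ∈ u.filter (fun k => B (x - lv l k) ≠ 0), ‖B (x - lv l k) * w x‖ := by
      rw [Finset.sum_filter_of_ne]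
      intro k _ h h0
      exact h (by rw [h0, zero_mul, norm_zero])
    rw [e1]
    have hc := hM x (u.filter (fun k => B (x - lv l k) ≠ 0)) fun k hk => hρ _ (Finset.mem_filter.1 hk).2
    calc ∑ k ∈ u.filter (fun k => B (x - lv l k) ≠ 0), ‖B (x - lv l k) * w x‖
        ≤ ∑ k ∈ u.filter (fun k => B (x - lv l k) ≠ 0), N * ‖w x‖ :=
          Finset.sum_le_sum fun k _ => by
            rw [norm_mul]
            exact mul_le_mul_of_nonneg_right (hN _) (norm_nonneg _)
      _ = ((u.filter (fun k => B (x - lv l k) ≠ 0)).card : ℝ) * (N * ‖w x‖) := by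
          rw [Finset.sum_const, nsmul_eq_mul]
      _ ≤ M * (N * ‖w x‖) :=
          mul_le_mul_of_nonneg_right (by exact_mod_cast hc) (mul_nonneg hN0 (norm_nonneg _))
      _ = (M * N) * ‖w x‖ := by ring
  have fin : ∑' k, ∫ x, B (x - lv l k) * w x = ∫ x, (∑' k, B (x - lv l k)) * w x := by
    rw [integral_tsum_of_summable_integral_norm i1 su]
    refine integral_congr_ae (ae_of_all _ fun x => ?_)
    exact tsum_mul_right
  refine ⟨i2, ?_, ?_, fin⟩
  · simpa only [tn] using su
  · simpa only [tv] using fin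

/-! ### The sum of the boxes is constant -/

/-- the action of the lattice -/
@[reducible] def actL (l : Fin n → Fin n → ℝ) : MulAction (Multiplicative (Fin n → ℤ)) (Fin n → ℝ) where
  smul u p := lv l u.toAdd + p
  one_smul p := by
    show lv l 0 + p = p
    rw [lv_zero, zero_add]
  mul_smul u v p := by
    show lv l (u.toAdd + v.toAdd) + p = lv l u.toAdd + (lv l v.toAdd + p)
    rw [lv_add, add_assoc]

include hl in
theorem fin_bx (p : Fin (n + 1) → Fin n → ℝ) (y : Fin n → ℝ) :
    (Function.support fun k : Fin n → ℤ => ((bx p (y - lv l k) : ℝ) : ℂ)).Finite := by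
  obtain ⟨ρ, hρ⟩ := bx_bdd p
  refine (fin_ball hl (ρ + ‖y‖)).subset fun k hk => ?_
  have h1 := hρ (y - lv l k) (fun h0 => hk (by show ((bx p (y - lv l k) : ℝ) : ℂ) = 0; rw [h0]; rfl))
  show ‖lv l k‖ ≤ ρ + ‖y‖
  calc ‖lv l k‖ = ‖y - (y - lv l k)‖ := by rw [sub_sub_cancel]
    _ ≤ ‖y‖ + ‖y - lv l k‖ := norm_sub_le _ _
    _ ≤ ρ + ‖y‖ := by linarith

include hl in
theorem sum_bx (p : Fin (n + 1) → Fin n → ℝ) (y : Fin n → ℝ) :
    Summable fun k : Fin n → ℤ => ((bx p (y - lv l k) : ℝ) : ℂ) :=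
  summable_of_hasFiniteSupport (fin_bx hl p y)

/-- the path of the permutation `τ` -/
def pa (l : Fin n → Fin n → ℝ) (τ : Equiv.Perm (Fin n)) (j : Fin (n + 1)) : Fin n → ℝ :=
  ∑ i ∈ Finset.univ.filter (fun i : Fin n => (i : ℕ) < j), l (τ i)

/-- the signed sum of the boxes -/
noncomputable def BT (l : Fin n → Fin n → ℝ) (y : Fin n → ℝ) : ℂ :=
  ∑ τ : Equiv.Perm (Fin n), ((Equiv.Perm.sign τ : ℤ) : ℂ) * ((bx (pa l τ) y : ℝ) : ℂ)

include hl in
theorem const (h : BpiStatement) (y y' : Fin n → ℝ) :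
    ∑' k, BT l (y - lv l k) = ∑' k, BT l (y' - lv l k) := by
  classical
  let _ := actL l
  let Θ : (Fin (n + 1) → Fin n → ℝ) → ℂ := fun p => ∑' k, ((bx p (0 - lv l k) : ℝ) : ℂ)
  have h1 := h (Multiplicative (Fin n → ℤ)) (Fin n → ℝ) n Θ (by
    intro u p
    show ∑' k, ((bx (fun j => lv l u.toAdd + p j) (0 - lv l k) : ℝ) : ℂ) = ∑' k, ((bx p (0 - lv l k) : ℝ) : ℂ)
    rw [← (Equiv.addRight u.toAdd).tsum_eq (fun k => ((bx p (0 - lv l k) : ℝ) : ℂ))]
    refine tsum_congr fun k => ?_
    rw [bx_trans]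
    show _ = ((bx p (0 - lv l (k + u.toAdd)) : ℝ) : ℂ)
    rw [lv_add, sub_add_eq_sub_sub]) (by
    intro p
    show ∑ i : Fin (n + 2), (-1 : ℂ) ^ (i : ℕ) * ∑' k, ((bx (fun j => p (i.succAbove j)) (0 - lv l k) : ℝ) : ℂ) = 0
    have e1 : ∀ i : Fin (n + 2), (-1 : ℂ) ^ (i : ℕ) * ∑' k, ((bx (fun j => p (i.succAbove j)) (0 - lv l k) : ℝ) : ℂ) =
        ∑' k, (-1 : ℂ) ^ (i : ℕ) * ((bx (fun j => p (i.succAbove j)) (0 - lv l k) : ℝ) : ℂ) := fun i => tsum_mul_left.symm
    rw [Finset.sum_congr rfl fun i _ => e1 i, ← Summable.tsum_finsetSum fun i _ => (sum_bx hl _ _).mul_left _]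
    rw [← tsum_zero (α := ℂ) (β := Fin n → ℤ)]
    refine tsum_congr fun k => ?_
    have := bx_cocycle p (0 - lv l k)
    exact_mod_cast this)
  have h2 : ∀ (τ : Equiv.Perm (Fin n)) (y : Fin n → ℝ),
      Θ (fun j => pt (fun i : Fin n => Multiplicative.ofAdd (Pi.single i (1 : ℤ))) τ j • (-y)) =
        ∑' k, ((bx (pa l τ) (y - lv l k) : ℝ) : ℂ) := by
    intro τ y
    have h3 : ∀ (s : Finset (Fin n)) (q : Fin n → ℝ),
        (∏ i ∈ s, (Multiplicative.ofAdd (Pi.single (τ i) (1 : ℤ)) : Multiplicative (Fin n → ℤ))) • q =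
          q + ∑ i ∈ s, l (τ i) := by
      intro s q
      induction s using Finset.induction_on with
      | empty =>
        rw [Finset.prod_empty, Finset.sum_empty, one_smul, add_zero]
      | insert a s ha ih =>
        rw [Finset.prod_insert ha, Finset.sum_insert ha, mul_smul, ih]
        show lv l (Pi.single (τ a) 1) + (q + ∑ i ∈ s, l (τ i)) = _
        rw [lv_single]
        abel
    have h4 : (fun j => pt (fun i : Fin n => Multiplicative.ofAdd (Pi.single i (1 : ℤ))) τ j • (-y)) =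
        fun j => -y + pa l τ j := by
      funext j
      exact h3 _ _
    rw [h4]
    show ∑' k, ((bx (fun j => -y + pa l τ j) (0 - lv l k) : ℝ) : ℂ) = _
    refine tsum_congr fun k => ?_
    rw [bx_trans]
    congr 2
    abel
  have h5 : ∀ y : Fin n → ℝ, ∑' k, BT l (y - lv l k) =
      ∑ τ : Equiv.Perm (Fin n), ((Equiv.Perm.sign τ : ℤ) : ℂ) * ∑' k, ((bx (pa l τ) (y - lv l k) : ℝ) : ℂ) := by
    intro y
    unfold BT
    rw [Summable.tsum_finsetSum fun τ _ => (sum_bx hl _ _).mul_left _]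
    exact Finset.sum_congr rfl fun τ _ => tsum_mul_left
  have h6 := h1 (fun i : Fin n => Multiplicative.ofAdd (Pi.single i (1 : ℤ))) (-y) (-y')
  rw [h5, h5]
  simp only [h2] at h6
  exact h6

/-! ### The constant -/

theorem norm_sgn (τ : Equiv.Perm (Fin n)) : ‖((Equiv.Perm.sign τ : ℤ) : ℂ)‖ ≤ 1 := by
  rcases Int.units_eq_one_or (Equiv.Perm.sign τ) with h | h <;> rw [h] <;> simp

theorem BT_norm (y : Fin n → ℝ) : ‖BT l y‖ ≤ (Finset.univ : Finset (Equiv.Perm (Fin n))).card := by
  unfold BT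
  refine (norm_sum_le _ _).trans ?_
  rw [Finset.card_eq_sum_ones, Nat.cast_sum]
  refine Finset.sum_le_sum fun τ _ => ?_
  rw [norm_mul, Complex.norm_real, Real.norm_eq_abs, Nat.cast_one]
  exact mul_le_one₀ (norm_sgn τ) (abs_nonneg _) (abs_bx_le _ _)

theorem meas_cbx (p : Fin (n + 1) → Fin n → ℝ) : Measurable fun y => ((bx p y : ℝ) : ℂ) :=
  Complex.measurable_ofReal.comp (meas_bx p)

theorem BT_meas : Measurable (BT l) := by
  unfold BT
  exact Finset.measurable_fun_sum _ fun τ _ => (meas_cbx _).const_mul _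

theorem BT_bdd (l : Fin n → Fin n → ℝ) : ∃ ρ : ℝ, ∀ t : Fin n → ℝ, BT l t ≠ 0 → ‖t‖ ≤ ρ := by
  choose ρ hρ using fun τ : Equiv.Perm (Fin n) => bx_bdd (pa l τ)
  refine ⟨∑ τ, |ρ τ|, fun t ht => ?_⟩
  obtain ⟨τ, _, hτ⟩ := Finset.exists_ne_zero_of_sum_ne_zero ht
  have h1 : bx (pa l τ) t ≠ 0 := by
    intro h0
    exact hτ (by rw [h0]; simp)
  exact (hρ τ t h1).trans ((le_abs_self _).trans
    (Finset.single_le_sum (f := fun τ => |ρ τ|) (fun _ _ => abs_nonneg _) (Finset.mem_univ τ)))

theorem pa_step (τ : Equiv.Perm (Fin n)) (j : Fin n) : pa l τ j.succ - pa l τ j.castSucc = l (τ j) := by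
  classical
  unfold pa
  have h1 : (Finset.univ.filter (fun i : Fin n => (i : ℕ) < j.succ)) =
      insert j (Finset.univ.filter (fun i : Fin n => (i : ℕ) < j.castSucc)) := by
    ext i
    simp only [Finset.mem_filter, Finset.mem_univ, true_and, Finset.mem_insert, Fin.val_succ,
      Fin.val_castSucc, Fin.ext_iff]
    omega
  rw [h1, Finset.sum_insert (by simp)]
  abel

theorem int_BT : ∫ y, BT l y = (((Matrix.of l).det : ℝ) : ℂ) := by
  unfold BT
  rw [integral_finsetSum _ fun τ _ => ((integrable_bx (pa l τ)).ofReal).const_mul _, Matrix.det_apply']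
  push_cast
  refine Finset.sum_congr rfl fun τ _ => ?_
  rw [integral_const_mul, integral_complex_ofReal, int_bx]
  push_cast
  congr 1
  refine Finset.prod_congr rfl fun j _ => ?_
  rw [← Complex.ofReal_sub]
  congr 1
  have := congrFun (pa_step (l := l) τ j) j
  simpa using this

theorem integrable_BT : Integrable (BT l) := by
  unfold BT
  exact integrable_finsetSum _ fun τ _ => ((integrable_bx (pa l τ)).ofReal).const_mul _

include hl in
theorem const_val (h : BpiStatement) : ∃ ε : ℂ, (ε = 1 ∨ ε = -1) ∧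
    ∀ y : Fin n → ℝ, ∑' k, BT l (y - lv l k) = ε := by
  have hc := const hl h
  obtain ⟨ρ, hρ⟩ := BT_bdd l
  let F := ZSpan.fundamentalDomain (bs hl)
  have hFm : MeasurableSet F := ZSpan.fundamentalDomain_measurableSet (bs hl)
  have hFd := ZSpan.isAddFundamentalDomain' (bs hl) volume
  have hvol : volume.real F = |(Matrix.of l).det| := by
    show volume.real (ZSpan.fundamentalDomain (bs hl)) = _
    rw [ZSpan.volume_real_fundamentalDomain]
    congr 2
    ext i j
    show bs hl i j = l i j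
    rw [bs_apply]
  have hfin : volume F ≠ ⊤ := (ZSpan.fundamentalDomain_isBounded (bs hl)).measure_lt_top.ne
  have hw : Integrable (F.indicator fun _ => (1 : ℂ)) :=
    (integrable_indicator_iff hFm).2 (integrableOn_const hfin)
  obtain ⟨-, -, -, hg⟩ := gen hl (BT l) _ ρ BT_norm BT_meas hρ _ hw
  have h1 : ∫ x, (∑' k, BT l (x - lv l k)) * F.indicator (fun _ => (1 : ℂ)) x =
      (∑' k, BT l (0 - lv l k)) * ((|(Matrix.of l).det| : ℝ) : ℂ) := by
    rw [← hvol]
    have e1 : ∀ x, (∑' k, BT l (x - lv l k)) * F.indicator (fun _ => (1 : ℂ)) x =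
        (∑' k, BT l (0 - lv l k)) * F.indicator (fun _ => (1 : ℂ)) x := fun x => by rw [hc x 0]
    rw [integral_congr_ae (ae_of_all _ e1), integral_const_mul, integral_indicator hFm, setIntegral_const]
    simp
  have h2 : ∑' k, ∫ x, BT l (x - lv l k) * F.indicator (fun _ => (1 : ℂ)) x = ∫ x, BT l x := by
    have hcount : Countable (Submodule.span ℤ (Set.range (bs hl))).toAddSubgroup := by
      show Countable (Submodule.span ℤ (Set.range (bs hl)))
      exact Countable.of_equiv _ (eqv hl)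
    have e0 := hFd.integral_eq_tsum' (BT l) integrable_BT
    rw [e0]
    refine Eq.trans ?_ ((eqv hl).tsum_eq (fun g : Submodule.span ℤ (Set.range (bs hl)) =>
      ∫ x in ZSpan.fundamentalDomain (bs hl), BT l (-(g : Fin n → ℝ) + x)))
    refine tsum_congr fun k => ?_
    rw [← integral_indicator hFm]
    refine integral_congr_ae (ae_of_all _ fun x => ?_)
    by_cases hx : x ∈ F
    · show BT l (x - lv l k) * F.indicator (fun _ => (1 : ℂ)) x = F.indicator _ x
      rw [Set.indicator_of_mem hx, Set.indicator_of_mem hx, mul_one]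
      show _ = BT l (-(eqv hl k : Fin n → ℝ) + x)
      rw [eqv_coe, sub_eq_neg_add]
    · show BT l (x - lv l k) * F.indicator (fun _ => (1 : ℂ)) x = F.indicator _ x
      rw [Set.indicator_of_notMem hx, Set.indicator_of_notMem hx, mul_zero]
  have hdet : (Matrix.of l).det ≠ 0 := by
    intro h0
    have h3 := ZSpan.measure_fundamentalDomain_ne_zero (bs hl) (μ := volume)
    rw [h0, abs_zero] at hvol
    exact h3 ((measureReal_eq_zero_iff hfin).1 hvol)
  have h3 : (∑' k, BT l (0 - lv l k)) * ((|(Matrix.of l).det| : ℝ) : ℂ) = (((Matrix.of l).det : ℝ) : ℂ) := by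
    rw [← h1, ← hg, h2, int_BT]
  refine ⟨_, ?_, fun y => hc y 0⟩
  have hne : (((Matrix.of l).det : ℝ) : ℂ) ≠ 0 := by exact_mod_cast hdet
  rcases abs_choice (Matrix.of l).det with h4 | h4
  · left
    rw [h4] at h3
    exact mul_right_cancel₀ hne (h3.trans (one_mul _).symm)
  · right
    rw [h4] at h3
    push_cast at h3
    apply mul_right_cancel₀ hne
    rw [mul_neg] at h3
    rw [neg_one_mul]
    exact neg_eq_iff_eq_neg.1 h3

end lat

open Classical in
theorem sfd_proof (h : BpiStatement) : SfdStatement := by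
  intro n l hl
  obtain ⟨ε, hε, hc⟩ := const_val hl h
  refine ⟨ε, hε, fun p w hw => ?_⟩
  have hb : ∀ (τ : Equiv.Perm (Fin n)) (x : Fin n → ℝ), bx (fun j =>
      p + ∑ i ∈ Finset.univ.filter (fun i : Fin n => (i : ℕ) < j), l (τ i)) x = bx (pa l τ) (x - p) :=
    fun τ x => bx_trans p (pa l τ) x
  obtain ⟨ρ, hρ⟩ := BT_bdd l
  choose r hr using fun τ : Equiv.Perm (Fin n) => bx_bdd (fun j : Fin (n + 1) =>
    p + ∑ i ∈ Finset.univ.filter (fun i : Fin n => (i : ℕ) < j), l (τ i))
  have g1 := fun τ : Equiv.Perm (Fin n) => gen hl (fun x => ((bx (fun j : Fin (n + 1) =>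
      p + ∑ i ∈ Finset.univ.filter (fun i : Fin n => (i : ℕ) < j), l (τ i)) x : ℝ) : ℂ)) 1 (r τ)
      (fun t => by rw [Complex.norm_real, Real.norm_eq_abs]; exact abs_bx_le _ _) (meas_cbx _)
      (fun t ht => hr τ t fun h0 => ht (by
        show ((bx (fun j : Fin (n + 1) => p + ∑ i ∈ Finset.univ.filter (fun i : Fin n => (i : ℕ) < j), l (τ i)) t : ℝ) : ℂ) = 0
        rw [h0]; rfl)) w hw
  obtain ⟨-, -, g2, -⟩ := gen hl (fun x => BT l (x - p)) _ (ρ + ‖p‖) (fun t => BT_norm _)
    (BT_meas.comp (measurable_id.sub_const _)) (fun t ht => by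
      have h1 := hρ _ ht
      calc ‖t‖ = ‖(t - p) + p‖ := by rw [sub_add_cancel]
        _ ≤ ‖t - p‖ + ‖p‖ := norm_add_le _ _
        _ ≤ ρ + ‖p‖ := by linarith) w hw
  refine ⟨fun τ => (g1 τ).2.1, ?_⟩
  have e1 : ∫ x, (∑' k, BT l (x - lv l k - p)) * w x = ε * ∫ x, w x := by
    rw [← integral_const_mul]
    refine integral_congr_ae (ae_of_all _ fun x => ?_)
    show (∑' k, BT l (x - lv l k - p)) * w x = ε * w x
    rw [← hc (x - p)]
    congr 1
    refine tsum_congr fun k => ?_
    rw [sub_right_comm]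
  rw [← e1, ← g2]
  show ∑ τ : Equiv.Perm (Fin n), ((Equiv.Perm.sign τ : ℤ) : ℂ) *
        ∑' k : Fin n → ℤ, ∫ x, ((bx (fun j =>
          p + ∑ i ∈ Finset.univ.filter (fun i : Fin n => (i : ℕ) < j), l (τ i)) x : ℝ) : ℂ) *
            w (x + lv l k) = ∑' k : Fin n → ℤ, ∫ x, BT l (x - p) * w (x + lv l k)
  have e2 : ∀ τ : Equiv.Perm (Fin n), ((Equiv.Perm.sign τ : ℤ) : ℂ) *
      ∑' k : Fin n → ℤ, ∫ x, ((bx (fun j =>
          p + ∑ i ∈ Finset.univ.filter (fun i : Fin n => (i : ℕ) < j), l (τ i)) x : ℝ) : ℂ) *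
            w (x + lv l k) = ∑' k : Fin n → ℤ, ((Equiv.Perm.sign τ : ℤ) : ℂ) *
      ∫ x, ((bx (fun j =>
          p + ∑ i ∈ Finset.univ.filter (fun i : Fin n => (i : ℕ) < j), l (τ i)) x : ℝ) : ℂ) *
            w (x + lv l k) := fun τ => tsum_mul_left.symm
  have e3 : ∀ τ : Equiv.Perm (Fin n), Summable fun k : Fin n → ℤ => ∫ x, ((bx (fun j =>
          p + ∑ i ∈ Finset.univ.filter (fun i : Fin n => (i : ℕ) < j), l (τ i)) x : ℝ) : ℂ) *
            w (x + lv l k) := fun τ =>
    Summable.of_norm_bounded (g1 τ).2.1 fun k => norm_integral_le_integral_norm _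
  rw [Finset.sum_congr rfl fun τ _ => e2 τ, ← Summable.tsum_finsetSum fun τ _ => (e3 τ).mul_left _]
  refine tsum_congr fun k => ?_
  rw [Finset.sum_congr rfl fun τ _ => (integral_const_mul _ _).symm,
    ← integral_finsetSum _ fun τ _ => ((g1 τ).1 k).const_mul _]
  refine integral_congr_ae (ae_of_all _ fun x => ?_)
  show ∑ τ : Equiv.Perm (Fin n), ((Equiv.Perm.sign τ : ℤ) : ℂ) * (((bx (fun j =>
          p + ∑ i ∈ Finset.univ.filter (fun i : Fin n => (i : ℕ) < j), l (τ i)) x : ℝ) : ℂ) *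
            w (x + lv l k)) = BT l (x - p) * w (x + lv l k)
  unfold BT
  rw [Finset.sum_mul]
  refine Finset.sum_congr rfl fun τ _ => ?_
  rw [hb, mul_assoc]

end Pool.Agent.Lib.MP_50bb2e_nt.Anf.Sfd
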