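import Pool.Agent.Lib.MP_50bb2e_nt.Anf.Iface

/-!
MP_50bb2e_nt, board ANF, row SUB: barycentric subdivision with midpoints. Paper: Anf/Paper.md
-/

set_option autoImplicit false

namespace Pool.Agent.Lib.MP_50bb2e_nt.Anf.Sub

open Finsupp

noncomputable section

variable {P : Type}

/-- chains of `n`-tuples -/
abbrev Ch (P : Type) (n : ℕ) := (Fin n → P) →₀ ℤ

/-- the `i`-th face -/
def face {n : ℕ} (i : Fin (n + 1)) (σ : Fin (n + 1) → P) : Fin n → P := fun j => σ (i.succAbove j)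

/-- the boundary as a linear map -/
def D (n : ℕ) : Ch P (n + 1) →ₗ[ℤ] Ch P n :=
  Finsupp.linearCombination ℤ (fun σ => ∑ i : Fin (n + 1), single (face i σ) ((-1 : ℤ) ^ (i : ℕ)))

theorem D_single {n : ℕ} (σ : Fin (n + 1) → P) :
    D n (single σ 1) = ∑ i : Fin (n + 1), single (face i σ) ((-1 : ℤ) ^ (i : ℕ)) := by
  simp [D]

theorem bd_eq {n : ℕ} (z : Ch P (n + 1)) : bd n z = D n z := by
  unfold bd D
  rw [Finsupp.linearCombination_apply]
  apply Finsupp.sum_congr
  intro σ _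
  rw [Finset.smul_sum]
  apply Finset.sum_congr rfl
  intro i _
  rw [Finsupp.smul_single, smul_eq_mul, mul_comm]
  rfl

/-- the cone -/
def cone (b : P) (n : ℕ) : Ch P n →ₗ[ℤ] Ch P (n + 1) :=
  Finsupp.lmapDomain ℤ ℤ (fun σ => (Fin.cons b σ : Fin (n + 1) → P))

theorem cone_single (b : P) {n : ℕ} (σ : Fin n → P) (k : ℤ) :
    cone b n (single σ k) = single (Fin.cons b σ : Fin (n + 1) → P) k := by
  simp [cone]

/-- two linear maps which agree on tuples are equal -/
theorem ext1 {n : ℕ} {M : Type} [AddCommGroup M] {f g : Ch P n →ₗ[ℤ] M}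
    (h : ∀ σ, f (single σ 1) = g (single σ 1)) (z : Ch P n) : f z = g z := by
  have : f = g := by
    apply Finsupp.lhom_ext'
    intro σ
    apply LinearMap.ext_ring
    exact h σ
  rw [this]

theorem face_zero_cons (b : P) {n : ℕ} (σ : Fin n → P) :
    face 0 (Fin.cons b σ : Fin (n + 1) → P) = σ := by
  funext j
  simp [face]

theorem face_succ_cons (b : P) {n : ℕ} (σ : Fin (n + 1) → P) (i : Fin (n + 1)) :
    face i.succ (Fin.cons b σ : Fin (n + 2) → P) = (Fin.cons b (face i σ) : Fin (n + 1) → P) := by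
  funext j
  refine Fin.cases ?_ (fun j => ?_) j
  · simp [face]
  · simp [face]

theorem D_cone_zero (b : P) (s : Ch P 0) : D 0 (cone b 0 s) = s := by
  have := ext1 (f := (D 0).comp (cone b 0)) (g := LinearMap.id) (fun σ => by
    rw [LinearMap.comp_apply, cone_single, D_single, Fin.sum_univ_one]
    simp only [LinearMap.id_apply]
    rw [show (0 : Fin 1) = 0 from rfl, face_zero_cons]
    simp) s
  simpa using this

theorem D_cone (b : P) (n : ℕ) (s : Ch P (n + 1)) :
    D (n + 1) (cone b (n + 1) s) = s - cone b n (D n s) := by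
  have := ext1 (f := (D (n + 1)).comp (cone b (n + 1)))
    (g := LinearMap.id - (cone b n).comp (D n)) (fun σ => by
    rw [LinearMap.comp_apply, cone_single, D_single, Fin.sum_univ_succ, face_zero_cons,
      LinearMap.sub_apply, LinearMap.comp_apply, D_single, map_sum]
    simp only [LinearMap.id_apply, Fin.val_zero, pow_zero, Fin.val_succ, pow_succ, mul_neg,
      mul_one, face_succ_cons, Finsupp.single_neg, Finset.sum_neg_distrib, cone_single]
    rw [sub_eq_add_neg]) s
  simpa using this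

theorem cone_tail {n : ℕ} (σ : Fin (n + 1) → P) :
    single σ (1 : ℤ) = cone (σ 0) n (single (Fin.tail σ) 1) := by
  rw [cone_single, Fin.cons_self_tail]

theorem D_D (n : ℕ) : ∀ z : Ch P (n + 2), D n (D (n + 1) z) = 0 := by
  induction n with
  | zero =>
    intro z
    refine ext1 (f := (D 0).comp (D 1)) (g := 0) (fun σ => ?_) z
    rw [LinearMap.comp_apply, cone_tail, D_cone, map_sub, D_cone_zero, sub_self,
      LinearMap.zero_apply]
  | succ n ih =>
    intro z
    refine ext1 (f := (D (n + 1)).comp (D (n + 2))) (g := 0) (fun σ => ?_) z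
    rw [LinearMap.comp_apply, cone_tail, D_cone, map_sub, D_cone, ih, map_zero, sub_zero, sub_self,
      LinearMap.zero_apply]

/-- the centre of a tuple -/
def bary (mid : P → P → P) : ∀ n : ℕ, (Fin (n + 1) → P) → P
  | 0, σ => σ 0
  | n + 1, σ => mid (bary mid n (fun i => σ i.castSucc)) (σ (Fin.last (n + 1)))

/-- the subdivision -/
def Sd (mid : P → P → P) : ∀ n : ℕ, Ch P n →ₗ[ℤ] Ch P n
  | 0 => LinearMap.id
  | n + 1 => Finsupp.linearCombination ℤ
      (fun σ => cone (bary mid n σ) n (Sd mid n (D n (single σ 1))))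

/-- the homotopy -/
def T (mid : P → P → P) : ∀ n : ℕ, Ch P n →ₗ[ℤ] Ch P (n + 1)
  | 0 => 0
  | n + 1 => Finsupp.linearCombination ℤ
      (fun σ => cone (bary mid n σ) (n + 1) (single σ 1 - T mid n (D n (single σ 1))))

variable (mid : P → P → P)

theorem Sd_single {n : ℕ} (σ : Fin (n + 1) → P) :
    Sd mid (n + 1) (single σ 1) = cone (bary mid n σ) n (Sd mid n (D n (single σ 1))) := by
  rw [Sd, Finsupp.linearCombination_single, one_smul]

theorem T_single {n : ℕ} (σ : Fin (n + 1) → P) :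
    T mid (n + 1) (single σ 1) =
      cone (bary mid n σ) (n + 1) (single σ 1 - T mid n (D n (single σ 1))) := by
  rw [T, Finsupp.linearCombination_single, one_smul]

theorem D_Sd (n : ℕ) : ∀ z : Ch P (n + 1), D n (Sd mid (n + 1) z) = Sd mid n (D n z) := by
  induction n with
  | zero =>
    intro z
    refine ext1 (f := (D 0).comp (Sd mid 1)) (g := (Sd mid 0).comp (D 0)) (fun σ => ?_) z
    rw [LinearMap.comp_apply, LinearMap.comp_apply, Sd_single, D_cone_zero]
  | succ n ih =>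
    intro z
    refine ext1 (f := (D (n + 1)).comp (Sd mid (n + 2))) (g := (Sd mid (n + 1)).comp (D (n + 1)))
      (fun σ => ?_) z
    rw [LinearMap.comp_apply, LinearMap.comp_apply, Sd_single, D_cone, ih, D_D, map_zero, map_zero,
      sub_zero]

theorem D_T (n : ℕ) : ∀ z : Ch P (n + 1),
    D (n + 1) (T mid (n + 1) z) = z - Sd mid (n + 1) z - T mid n (D n z) := by
  have key : ∀ n : ℕ, (∀ x : Ch P (n + 1), D n x - D n (T mid n (D n x)) = Sd mid n (D n x)) →
      ∀ z : Ch P (n + 1),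
        D (n + 1) (T mid (n + 1) z) = z - Sd mid (n + 1) z - T mid n (D n z) := by
    intro n h z
    refine ext1 (f := (D (n + 1)).comp (T mid (n + 1)))
      (g := LinearMap.id - Sd mid (n + 1) - (T mid n).comp (D n)) (fun σ => ?_) z
    rw [LinearMap.comp_apply, T_single, D_cone, map_sub, h, LinearMap.sub_apply,
      LinearMap.sub_apply, LinearMap.id_apply, LinearMap.comp_apply, Sd_single]
    abel
  induction n with
  | zero =>
    apply key
    intro x
    simp [T, Sd]
  | succ n ih =>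
    apply key
    intro x
    rw [ih, D_D, map_zero]
    abel

/-! ### supports -/

/-- tuples with all entries in `A` -/
def allIn (A : Set P) (n : ℕ) : Set (Fin n → P) := {σ | ∀ j, σ j ∈ A}

theorem map_supp {α β : Type} {s : Set α} {t : Set β} (f : (α →₀ ℤ) →ₗ[ℤ] (β →₀ ℤ))
    (h : ∀ a ∈ s, f (single a 1) ∈ Finsupp.supported ℤ ℤ t) {z : α →₀ ℤ}
    (hz : z ∈ Finsupp.supported ℤ ℤ s) : f z ∈ Finsupp.supported ℤ ℤ t := by
  rw [Finsupp.supported_eq_span_single] at hz
  induction hz using Submodule.span_induction with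
  | mem x hx =>
    obtain ⟨a, ha, rfl⟩ := hx
    exact h a ha
  | zero => rw [map_zero]; exact Submodule.zero_mem _
  | add x y _ _ hx hy => rw [map_add]; exact Submodule.add_mem _ hx hy
  | smul c x _ hx => rw [map_smul]; exact Submodule.smul_mem _ _ hx

theorem single_supp {α : Type} {s : Set α} {a : α} (k : ℤ) (ha : a ∈ s) :
    single a k ∈ Finsupp.supported ℤ ℤ s :=
  Finsupp.single_mem_supported ℤ k ha

theorem D_supp {n : ℕ} {s : Set (Fin (n + 1) → P)} {t : Set (Fin n → P)}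
    (h : ∀ σ ∈ s, ∀ i, face i σ ∈ t) {z : Ch P (n + 1)} (hz : z ∈ Finsupp.supported ℤ ℤ s) :
    D n z ∈ Finsupp.supported ℤ ℤ t := by
  refine map_supp (D n) (fun σ hσ => ?_) hz
  rw [D_single]
  exact Submodule.sum_mem _ (fun i _ => single_supp _ (h σ hσ i))

theorem cone_supp {n : ℕ} {b : P} {s : Set (Fin n → P)} {t : Set (Fin (n + 1) → P)}
    (h : ∀ σ ∈ s, (Fin.cons b σ : Fin (n + 1) → P) ∈ t) {z : Ch P n}
    (hz : z ∈ Finsupp.supported ℤ ℤ s) : cone b n z ∈ Finsupp.supported ℤ ℤ t := by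
  refine map_supp (cone b n) (fun σ hσ => ?_) hz
  rw [cone_single]
  exact single_supp _ (h σ hσ)

theorem face_allIn {A : Set P} {n : ℕ} {σ : Fin (n + 1) → P} (h : σ ∈ allIn A (n + 1))
    (i : Fin (n + 1)) : face i σ ∈ allIn A n := fun j => h (i.succAbove j)

theorem cons_allIn {A : Set P} {n : ℕ} {b : P} (hb : b ∈ A) {σ : Fin n → P}
    (h : σ ∈ allIn A n) : (Fin.cons b σ : Fin (n + 1) → P) ∈ allIn A (n + 1) := by
  intro j
  refine Fin.cases ?_ (fun j => ?_) j
  · simpa using hb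
  · simpa using h j

theorem bary_mem {A : Set P} (hA : ∀ x ∈ A, ∀ y ∈ A, mid x y ∈ A) (n : ℕ) :
    ∀ σ ∈ allIn A (n + 1), bary mid n σ ∈ A := by
  induction n with
  | zero => intro σ hσ; exact hσ 0
  | succ n ih =>
    intro σ hσ
    exact hA _ (ih _ (fun j => hσ j.castSucc)) _ (hσ (Fin.last (n + 1)))

theorem Sd_allIn {A : Set P} (hA : ∀ x ∈ A, ∀ y ∈ A, mid x y ∈ A) (n : ℕ) :
    ∀ z ∈ Finsupp.supported ℤ ℤ (allIn A n), Sd mid n z ∈ Finsupp.supported ℤ ℤ (allIn A n) := by
  induction n with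
  | zero => intro z hz; exact hz
  | succ n ih =>
    intro z hz
    refine map_supp (Sd mid (n + 1)) (fun σ hσ => ?_) hz
    rw [Sd_single]
    refine cone_supp (fun τ hτ => cons_allIn (bary_mem mid hA n σ hσ) hτ) (ih _ ?_)
    exact D_supp (fun τ hτ i => face_allIn hτ i) (single_supp 1 hσ)

theorem T_allIn {A : Set P} (hA : ∀ x ∈ A, ∀ y ∈ A, mid x y ∈ A) (n : ℕ) :
    ∀ z ∈ Finsupp.supported ℤ ℤ (allIn A n),
      T mid n z ∈ Finsupp.supported ℤ ℤ (allIn A (n + 1)) := by
  induction n with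
  | zero => intro z _; simp [T]
  | succ n ih =>
    intro z hz
    refine map_supp (T mid (n + 1)) (fun σ hσ => ?_) hz
    rw [T_single]
    refine cone_supp (fun τ hτ => cons_allIn (bary_mem mid hA n σ hσ) hτ)
      (Submodule.sub_mem _ (single_supp 1 hσ) (ih _ ?_))
    exact D_supp (fun τ hτ i => face_allIn hτ i) (single_supp 1 hσ)

/-! ### diameters -/

variable (d : P → P → ℝ)

/-- tuples of diameter at most `ε` -/
def sm (ε : ℝ) (n : ℕ) : Set (Fin n → P) := {σ | ∀ i j, d (σ i) (σ j) ≤ ε}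

variable {mid d}

theorem bary_dist (h0 : ∀ x, d x x = 0) (hn : ∀ x y, 0 ≤ d x y)
    (hm : ∀ z x y, d z (mid x y) ≤ (d z x + d z y) / 2) (n : ℕ) :
    ∀ (σ : Fin (n + 1) → P) (ε : ℝ), σ ∈ sm d ε (n + 1) → ∀ i,
      d (σ i) (bary mid n σ) ≤ (1 - (1 / 2) ^ n) * ε := by
  induction n with
  | zero =>
    intro σ ε _ i
    rw [Fin.fin_one_eq_zero i]
    simp [bary, h0]
  | succ n ih =>
    intro σ ε hσ i
    have hε : 0 ≤ ε := (hn _ _).trans (hσ 0 0)
    have hp : (0 : ℝ) ≤ (1 / 2) ^ n := by positivity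
    have hp1 : ((1 : ℝ) / 2) ^ n ≤ 1 := pow_le_one₀ (by norm_num) (by norm_num)
    have hb : bary mid (n + 1) σ =
        mid (bary mid n (fun i => σ i.castSucc)) (σ (Fin.last (n + 1))) := rfl
    have hσ' : (fun i : Fin (n + 1) => σ i.castSucc) ∈ sm d ε (n + 1) :=
      fun i j => hσ i.castSucc j.castSucc
    rw [hb]
    refine (hm _ _ _).trans ?_
    rw [pow_succ]
    refine Fin.lastCases ?_ (fun i => ?_) i
    · rw [h0]
      have hcl : bary mid n (fun i => σ i.castSucc) ∈ {y | d (σ (Fin.last (n + 1))) y ≤ ε} := by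
        apply bary_mem mid
        · intro x hx y hy
          have h1 := hm (σ (Fin.last (n + 1))) x y
          simp only [Set.mem_ofPred_eq] at hx hy ⊢
          linarith
        · intro j
          exact hσ _ _
      simp only [Set.mem_ofPred_eq] at hcl
      nlinarith
    · have h1 : d (σ i.castSucc) (bary mid n (fun i => σ i.castSucc)) ≤ (1 - (1 / 2) ^ n) * ε :=
        ih _ ε hσ' i
      have h2 := hσ i.castSucc (Fin.last (n + 1))
      nlinarith

theorem sm_mono {ε ε' : ℝ} (h : ε ≤ ε') {n : ℕ} {σ : Fin n → P} (hσ : σ ∈ sm d ε n) :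
    σ ∈ sm d ε' n := fun i j => (hσ i j).trans h

theorem Sd_sm (h0 : ∀ x, d x x = 0) (hn : ∀ x y, 0 ≤ d x y) (hs : ∀ x y, d x y = d y x)
    (hm : ∀ z x y, d z (mid x y) ≤ (d z x + d z y) / 2) (n : ℕ) :
    ∀ (ε : ℝ), ∀ z ∈ Finsupp.supported ℤ ℤ (sm d ε (n + 1)),
      Sd mid (n + 1) z ∈ Finsupp.supported ℤ ℤ (sm d ((1 - (1 / 2) ^ n) * ε) (n + 1)) := by
  induction n with
  | zero =>
    intro ε z hz
    refine map_supp (Sd mid 1) (fun σ _ => ?_) hz
    rw [Sd_single]
    refine cone_supp (s := Set.univ) (fun τ _ => ?_) (by simp)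
    intro i j
    rw [Fin.fin_one_eq_zero i, Fin.fin_one_eq_zero j, h0]
    simp
  | succ n ih =>
    intro ε z hz
    refine map_supp (Sd mid (n + 2)) (fun σ hσ => ?_) hz
    rw [Sd_single]
    have hε : 0 ≤ ε := (hn _ _).trans (hσ 0 0)
    set b := bary mid (n + 1) σ with hb
    set r : ℝ := (1 - (1 / 2) ^ (n + 1)) * ε with hr
    have hp : (0 : ℝ) ≤ (1 / 2) ^ n := by positivity
    have hp1 : ((1 : ℝ) / 2) ^ n ≤ 1 := pow_le_one₀ (by norm_num) (by norm_num)
    have hr0 : 0 ≤ r := by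
      rw [hr, pow_succ]
      nlinarith
    have hrr : (1 - (1 / 2) ^ n) * ε ≤ r := by
      rw [hr, pow_succ]
      nlinarith
    have h1 : Sd mid (n + 1) (D (n + 1) (single σ 1)) ∈
        Finsupp.supported ℤ ℤ (sm d ((1 - (1 / 2) ^ n) * ε) (n + 1)) :=
      ih ε _ (D_supp (s := sm d ε (n + 2)) (t := sm d ε (n + 1))
        (fun τ hτ i j k => hτ _ _) (single_supp 1 hσ))
    have h2 : Sd mid (n + 1) (D (n + 1) (single σ 1)) ∈
        Finsupp.supported ℤ ℤ (allIn {y | d b y ≤ r} (n + 1)) := by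
      apply Sd_allIn mid
      · intro x hx y hy
        have h3 := hm b x y
        simp only [Set.mem_ofPred_eq] at hx hy ⊢
        linarith
      · refine D_supp (fun τ hτ i => face_allIn hτ i) (single_supp 1 ?_)
        intro j
        simp only [Set.mem_ofPred_eq]
        rw [hs]
        exact bary_dist h0 hn hm (n + 1) σ ε hσ j
    have h3 : Sd mid (n + 1) (D (n + 1) (single σ 1)) ∈ Finsupp.supported ℤ ℤ
        (sm d ((1 - (1 / 2) ^ n) * ε) (n + 1) ∩ allIn {y | d b y ≤ r} (n + 1)) := by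
      rw [Finsupp.mem_supported] at h1 h2 ⊢
      exact Set.subset_inter h1 h2
    refine cone_supp (fun τ hτ => ?_) h3
    intro i j
    refine Fin.cases ?_ (fun i => ?_) i
    · refine Fin.cases ?_ (fun j => ?_) j
      · simpa [h0] using hr0
      · simpa using hτ.2 j
    · refine Fin.cases ?_ (fun j => ?_) j
      · simp only [Fin.cons_succ, Fin.cons_zero]
        rw [hs]
        exact hτ.2 i
      · simp only [Fin.cons_succ]
        exact (hτ.1 i j).trans hrr

theorem sub_proof : SubStatement := by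
  intro V P R mid d hP h0 hn hs hm hR hleb
  obtain ⟨x0⟩ := hP
  refine ⟨?_, ?_⟩
  · obtain ⟨δ, hδ, h⟩ := hleb x0 0
    obtain ⟨c, hc⟩ := h {x0} (by simp [h0]) (by simp [h0, hδ])
    exact ⟨x0, c, fun _ => hc x0 (by simp)⟩
  intro q z hz hbz
  -- the small tuples
  set Q : ∀ n : ℕ, Set (Fin n → P) := fun n => {σ | ∃ c, ∀ j, R c (σ j)} with hQ
  have hzQ : z ∈ Finsupp.supported ℤ ℤ (Q (q + 1)) := by
    rw [Finsupp.mem_supported]
    intro σ hσ
    exact hz σ hσ
  rw [bd_eq] at hbz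
  have hcl : ∀ c : V, ∀ x ∈ {x | R c x}, ∀ y ∈ {x | R c x}, mid x y ∈ {x | R c x} :=
    fun c x hx y hy => hR c x y hx hy
  have hsub : ∀ (c : V) (n : ℕ), allIn {x | R c x} n ⊆ Q n := fun c n σ hσ => ⟨c, hσ⟩
  have hSdQ : ∀ (n : ℕ), ∀ y ∈ Finsupp.supported ℤ ℤ (Q n),
      Sd mid n y ∈ Finsupp.supported ℤ ℤ (Q n) := by
    intro n y hy
    refine map_supp (Sd mid n) (fun σ hσ => ?_) hy
    obtain ⟨c, hc⟩ := hσ
    exact Finsupp.supported_mono (hsub c n) (Sd_allIn mid (hcl c) n _ (single_supp 1 hc))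
  have hTQ : ∀ (n : ℕ), ∀ y ∈ Finsupp.supported ℤ ℤ (Q n),
      T mid n y ∈ Finsupp.supported ℤ ℤ (Q (n + 1)) := by
    intro n y hy
    refine map_supp (T mid n) (fun σ hσ => ?_) hy
    obtain ⟨c, hc⟩ := hσ
    exact Finsupp.supported_mono (hsub c (n + 1)) (T_allIn mid (hcl c) n _ (single_supp 1 hc))
  -- the filling
  set w := cone x0 (q + 1) z with hw
  have hDw : D (q + 1) w = z := by
    rw [hw, D_cone, hbz, map_zero, sub_zero]
  -- bounds for `w`
  obtain ⟨ρ, hρ⟩ : ∃ ρ : ℝ, ∀ σ ∈ w.support, ∀ j, d x0 (σ j) ≤ ρ := by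
    obtain ⟨ρ, hρ⟩ := ((w.support ×ˢ (Finset.univ : Finset (Fin (q + 2)))).image
        (fun p => d x0 (p.1 p.2))).bddAbove
    refine ⟨ρ, fun σ hσ j => hρ ?_⟩
    simp only [Finset.coe_image, Set.mem_image, Finset.mem_coe, Finset.mem_product,
      Finset.mem_univ, and_true]
    exact ⟨(σ, j), hσ, rfl⟩
  obtain ⟨ε, hε⟩ : ∃ ε : ℝ, ∀ σ ∈ w.support, σ ∈ sm d ε (q + 2) := by
    obtain ⟨ε, hε⟩ := (((w.support ×ˢ ((Finset.univ : Finset (Fin (q + 2))) ×ˢ
      (Finset.univ : Finset (Fin (q + 2))))).image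
        (fun p => d (p.1 p.2.1) (p.1 p.2.2))).bddAbove)
    refine ⟨ε, fun σ hσ i j => hε ?_⟩
    simp only [Finset.coe_image, Set.mem_image, Finset.mem_coe, Finset.mem_product,
      Finset.mem_univ, and_true]
    exact ⟨(σ, i, j), hσ, rfl⟩
  obtain ⟨δ, hδ, hleb'⟩ := hleb x0 ρ
  set lam : ℝ := 1 - (1 / 2) ^ (q + 1) with hlam
  have hlam0 : 0 ≤ lam := by
    rw [hlam]
    have : ((1 : ℝ) / 2) ^ (q + 1) ≤ 1 := pow_le_one₀ (by norm_num) (by norm_num)
    linarith
  have hlam1 : lam < 1 := by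
    rw [hlam]
    have : (0 : ℝ) < (1 / 2) ^ (q + 1) := by positivity
    linarith
  obtain ⟨k, hk⟩ : ∃ k : ℕ, lam ^ k * ε < δ := by
    have h1 : Filter.Tendsto (fun k : ℕ => lam ^ k * ε) Filter.atTop (nhds (0 * ε)) :=
      (tendsto_pow_atTop_nhds_zero_of_lt_one hlam0 hlam1).mul_const ε
    rw [zero_mul] at h1
    exact ((h1.eventually (gt_mem_nhds hδ)).exists)
  -- iterated subdivision
  have hball : ∀ x ∈ {y | d x0 y ≤ ρ}, ∀ y ∈ {y | d x0 y ≤ ρ}, mid x y ∈ {y | d x0 y ≤ ρ} := by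
    intro x hx y hy
    have h3 := hm x0 x y
    simp only [Set.mem_ofPred_eq] at hx hy ⊢
    linarith
  have hwk : ∀ k : ℕ, (Sd mid (q + 2))^[k] w ∈
      Finsupp.supported ℤ ℤ (sm d (lam ^ k * ε) (q + 2) ∩ allIn {y | d x0 y ≤ ρ} (q + 2)) := by
    intro k
    induction k with
    | zero =>
      rw [Function.iterate_zero, id, Finsupp.mem_supported]
      intro σ hσ
      refine ⟨?_, fun j => hρ σ hσ j⟩
      rw [pow_zero, one_mul]
      exact hε σ hσ
    | succ k ih =>
      rw [Function.iterate_succ', Function.comp_apply]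
      have h1 := Sd_sm h0 hn hs hm (q + 1) (lam ^ k * ε) _
        (Finsupp.supported_mono Set.inter_subset_left ih)
      have h2 := Sd_allIn mid hball (q + 2) _ (Finsupp.supported_mono Set.inter_subset_right ih)
      have e : (1 - (1 / 2 : ℝ) ^ (q + 1)) * (lam ^ k * ε) = lam ^ (k + 1) * ε := by
        rw [← hlam]; ring
      rw [e] at h1
      rw [Finsupp.mem_supported] at h1 h2 ⊢
      exact Set.subset_inter h1 h2
  have hwQ : (Sd mid (q + 2))^[k] w ∈ Finsupp.supported ℤ ℤ (Q (q + 2)) := by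
    classical
    refine Finsupp.supported_mono ?_ (hwk k)
    intro σ hσ
    obtain ⟨c, hc⟩ := hleb' (Finset.univ.image σ) (by
      intro y hy
      rw [Finset.mem_image] at hy
      obtain ⟨j, _, rfl⟩ := hy
      exact hσ.2 j) (by
      intro y hy y' hy'
      rw [Finset.mem_image] at hy hy'
      obtain ⟨j, _, rfl⟩ := hy
      obtain ⟨j', _, rfl⟩ := hy'
      exact (hσ.1 j j').trans_lt hk)
    exact ⟨c, fun j => hc _ (Finset.mem_image_of_mem _ (Finset.mem_univ j))⟩
  have hDk : ∀ k : ℕ, D (q + 1) ((Sd mid (q + 2))^[k] w) = (Sd mid (q + 1))^[k] z := by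
    intro k
    induction k with
    | zero => simpa using hDw
    | succ k ih =>
      rw [Function.iterate_succ', Function.comp_apply, D_Sd, ih, Function.iterate_succ',
        Function.comp_apply]
  have hcyc : ∀ k : ℕ, D q ((Sd mid (q + 1))^[k] z) = 0 := by
    intro k
    induction k with
    | zero => simpa using hbz
    | succ k ih =>
      rw [Function.iterate_succ', Function.comp_apply, D_Sd, ih, map_zero]
  have hzk : ∀ k : ℕ, (Sd mid (q + 1))^[k] z ∈ Finsupp.supported ℤ ℤ (Q (q + 1)) := by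
    intro k
    induction k with
    | zero => simpa using hzQ
    | succ k ih =>
      rw [Function.iterate_succ', Function.comp_apply]
      exact hSdQ _ _ ih
  have htel : ∀ k : ℕ, ∃ y ∈ Finsupp.supported ℤ ℤ (Q (q + 2)),
      D (q + 1) y = z - (Sd mid (q + 1))^[k] z := by
    intro k
    induction k with
    | zero => exact ⟨0, Submodule.zero_mem _, by simp⟩
    | succ k ih =>
      obtain ⟨y, hy, hDy⟩ := ih
      refine ⟨y + T mid (q + 1) ((Sd mid (q + 1))^[k] z), Submodule.add_mem _ hy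
        (hTQ _ _ (hzk k)), ?_⟩
      rw [map_add, hDy, D_T, hcyc, map_zero, Function.iterate_succ', Function.comp_apply]
      abel
  obtain ⟨y, hy, hDy⟩ := htel k
  refine ⟨y + (Sd mid (q + 2))^[k] w, ?_, ?_⟩
  · have h1 := Submodule.add_mem _ hy hwQ
    rw [Finsupp.mem_supported] at h1
    intro σ hσ
    exact h1 hσ
  · rw [bd_eq, map_add, hDy, hDk]
    abel

end

end Pool.Agent.Lib.MP_50bb2e_nt.Anf.Sub
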