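import Pool.Agent.Lib.MP_50bb2e_nt.Anf.Iface

/-!
MP_50bb2e_nt, board ANF, row TRC: the additive character and the restriction of `Th` to a vertical
torus.
-/

namespace Pool.Agent.Lib.MP_50bb2e_nt.Anf.Trc

open NumberField NumberField.InfinitePlace Complex
open scoped nonZeroDivisors
open Pool.Agent.Lib.MP_50bb2e_nt.Imq (FI)
open Pool.Agent.Lib.MP_50bb2e_nt.Anf

noncomputable section

variable {K : Type} [Field K] [NumberField K]

theorem re_of_mk (φ : K →+* ℂ) (v : InfinitePlace K) (h : InfinitePlace.mk φ = v) (x : K) :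
    (φ x).re = (v.embedding x).re := by
  rw [← mk_embedding v, mk_eq_iff] at h
  rcases h with h | h
  · rw [h]
  · rw [← h, ComplexEmbedding.conjugate_coe_eq, conj_re]

theorem trace_re (x : K) : ((Algebra.trace ℚ K x : ℚ) : ℝ) =
    ∑ v : InfinitePlace K, (v.mult : ℝ) * (v.embedding x).re := by
  classical
  have h1 : ((Algebra.trace ℚ K x : ℚ) : ℂ) = ∑ φ : K →+* ℂ, φ x := by
    have h := trace_eq_sum_embeddings (K := ℚ) (L := K) ℂ (x := x)
    rw [eq_ratCast] at h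
    rw [h]
    exact (Fintype.sum_equiv (RingHom.equivRatAlgHom K ℂ) (fun f => f x) (fun f => f x)
      (fun f => rfl)).symm
  have h2 := congrArg Complex.re h1
  rw [Complex.re_sum] at h2
  have h3 : (((Algebra.trace ℚ K x : ℚ) : ℂ)).re = ((Algebra.trace ℚ K x : ℚ) : ℝ) := by
    rw [← Complex.ofReal_ratCast, Complex.ofReal_re]
  rw [h3] at h2
  rw [h2, ← Finset.univ.sum_fiberwise (fun φ : K →+* ℂ => InfinitePlace.mk φ)]
  refine Finset.sum_congr rfl fun v _ => ?_
  rw [Finset.sum_congr rfl (fun φ hφ => re_of_mk φ v (Finset.mem_filter.1 hφ).2 x),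
    Finset.sum_const, nsmul_eq_mul]
  congr 2
  rw [← card_filter_mk_eq v]

theorem chK_add (x y : K) : chK (x + y) = chK x * chK y := by
  unfold chK
  rw [map_add, ← Complex.exp_add]
  congr 1
  push_cast
  ring

theorem chK_norm (x : K) : ‖chK x‖ = 1 := by
  unfold chK
  rw [← Complex.ofReal_ratCast, mul_comm (2 * (Real.pi : ℂ) * I)]
  have : ((((Algebra.trace ℚ K x : ℚ) : ℝ) : ℂ) * (2 * (Real.pi : ℂ) * I)) =
      ((((Algebra.trace ℚ K x : ℚ) : ℝ) * (2 * Real.pi) : ℝ) : ℂ) * I := by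
    push_cast
    ring
  rw [this, Complex.norm_exp_ofReal_mul_I]

theorem chK_one (A : FI K) (x y : K) (hx : InD ⊤ A x)
    (hy : y ∈ ((A⁻¹ : FI K) : FractionalIdeal (𝓞 K)⁰ K)) : chK (x * y) = 1 := by
  unfold InD at hx
  rw [FractionalIdeal.coeIdeal_top, coeIdeal_differentIdeal ℤ ℚ K (𝓞 K)] at hx
  have hdual : FractionalIdeal.dual ℤ ℚ (1 : FractionalIdeal (𝓞 K)⁰ K) ≠ 0 :=
    FractionalIdeal.dual_ne_zero ℤ ℚ one_ne_zero
  have h1 := mul_le_mul_left hx (FractionalIdeal.dual ℤ ℚ (1 : FractionalIdeal (𝓞 K)⁰ K))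
  rw [one_mul, mul_assoc, inv_mul_cancel₀ hdual, mul_one] at h1
  have h2 : x * y ∈ FractionalIdeal.dual ℤ ℚ (1 : FractionalIdeal (𝓞 K)⁰ K) :=
    h1 (FractionalIdeal.mul_mem_mul (FractionalIdeal.mem_spanSingleton_self _ _) hy)
  have hone : (1 : FractionalIdeal (𝓞 K)⁰ K) ≠ 0 := one_ne_zero
  rw [FractionalIdeal.mem_dual hone] at h2
  obtain ⟨m, hm⟩ := h2 1 (FractionalIdeal.one_mem_one _)
  rw [Algebra.traceForm_apply, mul_one] at hm
  unfold chK
  rw [← hm]
  have : (2 * (Real.pi : ℂ) * I * (((algebraMap ℤ ℚ m : ℚ)) : ℂ)) = (m : ℂ) * (2 * Real.pi * I) := by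
    rw [eq_intCast]
    push_cast
    ring
  rw [this]
  exact Complex.exp_int_mul_two_pi_mul_I m

theorem prod_exp (ξ r : K) : ∏ v : InfinitePlace K,
    exp (2 * Real.pi * I * ((v.mult : ℝ) * (v.embedding ξ * v.embedding r).re : ℝ)) = chK (ξ * r) := by
  rw [← Complex.exp_sum]
  unfold chK
  congr 1
  rw [← Finset.mul_sum]
  congr 1
  rw [← Complex.ofReal_sum, ← Complex.ofReal_ratCast, trace_re]
  congr 1
  refine Finset.sum_congr rfl fun v _ => ?_
  rw [map_mul]

theorem trc_proof : TrcStatement := by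
  intro K _ _
  refine ⟨fun x y => ⟨chK_add x y, chK_norm x⟩, chK_one, fun a r η => ?_⟩
  unfold Th ff
  refine tsum_congr fun ξ => ?_
  by_cases hξ : ξ = 0
  · rw [if_pos hξ, if_pos hξ]
  rw [if_neg hξ, if_neg hξ]
  simp only
  by_cases hT : TPos ξ
  · rw [if_pos hT]
    have h1 : ∏ v : InfinitePlace K, ker v ξ (v.embedding r, Real.exp (η v)) =
        (∏ v : InfinitePlace K, ((rad v (v ξ * Real.exp (η v)) : ℝ) : ℂ)) * chK (ξ * r) := by
      rw [← prod_exp, ← Finset.prod_mul_distrib]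
      refine Finset.prod_congr rfl fun v _ => ?_
      unfold ker
      rw [if_neg]
      rintro ⟨h2, h3⟩
      exact h3 (hT v h2)
    rw [h1]
    ring
  · rw [if_neg hT]
    unfold TPos at hT
    push Not at hT
    obtain ⟨v, hv, hv'⟩ := hT
    have h1 : ∏ v : InfinitePlace K, ker v ξ (v.embedding r, Real.exp (η v)) = 0 := by
      apply Finset.prod_eq_zero (Finset.mem_univ v)
      unfold ker
      rw [if_pos ⟨hv, not_lt.2 hv'⟩]
    rw [h1]
    simp

end

end Pool.Agent.Lib.MP_50bb2e_nt.Anf.Trc
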