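import Pool.Agent.Lib.MP_50bb2e_nt.Anf.Iface

/-!
MP_50bb2e_nt, board ANF, row UBAL: the logarithmic lattice of the units is cocompact.
-/

namespace Pool.Agent.Lib.MP_50bb2e_nt.Anf.Ubal

open NumberField NumberField.InfinitePlace NumberField.Units NumberField.Units.dirichletUnitTheorem
open Pool.Agent.Lib.MP_50bb2e_nt.Anf

theorem ubal_proof : UbalStatement := by
  intro K _ _
  classical
  set b : Module.Basis (Fin (rank K)) ℝ (logSpace K) :=
    (basisUnitLattice K).ofZLatticeBasis ℝ (unitLattice K) with hb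
  have hspan : Submodule.span ℤ (Set.range b) = unitLattice K :=
    Module.Basis.ofZLatticeBasis_span ℝ (unitLattice K) (basisUnitLattice K)
  set C0 : ℝ := ∑ i, ‖b i‖ with hC0
  have hC00 : 0 ≤ C0 := Finset.sum_nonneg fun i _ => norm_nonneg _
  refine ⟨(Fintype.card {w : InfinitePlace K // w ≠ w₀} + 1) * C0, fun t ht => ?_⟩
  set s : logSpace K := fun w => (mult w.1 : ℝ) * t w.1 with hs
  have hmem : ((ZSpan.floor b s : Submodule.span ℤ (Set.range b)) : logSpace K) ∈ unitLattice K := by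
    rw [← hspan]
    exact (ZSpan.floor b s).2
  obtain ⟨a, -, ha⟩ := hmem
  have hfr : ‖s - (logEmbedding K) a‖ ≤ C0 := by
    have h1 : s - (logEmbedding K) a = ZSpan.fract b s := by
      rw [ZSpan.fract_apply, ← ha]
      rfl
    rw [h1]
    exact ZSpan.norm_fract_le b s
  have hw : ∀ w : {w : InfinitePlace K // w ≠ w₀},
      |(mult w.1 : ℝ) * t w.1 - (mult w.1 : ℝ) * Real.log (w.1 ((a.toMul : (𝓞 K)ˣ) : K))| ≤ C0 := by
    intro w
    have h1 := (norm_le_pi_norm (s - (logEmbedding K) a) w).trans hfr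
    rw [Real.norm_eq_abs] at h1
    exact h1
  have hsum := sum_logEmbedding_component (a.toMul : (𝓞 K)ˣ)
  have hts : ∑ w : {w : InfinitePlace K // w ≠ w₀}, (mult w.1 : ℝ) * t w.1 =
      - (mult (w₀ : InfinitePlace K) : ℝ) * t w₀ := by
    rw [Fintype.sum_eq_add_sum_subtype_ne _ w₀] at ht
    linarith
  have hmul : ∀ (w : InfinitePlace K) (x C : ℝ), |(mult w : ℝ) * x| ≤ C → |x| ≤ C := by
    intro w x C h
    have h1 : (1 : ℝ) ≤ (mult w : ℝ) := one_le_mult
    rw [abs_mul, abs_of_nonneg (by linarith : (0 : ℝ) ≤ (mult w : ℝ))] at h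
    nlinarith [abs_nonneg x]
  refine ⟨a.toMul, fun v => ?_⟩
  by_cases hv : v = w₀
  · subst hv
    apply hmul w₀
    have h1 : (mult (w₀ : InfinitePlace K) : ℝ) * (Real.log (w₀ ((a.toMul : (𝓞 K)ˣ) : K)) - t w₀) =
        ∑ w : {w : InfinitePlace K // w ≠ w₀},
          ((mult w.1 : ℝ) * t w.1 - (mult w.1 : ℝ) * Real.log (w.1 ((a.toMul : (𝓞 K)ˣ) : K))) := by
      rw [Finset.sum_sub_distrib, hts]
      simp only [logEmbedding_component] at hsum
      rw [hsum]
      ring
    rw [h1]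
    refine (Finset.abs_sum_le_sum_abs _ _).trans ?_
    refine (Finset.sum_le_sum fun w _ => hw w).trans ?_
    rw [Finset.sum_const, nsmul_eq_mul, Finset.card_univ]
    nlinarith
  · have h1 := hw ⟨v, hv⟩
    simp only at h1
    rw [← mul_sub] at h1
    have h2 := hmul v _ _ h1
    rw [abs_sub_comm] at h2
    have h3 : (0 : ℝ) ≤ (Fintype.card {w : InfinitePlace K // w ≠ w₀} : ℝ) := Nat.cast_nonneg _
    nlinarith

end Pool.Agent.Lib.MP_50bb2e_nt.Anf.Ubal
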