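import Pool.Agent.Lib.MP_50bb2e_nt.Anf.Iface

/-!
MP_50bb2e_nt, board ANF, row UNI: the totally positive units congruent to one modulo `D`.
-/

namespace Pool.Agent.Lib.MP_50bb2e_nt.Anf.Uni

open NumberField NumberField.Units NumberField.Units.dirichletUnitTheorem Module

noncomputable section

variable {K : Type} [Field K] [NumberField K]

omit [NumberField K] in
theorem real_im {v : InfinitePlace K} (hv : v.IsReal) (x : K) : (v.embedding x).im = 0 := by
  have h := InfinitePlace.isReal_iff.1 hv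
  have h1 : starRingEnd ℂ (v.embedding x) = v.embedding x := by
    have := RingHom.congr_fun h x
    rwa [ComplexEmbedding.conjugate_coe_eq] at this
  exact Complex.conj_eq_iff_im.1 h1

omit [NumberField K] in
theorem tpos_one : TPos (1 : K) := by
  intro v _
  rw [map_one, Complex.one_re]
  exact one_pos

omit [NumberField K] in
theorem tpos_mul {x y : K} (hx : TPos x) (hy : TPos y) : TPos (x * y) := by
  intro v hv
  rw [map_mul, Complex.mul_re, real_im hv, zero_mul, sub_zero]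
  exact mul_pos (hx v hv) (hy v hv)

omit [NumberField K] in
theorem tpos_inv {x : K} (hx : TPos x) : TPos x⁻¹ := by
  intro v hv
  rw [map_inv₀, Complex.inv_re]
  have h1 := hx v hv
  refine div_pos h1 (Complex.normSq_pos.2 ?_)
  intro h0
  rw [h0, Complex.zero_re] at h1
  exact lt_irrefl _ h1

omit [NumberField K] in
theorem tpos_sq {x : K} (hx : x ≠ 0) : TPos (x ^ 2) := by
  intro v hv
  rw [map_pow, sq, Complex.mul_re, real_im hv, zero_mul, sub_zero]
  refine mul_self_pos.2 ?_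
  intro h0
  have h1 : v.embedding x = 0 := Complex.ext h0 (real_im hv x)
  exact hx ((map_eq_zero _).1 h1)

/-- the group of the totally positive units congruent to one -/
def UP (D : Ideal (𝓞 K)) : Subgroup (𝓞 K)ˣ where
  carrier := {x | ((x : 𝓞 K) - 1) ∈ D ∧ TPos ((x : 𝓞 K) : K)}
  mul_mem' := by
    rintro x y ⟨hx, hx'⟩ ⟨hy, hy'⟩
    refine ⟨?_, ?_⟩
    · have h1 : (((x * y : (𝓞 K)ˣ) : 𝓞 K) - 1) = (x : 𝓞 K) * ((y : 𝓞 K) - 1) + ((x : 𝓞 K) - 1) := by
        rw [Units.val_mul]; ring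
      rw [h1]
      exact D.add_mem (D.mul_mem_left _ hy) hx
    · have h1 : (((x * y : (𝓞 K)ˣ) : 𝓞 K) : K) = ((x : 𝓞 K) : K) * ((y : 𝓞 K) : K) :=
        NumberField.Units.coe_mul x y
      rw [h1]
      exact tpos_mul hx' hy'
  one_mem' := by
    refine ⟨?_, ?_⟩
    · rw [Units.val_one, sub_self]
      exact D.zero_mem
    · have h1 : (((1 : (𝓞 K)ˣ) : 𝓞 K) : K) = 1 := NumberField.Units.coe_one (K := K)
      rw [h1]
      exact tpos_one
  inv_mem' := by
    rintro x ⟨hx, hx'⟩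
    refine ⟨?_, ?_⟩
    · have h1 : (((x⁻¹ : (𝓞 K)ˣ) : 𝓞 K) - 1) = -(((x⁻¹ : (𝓞 K)ˣ) : 𝓞 K) * ((x : 𝓞 K) - 1)) := by
        rw [mul_sub, ← Units.val_mul, inv_mul_cancel, Units.val_one]; ring
      rw [h1]
      exact D.neg_mem (D.mul_mem_left _ hx)
    · have h1 : (((x⁻¹ : (𝓞 K)ˣ) : 𝓞 K) : K) = (((x : 𝓞 K) : K))⁻¹ := by
        have h2 := NumberField.Units.coe_mul x⁻¹ x
        rw [inv_mul_cancel, NumberField.Units.coe_one] at h2
        exact eq_inv_of_mul_eq_one_left h2.symm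
      rw [h1]
      exact tpos_inv hx'

omit [NumberField K] in
theorem mem_UP {D : Ideal (𝓞 K)} {x : (𝓞 K)ˣ} :
    x ∈ UP D ↔ ((x : 𝓞 K) - 1) ∈ D ∧ TPos ((x : 𝓞 K) : K) := Iff.rfl

/-- a common exponent -/
theorem exists_pow {D : Ideal (𝓞 K)} (hD : D ≠ ⊥) :
    ∃ n : ℕ, 0 < n ∧ ∀ x : (𝓞 K)ˣ, x ^ n ∈ UP D := by
  have hfin : Finite (𝓞 K ⧸ D) := Ideal.finiteQuotientOfFreeOfNeBot D hD
  have hfin2 : Finite (𝓞 K ⧸ D)ˣ := inferInstance
  obtain ⟨m, hm⟩ : ∃ m, m = Nat.card (𝓞 K ⧸ D)ˣ := ⟨_, rfl⟩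
  have hm0 : 0 < m := by rw [hm]; exact Nat.card_pos
  refine ⟨m * 2, by omega, fun x => ?_⟩
  rw [mem_UP]
  have h1 : (((x ^ m : (𝓞 K)ˣ) : 𝓞 K) - 1) ∈ D := by
    rw [← Ideal.Quotient.eq, map_one]
    have h2 : (Units.map (Ideal.Quotient.mk D : 𝓞 K →* 𝓞 K ⧸ D) x) ^ m = 1 := by
      rw [hm]; exact pow_card_eq_one'
    have h3 := congrArg (fun y : (𝓞 K ⧸ D)ˣ => (y : 𝓞 K ⧸ D)) h2
    simp only [Units.val_pow_eq_pow_val, Units.coe_map, Units.val_one] at h3
    rw [Units.val_pow_eq_pow_val, map_pow]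
    exact h3
  constructor
  · rw [pow_mul]
    have h2 : (((x ^ m) ^ 2 : (𝓞 K)ˣ) : 𝓞 K) - 1 =
        (((x ^ m : (𝓞 K)ˣ) : 𝓞 K) + 1) * ((((x ^ m : (𝓞 K)ˣ) : 𝓞 K)) - 1) := by
      rw [Units.val_pow_eq_pow_val]; ring
    rw [h2]
    exact D.mul_mem_left _ h1
  · have h2 : (((x ^ (m * 2) : (𝓞 K)ˣ) : 𝓞 K) : K) = (((x ^ m : (𝓞 K)ˣ) : 𝓞 K) : K) ^ 2 := by
      rw [pow_mul]
      exact NumberField.Units.coe_pow (x ^ m) 2
    rw [h2]
    exact tpos_sq (NumberField.Units.coe_ne_zero _)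

/-- the lattice of the group `UP D` -/
def LP (D : Ideal (𝓞 K)) : Submodule ℤ (logSpace K) :=
  Submodule.map (logEmbedding K).toIntLinearMap (AddSubgroup.toIntSubmodule (UP D).toAddSubgroup)

theorem mem_LP {D : Ideal (𝓞 K)} {y : logSpace K} :
    y ∈ LP D ↔ ∃ x ∈ UP D, logEmbedding K (Additive.ofMul x) = y := by
  unfold LP
  rw [Submodule.mem_map]
  constructor
  · rintro ⟨x, hx, rfl⟩
    exact ⟨x.toMul, hx, rfl⟩
  · rintro ⟨x, hx, rfl⟩
    exact ⟨Additive.ofMul x, hx, rfl⟩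

theorem LP_le (D : Ideal (𝓞 K)) : LP D ≤ unitLattice K := by
  unfold LP unitLattice
  exact Submodule.map_mono le_top

instance LP_discrete (D : Ideal (𝓞 K)) : DiscreteTopology (LP D) := by
  have h : DiscreteTopology (unitLattice K) := inferInstance
  exact DiscreteTopology.of_subset (s := (unitLattice K : Set (logSpace K))) h (LP_le D)

theorem LP_span {D : Ideal (𝓞 K)} (hD : D ≠ ⊥) :
    Submodule.span ℝ (LP D : Set (logSpace K)) = ⊤ := by
  classical
  obtain ⟨n, hn, h⟩ := exists_pow hD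
  rw [eq_top_iff, ← unitLattice_span_eq_top K, Submodule.span_le]
  rintro y ⟨x, -, rfl⟩
  have h1 : logEmbedding K (Additive.ofMul (x.toMul ^ n)) ∈ LP D :=
    mem_LP.2 ⟨_, h _, rfl⟩
  have h2 : logEmbedding K (Additive.ofMul (x.toMul ^ n)) = (n : ℝ) • logEmbedding K x := by
    rw [ofMul_pow, map_nsmul, ofMul_toMul, Nat.cast_smul_eq_nsmul]
  have h3 : (logEmbedding K).toIntLinearMap x = ((n : ℝ)⁻¹) • ((n : ℝ) • logEmbedding K x) := by
    rw [smul_smul, inv_mul_cancel₀ (by exact_mod_cast hn.ne'), one_smul]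
    rfl
  rw [h3, ← h2]
  exact Submodule.smul_mem _ _ (Submodule.subset_span h1)

theorem exists_basis {D : Ideal (𝓞 K)} (hD : D ≠ ⊥) {N : ℕ}
    (hN : Nonempty (Fin (N + 1) ≃ InfinitePlace K)) :
    ∃ (b : Basis (Fin N) ℤ (LP D)) (b' : Basis (Fin N) ℝ (logSpace K)), ∀ i, b' i = b i := by
  classical
  have hz : IsZLattice ℝ (LP D) := { span_top := LP_span hD }
  have hfree : Module.Free ℤ (LP D) := ZLattice.module_free ℝ (LP D)
  have hfinite : Module.Finite ℤ (LP D) := ZLattice.module_finite ℝ (LP D)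
  have hr : finrank ℤ (LP D) = N := by
    rw [ZLattice.rank ℝ, NumberField.Units.finrank_eq_rank, NumberField.Units.rank]
    have h1 := Fintype.card_congr hN.some
    rw [Fintype.card_fin] at h1
    omega
  refine ⟨Module.finBasisOfFinrankEq ℤ (LP D) hr,
    (Module.finBasisOfFinrankEq ℤ (LP D) hr).ofZLatticeBasis ℝ (LP D), fun i => ?_⟩
  exact Basis.ofZLatticeBasis_apply ℝ _ _ i

theorem log_prod {N : ℕ} (u : Fin N → (𝓞 K)ˣ) (k : Fin N → ℤ) :
    logEmbedding K (Additive.ofMul (∏ i, u i ^ k i)) =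
      ∑ i, k i • logEmbedding K (Additive.ofMul (u i)) := by
  rw [ofMul_prod, map_sum]
  refine Finset.sum_congr rfl fun i _ => ?_
  rw [ofMul_zpow, map_zsmul]

theorem uni_proof : UniStatement := by
  classical
  intro K _ _ N hN D hD
  obtain ⟨b, b', hb⟩ := exists_basis hD hN
  have hu : ∀ i, ∃ x ∈ UP D, logEmbedding K (Additive.ofMul x) = b i := fun i => mem_LP.1 (b i).2
  choose u hu hlu using hu
  -- uniqueness
  have huniq : ∀ ζ ∈ torsion K, ∀ ζ' ∈ torsion K, ∀ k k' : Fin N → ℤ,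
      ζ * ∏ i, u i ^ k i = ζ' * ∏ i, u i ^ k' i → ζ = ζ' ∧ k = k' := by
    intro ζ hζ ζ' hζ' k k' h
    have h1 := congrArg (fun x : (𝓞 K)ˣ => logEmbedding K (Additive.ofMul x)) h
    simp only [ofMul_mul, map_add] at h1
    rw [logEmbedding_eq_zero_iff.2 hζ, logEmbedding_eq_zero_iff.2 hζ', zero_add, zero_add,
      log_prod, log_prod] at h1
    have h2 : k = k' := by
      have h3 : ∑ i, k i • b i = ∑ i, k' i • b i := by
        apply Subtype.ext
        rw [AddSubmonoidClass.coe_finsetSum, AddSubmonoidClass.coe_finsetSum]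
        simp only [Submodule.coe_smul, ← hlu]
        exact h1
      have h4 := congrArg (fun x => (b.repr x : Fin N → ℤ)) h3
      simpa only [Basis.repr_sum_self] using h4
    subst h2
    exact ⟨mul_right_cancel h, rfl⟩
  -- the torsion part
  have hfinT : Finite (torsion K ⊓ UP D : Subgroup (𝓞 K)ˣ) :=
    Finite.of_injective (Subgroup.inclusion (inf_le_left : torsion K ⊓ UP D ≤ torsion K))
      (Subgroup.inclusion_injective _)
  have hfT : Fintype (torsion K ⊓ UP D : Subgroup (𝓞 K)ˣ) := Fintype.ofFinite _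
  obtain ⟨f, hf⟩ : ∃ f : (torsion K ⊓ UP D : Subgroup (𝓞 K)ˣ) × (Fin N → Fin 2) → (𝓞 K)ˣ,
      ∀ p, f p = (p.1 : (𝓞 K)ˣ) * ∏ i, u i ^ (((p.2 i : Fin 2) : ℕ) : ℤ) := ⟨_, fun _ => rfl⟩
  have hinj : Function.Injective f := by
    intro p p' h
    rw [hf, hf] at h
    obtain ⟨h1, h2⟩ := huniq _ p.1.2.1 _ p'.1.2.1 _ _ h
    refine Prod.ext (Subtype.ext h1) ?_
    funext i
    have := congrFun h2 i
    simp only [Nat.cast_inj] at this
    exact Fin.ext this
  have hprod : ∀ k : Fin N → ℤ, ∏ i, u i ^ k i ∈ UP D := fun k =>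
    Subgroup.prod_mem _ fun i _ => (UP D).zpow_mem (hu i) _
  refine ⟨u, Finset.univ.image f, ?_, ?_, ?_, ?_, ?_⟩
  · -- LogInd
    unfold LogInd
    obtain ⟨T, hT⟩ : ∃ T : (InfinitePlace K → ℝ) →ₗ[ℝ] logSpace K,
        ∀ g w, T g w = (InfinitePlace.mult w.val : ℝ) * g w.val :=
      ⟨{ toFun := fun g w => (InfinitePlace.mult w.val : ℝ) * g w.val
         map_add' := fun g h => by funext w; simp only [Pi.add_apply]; ring
         map_smul' := fun c g => by
          funext w; simp only [Pi.smul_apply, smul_eq_mul, RingHom.id_apply]; ring },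
        fun _ _ => rfl⟩
    refine LinearIndependent.of_comp T ?_
    have h1 : (⇑T ∘ fun (i : Fin N) (v : InfinitePlace K) => Real.log (v (u i : K))) = b' := by
      funext i w
      rw [hb, ← hlu, Function.comp_apply, hT]
      rfl
    rw [h1]
    exact b'.linearIndependent
  · intro i
    exact (mem_UP.1 (hu i)).1
  · intro ζ hζ
    rw [Finset.mem_image] at hζ
    obtain ⟨p, -, rfl⟩ := hζ
    rw [hf]
    exact mem_UP.1 ((UP D).mul_mem p.1.2.2 (hprod _))
  · rw [Finset.card_image_of_injective _ hinj, Finset.card_univ, Fintype.card_prod,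
      Fintype.card_fun, Fintype.card_fin, Fintype.card_fin, mul_comm]
    refine mul_dvd_mul_left _ ?_
    rw [← Nat.card_eq_fintype_card]
    exact Subgroup.card_dvd_of_le inf_le_left
  · intro x hx hx'
    have hxU : x ∈ UP D := ⟨hx, hx'⟩
    have hxL : logEmbedding K (Additive.ofMul x) ∈ LP D := mem_LP.2 ⟨x, hxU, rfl⟩
    obtain ⟨k, hk⟩ : ∃ k : Fin N → ℤ, k = b.repr ⟨_, hxL⟩ := ⟨_, rfl⟩
    have hsum : logEmbedding K (Additive.ofMul x) =
        ∑ i, k i • logEmbedding K (Additive.ofMul (u i)) := by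
      have h1 := b.sum_repr ⟨_, hxL⟩
      have h2 := congrArg (fun y : LP D => (y : logSpace K)) h1
      simp only [AddSubmonoidClass.coe_finsetSum, Submodule.coe_smul] at h2
      rw [← h2]
      refine Finset.sum_congr rfl fun i _ => ?_
      rw [hlu, hk]
    obtain ⟨ζ, hζ⟩ : ∃ ζ, ζ = x * (∏ i, u i ^ k i)⁻¹ := ⟨_, rfl⟩
    have hζt : ζ ∈ torsion K := by
      rw [← logEmbedding_eq_zero_iff, hζ, ofMul_mul, ofMul_inv, map_add, map_neg, hsum, log_prod,
        add_neg_cancel]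
    have hζU : ζ ∈ UP D := by
      rw [hζ]
      exact (UP D).mul_mem hxU ((UP D).inv_mem (hprod k))
    have hxe : x = ζ * ∏ i, u i ^ k i := by rw [hζ, inv_mul_cancel_right]
    have hsplit : ∀ (e : Fin N → Fin 2) (q : Fin N → ℤ),
        (∏ i, u i ^ (((e i : Fin 2) : ℕ) : ℤ)) * ∏ i, (u i ^ 2) ^ q i =
          ∏ i, u i ^ ((((e i : Fin 2) : ℕ) : ℤ) + 2 * q i) := by
      intro e q
      rw [← Finset.prod_mul_distrib]
      refine Finset.prod_congr rfl fun i _ => ?_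
      rw [zpow_add, zpow_mul, zpow_ofNat]
    obtain ⟨e, he⟩ : ∃ e : Fin N → Fin 2, ∀ i, (((e i : Fin 2) : ℕ) : ℤ) + 2 * (k i / 2) = k i := by
      refine ⟨fun i => ⟨(k i % 2).toNat, ?_⟩, fun i => ?_⟩
      · have h1 := Int.emod_nonneg (k i) (by norm_num : (2 : ℤ) ≠ 0)
        have h2 := Int.emod_lt_of_pos (k i) (by norm_num : (0 : ℤ) < 2)
        omega
      · show ((k i % 2).toNat : ℤ) + 2 * (k i / 2) = k i
        have h1 := Int.emod_nonneg (k i) (by norm_num : (2 : ℤ) ≠ 0)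
        rw [Int.toNat_of_nonneg h1]
        exact Int.emod_add_mul_ediv (k i) 2
    refine ⟨(⟨f (⟨ζ, hζt, hζU⟩, e), Finset.mem_image_of_mem f (Finset.mem_univ _)⟩,
      fun i => k i / 2), ?_, ?_⟩
    · show x = f (⟨ζ, hζt, hζU⟩, e) * ∏ i, (u i ^ 2) ^ (k i / 2)
      rw [hf, mul_assoc, hsplit e (fun i => k i / 2), hxe]
      congr 1
      refine Finset.prod_congr rfl fun i _ => ?_
      rw [he]
    · rintro ⟨⟨y, hy⟩, q⟩ hq
      have hy' := hy
      rw [Finset.mem_image] at hy'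
      obtain ⟨p, -, rfl⟩ := hy'
      have hq' : x = f p * ∏ i, (u i ^ 2) ^ q i := hq
      rw [hf, mul_assoc, hsplit p.2 q] at hq'
      obtain ⟨h1, h2⟩ := huniq _ hζt _ p.1.2.1 _ _ (hxe.symm.trans hq')
      have h3 : ∀ i, (e i : ℕ) = (p.2 i : ℕ) ∧ q i = k i / 2 := by
        intro i
        have h4 := congrFun h2 i
        have h5 := he i
        have h6 := (e i).2
        have h7 := (p.2 i).2
        omega
      have h4 : p = (⟨ζ, hζt, hζU⟩, e) := by
        refine Prod.ext (Subtype.ext h1.symm) ?_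
        funext i
        exact Fin.ext (h3 i).1.symm
      subst h4
      refine Prod.ext rfl ?_
      funext i
      exact (h3 i).2

end

end Pool.Agent.Lib.MP_50bb2e_nt.Anf.Uni
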