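import Pool.Agent.Lib.MP_50bb2e_nt.Anf.Iface

/-!
MP_50bb2e_nt, board ANF, row UNQ: a function with vanishing mixed differences which decays in each
coordinate is zero.
-/

namespace Pool.Agent.Lib.MP_50bb2e_nt.Anf.Unq

open Filter Topology NumberField Pool.Agent.Lib.MP_50bb2e_nt.Anf

theorem unq_proof : UnqStatement := by
  classical
  intro K _ _ F hmix hdec x hx
  set y : (InfinitePlace K → ℝ) → Finset (InfinitePlace K) → Pt K :=
    fun t J v => if v ∈ J then ((x v).1, t v) else x v with hy
  have hpos : ∀ t : InfinitePlace K → ℝ, (∀ v, 0 < t v) → ∀ J, Pos (y t J) := by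
    intro t ht J v
    simp only [hy]
    split_ifs
    · exact ⟨ht v, (hx v).2⟩
    · exact hx v
  -- removing one place
  have step : ∀ (S : Finset (InfinitePlace K)) (a : InfinitePlace K), a ∉ S →
      (∀ t : InfinitePlace K → ℝ, (∀ v, 0 < t v) →
        ∑ J ∈ (insert a S).powerset, (-1 : ℂ) ^ J.card * F (y t J) = 0) →
      ∀ t : InfinitePlace K → ℝ, (∀ v, 0 < t v) →
        ∑ J ∈ S.powerset, (-1 : ℂ) ^ J.card * F (y t J) = 0 := by
    intro S a ha h t ht
    have h1 : ∀ T : ℝ, 0 < T → ∑ J ∈ S.powerset, (-1 : ℂ) ^ J.card * F (y t J) =
        - ∑ J ∈ S.powerset, (-1 : ℂ) ^ (insert a J).card *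
          F (fun w => if w = a then ((y t J a).1, T) else y t J w) := by
      intro T hT
      have ht' : ∀ v, 0 < Function.update t a T v := by
        intro v
        by_cases hv : v = a
        · rw [hv, Function.update_self]; exact hT
        · rw [Function.update_of_ne hv]; exact ht v
      have h2 := h (Function.update t a T) ht'
      rw [Finset.sum_powerset_insert ha] at h2
      rw [eq_neg_iff_add_eq_zero, ← h2]
      congr 1
      · apply Finset.sum_congr rfl
        intro J hJ
        rw [Finset.mem_powerset] at hJ
        have : y (Function.update t a T) J = y t J := by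
          funext v
          simp only [hy]
          by_cases hv : v ∈ J
          · have hva : v ≠ a := fun h => ha (h ▸ hJ hv)
            rw [if_pos hv, if_pos hv, Function.update_of_ne hva]
          · rw [if_neg hv, if_neg hv]
        rw [this]
      · apply Finset.sum_congr rfl
        intro J hJ
        rw [Finset.mem_powerset] at hJ
        have : y (Function.update t a T) (insert a J) =
            fun w => if w = a then ((y t J a).1, T) else y t J w := by
          have haJ : a ∉ J := fun h => ha (hJ h)
          funext v
          simp only [hy]
          by_cases hv : v = a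
          · rw [if_pos (by rw [hv]; exact Finset.mem_insert_self a J), if_pos hv, if_neg haJ, hv,
              Function.update_self]
          · rw [if_neg hv]
            by_cases hvJ : v ∈ J
            · rw [if_pos (Finset.mem_insert_of_mem hvJ), if_pos hvJ, Function.update_of_ne hv]
            · rw [if_neg hvJ, if_neg (by
                rw [Finset.mem_insert]
                rintro (h | h)
                · exact hv h
                · exact hvJ h)]
        rw [this]
    have h2 : Tendsto (fun T : ℝ => - ∑ J ∈ S.powerset, (-1 : ℂ) ^ (insert a J).card *
        F (fun w => if w = a then ((y t J a).1, T) else y t J w)) atTop (𝓝 0) := by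
      have h3 : Tendsto (fun T : ℝ => ∑ J ∈ S.powerset, (-1 : ℂ) ^ (insert a J).card *
          F (fun w => if w = a then ((y t J a).1, T) else y t J w)) atTop
          (𝓝 (∑ J ∈ S.powerset, (-1 : ℂ) ^ (insert a J).card * 0)) := by
        apply tendsto_finsetSum
        intro J _
        apply Tendsto.const_mul
        have h4 := hdec (y t J) (hpos t ht J) a
        convert h4 using 1
      simp only [mul_zero, Finset.sum_const_zero] at h3
      simpa using h3.neg
    have h3 : Tendsto (fun _ : ℝ => ∑ J ∈ S.powerset, (-1 : ℂ) ^ J.card * F (y t J)) atTop
        (𝓝 0) := by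
      refine h2.congr' ?_
      filter_upwards [eventually_gt_atTop (0 : ℝ)] with T hT
      exact (h1 T hT).symm
    exact tendsto_nhds_unique tendsto_const_nhds h3
  -- all subsets
  have all : ∀ R : Finset (InfinitePlace K), ∀ t : InfinitePlace K → ℝ, (∀ v, 0 < t v) →
      ∑ J ∈ (Finset.univ \ R).powerset, (-1 : ℂ) ^ J.card * F (y t J) = 0 := by
    intro R
    induction R using Finset.induction_on with
    | empty =>
      intro t ht
      rw [Finset.sdiff_empty, Finset.powerset_univ]
      have h1 := hmix x (y t Finset.univ) hx (hpos t ht _)
      rw [← h1]
      apply Finset.sum_congr rfl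
      intro J _
      congr 2
      funext v
      simp only [hy, Finset.mem_univ, if_true]
    | insert a R haR ih =>
      apply step (Finset.univ \ insert a R) a
      · simp
      · have : insert a (Finset.univ \ insert a R) = Finset.univ \ R := by
          ext v
          simp only [Finset.mem_insert, Finset.mem_sdiff, Finset.mem_univ, true_and, not_or]
          constructor
          · rintro (h | h)
            · rw [h]; exact haR
            · exact h.2
          · intro h
            by_cases hv : v = a
            · exact Or.inl hv
            · exact Or.inr ⟨hv, h⟩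
        rw [this]
        exact ih
  have h := all Finset.univ (fun _ => 1) (fun _ => one_pos)
  rw [Finset.sdiff_self, Finset.powerset_empty, Finset.sum_singleton, Finset.card_empty, pow_zero,
    one_mul] at h
  rw [← h]
  congr 1

end Pool.Agent.Lib.MP_50bb2e_nt.Anf.Unq
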