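import Pool.Agent.Lib.MP_50bb2e_nt.Anf.Iface

/-! Row ZCY: the cycle of commuting elements. -/

open Finsupp

namespace Pool.Agent.Lib.MP_50bb2e_nt.Anf.Zcy

/-- contraction of two neighbouring commuting entries is invariant under their exchange -/
theorem contract_swap {Γ U : Type} [Group Γ] [CommGroup U] (ρ : U →* Γ) (n : ℕ)
    (v : Fin (n + 1) → U) (j : Fin n) :
    Fin.contractNth j.castSucc (· * ·)
        (fun i => ρ (v (Equiv.swap j.castSucc j.succ i))) =
      Fin.contractNth j.castSucc (· * ·) (fun i => ρ (v i)) := by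
  funext k
  rcases lt_trichotomy (k : ℕ) (j : ℕ) with h | h | h
  · rw [Fin.contractNth_apply_of_lt _ _ _ _ (by simpa using h),
      Fin.contractNth_apply_of_lt _ _ _ _ (by simpa using h)]
    rw [Equiv.swap_apply_of_ne_of_ne]
    · intro hh
      have := congrArg Fin.val hh
      simp at this; omega
    · intro hh
      have := congrArg Fin.val hh
      simp at this; omega
  · have hk : k = j := Fin.ext h
    subst hk
    rw [Fin.contractNth_apply_of_eq _ _ _ _ (by simp),
      Fin.contractNth_apply_of_eq _ _ _ _ (by simp)]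
    rw [Equiv.swap_apply_left, Equiv.swap_apply_right]
    show ρ _ * ρ _ = ρ _ * ρ _
    rw [← map_mul, ← map_mul, mul_comm]
  · rw [Fin.contractNth_apply_of_gt _ _ _ _ (by simpa using h),
      Fin.contractNth_apply_of_gt _ _ _ _ (by simpa using h)]
    rw [Equiv.swap_apply_of_ne_of_ne]
    · intro hh
      have := congrArg Fin.val hh
      simp at this; omega
    · intro hh
      have := congrArg Fin.val hh
      simp at this; omega

theorem zcy_proof : ZcyStatement := by
  intro Γ U _ _ ρ A m hm n u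
  have hinv : ∀ w : U, A.ρ (ρ w)⁻¹ m = m := by
    intro w; rw [← map_inv]; exact hm _
  rw [map_sum]
  have hterm : ∀ τ : Equiv.Perm (Fin (n + 1)),
      (groupHomology.inhomogeneousChains.d A n).hom
        ((Equiv.Perm.sign τ : ℤ) • Finsupp.single (fun i : Fin (n + 1) => ρ (u (τ i))) m) =
      (Equiv.Perm.sign τ : ℤ) • Finsupp.single (fun i : Fin n => ρ (u (τ i.succ))) m +
      (∑ j : Fin n, (Equiv.Perm.sign τ : ℤ) • ((-1 : ℤ) ^ ((j : ℕ) + 1) •
        Finsupp.single (Fin.contractNth j.castSucc (· * ·) (fun i => ρ (u (τ i)))) m)) +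
      (Equiv.Perm.sign τ : ℤ) • ((-1 : ℤ) ^ (n + 1) •
        Finsupp.single (fun i : Fin n => ρ (u (τ i.castSucc))) m) := by
    intro τ
    rw [map_zsmul]
    erw [groupHomology.inhomogeneousChains.d_single]
    have : Fin.contractNth (Fin.last n) (· * ·) (fun i => ρ (u (τ i))) =
        fun i : Fin n => ρ (u (τ i.castSucc)) := by
      funext k
      rw [Fin.contractNth_apply_of_lt _ _ _ _ (by simp)]
    rw [Fin.sum_univ_castSucc, smul_add, smul_add, Finset.smul_sum, hinv, add_assoc, this]
    simp only [Fin.val_castSucc, Fin.val_last]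
    refine congrArg₂ (· + ·) rfl (congrArg₂ (· + ·) (Finset.sum_congr rfl fun j _ => ?_) ?_)
    · exact congrArg _ (Finsupp.ext fun g => int_smul_eq_zsmul A.hV2 _ _)
    · exact congrArg _ (Finsupp.ext fun g => int_smul_eq_zsmul A.hV2 _ _)
  rw [Finset.sum_congr rfl fun τ _ => hterm τ]
  rw [Finset.sum_add_distrib, Finset.sum_add_distrib]
  -- the middle terms
  have hmid : ∑ τ : Equiv.Perm (Fin (n + 1)), ∑ j : Fin n,
      (Equiv.Perm.sign τ : ℤ) • ((-1 : ℤ) ^ ((j : ℕ) + 1) •
        Finsupp.single (Fin.contractNth j.castSucc (· * ·) (fun i => ρ (u (τ i)))) m) = 0 := by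
    rw [Finset.sum_comm]
    refine Finset.sum_eq_zero fun j _ => ?_
    have hne : j.castSucc ≠ j.succ := by
      intro h; have := congrArg Fin.val h; simp at this
    refine Finset.sum_involution (fun τ _ => τ * Equiv.swap j.castSucc j.succ) ?_ ?_ ?_ ?_
    · intro τ _
      rw [Equiv.Perm.sign_mul, Equiv.Perm.sign_swap hne]
      have h := contract_swap ρ n (fun i => u (τ i)) j
      simp only [Equiv.Perm.coe_mul, Function.comp_apply]
      rw [h]
      simp
    · intro τ _ _ h
      have h' : Equiv.swap j.castSucc j.succ = 1 := by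
        have := congrArg (fun x => τ⁻¹ * x) h
        simpa using this
      exact hne (Equiv.swap_eq_refl_iff.1 h')
    · intro τ _; exact Finset.mem_univ _
    · intro τ _
      rw [mul_assoc, Equiv.swap_mul_self, mul_one]
  rw [hmid, add_zero]
  -- the two outer terms
  have hrot := Equiv.sum_comp (Equiv.mulRight (finRotate (n + 1)))
    (fun τ : Equiv.Perm (Fin (n + 1)) => (Equiv.Perm.sign τ : ℤ) • ((-1 : ℤ) ^ (n + 1) •
        Finsupp.single (fun i : Fin n => ρ (u (τ i.castSucc))) m))
  rw [← hrot, ← Finset.sum_add_distrib]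
  refine Finset.sum_eq_zero fun τ _ => ?_
  have hfr : (fun i : Fin n => ρ (u ((τ * finRotate (n + 1)) i.castSucc))) =
      fun i : Fin n => ρ (u (τ i.succ)) := by
    funext i
    rw [Equiv.Perm.coe_mul, Function.comp_apply, finRotate_succ_apply, Fin.coeSucc_eq_succ]
  show _ + (Equiv.Perm.sign (τ * finRotate (n + 1)) : ℤ) • ((-1 : ℤ) ^ (n + 1) •
        Finsupp.single (fun i : Fin n => ρ (u ((τ * finRotate (n + 1)) i.castSucc))) m) = 0
  rw [hfr, Equiv.Perm.sign_mul, sign_finRotate]
  have h1 : ((Equiv.Perm.sign τ * (-1) ^ n : ℤˣ) : ℤ) * (-1) ^ (n + 1) =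
      - (Equiv.Perm.sign τ : ℤ) := by
    push_cast
    rw [mul_assoc, ← pow_add]
    have : Odd (n + (n + 1)) := ⟨n, by ring⟩
    rw [this.neg_one_pow]; ring
  rw [smul_smul, Nat.add_sub_cancel, h1, neg_smul, add_neg_cancel]

end Pool.Agent.Lib.MP_50bb2e_nt.Anf.Zcy
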