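import Pool.Agent.Lib.MP_50bb2e_nt.Bia.Bes
import Pool.Agent.Lib.MP_50bb2e_nt.Imq.Sumz
import Pool.Agent.Lib.MP_50bb2e_nt.Anf.Acx
import Pool.Agent.Lib.MP_50bb2e_nt.Anf.Ain1
import Pool.Agent.Lib.MP_50bb2e_nt.Anf.Aint
import Pool.Agent.Lib.MP_50bb2e_nt.Anf.Box
import Pool.Agent.Lib.MP_50bb2e_nt.Anf.Bpi
import Pool.Agent.Lib.MP_50bb2e_nt.Anf.Dec
import Pool.Agent.Lib.MP_50bb2e_nt.Anf.Dow
import Pool.Agent.Lib.MP_50bb2e_nt.Anf.Dua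
import Pool.Agent.Lib.MP_50bb2e_nt.Anf.Ffa
import Pool.Agent.Lib.MP_50bb2e_nt.Anf.Ffb
import Pool.Agent.Lib.MP_50bb2e_nt.Anf.Finn
import Pool.Agent.Lib.MP_50bb2e_nt.Anf.Gas
import Pool.Agent.Lib.MP_50bb2e_nt.Anf.Geo
import Pool.Agent.Lib.MP_50bb2e_nt.Anf.Hc
import Pool.Agent.Lib.MP_50bb2e_nt.Anf.Hom
import Pool.Agent.Lib.MP_50bb2e_nt.Anf.Hpm
import Pool.Agent.Lib.MP_50bb2e_nt.Anf.Ker
import Pool.Agent.Lib.MP_50bb2e_nt.Anf.Lat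
import Pool.Agent.Lib.MP_50bb2e_nt.Anf.Mel
import Pool.Agent.Lib.MP_50bb2e_nt.Anf.Mink
import Pool.Agent.Lib.MP_50bb2e_nt.Anf.Orb
import Pool.Agent.Lib.MP_50bb2e_nt.Anf.Per
import Pool.Agent.Lib.MP_50bb2e_nt.Anf.Psin
import Pool.Agent.Lib.MP_50bb2e_nt.Anf.Rayn
import Pool.Agent.Lib.MP_50bb2e_nt.Anf.Rel
import Pool.Agent.Lib.MP_50bb2e_nt.Anf.Rep
import Pool.Agent.Lib.MP_50bb2e_nt.Anf.Ryt
import Pool.Agent.Lib.MP_50bb2e_nt.Anf.Scl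
import Pool.Agent.Lib.MP_50bb2e_nt.Anf.Sfd
import Pool.Agent.Lib.MP_50bb2e_nt.Anf.Sub
import Pool.Agent.Lib.MP_50bb2e_nt.Anf.Trc
import Pool.Agent.Lib.MP_50bb2e_nt.Anf.Ubal
import Pool.Agent.Lib.MP_50bb2e_nt.Anf.Uni
import Pool.Agent.Lib.MP_50bb2e_nt.Anf.Unq
import Pool.Agent.Lib.MP_50bb2e_nt.Anf.Zcy

/-!
MP_50bb2e_nt, board ANF: the main theorem.
-/

namespace Pool.Agent.Lib.MP_50bb2e_nt.Anf

theorem ubal : UbalStatement := Ubal.ubal_proof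

theorem ker' : KerStatement := Ker.ker_proof Bia.Bes.bes_proof

theorem acx : AcxStatement := Acx.acx_proof

theorem dec : DecStatement := Dec.dec_proof Lat.lat_proof ker'

theorem hc : HcStatement := Hc.hc_proof Unq.unq_proof dec acx

theorem hom : HomStatement := Hom.hom_proof Hpm.hpm_proof Rel.rel_proof Zcy.zcy_proof

theorem per : PerStatement :=
  Per.per_proof (Gas.gas_proof acx) (Mink.mink_proof ubal) Geo.geo_proof Sub.sub_proof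
    Dow.dow_proof (Orb.orb_proof ubal Lat.lat_proof) hom Bpi.bpi_proof Box.box_proof hc acx

theorem mel : MelStatement :=
  Mel.mel_proof ker' Trc.trc_proof (Ffa.ffa_proof Lat.lat_proof ker')
    (Ffb.ffb_proof (Sfd.sfd_proof Bpi.bpi_proof)) acx

theorem aint : AintStatement :=
  Aint.aint_proof (Ain1.ain1_proof per mel acx dec Trc.trc_proof) Dua.dua_proof Uni.uni_proof
    Rep.rep_proof Scl.scl_proof Ryt.ryt_proof

theorem final : FinalStatement :=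
  Finn.finn_proof (Psin.psin_proof aint Imq.Unic.unic_proof Rayn.rayn_proof Imq.Sumz.sumz_proof)

end Pool.Agent.Lib.MP_50bb2e_nt.Anf
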