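import Pool.Agent.Lib.MP_50bb2e_nt.Imq.IfaceC

/-!
MP_50bb2e_nt, board ANF: weight 2 cuspidal eigenforms over an arbitrary number field `K`
(holomorphic of weight 2 at the real places, harmonic of cohomological weight 2 at the complex
places). Definitions. Paper: Anf/Paper.md
-/

namespace Pool.Agent.Lib.MP_50bb2e_nt.Anf

open Complex MeasureTheory Filter Topology NumberField IsDedekindDomain
open scoped ComplexConjugate nonZeroDivisors LinearAlgebra.Projectivization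
open Pool.Agent.Lib.MP_50bb2e_nt.Bia (bes)
open Pool.Agent.Lib.MP_50bb2e_nt.Imq (FI cF SLK toC actz acty den InG CValI SettingC NonVanC)
open Pool.Agent.Lib.MP_50bb2e_nt.PP (Pr nm Cop QChar IsRayUnion Fam Closed)

noncomputable section

variable {K : Type} [Field K] [NumberField K]

/-! ### Points and the action of `SL_2(K)` -/

/-- families of pairs `(z_v, y_v)`, `v` the infinite places -/
abbrev Pt (K : Type) [Field K] [NumberField K] := InfinitePlace K → ℂ × ℝ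

/-- `x` is a point of the product of the upper half planes (`v` real: `z_v` real, the point
`z_v + i y_v`) and the upper half spaces (`v` complex). -/
def Pos (x : Pt K) : Prop := ∀ v : InfinitePlace K, 0 < (x v).2 ∧ (v.IsReal → (x v).1.im = 0)

/-- the points as a type -/
abbrev XX (K : Type) [Field K] [NumberField K] := {x : Pt K // Pos x}

/-- the action of `SL_2(K)` -/
def act (g : SLK K) (x : Pt K) : Pt K := fun v =>
  (actz (toC v.embedding g) (x v).1 (x v).2, acty (toC v.embedding g) (x v).1 (x v).2)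

/-! ### Forms -/

/-- `α` is positive at the real places -/
def TPos (α : K) : Prop := ∀ v : InfinitePlace K, v.IsReal → 0 < (v.embedding α).re

open Classical in
/-- the radial function: `exp(-2 π t)` at a real place, `4 π t K_1(4 π t)` at a complex place -/
def rad (v : InfinitePlace K) (t : ℝ) : ℝ :=
  if v.IsReal then Real.exp (-(2 * Real.pi * t)) else bes (4 * Real.pi * t)

open Classical in
/-- The local factor at `v`: for `v` real and `z` real it is `exp(2 π i ξ (z + i y))` if `ξ > 0` at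
`v` and zero otherwise; for `v` complex it is `bes(4 π |ξ| y) exp(2 π i (ξ z + conj))`. -/
def ker (v : InfinitePlace K) (ξ : K) (p : ℂ × ℝ) : ℂ :=
  if v.IsReal ∧ ¬ 0 < (v.embedding ξ).re then 0 else
    (rad v (v ξ * p.2) : ℂ) *
      exp (2 * Real.pi * I * ((v.mult : ℝ) * (v.embedding ξ * p.1).re : ℝ))

/-- the absolute value of the norm -/
def nK (ξ : K) : ℝ := |((Algebra.norm ℚ ξ : ℚ) : ℝ)|

open Classical in
/-- The primitive of the form with coefficients `a`: the sum over non-zero `ξ` of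
`a(ξ) |N ξ|^(-1) ∏_v ker_v(ξ, x_v)`. -/
def Th (a : K → ℂ) (x : Pt K) : ℂ :=
  ∑' ξ : K, if ξ = 0 then 0 else a ξ / (nK ξ : ℂ) * ∏ v : InfinitePlace K, ker v ξ (x v)

/-- the coefficients on the component of the fractional ideal `A`: `c(ξ A^(-1) 𝔡)`, `𝔡` the
different (zero if this ideal is not integral) -/
def coef (c : Ideal (𝓞 K) → ℂ) (A : FI K) (ξ : K) : ℂ :=
  cF c (FractionalIdeal.spanSingleton (𝓞 K)⁰ ξ * ((A⁻¹ : FI K) : FractionalIdeal (𝓞 K)⁰ K) *
    ((differentIdeal ℤ (𝓞 K) : Ideal (𝓞 K)) : FractionalIdeal (𝓞 K)⁰ K))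

/-- `ξ ∈ D A 𝔡^(-1)` -/
def InD (D : Ideal (𝓞 K)) (A : FI K) (ξ : K) : Prop :=
  FractionalIdeal.spanSingleton (𝓞 K)⁰ ξ * ((A⁻¹ : FI K) : FractionalIdeal (𝓞 K)⁰ K) *
    ((differentIdeal ℤ (𝓞 K) : Ideal (𝓞 K)) : FractionalIdeal (𝓞 K)⁰ K) ≤
      (D : FractionalIdeal (𝓞 K)⁰ K)

/-- supported on a fractional ideal, of polynomial growth -/
def Coef (a : K → ℂ) : Prop :=
  ∃ (B : FI K) (C : ℝ) (m : ℕ), ∀ ξ : K, ξ ≠ 0 →
    ‖a ξ‖ ≤ C * nK ξ ^ m ∧ (a ξ ≠ 0 → ξ ∈ (B : FractionalIdeal (𝓞 K)⁰ K))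

open Classical in
/-- All mixed differences of `F` vanish. Equivalently, `F` is a sum of functions each of which
does not depend on one of the coordinates `x_v`; for smooth `F`: the mixed differential
`d_{v_1} ⋯ d_{v_r} F` is zero. -/
def Mix0 (F : Pt K → ℂ) : Prop :=
  ∀ x x' : Pt K, Pos x → Pos x' →
    ∑ J : Finset (InfinitePlace K), (-1 : ℂ) ^ J.card * F (fun v => if v ∈ J then x' v else x v) = 0

/-- `c` is the family of coefficients (indexed by the ideals, centre `s = 1`) of a normalized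
cuspidal eigenform of level `n`, weight 2 and trivial character over the number field `K`. -/
structure Form (n : Ideal (𝓞 K)) (c : Ideal (𝓞 K) → ℂ) : Prop where
  one : c ⊤ = 1
  growth : ∃ C : ℝ, ∃ m : ℕ, ∀ I : Ideal (𝓞 K), I ≠ ⊥ → ‖c I‖ ≤ C * (Ideal.absNorm I : ℝ) ^ m
  modular : ∀ A : FI K, ∀ g : SLK K, InG n A g →
    Mix0 (fun x => Th (coef c A) (act g x) - Th (coef c A) x)
  cusp : ∀ A : FI K, ∀ g : SLK K, ∃ a : K → ℂ, Coef a ∧
    Mix0 (fun x => Th (coef c A) (act g x) - Th a x)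
  hecke : ∀ v : Ideal (𝓞 K), v.IsPrime → v ≠ ⊥ → ¬ n ≤ v → ∀ I : Ideal (𝓞 K), ¬ I ≤ v →
    c (v * I) = c v * c I
  hecke' : ∀ v : Ideal (𝓞 K), v.IsPrime → v ≠ ⊥ → ¬ n ≤ v → ∀ I : Ideal (𝓞 K), I ≠ ⊥ →
    c (v * (v * I)) + (Ideal.absNorm v : ℂ) * c I = c v * c (v * I)

/-! ### Ray classes in the narrow sense -/

/-- `I` and `J` are in the same narrow ray class modulo `D`. -/
def RayN (D I J : Ideal (𝓞 K)) : Prop :=
  ∃ α β : 𝓞 K, α ≠ 0 ∧ β ≠ 0 ∧ α - 1 ∈ D ∧ β - 1 ∈ D ∧ TPos (α : K) ∧ TPos (β : K) ∧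
    Ideal.span {α} * I = Ideal.span {β} * J

/-- `ψ` is a character of the narrow ray class group modulo `D`, extended by zero. -/
structure RCharN (D : Ideal (𝓞 K)) (ψ : Ideal (𝓞 K) → ℂ) : Prop where
  bot : ψ ⊥ = 0
  top : ψ ⊤ = 1
  mul : ∀ a b, ψ (a * b) = ψ a * ψ b
  zero : ∀ a, D ⊔ a ≠ ⊤ → ψ a = 0
  fin : ∃ m : ℕ, 0 < m ∧ ∀ a, a ≠ ⊥ → D ⊔ a = ⊤ → ψ a ^ m = 1
  ray : ∀ a b, RayN D a b → ψ a = ψ b

/-! ### Chains of tuples -/

/-- the boundary of chains of tuples (with the augmentation for `q = 0`) -/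
def bd {α : Type} (q : ℕ) (z : (Fin (q + 1) → α) →₀ ℤ) : (Fin q → α) →₀ ℤ :=
  z.sum fun σ k => ∑ i : Fin (q + 1),
    Finsupp.single (fun j => σ (i.succAbove j)) ((-1) ^ (i : ℕ) * k)

/-- the chains of tuples in `S` (`S q` a set of `q`-tuples) are acyclic -/
def Acy {α : Type} (S : ∀ q : ℕ, (Fin q → α) → Prop) : Prop :=
  (∃ a : α, S 1 (fun _ => a)) ∧
  ∀ (q : ℕ) (z : (Fin (q + 1) → α) →₀ ℤ), (∀ σ ∈ z.support, S (q + 1) σ) → bd q z = 0 →
    ∃ w : (Fin (q + 2) → α) →₀ ℤ, (∀ σ ∈ w.support, S (q + 2) σ) ∧ bd (q + 1) w = z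

/-- the product of the first `j` of the elements `u (τ 0), u (τ 1), …` -/
def pt {U : Type} [CommMonoid U] {n : ℕ} (u : Fin n → U) (τ : Equiv.Perm (Fin n))
    (j : Fin (n + 1)) : U :=
  ∏ i ∈ Finset.univ.filter (fun i : Fin n => (i : ℕ) < j), u (τ i)

/-! ### Cusps and boxes -/

/-- the matrix `(r, -1; 1, 0)`, which maps the cusp `∞` to `r` -/
def gr (r : K) : SLK K := ⟨!![r, -1; 1, 0], by simp [Matrix.det_fin_two]⟩

/-- the matrix `(u, (u⁻¹ - u) r; 0, u⁻¹)`, which fixes the cusps `∞` and `r` -/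
def gu (r : K) (u : Kˣ) : SLK K :=
  ⟨!![(u : K), ((u⁻¹ : Kˣ) - (u : K)) * r; 0, (u⁻¹ : Kˣ)], by simp [Matrix.det_fin_two]⟩

/-- a unit of the ring of integers as a unit of `K` -/
def uK (u : (𝓞 K)ˣ) : Kˣ := Units.map (algebraMap (𝓞 K) K).toMonoidHom u

/-- The mixed difference of `F` in the coordinates `e 1, …, e n` along the path
`p 0, …, p n`: the `j`-th of these coordinates runs from that of `p (j - 1)` to that of `p j`; the
coordinate `e 0` is that of `p 0`. -/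
def box {n : ℕ} (e : Fin (n + 1) ≃ InfinitePlace K) (F : Pt K → ℂ) (p : Fin (n + 1) → Pt K) : ℂ :=
  ∑ J : Finset (Fin n), (-1 : ℂ) ^ (n - J.card) * F (fun v =>
    Fin.cases (p 0 v) (fun j : Fin n => if j ∈ J then p j.succ v else p j.castSucc v) (e.symm v))

open Classical in
/-- the values of `F` tend to zero when one of the heights tends to infinity -/
def Dec1 (F : Pt K → ℂ) : Prop :=
  ∀ x : Pt K, Pos x → ∀ v : InfinitePlace K,
    Tendsto (fun t : ℝ => F (fun w => if w = v then ((x v).1, t) else x w)) atTop (𝓝 0)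

/-- the vectors of the lattice `O ⊕ A` -/
def Lam (A : FI K) (w : Fin 2 → K) : Prop :=
  w 0 ∈ (1 : FractionalIdeal (𝓞 K)⁰ K) ∧ w 1 ∈ (A : FractionalIdeal (𝓞 K)⁰ K)

/-- the local height form at `v` -/
def qv (v : InfinitePlace K) (p : ℂ × ℝ) (w : Fin 2 → K) : ℝ :=
  (‖v.embedding (w 0) - v.embedding (w 1) * p.1‖ ^ 2 + ‖v.embedding (w 1)‖ ^ 2 * p.2 ^ 2) / p.2

/-- the height form -/
def qx (x : Pt K) (w : Fin 2 → K) : ℝ := ∏ v : InfinitePlace K, qv v (x v) w ^ v.mult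

/-- the horoball of size `R` at the cusp `c` -/
def Near (A : FI K) (R : ℝ) (c : ℙ K (Fin 2 → K)) (x : Pt K) : Prop :=
  ∃ (w : Fin 2 → K) (hw : w ≠ 0), Projectivization.mk K w hw = c ∧ Lam A w ∧ qx x w < R

/-- the additive character `exp(2 π i Tr x)` -/
def chK (x : K) : ℂ := exp (2 * Real.pi * I * ((Algebra.trace ℚ K x : ℚ) : ℂ))

/-- `1[t ≤ b] - 1[t ≤ a]` -/
def sg (a b t : ℝ) : ℝ := (if t ≤ b then 1 else 0) - (if t ≤ a then 1 else 0)

/-- the signed box of the path `p` in `ℝ^n` -/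
def bx {n : ℕ} (p : Fin (n + 1) → Fin n → ℝ) (t : Fin n → ℝ) : ℝ :=
  ∏ j : Fin n, sg (p j.castSucc j) (p j.succ j) (t j)

/-- the units `u i` are independent modulo torsion -/
def LogInd {n : ℕ} (u : Fin n → (𝓞 K)ˣ) : Prop :=
  LinearIndependent ℝ (fun i : Fin n => fun v : InfinitePlace K => Real.log (v (u i : K)))

/-- `T` is a system of representatives of `K^*` modulo the group generated by the `u i` (which are
independent) -/
def Reps {n : ℕ} (u : Fin n → (𝓞 K)ˣ) (T : Set K) : Prop :=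
  (0 : K) ∉ T ∧ ∀ ξ : K, ξ ≠ 0 → ∃! p : T × (Fin n → ℤ),
    ξ = (p.1 : K) * ((∏ i, u i ^ p.2 i : (𝓞 K)ˣ) : K)

end

end Pool.Agent.Lib.MP_50bb2e_nt.Anf
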