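import Pool.Agent.Lib.MP_50bb2e_nt.Anf.Iface

/-!
MP_50bb2e_nt, board ANF, row DUA: duality and orthogonality of the additive characters modulo an
ideal (helper55).
-/

namespace Pool.Agent.Lib.MP_50bb2e_nt.Anf.Dua

open Complex NumberField
open scoped ComplexConjugate nonZeroDivisors
open Pool.Agent.Lib.MP_50bb2e_nt.Imq (FI)

variable {K : Type} [Field K] [NumberField K]

lemma chK_add (x y : K) : chK (x + y) = chK x * chK y := by
  unfold chK
  rw [← Complex.exp_add]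
  congr 1
  rw [map_add]
  push_cast
  ring

lemma chK_zero : chK (0 : K) = 1 := by
  unfold chK
  simp

lemma chK_nat (n : ℕ) (x : K) : chK (n * x) = (chK x) ^ n := by
  induction n with
  | zero => simp [chK_zero]
  | succ n ih =>
    rw [pow_succ, ← ih, ← chK_add]
    congr 1
    push_cast
    ring

lemma chK_one_iff (x : K) : chK x = 1 ↔ ∃ m : ℤ, Algebra.trace ℚ K x = m := by
  unfold chK
  rw [Complex.exp_eq_one_iff]
  have hpi : (2 * (Real.pi : ℂ) * I) ≠ 0 := by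
    simp [Real.pi_ne_zero]
  constructor
  · rintro ⟨n, hn⟩
    refine ⟨n, ?_⟩
    have h1 : ((Algebra.trace ℚ K x : ℚ) : ℂ) = (n : ℂ) := by
      apply mul_left_cancel₀ hpi
      rw [hn]
      ring
    exact_mod_cast h1
  · rintro ⟨m, hm⟩
    refine ⟨m, ?_⟩
    rw [hm]
    push_cast
    ring

/-- the inverse different -/
noncomputable def dd (K : Type) [Field K] [NumberField K] : FractionalIdeal (𝓞 K)⁰ K :=
  FractionalIdeal.dual ℤ ℚ (1 : FractionalIdeal (𝓞 K)⁰ K)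

lemma mem_dd {x : K} : x ∈ dd K ↔ ∀ b : K, b ∈ (1 : FractionalIdeal (𝓞 K)⁰ K) →
    chK (x * b) = 1 := by
  have h0 : (1 : FractionalIdeal (𝓞 K)⁰ K) ≠ 0 := one_ne_zero
  unfold dd
  rw [FractionalIdeal.mem_dual h0]
  refine forall₂_congr fun b hb => ?_
  rw [chK_one_iff, Algebra.traceForm_apply, RingHom.mem_range]
  constructor
  · rintro ⟨m, hm⟩
    exact ⟨m, by rw [← hm]; rfl⟩
  · rintro ⟨m, hm⟩
    exact ⟨m, by rw [hm]; rfl⟩

lemma chK_dd {x : K} (hx : x ∈ dd K) : chK x = 1 := by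
  have := mem_dd.1 hx 1 (FractionalIdeal.one_mem_one _)
  rwa [mul_one] at this

lemma dd_ne : dd K ≠ 0 := FractionalIdeal.dual_ne_zero ℤ ℚ one_ne_zero

lemma inD_iff {D : Ideal (𝓞 K)} {A : FI K} {ξ : K} :
    InD D A ξ ↔ ξ ∈ (D : FractionalIdeal (𝓞 K)⁰ K) * (A : FractionalIdeal (𝓞 K)⁰ K) * dd K := by
  unfold InD
  rw [coeIdeal_differentIdeal ℤ ℚ K (𝓞 K)]
  change _ * _ * (dd K)⁻¹ ≤ _ ↔ _
  rw [← FractionalIdeal.spanSingleton_le_iff_mem]
  have h1 := dd_ne (K := K)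
  have hA : (A : FractionalIdeal (𝓞 K)⁰ K) * ((A⁻¹ : FI K) : FractionalIdeal (𝓞 K)⁰ K) = 1 :=
    Units.mul_inv A
  constructor
  · intro h
    calc FractionalIdeal.spanSingleton (𝓞 K)⁰ ξ
        = (FractionalIdeal.spanSingleton (𝓞 K)⁰ ξ * ((A⁻¹ : FI K) : FractionalIdeal (𝓞 K)⁰ K)
          * (dd K)⁻¹) * (A * dd K) := by
          rw [show (FractionalIdeal.spanSingleton (𝓞 K)⁰ ξ *
            ((A⁻¹ : FI K) : FractionalIdeal (𝓞 K)⁰ K) * (dd K)⁻¹) * (A * dd K)
            = FractionalIdeal.spanSingleton (𝓞 K)⁰ ξ *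
            ((A : FractionalIdeal (𝓞 K)⁰ K) * ((A⁻¹ : FI K) : FractionalIdeal (𝓞 K)⁰ K))
            * (dd K * (dd K)⁻¹) by ring, hA, mul_inv_cancel₀ h1, mul_one, mul_one]
      _ ≤ (D : FractionalIdeal (𝓞 K)⁰ K) * (A * dd K) := by gcongr
      _ = _ := by ring
  · intro h
    calc FractionalIdeal.spanSingleton (𝓞 K)⁰ ξ * ((A⁻¹ : FI K) : FractionalIdeal (𝓞 K)⁰ K)
          * (dd K)⁻¹
        ≤ ((D : FractionalIdeal (𝓞 K)⁰ K) * (A : FractionalIdeal (𝓞 K)⁰ K) * dd K)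
          * ((A⁻¹ : FI K) : FractionalIdeal (𝓞 K)⁰ K) * (dd K)⁻¹ := by gcongr
      _ = (D : FractionalIdeal (𝓞 K)⁰ K) *
            ((A : FractionalIdeal (𝓞 K)⁰ K) * ((A⁻¹ : FI K) : FractionalIdeal (𝓞 K)⁰ K))
            * (dd K * (dd K)⁻¹) := by ring
      _ = D := by rw [hA, mul_inv_cancel₀ h1, mul_one, mul_one]

/-- the additive group of a fractional ideal -/
def ag (B : FractionalIdeal (𝓞 K)⁰ K) : AddSubgroup K := (B : Submodule (𝓞 K) K).toAddSubgroup

omit [NumberField K] in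
lemma mem_ag {B : FractionalIdeal (𝓞 K)⁰ K} {x : K} : x ∈ ag B ↔ x ∈ B := Iff.rfl

/-- the index of `D B` in `B` -/
lemma relIndex_mul (D : Ideal (𝓞 K)) (hD : D ≠ ⊥) (B : FractionalIdeal (𝓞 K)⁰ K) (hB : B ≠ 0) :
    (ag ((D : FractionalIdeal (𝓞 K)⁰ K) * B)).relIndex (ag B) = Ideal.absNorm D := by
  obtain ⟨a, J, ha, hJ⟩ := FractionalIdeal.exists_eq_spanSingleton_mul B
  have hJ0 : J ≠ ⊥ := by
    rintro rfl
    apply hB
    rw [hJ]
    simp
  have haK : (algebraMap (𝓞 K) K a) ≠ 0 := by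
    intro h
    exact ha ((FaithfulSMul.algebraMap_eq_zero_iff (𝓞 K) K).mp h)
  -- the map
  let f : 𝓞 K →+ K := (AddMonoidHom.mulLeft ((algebraMap (𝓞 K) K a)⁻¹)).comp
    (algebraMap (𝓞 K) K).toAddMonoidHom
  have hf : Function.Injective f := by
    intro x y hxy
    have h1 : (algebraMap (𝓞 K) K a)⁻¹ * algebraMap (𝓞 K) K x =
      (algebraMap (𝓞 K) K a)⁻¹ * algebraMap (𝓞 K) K y := hxy
    have h2 := mul_left_cancel₀ (inv_ne_zero haK) h1
    exact FaithfulSMul.algebraMap_injective (𝓞 K) K h2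
  have hmap : ∀ I : Ideal (𝓞 K), ag (FractionalIdeal.spanSingleton (𝓞 K)⁰
      (algebraMap (𝓞 K) K a)⁻¹ * (I : FractionalIdeal (𝓞 K)⁰ K)) =
      (Submodule.toAddSubgroup I).map f := by
    intro I
    ext x
    rw [mem_ag, FractionalIdeal.mem_singleton_mul, AddSubgroup.mem_map]
    constructor
    · rintro ⟨y, hy, rfl⟩
      obtain ⟨z, hz, rfl⟩ := (FractionalIdeal.mem_coeIdeal _).mp hy
      exact ⟨z, hz, rfl⟩
    · rintro ⟨z, hz, rfl⟩
      exact ⟨algebraMap (𝓞 K) K z, (FractionalIdeal.mem_coeIdeal _).mpr ⟨z, hz, rfl⟩, rfl⟩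
  have e1 : ag ((D : FractionalIdeal (𝓞 K)⁰ K) * B) =
      (Submodule.toAddSubgroup (D * J)).map f := by
    rw [← hmap, hJ, FractionalIdeal.coeIdeal_mul]
    congr 1
    ring
  have e2 : ag B = (Submodule.toAddSubgroup J).map f := by
    rw [← hmap, ← hJ]
  rw [e1, e2, AddSubgroup.relIndex_map_map_of_injective _ _ hf]
  have hle : Submodule.toAddSubgroup (D * J) ≤ Submodule.toAddSubgroup J := by
    intro x hx
    exact Ideal.mul_le_right hx
  have h1 := AddSubgroup.relIndex_mul_index hle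
  have h2 : ∀ I : Ideal (𝓞 K), (Submodule.toAddSubgroup I).index = Ideal.absNorm I := by
    intro I
    rw [Ideal.absNorm_apply, Submodule.cardQuot_apply]
    rfl
  rw [h2, h2, map_mul] at h1
  have h3 : Ideal.absNorm J ≠ 0 := by
    rw [Ne, Ideal.absNorm_eq_zero_iff]
    exact hJ0
  exact Nat.eq_of_mul_eq_mul_right (Nat.pos_of_ne_zero h3) h1

/-- products with an inverse -/
lemma chK_inv {B C : FractionalIdeal (𝓞 K)⁰ K}
    (hBC : B * C = dd K) {x y : K} (hx : x ∈ B) (hy : y ∈ C) : chK (x * y) = 1 := by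
  apply chK_dd
  rw [← hBC]
  exact FractionalIdeal.mul_mem_mul hx hy

/-- nontrivial characters -/
lemma exists_ne {B C : FractionalIdeal (𝓞 K)⁰ K} (hB : B ≠ 0)
    (hBC : C * B = dd K) {a : K} (ha : a ∉ C) : ∃ s ∈ B, chK (a * s) ≠ 1 := by
  by_contra hcon
  push Not at hcon
  apply ha
  have h1 : FractionalIdeal.spanSingleton (𝓞 K)⁰ a * B ≤ dd K := by
    rw [FractionalIdeal.spanSingleton_mul_le_iff]
    intro s hs
    rw [mem_dd]
    intro b hb
    rw [mul_assoc]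
    apply hcon
    have h2 : s * b ∈ B * 1 := FractionalIdeal.mul_mem_mul hs hb
    rwa [mul_one] at h2
  have h2 : FractionalIdeal.spanSingleton (𝓞 K)⁰ a ≤ C := by
    calc FractionalIdeal.spanSingleton (𝓞 K)⁰ a
        = FractionalIdeal.spanSingleton (𝓞 K)⁰ a * B * B⁻¹ := by
          rw [mul_assoc, mul_inv_cancel₀ hB, mul_one]
      _ ≤ dd K * B⁻¹ := by gcongr
      _ = C := by rw [← hBC, mul_assoc, mul_inv_cancel₀ hB, mul_one]
  exact h2 (FractionalIdeal.mem_spanSingleton_self (𝓞 K)⁰ a)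

/-- ROW DUA. -/
theorem dua_proof : DuaStatement := by
  intro K _ _ A D hD
  have hAA : (A : FractionalIdeal (𝓞 K)⁰ K) * ((A⁻¹ : FI K) : FractionalIdeal (𝓞 K)⁰ K) = 1 :=
    Units.mul_inv A
  set Df : FractionalIdeal (𝓞 K)⁰ K := (D : FractionalIdeal (𝓞 K)⁰ K) with hDf
  set A' : FractionalIdeal (𝓞 K)⁰ K := ((A⁻¹ : FI K) : FractionalIdeal (𝓞 K)⁰ K) with hA'
  have hDf0 : Df ≠ 0 := by
    rw [hDf]
    exact FractionalIdeal.coeIdeal_ne_zero.mpr hD
  have hA'0 : A' ≠ 0 := Units.ne_zero _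
  set B : FractionalIdeal (𝓞 K)⁰ K := Df⁻¹ * A' with hB
  have hB0 : B ≠ 0 := mul_ne_zero (inv_ne_zero hDf0) hA'0
  have hDB : Df * B = A' := by
    rw [hB, ← mul_assoc, mul_inv_cancel₀ hDf0, one_mul]
  have hCB : (Df * (A : FractionalIdeal (𝓞 K)⁰ K) * dd K) * B = dd K := by
    calc (Df * (A : FractionalIdeal (𝓞 K)⁰ K) * dd K) * B
        = (A : FractionalIdeal (𝓞 K)⁰ K) * (Df * B) * dd K := by ring
      _ = dd K := by rw [hDB, hAA, one_mul]
  have hAB : ((A : FractionalIdeal (𝓞 K)⁰ K) * dd K) * A' = dd K := by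
    calc ((A : FractionalIdeal (𝓞 K)⁰ K) * dd K) * A'
        = (A : FractionalIdeal (𝓞 K)⁰ K) * A' * dd K := by ring
      _ = dd K := by rw [hAA, one_mul]
  have htop : ∀ ξ : K, InD ⊤ A ξ → ξ ∈ (A : FractionalIdeal (𝓞 K)⁰ K) * dd K := by
    intro ξ hξ
    rw [inD_iff, FractionalIdeal.coeIdeal_top, one_mul] at hξ
    exact hξ
  have hrel : (ag A').relIndex (ag B) = Ideal.absNorm D := by
    rw [← hDB]
    exact relIndex_mul D hD B hB0
  have hN : Ideal.absNorm D ≠ 0 := by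
    rw [Ne, Ideal.absNorm_eq_zero_iff]
    exact hD
  classical
  have hcard : Nat.card ((ag B) ⧸ (ag A').addSubgroupOf (ag B)) = Ideal.absNorm D := hrel
  haveI : Finite ((ag B) ⧸ (ag A').addSubgroupOf (ag B)) := by
    apply Nat.finite_of_card_ne_zero
    rw [hcard]
    exact hN
  letI : Fintype ((ag B) ⧸ (ag A').addSubgroupOf (ag B)) := Fintype.ofFinite _
  let rep : ((ag B) ⧸ (ag A').addSubgroupOf (ag B)) → K := fun q => ((Quotient.out q : ag B) : K)
  have hrep : ∀ q, rep q ∈ B := fun q => (Quotient.out q : ag B).2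
  have hinj : Function.Injective rep := by
    intro q q' hq
    have h1 : (Quotient.out q : ag B) = Quotient.out q' := Subtype.ext hq
    rw [← Quotient.out_eq q, ← Quotient.out_eq q', h1]
  have hker : ∀ r ∈ B, ∀ a : K, InD D A a → chK (a * r) = 1 := by
    intro r hr a ha
    exact chK_inv hCB (inD_iff.1 ha) hr
  refine ⟨Finset.univ.map ⟨rep, hinj⟩, ?_, ?_, ?_, ?_, ?_⟩
  · rw [Finset.card_map, Finset.card_univ, ← Nat.card_eq_fintype_card, hcard]
  · intro r hr d hd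
    rw [Finset.mem_map] at hr
    obtain ⟨q, -, rfl⟩ := hr
    have h1 : (d : K) * rep q ∈ Df * B := by
      apply FractionalIdeal.mul_mem_mul _ (hrep q)
      rw [hDf, FractionalIdeal.mem_coeIdeal]
      exact ⟨d, hd, rfl⟩
    rw [hDB] at h1
    exact h1
  · intro r hr a ha
    rw [Finset.mem_map] at hr
    obtain ⟨q, -, rfl⟩ := hr
    exact hker _ (hrep q) a ha
  · intro a ha haD
    rw [Finset.sum_map]
    obtain ⟨s, hs, hse⟩ := exists_ne hB0 hCB (fun h => haD (inD_iff.2 h))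
    have hshift : ∀ q, chK (a * rep (QuotientAddGroup.mk ⟨s, hs⟩ + q)) =
        chK (a * s) * chK (a * rep q) := by
      intro q
      have h1 : ((QuotientAddGroup.mk (Quotient.out
          ((QuotientAddGroup.mk (⟨s, hs⟩ : ag B) : (ag B) ⧸ (ag A').addSubgroupOf (ag B)) + q)) :
            (ag B) ⧸ (ag A').addSubgroupOf (ag B))) =
          QuotientAddGroup.mk ((⟨s, hs⟩ : ag B) + Quotient.out q) := by
        rw [QuotientAddGroup.mk_add]
        rw [show ((QuotientAddGroup.mk (Quotient.out q)) :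
          (ag B) ⧸ (ag A').addSubgroupOf (ag B)) = q from Quotient.out_eq q]
        exact Quotient.out_eq _
      rw [QuotientAddGroup.eq, AddSubgroup.mem_addSubgroupOf, mem_ag] at h1
      set t : K := ((-(Quotient.out ((QuotientAddGroup.mk (⟨s, hs⟩ : ag B) :
        (ag B) ⧸ (ag A').addSubgroupOf (ag B)) + q)) + ((⟨s, hs⟩ : ag B) + Quotient.out q) :
          ag B) : K) with ht
      have h2 : t = -(rep (QuotientAddGroup.mk ⟨s, hs⟩ + q)) + (s + rep q) := rfl
      have h3 := chK_inv hAB (htop a ha) h1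
      have h4 : a * s + a * rep q =
          a * rep (QuotientAddGroup.mk ⟨s, hs⟩ + q) + a * t := by
        rw [h2]
        ring
      rw [← chK_add, h4, chK_add, h3, mul_one]
    have hsum : ∑ q, chK (a * rep q) = chK (a * s) * ∑ q, chK (a * rep q) := by
      rw [Finset.mul_sum]
      rw [← Equiv.sum_comp (Equiv.addLeft
        ((QuotientAddGroup.mk (⟨s, hs⟩ : ag B) : (ag B) ⧸ (ag A').addSubgroupOf (ag B))))]
      exact Finset.sum_congr rfl fun q _ => hshift q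
    have h5 : (1 - chK (a * s)) * ∑ q, chK (a * rep q) = 0 := by
      rw [sub_mul, one_mul, ← hsum, sub_self]
    rcases mul_eq_zero.mp h5 with h6 | h6
    · exact absurd (sub_eq_zero.mp h6).symm hse
    · exact h6
  · intro r hr a ha
    rw [Finset.mem_map] at hr
    obtain ⟨q, -, rfl⟩ := hr
    rw [← chK_nat]
    have h1 : ((Ideal.absNorm D : ℕ) : K) * a ∈ Df * (A : FractionalIdeal (𝓞 K)⁰ K) * dd K := by
      rw [mul_assoc]
      apply FractionalIdeal.mul_mem_mul _ (htop a ha)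
      rw [hDf, FractionalIdeal.mem_coeIdeal]
      exact ⟨_, Ideal.absNorm_mem D, by simp⟩
    have h2 := hker _ (hrep q) _ (inD_iff.2 h1)
    rw [← h2]
    congr 1
    rw [mul_assoc]
    rfl

end Pool.Agent.Lib.MP_50bb2e_nt.Anf.Dua
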