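import Pool.Agent.Lib.MP_50bb2e_nt.Anf.Defs

/-!
MP_50bb2e_nt, board ANF: statements of the rows. Paper: Anf/Paper.md
-/

namespace Pool.Agent.Lib.MP_50bb2e_nt.Anf

open Complex MeasureTheory Filter Topology NumberField IsDedekindDomain
open scoped ComplexConjugate nonZeroDivisors LinearAlgebra.Projectivization
open Pool.Agent.Lib.MP_50bb2e_nt.Bia (bes)
open Pool.Agent.Lib.MP_50bb2e_nt.Imq (FI cF SLK toC actz acty den InG CValI SettingC NonVanC)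
open Pool.Agent.Lib.MP_50bb2e_nt.PP (Pr nm Cop QChar IsRayUnion Fam Closed)

noncomputable section

/-! ### Part T: topology of the covering by horoballs; homological finiteness -/

/-- row DOW (Dowker duality): the two complexes of a relation -/
def DowStatement : Prop :=
  ∀ (V P : Type) (R : V → P → Prop), Acy (fun q (x : Fin q → P) => ∃ c, ∀ j, R c (x j)) →
    Acy (fun q (c : Fin q → V) => ∃ x, ∀ j, R (c j) x)

/-- row SUB (subdivision): small tuples in a space with midpoints are acyclic -/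
def SubStatement : Prop :=
  ∀ (V P : Type) (R : V → P → Prop) (mid : P → P → P) (d : P → P → ℝ), Nonempty P →
    (∀ x, d x x = 0) → (∀ x y, 0 ≤ d x y) → (∀ x y, d x y = d y x) →
    (∀ z x y, d z (mid x y) ≤ (d z x + d z y) / 2) →
    (∀ c x y, R c x → R c y → R c (mid x y)) →
    (∀ (x0 : P) (ρ : ℝ), ∃ δ : ℝ, 0 < δ ∧ ∀ S : Finset P, (∀ z ∈ S, d x0 z ≤ ρ) →
      (∀ z ∈ S, ∀ z' ∈ S, d z z' < δ) → ∃ c, ∀ z ∈ S, R c z) →
    Acy (fun q (x : Fin q → P) => ∃ c, ∀ j, R c (x j))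

/-- row GEO: the covering of the product of hyperbolic spaces by the horoballs -/
def GeoStatement : Prop :=
  ∀ (K : Type) [Field K] [NumberField K] (A : FI K) (R : ℝ), 0 < R →
    (∀ x : Pt K, Pos x → ∃ c, Near A R c x) →
    ∃ (mid : XX K → XX K → XX K) (d : XX K → XX K → ℝ), Nonempty (XX K) ∧
      (∀ x, d x x = 0) ∧ (∀ x y, 0 ≤ d x y) ∧ (∀ x y, d x y = d y x) ∧
      (∀ z x y, d z (mid x y) ≤ (d z x + d z y) / 2) ∧
      (∀ c x y, Near A R c x.1 → Near A R c y.1 → Near A R c (mid x y).1) ∧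
      (∀ (x0 : XX K) (ρ : ℝ), ∃ δ : ℝ, 0 < δ ∧ ∀ S : Finset (XX K), (∀ z ∈ S, d x0 z ≤ ρ) →
        (∀ z ∈ S, ∀ z' ∈ S, d z z' < δ) → ∃ c, ∀ z ∈ S, Near A R c z.1)

/-- row MINK: the horoballs of a suitable size cover -/
def MinkStatement : Prop :=
  ∀ (K : Type) [Field K] [NumberField K] (A : FI K), ∃ R : ℝ, 0 < R ∧
    ∀ x : Pt K, Pos x → ∃ c, Near A R c x

/-- row UBAL: balancing by units -/
def UbalStatement : Prop :=
  ∀ (K : Type) [Field K] [NumberField K], ∃ C : ℝ, ∀ t : InfinitePlace K → ℝ,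
    ∑ v, (v.mult : ℝ) * t v = 0 →
    ∃ u : (𝓞 K)ˣ, ∀ v : InfinitePlace K, |Real.log (v (u : K)) - t v| ≤ C

/-- row LAT: lattice sums -/
def LatStatement : Prop :=
  ∀ (K : Type) [Field K] [NumberField K] (B : FI K),
    (∃ ρ : ℝ, 0 < ρ ∧ ∀ ξ : K, ξ ∈ (B : FractionalIdeal (𝓞 K)⁰ K) → ξ ≠ 0 → ρ ≤ nK ξ) ∧
    (∀ ξ : K, nK ξ = ∏ v : InfinitePlace K, (v ξ) ^ v.mult) ∧
    (∀ R : ℝ, {ξ : K | ξ ∈ (B : FractionalIdeal (𝓞 K)⁰ K) ∧
      ∀ v : InfinitePlace K, v ξ ≤ R}.Finite) ∧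
    (∀ (κ : ℝ) (m : ℕ), 0 < κ → Summable (fun ξ : {ξ : K // ξ ∈ (B : FractionalIdeal (𝓞 K)⁰ K)} =>
      nK ξ.1 ^ m * Real.exp (-κ * ∑ v : InfinitePlace K, v ξ.1)))

/-- row ORB: finitely many orbits of non-constant simplices -/
def OrbStatement : Prop :=
  ∀ (K : Type) [Field K] [NumberField K] (A : FI K) (n : Ideal (𝓞 K)) (R : ℝ), n ≠ ⊥ →
    ∀ q : ℕ, ∃ T : Finset (Fin q → ℙ K (Fin 2 → K)), ∀ σ : Fin q → ℙ K (Fin 2 → K),
      (∃ x : Pt K, Pos x ∧ ∀ j, Near A R (σ j) x) → (∃ i j, σ i ≠ σ j) →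
      ∃ g : SLK K, InG n A g ∧ ∃ τ ∈ T, σ = fun j => g • τ j

/-- row GAS: the group of the component `A`, its action on the cusps and on the horoballs -/
def GasStatement : Prop :=
  ∀ (K : Type) [Field K] [NumberField K] (A : FI K) (n : Ideal (𝓞 K)),
    ∃ Γ : Subgroup (SLK K), (∀ g, g ∈ Γ ↔ InG n A g) ∧
      (∀ g ∈ Γ, ∀ (R : ℝ) (c : ℙ K (Fin 2 → K)) (x : Pt K), Pos x →
        (Near A R (g • c) (act g x) ↔ Near A R c x)) ∧
      (∀ c : ℙ K (Fin 2 → K), ∀ R : ℝ, 0 < R → ∃ x : Pt K, Pos x ∧ Near A R c x) ∧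
      (∀ c c' : ℙ K (Fin 2 → K), c ≠ c' →
        (∀ g ∈ Γ, ∀ h ∈ Γ, g • c = c → g • c' = c' → h • c = c → h • c' = c' → g * h = h * g) ∧
        (MulAction.stabilizer Γ c ⊓ MulAction.stabilizer Γ c').FG)

/-- row HPM: homology of permutation modules. `Z` are the `k`-cycles of `Γ` with coefficients in
`ℤ[S]`, `S` a set with finitely many orbits and finitely generated commutative stabilizers: they
are generated by finitely many cycles and the boundaries. -/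
def HpmStatement : Prop :=
  ∀ (Γ S : Type) [Group Γ] [MulAction Γ S],
    (∃ T : Finset S, ∀ s : S, ∃ g : Γ, ∃ t ∈ T, s = g • t) →
    (∀ s : S, (MulAction.stabilizer Γ s).FG ∧ ∀ g ∈ MulAction.stabilizer Γ s,
      ∀ h ∈ MulAction.stabilizer Γ s, g * h = h * g) →
    ∀ k : ℕ, Module.Finite ℤ (groupHomology (Rep.ofMulAction ℤ Γ S) k)

/-- non-constant tuples -/
def NC {α : Type} {q : ℕ} (σ : Fin q → α) : Prop := ∃ i j, σ i ≠ σ j

/-- row REL: exactness of the complex of non-constant tuples -/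
def RelStatement : Prop :=
  ∀ (V : Type) (S : ∀ q : ℕ, (Fin q → V) → Prop),
    (∀ (q : ℕ) (σ : Fin (q + 1) → V) (i : Fin (q + 1)), S (q + 1) σ →
      S q (fun j => σ (i.succAbove j))) →
    (∀ (q : ℕ) (c : V), S q (fun _ => c)) → Acy S →
    (∀ z : (Fin 1 → V) →₀ ℤ, bd 0 z = 0 →
      ∃ w : (Fin 2 → V) →₀ ℤ, (∀ σ ∈ w.support, S 2 σ ∧ NC σ) ∧ bd 1 w = z) ∧
    (∀ z : (Fin 2 → V) →₀ ℤ, (∀ σ ∈ z.support, S 2 σ ∧ NC σ) → bd 1 z = 0 →
      ∃ w : (Fin 3 → V) →₀ ℤ, (∀ σ ∈ w.support, S 3 σ ∧ NC σ) ∧ ∀ σ, NC σ → bd 2 w σ = z σ) ∧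
    (∀ (q : ℕ) (z : (Fin (q + 3) → V) →₀ ℤ), (∀ σ ∈ z.support, S (q + 3) σ ∧ NC σ) →
      (∀ σ, NC σ → bd (q + 2) z σ = 0) →
      ∃ w : (Fin (q + 4) → V) →₀ ℤ, (∀ σ ∈ w.support, S (q + 4) σ ∧ NC σ) ∧
        ∀ σ, NC σ → bd (q + 3) w σ = z σ)

/-- row ZCY: the cycle of commuting elements -/
def ZcyStatement : Prop :=
  ∀ (Γ U : Type) [Group Γ] [CommGroup U] (ρ : U →* Γ) (A : Rep ℤ Γ) (m : A),
    (∀ u : U, A.ρ (ρ u) m = m) → ∀ (n : ℕ) (u : Fin (n + 1) → U),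
    (groupHomology.inhomogeneousChains.d A n).hom
      (∑ τ : Equiv.Perm (Fin (n + 1)), (Equiv.Perm.sign τ : ℤ) •
        Finsupp.single (fun i : Fin (n + 1) => ρ (u (τ i))) m) = 0

/-- row HOM: finite generation of the values of a cocycle -/
def HomStatement : Prop :=
  ∀ (Γ V : Type) [Group Γ] [MulAction Γ V] (S : ∀ q : ℕ, (Fin q → V) → Prop),
    (∀ (q : ℕ) (σ : Fin (q + 1) → V) (i : Fin (q + 1)), S (q + 1) σ →
      S q (fun j => σ (i.succAbove j))) →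
    (∀ (q : ℕ) (c : V), S q (fun _ => c)) →
    (∀ (q : ℕ) (σ : Fin q → V) (g : Γ), S q σ → S q (fun j => g • σ j)) →
    Acy S →
    (∀ q : ℕ, ∃ T : Finset (Fin q → V), ∀ σ : Fin q → V, S q σ → (∃ i j, σ i ≠ σ j) →
      ∃ g : Γ, ∃ τ ∈ T, σ = fun j => g • τ j) →
    (∀ c c' : V, c ≠ c' →
      (∀ g h : Γ, g • c = c → g • c' = c' → h • c = c → h • c' = c' → g * h = h * g) ∧
      (MulAction.stabilizer Γ c ⊓ MulAction.stabilizer Γ c').FG) →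
    ∀ (n : ℕ) (Ψ : (V →₀ ℤ) →+ ((Fin (n + 1) → Γ) → ℂ)),
      (∀ (m : V →₀ ℤ) (g : Γ) (γ : Fin (n + 1) → Γ), m.sum (fun _ k => k) = 0 →
        Ψ (m.mapDomain (fun c => g • c)) (fun j => g * γ j) = Ψ m γ) →
      (∀ (m : V →₀ ℤ) (γ : Fin (n + 2) → Γ), m.sum (fun _ k => k) = 0 →
        ∑ i : Fin (n + 2), (-1 : ℂ) ^ (i : ℕ) * Ψ m (fun j => γ (i.succAbove j)) = 0) →
      ∃ V0 : Finset ℂ, ∀ (c c' : V) (U : Type) [CommGroup U] (ρ : U →* Γ),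
        (∀ u : U, ρ u • c = c ∧ ρ u • c' = c') → ∀ u : Fin n → U,
        ∑ τ : Equiv.Perm (Fin n), ((Equiv.Perm.sign τ : ℤ) : ℂ) *
          Ψ (Finsupp.single c' 1 - Finsupp.single c 1) (fun j => ρ (pt u τ j)) ∈
            AddSubgroup.closure (V0 : Set ℂ)

/-- row BPI: independence of the base point -/
def BpiStatement : Prop :=
  ∀ (U P : Type) [CommGroup U] [MulAction U P] (n : ℕ) (Θ : (Fin (n + 1) → P) → ℂ),
    (∀ (u : U) (p : Fin (n + 1) → P), Θ (fun j => u • p j) = Θ p) →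
    (∀ p : Fin (n + 2) → P, ∑ i : Fin (n + 2), (-1 : ℂ) ^ (i : ℕ) *
      Θ (fun j => p (i.succAbove j)) = 0) →
    ∀ (u : Fin n → U) (p p' : P),
      ∑ τ : Equiv.Perm (Fin n), ((Equiv.Perm.sign τ : ℤ) : ℂ) * Θ (fun j => pt u τ j • p) =
        ∑ τ : Equiv.Perm (Fin n), ((Equiv.Perm.sign τ : ℤ) : ℂ) * Θ (fun j => pt u τ j • p')

/-! ### Part H: the functions at the cusps and the periods -/

/-- row ACX: the action of `SL_2(K)` on the points -/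
def AcxStatement : Prop :=
  ∀ (K : Type) [Field K] [NumberField K],
    (∀ (g h : SLK K) (x : Pt K), Pos x → Pos (act g x) ∧ act (g * h) x = act g (act h x) ∧
      act 1 x = x) ∧
    (∀ (g : SLK K) (x : Pt K), Pos x → g 1 0 = 0 → ∀ v : InfinitePlace K,
      ((act g x) v).2 = (v (g 0 0)) ^ 2 * (x v).2 ∧ ∀ t : ℝ, 0 < t →
        (act g (fun w => ((x w).1, t * (x w).2)) v).1 = ((act g x) v).1) ∧
    (∀ (r : K) (u : Kˣ) (y : InfinitePlace K → ℝ), (∀ v, 0 < y v) →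
      act (gu r u) (fun v => (v.embedding r, y v)) = fun v => (v.embedding r, (v u) ^ 2 * y v)) ∧
    (∀ (r : K) (y : InfinitePlace K → ℝ), (∀ v, 0 < y v) →
      act (gr r)⁻¹ (fun v => (v.embedding r, y v)) = fun v => (0, (y v)⁻¹)) ∧
    (∀ (r : K) (u u' : Kˣ), gu r (u * u') = gu r u * gu r u') ∧
    (∀ (g : SLK K) (F : Pt K → ℂ), Mix0 F → Mix0 (fun x => F (act g x)))

/-- row UNQ: a function with vanishing mixed differences which decays in each coordinate is zero -/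
def UnqStatement : Prop :=
  ∀ (K : Type) [Field K] [NumberField K] (F : Pt K → ℂ), Mix0 F → Dec1 F →
    ∀ x, Pos x → F x = 0

/-- row DEC: decay of the theta-like series -/
def DecStatement : Prop :=
  ∀ (K : Type) [Field K] [NumberField K],
    (∀ a : K → ℂ, Coef a → Dec1 (Th a)) ∧
    (∀ (n : Ideal (𝓞 K)) (c : Ideal (𝓞 K) → ℂ), Form n c → ∀ A : FI K, Coef (coef c A))

/-- row HC: the functions attached to the cusps -/
def HcStatement : Prop :=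
  ∀ (K : Type) [Field K] [NumberField K] (n : Ideal (𝓞 K)) (c : Ideal (𝓞 K) → ℂ), Form n c →
    ∀ A : FI K, ∃ H : ℙ K (Fin 2 → K) → Pt K → ℂ,
      (∀ b, Mix0 (fun x => H b x - Th (coef c A) x)) ∧
      (∀ (g : SLK K) (b : ℙ K (Fin 2 → K)) (x : Pt K), InG n A g → Pos x →
        H (g • b) (act g x) = H b x) ∧
      (∀ x, Pos x → H (Projectivization.mk K ![1, 0] (by simp)) x = Th (coef c A) x) ∧
      (∀ (r : K) (a : K → ℂ), Coef a → Mix0 (fun x => Th (coef c A) (act (gr r) x) - Th a x) →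
        ∀ x, Pos x → H (Projectivization.mk K ![r, 1] (by simp)) x = Th a (act (gr r)⁻¹ x))

open Classical in
/-- row BOX: the cocycle property of the boxes -/
def BoxStatement : Prop :=
  ∀ (K : Type) [Field K] [NumberField K] (n : ℕ) (e : Fin (n + 1) ≃ InfinitePlace K)
    (F : Pt K → ℂ), Mix0 F →
    (∀ p : Fin (n + 2) → Pt K, (∀ i, Pos (p i)) →
      ∑ i : Fin (n + 2), (-1 : ℂ) ^ (i : ℕ) * box e F (fun j => p (i.succAbove j)) = 0) ∧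
    (∀ (p : Fin (n + 1) → Pt K) (x : Pt K), (∀ i, Pos (p i)) → Pos x →
      box e F p = box e F (fun j v => if v = e 0 then x v else p j v))

/-- row PER: the periods generate a finitely generated group -/
def PerStatement : Prop :=
  ∀ (K : Type) [Field K] [NumberField K] (n : Ideal (𝓞 K)) (c : Ideal (𝓞 K) → ℂ), n ≠ ⊥ →
    Form n c → ∀ (A : FI K) (N : ℕ) (e : Fin (N + 1) ≃ InfinitePlace K),
    ∃ V0 : Finset ℂ, ∀ (r : K) (a : K → ℂ), Coef a →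
      Mix0 (fun x => Th (coef c A) (act (gr r) x) - Th a x) →
      ∀ u : Fin N → (𝓞 K)ˣ,
      (∀ i, ((u i : K) - 1) * r ∈ ((A⁻¹ : FI K) : FractionalIdeal (𝓞 K)⁰ K)) →
      ∀ p : Pt K, Pos p →
        ∑ τ : Equiv.Perm (Fin N), ((Equiv.Perm.sign τ : ℤ) : ℂ) *
          box e (fun x => Th (coef c A) x - Th a (act (gr r)⁻¹ x))
            (fun j => act (gu r (uK (pt u τ j))) p) ∈ AddSubgroup.closure (V0 : Set ℂ)

/-! ### Part M: central values as periods -/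

/-- `w v (t) = t rad_v'(t)`, with its decay and its Mellin transform -/
def KerP {K : Type} [Field K] [NumberField K] (w : InfinitePlace K → ℝ → ℝ) : Prop :=
  ∀ v : InfinitePlace K, Continuous (w v) ∧ (∀ t, 0 < t → HasDerivAt (rad v) (w v t / t) t) ∧
    (∃ C κ : ℝ, 0 < C ∧ 0 < κ ∧ ∀ t, 0 < t →
      rad v t ≤ C * Real.exp (-κ * t) ∧ |w v t| ≤ C * t * Real.exp (-κ * t)) ∧
    (∀ s : ℂ, 0 < s.re → mellin (fun t => (w v t : ℂ)) s ≠ 0) ∧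
    mellin (fun t => (w v t : ℂ)) 0 = -1

/-- row KER: the radial functions -/
def KerStatement : Prop :=
  ∀ (K : Type) [Field K] [NumberField K],
    (∀ v : InfinitePlace K, Continuous (rad v) ∧ rad v 0 = 1 ∧
      ∀ t, 0 ≤ t → 0 ≤ rad v t ∧ rad v t ≤ 1) ∧
    ∃ w : InfinitePlace K → ℝ → ℝ, KerP w

/-- row SFD: signed fundamental domains of a lattice made of boxes -/
def SfdStatement : Prop :=
  ∀ (n : ℕ) (l : Fin n → Fin n → ℝ), LinearIndependent ℝ l → ∃ ε : ℂ, (ε = 1 ∨ ε = -1) ∧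
    ∀ (p : Fin n → ℝ) (w : (Fin n → ℝ) → ℂ), Integrable w →
      (∀ τ : Equiv.Perm (Fin n), Summable (fun k : Fin n → ℤ => ∫ x, ‖((bx (fun j =>
        p + ∑ i ∈ Finset.univ.filter (fun i : Fin n => (i : ℕ) < j), l (τ i)) x : ℝ) : ℂ) *
          w (x + ∑ i, (k i : ℝ) • l i)‖)) ∧
      ∑ τ : Equiv.Perm (Fin n), ((Equiv.Perm.sign τ : ℤ) : ℂ) *
        ∑' k : Fin n → ℤ, ∫ x, ((bx (fun j =>
          p + ∑ i ∈ Finset.univ.filter (fun i : Fin n => (i : ℕ) < j), l (τ i)) x : ℝ) : ℂ) *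
            w (x + ∑ i, (k i : ℝ) • l i) = ε * ∫ x, w x

open Classical in
/-- the series with the radial functions `w`, in logarithmic coordinates -/
def ff {K : Type} [Field K] [NumberField K] (w : InfinitePlace K → ℝ → ℝ) (b : K → ℂ)
    (η : InfinitePlace K → ℝ) : ℂ :=
  ∑' ξ : K, if ξ = 0 then 0 else
    (b ξ / (nK ξ : ℂ)) * ∏ v : InfinitePlace K, ((w v (v ξ * Real.exp (η v)) : ℝ) : ℂ)

open Classical in
/-- row TRC: the additive character and the restriction of `Th` to a vertical torus -/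
def TrcStatement : Prop :=
  ∀ (K : Type) [Field K] [NumberField K],
    (∀ x y : K, chK (x + y) = chK x * chK y ∧ ‖chK x‖ = 1) ∧
    (∀ (A : FI K) (x y : K), InD ⊤ A x → y ∈ ((A⁻¹ : FI K) : FractionalIdeal (𝓞 K)⁰ K) →
      chK (x * y) = 1) ∧
    (∀ (a : K → ℂ) (r : K) (η : InfinitePlace K → ℝ),
      Th a (fun v => (v.embedding r, Real.exp (η v))) =
        ff rad (fun ξ => if TPos ξ then a ξ * chK (ξ * r) else 0) η)

open Classical in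
/-- row FFA: the function `ff w b` -/
def FfaStatement : Prop :=
  ∀ (K : Type) [Field K] [NumberField K] (w : InfinitePlace K → ℝ → ℝ), KerP w →
    ∀ b : K → ℂ, Coef b →
    Continuous (ff w b) ∧
    (∀ α β : InfinitePlace K → ℝ,
      ∫ η : InfinitePlace K → ℝ, ((∏ v, sg (α v) (β v) (η v) : ℝ) : ℂ) * ff w b η =
        ∑ J : Finset (InfinitePlace K), (-1 : ℂ) ^ (Fintype.card (InfinitePlace K) - J.card) *
          ff rad b (fun v => if v ∈ J then β v else α v)) ∧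
    (∀ (v0 : InfinitePlace K) (R : ℝ), ∃ C κ : ℝ, 0 < C ∧ 0 < κ ∧
      ∀ η : InfinitePlace K → ℝ, (∀ v, v ≠ v0 → |η v| ≤ R) → 0 ≤ η v0 →
        ‖ff w b η‖ ≤ C * Real.exp (-κ * Real.exp (κ * η v0)) ∧
        ‖ff rad b η‖ ≤ C * Real.exp (-κ * Real.exp (κ * η v0)))

/-- the signed box of a path in logarithmic coordinates -/
def lb {K : Type} [Field K] [NumberField K] {n : ℕ} (e : Fin (n + 1) ≃ InfinitePlace K)
    (P : Fin (n + 1) → InfinitePlace K → ℝ) (η : InfinitePlace K → ℝ) : ℝ :=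
  ∏ j : Fin n, sg (P j.castSucc (e j.succ)) (P j.succ (e j.succ)) (η (e j.succ))

/-- the path in logarithmic coordinates -/
def lp {K : Type} [Field K] [NumberField K] {n : ℕ} (u : Fin n → (𝓞 K)ˣ)
    (τ : Equiv.Perm (Fin n)) (p : InfinitePlace K → ℝ) (j : Fin (n + 1))
    (v : InfinitePlace K) : ℝ :=
  p v + Real.log (v ((pt u τ j : (𝓞 K)ˣ) : K))

/-- row FFB: unfolding -/
def FfbStatement : Prop :=
  ∀ (K : Type) [Field K] [NumberField K] (w : InfinitePlace K → ℝ → ℝ), KerP w →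
    ∀ (N : ℕ) (e : Fin (N + 1) ≃ InfinitePlace K) (u : Fin N → (𝓞 K)ˣ), LogInd u →
    ∃ ε : ℂ, (ε = 1 ∨ ε = -1) ∧
      ∀ b : K → ℂ, Coef b → (∀ i ξ, b ((u i : K) * ξ) = b ξ) → ∀ T : Set K, Reps u T →
      ∃ σ : ℝ, 0 < σ ∧ ∀ s : ℂ, σ < s.re →
        Summable (fun t : T => b t.1 * (nK t.1 : ℂ) ^ (-1 - s)) ∧
        ∀ p : InfinitePlace K → ℝ,
        (∏ v : InfinitePlace K, mellin (fun t => (w v t : ℂ)) ((v.mult : ℂ) * s)) *
          ∑' t : T, b t.1 * (nK t.1 : ℂ) ^ (-1 - s) =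
        ε * ∑ τ : Equiv.Perm (Fin N), ((Equiv.Perm.sign τ : ℤ) : ℂ) *
          ∫ η : InfinitePlace K → ℝ, ((lb e (lp u τ p) η : ℝ) : ℂ) * ff w b η *
            exp (s * ((∑ v : InfinitePlace K, (v.mult : ℝ) * η v : ℝ) : ℂ))

/-- row MEL: the central value of the additive twist is a period -/
def MelStatement : Prop :=
  ∀ (K : Type) [Field K] [NumberField K] (N : ℕ) (e : Fin (N + 1) ≃ InfinitePlace K)
    (a a' : K → ℂ) (r : K), Coef a → Coef a' →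
    Mix0 (fun x => Th a x - Th a' (act (gr r)⁻¹ x)) →
    ∀ u : Fin N → (𝓞 K)ˣ, LogInd u → (∀ i, TPos (u i : K)) →
    (∀ i ξ, a ((u i : K) * ξ) * chK ((u i : K) * ξ * r) = a ξ * chK (ξ * r)) →
    ∃ ε : ℂ, (ε = 1 ∨ ε = -1) ∧ ∀ T : Set K, Reps u T →
      ∀ y : InfinitePlace K → ℝ, (∀ v, 0 < y v) →
      ∃ L : ℂ → ℂ, DifferentiableOn ℂ L {s | 1 < s.re} ∧
        (∃ σ : ℝ, ∀ s : ℂ, σ < s.re →
          HasSum (fun t : {t : K // t ∈ T ∧ TPos t} =>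
            a t.1 * chK (t.1 * r) * (nK t.1 : ℂ) ^ (-s)) (L s)) ∧
        Tendsto (fun t : ℝ => L t) (𝓝[>] 1)
          (𝓝 (ε * ∑ τ : Equiv.Perm (Fin N), ((Equiv.Perm.sign τ : ℤ) : ℂ) *
            box e (fun x => Th a x - Th a' (act (gr r)⁻¹ x))
              (fun j v => (v.embedding r, v ((pt u τ j : (𝓞 K)ˣ) : K) * y v))))

/-! ### Part G: ray classes -/

/-- row DUA: duality and orthogonality of the additive characters modulo `D` -/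
def DuaStatement : Prop :=
  ∀ (K : Type) [Field K] [NumberField K] (A : FI K) (D : Ideal (𝓞 K)), D ≠ ⊥ →
    ∃ T : Finset K, T.card = Ideal.absNorm D ∧
      (∀ r ∈ T, ∀ d : 𝓞 K, d ∈ D → (d : K) * r ∈ ((A⁻¹ : FI K) : FractionalIdeal (𝓞 K)⁰ K)) ∧
      (∀ r ∈ T, ∀ ξ : K, InD D A ξ → chK (ξ * r) = 1) ∧
      (∀ ξ : K, InD ⊤ A ξ → ¬ InD D A ξ → ∑ r ∈ T, chK (ξ * r) = 0) ∧
      (∀ r ∈ T, ∀ ξ : K, InD ⊤ A ξ → chK (ξ * r) ^ (Ideal.absNorm D) = 1)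

/-- row UNI: the totally positive units congruent to one -/
def UniStatement : Prop :=
  ∀ (K : Type) [Field K] [NumberField K] (N : ℕ), Nonempty (Fin (N + 1) ≃ InfinitePlace K) →
    ∀ D : Ideal (𝓞 K), D ≠ ⊥ →
    ∃ (u : Fin N → (𝓞 K)ˣ) (M : Finset (𝓞 K)ˣ), LogInd u ∧
      (∀ i, ((u i : 𝓞 K) - 1) ∈ D) ∧
      (∀ ζ ∈ M, ((ζ : 𝓞 K) - 1) ∈ D ∧ TPos ((ζ : 𝓞 K) : K)) ∧
      M.card ∣ 2 ^ N * NumberField.Units.torsionOrder K ∧
      ∀ x : (𝓞 K)ˣ, ((x : 𝓞 K) - 1) ∈ D → TPos ((x : 𝓞 K) : K) →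
        ∃! p : M × (Fin N → ℤ), x = (p.1 : (𝓞 K)ˣ) * ∏ i, (u i ^ 2) ^ p.2 i

/-- row REP: systems of representatives exist -/
def RepStatement : Prop :=
  ∀ (K : Type) [Field K] [NumberField K] (N : ℕ) (u : Fin N → (𝓞 K)ˣ), LogInd u →
    ∃ T : Set K, Reps u T

/-- row SCL: finitely many components up to totally positive scaling -/
def SclStatement : Prop :=
  ∀ (K : Type) [Field K] [NumberField K], ∃ 𝒜 : Finset (FI K), ∀ A : FI K, ∃ A' ∈ 𝒜, ∃ s : K,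
    s ≠ 0 ∧ TPos s ∧ (A : FractionalIdeal (𝓞 K)⁰ K) =
      FractionalIdeal.spanSingleton (𝓞 K)⁰ s * (A' : FractionalIdeal (𝓞 K)⁰ K)

/-- row RYT: narrow ray classes in terms of totally positive elements -/
def RytStatement : Prop :=
  ∀ (K : Type) [Field K] [NumberField K] (D J I : Ideal (𝓞 K)), J ≠ ⊥ → D ≠ ⊥ → D ⊔ J = ⊤ →
    (RayN D I J ↔ ∃ t : K, t ≠ 0 ∧ TPos t ∧
      (I : FractionalIdeal (𝓞 K)⁰ K) =
        FractionalIdeal.spanSingleton (𝓞 K)⁰ t * (J : FractionalIdeal (𝓞 K)⁰ K) ∧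
      FractionalIdeal.spanSingleton (𝓞 K)⁰ (t - 1) * (J : FractionalIdeal (𝓞 K)⁰ K) ≤
        (D : FractionalIdeal (𝓞 K)⁰ K))

/-- row AIN1: the central values of the additive twists of the component `A` -/
def Ain1Statement : Prop :=
  ∀ (K : Type) [Field K] [NumberField K] (n : Ideal (𝓞 K)) (c : Ideal (𝓞 K) → ℂ), n ≠ ⊥ →
    Form n c → ∀ (A : FI K) (N : ℕ), Nonempty (Fin (N + 1) ≃ InfinitePlace K) →
    ∃ V0 : Finset ℂ, ∀ (r : K) (u : Fin N → (𝓞 K)ˣ), LogInd u →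
      (∀ i, ((u i : K) - 1) * r ∈ ((A⁻¹ : FI K) : FractionalIdeal (𝓞 K)⁰ K)) →
      ∀ T : Set K, Reps (fun i => u i ^ 2) T →
      ∃ l ∈ AddSubgroup.closure (V0 : Set ℂ), ∃ L : ℂ → ℂ, DifferentiableOn ℂ L {s | 1 < s.re} ∧
        (∃ σ : ℝ, ∀ s : ℂ, σ < s.re →
          HasSum (fun t : {t : K // t ∈ T ∧ TPos t} =>
            coef c A t.1 * chK (t.1 * r) * (nK t.1 : ℂ) ^ (-s)) (L s)) ∧
        Tendsto (fun t : ℝ => L t) (𝓝[>] 1) (𝓝 l)

open Classical in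
/-- row AINT: the central partial L-values of the narrow ray classes modulo `D0 * D`, `D0` fixed
and `D` odd, are bounded at `2` -/
def AintStatement : Prop :=
  ∀ (K : Type) [Field K] [NumberField K] (n : Ideal (𝓞 K)) (c : Ideal (𝓞 K) → ℂ), n ≠ ⊥ →
    Form n c →
    ∀ v : AbsoluteValue ℂ ℝ, (∀ x y : ℂ, v (x + y) ≤ max (v x) (v y)) → v 2 < 1 →
    ∀ D0 : Ideal (𝓞 K), D0 ≠ ⊥ →
    ∃ B : ℝ, ∀ D J : Ideal (𝓞 K), D ≠ ⊥ → J ≠ ⊥ → Odd (Ideal.absNorm D) → (D0 * D) ⊔ J = ⊤ →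
      ∃ l : ℂ, v l ≤ B ∧ CValI (fun I => if RayN (D0 * D) I J then c I else 0) l

/-- row RAYN: the narrow ray classes modulo `D` form a finite set -/
def RaynStatement : Prop :=
  ∀ (K : Type) [Field K] [NumberField K] (D : Ideal (𝓞 K)), D ≠ ⊥ →
    (∀ I J : Ideal (𝓞 K), RayN D I J → RayN D J I) ∧ (∀ I : Ideal (𝓞 K), RayN D I I) ∧
    (∀ I J L : Ideal (𝓞 K), RayN D I J → RayN D J L → RayN D I L) ∧
    (∀ I J : Ideal (𝓞 K), RayN D I J → J ≠ ⊥ → D ⊔ J = ⊤ → I ≠ ⊥ ∧ D ⊔ I = ⊤) ∧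
    (∃ R : Finset (Ideal (𝓞 K)), (∀ J ∈ R, J ≠ ⊥ ∧ D ⊔ J = ⊤) ∧
      (∀ I : Ideal (𝓞 K), I ≠ ⊥ → D ⊔ I = ⊤ → ∃! J, J ∈ R ∧ RayN D I J))

/-- row PSIN: the twist of a form by a narrow ray class character satisfies the setting -/
def PsinStatement : Prop :=
  ∀ (K : Type) [Field K] [NumberField K] (n : Ideal (𝓞 K)) (c : Ideal (𝓞 K) → ℂ), n ≠ ⊥ →
    Form n c →
    ∀ v : AbsoluteValue ℂ ℝ, (∀ x y : ℂ, v (x + y) ≤ max (v x) (v y)) → v 2 < 1 →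
    ∀ (D : Ideal (𝓞 K)) (ψ : Ideal (𝓞 K) → ℂ), D ≠ ⊥ → RCharN D ψ →
    ∃ B : ℝ, ∀ P : Set (Pr K),
      (∀ u ∈ P, Odd (nm u) ∧ ¬ n ≤ u.asIdeal ∧ ¬ D ≤ u.asIdeal ∧
        v (1 - c u.asIdeal * ψ u.asIdeal + ψ u.asIdeal ^ 2) = 1) →
      SettingC (fun a => c a * ψ a) v B P (fun u => ψ u.asIdeal ^ 2)

open Classical in
/-- THE FINAL THEOREM -/
def FinalStatement : Prop :=
  ∀ (K : Type) [Field K] [NumberField K],
    ∀ v : AbsoluteValue ℂ ℝ, (∀ x y : ℂ, v (x + y) ≤ max (v x) (v y)) → v 2 < 1 →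
    ∀ (ι : Type) [Fintype ι] [Nonempty ι] (n D : ι → Ideal (𝓞 K))
      (c ψ : ι → Ideal (𝓞 K) → ℂ),
    (∀ t, n t ≠ ⊥ ∧ D t ≠ ⊥ ∧ Form (n t) (c t) ∧ RCharN (D t) (ψ t)) →
    (∀ t, ∃ l : ℂ, l ≠ 0 ∧ CValI (fun a => c t a * ψ t a) l) →
    ∃ j : ℕ, ∀ P : Set (Pr K),
      (∀ u ∈ P, Odd (nm u) ∧ ∀ t, ¬ n t ≤ u.asIdeal ∧ ¬ D t ≤ u.asIdeal ∧
        v (1 - c t u.asIdeal * ψ t u.asIdeal + ψ t u.asIdeal ^ 2) = 1) →
      -- finite groups of characters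
      (∀ V : Finset (QChar K), V.Nonempty → (∀ χ ∈ V, (χ.T : Set (Pr K)) ⊆ P) →
        Closed (V : Set (QChar K)) →
        V.card ≤ 2 ^ j * (V.filter (fun χ => ∀ t, NonVanC (fun a => c t a * ψ t a) χ)).card) ∧
      -- Dirichlet density
      (∀ S : Set (Pr K), ∀ σ : ℝ, 0 ≤ σ →
        ∑' χ : Fam P S, ENNReal.ofReal ((χ.1.cond : ℝ) ^ (-σ)) ≤
          2 ^ j * ∑' χ : {χ : QChar K // χ ∈ Fam P S ∧
              ∀ t, NonVanC (fun a => c t a * ψ t a) χ},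
            ENNReal.ofReal ((χ.1.cond : ℝ) ^ (-σ))) ∧
      -- natural upper density
      (∀ S : Set (Pr K), S.Finite →
        ∑' u : P, ENNReal.ofReal ((nm u.1 : ℝ) ^ (-1 : ℝ)) = ⊤ →
        ∀ t : ℝ, t < 1 / 2 ^ j → ∃ᶠ X : ℕ in atTop,
          t * Set.ncard {χ : QChar K | χ ∈ Fam P S ∧ χ.cond ≤ X} <
            Set.ncard {χ : QChar K | χ ∈ Fam P S ∧
              (∀ t, NonVanC (fun a => c t a * ψ t a) χ) ∧ χ.cond ≤ X}) ∧
      -- positive lower natural density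
      (∀ S : Set (Pr K), S.Finite →
        (∃ a : ℝ, 0 < a ∧ ∀ᶠ Y : ℕ in atTop, a * Y / Real.log Y ≤
          Set.ncard {u : Pr K | Y < nm u ∧ nm u ≤ 2 * Y ∧ ∃ χ ∈ Fam P S, χ.T = {u}}) →
        ∃ κ : ℝ, 0 < κ ∧ ∀ᶠ X : ℕ in atTop,
          κ * Set.ncard {χ : QChar K | χ ∈ Fam P S ∧ χ.cond ≤ X} ≤
            Set.ncard {χ : QChar K | χ ∈ Fam P S ∧
              (∀ t, NonVanC (fun a => c t a * ψ t a) χ) ∧ χ.cond ≤ X})

end

end Pool.Agent.Lib.MP_50bb2e_nt.Anf
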