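import Pool.Agent.Lib.MP_50bb2e_nt.Anf.Iface

/-!
MP_50bb2e_nt, board ANF, row LAT: lattice sums over fractional ideals of a number field
-/

namespace Pool.Agent.Lib.MP_50bb2e_nt.Anf.Lat

open NumberField
open scoped nonZeroDivisors
open Pool.Agent.Lib.MP_50bb2e_nt.Imq (FI)

variable {K : Type} [Field K] [NumberField K]

theorem nK_eq (ξ : K) : nK ξ = ∏ v : InfinitePlace K, (v ξ) ^ v.mult := by
  rw [InfinitePlace.prod_eq_abs_norm]
  unfold nK
  push_cast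
  rfl

theorem nK_mul (a b : K) : nK (a * b) = nK a * nK b := by
  unfold nK
  rw [map_mul, Rat.cast_mul, abs_mul]

theorem nK_nonneg (a : K) : 0 ≤ nK a := abs_nonneg _

theorem nK_pos {a : K} (ha : a ≠ 0) : 0 < nK a := by
  unfold nK
  rw [abs_pos]
  exact_mod_cast Algebra.norm_ne_zero_iff.2 ha

theorem one_le_nK {y : 𝓞 K} (hy : y ≠ 0) : 1 ≤ nK (y : K) := by
  unfold nK
  rw [← Algebra.coe_norm_int]
  have h : Algebra.norm ℤ y ≠ 0 := Algebra.norm_ne_zero_iff.2 hy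
  have h1 : (1 : ℤ) ≤ |Algebra.norm ℤ y| := Int.one_le_abs h
  have h2 : ((1 : ℤ) : ℝ) ≤ ((|Algebra.norm ℤ y| : ℤ) : ℝ) := by exact_mod_cast h1
  rw [Int.cast_one, Int.cast_abs] at h2
  rw [Rat.cast_intCast]
  exact h2

theorem exists_den (B : FI K) : ∃ d : 𝓞 K, d ≠ 0 ∧
    ∀ ξ : K, ξ ∈ (B : FractionalIdeal (𝓞 K)⁰ K) → ∃ y : 𝓞 K, (y : K) = (d : K) * ξ := by
  obtain ⟨d, hd, h⟩ := (B : FractionalIdeal (𝓞 K)⁰ K).isFractional
  refine ⟨d, nonZeroDivisors.ne_zero hd, fun ξ hξ => ?_⟩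
  obtain ⟨y, hy⟩ := h ξ hξ
  refine ⟨y, ?_⟩
  have hy' : (y : K) = d • ξ := hy
  rw [hy', Algebra.smul_def]

theorem part1 (B : FI K) : ∃ ρ : ℝ, 0 < ρ ∧
    ∀ ξ : K, ξ ∈ (B : FractionalIdeal (𝓞 K)⁰ K) → ξ ≠ 0 → ρ ≤ nK ξ := by
  obtain ⟨d, hd, h⟩ := exists_den B
  have hd' : (d : K) ≠ 0 := RingOfIntegers.coe_ne_zero_iff.2 hd
  refine ⟨(nK (d : K))⁻¹, inv_pos.2 (nK_pos hd'), fun ξ hξ h0 => ?_⟩
  obtain ⟨y, hy⟩ := h ξ hξ
  have hy0 : y ≠ 0 := by
    intro h00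
    refine (mul_ne_zero hd' h0) (hy.symm.trans ?_)
    rw [h00]
    exact map_zero (algebraMap (𝓞 K) K)
  have h1 := one_le_nK hy0
  rw [hy, nK_mul] at h1
  rw [inv_le_iff_one_le_mul₀ (nK_pos hd'), mul_comm]
  exact h1

theorem part3 (B : FI K) (R : ℝ) : {ξ : K | ξ ∈ (B : FractionalIdeal (𝓞 K)⁰ K) ∧
      ∀ v : InfinitePlace K, v ξ ≤ R}.Finite := by
  obtain ⟨d, hd, h⟩ := exists_den B
  have hd' : (d : K) ≠ 0 := RingOfIntegers.coe_ne_zero_iff.2 hd
  have hfin := Embeddings.finite_of_norm_le K ℂ ((∑ v : InfinitePlace K, v (d : K)) * R)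
  refine Set.Finite.of_finite_image (f := fun ξ : K => (d : K) * ξ) (hfin.subset ?_)
    (fun a _ b _ hab => mul_left_cancel₀ hd' hab)
  rintro _ ⟨ξ, ⟨hξ, hv⟩, rfl⟩
  obtain ⟨y, hy⟩ := h ξ hξ
  refine ⟨?_, fun φ => ?_⟩
  · change IsIntegral ℤ ((d : K) * ξ)
    rw [← hy]
    exact RingOfIntegers.isIntegral_coe y
  · change ‖φ ((d : K) * ξ)‖ ≤ _
    rw [map_mul, norm_mul, ← InfinitePlace.apply φ, ← InfinitePlace.apply φ]
    have h1 : (InfinitePlace.mk φ) (d : K) ≤ ∑ v : InfinitePlace K, v (d : K) :=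
      Finset.single_le_sum (f := fun v : InfinitePlace K => v (d : K)) (fun v _ => apply_nonneg v _)
        (Finset.mem_univ _)
    have h2 := hv (InfinitePlace.mk φ)
    have h3 : 0 ≤ (InfinitePlace.mk φ) ξ := apply_nonneg _ _
    exact mul_le_mul h1 h2 h3 (Finset.sum_nonneg fun v _ => apply_nonneg v _)

theorem exp_bound {κ : ℝ} (hκ : 0 < κ) (N : ℕ) {t : ℝ} (ht : 0 ≤ t) :
    t ^ N * Real.exp (-κ * t) ≤ N.factorial / κ ^ N := by
  have h1 := Real.pow_div_factorial_le_exp (κ * t) (mul_nonneg hκ.le ht) N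
  have h2 : 0 < (N.factorial : ℝ) := by exact_mod_cast Nat.factorial_pos N
  rw [div_le_iff₀ h2] at h1
  rw [le_div_iff₀ (pow_pos hκ N)]
  have h3 : Real.exp (κ * t) * Real.exp (-κ * t) = 1 := by
    rw [← Real.exp_add]
    simp
  calc t ^ N * Real.exp (-κ * t) * κ ^ N = (κ * t) ^ N * Real.exp (-κ * t) := by
        rw [mul_pow]; ring
    _ ≤ (Real.exp (κ * t) * N.factorial) * Real.exp (-κ * t) := by
        gcongr
    _ = N.factorial * (Real.exp (κ * t) * Real.exp (-κ * t)) := by ring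
    _ = N.factorial := by rw [h3, mul_one]

open scoped Classical in
theorem norm_mixed_le (ξ : K) : ‖mixedEmbedding K ξ‖ ≤ ∑ v : InfinitePlace K, v ξ := by
  rw [mixedEmbedding.norm_eq_sup'_normAtPlace]
  refine Finset.sup'_le _ _ fun v _ => ?_
  rw [mixedEmbedding.normAtPlace_apply]
  exact Finset.single_le_sum (f := fun v : InfinitePlace K => v ξ) (fun v _ => apply_nonneg v _)
    (Finset.mem_univ _)

theorem nK_le (ξ : K) : nK ξ ≤ (∑ v : InfinitePlace K, v ξ) ^ (∑ v : InfinitePlace K, v.mult) := by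
  rw [nK_eq, ← Finset.prod_pow_eq_pow_sum]
  refine Finset.prod_le_prod (fun v _ => pow_nonneg (apply_nonneg v _) _) fun v _ => ?_
  exact pow_le_pow_left₀ (apply_nonneg v _) (Finset.single_le_sum
    (f := fun v : InfinitePlace K => v ξ) (fun v _ => apply_nonneg v _) (Finset.mem_univ _)) _

theorem part4 (B : FI K) (κ : ℝ) (m : ℕ) (hκ : 0 < κ) :
    Summable (fun ξ : {ξ : K // ξ ∈ (B : FractionalIdeal (𝓞 K)⁰ K)} =>
      nK ξ.1 ^ m * Real.exp (-κ * ∑ v : InfinitePlace K, v ξ.1)) := by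
  classical
  set n : ℕ := Module.finrank ℤ (mixedEmbedding.idealLattice K B) + 1 with hn
  set D : ℕ := ∑ v : InfinitePlace K, v.mult with hD
  have hs := ZLattice.summable_norm_pow_inv (mixedEmbedding.idealLattice K B) n (by omega)
  let e : {ξ : K // ξ ∈ (B : FractionalIdeal (𝓞 K)⁰ K)} → mixedEmbedding.idealLattice K B :=
    fun ξ => ⟨mixedEmbedding K ξ.1, (mixedEmbedding.mem_idealLattice K B).2 ⟨ξ.1, ξ.2, rfl⟩⟩
  have he : Function.Injective e := by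
    intro a b hab
    have h1 : mixedEmbedding K a.1 = mixedEmbedding K b.1 := congrArg Subtype.val hab
    exact Subtype.ext (mixedEmbedding_injective K h1)
  have hs' := (hs.comp_injective he).mul_left ((D * m + n).factorial / κ ^ (D * m + n) : ℝ)
  refine Summable.of_norm_bounded_eventually hs' ?_
  refine Set.Finite.subset (Set.finite_singleton
    (⟨0, (B : FractionalIdeal (𝓞 K)⁰ K).zero_mem⟩ : {ξ : K // ξ ∈ (B : FractionalIdeal (𝓞 K)⁰ K)})) ?_
  intro ξ hξ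
  by_contra hne
  refine hξ ?_
  change ‖nK ξ.1 ^ m * Real.exp (-κ * ∑ v : InfinitePlace K, v ξ.1)‖ ≤
    ((D * m + n).factorial / κ ^ (D * m + n) : ℝ) * ‖mixedEmbedding K ξ.1‖⁻¹ ^ n
  have hξ0 : ξ.1 ≠ 0 := fun h => hne (Subtype.ext h)
  have hpos : 0 < ‖mixedEmbedding K ξ.1‖ := by
    rw [norm_pos_iff]
    intro h
    exact hξ0 (mixedEmbedding_injective K (h.trans (map_zero _).symm))
  have hle := norm_mixed_le ξ.1
  set S : ℝ := ∑ v : InfinitePlace K, v ξ.1 with hS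
  have hSpos : 0 < S := lt_of_lt_of_le hpos hle
  have h1 := nK_le ξ.1
  rw [← hS, ← hD] at h1
  have h2 := exp_bound hκ (D * m + n) hSpos.le
  have h3 : 0 ≤ nK ξ.1 ^ m * Real.exp (-κ * S) :=
    mul_nonneg (pow_nonneg (nK_nonneg _) _) (Real.exp_pos _).le
  rw [Real.norm_of_nonneg h3]
  have h4 : 0 ≤ ((D * m + n).factorial / κ ^ (D * m + n) : ℝ) := by positivity
  calc nK ξ.1 ^ m * Real.exp (-κ * S) ≤ (S ^ D) ^ m * Real.exp (-κ * S) := by
        have := nK_nonneg ξ.1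
        gcongr
    _ = (S ^ (D * m + n) * Real.exp (-κ * S)) * S⁻¹ ^ n := by
        rw [← pow_mul, pow_add, inv_pow]
        have : S ^ n ≠ 0 := (pow_pos hSpos n).ne'
        field_simp
    _ ≤ ((D * m + n).factorial / κ ^ (D * m + n) : ℝ) * S⁻¹ ^ n := by
        gcongr
    _ ≤ ((D * m + n).factorial / κ ^ (D * m + n) : ℝ) * ‖mixedEmbedding K ξ.1‖⁻¹ ^ n := by
        gcongr

theorem lat_proof : LatStatement := by
  intro K _ _ B
  exact ⟨part1 B, nK_eq, part3 B, fun κ m hκ => part4 B κ m hκ⟩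

end Pool.Agent.Lib.MP_50bb2e_nt.Anf.Lat
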