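import Pool.Agent.Lib.MP_50bb2e_nt.Anf.Iface

/-! MP_50bb2e_nt, board ANF, row SCL: finitely many components up to totally positive scaling. -/

namespace Pool.Agent.Lib.MP_50bb2e_nt.Anf.Scl

open Complex MeasureTheory Filter Topology NumberField IsDedekindDomain
open scoped ComplexConjugate nonZeroDivisors LinearAlgebra.Projectivization
open Pool.Agent.Lib.MP_50bb2e_nt.Imq (FI SLK)
open Pool.Agent.Lib.MP_50bb2e_nt.Anf

noncomputable section

variable {K : Type} [Field K] [NumberField K]

theorem real_emb {v : InfinitePlace K} (hv : v.IsReal) (x : K) :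
    v.embedding x = ((v.embedding x).re : ℂ) := by
  have h1 : ComplexEmbedding.IsReal v.embedding := InfinitePlace.isReal_iff.1 hv
  have h2 : conj (v.embedding x) = v.embedding x := RingHom.congr_fun h1 x
  exact (Complex.conj_eq_iff_re.1 h2).symm

theorem re_ne {v : InfinitePlace K} (hv : v.IsReal) {x : K} (hx : x ≠ 0) :
    (v.embedding x).re ≠ 0 := by
  intro h
  have h1 := real_emb hv x
  rw [h, Complex.ofReal_zero, map_eq_zero] at h1
  exact hx h1

theorem div_pos_of {v : InfinitePlace K} (hv : v.IsReal) {x y : K} (hx : x ≠ 0) (hy : y ≠ 0)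
    (h : 0 < (v.embedding x).re ↔ 0 < (v.embedding y).re) : 0 < (v.embedding (x / y)).re := by
  have e1 : v.embedding (x / y) = (((v.embedding x).re / (v.embedding y).re : ℝ) : ℂ) := by
    rw [map_div₀]
    conv_lhs => rw [real_emb hv x, real_emb hv y]
    push_cast
    rfl
  rw [e1, Complex.ofReal_re]
  have h1 := re_ne hv hx
  have h2 := re_ne hv hy
  by_cases hp : 0 < (v.embedding x).re
  · exact div_pos hp (h.1 hp)
  · have hp' : ¬ 0 < (v.embedding y).re := fun h' => hp (h.2 h')
    exact div_pos_of_neg_of_neg (lt_of_le_of_ne (not_lt.1 hp) h1)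
      (lt_of_le_of_ne (not_lt.1 hp') h2)

theorem scl_proof : SclStatement := by
  intro K _ _
  classical
  have hsurj : ∀ x : ClassGroup (𝓞 K), ∃ I : FI K, ClassGroup.mk K I = x :=
    ClassGroup.induction K (fun I => ⟨I, rfl⟩)
  choose g hg using hsurj
  have hα : ∀ A : FI K, ∃ α : K, α ≠ 0 ∧ (A : FractionalIdeal (𝓞 K)⁰ K) =
      FractionalIdeal.spanSingleton (𝓞 K)⁰ α *
        (g (ClassGroup.mk K A) : FractionalIdeal (𝓞 K)⁰ K) := by
    intro A
    have h1 : ClassGroup.mk K ((g (ClassGroup.mk K A))⁻¹ * A) = 1 := by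
      rw [map_mul, map_inv, hg, inv_mul_cancel]
    rw [ClassGroup.mk_eq_one_iff, FractionalIdeal.isPrincipal_iff] at h1
    obtain ⟨α, hα⟩ := h1
    refine ⟨α, ?_, ?_⟩
    · rintro rfl
      rw [FractionalIdeal.spanSingleton_zero] at hα
      exact ((g (ClassGroup.mk K A))⁻¹ * A).ne_zero hα
    · rw [← hα, Units.val_mul, mul_comm, ← mul_assoc, ← Units.val_mul, mul_inv_cancel,
        Units.val_one, one_mul]
  choose α hα0 hαe using hα
  let f : FI K → ClassGroup (𝓞 K) × (InfinitePlace K → Bool) := fun A =>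
    (ClassGroup.mk K A, fun v => decide (0 < (v.embedding (α A)).re))
  let h : ClassGroup (𝓞 K) × (InfinitePlace K → Bool) → FI K := fun y =>
    if hy : ∃ A, f A = y then hy.choose else 1
  refine ⟨Finset.univ.image h, fun A => ⟨h (f A), Finset.mem_image_of_mem _ (Finset.mem_univ _),
    α A / α (h (f A)), ?_, ?_, ?_⟩⟩
  · exact div_ne_zero (hα0 _) (hα0 _)
  · intro v hv
    have hf : f (h (f A)) = f A := by
      have hy : ∃ A', f A' = f A := ⟨A, rfl⟩
      simp only [h]
      rw [dif_pos hy]
      exact hy.choose_spec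
    have h1 := congrFun (congrArg Prod.snd hf) v
    simp only [f] at h1
    refine div_pos_of hv (hα0 _) (hα0 _) ?_
    exact (decide_eq_decide.1 h1).symm
  · have hf : f (h (f A)) = f A := by
      have hy : ∃ A', f A' = f A := ⟨A, rfl⟩
      simp only [h]
      rw [dif_pos hy]
      exact hy.choose_spec
    have h1 : ClassGroup.mk K (h (f A)) = ClassGroup.mk K A := congrArg Prod.fst hf
    rw [hαe A, ← h1]
    conv_rhs => rw [hαe (h (f A))]
    rw [← mul_assoc, FractionalIdeal.spanSingleton_mul_spanSingleton,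
      div_mul_cancel₀ _ (hα0 _)]

end

end Pool.Agent.Lib.MP_50bb2e_nt.Anf.Scl
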